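import Pool.Agent.Lib_helper10.T2F.MER
import Pool.Agent.Lib_helper23.BG4F.MER

/-!
# Mertens' theorem for the primes `1 mod 4`, two-sided (helper52; copy for the project TR)
-/

set_option autoImplicit false

namespace Pool.Agent.TR

open Pool.Agent.T2 Filter Topology

/-- the character modulo `4` -/
noncomputable def m4_c (n : ℕ) : ℝ := ((ZMod.χ₄ (n : ZMod 4) : ℤ) : ℝ)

theorem m4_c_mul (m n : ℕ) : m4_c (m * n) = m4_c m * m4_c n := by
  unfold m4_c
  rw [Nat.cast_mul, map_mul, Int.cast_mul]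

theorem m4_c_eq (n : ℕ) :
    m4_c n = if n % 2 = 0 then 0 else if n % 4 = 1 then 1 else -1 := by
  unfold m4_c
  rw [ZMod.χ₄_nat_eq_if_mod_four]
  split_ifs <;> norm_num

theorem m4_c_abs (n : ℕ) : |m4_c n| ≤ 1 := by
  rw [m4_c_eq]
  split_ifs <;> norm_num

theorem m4_sum (n : ℕ) :
    ∑ i ∈ Finset.Ioc 0 n, m4_c i = if n % 4 = 1 ∨ n % 4 = 2 then 1 else 0 := by
  induction n with
  | zero => simp
  | succ n ih =>
    rw [Finset.sum_Ioc_succ_top (Nat.zero_le n), ih, m4_c_eq]
    split_ifs <;> first | omega | norm_num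

theorem m4_sum_abs {k n : ℕ} (hk : k ≤ n) : |∑ i ∈ Finset.Ioc k n, m4_c i| ≤ 1 := by
  have h1 := Finset.sum_Ioc_consecutive m4_c (Nat.zero_le k) hk
  have h2 : ∑ i ∈ Finset.Ioc k n, m4_c i =
      ∑ i ∈ Finset.Ioc 0 n, m4_c i - ∑ i ∈ Finset.Ioc 0 k, m4_c i := by
    rw [← h1]
    ring
  rw [h2, m4_sum, m4_sum]
  split_ifs <;> norm_num

/-- partial summation -/
theorem m4_abel (g : ℕ → ℝ) (k : ℕ) (hg : ∀ n, k + 1 ≤ n → g (n + 1) ≤ g n)
    (hg0 : ∀ n, k + 1 ≤ n → 0 ≤ g n) (n : ℕ) (hn : k ≤ n) :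
    |∑ i ∈ Finset.Ioc k n, m4_c i * g i| ≤ g (k + 1) := by
  rcases Nat.eq_or_lt_of_le hn with rfl | hn
  · rw [Finset.Ioc_self, Finset.sum_empty, abs_zero]
    exact hg0 _ le_rfl
  · have key : ∀ n, k + 1 ≤ n → |∑ i ∈ Finset.Ioc k n, m4_c i * g i -
        (∑ i ∈ Finset.Ioc k n, m4_c i) * g n| ≤ g (k + 1) - g n := by
      intro n hn
      induction n, hn using Nat.le_induction with
      | base =>
        rw [Finset.sum_Ioc_succ_top le_rfl, Finset.sum_Ioc_succ_top le_rfl, Finset.Ioc_self,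
          Finset.sum_empty, Finset.sum_empty, zero_add, zero_add, sub_self, abs_zero, sub_self]
      | succ n hn ih =>
        rw [Finset.sum_Ioc_succ_top (by omega), Finset.sum_Ioc_succ_top (by omega)]
        have e1 : ∑ i ∈ Finset.Ioc k n, m4_c i * g i + m4_c (n + 1) * g (n + 1) -
            (∑ i ∈ Finset.Ioc k n, m4_c i + m4_c (n + 1)) * g (n + 1) =
            (∑ i ∈ Finset.Ioc k n, m4_c i * g i - (∑ i ∈ Finset.Ioc k n, m4_c i) * g n) +
            (∑ i ∈ Finset.Ioc k n, m4_c i) * (g n - g (n + 1)) := by ring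
        rw [e1]
        refine (abs_add_le _ _).trans ?_
        have e2 : |(∑ i ∈ Finset.Ioc k n, m4_c i) * (g n - g (n + 1))| ≤ g n - g (n + 1) := by
          rw [abs_mul, abs_of_nonneg (sub_nonneg.2 (hg n hn))]
          exact mul_le_of_le_one_left (sub_nonneg.2 (hg n hn)) (m4_sum_abs (by omega))
        linarith
    have h1 := key n hn
    have h2 : |(∑ i ∈ Finset.Ioc k n, m4_c i) * g n| ≤ g n := by
      rw [abs_mul, abs_of_nonneg (hg0 n hn)]
      exact mul_le_of_le_one_left (hg0 n hn) (m4_sum_abs (by omega))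
    have h3 : ∑ i ∈ Finset.Ioc k n, m4_c i * g i =
        (∑ i ∈ Finset.Ioc k n, m4_c i * g i - (∑ i ∈ Finset.Ioc k n, m4_c i) * g n) +
        (∑ i ∈ Finset.Ioc k n, m4_c i) * g n := by ring
    rw [h3]
    refine (abs_add_le _ _).trans ?_
    linarith

/-- the partial sums of `L(1, χ)` -/
noncomputable def m4_T (x : ℕ) : ℝ := ∑ i ∈ Finset.Ioc 0 x, m4_c i * (1 / (i : ℝ))

theorem m4_T_diff {k n : ℕ} (hk : k ≤ n) : |m4_T n - m4_T k| ≤ 1 / ((k : ℝ) + 1) := by
  have h1 := Finset.sum_Ioc_consecutive (fun i : ℕ => m4_c i * (1 / (i : ℝ))) (Nat.zero_le k) hk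
  have h2 : m4_T n - m4_T k = ∑ i ∈ Finset.Ioc k n, m4_c i * (1 / (i : ℝ)) := by
    unfold m4_T
    rw [← h1]
    ring
  rw [h2]
  have h3 := m4_abel (fun i : ℕ => 1 / (i : ℝ)) k (fun m hm => by
    have hm0 : (0 : ℝ) < m := by exact_mod_cast (by omega : 0 < m)
    apply one_div_le_one_div_of_le hm0
    push_cast
    linarith) (fun m _ => by positivity) n hk
  refine h3.trans (le_of_eq ?_)
  push_cast
  rfl

theorem m4_T_lower {x : ℕ} (hx : 1 ≤ x) : 2 / 3 ≤ m4_T x := by
  have hT1 : m4_T 1 = 1 := by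
    unfold m4_T
    rw [show Finset.Ioc 0 1 = {1} from rfl, Finset.sum_singleton, m4_c_eq]
    norm_num
  have hT2 : m4_T 2 = 1 := by
    unfold m4_T
    rw [Finset.sum_Ioc_succ_top (by norm_num)]
    have h1 : ∑ i ∈ Finset.Ioc 0 1, m4_c i * (1 / (i : ℝ)) = m4_T 1 := rfl
    rw [h1, hT1, m4_c_eq]
    norm_num
  rcases Nat.eq_or_lt_of_le hx with h | h
  · rw [← h, hT1]
    norm_num
  · have h1 := m4_T_diff (k := 2) (n := x) h
    rw [hT2] at h1
    have h2 := (abs_le.1 h1).1
    norm_num at h2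
    linarith

theorem m4_log_sum (x : ℕ) :
    |∑ i ∈ Finset.Ioc 0 x, m4_c i * (Real.log i / i)| ≤ 4 := by
  have hb : ∀ i : ℕ, 1 ≤ i → |m4_c i * (Real.log i / i)| ≤ 1 := by
    intro i hi
    have hi0 : (0 : ℝ) < i := by exact_mod_cast hi
    have h0 : 0 ≤ Real.log i / i := div_nonneg (Real.log_natCast_nonneg i) hi0.le
    rw [abs_mul, abs_of_nonneg h0]
    have h1 : Real.log i / i ≤ 1 := by
      rw [div_le_one hi0]
      have := Real.log_le_sub_one_of_pos hi0
      linarith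
    calc |m4_c i| * (Real.log i / i) ≤ 1 * 1 :=
          mul_le_mul (m4_c_abs i) h1 h0 zero_le_one
      _ = 1 := one_mul 1
  have hs : ∀ y : ℕ, y ≤ 3 → |∑ i ∈ Finset.Ioc 0 y, m4_c i * (Real.log i / i)| ≤ 3 := by
    intro y hy
    calc |∑ i ∈ Finset.Ioc 0 y, m4_c i * (Real.log i / i)| ≤
          ∑ i ∈ Finset.Ioc 0 y, |m4_c i * (Real.log i / i)| := Finset.abs_sum_le_sum_abs _ _
      _ ≤ ∑ i ∈ Finset.Ioc 0 y, (1 : ℝ) := Finset.sum_le_sum fun i hi =>
          hb i (Finset.mem_Ioc.1 hi).1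
      _ = y := by rw [Finset.sum_const, Nat.card_Ioc, nsmul_eq_mul, mul_one, Nat.sub_zero]
      _ ≤ 3 := by exact_mod_cast hy
  rcases Nat.lt_or_ge x 3 with hx | hx
  · exact (hs x hx.le).trans (by norm_num)
  · rw [← Finset.sum_Ioc_consecutive _ (Nat.zero_le 3) hx]
    refine (abs_add_le _ _).trans ?_
    have h1 := hs 3 le_rfl
    have hg0 : ∀ m : ℕ, 3 + 1 ≤ m → 0 ≤ Real.log (m : ℝ) / m := fun m _ =>
      div_nonneg (Real.log_natCast_nonneg m) (Nat.cast_nonneg m)
    have h2 := m4_abel (fun i : ℕ => Real.log i / i) 3 (fun m hm => by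
      have hm4 : (4 : ℝ) ≤ m := by exact_mod_cast hm
      have he := Real.exp_one_lt_d9
      apply Real.log_div_self_antitoneOn
      · rw [Set.mem_Ici]
        linarith
      · rw [Set.mem_Ici]
        push_cast
        linarith
      · push_cast
        linarith) hg0 x hx
    have h3 : Real.log ((3 + 1 : ℕ) : ℝ) / ((3 + 1 : ℕ) : ℝ) ≤ 1 := by
      rw [div_le_one (by norm_num)]
      have := Real.log_le_sub_one_of_pos (x := ((3 + 1 : ℕ) : ℝ)) (by norm_num)
      linarith
    linarith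

/-- the arithmetic function `χ Λ / id` -/
noncomputable def m4_F : ArithmeticFunction ℝ :=
  ⟨fun n => m4_c n * (ArithmeticFunction.vonMangoldt n / n), by simp⟩

/-- the arithmetic function `χ / id` -/
noncomputable def m4_H : ArithmeticFunction ℝ :=
  ⟨fun n => m4_c n * (1 / (n : ℝ)), by simp⟩

theorem m4_conv (n : ℕ) : (m4_F * m4_H) n = m4_c n * (Real.log n / n) := by
  rcases Nat.eq_zero_or_pos n with h0 | h0
  · rw [h0, ArithmeticFunction.map_zero, Nat.cast_zero, Real.log_zero]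
    ring
  rw [ArithmeticFunction.mul_apply,
    Nat.sum_divisorsAntidiagonal (f := fun a b => m4_F a * m4_H b),
    ← ArithmeticFunction.vonMangoldt_sum, Finset.sum_div, Finset.mul_sum]
  apply Finset.sum_congr rfl
  intro d hd
  have hdn := Nat.dvd_of_mem_divisors hd
  obtain ⟨m, rfl⟩ := hdn
  have hd0 : 0 < d := Nat.pos_of_mul_pos_right h0 |> fun _ => Nat.pos_of_ne_zero (by
    rintro rfl
    simp at h0)
  have hm0 : 0 < m := Nat.pos_of_ne_zero (by
    rintro rfl
    simp at h0)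
  rw [Nat.mul_div_cancel_left m hd0]
  show m4_c d * (ArithmeticFunction.vonMangoldt d / d) * (m4_c m * (1 / (m : ℝ))) = _
  rw [m4_c_mul]
  have hd1 : (d : ℝ) ≠ 0 := by exact_mod_cast hd0.ne'
  have hm1 : (m : ℝ) ≠ 0 := by exact_mod_cast hm0.ne'
  push_cast
  field_simp

theorem m4_psi (x : ℕ) :
    ∑ n ∈ Finset.Ioc 0 x, ArithmeticFunction.vonMangoldt n ≤ (Real.log 4 + 4) * x := by
  have h := Chebyshev.psi_le_const_mul_self (x := (x : ℝ)) (Nat.cast_nonneg x)
  unfold Chebyshev.psi at h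
  rwa [Nat.floor_natCast] at h

/-- the sum `∑ χ(n) Λ(n) / n` is bounded -/
theorem m4_S (x : ℕ) (hx : 1 ≤ x) :
    |∑ n ∈ Finset.Ioc 0 x, m4_c n * (ArithmeticFunction.vonMangoldt n / n)| ≤
      3 / 2 * (4 + (Real.log 4 + 4)) := by
  have hx0 : (0 : ℝ) < x := by exact_mod_cast hx
  set S := ∑ n ∈ Finset.Ioc 0 x, m4_c n * (ArithmeticFunction.vonMangoldt n / n) with hS
  have h1 : ∑ n ∈ Finset.Ioc 0 x, m4_c n * (Real.log n / n) =
      ∑ n ∈ Finset.Ioc 0 x, m4_c n * (ArithmeticFunction.vonMangoldt n / n) * m4_T (x / n) := by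
    have h2 := ArithmeticFunction.sum_Ioc_mul_eq_sum_sum m4_F m4_H x
    rw [Finset.sum_congr rfl (fun n _ => m4_conv n)] at h2
    exact h2
  have h2 : m4_T x * S = ∑ n ∈ Finset.Ioc 0 x, m4_c n * (Real.log n / n) +
      ∑ n ∈ Finset.Ioc 0 x, m4_c n * (ArithmeticFunction.vonMangoldt n / n) *
        (m4_T x - m4_T (x / n)) := by
    rw [h1, ← Finset.sum_add_distrib, hS, Finset.mul_sum]
    apply Finset.sum_congr rfl
    intro n _
    ring
  have h3 : |∑ n ∈ Finset.Ioc 0 x, m4_c n * (ArithmeticFunction.vonMangoldt n / n) *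
      (m4_T x - m4_T (x / n))| ≤ Real.log 4 + 4 := by
    calc |∑ n ∈ Finset.Ioc 0 x, m4_c n * (ArithmeticFunction.vonMangoldt n / n) *
          (m4_T x - m4_T (x / n))| ≤
          ∑ n ∈ Finset.Ioc 0 x, |m4_c n * (ArithmeticFunction.vonMangoldt n / n) *
          (m4_T x - m4_T (x / n))| := Finset.abs_sum_le_sum_abs _ _
      _ ≤ ∑ n ∈ Finset.Ioc 0 x, ArithmeticFunction.vonMangoldt n / x := by
        apply Finset.sum_le_sum
        intro n hn
        rw [Finset.mem_Ioc] at hn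
        have hn0 : (0 : ℝ) < n := by exact_mod_cast hn.1
        have hL : 0 ≤ ArithmeticFunction.vonMangoldt n := ArithmeticFunction.vonMangoldt_nonneg
        have e1 : |m4_c n * (ArithmeticFunction.vonMangoldt n / n)| ≤
            ArithmeticFunction.vonMangoldt n / n := by
          rw [abs_mul, abs_of_nonneg (div_nonneg hL hn0.le)]
          exact mul_le_of_le_one_left (div_nonneg hL hn0.le) (m4_c_abs n)
        have e2 : |m4_T x - m4_T (x / n)| ≤ n / x := by
          refine (m4_T_diff (Nat.div_le_self x n)).trans ?_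
          rw [div_le_div_iff₀ (by positivity) hx0, one_mul]
          have h5 : x < n * (x / n + 1) := by
            have := Nat.lt_mul_div_succ x hn.1
            exact this
          have h6 : (x : ℝ) ≤ n * (((x / n : ℕ) : ℝ) + 1) := by exact_mod_cast h5.le
          exact h6
        rw [abs_mul]
        calc |m4_c n * (ArithmeticFunction.vonMangoldt n / n)| * |m4_T x - m4_T (x / n)| ≤
              (ArithmeticFunction.vonMangoldt n / n) * (n / x) :=
              mul_le_mul e1 e2 (abs_nonneg _) (div_nonneg hL hn0.le)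
          _ = ArithmeticFunction.vonMangoldt n / x := by
            field_simp
      _ = (∑ n ∈ Finset.Ioc 0 x, ArithmeticFunction.vonMangoldt n) / x := by
        rw [Finset.sum_div]
      _ ≤ Real.log 4 + 4 := by
        rw [div_le_iff₀ hx0]
        exact m4_psi x
  have h4 := m4_log_sum x
  have h5 : |m4_T x * S| ≤ 4 + (Real.log 4 + 4) := by
    rw [h2]
    exact (abs_add_le _ _).trans (add_le_add h4 h3)
  have h6 := m4_T_lower hx
  rw [abs_mul, abs_of_pos (by linarith)] at h5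
  have h7 : 2 / 3 * |S| ≤ m4_T x * |S| := mul_le_mul_of_nonneg_right h6 (abs_nonneg _)
  linarith

/-- Mertens, upper bound with all prime powers -/
theorem m4_vM (x : ℕ) (hx : 1 ≤ x) :
    ∑ n ∈ Finset.Ioc 0 x, ArithmeticFunction.vonMangoldt n / (n : ℝ) ≤
      Real.log x + (Real.log 4 + 4) := by
  have hN0 : (0 : ℝ) < x := by exact_mod_cast hx
  have h1 : ∑ n ∈ Finset.Ioc 0 x, ArithmeticFunction.vonMangoldt n * ((x / n : ℕ) : ℝ) ≤
      x * Real.log x := by
    rw [← ArithmeticFunction.sum_Ioc_mul_zeta_eq_sum, ArithmeticFunction.vonMangoldt_mul_zeta]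
    calc ∑ n ∈ Finset.Ioc 0 x, ArithmeticFunction.log n ≤ ∑ _n ∈ Finset.Ioc 0 x, Real.log x := by
          refine Finset.sum_le_sum fun n hn => ?_
          rw [Finset.mem_Ioc] at hn
          rw [ArithmeticFunction.log_apply]
          exact Real.log_le_log (by exact_mod_cast hn.1) (by exact_mod_cast hn.2)
      _ = x * Real.log x := by
          rw [Finset.sum_const, Nat.card_Ioc, nsmul_eq_mul, Nat.sub_zero]
  have h2 := m4_psi x
  have h3 : (x : ℝ) * ∑ n ∈ Finset.Ioc 0 x, ArithmeticFunction.vonMangoldt n / (n : ℝ) ≤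
      x * Real.log x + (Real.log 4 + 4) * x := by
    rw [Finset.mul_sum]
    calc ∑ n ∈ Finset.Ioc 0 x, (x : ℝ) * (ArithmeticFunction.vonMangoldt n / n) ≤
        ∑ n ∈ Finset.Ioc 0 x, (ArithmeticFunction.vonMangoldt n * ((x / n : ℕ) : ℝ) +
          ArithmeticFunction.vonMangoldt n) := by
          apply Finset.sum_le_sum
          intro n hn
          rw [Finset.mem_Ioc] at hn
          have hn0 : (0 : ℝ) < n := by exact_mod_cast hn.1
          have hL : 0 ≤ ArithmeticFunction.vonMangoldt n := ArithmeticFunction.vonMangoldt_nonneg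
          have h5 : x < n * (x / n + 1) := Nat.lt_mul_div_succ x hn.1
          have h6 : (x : ℝ) ≤ n * (((x / n : ℕ) : ℝ) + 1) := by exact_mod_cast h5.le
          have h7 : (x : ℝ) / n ≤ ((x / n : ℕ) : ℝ) + 1 := by
            rw [div_le_iff₀ hn0]
            linarith
          calc (x : ℝ) * (ArithmeticFunction.vonMangoldt n / n) =
                ArithmeticFunction.vonMangoldt n * ((x : ℝ) / n) := by ring
            _ ≤ ArithmeticFunction.vonMangoldt n * (((x / n : ℕ) : ℝ) + 1) :=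
                mul_le_mul_of_nonneg_left h7 hL
            _ = _ := by ring
      _ ≤ _ := by
          rw [Finset.sum_add_distrib]
          exact add_le_add h1 h2
  have h4 : (x : ℝ) * ∑ n ∈ Finset.Ioc 0 x, ArithmeticFunction.vonMangoldt n / (n : ℝ) ≤
      x * (Real.log x + (Real.log 4 + 4)) := by linarith
  exact le_of_mul_le_mul_left h4 hN0

/-- the primes `1 mod 4` -/
theorem m4_Q : ∃ C : ℝ, 0 ≤ C ∧ ∀ x : ℕ, 1 ≤ x →
    |∑ p ∈ (Finset.Icc 1 x).filter (fun p => p.Prime ∧ p % 4 = 1), Real.log p / p -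
      1 / 2 * Real.log x| ≤ C := by
  obtain ⟨C0, hC0⟩ := Pool.Agent.BG4.mertens_one
  refine ⟨|C0| + 3 / 2 * (4 + (Real.log 4 + 4)) + (|C0| + (Real.log 4 + 4)) + Real.log 2, ?_,
    fun x hx => ?_⟩
  · have h1 : 0 ≤ Real.log 4 := Real.log_nonneg (by norm_num)
    have h2 : 0 ≤ Real.log 2 := Real.log_nonneg (by norm_num)
    positivity
  have hIcc : Finset.Icc 1 x = Finset.Ioc 0 x := rfl
  set P0 := ∑ p ∈ (Finset.Icc 1 x).filter Nat.Prime, Real.log p / (p : ℝ) with hP0
  have hM : |P0 - Real.log x| ≤ |C0| := by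
    have h1 := hC0 x hx
    have h2 : P0 = ∑ p ∈ (Finset.Icc 1 x).filter Nat.Prime, Real.log p / (p : ℝ) := hP0
    calc |P0 - Real.log x| ≤ C0 := by
          rw [h2]
          convert h1 using 3
      _ ≤ |C0| := le_abs_self _
  -- the sum over the primes twisted by the character
  set P1 := ∑ p ∈ (Finset.Icc 1 x).filter Nat.Prime, m4_c p * (Real.log p / (p : ℝ)) with hP1
  have hvp : ∀ p : ℕ, p.Prime → ArithmeticFunction.vonMangoldt p = Real.log p := fun p hp =>
    ArithmeticFunction.vonMangoldt_apply_prime hp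
  have hsplit : ∀ g : ℕ → ℝ, ∑ n ∈ Finset.Ioc 0 x, g n *
      (ArithmeticFunction.vonMangoldt n / n) =
      ∑ p ∈ (Finset.Icc 1 x).filter Nat.Prime, g p * (Real.log p / (p : ℝ)) +
      ∑ p ∈ (Finset.Icc 1 x).filter (fun n => ¬ n.Prime), g p *
        (ArithmeticFunction.vonMangoldt p / p) := by
    intro g
    rw [← hIcc, ← Finset.sum_filter_add_sum_filter_not (Finset.Icc 1 x) Nat.Prime]
    congr 1
    apply Finset.sum_congr rfl
    intro p hp
    rw [Finset.mem_filter] at hp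
    rw [hvp p hp.2]
  have hrest : ∑ p ∈ (Finset.Icc 1 x).filter (fun n => ¬ n.Prime),
      (ArithmeticFunction.vonMangoldt p / (p : ℝ)) ≤ |C0| + (Real.log 4 + 4) := by
    have h1 := hsplit (fun _ => 1)
    simp only [one_mul] at h1
    have h2 := m4_vM x hx
    have h3 := (abs_le.1 hM).1
    have h4 : ∑ p ∈ (Finset.Icc 1 x).filter Nat.Prime, Real.log p / (p : ℝ) = P0 := rfl
    linarith
  have hP1' : |P1| ≤ 3 / 2 * (4 + (Real.log 4 + 4)) + (|C0| + (Real.log 4 + 4)) := by
    have h1 := hsplit m4_c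
    have h2 := m4_S x hx
    have h3 : |∑ p ∈ (Finset.Icc 1 x).filter (fun n => ¬ n.Prime), m4_c p *
        (ArithmeticFunction.vonMangoldt p / p)| ≤ |C0| + (Real.log 4 + 4) := by
      refine (Finset.abs_sum_le_sum_abs _ _).trans (le_trans (Finset.sum_le_sum fun p hp => ?_) hrest)
      have hL : 0 ≤ ArithmeticFunction.vonMangoldt p := ArithmeticFunction.vonMangoldt_nonneg
      have hL2 : 0 ≤ ArithmeticFunction.vonMangoldt p / (p : ℝ) :=
        div_nonneg hL (Nat.cast_nonneg p)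
      rw [abs_mul, abs_of_nonneg hL2]
      exact mul_le_of_le_one_left hL2 (m4_c_abs p)
    have h4 : P1 = ∑ n ∈ Finset.Ioc 0 x, m4_c n * (ArithmeticFunction.vonMangoldt n / n) -
        ∑ p ∈ (Finset.Icc 1 x).filter (fun n => ¬ n.Prime), m4_c p *
        (ArithmeticFunction.vonMangoldt p / p) := by
      rw [h1]
      ring
    rw [h4]
    exact (abs_sub _ _).trans (add_le_add h2 h3)
  -- combination
  have hcomb : |∑ p ∈ (Finset.Icc 1 x).filter (fun p => p.Prime ∧ p % 4 = 1), Real.log p / p -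
      1 / 2 * (P0 + P1)| ≤ Real.log 2 := by
    have h1 : 1 / 2 * (P0 + P1) = ∑ p ∈ (Finset.Icc 1 x).filter Nat.Prime,
        (1 + m4_c p) / 2 * (Real.log p / (p : ℝ)) := by
      rw [hP0, hP1, ← Finset.sum_add_distrib, Finset.mul_sum]
      apply Finset.sum_congr rfl
      intro p _
      ring
    have h2 : ∑ p ∈ (Finset.Icc 1 x).filter (fun p => p.Prime ∧ p % 4 = 1), Real.log p / (p : ℝ) =
        ∑ p ∈ (Finset.Icc 1 x).filter Nat.Prime,
          (if p % 4 = 1 then 1 else 0) * (Real.log p / (p : ℝ)) := by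
      rw [← Finset.filter_filter, Finset.sum_filter]
      apply Finset.sum_congr rfl
      intro p _
      split_ifs
      · rw [one_mul]
      · rw [zero_mul]
    rw [h1, h2, ← Finset.sum_sub_distrib]
    have h3 : ∀ p ∈ (Finset.Icc 1 x).filter Nat.Prime,
        (if p % 4 = 1 then (1 : ℝ) else 0) * (Real.log p / (p : ℝ)) -
          (1 + m4_c p) / 2 * (Real.log p / (p : ℝ)) =
        if p = 2 then -(1 / 2) * (Real.log 2 / 2) else 0 := by
      intro p hp
      rw [Finset.mem_filter] at hp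
      rw [m4_c_eq]
      rcases hp.2.eq_two_or_odd with h | h
      · rw [h]
        norm_num
      · have h2 : p ≠ 2 := by
          rintro rfl
          omega
        have h6 : ¬ p % 2 = 0 := by omega
        rw [if_neg h2, if_neg h6]
        rcases Nat.odd_mod_four_iff.1 h with h5 | h5
        · simp only [if_pos h5]
          ring
        · have h7 : ¬ p % 4 = 1 := by omega
          simp only [if_neg h7]
          ring
    rw [Finset.sum_congr rfl h3, Finset.sum_ite_eq']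
    have hl2 : 0 ≤ Real.log 2 := Real.log_nonneg (by norm_num)
    split_ifs
    · rw [abs_le]
      constructor <;> linarith
    · rw [abs_zero]
      exact hl2
  have hfin : ∑ p ∈ (Finset.Icc 1 x).filter (fun p => p.Prime ∧ p % 4 = 1), Real.log p / p -
      1 / 2 * Real.log x =
      (∑ p ∈ (Finset.Icc 1 x).filter (fun p => p.Prime ∧ p % 4 = 1), Real.log p / p -
      1 / 2 * (P0 + P1)) + 1 / 2 * (P0 - Real.log x) + 1 / 2 * P1 := by ring
  rw [hfin]
  have e1 : |1 / 2 * (P0 - Real.log x)| ≤ |C0| := by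
    rw [abs_mul, abs_of_pos (by norm_num : (0 : ℝ) < 1 / 2)]
    linarith [abs_nonneg (P0 - Real.log x)]
  have e2 : |1 / 2 * P1| ≤ 3 / 2 * (4 + (Real.log 4 + 4)) + (|C0| + (Real.log 4 + 4)) := by
    rw [abs_mul, abs_of_pos (by norm_num : (0 : ℝ) < 1 / 2)]
    linarith [abs_nonneg P1]
  have e3 := abs_add_le (∑ p ∈ (Finset.Icc 1 x).filter (fun p => p.Prime ∧ p % 4 = 1),
    Real.log p / p - 1 / 2 * (P0 + P1) + 1 / 2 * (P0 - Real.log x)) (1 / 2 * P1)
  have e4 := abs_add_le (∑ p ∈ (Finset.Icc 1 x).filter (fun p => p.Prime ∧ p % 4 = 1),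
    Real.log p / p - 1 / 2 * (P0 + P1)) (1 / 2 * (P0 - Real.log x))
  linarith

theorem mertens14 : ∃ C : ℝ, 0 ≤ C ∧ ∀ x : ℕ, 1 ≤ x →
    |∑ p ∈ (Finset.Icc 1 x).filter (fun p => p.Prime ∧ p % 4 = 1), Real.log p / p -
      1 / 2 * Real.log x| ≤ C := m4_Q

end Pool.Agent.TR
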