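import Pool.Agent.Lib_helper97.TR.Defs

/-!
# Full cancellation in thin families: the reduction, definitions (helper42)
-/

set_option autoImplicit false

namespace Pool.Agent.TR

open Pool.Agent.T2 Pool.Agent.TF

/-- the part of `m` composed of the primes `≤ R` -/
noncomputable def sm (R : ℝ) (m : ℕ) : ℕ :=
  ∏ p ∈ m.primeFactors.filter (fun p : ℕ => (p : ℝ) ≤ R), p ^ m.factorization p

/-- the part of `m` composed of the primes `> R` -/
noncomputable def rg (R : ℝ) (m : ℕ) : ℕ :=
  ∏ p ∈ m.primeFactors.filter (fun p : ℕ => R < (p : ℝ)), p ^ m.factorization p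

open Classical in
/-- the sum of `(-2)^ω(r)` over the squarefree divisors `r ≤ W` of `k` -/
noncomputable def hs (W : ℝ) (k : ℕ) : ℝ :=
  ∑ r ∈ k.divisors.filter (fun r : ℕ => Squarefree r ∧ (r : ℝ) ≤ W),
    (-2 : ℝ) ^ r.primeFactors.card

open Classical in
/-- the type I approximation of Liouville's function: it is equal to `lam m` if `sm R m ≤ D`,
`rg R m` is squarefree and `m` has a prime factor `q` with `W < q`, `m ≤ q W` (`R ≤ W`) -/
noncomputable def TI (R W D : ℝ) (m : ℕ) : ℝ :=
  if (sm R m : ℝ) ≤ D then -lam (sm R m) * hs W (rg R m) else 0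

end Pool.Agent.TR
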