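import Pool.Agent.Lib_helper97.TRL.D42
import Pool.Agent.Lib_helper18.TFF.DefsF

/-!
# Full cancellation in thin families: the reduction, definitions for the types (helper42)
-/

set_option autoImplicit false

namespace Pool.Agent.TR

open Pool.Agent.T2 Pool.Agent.TF

/-- the cell of a prime: `log p / h`, rounded down -/
noncomputable def idx (h : ℝ) (p : ℕ) : ℕ := ⌊Real.log p / h⌋₊

/-- the type of a number: the multiset of the cells of its prime factors -/
noncomputable def ty (h : ℝ) (u : ℕ) : Multiset ℕ := u.primeFactors.val.map (idx h)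

open Classical in
/-- the value of the error term on a type (`w = log W / h`) -/
noncomputable def GA (w : ℝ) (t : Multiset ℕ) : ℝ :=
  (-1 : ℝ) ^ Multiset.card t +
    (t.powerset.map (fun s : Multiset ℕ =>
      if ((s.sum : ℕ) : ℝ) ≤ w then (-2 : ℝ) ^ Multiset.card s else 0)).sum

open Classical in
/-- the same, restricted to the types without a large cell and with a large total -/
noncomputable def GS (η₀ θ top tot : ℝ) (t : Multiset ℕ) : ℝ :=
  if (∀ i ∈ t, (i : ℝ) * η₀ < top) ∧ tot ≤ η₀ * ((t.sum : ℕ) : ℝ) then GA (θ / η₀) t else 0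

open Classical in
/-- the main part of the error term -/
noncomputable def EH (R h η₀ θ top tot : ℝ) (m : ℕ) : ℝ :=
  if Squarefree (rg R m) then lam (sm R m) * GS η₀ θ top tot (ty h (rg R m)) else 0

open Classical in
/-- the indicator function of the rough squarefree numbers of type `t` -/
noncomputable def AT (R h : ℝ) (t : Multiset ℕ) (u : ℕ) : ℝ :=
  if Rough R u ∧ Squarefree u ∧ ty h u = t then 1 else 0

open Classical in
/-- the functions on the complementary divisors: rough part squarefree, of type `t`, larger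
than `z` -/
noncomputable def FT (R h : ℝ) (t : Multiset ℕ) (z : ℝ) (k : ℕ) : ℝ :=
  if Squarefree (rg R k) ∧ ty h (rg R k) = t ∧ z < (rg R k : ℝ) then lam (sm R k) else 0

open Classical in
/-- the sum over the factorizations of type `(t₁, t₂)` -/
noncomputable def BT (R h x : ℝ) (t₁ t₂ : Multiset ℕ) (m : ℕ) : ℝ :=
  (∑ u ∈ m.divisors.filter (fun u : ℕ => (u : ℝ) ≤ x), AT R h t₁ u * FT R h t₂ 0 (m / u)) +
    ∑ v ∈ m.divisors, AT R h t₂ v * FT R h t₁ x (m / v)

/-- the types which occur -/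
noncomputable def Tys (N N₁ : ℕ) : Finset (Multiset ℕ) :=
  (N • Multiset.range (N₁ + 1)).powerset.toFinset

/-- the pairs -/
noncomputable def Prs (β x : ℝ) : Finset (ℕ × ℕ) :=
  ((Finset.Icc 1 ⌊x⌋₊) ×ˢ (Finset.Icc 1 ⌊x ^ β⌋₊)).filter (fun t : ℕ × ℕ => Nat.Coprime t.1 t.2)

/-- the rare pairs: large smooth part, a large square, or a rough divisor slightly above
`x ^ θ` -/
def RA (ρ d θ κ x : ℝ) (m : ℕ) : Prop :=
  x ^ d < (sm (x ^ ρ) m : ℝ) ∨ (∃ p : ℕ, p.Prime ∧ x ^ ρ < (p : ℝ) ∧ p ^ 2 ∣ m) ∨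
    ∃ v ∈ m.divisors, Rough (x ^ ρ) v ∧ Squarefree v ∧ x ^ θ < (v : ℝ) ∧ (v : ℝ) ≤ x ^ (θ + κ)

end Pool.Agent.TR
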