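import Pool.Agent.Lib_helper10.T2F.BAS
import Pool.Agent.Lib_helper97.TR.Defs
import Pool.Agent.Lib_helper97.TRL.D42
import Pool.Agent.Lib_helper97.TRL.D42A
import Pool.Agent.Lib_helper97.TRL.M42

/-!
# TR (MP_892e4c_nt), block A1: smooth and rough part
-/

set_option autoImplicit false

namespace Pool.Agent.TR

open Pool.Agent.T2 Pool.Agent.TF

theorem sm_ne_pr (R : ℝ) (m : ℕ) : sm R m ≠ 0 := by
  unfold sm
  refine Finset.prod_ne_zero_iff.2 (fun p hp => pow_ne_zero _ ?_)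
  exact (Nat.prime_of_mem_primeFactors (Finset.mem_filter.1 hp).1).ne_zero

theorem rg_ne_pr (R : ℝ) (m : ℕ) : rg R m ≠ 0 := by
  unfold rg
  refine Finset.prod_ne_zero_iff.2 (fun p hp => pow_ne_zero _ ?_)
  exact (Nat.prime_of_mem_primeFactors (Finset.mem_filter.1 hp).1).ne_zero

theorem sm_mul_rg_pr (R : ℝ) {m : ℕ} (hm : m ≠ 0) : sm R m * rg R m = m := by
  unfold sm rg
  have h : m.primeFactors.filter (fun p : ℕ => R < (p : ℝ)) =
      m.primeFactors.filter (fun p : ℕ => ¬ (p : ℝ) ≤ R) :=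
    Finset.filter_congr (fun p _ => not_le.symm)
  rw [h, Finset.prod_filter_mul_prod_filter_not]
  exact Nat.prod_factorization_pow_eq_self hm

theorem rg_rough_pr (R : ℝ) (m : ℕ) : Rough R (rg R m) := by
  refine ⟨rg_ne_pr R m, fun p hp hd => ?_⟩
  unfold rg at hd
  obtain ⟨q, hq, hpq⟩ := (Prime.dvd_finsetProd_iff hp.prime _).1 hd
  rw [Finset.mem_filter] at hq
  have h1 : p = q := (Nat.prime_dvd_prime_iff_eq hp (Nat.prime_of_mem_primeFactors hq.1)).1
    (hp.dvd_of_dvd_pow hpq)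
  rw [h1]
  exact hq.2

theorem sm_prime_le_pr {R : ℝ} {m p : ℕ} (hp : p.Prime) (h : p ∣ sm R m) : (p : ℝ) ≤ R := by
  unfold sm at h
  obtain ⟨q, hq, hpq⟩ := (Prime.dvd_finsetProd_iff hp.prime _).1 h
  rw [Finset.mem_filter] at hq
  have h1 : p = q := (Nat.prime_dvd_prime_iff_eq hp (Nat.prime_of_mem_primeFactors hq.1)).1
    (hp.dvd_of_dvd_pow hpq)
  rw [h1]
  exact hq.2

theorem sm_rg_coprime_pr (R : ℝ) (m : ℕ) : Nat.Coprime (sm R m) (rg R m) := by
  refine Nat.coprime_of_dvd (fun p hp h1 h2 => ?_)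
  exact absurd (sm_prime_le_pr hp h1) (not_le.2 ((rg_rough_pr R m).2 p hp h2))








end Pool.Agent.TR

namespace Pool.Agent.TR

theorem sm_ne : type_of% @sm_ne_pr := @sm_ne_pr
theorem rg_ne : type_of% @rg_ne_pr := @rg_ne_pr
theorem sm_mul_rg : type_of% @sm_mul_rg_pr := @sm_mul_rg_pr
theorem rg_rough : type_of% @rg_rough_pr := @rg_rough_pr
theorem sm_prime_le : type_of% @sm_prime_le_pr := @sm_prime_le_pr
theorem sm_rg_coprime : type_of% @sm_rg_coprime_pr := @sm_rg_coprime_pr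

end Pool.Agent.TR
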