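import Pool.Agent.Lib_helper10.T2F.BAS
import Pool.Agent.Lib_helper97.TR.Defs
import Pool.Agent.Lib_helper97.TRL.D42
import Pool.Agent.Lib_helper97.TRL.D42A
import Pool.Agent.Lib_helper97.TRL.M42

set_option autoImplicit false

namespace Pool.Agent.TR

open Pool.Agent.T2 Pool.Agent.TF

theorem a10_mer : ∃ C : ℝ, 0 ≤ C ∧ ∀ a b z : ℝ, 1 ≤ a → 1 ≤ z → b ≤ a * z →
    ∑ p ∈ (Finset.Icc 1 ⌊b⌋₊).filter (fun p : ℕ => p.Prime ∧ p % 4 = 1 ∧ a < (p : ℝ)),
      Real.log p / p ≤ Real.log z + C := by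
  obtain ⟨C0, hC0, hM⟩ := mertens14
  have hl2 : 0 ≤ Real.log 2 := Real.log_nonneg (by norm_num)
  refine ⟨2 * C0 + Real.log 2, by positivity, fun a b z ha hz hb => ?_⟩
  have hlz : 0 ≤ Real.log z := Real.log_nonneg hz
  rcases lt_or_ge b a with hba | hba
  · rw [Finset.filter_false_of_mem, Finset.sum_empty]
    · positivity
    · rintro p hp ⟨-, -, h3⟩
      rw [Finset.mem_Icc] at hp
      have : (p : ℝ) ≤ b := (Nat.le_floor_iff' (by omega)).1 hp.2
      linarith
  · have hb1 : 1 ≤ b := ha.trans hba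
    have ha0 : 0 < a := by linarith
    set n := ⌊b⌋₊ with hn'
    set m := ⌊a⌋₊ with hm'
    have hn : 1 ≤ n := Nat.le_floor (by exact_mod_cast hb1)
    have hm : 1 ≤ m := Nat.le_floor (by exact_mod_cast ha)
    have hmn : m ≤ n := Nat.floor_le_floor hba
    have e1 : (Finset.Icc 1 n).filter (fun p : ℕ => p.Prime ∧ p % 4 = 1 ∧ a < (p : ℝ)) =
        ((Finset.Icc 1 n).filter (fun p => p.Prime ∧ p % 4 = 1)) \
          ((Finset.Icc 1 m).filter (fun p => p.Prime ∧ p % 4 = 1)) := by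
      ext p
      simp only [Finset.mem_filter, Finset.mem_sdiff, Finset.mem_Icc]
      constructor
      · rintro ⟨h1, h2, h3, h4⟩
        refine ⟨⟨h1, h2, h3⟩, fun h5 => ?_⟩
        have h6 : (p : ℝ) ≤ a := (Nat.le_floor_iff' (by omega)).1 h5.1.2
        linarith
      · rintro ⟨⟨h1, h2, h3⟩, h4⟩
        refine ⟨h1, h2, h3, ?_⟩
        by_contra hcon
        push Not at hcon
        exact h4 ⟨⟨h1.1, Nat.le_floor hcon⟩, h2, h3⟩
    have hsub : ((Finset.Icc 1 m).filter (fun p => p.Prime ∧ p % 4 = 1)) ⊆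
        ((Finset.Icc 1 n).filter (fun p => p.Prime ∧ p % 4 = 1)) := by
      intro p hp
      rw [Finset.mem_filter, Finset.mem_Icc] at hp ⊢
      exact ⟨⟨hp.1.1, hp.1.2.trans hmn⟩, hp.2⟩
    have e2 := Finset.sum_sdiff (f := fun p : ℕ => Real.log p / (p : ℝ)) hsub
    rw [e1]
    have h1 := abs_le.1 (hM n hn)
    have h2 := abs_le.1 (hM m hm)
    have hn0 : (0 : ℝ) < n := by exact_mod_cast hn
    have hm0 : (0 : ℝ) < m := by exact_mod_cast hm
    have h3 : Real.log n ≤ Real.log b := Real.log_le_log hn0 (Nat.floor_le (by linarith))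
    have h4 : Real.log a - Real.log 2 ≤ Real.log m := by
      rw [← Real.log_div (by positivity) (by norm_num)]
      apply Real.log_le_log (by positivity)
      have h5 : a < m + 1 := Nat.lt_floor_add_one a
      have h6 : (1 : ℝ) ≤ m := by exact_mod_cast hm
      linarith
    have h5 : Real.log b ≤ Real.log a + Real.log z := by
      rw [← Real.log_mul (by positivity) (by positivity)]
      exact Real.log_le_log (by linarith) hb
    linarith [h1.2, h2.1]

theorem a10_rec {L : ℝ} (hL : 0 < L) (s : Finset ℕ) (hs : ∀ p ∈ s, 1 ≤ p ∧ L ≤ Real.log p) :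
    ∑ p ∈ s, 1 / (p : ℝ) ≤ (∑ p ∈ s, Real.log p / p) / L := by
  rw [Finset.sum_div]
  apply Finset.sum_le_sum
  intro p hp
  obtain ⟨h1, h2⟩ := hs p hp
  have h0 : (0 : ℝ) < p := by exact_mod_cast h1
  rw [le_div_iff₀ hL, div_mul_eq_mul_div, one_mul]
  gcongr

open Classical in
theorem a10_K (P : Finset ℕ) (K : Finset ℕ)
    (hK : ∀ k ∈ K, Squarefree k ∧ ∀ p : ℕ, p.Prime → p ∣ k → p ∈ P) :
    ∑ k ∈ K, 1 / (k : ℝ) ≤ Real.exp (∑ p ∈ P, 1 / (p : ℝ)) := by
  have h1 : ∀ k ∈ K, 1 / (k : ℝ) = ∏ p ∈ k.primeFactors, 1 / (p : ℝ) := by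
    intro k hk
    rw [Finset.prod_div_distrib, Finset.prod_const_one, ← Nat.cast_prod,
      Nat.prod_primeFactors_of_squarefree (hK k hk).1]
  have hinj : Set.InjOn Nat.primeFactors (K : Set ℕ) := by
    intro k hk l hl hkl
    rw [← Nat.prod_primeFactors_of_squarefree (hK k hk).1,
      ← Nat.prod_primeFactors_of_squarefree (hK l hl).1, hkl]
  calc ∑ k ∈ K, 1 / (k : ℝ) = ∑ k ∈ K, ∏ p ∈ k.primeFactors, 1 / (p : ℝ) :=
        Finset.sum_congr rfl h1
    _ = ∑ t ∈ K.image Nat.primeFactors, ∏ p ∈ t, 1 / (p : ℝ) := by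
        rw [Finset.sum_image hinj]
    _ ≤ ∑ t ∈ P.powerset, ∏ p ∈ t, 1 / (p : ℝ) := by
        apply Finset.sum_le_sum_of_subset_of_nonneg
        · intro t ht
          rw [Finset.mem_image] at ht
          obtain ⟨k, hk, rfl⟩ := ht
          rw [Finset.mem_powerset]
          intro p hp
          exact (hK k hk).2 p (Nat.prime_of_mem_primeFactors hp) (Nat.dvd_of_mem_primeFactors hp)
        · intro t _ _
          positivity
    _ = ∏ p ∈ P, (1 + 1 / (p : ℝ)) := by rw [Finset.prod_one_add]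
    _ ≤ ∏ p ∈ P, Real.exp (1 / (p : ℝ)) := by
        apply Finset.prod_le_prod
        · intro p _
          positivity
        · intro p _
          rw [add_comm]
          exact Real.add_one_le_exp _
    _ = Real.exp (∑ p ∈ P, 1 / (p : ℝ)) := by rw [Real.exp_sum]

open Classical in
theorem rs_short_pr (ρ : ℝ) (hρ : 0 < ρ) (hρ1 : ρ < 1) : ∃ C x₀ : ℝ, 1 ≤ C ∧ ∀ x : ℝ, x₀ ≤ x →
    ∀ y z : ℝ, x ^ ρ ≤ y → 1 ≤ z → y * z ≤ 2 * x →
      ∑ u ∈ (Finset.Icc 1 ⌊y * z⌋₊).filter (fun u : ℕ => Squarefree u ∧ y < (u : ℝ) ∧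
        ∀ p : ℕ, p.Prime → p ∣ u → x ^ ρ < (p : ℝ) ∧ p % 4 = 1), 1 / (u : ℝ) ≤
        C * (Real.log z + 1) / Real.log x := by
  obtain ⟨C0, hC0, hmer⟩ := a10_mer
  set E := Real.exp ((Real.log 2 + C0 + 1) / ρ) with hE
  have hE0 : 0 < E := Real.exp_pos _
  refine ⟨E * (1 + C0) / ρ + 1, Real.exp 1, ?_, fun x hx y z hy hz hyz => ?_⟩
  · have : 0 ≤ E * (1 + C0) / ρ := by positivity
    linarith
  have hx0 : 0 < x := lt_of_lt_of_le (Real.exp_pos 1) hx
  have hL1 : 1 ≤ Real.log x := by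
    rw [Real.le_log_iff_exp_le hx0]
    exact hx
  have hx1 : 1 ≤ x := by
    have := Real.add_one_le_exp (1 : ℝ)
    linarith
  have hL0 : 0 < Real.log x := by linarith
  have hxr : 1 ≤ x ^ ρ := Real.one_le_rpow hx1 hρ.le
  have hxr0 : 0 < x ^ ρ := by linarith
  have hy1 : 1 ≤ y := hxr.trans hy
  have hlz : 0 ≤ Real.log z := Real.log_nonneg hz
  have hl2 : 0 ≤ Real.log 2 := Real.log_nonneg (by norm_num)
  have hρL : 0 < ρ * Real.log x := by positivity
  have hlogp : ∀ p : ℕ, x ^ ρ < (p : ℝ) → ρ * Real.log x ≤ Real.log p := by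
    intro p hp
    rw [← Real.log_rpow hx0]
    exact Real.log_le_log hxr0 hp.le
  set P := (Finset.Icc 1 ⌊2 * x⌋₊).filter (fun p : ℕ => p.Prime ∧ p % 4 = 1 ∧ x ^ ρ < (p : ℝ))
    with hP
  set K := (Finset.Icc 1 ⌊2 * x⌋₊).filter (fun k : ℕ => Squarefree k ∧
    ∀ p : ℕ, p.Prime → p ∣ k → x ^ ρ < (p : ℝ) ∧ p % 4 = 1) with hK
  have hKE : ∑ k ∈ K, 1 / (k : ℝ) ≤ E := by
    refine (a10_K P K ?_).trans ?_
    · intro k hk
      rw [hK, Finset.mem_filter, Finset.mem_Icc] at hk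
      refine ⟨hk.2.1, fun p hp hpk => ?_⟩
      rw [hP, Finset.mem_filter, Finset.mem_Icc]
      have h1 := hk.2.2 p hp hpk
      exact ⟨⟨hp.one_lt.le, (Nat.le_of_dvd (by omega) hpk).trans hk.1.2⟩, hp, h1.2, h1.1⟩
    · rw [hE]
      apply Real.exp_le_exp.2
      have h1 := a10_rec hρL P (fun p hp => by
        rw [hP, Finset.mem_filter, Finset.mem_Icc] at hp
        exact ⟨hp.1.1, hlogp p hp.2.2.2⟩)
      have h2 := hmer (x ^ ρ) (2 * x) (2 * x ^ (1 - ρ)) hxr (by
        have : 1 ≤ x ^ (1 - ρ) := Real.one_le_rpow hx1 (by linarith)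
        linarith) (by
        have : x ^ ρ * (2 * x ^ (1 - ρ)) = 2 * x := by
          rw [mul_left_comm, ← Real.rpow_add hx0]
          norm_num
        rw [this])
      have h3 : Real.log (2 * x ^ (1 - ρ)) = Real.log 2 + (1 - ρ) * Real.log x := by
        rw [Real.log_mul (by norm_num) (by positivity), Real.log_rpow hx0]
      rw [h3] at h2
      refine h1.trans ?_
      rw [div_le_div_iff₀ hρL hρ]
      have h4 : ∑ p ∈ P, Real.log p / (p : ℝ) ≤ (Real.log 2 + C0 + 1) * Real.log x := by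
        nlinarith
      nlinarith
  -- the inner sums
  have hin : ∀ k ∈ K, ∑ p ∈ (Finset.Icc 1 ⌊y * z / k⌋₊).filter (fun p : ℕ => p.Prime ∧
      p % 4 = 1 ∧ max (y / k) (x ^ ρ) < (p : ℝ)), 1 / (p : ℝ) ≤
      (Real.log z + C0) / (ρ * Real.log x) := by
    intro k hk
    rw [hK, Finset.mem_filter, Finset.mem_Icc] at hk
    have hk0 : (0 : ℝ) < k := by exact_mod_cast hk.1.1
    refine (a10_rec hρL _ (fun p hp => ?_)).trans ?_
    · rw [Finset.mem_filter, Finset.mem_Icc] at hp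
      exact ⟨hp.1.1, hlogp p (lt_of_le_of_lt (le_max_right _ _) hp.2.2.2)⟩
    · gcongr
      apply hmer
      · exact hxr.trans (le_max_right _ _)
      · exact hz
      · calc y * z / k = y / k * z := by ring
          _ ≤ max (y / k) (x ^ ρ) * z := by
            gcongr
            exact le_max_left _ _
  -- the decomposition
  set S := (Finset.Icc 1 ⌊y * z⌋₊).filter (fun u : ℕ => Squarefree u ∧ y < (u : ℝ) ∧
        ∀ p : ℕ, p.Prime → p ∣ u → x ^ ρ < (p : ℝ) ∧ p % 4 = 1) with hS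
  set f : ℕ → (Σ _ : ℕ, ℕ) := fun u => ⟨u / u.minFac, u.minFac⟩ with hf
  have hmf : ∀ u ∈ S, u.minFac.Prime ∧ u / u.minFac * u.minFac = u := by
    intro u hu
    rw [hS, Finset.mem_filter, Finset.mem_Icc] at hu
    have h1 : u ≠ 1 := by
      rintro rfl
      have := hu.2.2.1
      push_cast at this
      linarith
    exact ⟨Nat.minFac_prime h1, Nat.div_mul_cancel (Nat.minFac_dvd u)⟩
  have hfinj : Set.InjOn f (S : Set ℕ) := by
    intro u hu v hv huv
    rw [hf] at huv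
    simp only [Sigma.mk.injEq, heq_eq_eq] at huv
    rw [← (hmf u hu).2, ← (hmf v hv).2, huv.1, huv.2]
  calc ∑ u ∈ S, 1 / (u : ℝ)
      = ∑ u ∈ S, (fun w : (Σ _ : ℕ, ℕ) => 1 / (w.1 : ℝ) * (1 / (w.2 : ℝ))) (f u) := by
        apply Finset.sum_congr rfl
        intro u hu
        have h1 := (hmf u hu).2
        simp only [hf]
        rw [div_mul_div_comm, one_mul, ← Nat.cast_mul, h1]
    _ = ∑ w ∈ S.image f, 1 / (w.1 : ℝ) * (1 / (w.2 : ℝ)) := by
        rw [Finset.sum_image hfinj]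
    _ ≤ ∑ w ∈ K.sigma (fun k => (Finset.Icc 1 ⌊y * z / k⌋₊).filter (fun p : ℕ => p.Prime ∧
      p % 4 = 1 ∧ max (y / k) (x ^ ρ) < (p : ℝ))), 1 / (w.1 : ℝ) * (1 / (w.2 : ℝ)) := by
        apply Finset.sum_le_sum_of_subset_of_nonneg
        · intro w hw
          rw [Finset.mem_image] at hw
          obtain ⟨u, hu, rfl⟩ := hw
          obtain ⟨h1, h2⟩ := hmf u hu
          rw [hS, Finset.mem_filter, Finset.mem_Icc] at hu
          have hu0 : u ≠ 0 := by omega
          have hk0 : u / u.minFac ≠ 0 := by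
            intro h
            rw [h, zero_mul] at h2
            exact hu0 h2.symm
          have hkd : u / u.minFac ∣ u := Nat.div_dvd_of_dvd (Nat.minFac_dvd u)
          have hule : (u : ℝ) ≤ y * z := (Nat.le_floor_iff' hu0).1 hu.1.2
          have hkr : (0 : ℝ) < ((u / u.minFac : ℕ) : ℝ) := by
            exact_mod_cast Nat.pos_of_ne_zero hk0
          have hcast : ((u / u.minFac : ℕ) : ℝ) * (u.minFac : ℝ) = u := by exact_mod_cast h2
          rw [Finset.mem_sigma, hK, Finset.mem_filter, Finset.mem_Icc, Finset.mem_filter,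
            Finset.mem_Icc]
          have hp1 := hu.2.2.2 _ h1 (Nat.minFac_dvd u)
          refine ⟨⟨⟨Nat.pos_of_ne_zero hk0, ?_⟩, hu.2.1.squarefree_of_dvd hkd, fun p hp hpk =>
            hu.2.2.2 p hp (hpk.trans hkd)⟩, ⟨h1.one_lt.le, ?_⟩, h1, hp1.2, ?_⟩
          · apply Nat.le_floor
            have h3 : ((u / u.minFac : ℕ) : ℝ) ≤ u := by
              exact_mod_cast Nat.div_le_self _ _
            linarith
          · apply Nat.le_floor
            rw [le_div_iff₀ hkr, mul_comm, hcast]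
            exact hule
          · apply max_lt _ hp1.1
            rw [div_lt_iff₀ hkr, mul_comm, hcast]
            exact hu.2.2.1
        · intro w _ _
          positivity
    _ = ∑ k ∈ K, 1 / (k : ℝ) * ∑ p ∈ (Finset.Icc 1 ⌊y * z / k⌋₊).filter (fun p : ℕ => p.Prime ∧
      p % 4 = 1 ∧ max (y / k) (x ^ ρ) < (p : ℝ)), 1 / (p : ℝ) := by
        rw [Finset.sum_sigma]
        apply Finset.sum_congr rfl
        intro k _
        rw [Finset.mul_sum]
    _ ≤ ∑ k ∈ K, 1 / (k : ℝ) * ((Real.log z + C0) / (ρ * Real.log x)) := by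
        apply Finset.sum_le_sum
        intro k hk
        exact mul_le_mul_of_nonneg_left (hin k hk) (by positivity)
    _ = (∑ k ∈ K, 1 / (k : ℝ)) * ((Real.log z + C0) / (ρ * Real.log x)) := by
        rw [Finset.sum_mul]
    _ ≤ E * ((Real.log z + C0) / (ρ * Real.log x)) := by
        apply mul_le_mul_of_nonneg_right hKE
        positivity
    _ ≤ E * (((1 + C0) * (Real.log z + 1)) / (ρ * Real.log x)) := by
        gcongr
        nlinarith
    _ = (E * (1 + C0) / ρ) * (Real.log z + 1) / Real.log x := by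
        field_simp
    _ ≤ (E * (1 + C0) / ρ + 1) * (Real.log z + 1) / Real.log x := by
        gcongr
        linarith



end Pool.Agent.TR

namespace Pool.Agent.TR

theorem rs_short : type_of% @rs_short_pr := @rs_short_pr

end Pool.Agent.TR
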