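import Pool.Agent.Lib_helper10.T2F.BAS
import Pool.Agent.Lib_helper97.TR.Defs
import Pool.Agent.Lib_helper97.TRL.D42
import Pool.Agent.Lib_helper97.TRL.D42A
import Pool.Agent.Lib_helper97.TRL.M42

/-! TR, block A11: roots of `n² + b²` -/

set_option autoImplicit false

namespace Pool.Agent.TR

open Pool.Agent.T2 Pool.Agent.TF

open Classical in
/-- an injection into subsets times quotients -/
theorem a11_count {S : Finset ℕ} {x : ℝ} (hx : 0 ≤ x) (hS : ∀ n ∈ S, n ≤ ⌊x⌋₊) {m : ℕ}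
    (hm : m ≠ 0) {α : Type*} [DecidableEq α] (f : ℕ → α) (A : Finset α)
    (hf : ∀ n ∈ S, f n ∈ A)
    (hinj : ∀ n ∈ S, ∀ n' ∈ S, f n = f n' → (m : ℤ) ∣ (n : ℤ) - n') :
    (S.card : ℝ) ≤ A.card * (x / m + 1) := by
  have h1 : S.card ≤ (A ×ˢ Finset.range (⌊x⌋₊ / m + 1)).card := by
    refine Finset.card_le_card_of_injOn (fun n => (f n, n / m)) ?_ ?_
    · intro n hn
      have hn' := Finset.mem_coe.mp hn
      simp only [Finset.coe_product, Set.mem_prod, Finset.mem_coe, Finset.mem_range]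
      refine ⟨hf n hn', ?_⟩
      exact Nat.lt_succ_of_le (Nat.div_le_div_right (hS n hn'))
    · intro n hn n' hn' he
      simp only [Prod.mk.injEq] at he
      have h2 := hinj n (Finset.mem_coe.mp hn) n' (Finset.mem_coe.mp hn') he.1
      have h3 := Nat.div_add_mod n m
      have h4 := Nat.div_add_mod n' m
      have h5 := Nat.mod_lt n (Nat.pos_of_ne_zero hm)
      have h6 := Nat.mod_lt n' (Nat.pos_of_ne_zero hm)
      have h7 : n % m = n' % m := by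
        have h8 : (n : ℤ) ≡ n' [ZMOD m] := (Int.modEq_iff_dvd.mpr (by
          have := dvd_neg.mpr h2
          rwa [neg_sub] at this))
        exact (Int.natCast_modEq_iff.mp h8)
      rw [he.2, h7] at h3
      exact h3.symm.trans h4
  rw [Finset.card_product, Finset.card_range] at h1
  have h2 : (S.card : ℝ) ≤ A.card * ((⌊x⌋₊ / m : ℕ) + 1) := by exact_mod_cast h1
  refine h2.trans ?_
  have h3 : ((⌊x⌋₊ / m : ℕ) : ℝ) ≤ (⌊x⌋₊ : ℝ) / m := Nat.cast_div_le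
  have h4 : (⌊x⌋₊ : ℝ) ≤ x := Nat.floor_le hx
  have hm0 : (0 : ℝ) < m := by exact_mod_cast Nat.pos_of_ne_zero hm
  gcongr
  exact h3.trans (by gcongr)

open Classical in
theorem root_count_pr {x : ℝ} (hx : 0 ≤ x) {u b : ℕ} (hu : Squarefree u) (hu2 : u % 2 = 1)
    (hb : 1 ≤ b) : (((Finset.Icc 1 ⌊x⌋₊).filter (fun n : ℕ => Nat.Coprime n b ∧
      u ∣ n ^ 2 + b ^ 2)).card : ℝ) ≤ 2 ^ u.primeFactors.card * (x / u + 1) := by
  set S := (Finset.Icc 1 ⌊x⌋₊).filter (fun n : ℕ => Nat.Coprime n b ∧ u ∣ n ^ 2 + b ^ 2) with hS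
  have hmem : ∀ n ∈ S, n ≤ ⌊x⌋₊ ∧ u ∣ n ^ 2 + b ^ 2 := by
    intro n hn
    rw [hS, Finset.mem_filter, Finset.mem_Icc] at hn
    exact ⟨hn.1.2, hn.2.2⟩
  rcases S.eq_empty_or_nonempty with h0 | ⟨n₀, hn₀⟩
  · rw [h0]
    simp only [Finset.card_empty, Nat.cast_zero]
    positivity
  have hpr : ∀ n ∈ S, ∀ p ∈ u.primeFactors, (p : ℤ) ∣ (n : ℤ) - n₀ ∨ (p : ℤ) ∣ (n : ℤ) + n₀ := by
    intro n hn p hp
    have hpp : p.Prime := Nat.prime_of_mem_primeFactors hp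
    have hpu : p ∣ u := Nat.dvd_of_mem_primeFactors hp
    have h1 : (p : ℤ) ∣ (n : ℤ) ^ 2 + (b : ℤ) ^ 2 := by
      exact_mod_cast hpu.trans (hmem n hn).2
    have h2 : (p : ℤ) ∣ (n₀ : ℤ) ^ 2 + (b : ℤ) ^ 2 := by
      exact_mod_cast hpu.trans (hmem n₀ hn₀).2
    have h3 : (p : ℤ) ∣ ((n : ℤ) - n₀) * ((n : ℤ) + n₀) := by
      have := dvd_sub h1 h2
      have e : (n : ℤ) ^ 2 + (b : ℤ) ^ 2 - ((n₀ : ℤ) ^ 2 + (b : ℤ) ^ 2) =
        ((n : ℤ) - n₀) * ((n : ℤ) + n₀) := by ring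
      rwa [e] at this
    exact (Nat.prime_iff_prime_int.mp hpp).dvd_or_dvd h3
  have key := a11_count hx (fun n hn => (hmem n hn).1) hu.ne_zero
    (fun n => u.primeFactors.filter (fun p : ℕ => (p : ℤ) ∣ (n : ℤ) - n₀)) u.primeFactors.powerset
    (fun n _ => Finset.mem_powerset.mpr (Finset.filter_subset _ _)) (by
      intro n hn n' hn' he
      have h1 : ∀ p ∈ u.primeFactors, p ∣ ((n : ℤ) - n').natAbs := by
        intro p hp
        rw [← Int.natCast_dvd]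
        by_cases h2 : (p : ℤ) ∣ (n : ℤ) - n₀
        · have h3 : p ∈ u.primeFactors.filter (fun p : ℕ => (p : ℤ) ∣ (n : ℤ) - n₀) :=
            Finset.mem_filter.mpr ⟨hp, h2⟩
          rw [he, Finset.mem_filter] at h3
          have := dvd_sub h2 h3.2
          have e : (n : ℤ) - n₀ - ((n' : ℤ) - n₀) = (n : ℤ) - n' := by ring
          rwa [e] at this
        · have h3 : ¬ (p : ℤ) ∣ (n' : ℤ) - n₀ := by
            intro h4
            have h5 : p ∈ u.primeFactors.filter (fun p : ℕ => (p : ℤ) ∣ (n' : ℤ) - n₀) :=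
              Finset.mem_filter.mpr ⟨hp, h4⟩
            rw [← he, Finset.mem_filter] at h5
            exact h2 h5.2
          have h4 := (hpr n hn p hp).resolve_left h2
          have h5 := (hpr n' hn' p hp).resolve_left h3
          have := dvd_sub h4 h5
          have e : (n : ℤ) + n₀ - ((n' : ℤ) + n₀) = (n : ℤ) - n' := by ring
          rwa [e] at this
      rw [Int.natCast_dvd]
      have h2 := Finset.prod_primes_dvd ((n : ℤ) - n').natAbs
        (fun p hp => (Nat.prime_of_mem_primeFactors hp).prime) h1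
      rwa [Nat.prod_primeFactors_of_squarefree hu] at h2)
  rw [Finset.card_powerset] at key
  exact_mod_cast key

theorem root_prime_pr {n b p : ℕ} (hnb : Nat.Coprime n b) (hp : p.Prime) (hp2 : p ≠ 2)
    (h : p ∣ n ^ 2 + b ^ 2) : p % 4 = 1 := by
  haveI : Fact p.Prime := ⟨hp⟩
  have h1 := ZMod.isSquare_neg_one_of_eq_sq_add_sq_of_coprime (n := n ^ 2 + b ^ 2) rfl hnb
  have h2 := ZMod.isSquare_neg_one_of_dvd h h1
  have h3 := ZMod.exists_sq_eq_neg_one_iff.mp h2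
  have h4 := hp.eq_two_or_odd
  rcases h4 with h4 | h4
  · exact absurd h4 hp2
  · omega

open Classical in
theorem root_sq_pr {x : ℝ} (hx : 0 ≤ x) {p b : ℕ} (hp : p.Prime) (hp2 : p ≠ 2) (hb : 1 ≤ b) :
    (((Finset.Icc 1 ⌊x⌋₊).filter (fun n : ℕ => Nat.Coprime n b ∧
      p ^ 2 ∣ n ^ 2 + b ^ 2)).card : ℝ) ≤ 2 * (x / p ^ 2 + 1) := by
  set S := (Finset.Icc 1 ⌊x⌋₊).filter (fun n : ℕ => Nat.Coprime n b ∧ p ^ 2 ∣ n ^ 2 + b ^ 2)
    with hS
  have hmem : ∀ n ∈ S, n ≤ ⌊x⌋₊ ∧ Nat.Coprime n b ∧ p ^ 2 ∣ n ^ 2 + b ^ 2 := by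
    intro n hn
    rw [hS, Finset.mem_filter, Finset.mem_Icc] at hn
    exact ⟨hn.1.2, hn.2⟩
  rcases S.eq_empty_or_nonempty with h0 | ⟨n₀, hn₀⟩
  · rw [h0]
    simp only [Finset.card_empty, Nat.cast_zero]
    positivity
  have hpi : Prime (p : ℤ) := Nat.prime_iff_prime_int.mp hp
  have hpr : ∀ n ∈ S, ((p ^ 2 : ℕ) : ℤ) ∣ (n : ℤ) - n₀ ∨ ((p ^ 2 : ℕ) : ℤ) ∣ (n : ℤ) + n₀ := by
    intro n hn
    obtain ⟨-, hnb, hn2⟩ := hmem n hn
    have h1 : ((p ^ 2 : ℕ) : ℤ) ∣ (n : ℤ) ^ 2 + (b : ℤ) ^ 2 := by exact_mod_cast hn2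
    have h2 : ((p ^ 2 : ℕ) : ℤ) ∣ (n₀ : ℤ) ^ 2 + (b : ℤ) ^ 2 := by
      exact_mod_cast (hmem n₀ hn₀).2.2
    have h3 : ((p ^ 2 : ℕ) : ℤ) ∣ ((n : ℤ) - n₀) * ((n : ℤ) + n₀) := by
      have := dvd_sub h1 h2
      have e : (n : ℤ) ^ 2 + (b : ℤ) ^ 2 - ((n₀ : ℤ) ^ 2 + (b : ℤ) ^ 2) =
        ((n : ℤ) - n₀) * ((n : ℤ) + n₀) := by ring
      rwa [e] at this
    have hpn : ¬ p ∣ n := by
      intro h4
      have h5 : p ∣ n ^ 2 + b ^ 2 := (dvd_pow_self p (by norm_num)).trans hn2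
      have h6 : p ∣ b ^ 2 := (Nat.dvd_add_right (dvd_pow h4 (by norm_num))).mp h5
      have h7 : p ∣ b := hp.dvd_of_dvd_pow h6
      have h8 := Nat.dvd_gcd h4 h7
      rw [Nat.Coprime.gcd_eq_one hnb] at h8
      exact hp.one_lt.ne' (Nat.dvd_one.mp h8)
    by_cases h4 : (p : ℤ) ∣ (n : ℤ) - n₀
    · left
      have h5 : ¬ (p : ℤ) ∣ (n : ℤ) + n₀ := by
        intro h6
        have h7 := dvd_add h4 h6
        have e : (n : ℤ) - n₀ + ((n : ℤ) + n₀) = 2 * n := by ring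
        rw [e] at h7
        rcases hpi.dvd_or_dvd h7 with h8 | h8
        · have h9 : p ∣ 2 := by exact_mod_cast h8
          exact hp2 ((Nat.prime_dvd_prime_iff_eq hp Nat.prime_two).mp h9)
        · exact hpn (by exact_mod_cast h8)
      have h6 : IsCoprime ((p ^ 2 : ℕ) : ℤ) ((n : ℤ) + n₀) := by
        push_cast
        exact IsCoprime.pow_left ((Prime.coprime_iff_not_dvd hpi).mpr h5)
      exact h6.dvd_of_dvd_mul_right h3
    · right
      have h6 : IsCoprime ((p ^ 2 : ℕ) : ℤ) ((n : ℤ) - n₀) := by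
        push_cast
        exact IsCoprime.pow_left ((Prime.coprime_iff_not_dvd hpi).mpr h4)
      exact h6.dvd_of_dvd_mul_left h3
  have key := a11_count hx (fun n hn => (hmem n hn).1) (pow_ne_zero 2 hp.ne_zero)
    (fun n => decide (((p ^ 2 : ℕ) : ℤ) ∣ (n : ℤ) - n₀)) (Finset.univ : Finset Bool)
    (fun n _ => Finset.mem_univ _) (by
      intro n hn n' hn' he
      have he' : (((p ^ 2 : ℕ) : ℤ) ∣ (n : ℤ) - n₀) ↔ (((p ^ 2 : ℕ) : ℤ) ∣ (n' : ℤ) - n₀) := by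
        simpa using he
      by_cases h2 : ((p ^ 2 : ℕ) : ℤ) ∣ (n : ℤ) - n₀
      · have := dvd_sub h2 (he'.mp h2)
        have e : (n : ℤ) - n₀ - ((n' : ℤ) - n₀) = (n : ℤ) - n' := by ring
        rwa [e] at this
      · have h3 : ¬ ((p ^ 2 : ℕ) : ℤ) ∣ (n' : ℤ) - n₀ := fun h => h2 (he'.mpr h)
        have := dvd_sub ((hpr n hn).resolve_left h2) ((hpr n' hn').resolve_left h3)
        have e : (n : ℤ) + n₀ - ((n' : ℤ) + n₀) = (n : ℤ) - n' := by ring
        rwa [e] at this)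
  rw [Finset.card_univ, Fintype.card_bool] at key
  push_cast at key
  exact key





end Pool.Agent.TR

namespace Pool.Agent.TR

theorem root_count : type_of% @root_count_pr := @root_count_pr
theorem root_prime : type_of% @root_prime_pr := @root_prime_pr
theorem root_sq : type_of% @root_sq_pr := @root_sq_pr

end Pool.Agent.TR
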