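import Pool.Agent.Lib_helper97.TRL.A10
import Pool.Agent.Lib_helper97.TRL.A11
import Pool.Agent.Lib_helper10.T2F.BAS
import Pool.Agent.Lib_helper97.TR.Defs
import Pool.Agent.Lib_helper97.TRL.D42
import Pool.Agent.Lib_helper97.TRL.D42A
import Pool.Agent.Lib_helper97.TRL.M42

/-!
# TR A12: rough divisors in a short interval are rare (helper30)
-/

set_option autoImplicit false

namespace Pool.Agent.TR

open Pool.Agent.T2 Pool.Agent.TF

/-- the number of prime factors of a squarefree rough number -/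
theorem a12_omega {x ρ : ℝ} (hx : 1 < x) (hx2 : 2 ≤ x) {u : ℕ} (hu : Squarefree u)
    (hr : ∀ p : ℕ, p.Prime → p ∣ u → x ^ ρ < (p : ℝ)) (hux : (u : ℝ) ≤ 2 * x) (hρ : 0 < ρ) :
    (2 : ℝ) ^ u.primeFactors.card ≤ 2 ^ (2 / ρ) := by
  have h0 : (0 : ℝ) < x := by linarith
  have h1 : (x ^ ρ) ^ u.primeFactors.card ≤ (u : ℝ) := by
    have h2 := Nat.prod_primeFactors_of_squarefree hu
    have h3 : (u : ℝ) = ∏ p ∈ u.primeFactors, (p : ℝ) := by
      conv_lhs => rw [← h2]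
      push_cast
      rfl
    rw [h3, ← Finset.prod_const]
    refine Finset.prod_le_prod (fun i _ => by positivity) (fun p hp => ?_)
    exact (hr p (Nat.prime_of_mem_primeFactors hp) (Nat.dvd_of_mem_primeFactors hp)).le
  have h4 : x ^ (ρ * u.primeFactors.card) ≤ x ^ (2 : ℝ) := by
    calc x ^ (ρ * u.primeFactors.card) = (x ^ ρ) ^ u.primeFactors.card := by
          rw [Real.rpow_mul h0.le, Real.rpow_natCast]
      _ ≤ u := h1
      _ ≤ 2 * x := hux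
      _ ≤ x * x := by nlinarith
      _ = x ^ (2 : ℝ) := by rw [Real.rpow_two]; ring
  have h5 : ρ * u.primeFactors.card ≤ 2 := (Real.rpow_le_rpow_left_iff hx).1 h4
  have h6 : (u.primeFactors.card : ℝ) ≤ 2 / ρ := by
    rw [le_div_iff₀ hρ]; linarith
  calc (2 : ℝ) ^ u.primeFactors.card = (2 : ℝ) ^ ((u.primeFactors.card : ℕ) : ℝ) := by
        rw [Real.rpow_natCast]
    _ ≤ 2 ^ (2 / ρ) := Real.rpow_le_rpow_of_exponent_le (by norm_num) h6

open Classical in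
/-- interchange the sums; `root_prime`, `root_count` (`u ≤ 2x`, so `x/u + 1 ≤ 3x/u`, and
`2^ω(u) ≤ 2^(2/ρ)`), `rs_short` -/
theorem mid_count_pr (β ρ : ℝ) (hβ : 0 < β) (hβ1 : β < 1) (hρ : 0 < ρ) (hρ1 : ρ < 1) :
    ∃ C x₀ : ℝ, 1 ≤ C ∧ ∀ x : ℝ, x₀ ≤ x → ∀ y z : ℝ, x ^ ρ ≤ y → 1 ≤ z → y * z ≤ 2 * x →
      ∑ t ∈ Prs β x, (((t.1 ^ 2 + t.2 ^ 2).divisors.filter (fun u : ℕ =>
        Rough (x ^ ρ) u ∧ Squarefree u ∧ y < (u : ℝ) ∧ (u : ℝ) ≤ y * z)).card : ℝ) ≤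
        C * (Real.log z + 1) / Real.log x * x ^ (1 + β) := by
  obtain ⟨C, x₀, hC, H⟩ := rs_short ρ hρ hρ1
  refine ⟨2 ^ (2 / ρ) * 3 * C, max x₀ (max 2 (2 ^ (1 / ρ))), ?_, ?_⟩
  · have h1 : (1 : ℝ) ≤ 2 ^ (2 / ρ) := Real.one_le_rpow (by norm_num) (by positivity)
    nlinarith
  intro x hx y z hy hz hyz
  have hx0 : x₀ ≤ x := (le_max_left _ _).trans hx
  have hx2 : 2 ≤ x := (le_max_left _ _).trans ((le_max_right _ _).trans hx)
  have hx3 : 2 ^ (1 / ρ) ≤ x := (le_max_right _ _).trans ((le_max_right _ _).trans hx)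
  have hxp : 0 < x := by linarith
  have hR : 2 ≤ x ^ ρ := by
    calc (2 : ℝ) = ((2 : ℝ) ^ (1 / ρ)) ^ ρ := by
          rw [← Real.rpow_mul (by norm_num), one_div, inv_mul_cancel₀ hρ.ne', Real.rpow_one]
      _ ≤ x ^ ρ := Real.rpow_le_rpow (by positivity) hx3 hρ.le
  have hy0 : 0 < y := by linarith
  set U : Finset ℕ := (Finset.Icc 1 ⌊y * z⌋₊).filter (fun u : ℕ => Squarefree u ∧ y < (u : ℝ) ∧
        ∀ p : ℕ, p.Prime → p ∣ u → x ^ ρ < (p : ℝ) ∧ p % 4 = 1) with hU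
  have hsum := H x hx0 y z hy hz hyz
  rw [← hU] at hsum
  -- pointwise
  have h1 : ∀ t ∈ Prs β x, (((t.1 ^ 2 + t.2 ^ 2).divisors.filter (fun u : ℕ =>
        Rough (x ^ ρ) u ∧ Squarefree u ∧ y < (u : ℝ) ∧ (u : ℝ) ≤ y * z)).card : ℝ) ≤
        ∑ u ∈ U, if u ∣ t.1 ^ 2 + t.2 ^ 2 then (1 : ℝ) else 0 := by
    intro t ht
    rw [Prs, Finset.mem_filter, Finset.mem_product, Finset.mem_Icc, Finset.mem_Icc] at ht
    rw [← Finset.sum_filter, Finset.sum_const, nsmul_eq_mul, mul_one]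
    norm_cast
    refine Finset.card_le_card fun u hu => ?_
    rw [Finset.mem_filter] at hu
    obtain ⟨hu1, hu2, hu3, hu4, hu5⟩ := hu
    have hud := Nat.dvd_of_mem_divisors hu1
    rw [Finset.mem_filter, hU, Finset.mem_filter, Finset.mem_Icc]
    refine ⟨⟨⟨Nat.pos_of_ne_zero hu2.1, Nat.le_floor hu5⟩, hu3, hu4, fun p hp hpu => ?_⟩, hud⟩
    have hpR := hu2.2 p hp hpu
    refine ⟨hpR, root_prime ht.2 hp ?_ (hpu.trans hud)⟩
    rintro rfl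
    push_cast at hpR
    linarith
  -- one u
  have h2 : ∀ u ∈ U, ∑ t ∈ Prs β x, (if u ∣ t.1 ^ 2 + t.2 ^ 2 then (1 : ℝ) else 0) ≤
      2 ^ (2 / ρ) * 3 * x ^ (1 + β) * (1 / (u : ℝ)) := by
    intro u hu
    rw [hU, Finset.mem_filter, Finset.mem_Icc] at hu
    obtain ⟨⟨hu1, hu2⟩, hu3, hu4, hu5⟩ := hu
    have hup : (0 : ℝ) < u := by exact_mod_cast hu1
    have hux : (u : ℝ) ≤ 2 * x := by
      have := (Nat.le_floor_iff (by positivity)).1 hu2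
      linarith
    have hu2' : u % 2 = 1 := by
      rcases Nat.mod_two_eq_zero_or_one u with h | h
      · have h7 := (hu5 2 Nat.prime_two (Nat.dvd_of_mod_eq_zero h)).2
        norm_num at h7
      · exact h
    have e1 : ∑ t ∈ Prs β x, (if u ∣ t.1 ^ 2 + t.2 ^ 2 then (1 : ℝ) else 0) =
        ∑ b ∈ Finset.Icc 1 ⌊x ^ β⌋₊, (((Finset.Icc 1 ⌊x⌋₊).filter (fun n : ℕ =>
          Nat.Coprime n b ∧ u ∣ n ^ 2 + b ^ 2)).card : ℝ) := by
      rw [Prs, Finset.sum_filter, Finset.sum_product_right]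
      refine Finset.sum_congr rfl fun b _ => ?_
      rw [Finset.card_filter]
      push_cast
      refine Finset.sum_congr rfl fun n _ => ?_
      by_cases h8 : Nat.Coprime n b
      · rw [if_pos h8]
        by_cases h9 : u ∣ n ^ 2 + b ^ 2
        · rw [if_pos h9, if_pos ⟨h8, h9⟩]
        · rw [if_neg h9, if_neg (fun h => h9 h.2)]
      · rw [if_neg h8, if_neg (fun h => h8 h.1)]
    rw [e1]
    have h9 : ∀ b ∈ Finset.Icc 1 ⌊x ^ β⌋₊, (((Finset.Icc 1 ⌊x⌋₊).filter (fun n : ℕ =>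
          Nat.Coprime n b ∧ u ∣ n ^ 2 + b ^ 2)).card : ℝ) ≤ 2 ^ (2 / ρ) * (3 * x / u) := by
      intro b hb
      refine (root_count hxp.le hu3 hu2' (Finset.mem_Icc.1 hb).1).trans ?_
      refine mul_le_mul (a12_omega (by linarith) hx2 hu3 (fun p hp h => (hu5 p hp h).1) hux hρ) ?_
        (by positivity) (by positivity)
      have : 1 ≤ 2 * x / u := by rw [le_div_iff₀ hup]; linarith
      have e : 3 * x / (u : ℝ) = x / u + 2 * x / u := by ring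
      rw [e]
      linarith
    refine (Finset.sum_le_sum h9).trans ?_
    rw [Finset.sum_const, Nat.card_Icc, Nat.add_sub_cancel, nsmul_eq_mul]
    have h10 : ((⌊x ^ β⌋₊ : ℕ) : ℝ) ≤ x ^ β := Nat.floor_le (by positivity)
    calc ((⌊x ^ β⌋₊ : ℕ) : ℝ) * (2 ^ (2 / ρ) * (3 * x / u))
        ≤ x ^ β * (2 ^ (2 / ρ) * (3 * x / u)) :=
          mul_le_mul_of_nonneg_right h10 (by positivity)
      _ = 2 ^ (2 / ρ) * 3 * x ^ (1 + β) * (1 / (u : ℝ)) := by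
          rw [Real.rpow_add hxp, Real.rpow_one]; ring
  calc ∑ t ∈ Prs β x, (((t.1 ^ 2 + t.2 ^ 2).divisors.filter (fun u : ℕ =>
        Rough (x ^ ρ) u ∧ Squarefree u ∧ y < (u : ℝ) ∧ (u : ℝ) ≤ y * z)).card : ℝ)
      ≤ ∑ t ∈ Prs β x, ∑ u ∈ U, (if u ∣ t.1 ^ 2 + t.2 ^ 2 then (1 : ℝ) else 0) :=
        Finset.sum_le_sum h1
    _ = ∑ u ∈ U, ∑ t ∈ Prs β x, (if u ∣ t.1 ^ 2 + t.2 ^ 2 then (1 : ℝ) else 0) :=
        Finset.sum_comm
    _ ≤ ∑ u ∈ U, 2 ^ (2 / ρ) * 3 * x ^ (1 + β) * (1 / (u : ℝ)) := Finset.sum_le_sum h2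
    _ = 2 ^ (2 / ρ) * 3 * x ^ (1 + β) * ∑ u ∈ U, 1 / (u : ℝ) := by rw [Finset.mul_sum]
    _ ≤ 2 ^ (2 / ρ) * 3 * x ^ (1 + β) * (C * (Real.log z + 1) / Real.log x) :=
        mul_le_mul_of_nonneg_left hsum (by positivity)
    _ = 2 ^ (2 / ρ) * 3 * C * (Real.log z + 1) / Real.log x * x ^ (1 + β) := by ring



end Pool.Agent.TR

namespace Pool.Agent.TR

theorem mid_count : type_of% @mid_count_pr := @mid_count_pr

end Pool.Agent.TR
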