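import Pool.Agent.Lib_helper97.TRL.A11
import Pool.Agent.Lib_helper10.T2F.BAS
import Pool.Agent.Lib_helper97.TR.Defs
import Pool.Agent.Lib_helper97.TRL.D42
import Pool.Agent.Lib_helper97.TRL.D42A
import Pool.Agent.Lib_helper97.TRL.M42

set_option autoImplicit false

namespace Pool.Agent.TR

open Pool.Agent.T2 Pool.Agent.TF Filter Topology

open Classical in
/-- pointwise bound for fixed `x` -/
theorem a13_bound {β ρ x : ℝ} (hβ1 : β < 1) (hx : 1 ≤ x) (hx2 : 2 ≤ x ^ ρ) :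
    (((Prs β x).filter (fun t : ℕ × ℕ =>
      ∃ p : ℕ, p.Prime ∧ x ^ ρ < (p : ℝ) ∧ p ^ 2 ∣ t.1 ^ 2 + t.2 ^ 2)).card : ℝ) ≤
        x ^ β * (4 * x * (x ^ ρ)⁻¹ + 2 * (Nat.primeCounting ⌊2 * x⌋₊ : ℝ)) := by
  have hx0 : 0 < x := by linarith
  have hR : 0 < x ^ ρ := by linarith
  set P : Finset ℕ := (Finset.Ioc ⌊x ^ ρ⌋₊ ⌊2 * x⌋₊).filter (fun p => p.Prime) with hP
  set B : Finset ℕ := Finset.Icc 1 ⌊x ^ β⌋₊ with hB
  set S : ℕ → ℕ → Finset ℕ := fun p b => (Finset.Icc 1 ⌊x⌋₊).filter (fun n : ℕ =>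
    Nat.Coprime n b ∧ p ^ 2 ∣ n ^ 2 + b ^ 2) with hS
  have hsub : (Prs β x).filter (fun t : ℕ × ℕ =>
      ∃ p : ℕ, p.Prime ∧ x ^ ρ < (p : ℝ) ∧ p ^ 2 ∣ t.1 ^ 2 + t.2 ^ 2) ⊆
      P.biUnion (fun p => B.biUnion (fun b => (S p b).image (fun n => (n, b)))) := by
    rintro ⟨n, b⟩ ht
    rw [Finset.mem_filter, Prs, Finset.mem_filter, Finset.mem_product] at ht
    obtain ⟨⟨⟨hn, hb⟩, hco⟩, p, hp, hpR, hdvd⟩ := ht
    simp only at hn hb hco hdvd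
    rw [Finset.mem_biUnion]
    have hn' := Finset.mem_Icc.mp hn
    have hb' := Finset.mem_Icc.mp hb
    have hnx : (n : ℝ) ≤ x := (Nat.le_floor_iff hx0.le).mp hn'.2
    have hbx : (b : ℝ) ≤ x := by
      have h1 : (b : ℝ) ≤ x ^ β := (Nat.le_floor_iff (by positivity)).mp hb'.2
      have h2 : x ^ β ≤ x ^ (1 : ℝ) := Real.rpow_le_rpow_of_exponent_le hx hβ1.le
      rw [Real.rpow_one] at h2
      exact h1.trans h2
    refine ⟨p, ?_, ?_⟩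
    · rw [hP, Finset.mem_filter, Finset.mem_Ioc]
      refine ⟨⟨(Nat.floor_lt hR.le).mpr hpR, Nat.le_floor ?_⟩, hp⟩
      have hn0 : 0 < n := hn'.1
      have h1 : p ^ 2 ≤ n ^ 2 + b ^ 2 := Nat.le_of_dvd (by positivity) hdvd
      have h2 : (p : ℝ) ^ 2 ≤ (n : ℝ) ^ 2 + (b : ℝ) ^ 2 := by exact_mod_cast h1
      have h3 : (n : ℝ) ^ 2 ≤ x ^ 2 := pow_le_pow_left₀ (by positivity) hnx 2
      have h4 : (b : ℝ) ^ 2 ≤ x ^ 2 := pow_le_pow_left₀ (by positivity) hbx 2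
      have h5 : (p : ℝ) ^ 2 ≤ (2 * x) ^ 2 := by nlinarith
      exact (pow_le_pow_iff_left₀ (by positivity) (by positivity) two_ne_zero).mp h5
    · rw [Finset.mem_biUnion]
      exact ⟨b, hb, Finset.mem_image.mpr ⟨n, Finset.mem_filter.mpr ⟨hn, hco, hdvd⟩, rfl⟩⟩
  have h1 : (((Prs β x).filter (fun t : ℕ × ℕ =>
      ∃ p : ℕ, p.Prime ∧ x ^ ρ < (p : ℝ) ∧ p ^ 2 ∣ t.1 ^ 2 + t.2 ^ 2)).card : ℝ) ≤
      ∑ p ∈ P, ∑ b ∈ B, ((S p b).card : ℝ) := by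
    have h2 := (Finset.card_le_card hsub).trans Finset.card_biUnion_le
    have h3 : ∑ p ∈ P, (B.biUnion (fun b => (S p b).image (fun n => (n, b)))).card ≤
        ∑ p ∈ P, ∑ b ∈ B, (S p b).card := by
      refine Finset.sum_le_sum fun p _ => Finset.card_biUnion_le.trans ?_
      exact Finset.sum_le_sum fun b _ => Finset.card_image_le
    have h4 := h2.trans h3
    have h5 := (Nat.cast_le (α := ℝ)).mpr h4
    push_cast at h5
    exact h5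
  refine h1.trans ?_
  have hBc : (B.card : ℝ) ≤ x ^ β := by
    rw [hB, Nat.card_Icc, Nat.add_sub_cancel]
    exact Nat.floor_le (by positivity)
  have h2 : ∀ p ∈ P, ∑ b ∈ B, ((S p b).card : ℝ) ≤ x ^ β * (2 * (x / (p : ℝ) ^ 2 + 1)) := by
    intro p hp
    rw [hP, Finset.mem_filter, Finset.mem_Ioc] at hp
    obtain ⟨⟨hp1, -⟩, hpp⟩ := hp
    have hpR : x ^ ρ < (p : ℝ) := (Nat.floor_lt hR.le).mp hp1
    have hp2 : p ≠ 2 := by
      rintro rfl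
      push_cast at hpR
      linarith
    have h3 : ∀ b ∈ B, ((S p b).card : ℝ) ≤ 2 * (x / (p : ℝ) ^ 2 + 1) := by
      intro b hb
      exact root_sq hx0.le hpp hp2 (Finset.mem_Icc.mp hb).1
    calc ∑ b ∈ B, ((S p b).card : ℝ) ≤ ∑ b ∈ B, 2 * (x / (p : ℝ) ^ 2 + 1) :=
          Finset.sum_le_sum h3
      _ = (B.card : ℝ) * (2 * (x / (p : ℝ) ^ 2 + 1)) := by
          rw [Finset.sum_const, nsmul_eq_mul]
      _ ≤ _ := mul_le_mul_of_nonneg_right hBc (by positivity)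
  refine (Finset.sum_le_sum h2).trans ?_
  rw [← Finset.mul_sum]
  refine mul_le_mul_of_nonneg_left ?_ (by positivity)
  have h3 : ∑ p ∈ P, 2 * (x / (p : ℝ) ^ 2 + 1) =
      2 * x * ∑ p ∈ P, ((p : ℝ) ^ 2)⁻¹ + 2 * (P.card : ℝ) := by
    rw [Finset.mul_sum]
    rw [show 2 * (P.card : ℝ) = ∑ _p ∈ P, (2 : ℝ) by
      rw [Finset.sum_const, nsmul_eq_mul]; ring]
    rw [← Finset.sum_add_distrib]
    refine Finset.sum_congr rfl fun p _ => ?_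
    ring
  rw [h3]
  have h4 : ∑ p ∈ P, ((p : ℝ) ^ 2)⁻¹ ≤ 2 / ((⌊x ^ ρ⌋₊ : ℝ) + 1) := by
    refine le_trans ?_ (sum_Ioo_inv_sq_le (α := ℝ) ⌊x ^ ρ⌋₊ (⌊2 * x⌋₊ + 1))
    refine Finset.sum_le_sum_of_subset_of_nonneg ?_ fun _ _ _ => by positivity
    intro p hp
    rw [hP, Finset.mem_filter, Finset.mem_Ioc] at hp
    rw [Finset.mem_Ioo]
    omega
  have h5 : 2 / ((⌊x ^ ρ⌋₊ : ℝ) + 1) ≤ 2 * (x ^ ρ)⁻¹ := by
    rw [div_eq_mul_inv]
    refine mul_le_mul_of_nonneg_left ?_ (by norm_num)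
    exact inv_anti₀ hR (Nat.lt_floor_add_one _).le
  have h6 : P.card ≤ Nat.primeCounting ⌊2 * x⌋₊ := by
    rw [Nat.primeCounting, Nat.primeCounting', Nat.count_eq_card_filter_range]
    refine Finset.card_le_card fun p hp => ?_
    rw [hP, Finset.mem_filter, Finset.mem_Ioc] at hp
    rw [Finset.mem_filter, Finset.mem_range]
    exact ⟨by omega, hp.2⟩
  have h7 : (P.card : ℝ) ≤ (Nat.primeCounting ⌊2 * x⌋₊ : ℝ) := by exact_mod_cast h6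
  have h8 : 2 * x * ∑ p ∈ P, ((p : ℝ) ^ 2)⁻¹ ≤ 2 * x * (2 * (x ^ ρ)⁻¹) :=
    mul_le_mul_of_nonneg_left (h4.trans h5) (by positivity)
  linarith

open Classical in
theorem sq_rare_pr (β ρ ε : ℝ) (hβ : 0 < β) (hβ1 : β < 1) (hρ : 0 < ρ) (hε : 0 < ε) :
    ∃ x₀ : ℝ, ∀ x : ℝ, x₀ ≤ x → (((Prs β x).filter (fun t : ℕ × ℕ =>
      ∃ p : ℕ, p.Prime ∧ x ^ ρ < (p : ℝ) ∧ p ^ 2 ∣ t.1 ^ 2 + t.2 ^ 2)).card : ℝ) ≤
        ε * x ^ (1 + β) := by
  have e1 : ∀ᶠ x : ℝ in atTop, 2 ≤ x ^ ρ :=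
    (tendsto_rpow_atTop hρ).eventually_ge_atTop 2
  have e2 : ∀ᶠ x : ℝ in atTop, 8 / ε ≤ x ^ ρ :=
    (tendsto_rpow_atTop hρ).eventually_ge_atTop (8 / ε)
  have t2 : Tendsto (fun x : ℝ => 2 * x) atTop atTop :=
    tendsto_id.const_mul_atTop (by norm_num : (0 : ℝ) < 2)
  have e3 : ∀ᶠ x : ℝ in atTop, (Nat.primeCounting ⌊2 * x⌋₊ : ℝ) ≤
      (Real.log 4 + 1) * (2 * x) / Real.log (2 * x) :=
    t2.eventually (Chebyshev.eventually_primeCounting_le one_pos)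
  have e4 : ∀ᶠ x : ℝ in atTop, 8 * (Real.log 4 + 1) / ε ≤ Real.log (2 * x) :=
    (Real.tendsto_log_atTop.comp t2).eventually_ge_atTop _
  obtain ⟨x₀, hx₀⟩ := eventually_atTop.mp
    (e1.and (e2.and (e3.and (e4.and (eventually_ge_atTop (1 : ℝ))))))
  refine ⟨x₀, fun x hx => ?_⟩
  obtain ⟨h1, h2, h3, h4, h5⟩ := hx₀ x hx
  have hx0 : 0 < x := by linarith
  have hR : 0 < x ^ ρ := by linarith
  refine (a13_bound hβ1 h5 h1).trans ?_
  rw [Real.rpow_add hx0, Real.rpow_one, show ε * (x * x ^ β) = x ^ β * (ε * x) by ring]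
  refine mul_le_mul_of_nonneg_left ?_ (by positivity)
  have k1 : 4 * x * (x ^ ρ)⁻¹ ≤ ε / 2 * x := by
    have : (x ^ ρ)⁻¹ ≤ ε / 8 := by
      have := inv_anti₀ (by positivity) h2
      rwa [inv_div] at this
    have := mul_le_mul_of_nonneg_left this (by positivity : 0 ≤ 4 * x)
    linarith
  have hl4 : 0 < Real.log 4 := Real.log_pos (by norm_num)
  have k2 : (Real.log 4 + 1) * (2 * x) / Real.log (2 * x) ≤ ε / 4 * x := by
    have hlog : 0 < Real.log (2 * x) := lt_of_lt_of_le (by positivity) h4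
    rw [div_le_iff₀ hlog]
    have := mul_le_mul_of_nonneg_left h4 (by positivity : 0 ≤ ε / 4 * x)
    refine le_trans (le_of_eq ?_) this
    field_simp
    ring
  linarith


end Pool.Agent.TR

namespace Pool.Agent.TR

theorem sq_rare : type_of% @sq_rare_pr := @sq_rare_pr

end Pool.Agent.TR
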