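import Pool.Agent.Lib_helper97.TRL.D42

/-!
# Part K (type I mean value, MP_892e4c_nt): definitions (helper50)
-/

set_option autoImplicit false

namespace Pool.Agent.TR

open Pool.Agent.T2 Pool.Agent.TF

open Classical in
/-- the primes `p = 1 mod 4`, `G < p ≤ R`, which do not divide `b` -/
noncomputable def Pb (G : ℕ) (R : ℝ) (b : ℕ) : Finset ℕ :=
  (Finset.Icc 1 ⌊R⌋₊).filter (fun p => p.Prime ∧ p % 4 = 1 ∧ G < p ∧ ¬ p ∣ b)

/-- the level `j` of `p ≤ R`: `R^(2^-(j+1)) < p ≤ R^(2^-j)` -/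
noncomputable def lvl (R : ℝ) (p : ℕ) : ℕ := ⌊Real.logb 2 (Real.log R / Real.log p)⌋₊

open Classical in
/-- the subsets with at most `k + j` elements of level `j` (for `j < J`) -/
noncomputable def AdS (l : ℕ → ℕ) (J k : ℕ) (S : Finset ℕ) : Finset (Finset ℕ) :=
  S.powerset.filter (fun T => ∀ j < J, (T.filter (fun p => l p = j)).card ≤ k + j)

open Classical in
/-- the subsets with at most `k + i` elements of level `i < j`, exactly `k + j + 1` elements of
level `j` and no element of a level `> j` -/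
noncomputable def ReS (l : ℕ → ℕ) (k j : ℕ) (S : Finset ℕ) : Finset (Finset ℕ) :=
  S.powerset.filter (fun T => (∀ i < j, (T.filter (fun p => l p = i)).card ≤ k + i) ∧
    (T.filter (fun p => l p = j)).card = k + j + 1 ∧ ∀ p ∈ T, l p ≤ j)

open Classical in
/-- the primes of `Pb G R b` which divide `n² + b²` -/
noncomputable def Sn (G : ℕ) (R : ℝ) (b n : ℕ) : Finset ℕ :=
  (Pb G R b).filter (fun p => p ∣ n ^ 2 + b ^ 2)

/-- weights on `[1, X]` which are well distributed in residue classes -/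
structure WFn (g : ℕ → ℝ) (X : ℕ) (H E : ℝ) : Prop where
  nonneg : ∀ n, 0 ≤ g n
  le_one : ∀ n, g n ≤ 1
  H_nonneg : 0 ≤ H
  H_le : H ≤ (X : ℝ)
  E_one : 1 ≤ E
  dist : ∀ N c : ℕ, 1 ≤ N →
    |∑ n ∈ (Finset.Icc 1 X).filter (fun n => n % N = c % N), g n - H / N| ≤ E

open Classical in
/-- the squarefree `r ≤ W` composed of primes `p = 1 mod 4`, `p > R`, not dividing `b` -/
noncomputable def Rb (R W : ℝ) (b : ℕ) : Finset ℕ :=
  (Finset.Icc 1 ⌊W⌋₊).filter (fun r => Squarefree r ∧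
    ∀ p ∈ r.primeFactors, p % 4 = 1 ∧ R < (p : ℝ) ∧ ¬ p ∣ b)

/-- the modulus which takes care of the primes `≤ G` -/
noncomputable def Q0 (G J : ℕ) : ℕ := primorial G ^ J

open Classical in
/-- Liouville's function of the part of `n² + b²` composed of the primes `≤ G`, if no such prime
divides `n² + b²` at least `J` times and none of them divides `n` and `b` -/
noncomputable def gb (G J b n : ℕ) : ℝ :=
  if ∀ p : ℕ, p.Prime → p ≤ G → ¬ p ^ J ∣ n ^ 2 + b ^ 2 ∧ ¬ (p ∣ n ∧ p ∣ b) then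
    lam (sm (G : ℝ) (n ^ 2 + b ^ 2)) else 0

/-- the bad pairs -/
def IsBad (G J b n : ℕ) : Prop :=
  (Nat.Coprime n b ∧ ((∃ p : ℕ, p.Prime ∧ p ≤ G ∧ p ^ J ∣ n ^ 2 + b ^ 2) ∨
    ∃ p : ℕ, p.Prime ∧ G < p ∧ p ^ 2 ∣ n ^ 2 + b ^ 2)) ∨
  ∃ p : ℕ, p.Prime ∧ G < p ∧ p ∣ n ∧ p ∣ b

open Classical in
/-- the number of bad `n ≤ X` -/
noncomputable def nbad (G J b X : ℕ) : ℕ := ((Finset.Icc 1 X).filter (fun n => IsBad G J b n)).card

open Classical in
/-- the sum over the divisors in `Rb R W b` of `m` -/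
noncomputable def hr (R W : ℝ) (b m : ℕ) : ℝ :=
  ∑ r ∈ (Rb R W b).filter (fun r => r ∣ m), (-2 : ℝ) ^ r.primeFactors.card

end Pool.Agent.TR
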