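import Pool.Agent.Lib_helper10.T2F.BAS
import Pool.Agent.Lib_helper97.TRL.D42
import Pool.Agent.Lib_helper97.TRL.D50

set_option autoImplicit false

namespace Pool.Agent.TR

open Pool.Agent.T2 Pool.Agent.TF

theorem lvl_spec_pr {R : ℝ} {p : ℕ} (hp : 2 ≤ p) (hpR : (p : ℝ) ≤ R) :
    R ^ ((1 : ℝ) / 2 ^ (lvl R p + 1)) < p ∧ (p : ℝ) ≤ R ^ ((1 : ℝ) / 2 ^ lvl R p) := by
  have hp2 : (2 : ℝ) ≤ p := by exact_mod_cast hp
  have hp0 : (0 : ℝ) < p := by linarith
  have hR0 : 0 < R := by linarith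
  have hlp : 0 < Real.log p := Real.log_pos (by linarith)
  have hlR : 0 < Real.log R := Real.log_pos (by linarith)
  have hle : Real.log p ≤ Real.log R := Real.log_le_log hp0 hpR
  have hq1 : 1 ≤ Real.log R / Real.log p := by
    rw [le_div_iff₀ hlp, one_mul]
    exact hle
  have hq0 : 0 < Real.log R / Real.log p := by linarith
  have hlb : 0 ≤ Real.logb 2 (Real.log R / Real.log p) := Real.logb_nonneg (by norm_num) hq1
  have h1 : ((lvl R p : ℕ) : ℝ) ≤ Real.logb 2 (Real.log R / Real.log p) := Nat.floor_le hlb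
  have h2 : Real.logb 2 (Real.log R / Real.log p) < (lvl R p : ℕ) + 1 := Nat.lt_floor_add_one _
  rw [Real.le_logb_iff_rpow_le (by norm_num) hq0, Real.rpow_natCast] at h1
  rw [Real.logb_lt_iff_lt_rpow (by norm_num) hq0] at h2
  have e2 : (2 : ℝ) ^ (((lvl R p : ℕ) : ℝ) + 1) = 2 ^ (lvl R p + 1) := by
    rw [← Real.rpow_natCast]
    push_cast
    rfl
  rw [e2, div_lt_iff₀ hlp] at h2
  rw [le_div_iff₀ hlp] at h1
  constructor
  · rw [← Real.log_lt_log_iff (by positivity) hp0, Real.log_rpow hR0, one_div, inv_mul_lt_iff₀ (by positivity)]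
    exact h2
  · rw [← Real.log_le_log_iff hp0 (by positivity), Real.log_rpow hR0, one_div, le_inv_mul_iff₀ (by positivity)]
    exact h1

theorem lvl_lt_pr {R : ℝ} {p : ℕ} (hp : 2 ≤ p) (hpR : (p : ℝ) ≤ R) : lvl R p < lvl R 2 + 1 := by
  have hp2 : (2 : ℝ) ≤ p := by exact_mod_cast hp
  have hp0 : (0 : ℝ) < p := by linarith
  have hR0 : 0 < R := by linarith
  have hlp : 0 < Real.log p := Real.log_pos (by linarith)
  have hlR : 0 < Real.log R := Real.log_pos (by linarith)
  have hl2 : 0 < Real.log 2 := Real.log_pos (by norm_num)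
  have hle : Real.log 2 ≤ Real.log p := Real.log_le_log (by norm_num) hp2
  rw [Nat.lt_succ_iff]
  unfold lvl
  apply Nat.floor_le_floor
  have h3 : Real.log R / Real.log p ≤ Real.log R / Real.log ((2 : ℕ) : ℝ) := by
    rw [Nat.cast_ofNat]
    exact div_le_div_of_nonneg_left hlR.le hl2 hle
  exact Real.logb_le_logb_of_le (by norm_num) (by positivity) h3

end Pool.Agent.TR

namespace Pool.Agent.TR

theorem lvl_spec : type_of% @lvl_spec_pr := @lvl_spec_pr
theorem lvl_lt : type_of% @lvl_lt_pr := @lvl_lt_pr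

end Pool.Agent.TR
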