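import Pool.Agent.Lib_helper97.TRL.K4
import Pool.Agent.Lib_helper10.T2F.BAS
import Pool.Agent.Lib_helper97.TRL.D42
import Pool.Agent.Lib_helper97.TRL.D50

set_option autoImplicit false

namespace Pool.Agent.TR

open Pool.Agent.T2 Pool.Agent.TF

open Classical in
/-- K5 -/
theorem re_exists_pr {R : ℝ} (hR : 1 ≤ R) {J k : ℕ} {S : Finset ℕ}
    (hS : ∀ p ∈ S, 2 ≤ p ∧ (p : ℝ) ≤ R) (hJ : ∀ p ∈ S, lvl R p < J)
    (h : R ^ (2 * k + 2) < ∏ p ∈ S, (p : ℝ)) : ∃ j < J, (ReS (lvl R) k j S).Nonempty := by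
  have hex : ∃ j, j < J ∧ k + j < (S.filter (fun p => lvl R p = j)).card := by
    by_contra hcon
    push Not at hcon
    have hmem : S ∈ AdS (lvl R) J k S := by
      unfold AdS
      rw [Finset.mem_filter, Finset.mem_powerset]
      refine ⟨Finset.Subset.refl S, fun j hj => ?_⟩
      convert hcon j hj
    exact absurd ((fam_size hR hS hJ).1 S hmem) (not_le.mpr h)
  let j := Nat.find hex
  obtain ⟨hjJ, hjc⟩ := Nat.find_spec hex
  have hmin : ∀ i < j, (S.filter (fun p => lvl R p = i)).card ≤ k + i := by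
    intro i hi
    have h1 := Nat.find_min hex hi
    by_contra hcon
    exact h1 ⟨lt_trans hi hjJ, not_le.mp hcon⟩
  obtain ⟨U, hU, hUc⟩ := Finset.exists_subset_card_eq (Nat.succ_le_of_lt hjc)
  have hUS : ∀ p ∈ U, p ∈ S ∧ lvl R p = j := fun p hp => Finset.mem_filter.mp (hU hp)
  refine ⟨j, hjJ, (S.filter (fun p => lvl R p < j)) ∪ U, ?_⟩
  unfold ReS
  rw [Finset.mem_filter, Finset.mem_powerset]
  refine ⟨?_, ?_, ?_, ?_⟩
  · refine Finset.union_subset (Finset.filter_subset _ _) fun p hp => (hUS p hp).1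
  · intro i hi
    refine le_trans (Finset.card_le_card ?_) (hmin i hi)
    intro p hp
    rw [Finset.mem_filter, Finset.mem_union, Finset.mem_filter] at hp
    obtain ⟨hp1, hp2⟩ := hp
    rw [Finset.mem_filter]
    rcases hp1 with hp1 | hp1
    · exact ⟨hp1.1, hp2⟩
    · exact ⟨(hUS p hp1).1, hp2⟩
  · have he : ((S.filter (fun p => lvl R p < j)) ∪ U).filter (fun p => lvl R p = j) = U := by
      ext p
      rw [Finset.mem_filter, Finset.mem_union, Finset.mem_filter]
      constructor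
      · rintro ⟨hp1 | hp1, hp2⟩
        · exact absurd hp2 (ne_of_lt hp1.2)
        · exact hp1
      · intro hp
        exact ⟨Or.inr hp, (hUS p hp).2⟩
    rw [he, hUc]
  · intro p hp
    rw [Finset.mem_union, Finset.mem_filter] at hp
    rcases hp with hp | hp
    · exact le_of_lt hp.2
    · exact le_of_eq (hUS p hp).2



end Pool.Agent.TR

namespace Pool.Agent.TR

theorem re_exists : type_of% @re_exists_pr := @re_exists_pr

end Pool.Agent.TR
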