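import Pool.Agent.Lib_helper97.TRL.K4
import Pool.Agent.Lib_helper10.T2F.BAS
import Pool.Agent.Lib_helper97.TRL.D42
import Pool.Agent.Lib_helper97.TRL.D50

set_option autoImplicit false

namespace Pool.Agent.TR

open Pool.Agent.T2 Pool.Agent.TF

open Classical in
theorem k6_inj {S : Finset ℕ} (hS : ∀ p ∈ S, p.Prime) {T T' : Finset ℕ} (hT : T ⊆ S)
    (hT' : T' ⊆ S) (h : ∏ p ∈ T, p = ∏ p ∈ T', p) : T = T' := by
  rw [← Nat.primeFactors_prod (fun p hp => hS p (hT hp)),
    ← Nat.primeFactors_prod (fun p hp => hS p (hT' hp)), h]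

theorem fam_sum_pr {R : ℝ} (hR : 1 ≤ R) {J k : ℕ} {S : Finset ℕ}
    (hS : ∀ p ∈ S, p.Prime ∧ 16 ≤ p ∧ (p : ℝ) ≤ R) (hJ : ∀ p ∈ S, lvl R p < J) :
    ∑ T ∈ AdS (lvl R) J k S, (4 : ℝ) ^ T.card +
      ∑ j ∈ Finset.range J, ∑ T ∈ ReS (lvl R) k j S, (4 : ℝ) ^ T.card ≤
        R ^ (3 * k + 3) := by
  classical
  have hfs := fam_size hR (k := k) (fun p hp => ⟨(hS p hp).1.two_le, (hS p hp).2.2⟩) hJ
  set U := AdS (lvl R) J k S ∪ (Finset.range J).biUnion (fun j => ReS (lvl R) k j S) with hU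
  have hd2 : ((Finset.range J : Finset ℕ) : Set ℕ).PairwiseDisjoint
      (fun j => ReS (lvl R) k j S) := by
    intro i _ j _ hij
    rw [Function.onFun, Finset.disjoint_left]
    intro T h1 h2
    unfold ReS at h1 h2
    rw [Finset.mem_filter] at h1 h2
    rcases lt_or_gt_of_ne hij with h | h
    · have := h2.2.1 i h
      have := h1.2.2.1
      omega
    · have := h1.2.1 j h
      have := h2.2.2.1
      omega
  have hd1 : Disjoint (AdS (lvl R) J k S)
      ((Finset.range J).biUnion (fun j => ReS (lvl R) k j S)) := by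
    rw [Finset.disjoint_left]
    intro T h1 h2
    rw [Finset.mem_biUnion] at h2
    obtain ⟨j, hj, h2⟩ := h2
    rw [Finset.mem_range] at hj
    unfold AdS at h1
    unfold ReS at h2
    rw [Finset.mem_filter] at h1 h2
    have := h1.2 j hj
    have := h2.2.2.1
    omega
  have hsum : ∑ T ∈ AdS (lvl R) J k S, (4 : ℝ) ^ T.card +
      ∑ j ∈ Finset.range J, ∑ T ∈ ReS (lvl R) k j S, (4 : ℝ) ^ T.card =
        ∑ T ∈ U, (4 : ℝ) ^ T.card := by
    rw [hU, Finset.sum_union hd1, Finset.sum_biUnion hd2]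
  have hUs : ∀ T ∈ U, T ⊆ S := by
    intro T hT
    rw [hU, Finset.mem_union, Finset.mem_biUnion] at hT
    rcases hT with h | ⟨j, -, h⟩
    · unfold AdS at h
      rw [Finset.mem_filter, Finset.mem_powerset] at h
      exact h.1
    · unfold ReS at h
      rw [Finset.mem_filter, Finset.mem_powerset] at h
      exact h.1
  have hUp : ∀ T ∈ U, ∏ p ∈ T, (p : ℝ) ≤ R ^ (2 * k + 2) := by
    intro T hT
    rw [hU, Finset.mem_union, Finset.mem_biUnion] at hT
    rcases hT with h | ⟨j, -, h⟩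
    · exact hfs.1 T h
    · exact hfs.2 j T h
  have hR0 : 0 < R := by linarith
  have h4 : ∀ T ∈ U, (4 : ℝ) ^ T.card ≤ R ^ (k + 1) := by
    intro T hT
    have h1 : (16 : ℝ) ^ T.card ≤ ∏ p ∈ T, (p : ℝ) := by
      rw [← Finset.prod_const]
      apply Finset.prod_le_prod
      · intro p _
        norm_num
      · intro p hp
        exact_mod_cast (hS p (hUs T hT hp)).2.1
    have h2 : ((4 : ℝ) ^ T.card) ^ 2 ≤ (R ^ (k + 1)) ^ 2 := by
      calc ((4 : ℝ) ^ T.card) ^ 2 = 16 ^ T.card := by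
            rw [← pow_mul, mul_comm, pow_mul]
            norm_num
        _ ≤ R ^ (2 * k + 2) := h1.trans (hUp T hT)
        _ = (R ^ (k + 1)) ^ 2 := by
            rw [← pow_mul]
            congr 1
            ring
    exact le_of_sq_le_sq h2 (by positivity)
  have hcard : (U.card : ℝ) ≤ R ^ (2 * k + 2) := by
    have h1 : U.card ≤ (Finset.Icc 1 ⌊R ^ (2 * k + 2)⌋₊).card := by
      apply Finset.card_le_card_of_injOn (fun T => ∏ p ∈ T, p)
      · intro T hT
        have hT' : T ∈ U := hT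
        rw [Finset.mem_coe, Finset.mem_Icc]
        constructor
        · apply Nat.pos_of_ne_zero
          rw [Finset.prod_ne_zero_iff]
          intro p hp
          exact (hS p (hUs T hT' hp)).1.ne_zero
        · apply Nat.le_floor
          push_cast
          exact hUp T hT'
      · intro T hT T' hT' h
        exact k6_inj (fun p hp => (hS p hp).1) (hUs T hT) (hUs T' hT') h
    rw [Nat.card_Icc, Nat.add_sub_cancel] at h1
    calc (U.card : ℝ) ≤ ((⌊R ^ (2 * k + 2)⌋₊ : ℕ) : ℝ) := by exact_mod_cast h1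
      _ ≤ R ^ (2 * k + 2) := Nat.floor_le (by positivity)
  rw [hsum]
  calc ∑ T ∈ U, (4 : ℝ) ^ T.card ≤ ∑ T ∈ U, R ^ (k + 1) := Finset.sum_le_sum h4
    _ = U.card * R ^ (k + 1) := by rw [Finset.sum_const, nsmul_eq_mul]
    _ ≤ R ^ (2 * k + 2) * R ^ (k + 1) := by gcongr
    _ = R ^ (3 * k + 3) := by
        rw [← pow_add]
        congr 1
        ring



end Pool.Agent.TR

namespace Pool.Agent.TR

theorem fam_sum : type_of% @fam_sum_pr := @fam_sum_pr

end Pool.Agent.TR
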