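import Pool.Agent.Lib_helper97.TRL.K0
import Pool.Agent.Lib_helper10.T2F.BAS
import Pool.Agent.Lib_helper97.TRL.D42
import Pool.Agent.Lib_helper97.TRL.D50

set_option autoImplicit false

namespace Pool.Agent.TR

open Pool.Agent.T2 Pool.Agent.TF

theorem sum_inv_sq_pr : ∃ C : ℝ, 1 ≤ C ∧ ∀ y : ℝ, 1 ≤ y →
    ∑ p ∈ pr1 y (y ^ 2), 1 / (p : ℝ) ≤ C := by
  classical
  obtain ⟨C0, hC0, hM⟩ := k_mertens
  have hl2 : (0 : ℝ) < Real.log 2 := Real.log_pos (by norm_num)
  refine ⟨1 + 2 * C0 / Real.log 2, ?_, ?_⟩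
  · have : 0 ≤ 2 * C0 / Real.log 2 := by positivity
    linarith
  intro y hy
  have hy2 : y ≤ y ^ 2 := by nlinarith
  by_cases hlt : y < 2
  · have hempty : pr1 y (y ^ 2) = ∅ := by
      apply Finset.eq_empty_of_forall_notMem
      intro p hp
      rw [pr1, Finset.mem_filter] at hp
      obtain ⟨-, hpp, h4, -, hle⟩ := hp
      have h5 : 5 ≤ p := by
        by_contra h
        have : p < 5 := by omega
        interval_cases p <;> simp_all (config := { decide := true })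
      have h5' : (5 : ℝ) ≤ p := by exact_mod_cast h5
      nlinarith
    rw [hempty, Finset.sum_empty]
    have : 0 ≤ 2 * C0 / Real.log 2 := by positivity
    linarith
  · push Not at hlt
    have hly : Real.log 2 ≤ Real.log y := Real.log_le_log (by norm_num) hlt
    have hly0 : 0 < Real.log y := lt_of_lt_of_le hl2 hly
    set F : ℕ → Finset ℕ := fun x => (Finset.Icc 1 x).filter (fun p => p.Prime ∧ p % 4 = 1)
      with hF
    have hsub : F ⌊y⌋₊ ⊆ F ⌊y ^ 2⌋₊ := by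
      intro p hp
      rw [hF, Finset.mem_filter, Finset.mem_Icc] at hp ⊢
      exact ⟨⟨hp.1.1, hp.1.2.trans (Nat.floor_le_floor hy2)⟩, hp.2⟩
    have hset : pr1 y (y ^ 2) ⊆ F ⌊y ^ 2⌋₊ \ F ⌊y⌋₊ := by
      intro p hp
      rw [pr1, Finset.mem_filter] at hp
      obtain ⟨-, hpp, h4, hgt, hle⟩ := hp
      rw [Finset.mem_sdiff, hF, Finset.mem_filter, Finset.mem_Icc, Finset.mem_filter,
        Finset.mem_Icc]
      refine ⟨⟨⟨hpp.one_lt.le, Nat.le_floor hle⟩, hpp, h4⟩, ?_⟩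
      rintro ⟨⟨-, h⟩, -⟩
      have := (Nat.le_floor_iff (by linarith)).mp h
      linarith
    have h1 : ∑ p ∈ pr1 y (y ^ 2), 1 / (p : ℝ) ≤
        ∑ p ∈ pr1 y (y ^ 2), (Real.log p / p) / Real.log y := by
      apply Finset.sum_le_sum
      intro p hp
      rw [pr1, Finset.mem_filter] at hp
      obtain ⟨-, hpp, h4, hgt, hle⟩ := hp
      have hp0 : (0 : ℝ) < p := by linarith
      have hlp : Real.log y ≤ Real.log p := Real.log_le_log (by linarith) hgt.le
      rw [div_div, div_le_div_iff₀ hp0 (by positivity)]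
      nlinarith
    have h2 : ∑ p ∈ pr1 y (y ^ 2), (Real.log p / p) / Real.log y ≤
        (∑ p ∈ F ⌊y ^ 2⌋₊ \ F ⌊y⌋₊, Real.log p / p) / Real.log y := by
      rw [← Finset.sum_div]
      apply div_le_div_of_nonneg_right _ hly0.le
      apply Finset.sum_le_sum_of_subset_of_nonneg hset
      intro p _ _
      have : 0 ≤ Real.log (p : ℝ) := Real.log_natCast_nonneg p
      positivity
    have h3 : ∑ p ∈ F ⌊y ^ 2⌋₊ \ F ⌊y⌋₊, Real.log (p : ℝ) / p =
        ∑ p ∈ F ⌊y ^ 2⌋₊, Real.log (p : ℝ) / p - ∑ p ∈ F ⌊y⌋₊, Real.log (p : ℝ) / p := by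
      rw [← Finset.sum_sdiff hsub]; ring
    have hf1 : 1 ≤ ⌊y⌋₊ := Nat.le_floor (by simpa using hy)
    have hf2 : 1 ≤ ⌊y ^ 2⌋₊ := hf1.trans (Nat.floor_le_floor hy2)
    have m1 := (abs_le.mp (hM _ hf2)).2
    have m2 := (abs_le.mp (hM _ hf1)).1
    have l1 : Real.log (⌊y ^ 2⌋₊ : ℝ) ≤ 2 * Real.log y := by
      have : Real.log (⌊y ^ 2⌋₊ : ℝ) ≤ Real.log (y ^ 2) :=
        Real.log_le_log (by exact_mod_cast hf2) (Nat.floor_le (by positivity))
      rw [Real.log_pow] at this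
      simpa using this
    have l2 : Real.log y - Real.log 2 ≤ Real.log (⌊y⌋₊ : ℝ) := by
      rw [← Real.log_div (by linarith) (by norm_num)]
      apply Real.log_le_log (by positivity)
      have := Nat.lt_floor_add_one y
      have h1' : (1 : ℝ) ≤ (⌊y⌋₊ : ℝ) := by exact_mod_cast hf1
      rw [div_le_iff₀ (by norm_num)]
      linarith
    have h4 : ∑ p ∈ F ⌊y ^ 2⌋₊ \ F ⌊y⌋₊, Real.log (p : ℝ) / p ≤
        1 / 2 * Real.log y + (1 / 2 * Real.log 2 + 2 * C0) := by
      rw [h3]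
      simp only [hF] at m1 m2 ⊢
      linarith
    calc ∑ p ∈ pr1 y (y ^ 2), 1 / (p : ℝ)
        ≤ (1 / 2 * Real.log y + (1 / 2 * Real.log 2 + 2 * C0)) / Real.log y :=
          (h1.trans h2).trans (div_le_div_of_nonneg_right h4 hly0.le)
      _ = 1 / 2 + (1 / 2 * Real.log 2 + 2 * C0) / Real.log y := by
          field_simp
      _ ≤ 1 / 2 + (1 / 2 * Real.log 2 + 2 * C0) / Real.log 2 := by
          gcongr
      _ = 1 + 2 * C0 / Real.log 2 := by
          field_simp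
          ring



end Pool.Agent.TR

namespace Pool.Agent.TR

theorem sum_inv_sq : type_of% @sum_inv_sq_pr := @sum_inv_sq_pr

end Pool.Agent.TR
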