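import Pool.Agent.Lib_helper10.T2F.BAS
import Pool.Agent.Lib_helper97.TRL.D42
import Pool.Agent.Lib_helper97.TRL.D50

/-! TR, block K8 (helper4): abstract bound for ReS. -/

set_option autoImplicit false

namespace Pool.Agent.TR

open Pool.Agent.T2 Pool.Agent.TF

theorem k8_pow {L w : ℝ} (hL : 0 ≤ L) (hw : 0 ≤ w) (m : ℕ) :
    L ^ (m + 1) + (m + 1) * (w * L ^ m) ≤ (L + w) ^ (m + 1) := by
  induction m with
  | zero => simp
  | succ m ih =>
    have h1 : 0 ≤ L ^ m := pow_nonneg hL m
    have h2 : (L + w) * (L ^ (m + 1) + (m + 1) * (w * L ^ m)) ≤ (L + w) * (L + w) ^ (m + 1) :=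
      mul_le_mul_of_nonneg_left ih (by linarith)
    have h3 : 0 ≤ ((m : ℝ) + 1) * (w ^ 2 * L ^ m) := by positivity
    calc L ^ (m + 1 + 1) + (((m + 1 : ℕ) : ℝ) + 1) * (w * L ^ (m + 1))
        ≤ (L + w) * (L ^ (m + 1) + (m + 1) * (w * L ^ m)) := by
          push_cast
          have e : (L + w) * (L ^ (m + 1) + (m + 1) * (w * L ^ m)) =
              L ^ (m + 1 + 1) + ((m : ℝ) + 1 + 1) * (w * L ^ (m + 1)) +
                ((m : ℝ) + 1) * (w ^ 2 * L ^ m) := by ring
          rw [e]
          linarith
      _ ≤ (L + w) * (L + w) ^ (m + 1) := h2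
      _ = (L + w) ^ (m + 1 + 1) := by ring

theorem k8_esymm (B : Finset ℕ) (w : ℕ → ℝ) (hw : ∀ p, 0 ≤ w p) : ∀ m : ℕ,
    ∑ V ∈ B.powersetCard m, ∏ p ∈ V, w p ≤ (∑ p ∈ B, w p) ^ m / m.factorial := by
  classical
  induction B using Finset.induction_on with
  | empty =>
    intro m
    cases m with
    | zero => simp
    | succ m =>
      rw [Finset.powersetCard_eq_empty.2 (by simp), Finset.sum_empty]
      simp
  | insert q B hq ih =>
    intro m
    cases m with
    | zero => simp
    | succ m =>
      have hL : 0 ≤ ∑ p ∈ B, w p := Finset.sum_nonneg fun p _ => hw p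
      rw [Finset.powersetCard_succ_insert hq, Finset.sum_union, Finset.sum_image]
      · have h1 : ∑ V ∈ B.powersetCard m, ∏ p ∈ insert q V, w p =
            w q * ∑ V ∈ B.powersetCard m, ∏ p ∈ V, w p := by
          rw [Finset.mul_sum]
          refine Finset.sum_congr rfl fun V hV => ?_
          rw [Finset.prod_insert]
          intro h
          exact hq ((Finset.mem_powersetCard.1 hV).1 h)
        rw [h1]
        have h2 := ih (m + 1)
        have h3 := mul_le_mul_of_nonneg_left (ih m) (hw q)
        refine (add_le_add h2 h3).trans ?_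
        rw [Finset.sum_insert hq]
        have h4 := k8_pow hL (hw q) m
        have hf : (0 : ℝ) < m.factorial := by exact_mod_cast Nat.factorial_pos m
        have hf1 : (((m + 1).factorial : ℕ) : ℝ) = (m + 1) * m.factorial := by
          rw [Nat.factorial_succ]; push_cast; ring
        rw [hf1]
        have e : (∑ p ∈ B, w p) ^ (m + 1) / ((m + 1) * m.factorial) +
            w q * ((∑ p ∈ B, w p) ^ m / m.factorial) =
            ((∑ p ∈ B, w p) ^ (m + 1) + (m + 1) * (w q * (∑ p ∈ B, w p) ^ m)) /
              ((m + 1) * m.factorial) := by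
          field_simp
        rw [e]
        apply div_le_div_of_nonneg_right _ (by positivity)
        rw [add_comm (w q)]
        exact h4
      · intro V hV V' hV' h
        have a1 : q ∉ V := fun h => hq ((Finset.mem_powersetCard.1 hV).1 h)
        have a2 : q ∉ V' := fun h => hq ((Finset.mem_powersetCard.1 hV').1 h)
        have h' : insert q V = insert q V' := h
        rw [← Finset.erase_insert a1, ← Finset.erase_insert a2, h']
      · rw [Finset.disjoint_left]
        intro V hV hV'
        obtain ⟨U, _, rfl⟩ := Finset.mem_image.1 hV'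
        exact hq ((Finset.mem_powersetCard.1 hV).1 (Finset.mem_insert_self _ _))

theorem re_abs_pr (l : ℕ → ℕ) (k j : ℕ) (S : Finset ℕ) (w : ℕ → ℝ) (hw : ∀ p, 0 ≤ w p) (c : ℝ)
    (hc : ∀ i, ∑ p ∈ S.filter (fun p => l p = i), w p ≤ c) :
    ∑ T ∈ ReS l k j S, ∏ p ∈ T, w p ≤
      Real.exp (c * j) * (c ^ (k + j + 1) / (k + j + 1).factorial) := by
  classical
  have hc0 : 0 ≤ c := (Finset.sum_nonneg fun p _ => hw p).trans (hc 0)
  set A : Finset ℕ := S.filter (fun p => l p < j) with hA
  set B : Finset ℕ := S.filter (fun p => l p = j) with hB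
  have hdec : ∀ T ∈ ReS l k j S, T.filter (fun p => l p < j) ∪ T.filter (fun p => l p = j) = T := by
    intro T hT
    unfold ReS at hT
    rw [Finset.mem_filter] at hT
    rw [← Finset.filter_or, Finset.filter_true_of_mem]
    intro p hp
    exact lt_or_eq_of_le (hT.2.2.2 p hp)
  have hdisj : ∀ T : Finset ℕ,
      Disjoint (T.filter (fun p => l p < j)) (T.filter (fun p => l p = j)) := by
    intro T
    rw [Finset.disjoint_left]
    intro p hp hp'
    rw [Finset.mem_filter] at hp hp'
    omega
  have h1 : ∑ T ∈ ReS l k j S, ∏ p ∈ T, w p ≤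
      ∑ t ∈ A.powerset ×ˢ B.powersetCard (k + j + 1), (∏ p ∈ t.1, w p) * ∏ p ∈ t.2, w p := by
    have h2 : ∑ T ∈ ReS l k j S, ∏ p ∈ T, w p =
        ∑ t ∈ (ReS l k j S).image (fun T : Finset ℕ =>
          (T.filter (fun p => l p < j), T.filter (fun p => l p = j))),
          (∏ p ∈ t.1, w p) * ∏ p ∈ t.2, w p := by
      rw [Finset.sum_image]
      · refine Finset.sum_congr rfl fun T hT => ?_
        rw [← Finset.prod_union (hdisj T), hdec T hT]
      · intro T hT T' hT' h
        simp only [Prod.mk.injEq] at h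
        rw [← hdec T hT, ← hdec T' hT', h.1, h.2]
    rw [h2]
    apply Finset.sum_le_sum_of_subset_of_nonneg
    · intro t ht
      obtain ⟨T, hT, rfl⟩ := Finset.mem_image.1 ht
      unfold ReS at hT
      rw [Finset.mem_filter, Finset.mem_powerset] at hT
      rw [Finset.mem_product, Finset.mem_powerset, Finset.mem_powersetCard]
      exact ⟨Finset.filter_subset_filter _ hT.1, Finset.filter_subset_filter _ hT.1, hT.2.2.1⟩
    · intro t _ _
      exact mul_nonneg (Finset.prod_nonneg fun p _ => hw p) (Finset.prod_nonneg fun p _ => hw p)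
  refine h1.trans ?_
  rw [Finset.sum_product]
  have h3 : ∑ U ∈ A.powerset, ∑ V ∈ B.powersetCard (k + j + 1),
      (∏ p ∈ U, w p) * ∏ p ∈ V, w p =
      (∑ U ∈ A.powerset, ∏ p ∈ U, w p) * ∑ V ∈ B.powersetCard (k + j + 1), ∏ p ∈ V, w p := by
    rw [Finset.sum_mul_sum]
  rw [h3]
  have h4 : ∑ U ∈ A.powerset, ∏ p ∈ U, w p ≤ Real.exp (c * j) := by
    rw [← Finset.prod_one_add]
    have h5 : ∏ p ∈ A, (1 + w p) ≤ ∏ p ∈ A, Real.exp (w p) :=
      Finset.prod_le_prod (fun p _ => by linarith [hw p])
        (fun p _ => by linarith [Real.add_one_le_exp (w p)])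
    refine h5.trans ?_
    rw [← Real.exp_sum]
    apply Real.exp_le_exp.2
    have h6 : ∑ p ∈ A, w p = ∑ i ∈ Finset.range j, ∑ p ∈ S.filter (fun p => l p = i), w p := by
      rw [← Finset.sum_fiberwise_of_maps_to (s := A) (t := Finset.range j) (g := l)]
      · refine Finset.sum_congr rfl fun i hi => Finset.sum_congr ?_ fun _ _ => rfl
        rw [hA, Finset.filter_filter]
        refine Finset.filter_congr fun p _ => ?_
        rw [Finset.mem_range] at hi
        constructor
        · exact fun h => h.2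
        · exact fun h => ⟨by omega, h⟩
      · intro p hp
        rw [hA, Finset.mem_filter] at hp
        exact Finset.mem_range.2 hp.2
    rw [h6]
    refine (Finset.sum_le_sum fun i _ => hc i).trans (le_of_eq ?_)
    rw [Finset.sum_const, Finset.card_range, nsmul_eq_mul, mul_comm]
  have h7 : ∑ V ∈ B.powersetCard (k + j + 1), ∏ p ∈ V, w p ≤
      c ^ (k + j + 1) / (k + j + 1).factorial := by
    refine (k8_esymm B w hw (k + j + 1)).trans ?_
    apply div_le_div_of_nonneg_right _ (Nat.cast_nonneg _)
    exact pow_le_pow_left₀ (Finset.sum_nonneg fun p _ => hw p) (hc j) _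
  exact mul_le_mul h4 h7 (Finset.sum_nonneg fun V _ => Finset.prod_nonneg fun p _ => hw p)
    (Real.exp_nonneg _)



end Pool.Agent.TR

namespace Pool.Agent.TR

theorem re_abs : type_of% @re_abs_pr := @re_abs_pr

end Pool.Agent.TR
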