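import Pool.Agent.Lib_helper97.TRL.K2
import Pool.Agent.Lib_helper97.TRL.K3
import Pool.Agent.Lib_helper97.TRL.K7
import Pool.Agent.Lib_helper97.TRL.K8
import Pool.Agent.Lib_helper10.T2F.BAS
import Pool.Agent.Lib_helper97.TRL.D42
import Pool.Agent.Lib_helper97.TRL.D50

set_option autoImplicit false

namespace Pool.Agent.TR

open Pool.Agent.T2 Pool.Agent.TF

/-- the sum over the levels of a series -/
theorem k9_series {c : ℝ} (hc : 0 ≤ c) (J k : ℕ) :
    ∑ j ∈ Finset.range J, Real.exp (c * j) * (c ^ (k + j + 1) / (k + j + 1).factorial) ≤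
      c ^ (k + 1) / k.factorial * Real.exp (c * Real.exp c) := by
  have h1 : ∀ j ∈ Finset.range J,
      Real.exp (c * j) * (c ^ (k + j + 1) / (k + j + 1).factorial) ≤
        c ^ (k + 1) / k.factorial * ((c * Real.exp c) ^ j / j.factorial) := by
    intro j _
    have hf : ((k.factorial : ℝ) * j.factorial) ≤ (k + j + 1).factorial := by
      have h2 : k.factorial * j.factorial ≤ (k + j).factorial :=
        Nat.le_of_dvd (Nat.factorial_pos _) (Nat.factorial_mul_factorial_dvd_factorial_add k j)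
      have h3 : (k + j).factorial ≤ (k + j + 1).factorial := Nat.factorial_le (by omega)
      exact_mod_cast h2.trans h3
    have hk : (0 : ℝ) < k.factorial := by exact_mod_cast Nat.factorial_pos k
    have hj : (0 : ℝ) < j.factorial := by exact_mod_cast Nat.factorial_pos j
    have e : Real.exp (c * j) * (c ^ (k + j + 1) / (k + j + 1).factorial) =
        (c ^ (k + 1) * (c * Real.exp c) ^ j) / (k + j + 1).factorial := by
      rw [mul_pow, ← Real.exp_nat_mul, mul_comm (j : ℝ) c, show k + j + 1 = k + 1 + j by ring,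
        pow_add]
      ring
    rw [e, div_mul_div_comm]
    apply div_le_div_of_nonneg_left _ (mul_pos hk hj) hf
    exact mul_nonneg (pow_nonneg hc _) (pow_nonneg (mul_nonneg hc (Real.exp_pos c).le) _)
  refine (Finset.sum_le_sum h1).trans ?_
  rw [← Finset.mul_sum]
  apply mul_le_mul_of_nonneg_left _ (div_nonneg (pow_nonneg hc _) (Nat.cast_nonneg _))
  exact Real.sum_le_exp_of_nonneg (mul_nonneg hc (Real.exp_pos c).le) J

/-- K9: the remainder terms, and the main term -/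
theorem ad_main_pr : ∃ C : ℝ, 1 ≤ C ∧ ∀ (R : ℝ) (J k : ℕ) (S : Finset ℕ), 1 ≤ R →
    (∀ p ∈ S, p.Prime ∧ p % 4 = 1 ∧ (p : ℝ) ≤ R) → (∀ p ∈ S, lvl R p < J) →
    (∑ j ∈ Finset.range J, ∑ T ∈ ReS (lvl R) k j S, ∏ p ∈ T, (4 / (p : ℝ)) ≤
      C ^ (k + 1) / k.factorial) ∧
    |∑ T ∈ AdS (lvl R) J k S, ∏ p ∈ T, (-(4 / (p : ℝ)))| ≤
      Real.exp (-(4 * ∑ p ∈ S, 1 / (p : ℝ))) + C ^ (k + 1) / k.factorial := by
  obtain ⟨C₀, hC₀, hsum⟩ := sum_inv_sq
  set c : ℝ := 4 * C₀ with hc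
  have hc1 : 1 ≤ c := by rw [hc]; linarith
  have hc0 : 0 ≤ c := by linarith
  set E : ℝ := Real.exp (c * Real.exp c) with hE
  have hE1 : 1 ≤ E := Real.one_le_exp (mul_nonneg hc0 (Real.exp_pos c).le)
  refine ⟨c * E, ?_, ?_⟩
  · calc (1 : ℝ) = 1 * 1 := by ring
      _ ≤ c * E := mul_le_mul hc1 hE1 zero_le_one hc0
  intro R J k S hR hS hJ
  have hlev : ∀ i, ∑ p ∈ S.filter (fun p => lvl R p = i), (4 / (p : ℝ)) ≤ c := by
    intro i
    set y : ℝ := R ^ ((1 : ℝ) / 2 ^ (i + 1)) with hy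
    have hy1 : 1 ≤ y := Real.one_le_rpow hR (by positivity)
    have hyy : y ^ 2 = R ^ ((1 : ℝ) / 2 ^ i) := by
      rw [hy, ← Real.rpow_natCast, ← Real.rpow_mul (by linarith)]
      congr 1
      rw [pow_succ]
      field_simp
      norm_num
    have hsub : S.filter (fun p => lvl R p = i) ⊆ pr1 y (y ^ 2) := by
      intro p hp
      obtain ⟨hpS, hpi⟩ := Finset.mem_filter.1 hp
      obtain ⟨hpp, hp4, hpR⟩ := hS p hpS
      obtain ⟨h1, h2⟩ := lvl_spec hpp.two_le hpR
      rw [hpi] at h1 h2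
      rw [hyy]
      unfold pr1
      rw [Finset.mem_filter, Finset.mem_range]
      refine ⟨Nat.lt_succ_of_le (Nat.le_floor h2), hpp, hp4, h1, h2⟩
    calc ∑ p ∈ S.filter (fun p => lvl R p = i), (4 / (p : ℝ))
        = 4 * ∑ p ∈ S.filter (fun p => lvl R p = i), 1 / (p : ℝ) := by
          rw [Finset.mul_sum]
          refine Finset.sum_congr rfl fun p _ => ?_
          ring
      _ ≤ 4 * ∑ p ∈ pr1 y (y ^ 2), 1 / (p : ℝ) := by
          apply mul_le_mul_of_nonneg_left _ (by norm_num)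
          exact Finset.sum_le_sum_of_subset_of_nonneg hsub fun p _ _ => by positivity
      _ ≤ c := by
          rw [hc]
          exact mul_le_mul_of_nonneg_left (hsum y hy1) (by norm_num)
  have hrem : ∑ j ∈ Finset.range J, ∑ T ∈ ReS (lvl R) k j S, ∏ p ∈ T, (4 / (p : ℝ)) ≤
      (c * E) ^ (k + 1) / k.factorial := by
    calc ∑ j ∈ Finset.range J, ∑ T ∈ ReS (lvl R) k j S, ∏ p ∈ T, (4 / (p : ℝ))
        ≤ ∑ j ∈ Finset.range J, Real.exp (c * j) *
            (c ^ (k + j + 1) / (k + j + 1).factorial) :=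
          Finset.sum_le_sum fun j _ =>
            re_abs (lvl R) k j S (fun p => 4 / (p : ℝ)) (fun p => by positivity) c hlev
      _ ≤ c ^ (k + 1) / k.factorial * E := k9_series hc0 J k
      _ ≤ (c * E) ^ (k + 1) / k.factorial := by
          rw [mul_pow c E, div_mul_eq_mul_div]
          apply div_le_div_of_nonneg_right _ (Nat.cast_nonneg _)
          apply mul_le_mul_of_nonneg_left _ (pow_nonneg hc0 _)
          exact le_self_pow₀ hE1 (by omega)
  refine ⟨hrem, ?_⟩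
  have hx : ∀ p ∈ S, 0 ≤ (4 / (p : ℝ)) ∧ (4 / (p : ℝ)) ≤ 1 := by
    intro p hp
    obtain ⟨hpp, hp4, hpR⟩ := hS p hp
    have h5 : 5 ≤ p := by
      have h2 := hpp.two_le
      omega
    have h5' : (5 : ℝ) ≤ p := by exact_mod_cast h5
    refine ⟨by positivity, ?_⟩
    rw [div_le_one (by linarith)]
    linarith
  have hb := bonf_levels (lvl R) J k S hJ (fun p => 4 / (p : ℝ))
    (fun p hp => ⟨(hx p hp).1, (hx p hp).2.trans (by norm_num)⟩)
  have hmain : |∏ p ∈ S, (1 - 4 / (p : ℝ))| ≤ Real.exp (-(4 * ∑ p ∈ S, 1 / (p : ℝ))) := by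
    have h0 : ∀ p ∈ S, 0 ≤ 1 - 4 / (p : ℝ) := fun p hp => by
      have := (hx p hp).2
      linarith
    rw [abs_of_nonneg (Finset.prod_nonneg h0)]
    have e : Real.exp (-(4 * ∑ p ∈ S, 1 / (p : ℝ))) = ∏ p ∈ S, Real.exp (-(4 / (p : ℝ))) := by
      rw [← Real.exp_sum]
      congr 1
      rw [Finset.mul_sum, ← Finset.sum_neg_distrib]
      refine Finset.sum_congr rfl fun p _ => ?_
      ring
    rw [e]
    apply Finset.prod_le_prod h0
    intro p _
    have := Real.add_one_le_exp (-(4 / (p : ℝ)))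
    linarith
  have h3 := abs_sub_abs_le_abs_sub (∑ T ∈ AdS (lvl R) J k S, ∏ p ∈ T, (-(4 / (p : ℝ))))
    (∏ p ∈ S, (1 - 4 / (p : ℝ)))
  rw [abs_sub_comm] at h3
  linarith [hb.trans hrem]



end Pool.Agent.TR

namespace Pool.Agent.TR

theorem ad_main : type_of% @ad_main_pr := @ad_main_pr

end Pool.Agent.TR
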