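import Pool.Agent.Lib_helper97.TRL.K13
import Pool.Agent.Lib_helper97.TRL.K3
import Pool.Agent.Lib_helper97.TRL.K5
import Pool.Agent.Lib_helper97.TRL.K6
import Pool.Agent.Lib_helper97.TRL.K9
import Pool.Agent.Lib_helper10.T2F.BAS
import Pool.Agent.Lib_helper97.TRL.D42
import Pool.Agent.Lib_helper97.TRL.D50

set_option autoImplicit false

namespace Pool.Agent.TR

open Pool.Agent.T2 Pool.Agent.TF

theorem k16_mem_Pb {G b p : ℕ} {R : ℝ} (h : p ∈ Pb G R b) :
    p.Prime ∧ p % 4 = 1 ∧ G < p ∧ ¬ p ∣ b ∧ (p : ℝ) ≤ R := by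
  classical
  unfold Pb at h
  rw [Finset.mem_filter, Finset.mem_Icc] at h
  obtain ⟨⟨h1, h2⟩, h3, h4, h5, h6⟩ := h
  refine ⟨h3, h4, h5, h6, ?_⟩
  have hR : 0 ≤ R := by
    by_contra hR
    push Not at hR
    have : ⌊R⌋₊ = 0 := Nat.floor_of_nonpos hR.le
    omega
  exact (Nat.le_floor_iff hR).1 h2

theorem core_rare_pr : ∃ C : ℝ, 1 ≤ C ∧ ∀ (G k b r X : ℕ) (R H E : ℝ) (g : ℕ → ℝ), 16 ≤ G →
    (G : ℝ) ≤ R → Squarefree r → (∀ p ∈ r.primeFactors, p % 4 = 1 ∧ R < (p : ℝ) ∧ ¬ p ∣ b) →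
    WFn g X H E →
    ∑ n ∈ (Finset.Icc 1 X).filter (fun n => r ∣ n ^ 2 + b ^ 2 ∧
        R ^ (2 * k + 2) < ∏ p ∈ Sn G R b n, (p : ℝ)), g n ≤
      2 ^ r.primeFactors.card * (H / r * (C ^ (k + 1) / k.factorial) +
        E * R ^ (3 * k + 3)) := by
  classical
  obtain ⟨C, hC, hmain⟩ := ad_main
  refine ⟨C, hC, ?_⟩
  intro G k b r X R H E g hG hGR hr hr' hg
  have hG' : (16 : ℝ) ≤ G := by exact_mod_cast hG
  have hR : (1 : ℝ) ≤ R := by linarith
  set J := lvl R 2 + 1 with hJ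
  set S := Pb G R b with hS
  have hlv : ∀ p ∈ S, lvl R p < J := fun p hp =>
    lvl_lt (k16_mem_Pb hp).1.two_le (k16_mem_Pb hp).2.2.2.2
  have hE : 0 ≤ E := by have := hg.E_one; linarith
  have hH := hg.H_nonneg
  -- pointwise
  have hpt : ∀ n ∈ (Finset.Icc 1 X).filter (fun n => r ∣ n ^ 2 + b ^ 2 ∧
        R ^ (2 * k + 2) < ∏ p ∈ Sn G R b n, (p : ℝ)),
      g n ≤ ∑ j ∈ Finset.range J, ∑ T ∈ ReS (lvl R) k j S,
        if T ⊆ Sn G R b n then g n else 0 := by
    intro n hn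
    rw [Finset.mem_filter] at hn
    obtain ⟨_, _, h2⟩ := hn
    have hsub : Sn G R b n ⊆ S := by
      rw [hS]; unfold Sn; exact Finset.filter_subset _ _
    obtain ⟨j, hj, T, hT⟩ := re_exists (R := R) hR (J := J) (k := k) (S := Sn G R b n)
      (fun p hp => ⟨(k16_mem_Pb (hsub hp)).1.two_le, (k16_mem_Pb (hsub hp)).2.2.2.2⟩)
      (fun p hp => hlv p (hsub hp)) h2
    have hT2 : T ⊆ Sn G R b n := by
      unfold ReS at hT
      rw [Finset.mem_filter, Finset.mem_powerset] at hT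
      exact hT.1
    have hT3 : T ∈ ReS (lvl R) k j S := by
      unfold ReS at hT ⊢
      rw [Finset.mem_filter, Finset.mem_powerset] at hT ⊢
      exact ⟨hT.1.trans hsub, hT.2⟩
    have hnn : ∀ T' : Finset ℕ, 0 ≤ (if T' ⊆ Sn G R b n then g n else 0) := by
      intro T'
      split_ifs
      · exact hg.nonneg n
      · exact le_rfl
    calc g n = if T ⊆ Sn G R b n then g n else 0 := by rw [if_pos hT2]
      _ ≤ ∑ T ∈ ReS (lvl R) k j S, if T ⊆ Sn G R b n then g n else 0 :=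
          Finset.single_le_sum (f := fun T' => if T' ⊆ Sn G R b n then g n else 0)
            (fun T' _ => hnn T') hT3
      _ ≤ _ := Finset.single_le_sum
            (f := fun j => ∑ T ∈ ReS (lvl R) k j S, if T ⊆ Sn G R b n then g n else 0)
            (fun j' _ => Finset.sum_nonneg fun T' _ => hnn T') (Finset.mem_range.2 hj)
  have hnn0 : ∀ n, 0 ≤ ∑ j ∈ Finset.range J, ∑ T ∈ ReS (lvl R) k j S,
        if T ⊆ Sn G R b n then g n else 0 := by
    intro n
    refine Finset.sum_nonneg fun j _ => Finset.sum_nonneg fun T' _ => ?_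
    split_ifs
    · exact hg.nonneg n
    · exact le_rfl
  -- one set
  have hone : ∀ j, ∀ T ∈ ReS (lvl R) k j S,
      ∑ n ∈ (Finset.Icc 1 X).filter (fun n => r ∣ n ^ 2 + b ^ 2),
        (if T ⊆ Sn G R b n then g n else 0) ≤
      2 ^ r.primeFactors.card * (H / r * ∏ p ∈ T, (4 / (p : ℝ)) + E * 4 ^ T.card) := by
    intro j T hT
    have hTS : T ⊆ Pb G R b := by
      unfold ReS at hT
      rw [Finset.mem_filter, Finset.mem_powerset] at hT
      exact hT.1
    have h1 := root_T hg (G := G) (b := b) (N := 1) (r := r) (R := R) le_rfl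
      (fun p hp hp1 => by
        have := Nat.dvd_one.1 hp1
        exact absurd hp (by rw [this]; exact Nat.not_prime_one)) hGR hr hr' hTS 0
    have h2 := (abs_le.1 h1).2
    have e1 : ∑ n ∈ (Finset.Icc 1 X).filter (fun n => r ∣ n ^ 2 + b ^ 2),
        (if T ⊆ Sn G R b n then g n else 0) =
        ∑ n ∈ (Finset.Icc 1 X).filter (fun n => (n % 1 = 0 % 1 ∧ r ∣ n ^ 2 + b ^ 2) ∧
          T ⊆ Sn G R b n), g n := by
      rw [← Finset.sum_filter, Finset.filter_filter]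
      apply Finset.sum_congr _ fun _ _ => rfl
      apply Finset.filter_congr
      intro n _
      simp [Nat.mod_one]
    rw [e1]
    have hr0 : (0 : ℝ) < r := by exact_mod_cast Nat.pos_of_ne_zero hr.ne_zero
    have hprod : ∏ p ∈ T, (4 / (p : ℝ)) = 4 ^ T.card / ∏ p ∈ T, (p : ℝ) := by
      rw [Finset.prod_div_distrib, Finset.prod_const]
    have hpp : (0 : ℝ) < ∏ p ∈ T, (p : ℝ) := by
      apply Finset.prod_pos
      intro p hp
      exact_mod_cast (k16_mem_Pb (hTS hp)).1.pos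
    have h24 : (2 : ℝ) ^ T.card ≤ 4 ^ T.card := pow_le_pow_left₀ (by norm_num) (by norm_num) _
    have h3 : 2 ^ (r.primeFactors.card + T.card) * H / ((r : ℝ) * (1 : ℕ) * ∏ p ∈ T, (p : ℝ)) ≤
        2 ^ r.primeFactors.card * (H / r * ∏ p ∈ T, (4 / (p : ℝ))) := by
      rw [hprod, pow_add, Nat.cast_one, mul_one]
      have e2 : 2 ^ r.primeFactors.card * 2 ^ T.card * H / ((r : ℝ) * ∏ p ∈ T, (p : ℝ)) =
          2 ^ r.primeFactors.card * (H / r * (2 ^ T.card / ∏ p ∈ T, (p : ℝ))) := by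
        field_simp
      rw [e2]
      gcongr
    have h4 : 2 ^ (r.primeFactors.card + T.card) * E ≤
        2 ^ r.primeFactors.card * (E * 4 ^ T.card) := by
      rw [pow_add]
      have : 2 ^ r.primeFactors.card * 2 ^ T.card * E =
        2 ^ r.primeFactors.card * (E * 2 ^ T.card) := by ring
      rw [this]
      gcongr
    linarith
  calc ∑ n ∈ (Finset.Icc 1 X).filter (fun n => r ∣ n ^ 2 + b ^ 2 ∧
        R ^ (2 * k + 2) < ∏ p ∈ Sn G R b n, (p : ℝ)), g n
      ≤ ∑ n ∈ (Finset.Icc 1 X).filter (fun n => r ∣ n ^ 2 + b ^ 2 ∧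
        R ^ (2 * k + 2) < ∏ p ∈ Sn G R b n, (p : ℝ)),
          ∑ j ∈ Finset.range J, ∑ T ∈ ReS (lvl R) k j S,
            if T ⊆ Sn G R b n then g n else 0 := Finset.sum_le_sum hpt
    _ ≤ ∑ n ∈ (Finset.Icc 1 X).filter (fun n => r ∣ n ^ 2 + b ^ 2),
          ∑ j ∈ Finset.range J, ∑ T ∈ ReS (lvl R) k j S,
            if T ⊆ Sn G R b n then g n else 0 := by
        apply Finset.sum_le_sum_of_subset_of_nonneg
        · intro n hn
          rw [Finset.mem_filter] at hn ⊢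
          exact ⟨hn.1, hn.2.1⟩
        · intro n _ _
          exact hnn0 n
    _ = ∑ j ∈ Finset.range J, ∑ T ∈ ReS (lvl R) k j S,
          ∑ n ∈ (Finset.Icc 1 X).filter (fun n => r ∣ n ^ 2 + b ^ 2),
            if T ⊆ Sn G R b n then g n else 0 := by
        rw [Finset.sum_comm]
        apply Finset.sum_congr rfl
        intro j _
        rw [Finset.sum_comm]
    _ ≤ ∑ j ∈ Finset.range J, ∑ T ∈ ReS (lvl R) k j S,
          2 ^ r.primeFactors.card * (H / r * ∏ p ∈ T, (4 / (p : ℝ)) + E * 4 ^ T.card) :=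
        Finset.sum_le_sum fun j _ => Finset.sum_le_sum fun T hT => hone j T hT
    _ = 2 ^ r.primeFactors.card * (H / r *
          (∑ j ∈ Finset.range J, ∑ T ∈ ReS (lvl R) k j S, ∏ p ∈ T, (4 / (p : ℝ))) +
          E * ∑ j ∈ Finset.range J, ∑ T ∈ ReS (lvl R) k j S, (4 : ℝ) ^ T.card) := by
        simp only [Finset.mul_sum, ← Finset.sum_add_distrib]
    _ ≤ _ := by
        have h1 := (hmain R J k S hR (fun p hp =>
          ⟨(k16_mem_Pb hp).1, (k16_mem_Pb hp).2.1, (k16_mem_Pb hp).2.2.2.2⟩) hlv).1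
        have h2 := fam_sum (R := R) hR (J := J) (k := k) (S := S) (fun p hp =>
          ⟨(k16_mem_Pb hp).1, by have := (k16_mem_Pb hp).2.2.1; omega,
            (k16_mem_Pb hp).2.2.2.2⟩) hlv
        have h3 : 0 ≤ ∑ T ∈ AdS (lvl R) J k S, (4 : ℝ) ^ T.card :=
          Finset.sum_nonneg fun _ _ => by positivity
        have hr0 : (0 : ℝ) < r := by exact_mod_cast Nat.pos_of_ne_zero hr.ne_zero
        have h4 : ∑ j ∈ Finset.range J, ∑ T ∈ ReS (lvl R) k j S, (4 : ℝ) ^ T.card ≤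
          R ^ (3 * k + 3) := by linarith
        gcongr



end Pool.Agent.TR

namespace Pool.Agent.TR

theorem core_rare : type_of% @core_rare_pr := @core_rare_pr

end Pool.Agent.TR
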