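import Pool.Agent.Lib_helper10.T2F.BAS
import Pool.Agent.Lib_helper97.TRL.D42
import Pool.Agent.Lib_helper97.TRL.D50

set_option autoImplicit false

namespace Pool.Agent.TR

open Pool.Agent.T2 Pool.Agent.TF

theorem k17_class (N X v : ℕ) (hN : 0 < N) :
    (((Finset.Icc 1 X).filter (fun n => n ≡ v [MOD N])).card : ℝ) ≤ X / (N : ℝ) + 1 := by
  have h := Nat.Ioc_filter_modEq_card 0 X hN v
  have e : Finset.Ioc 0 X = Finset.Icc 1 X := by
    ext n
    simp only [Finset.mem_Ioc, Finset.mem_Icc]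
    omega
  rw [e] at h
  have hN' : (0 : ℚ) < N := by exact_mod_cast hN
  have h2 : (((Finset.Icc 1 X).filter (fun n => n ≡ v [MOD N])).card : ℚ) ≤ X / (N : ℚ) + 1 := by
    have h3 : (((Finset.Icc 1 X).filter (fun n => n ≡ v [MOD N])).card : ℚ) =
        ((max (⌊((X : ℚ) - v) / N⌋ - ⌊(((0 : ℕ) : ℚ) - v) / N⌋) 0 : ℤ) : ℚ) := by
      exact_mod_cast congrArg (Int.cast : ℤ → ℚ) h
    rw [h3]
    push_cast
    refine max_le ?_ (by positivity)
    have h4 := Int.floor_le (((X : ℚ) - v) / N)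
    have h5 := Int.lt_floor_add_one ((((0 : ℕ) : ℚ) - v) / N)
    have h6 : ((X : ℚ) - v) / N - (((0 : ℕ) : ℚ) - v) / N = X / N := by
      push_cast
      ring
    push_cast at h5 h6
    linarith
  have h3 := (Rat.cast_le (K := ℝ)).mpr h2
  push_cast at h3
  exact h3

/-- K17 -/
theorem k_root_count_pr {p b : ℕ} (hp : p.Prime) (hp2 : p ≠ 2) (hpb : ¬ p ∣ b) (j X : ℕ) :
    (((Finset.Icc 1 X).filter (fun n => p ^ j ∣ n ^ 2 + b ^ 2)).card : ℝ) ≤
      2 * (X / (p : ℝ) ^ j + 1) := by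
  classical
  have hN : 0 < p ^ j := pow_pos hp.pos j
  rcases Finset.eq_empty_or_nonempty ((Finset.Icc 1 X).filter (fun n => p ^ j ∣ n ^ 2 + b ^ 2))
    with h0 | ⟨n0, hn0⟩
  · rw [h0, Finset.card_empty, Nat.cast_zero]
    positivity
  rw [Finset.mem_filter] at hn0
  have hn0' := hn0.2
  set v : ℕ := p ^ j - n0 % p ^ j with hv
  have hsub : (Finset.Icc 1 X).filter (fun n => p ^ j ∣ n ^ 2 + b ^ 2) ⊆
      (Finset.Icc 1 X).filter (fun n => n ≡ n0 [MOD p ^ j]) ∪
        (Finset.Icc 1 X).filter (fun n => n ≡ v [MOD p ^ j]) := by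
    intro n hn
    rw [Finset.mem_filter] at hn
    rw [Finset.mem_union, Finset.mem_filter, Finset.mem_filter]
    have h1 : ((p ^ j : ℕ) : ℤ) ∣ ((n : ℤ) - n0) * ((n : ℤ) + n0) := by
      have ha : ((p ^ j : ℕ) : ℤ) ∣ ((n ^ 2 + b ^ 2 : ℕ) : ℤ) := by exact_mod_cast hn.2
      have hb : ((p ^ j : ℕ) : ℤ) ∣ ((n0 ^ 2 + b ^ 2 : ℕ) : ℤ) := by exact_mod_cast hn0'
      have hc := dvd_sub ha hb
      have : ((n ^ 2 + b ^ 2 : ℕ) : ℤ) - ((n0 ^ 2 + b ^ 2 : ℕ) : ℤ) =
          ((n : ℤ) - n0) * ((n : ℤ) + n0) := by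
        push_cast; ring
      rwa [this] at hc
    have hplus : ((p ^ j : ℕ) : ℤ) ∣ (n : ℤ) + n0 → n ≡ v [MOD p ^ j] := by
      intro h
      have h2 : p ^ j ∣ n + n0 := by exact_mod_cast h
      have h3 : n + n0 % p ^ j ≡ 0 [MOD p ^ j] := by
        have : n + n0 % p ^ j ≡ n + n0 [MOD p ^ j] := Nat.ModEq.add_left n (Nat.mod_modEq n0 _)
        exact this.trans ((Nat.modEq_zero_iff_dvd).mpr h2)
      have h4 : v + n0 % p ^ j ≡ 0 [MOD p ^ j] := by
        have : v + n0 % p ^ j = p ^ j := by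
          have := Nat.mod_lt n0 hN
          omega
        rw [this]
        exact (Nat.modEq_zero_iff_dvd).mpr dvd_rfl
      exact Nat.ModEq.add_right_cancel' (n0 % p ^ j) (h3.trans h4.symm)
    have hminus : ((p ^ j : ℕ) : ℤ) ∣ (n : ℤ) - n0 → n ≡ n0 [MOD p ^ j] := by
      intro h
      exact ((Nat.modEq_iff_dvd).mpr (by exact_mod_cast h : ((p ^ j : ℕ) : ℤ) ∣ (n : ℤ) - n0)).symm
    by_cases hd : (p : ℤ) ∣ (n : ℤ) + n0
    · -- then `p` does not divide `n - n0`, unless `j = 0`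
      rcases Nat.eq_zero_or_pos j with hj | hj
      · left
        refine ⟨hn.1, ?_⟩
        subst hj
        simp [Nat.modEq_one]
      · have hnd : ¬ (p : ℤ) ∣ (n : ℤ) - n0 := by
          intro hd'
          have h2n : (p : ℤ) ∣ 2 * (n : ℤ) := by
            have := dvd_add hd hd'
            have e : (n : ℤ) + n0 + ((n : ℤ) - n0) = 2 * (n : ℤ) := by ring
            rwa [e] at this
          have h2n' : p ∣ 2 * n := by exact_mod_cast h2n
          have hpn : p ∣ n := by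
            rcases hp.dvd_mul.mp h2n' with h | h
            · exact absurd ((Nat.prime_dvd_prime_iff_eq hp Nat.prime_two).mp h) hp2
            · exact h
          have hpm : p ∣ n ^ 2 + b ^ 2 := (dvd_pow_self p (by omega)).trans hn.2
          have hpb2 : p ∣ b ^ 2 :=
            (Nat.dvd_add_right (hpn.trans (dvd_pow_self n two_ne_zero))).mp hpm
          exact hpb (hp.dvd_of_dvd_pow hpb2)
        right
        refine ⟨hn.1, hplus ?_⟩
        have hcop : IsCoprime ((p ^ j : ℕ) : ℤ) ((n : ℤ) - n0) := by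
          push_cast
          apply IsCoprime.pow_left
          exact (Prime.coprime_iff_not_dvd (Nat.prime_iff_prime_int.mp hp)).mpr hnd
        exact hcop.dvd_of_dvd_mul_left h1
    · left
      refine ⟨hn.1, hminus ?_⟩
      have hcop : IsCoprime ((p ^ j : ℕ) : ℤ) ((n : ℤ) + n0) := by
        push_cast
        apply IsCoprime.pow_left
        exact (Prime.coprime_iff_not_dvd (Nat.prime_iff_prime_int.mp hp)).mpr hd
      exact hcop.dvd_of_dvd_mul_right h1
  have h1 := Finset.card_le_card hsub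
  have h2 := Finset.card_union_le ((Finset.Icc 1 X).filter (fun n => n ≡ n0 [MOD p ^ j]))
    ((Finset.Icc 1 X).filter (fun n => n ≡ v [MOD p ^ j]))
  have h3 := k17_class (p ^ j) X n0 hN
  have h4 := k17_class (p ^ j) X v hN
  have h5 : (((Finset.Icc 1 X).filter (fun n => p ^ j ∣ n ^ 2 + b ^ 2)).card : ℝ) ≤
      (((Finset.Icc 1 X).filter (fun n => n ≡ n0 [MOD p ^ j])).card : ℝ) +
        (((Finset.Icc 1 X).filter (fun n => n ≡ v [MOD p ^ j])).card : ℝ) := by
    exact_mod_cast h1.trans h2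
  push_cast at h3 h4
  linarith



end Pool.Agent.TR

namespace Pool.Agent.TR

theorem k_root_count : type_of% @k_root_count_pr := @k_root_count_pr

end Pool.Agent.TR
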