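import Pool.Agent.Lib_helper97.TRL.K0
import Pool.Agent.Lib_helper97.TRL.K17
import Pool.Agent.Lib_helper10.T2F.BAS
import Pool.Agent.Lib_helper97.TRL.D42
import Pool.Agent.Lib_helper97.TRL.D50

set_option autoImplicit false

namespace Pool.Agent.TR

open Pool.Agent.T2 Pool.Agent.TF

lemma k18_four {n b j : ℕ} (hj : 2 ≤ j) (hc : Nat.Coprime n b) : ¬ 2 ^ j ∣ n ^ 2 + b ^ 2 := by
  intro h
  have h4 : 4 ∣ n ^ 2 + b ^ 2 := by
    have : (2 : ℕ) ^ 2 ∣ 2 ^ j := pow_dvd_pow 2 hj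
    exact (by norm_num : (4 : ℕ) = 2 ^ 2) ▸ this.trans h
  have hn : n % 4 = 0 ∨ n % 4 = 1 ∨ n % 4 = 2 ∨ n % 4 = 3 := by omega
  have hb : b % 4 = 0 ∨ b % 4 = 1 ∨ b % 4 = 2 ∨ b % 4 = 3 := by omega
  have hmod : (n ^ 2 + b ^ 2) % 4 = 0 := Nat.mod_eq_zero_of_dvd h4
  rw [Nat.add_mod, Nat.pow_mod n, Nat.pow_mod b] at hmod
  have h2 : 2 ∣ n ∧ 2 ∣ b := by
    rcases hn with h | h | h | h <;> rcases hb with h' | h' | h' | h' <;> rw [h, h'] at hmod <;>
      norm_num at hmod <;> omega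
  have := Nat.dvd_gcd h2.1 h2.2
  rw [hc] at this
  omega

lemma k18_ndvd {n b j p : ℕ} (hp : p.Prime) (hj : 1 ≤ j) (hc : Nat.Coprime n b) (hb : p ∣ b) :
    ¬ p ^ j ∣ n ^ 2 + b ^ 2 := by
  intro h
  have h1 : p ∣ n ^ 2 + b ^ 2 := (dvd_pow_self p (by omega)).trans h
  have h2 : p ∣ b ^ 2 := dvd_pow hb (by norm_num)
  have h3 : p ∣ n := hp.dvd_of_dvd_pow ((Nat.dvd_add_left h2).1 h1)
  have := Nat.dvd_gcd h3 hb
  rw [hc] at this
  exact hp.one_lt.ne' (Nat.dvd_one.1 this)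

/-- number of the `n` with `p^j` a divisor of `n² + b²`, all primes -/
lemma k18_one {p j b X : ℕ} (hp : p.Prime) (hj : 2 ≤ j) :
    (((Finset.Icc 1 X).filter (fun n => Nat.Coprime n b ∧ p ^ j ∣ n ^ 2 + b ^ 2)).card : ℝ) ≤
      2 * (X / (max p 3 : ℝ) ^ j + 1) := by
  by_cases h : p = 2 ∨ p ∣ b
  · have : (Finset.Icc 1 X).filter (fun n => Nat.Coprime n b ∧ p ^ j ∣ n ^ 2 + b ^ 2) = ∅ := by
      rw [Finset.filter_eq_empty_iff]
      rintro n - ⟨hc, hd⟩
      rcases h with h | h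
      · subst h
        exact k18_four hj hc hd
      · exact k18_ndvd hp (by omega) hc h hd
    rw [this]
    simp only [Finset.card_empty, Nat.cast_zero]
    positivity
  · push Not at h
    have hp3 : 3 ≤ p := by
      have := hp.two_le
      omega
    have e : (max (p : ℝ) 3) = p := max_eq_left (by exact_mod_cast hp3)
    rw [e]
    refine le_trans ?_ (k_root_count hp h.1 h.2 j X)
    exact_mod_cast Finset.card_le_card (fun n hn => by
      rw [Finset.mem_filter] at hn ⊢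
      exact ⟨hn.1, hn.2.2⟩)

open Classical in
lemma k18_cover (G J b X M : ℕ) (hM : X ^ 2 + b ^ 2 < (M + 1) ^ 2) :
    (nbad G J b X : ℝ) ≤
      (∑ p ∈ (Finset.Icc 1 G).filter Nat.Prime,
        (((Finset.Icc 1 X).filter (fun n => Nat.Coprime n b ∧ p ^ J ∣ n ^ 2 + b ^ 2)).card : ℝ)) +
      (∑ p ∈ (Finset.Ioc G M).filter Nat.Prime,
        (((Finset.Icc 1 X).filter (fun n => Nat.Coprime n b ∧ p ^ 2 ∣ n ^ 2 + b ^ 2)).card : ℝ)) +
      ∑ p ∈ (Finset.Ioc G X).filter Nat.Prime,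
        (((Finset.Icc 1 X).filter (fun n => p ∣ n ∧ p ∣ b)).card : ℝ) := by
  have hsub : (Finset.Icc 1 X).filter (fun n => IsBad G J b n) ⊆
      ((((Finset.Icc 1 G).filter Nat.Prime).biUnion (fun p =>
        (Finset.Icc 1 X).filter (fun n => Nat.Coprime n b ∧ p ^ J ∣ n ^ 2 + b ^ 2))) ∪
      (((Finset.Ioc G M).filter Nat.Prime).biUnion (fun p =>
        (Finset.Icc 1 X).filter (fun n => Nat.Coprime n b ∧ p ^ 2 ∣ n ^ 2 + b ^ 2)))) ∪
      (((Finset.Ioc G X).filter Nat.Prime).biUnion (fun p =>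
        (Finset.Icc 1 X).filter (fun n => p ∣ n ∧ p ∣ b))) := by
    intro n hn
    rw [Finset.mem_filter] at hn
    obtain ⟨hnX, hbad⟩ := hn
    have hn1 : 1 ≤ n := (Finset.mem_Icc.1 hnX).1
    have hn2 : n ≤ X := (Finset.mem_Icc.1 hnX).2
    simp only [Finset.mem_union, Finset.mem_biUnion, Finset.mem_filter]
    rcases hbad with ⟨hc, ⟨p, hp, hpG, hd⟩ | ⟨p, hp, hpG, hd⟩⟩ | ⟨p, hp, hpG, hd, hd'⟩
    · exact Or.inl (Or.inl ⟨p, ⟨Finset.mem_Icc.2 ⟨hp.one_le, hpG⟩, hp⟩, hnX, hc, hd⟩)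
    · refine Or.inl (Or.inr ⟨p, ⟨Finset.mem_Ioc.2 ⟨hpG, ?_⟩, hp⟩, hnX, hc, hd⟩)
      have h1 : p ^ 2 ≤ n ^ 2 + b ^ 2 := Nat.le_of_dvd (by positivity) hd
      have h2 : n ^ 2 ≤ X ^ 2 := Nat.pow_le_pow_left hn2 2
      have h3 : p ^ 2 < (M + 1) ^ 2 := by omega
      have := lt_of_pow_lt_pow_left₀ 2 (by positivity) h3
      omega
    · exact Or.inr ⟨p, ⟨Finset.mem_Ioc.2 ⟨hpG, (Nat.le_of_dvd hn1 hd).trans hn2⟩, hp⟩, hnX, hd, hd'⟩
  have h : nbad G J b X ≤
      (∑ p ∈ (Finset.Icc 1 G).filter Nat.Prime,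
        ((Finset.Icc 1 X).filter (fun n => Nat.Coprime n b ∧ p ^ J ∣ n ^ 2 + b ^ 2)).card) +
      (∑ p ∈ (Finset.Ioc G M).filter Nat.Prime,
        ((Finset.Icc 1 X).filter (fun n => Nat.Coprime n b ∧ p ^ 2 ∣ n ^ 2 + b ^ 2)).card) +
      ∑ p ∈ (Finset.Ioc G X).filter Nat.Prime,
        ((Finset.Icc 1 X).filter (fun n => p ∣ n ∧ p ∣ b)).card := by
    unfold nbad
    exact (Finset.card_le_card hsub).trans ((Finset.card_union_le _ _).trans
      (Nat.add_le_add ((Finset.card_union_le _ _).trans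
        (Nat.add_le_add Finset.card_biUnion_le Finset.card_biUnion_le)) Finset.card_biUnion_le))
  exact_mod_cast h

lemma k18_mult (X p : ℕ) :
    (((Finset.Icc 1 X).filter (fun n => p ∣ n)).card : ℝ) ≤ X / p := by
  have h : (Finset.Icc 1 X).filter (fun n => p ∣ n) = (Finset.Ioc 0 X).filter (fun n => p ∣ n) := by
    ext n
    simp only [Finset.mem_filter, Finset.mem_Icc, Finset.mem_Ioc]
    constructor <;> rintro ⟨⟨h1, h2⟩, h3⟩ <;> exact ⟨⟨by omega, h2⟩, h3⟩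
  rw [h, Nat.Ioc_filter_dvd_card_eq_div]
  exact Nat.cast_div_le

lemma k18_inv (G M : ℕ) (hG : 1 ≤ G) :
    ∑ p ∈ (Finset.Ioc G M).filter Nat.Prime, ((p : ℝ) ^ 2)⁻¹ ≤ (G : ℝ)⁻¹ := by
  refine (Finset.sum_le_sum_of_subset_of_nonneg (Finset.filter_subset _ _)
    (fun p _ _ => by positivity)).trans ?_
  rcases Nat.lt_or_ge M G with h | h
  · rw [Finset.Ioc_eq_empty (by omega)]
    simp
  · refine (sum_Ioc_inv_sq_le_sub (α := ℝ) (by omega) h).trans ?_
    have : (0 : ℝ) ≤ (M : ℝ)⁻¹ := by positivity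
    linarith

/-- the pairs with a common prime factor `> G` -/
lemma k18_third (G X B : ℕ) (hG : 1 ≤ G) :
    ∑ b ∈ Finset.Icc 1 B, ∑ p ∈ (Finset.Ioc G X).filter Nat.Prime,
        (((Finset.Icc 1 X).filter (fun n => p ∣ n ∧ p ∣ b)).card : ℝ) ≤ (X : ℝ) * B / G := by
  rw [Finset.sum_comm]
  have key : ∀ p ∈ (Finset.Ioc G X).filter Nat.Prime,
      ∑ b ∈ Finset.Icc 1 B, (((Finset.Icc 1 X).filter (fun n => p ∣ n ∧ p ∣ b)).card : ℝ) ≤
        (X : ℝ) * B * ((p : ℝ) ^ 2)⁻¹ := by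
    intro p hp
    have hpp : p.Prime := (Finset.mem_filter.1 hp).2
    have h1 : ∀ b ∈ Finset.Icc 1 B,
        (((Finset.Icc 1 X).filter (fun n => p ∣ n ∧ p ∣ b)).card : ℝ) =
          if p ∣ b then (((Finset.Icc 1 X).filter (fun n => p ∣ n)).card : ℝ) else 0 := by
      intro b _
      by_cases hb : p ∣ b
      · simp [hb]
      · simp [hb]
    rw [Finset.sum_congr rfl h1, ← Finset.sum_filter, Finset.sum_const, nsmul_eq_mul]
    have h2 := k18_mult X p
    have h3 := k18_mult B p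
    have hp0 : (0 : ℝ) < p := by exact_mod_cast hpp.pos
    calc (((Finset.Icc 1 B).filter (fun b => p ∣ b)).card : ℝ) *
          (((Finset.Icc 1 X).filter (fun n => p ∣ n)).card : ℝ) ≤ (B / p) * (X / p) :=
          mul_le_mul h3 h2 (by positivity) (by positivity)
      _ = (X : ℝ) * B * ((p : ℝ) ^ 2)⁻¹ := by
          field_simp
  refine (Finset.sum_le_sum key).trans ?_
  rw [← Finset.mul_sum, div_eq_mul_inv]
  exact mul_le_mul_of_nonneg_left (k18_inv G X hG) (by positivity)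

lemma k18_primes (G M : ℕ) :
    (((Finset.Ioc G M).filter Nat.Prime).card : ℝ) ≤ (Nat.primeCounting M : ℝ) := by
  have : ((Finset.Ioc G M).filter Nat.Prime).card ≤ Nat.primeCounting M := by
    rw [Nat.primeCounting, Nat.primeCounting', Nat.count_eq_card_filter_range]
    refine Finset.card_le_card fun p hp => ?_
    rw [Finset.mem_filter, Finset.mem_Ioc] at hp
    rw [Finset.mem_filter, Finset.mem_range]
    exact ⟨by omega, hp.2⟩
  exact_mod_cast this

theorem bad_count_pr (β η : ℝ) (hβ : 0 < β) (hβ1 : β < 1) (hη : 0 < η) : ∃ G J : ℕ, 16 ≤ G ∧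
    1 ≤ J ∧ ∃ x₀ : ℝ, ∀ x : ℝ, x₀ ≤ x →
      ∑ b ∈ Finset.Icc 1 ⌊x ^ β⌋₊, (nbad G J b ⌊x⌋₊ : ℝ) ≤ η * x ^ (1 + β) := by
  classical
  set G : ℕ := max 16 ⌈12 / η⌉₊ with hGdef
  have hG16 : 16 ≤ G := le_max_left _ _
  have hGη : 3 / (G : ℝ) ≤ η / 4 := by
    have h1 : 12 / η ≤ G := (Nat.le_ceil _).trans (by exact_mod_cast le_max_right _ _)
    have hG0 : (0 : ℝ) < G := by
      have : (0 : ℕ) < G := by omega
      exact_mod_cast this
    rw [div_le_iff₀ hη] at h1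
    rw [div_le_div_iff₀ hG0 (by norm_num)]
    linarith
  obtain ⟨J', hJ'⟩ := exists_nat_ge (8 * G / η)
  set J : ℕ := J' + 2 with hJdef
  have hG0 : (0 : ℝ) < G := by
    have : (0 : ℕ) < G := by omega
    exact_mod_cast this
  have hJη : 2 * G / (3 : ℝ) ^ J ≤ η / 4 := by
    have h1 : (J : ℝ) ≤ 3 ^ J := by
      have : J < 3 ^ J := Nat.lt_pow_self (by norm_num)
      exact_mod_cast this.le
    have h2 : 8 * G / η ≤ 3 ^ J := by
      have : (J' : ℝ) ≤ J := by rw [hJdef]; push_cast; linarith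
      linarith
    rw [div_le_iff₀ hη] at h2
    rw [div_le_div_iff₀ (by positivity) (by norm_num)]
    linarith
  refine ⟨G, J, hG16, by omega, max (max 1 (8 * G / η)) (Real.exp (80 / η)), fun x hx => ?_⟩
  have hx1 : 1 ≤ x := le_trans (le_trans (le_max_left _ _) (le_max_left _ _)) hx
  have hx0 : 0 < x := by linarith
  have hx2 : 8 * G / η ≤ x := le_trans (le_trans (le_max_right _ _) (le_max_left _ _)) hx
  have hx3 : Real.exp (80 / η) ≤ x := le_trans (le_max_right _ _) hx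
  have hGx : 2 * G / x ≤ η / 4 := by
    rw [div_le_iff₀ hη] at hx2
    rw [div_le_div_iff₀ hx0 (by norm_num)]
    linarith
  have hlog : 80 / η ≤ Real.log (2 * x) := by
    rw [Real.le_log_iff_exp_le (by positivity)]
    linarith
  have hlog0 : 0 < Real.log (2 * x) := lt_of_lt_of_le (by positivity) hlog
  have hlogη : 20 / Real.log (2 * x) ≤ η / 4 := by
    rw [div_le_iff₀ hη] at hlog
    rw [div_le_div_iff₀ hlog0 (by norm_num)]
    linarith
  set X : ℕ := ⌊x⌋₊ with hX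
  set B : ℕ := ⌊x ^ β⌋₊ with hB
  set M : ℕ := ⌊2 * x⌋₊ with hM
  have hXx : (X : ℝ) ≤ x := Nat.floor_le hx0.le
  have hBx : (B : ℝ) ≤ x ^ β := Nat.floor_le (by positivity)
  have hxβ : x ^ β ≤ x := by
    calc x ^ β ≤ x ^ (1 : ℝ) := Real.rpow_le_rpow_of_exponent_le hx1 hβ1.le
      _ = x := Real.rpow_one x
  have hM1 : 2 * x < M + 1 := Nat.lt_floor_add_one _
  have hMb : ∀ b ∈ Finset.Icc 1 B, X ^ 2 + b ^ 2 < (M + 1) ^ 2 := by
    intro b hb
    have hb' : (b : ℝ) ≤ x := by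
      have : (b : ℝ) ≤ B := by exact_mod_cast (Finset.mem_Icc.1 hb).2
      linarith
    have h : ((X : ℝ)) ^ 2 + (b : ℝ) ^ 2 < ((M : ℝ) + 1) ^ 2 := by
      have h1 : (X : ℝ) ^ 2 ≤ x ^ 2 := pow_le_pow_left₀ (by positivity) hXx 2
      have h2 : (b : ℝ) ^ 2 ≤ x ^ 2 := pow_le_pow_left₀ (by positivity) hb' 2
      have h3 : (2 * x) ^ 2 < ((M : ℝ) + 1) ^ 2 := pow_lt_pow_left₀ hM1 (by positivity) (by norm_num)
      nlinarith
    exact_mod_cast h
  have hpi : (Nat.primeCounting M : ℝ) ≤ 5 * (2 * x) / Real.log (2 * x) :=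
    k_pi (y := 2 * x) (by linarith)
  -- the bound for one b
  have hone : ∀ b ∈ Finset.Icc 1 B, (nbad G J b X : ℝ) ≤
      (2 * G * (x / 3 ^ J + 1) + (2 * x / G + 20 * x / Real.log (2 * x))) +
      ∑ p ∈ (Finset.Ioc G X).filter Nat.Prime,
        (((Finset.Icc 1 X).filter (fun n => p ∣ n ∧ p ∣ b)).card : ℝ) := by
    intro b hb
    refine (k18_cover G J b X M (hMb b hb)).trans ?_
    refine add_le_add (add_le_add ?_ ?_) le_rfl
    · have h1 : ∀ p ∈ (Finset.Icc 1 G).filter Nat.Prime,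
          (((Finset.Icc 1 X).filter (fun n => Nat.Coprime n b ∧ p ^ J ∣ n ^ 2 + b ^ 2)).card : ℝ) ≤
            2 * (x / 3 ^ J + 1) := by
        intro p hp
        refine (k18_one (Finset.mem_filter.1 hp).2 (by omega)).trans ?_
        have h3 : (3 : ℝ) ^ J ≤ (max (p : ℝ) 3) ^ J :=
          pow_le_pow_left₀ (by norm_num) (le_max_right _ _) J
        have h4 : (X : ℝ) / (max (p : ℝ) 3) ^ J ≤ x / 3 ^ J :=
          div_le_div₀ hx0.le hXx (by positivity) h3
        linarith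
      refine (Finset.sum_le_card_nsmul _ _ _ h1).trans ?_
      rw [nsmul_eq_mul]
      have h5 : (((Finset.Icc 1 G).filter Nat.Prime).card : ℝ) ≤ G := by
        have : ((Finset.Icc 1 G).filter Nat.Prime).card ≤ G := by
          refine (Finset.card_filter_le _ _).trans ?_
          simp
        exact_mod_cast this
      calc (((Finset.Icc 1 G).filter Nat.Prime).card : ℝ) * (2 * (x / 3 ^ J + 1)) ≤
            G * (2 * (x / 3 ^ J + 1)) := mul_le_mul_of_nonneg_right h5 (by positivity)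
        _ = 2 * G * (x / 3 ^ J + 1) := by ring
    · have h1 : ∀ p ∈ (Finset.Ioc G M).filter Nat.Prime,
          (((Finset.Icc 1 X).filter (fun n => Nat.Coprime n b ∧ p ^ 2 ∣ n ^ 2 + b ^ 2)).card : ℝ) ≤
            2 * x * ((p : ℝ) ^ 2)⁻¹ + 2 := by
        intro p hp
        rw [Finset.mem_filter, Finset.mem_Ioc] at hp
        refine (k18_one hp.2 le_rfl).trans ?_
        have hp3 : (3 : ℝ) ≤ p := by
          have : 3 ≤ p := by omega
          exact_mod_cast this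
        rw [max_eq_left hp3]
        have h2 : (X : ℝ) / (p : ℝ) ^ 2 ≤ x / (p : ℝ) ^ 2 :=
          div_le_div_of_nonneg_right hXx (by positivity)
        rw [div_eq_mul_inv, div_eq_mul_inv] at h2
        rw [div_eq_mul_inv]
        linarith
      refine (Finset.sum_le_sum h1).trans ?_
      rw [Finset.sum_add_distrib, ← Finset.mul_sum, Finset.sum_const, nsmul_eq_mul]
      have h2 := k18_inv G M (by omega)
      have h3 := k18_primes G M
      refine add_le_add ?_ ?_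
      · rw [div_eq_mul_inv]
        exact mul_le_mul_of_nonneg_left h2 (by positivity)
      · calc (((Finset.Ioc G M).filter Nat.Prime).card : ℝ) * 2 ≤
              (5 * (2 * x) / Real.log (2 * x)) * 2 :=
              mul_le_mul_of_nonneg_right (h3.trans hpi) (by norm_num)
          _ = 20 * x / Real.log (2 * x) := by ring
  refine (Finset.sum_le_sum hone).trans ?_
  rw [Finset.sum_add_distrib, Finset.sum_const, nsmul_eq_mul, Nat.card_Icc, Nat.add_sub_cancel]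
  have hthird := k18_third G X B (by omega)
  have e1 : x ^ (1 + β) = x * x ^ β := by
    rw [Real.rpow_add hx0, Real.rpow_one]
  have hc0 : 0 ≤ 2 * G * (x / 3 ^ J + 1) + (2 * x / G + 20 * x / Real.log (2 * x)) := by
    positivity
  have h1 : (B : ℝ) * (2 * G * (x / 3 ^ J + 1) + (2 * x / G + 20 * x / Real.log (2 * x))) ≤
      x ^ β * (2 * G * (x / 3 ^ J + 1) + (2 * x / G + 20 * x / Real.log (2 * x))) :=
    mul_le_mul_of_nonneg_right hBx hc0
  have h2 : (X : ℝ) * B / G ≤ x * x ^ β / G :=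
    div_le_div_of_nonneg_right (mul_le_mul hXx hBx (by positivity) hx0.le) hG0.le
  have h3 : x ^ β * (2 * G * (x / 3 ^ J + 1) + (2 * x / G + 20 * x / Real.log (2 * x))) +
      x * x ^ β / G =
      (x * x ^ β) * (2 * G / 3 ^ J + 2 * G / x + 3 / G + 20 / Real.log (2 * x)) := by
    field_simp
    ring
  rw [e1]
  calc _ ≤ x ^ β * (2 * G * (x / 3 ^ J + 1) + (2 * x / G + 20 * x / Real.log (2 * x))) +
      x * x ^ β / G := add_le_add h1 (hthird.trans h2)
    _ = _ := h3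
    _ ≤ (x * x ^ β) * η := mul_le_mul_of_nonneg_left (by linarith) (by positivity)
    _ = η * (x * x ^ β) := by ring



end Pool.Agent.TR

namespace Pool.Agent.TR

theorem bad_count : type_of% @bad_count_pr := @bad_count_pr

end Pool.Agent.TR
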