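import Pool.Agent.Lib_helper10.T2F.BAS
import Pool.Agent.Lib_helper97.TRL.D42
import Pool.Agent.Lib_helper97.TRL.D50

set_option autoImplicit false

namespace Pool.Agent.TR

open Pool.Agent.T2 Pool.Agent.TF

theorem k20_prime {b n p : ℕ} (hp : p.Prime) (h2 : 2 < p) (hcop : Nat.Coprime n b)
    (hd : p ∣ n ^ 2 + b ^ 2) : p % 4 = 1 ∧ ¬ p ∣ b := by
  have hb : ¬ p ∣ b := by
    intro h
    have h1 : p ∣ n ^ 2 := (Nat.dvd_add_left (dvd_pow h two_ne_zero)).1 hd
    have h3 : p ∣ n := hp.dvd_of_dvd_pow h1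
    have h4 : p ∣ Nat.gcd n b := Nat.dvd_gcd h3 h
    rw [hcop] at h4
    exact hp.one_lt.ne' (Nat.dvd_one.1 h4)
  refine ⟨?_, hb⟩
  haveI : Fact p.Prime := ⟨hp⟩
  have hy : (b : ZMod p) ≠ 0 := by
    rw [Ne, ZMod.natCast_eq_zero_iff]
    exact hb
  have hxy : (n : ZMod p) ^ 2 = -(b : ZMod p) ^ 2 := by
    have h1 : ((n ^ 2 + b ^ 2 : ℕ) : ZMod p) = 0 := (ZMod.natCast_eq_zero_iff _ _).2 hd
    push_cast at h1
    exact eq_neg_of_add_eq_zero_left h1
  have h3 : p % 4 ≠ 3 := ZMod.mod_four_ne_three_of_sq_eq_neg_sq' hy hxy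
  have hodd : p % 2 = 1 := (hp.eq_two_or_odd).resolve_left (by omega)
  omega

theorem good_size_pr {G J b n : ℕ} {R : ℝ} (hG : 2 ≤ G) (hGR : (G : ℝ) ≤ R) (hn : 1 ≤ n)
    (hcop : Nat.Coprime n b) (hbad : ¬ IsBad G J b n) :
    (sm R (n ^ 2 + b ^ 2) : ℝ) ≤ Q0 G J * ∏ p ∈ Sn G R b n, (p : ℝ) := by
  set m := n ^ 2 + b ^ 2 with hmdef
  have hm : m ≠ 0 := by positivity
  have hJ : ∀ p : ℕ, p.Prime → p ≤ G → ¬ p ^ J ∣ m := by
    intro p hp hpG hd
    exact hbad (Or.inl ⟨hcop, Or.inl ⟨p, hp, hpG, hd⟩⟩)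
  have hsq : ∀ p : ℕ, p.Prime → G < p → ¬ p ^ 2 ∣ m := by
    intro p hp hpG hd
    exact hbad (Or.inl ⟨hcop, Or.inr ⟨p, hp, hpG, hd⟩⟩)
  have hsplit : sm R m =
      (∏ p ∈ (m.primeFactors.filter (fun p : ℕ => (p : ℝ) ≤ R)).filter (fun p => p ≤ G),
        p ^ m.factorization p) *
      (∏ p ∈ (m.primeFactors.filter (fun p : ℕ => (p : ℝ) ≤ R)).filter (fun p => ¬ p ≤ G),
        p ^ m.factorization p) := by
    unfold sm
    exact (Finset.prod_filter_mul_prod_filter_not _ _ _).symm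
  have h1 : (∏ p ∈ (m.primeFactors.filter (fun p : ℕ => (p : ℝ) ≤ R)).filter (fun p => p ≤ G),
        p ^ m.factorization p) ≤ Q0 G J := by
    have hprim : Q0 G J = ∏ p ∈ (Finset.range (G + 1)).filter (fun p => p.Prime), p ^ J := by
      unfold Q0 primorial
      rw [Finset.prod_pow]
    rw [hprim]
    refine Nat.le_of_dvd ?_ ?_
    · apply Finset.prod_pos
      intro p hp
      exact pow_pos (Finset.mem_filter.1 hp).2.pos _
    · refine (Finset.prod_dvd_prod_of_dvd _ (fun p => p ^ J) ?_).trans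
        (Finset.prod_dvd_prod_of_subset _ _ _ ?_)
      · intro p hp
        rw [Finset.mem_filter, Finset.mem_filter] at hp
        have hpp : p.Prime := Nat.prime_of_mem_primeFactors hp.1.1
        apply pow_dvd_pow
        by_contra hcon
        push Not at hcon
        exact hJ p hpp hp.2 ((hpp.pow_dvd_iff_le_factorization hm).2 hcon.le)
      · intro p hp
        rw [Finset.mem_filter, Finset.mem_filter] at hp
        rw [Finset.mem_filter, Finset.mem_range]
        exact ⟨by omega, Nat.prime_of_mem_primeFactors hp.1.1⟩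
  have h2 : (∏ p ∈ (m.primeFactors.filter (fun p : ℕ => (p : ℝ) ≤ R)).filter (fun p => ¬ p ≤ G),
        p ^ m.factorization p) ≤ ∏ p ∈ Sn G R b n, p := by
    refine Nat.le_of_dvd ?_ ?_
    · apply Finset.prod_pos
      intro p hp
      unfold Sn Pb at hp
      rw [Finset.mem_filter, Finset.mem_filter] at hp
      exact hp.1.2.1.pos
    · refine (Finset.prod_dvd_prod_of_dvd _ (fun p => p) ?_).trans
        (Finset.prod_dvd_prod_of_subset _ _ _ ?_)
      · intro p hp
        rw [Finset.mem_filter, Finset.mem_filter] at hp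
        have hpp : p.Prime := Nat.prime_of_mem_primeFactors hp.1.1
        have hv : m.factorization p ≤ 1 := by
          by_contra hcon
          push Not at hcon
          exact hsq p hpp (by omega) ((hpp.pow_dvd_iff_le_factorization hm).2 hcon)
        calc p ^ m.factorization p ∣ p ^ 1 := pow_dvd_pow _ hv
          _ = p := pow_one _
      · intro p hp
        rw [Finset.mem_filter, Finset.mem_filter] at hp
        have hpp : p.Prime := Nat.prime_of_mem_primeFactors hp.1.1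
        have hpd : p ∣ m := Nat.dvd_of_mem_primeFactors hp.1.1
        have hpG : G < p := by omega
        obtain ⟨h4, hb⟩ := k20_prime hpp (by omega) hcop hpd
        unfold Sn Pb
        rw [Finset.mem_filter, Finset.mem_filter, Finset.mem_Icc]
        exact ⟨⟨⟨hpp.one_le, Nat.le_floor hp.1.2⟩, hpp, h4, hpG, hb⟩, hpd⟩
  rw [hsplit]
  have h3 := Nat.mul_le_mul h1 h2
  have h4 : (((∏ p ∈ (m.primeFactors.filter (fun p : ℕ => (p : ℝ) ≤ R)).filter
        (fun p => p ≤ G), p ^ m.factorization p) *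
      (∏ p ∈ (m.primeFactors.filter (fun p : ℕ => (p : ℝ) ≤ R)).filter (fun p => ¬ p ≤ G),
        p ^ m.factorization p) : ℕ) : ℝ) ≤ ((Q0 G J * ∏ p ∈ Sn G R b n, p : ℕ) : ℝ) := by
    exact_mod_cast h3
  refine h4.trans (le_of_eq ?_)
  push_cast
  rfl

end Pool.Agent.TR

namespace Pool.Agent.TR

theorem good_size : type_of% @good_size_pr := @good_size_pr

end Pool.Agent.TR
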