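import Pool.Agent.Lib_helper10.T2F.BAS
import Pool.Agent.Lib_helper97.TRL.D42
import Pool.Agent.Lib_helper97.TRL.D50

/-! TR, part K, block K22 (helper97) -/

set_option autoImplicit false

namespace Pool.Agent.TR

open Pool.Agent.T2 Pool.Agent.TF

theorem k22_dvd_Q0 {G J p : ℕ} (hp : p.Prime) (hpG : p ≤ G) : p ^ J ∣ Q0 G J := by
  unfold Q0
  apply pow_dvd_pow_of_dvd
  unfold primorial
  exact Finset.dvd_prod_of_mem _ (Finset.mem_filter.2 ⟨Finset.mem_range.2 (by omega), hp⟩)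

theorem k22_sm (G : ℕ) (m : ℕ) : sm (G : ℝ) m =
    ∏ p ∈ (Finset.range (G + 1)).filter Nat.Prime, p ^ m.factorization p := by
  unfold sm
  apply Finset.prod_subset_one_on_sdiff
  · intro p hp
    rw [Finset.mem_filter] at hp ⊢
    exact ⟨Finset.mem_range.2 (Nat.lt_succ_of_le (by exact_mod_cast hp.2)),
      Nat.prime_of_mem_primeFactors hp.1⟩
  · intro p hp
    rw [Finset.mem_sdiff, Finset.mem_filter, Finset.mem_range, Finset.mem_filter] at hp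
    have h1 : p ∉ m.primeFactors := fun h => hp.2 ⟨h, by exact_mod_cast Nat.lt_succ_iff.1 hp.1.1⟩
    rw [Finsupp.notMem_support_iff.1 (by rwa [Nat.support_factorization]), pow_zero]
  · intro p _
    rfl

theorem k22_modEq {G J b n n' p k : ℕ} (hp : p.Prime) (hpG : p ≤ G) (hk : k ≤ J)
    (h : n % Q0 G J = n' % Q0 G J) : p ^ k ∣ n ^ 2 + b ^ 2 ↔ p ^ k ∣ n' ^ 2 + b ^ 2 := by
  have h1 : n ≡ n' [MOD p ^ k] :=
    Nat.ModEq.of_dvd ((pow_dvd_pow p hk).trans (k22_dvd_Q0 hp hpG)) h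
  have h2 : n ^ 2 + b ^ 2 ≡ n' ^ 2 + b ^ 2 [MOD p ^ k] := (h1.pow 2).add_right _
  exact h2.dvd_iff dvd_rfl

theorem gb_period_pr {G J b n n' : ℕ} (hJ : 1 ≤ J) (hb : 1 ≤ b)
    (h : n % Q0 G J = n' % Q0 G J) : gb G J b n = gb G J b n' := by
  have key : ∀ n n' : ℕ, n % Q0 G J = n' % Q0 G J →
      (∀ p : ℕ, p.Prime → p ≤ G → ¬ p ^ J ∣ n ^ 2 + b ^ 2 ∧ ¬ (p ∣ n ∧ p ∣ b)) →
      (∀ p : ℕ, p.Prime → p ≤ G → ¬ p ^ J ∣ n' ^ 2 + b ^ 2 ∧ ¬ (p ∣ n' ∧ p ∣ b)) := by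
    intro n n' h hc p hp hpG
    refine ⟨fun h1 => (hc p hp hpG).1 ((k22_modEq hp hpG le_rfl h).2 h1), fun h1 =>
      (hc p hp hpG).2 ⟨?_, h1.2⟩⟩
    have h2 : n ≡ n' [MOD p] := Nat.ModEq.of_dvd
      ((dvd_pow_self p (by omega)).trans (k22_dvd_Q0 hp hpG)) h
    exact (h2.dvd_iff dvd_rfl).2 h1.1
  unfold gb
  by_cases hc : ∀ p : ℕ, p.Prime → p ≤ G → ¬ p ^ J ∣ n ^ 2 + b ^ 2 ∧ ¬ (p ∣ n ∧ p ∣ b)
  · rw [if_pos hc, if_pos (key n n' h hc)]
    congr 1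
    rw [k22_sm, k22_sm]
    refine Finset.prod_congr rfl fun p hp => ?_
    rw [Finset.mem_filter, Finset.mem_range] at hp
    have hpG : p ≤ G := by omega
    have hc' := key n n' h hc
    have hm : n ^ 2 + b ^ 2 ≠ 0 := by positivity
    have hm' : n' ^ 2 + b ^ 2 ≠ 0 := by positivity
    have h1 : ∀ k : ℕ, k ≤ J → (k ≤ (n ^ 2 + b ^ 2).factorization p ↔
        k ≤ (n' ^ 2 + b ^ 2).factorization p) := by
      intro k hk
      rw [← hp.2.pow_dvd_iff_le_factorization hm, ← hp.2.pow_dvd_iff_le_factorization hm']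
      exact k22_modEq hp.2 hpG hk h
    have h2 : (n ^ 2 + b ^ 2).factorization p < J := by
      by_contra hcon
      rw [not_lt] at hcon
      exact (hc p hp.2 hpG).1 ((hp.2.pow_dvd_iff_le_factorization hm).2 hcon)
    have h3 : (n' ^ 2 + b ^ 2).factorization p < J := by
      by_contra hcon
      rw [not_lt] at hcon
      exact (hc' p hp.2 hpG).1 ((hp.2.pow_dvd_iff_le_factorization hm').2 hcon)
    have h4 := (h1 _ h2.le).1 le_rfl
    have h5 := (h1 _ h3.le).2 le_rfl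
    rw [le_antisymm h4 h5]
  · have hc' : ¬ ∀ p : ℕ, p.Prime → p ≤ G → ¬ p ^ J ∣ n' ^ 2 + b ^ 2 ∧ ¬ (p ∣ n' ∧ p ∣ b) :=
      fun h1 => hc (key n' n h.symm h1)
    rw [if_neg hc, if_neg hc']

theorem gb_abs_pr (G J b n : ℕ) : |gb G J b n| ≤ 1 := by
  unfold gb
  split_ifs
  · unfold lam
    split_ifs
    · simp
    · rw [abs_pow, abs_neg, abs_one, one_pow]
  · simp

theorem gb_zero_pr {G J b n : ℕ} (hn : 1 ≤ n) (hcop : ¬ Nat.Coprime n b)
    (hbad : ¬ IsBad G J b n) : gb G J b n = 0 := by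
  unfold gb
  rw [if_neg]
  intro hc
  obtain ⟨p, hp, h1, h2⟩ := Nat.Prime.not_coprime_iff_dvd.1 hcop
  by_cases hpG : p ≤ G
  · exact (hc p hp hpG).2 ⟨h1, h2⟩
  · exact hbad (Or.inr ⟨p, hp, not_le.1 hpG, h1, h2⟩)

theorem q0_primes_pr {G J p : ℕ} (hp : p.Prime) (h : p ∣ Q0 G J) : p ≤ G := by
  unfold Q0 at h
  have h1 := hp.dvd_of_dvd_pow h
  unfold primorial at h1
  obtain ⟨q, hq, hpq⟩ := (hp.prime.dvd_finset_prod_iff _).1 h1
  rw [Finset.mem_filter, Finset.mem_range] at hq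
  rw [(Nat.prime_dvd_prime_iff_eq hp hq.2).1 hpq]
  omega

theorem q0_pos_pr (G J : ℕ) : 1 ≤ Q0 G J := by
  unfold Q0
  exact Nat.one_le_pow _ _ (primorial_pos G)


end Pool.Agent.TR

namespace Pool.Agent.TR

theorem gb_period : type_of% @gb_period_pr := @gb_period_pr
theorem gb_abs : type_of% @gb_abs_pr := @gb_abs_pr
theorem gb_zero : type_of% @gb_zero_pr := @gb_zero_pr
theorem q0_primes : type_of% @q0_primes_pr := @q0_primes_pr
theorem q0_pos : type_of% @q0_pos_pr := @q0_pos_pr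

end Pool.Agent.TR
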