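import Pool.Agent.Lib_helper10.T2F.BAS
import Pool.Agent.Lib_helper97.TRL.D42
import Pool.Agent.Lib_helper97.TRL.D50

set_option autoImplicit false

namespace Pool.Agent.TR

open Pool.Agent.T2 Pool.Agent.TF Filter Topology

theorem fin_num_pr (C A B d ε : ℝ) (hC : 1 ≤ C) (hA : 0 ≤ A) (hB : 1 ≤ B) (hd : 0 < d)
    (hε : 0 < ε) : ∃ ρ₀ : ℝ, 0 < ρ₀ ∧ ρ₀ ≤ 1 ∧ ρ₀ ≤ d / 12 ∧ ∀ ρ : ℝ, 0 < ρ → ρ ≤ ρ₀ →
      C * ρ ^ (-A) * (C ^ (⌊d / (6 * ρ)⌋₊ + 1) / (⌊d / (6 * ρ)⌋₊).factorial) ≤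
        ε * B ^ (-(1 / ρ)) := by
  have hC0 : 0 < C := by linarith
  have hB0 : 0 < B := by linarith
  obtain ⟨c, hc⟩ : ∃ c : ℝ, c = C * (Real.exp (6 * A / d) * B ^ (6 / d)) := ⟨_, rfl⟩
  have hc0 : 0 < c := by rw [hc]; positivity
  have htend : Tendsto (fun k : ℕ => c ^ k / (k.factorial : ℝ)) atTop (𝓝 0) :=
    FloorSemiring.tendsto_pow_div_factorial_atTop c
  have h2 : ∀ᶠ k : ℕ in atTop, c ^ k / (k.factorial : ℝ) < ε / (C * c) :=
    (tendsto_order.1 htend).2 _ (by positivity)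
  obtain ⟨k0, hk0⟩ := eventually_atTop.1 h2
  have hk01 : (0 : ℝ) < (k0 : ℝ) + 1 := by positivity
  refine ⟨min 1 (min (d / 12) (d / (6 * ((k0 : ℝ) + 1)))), ?_, min_le_left _ _,
    (min_le_right _ _).trans (min_le_left _ _), fun ρ hρ hρ0 => ?_⟩
  · refine lt_min one_pos (lt_min (by positivity) (by positivity))
  have hρ1 : ρ ≤ d / (6 * ((k0 : ℝ) + 1)) :=
    hρ0.trans ((min_le_right _ _).trans (min_le_right _ _))
  obtain ⟨k, hk⟩ : ∃ k : ℕ, k = ⌊d / (6 * ρ)⌋₊ := ⟨_, rfl⟩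
  rw [← hk]
  have hkk0 : k0 ≤ k := by
    rw [hk]
    apply Nat.le_floor
    rw [le_div_iff₀ (by positivity)] at hρ1 ⊢
    nlinarith
  have hk1 : d / (6 * ρ) < (k : ℝ) + 1 := by
    rw [hk]
    exact Nat.lt_floor_add_one _
  have hy : 1 / ρ ≤ 6 * ((k : ℝ) + 1) / d := by
    rw [div_lt_iff₀ (by positivity)] at hk1
    rw [div_le_div_iff₀ hρ hd]
    linarith
  have h3 : ρ ^ (-A) ≤ Real.exp (A * (1 / ρ)) := by
    rw [Real.rpow_def_of_pos hρ]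
    apply Real.exp_le_exp.2
    have h4 : -Real.log ρ ≤ 1 / ρ := by
      rw [← Real.log_inv, one_div]
      have := Real.log_le_sub_one_of_pos (inv_pos.2 hρ)
      linarith
    nlinarith
  have h4 : Real.exp (A * (1 / ρ)) ≤ Real.exp (6 * A / d) ^ (k + 1) := by
    rw [← Real.exp_nat_mul]
    apply Real.exp_le_exp.2
    calc A * (1 / ρ) ≤ A * (6 * ((k : ℝ) + 1) / d) := mul_le_mul_of_nonneg_left hy hA
      _ = ((k + 1 : ℕ) : ℝ) * (6 * A / d) := by push_cast; ring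
  have h5 : B ^ (1 / ρ) ≤ (B ^ (6 / d)) ^ (k + 1) := by
    calc B ^ (1 / ρ) ≤ B ^ (6 / d * ((k + 1 : ℕ) : ℝ)) := by
          apply Real.rpow_le_rpow_of_exponent_le hB
          calc 1 / ρ ≤ 6 * ((k : ℝ) + 1) / d := hy
            _ = 6 / d * ((k + 1 : ℕ) : ℝ) := by push_cast; ring
      _ = (B ^ (6 / d)) ^ (k + 1) := by
          rw [Real.rpow_mul hB0.le, Real.rpow_natCast]
  have h6 : c ^ k / (k.factorial : ℝ) < ε / (C * c) := hk0 k hkk0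
  have hf : (0 : ℝ) < (k.factorial : ℝ) := by exact_mod_cast k.factorial_pos
  have h7 : C * ρ ^ (-A) * (C ^ (k + 1) / (k.factorial : ℝ)) * B ^ (1 / ρ) ≤ ε := by
    have hρA : 0 ≤ ρ ^ (-A) := Real.rpow_nonneg hρ.le _
    have hBρ : 0 ≤ B ^ (1 / ρ) := Real.rpow_nonneg hB0.le _
    calc C * ρ ^ (-A) * (C ^ (k + 1) / (k.factorial : ℝ)) * B ^ (1 / ρ)
        ≤ C * Real.exp (6 * A / d) ^ (k + 1) * (C ^ (k + 1) / (k.factorial : ℝ)) *
          (B ^ (6 / d)) ^ (k + 1) := by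
          have := h3.trans h4
          gcongr
      _ = C * c * (c ^ k / (k.factorial : ℝ)) := by
          rw [hc]
          field_simp
          ring
      _ ≤ C * c * (ε / (C * c)) := mul_le_mul_of_nonneg_left h6.le (by positivity)
      _ = ε := by field_simp
  rw [Real.rpow_neg hB0.le, ← div_eq_mul_inv, le_div_iff₀ (Real.rpow_pos_of_pos hB0 _)]
  exact h7

end Pool.Agent.TR

namespace Pool.Agent.TR

theorem fin_num : type_of% @fin_num_pr := @fin_num_pr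

end Pool.Agent.TR
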