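import Pool.Agent.Lib_helper10.T2F.BAS
import Pool.Agent.Lib_helper97.TRL.D42
import Pool.Agent.Lib_helper97.TRL.D50

set_option autoImplicit false

namespace Pool.Agent.TR

theorem k28_large {a : ℝ} (ha : 0 < a) (K : ℝ) : ∃ x₀ : ℝ, 1 ≤ x₀ ∧ ∀ x : ℝ, x₀ ≤ x → K ≤ x ^ a := by
  have h := (tendsto_rpow_atTop ha).eventually_ge_atTop K
  rw [Filter.eventually_atTop] at h
  obtain ⟨x₀, hx₀⟩ := h
  exact ⟨max x₀ 1, le_max_right _ _, fun x hx => hx₀ x ((le_max_left _ _).trans hx)⟩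

theorem k28_pow {x ρ c : ℝ} (n : ℕ) (hx : 1 ≤ x) (h : ρ * n ≤ c) : (x ^ ρ) ^ n ≤ x ^ c := by
  rw [← Real.rpow_natCast, ← Real.rpow_mul (by linarith)]
  exact Real.rpow_le_rpow_of_exponent_le hx h

theorem k28_floor {d ρ : ℝ} (hd : 0 < d) (hρ : 0 < ρ) :
    ρ * (⌊d / (6 * ρ)⌋₊ : ℝ) ≤ d / 6 := by
  have h1 : (⌊d / (6 * ρ)⌋₊ : ℝ) ≤ d / (6 * ρ) := Nat.floor_le (by positivity)
  calc ρ * (⌊d / (6 * ρ)⌋₊ : ℝ) ≤ ρ * (d / (6 * ρ)) := by gcongr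
    _ = d / 6 := by field_simp

theorem fin_pow_pr {d ρ : ℝ} (hd : 0 < d) (hρ : 0 < ρ) (hρd : ρ ≤ d / 12) :
    (∀ x : ℝ, 1 ≤ x → (x ^ ρ) ^ (2 * ⌊d / (6 * ρ)⌋₊ + 2) ≤ x ^ (d / 2)) ∧
    (∀ x : ℝ, 1 ≤ x → (x ^ ρ) ^ (3 * ⌊d / (6 * ρ)⌋₊ + 3) ≤ x ^ (3 * d / 4)) ∧
    (∀ K : ℝ, ∃ x₀ : ℝ, ∀ x : ℝ, x₀ ≤ x → K ≤ x ^ ρ) ∧
    (∀ K : ℝ, ∃ x₀ : ℝ, ∀ x : ℝ, x₀ ≤ x →
      K * (x ^ ρ) ^ (2 * ⌊d / (6 * ρ)⌋₊ + 2) ≤ x ^ d) ∧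
    (∀ K θ ε : ℝ, 0 < ε → θ + 3 * d / 4 < 1 → ∃ x₀ : ℝ, ∀ x : ℝ, x₀ ≤ x →
      K * ((x ^ ρ) ^ (3 * ⌊d / (6 * ρ)⌋₊ + 3) * x ^ θ) ≤ ε * x) := by
  have hfl := k28_floor hd hρ
  have h1 : ∀ x : ℝ, 1 ≤ x → (x ^ ρ) ^ (2 * ⌊d / (6 * ρ)⌋₊ + 2) ≤ x ^ (d / 2) := by
    intro x hx
    apply k28_pow _ hx
    push_cast
    nlinarith
  have h2 : ∀ x : ℝ, 1 ≤ x → (x ^ ρ) ^ (3 * ⌊d / (6 * ρ)⌋₊ + 3) ≤ x ^ (3 * d / 4) := by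
    intro x hx
    apply k28_pow _ hx
    push_cast
    nlinarith
  refine ⟨h1, h2, ?_, ?_, ?_⟩
  · intro K
    obtain ⟨x₀, _, h⟩ := k28_large hρ K
    exact ⟨x₀, h⟩
  · intro K
    obtain ⟨x₀, hx₀, h⟩ := k28_large (a := d / 2) (by linarith) |K|
    refine ⟨x₀, fun x hx => ?_⟩
    have hx1 : 1 ≤ x := hx₀.trans hx
    have hx0 : 0 < x := by linarith
    have h3 : x ^ d = x ^ (d / 2) * x ^ (d / 2) := by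
      rw [← Real.rpow_add hx0]
      congr 1
      ring
    rw [h3]
    have h4 : 0 ≤ (x ^ ρ) ^ (2 * ⌊d / (6 * ρ)⌋₊ + 2) := by positivity
    calc K * (x ^ ρ) ^ (2 * ⌊d / (6 * ρ)⌋₊ + 2)
        ≤ |K| * (x ^ ρ) ^ (2 * ⌊d / (6 * ρ)⌋₊ + 2) :=
          mul_le_mul_of_nonneg_right (le_abs_self K) h4
      _ ≤ x ^ (d / 2) * x ^ (d / 2) :=
          mul_le_mul (h x hx) (h1 x hx1) h4 (by positivity)
  · intro K θ ε hε hθ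
    obtain ⟨x₀, hx₀, h⟩ := k28_large (a := 1 - (θ + 3 * d / 4)) (by linarith) (|K| / ε)
    refine ⟨x₀, fun x hx => ?_⟩
    have hx1 : 1 ≤ x := hx₀.trans hx
    have hx0 : 0 < x := by linarith
    have h4 : 0 ≤ (x ^ ρ) ^ (3 * ⌊d / (6 * ρ)⌋₊ + 3) * x ^ θ := by positivity
    have h5 : (x ^ ρ) ^ (3 * ⌊d / (6 * ρ)⌋₊ + 3) * x ^ θ ≤ x ^ (θ + 3 * d / 4) := by
      rw [Real.rpow_add hx0, mul_comm]
      exact mul_le_mul_of_nonneg_left (h2 x hx1) (by positivity)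
    have h6 : |K| ≤ ε * x ^ (1 - (θ + 3 * d / 4)) := by
      have h7 := h x hx
      rw [div_le_iff₀ hε] at h7
      linarith
    have h8 : x ^ (1 - (θ + 3 * d / 4)) * x ^ (θ + 3 * d / 4) = x := by
      rw [← Real.rpow_add hx0, sub_add_cancel, Real.rpow_one]
    calc K * ((x ^ ρ) ^ (3 * ⌊d / (6 * ρ)⌋₊ + 3) * x ^ θ)
        ≤ |K| * ((x ^ ρ) ^ (3 * ⌊d / (6 * ρ)⌋₊ + 3) * x ^ θ) :=
          mul_le_mul_of_nonneg_right (le_abs_self K) h4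
      _ ≤ (ε * x ^ (1 - (θ + 3 * d / 4))) * x ^ (θ + 3 * d / 4) :=
          mul_le_mul h6 h5 h4 (by positivity)
      _ = ε * x := by rw [mul_assoc, h8]



end Pool.Agent.TR

namespace Pool.Agent.TR

theorem fin_pow : type_of% @fin_pow_pr := @fin_pow_pr

end Pool.Agent.TR
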