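import Pool.Agent.Lib_helper97.TRL.K14
import Pool.Agent.Lib_helper97.TRL.K16
import Pool.Agent.Lib_helper97.TRL.K18
import Pool.Agent.Lib_helper97.TRL.K20
import Pool.Agent.Lib_helper97.TRL.K22
import Pool.Agent.Lib_helper97.TRL.K27
import Pool.Agent.Lib_helper97.TRL.K28
import Pool.Agent.Lib_helper10.T2F.BAS
import Pool.Agent.Lib_helper97.TRL.D42
import Pool.Agent.Lib_helper97.TRL.D50

/-! TR, block K30: large smooth parts are rare -/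

set_option autoImplicit false

namespace Pool.Agent.TR

open Pool.Agent.T2 Pool.Agent.TF

open Classical in
theorem k30_one {C : ℝ}
    (hC : ∀ (G k b r X : ℕ) (R H E : ℝ) (g : ℕ → ℝ), 16 ≤ G →
      (G : ℝ) ≤ R → Squarefree r → (∀ p ∈ r.primeFactors, p % 4 = 1 ∧ R < (p : ℝ) ∧ ¬ p ∣ b) →
      WFn g X H E →
      ∑ n ∈ (Finset.Icc 1 X).filter (fun n => r ∣ n ^ 2 + b ^ 2 ∧
          R ^ (2 * k + 2) < ∏ p ∈ Sn G R b n, (p : ℝ)), g n ≤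
        2 ^ r.primeFactors.card * (H / r * (C ^ (k + 1) / k.factorial) +
          E * R ^ (3 * k + 3)))
    {G J k b X : ℕ} {R D : ℝ} (hG : 16 ≤ G) (hGR : (G : ℝ) ≤ R)
    (hD : (Q0 G J : ℝ) * R ^ (2 * k + 2) ≤ D) :
    ∑ n ∈ Finset.Icc 1 X, (if (Nat.Coprime n b ∧ D < (sm R (n ^ 2 + b ^ 2) : ℝ)) then (1 : ℝ)
      else 0) ≤ nbad G J b X + (X * (C ^ (k + 1) / k.factorial) + R ^ (3 * k + 3)) := by
  have h1 := hC G k b 1 X R X 1 (fun _ => 1) hG hGR squarefree_one (by simp) (wf_plain X)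
  rw [Nat.primeFactors_one, Finset.card_empty, pow_zero, one_mul, Nat.cast_one, div_one,
    one_mul] at h1
  have h2 : ∑ n ∈ Finset.Icc 1 X, (if (Nat.Coprime n b ∧ D < (sm R (n ^ 2 + b ^ 2) : ℝ))
      then (1 : ℝ) else 0) ≤ ∑ n ∈ Finset.Icc 1 X, ((if IsBad G J b n then (1 : ℝ) else 0) +
      (if (1 ∣ n ^ 2 + b ^ 2 ∧ R ^ (2 * k + 2) < ∏ p ∈ Sn G R b n, (p : ℝ)) then (1 : ℝ)
        else 0)) := by
    apply Finset.sum_le_sum
    intro n hn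
    by_cases h : Nat.Coprime n b ∧ D < (sm R (n ^ 2 + b ^ 2) : ℝ)
    · rw [if_pos h]
      by_cases hb : IsBad G J b n
      · rw [if_pos hb]
        have : (0 : ℝ) ≤ (if (1 ∣ n ^ 2 + b ^ 2 ∧
            R ^ (2 * k + 2) < ∏ p ∈ Sn G R b n, (p : ℝ)) then (1 : ℝ) else 0) := by
          split_ifs <;> norm_num
        linarith
      · rw [if_neg hb, if_pos, zero_add]
        refine ⟨one_dvd _, ?_⟩
        have h3 := good_size (by omega : 2 ≤ G) hGR (Finset.mem_Icc.1 hn).1 h.1 hb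
        have h4 : (Q0 G J : ℝ) * R ^ (2 * k + 2) < Q0 G J * ∏ p ∈ Sn G R b n, (p : ℝ) := by
          linarith [h.2]
        have h5 : (0 : ℝ) < Q0 G J := by exact_mod_cast q0_pos G J
        exact lt_of_mul_lt_mul_left h4 h5.le
    · rw [if_neg h]
      have e1 : (0 : ℝ) ≤ (if IsBad G J b n then (1 : ℝ) else 0) := by
        split_ifs <;> norm_num
      have e2 : (0 : ℝ) ≤ (if (1 ∣ n ^ 2 + b ^ 2 ∧
            R ^ (2 * k + 2) < ∏ p ∈ Sn G R b n, (p : ℝ)) then (1 : ℝ) else 0) := by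
        split_ifs <;> norm_num
      linarith
  refine h2.trans ?_
  rw [Finset.sum_add_distrib]
  apply add_le_add
  · unfold nbad
    rw [Finset.card_filter]
    push_cast
    exact le_rfl
  · rw [← Finset.sum_filter]
    exact h1

theorem smooth_rare_pr (β d A ε : ℝ) (hβ : 0 < β) (hβ1 : β < 1) (hd : 0 < d) (hd1 : d < 1)
    (hA : 1 ≤ A) (hε : 0 < ε) : ∃ ρ₀ : ℝ, 0 < ρ₀ ∧ ∀ ρ : ℝ, 0 < ρ → ρ ≤ ρ₀ → ∃ x₀ : ℝ,
    ∀ x : ℝ, x₀ ≤ x → ((((Finset.Icc 1 ⌊x⌋₊) ×ˢ (Finset.Icc 1 ⌊x ^ β⌋₊)).filter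
      (fun t : ℕ × ℕ => Nat.Coprime t.1 t.2 ∧
        x ^ d < (sm (x ^ ρ) (t.1 ^ 2 + t.2 ^ 2) : ℝ))).card : ℝ) ≤
      ε * A ^ (-(1 / ρ)) * x ^ (1 + β) := by
  classical
  obtain ⟨C, hC1, hC⟩ := core_rare
  obtain ⟨ρ₀, hρ₀, -, hρd, hfin⟩ := fin_num C 0 A d (ε / 4) hC1 le_rfl hA hd (by positivity)
  refine ⟨ρ₀, hρ₀, ?_⟩
  intro ρ hρ hρρ₀
  obtain ⟨-, -, p3, p4, p5⟩ := fin_pow hd hρ (hρρ₀.trans hρd)
  set k := ⌊d / (6 * ρ)⌋₊ with hk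
  set q : ℝ := ε / 4 * A ^ (-(1 / ρ)) with hq
  have hA0 : 0 < A := by linarith
  have hq0 : 0 < q := by
    have : 0 < A ^ (-(1 / ρ)) := Real.rpow_pos_of_pos hA0 _
    positivity
  obtain ⟨G, J, hG, hJ, x₁, h1⟩ := bad_count β q hβ hβ1 hq0
  obtain ⟨x₂, h2⟩ := p3 G
  obtain ⟨x₃, h3⟩ := p4 (Q0 G J)
  obtain ⟨x₄, h4⟩ := p5 1 0 q hq0 (by linarith)
  have hfr : C ^ (k + 1) / (k.factorial : ℝ) ≤ q := by
    have e1 := hfin ρ hρ hρρ₀
    rw [neg_zero, Real.rpow_zero, mul_one] at e1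
    refine le_trans ?_ e1
    have e2 : 0 ≤ C ^ (k + 1) / (k.factorial : ℝ) := by positivity
    nlinarith
  refine ⟨max (max x₁ x₂) (max (max x₃ x₄) 1), ?_⟩
  intro x hx
  have hx1 : x₁ ≤ x := (le_max_left _ _).trans ((le_max_left _ _).trans hx)
  have hx2 : x₂ ≤ x := (le_max_right _ _).trans ((le_max_left _ _).trans hx)
  have hx3 : x₃ ≤ x :=
    (le_max_left _ _).trans ((le_max_left _ _).trans ((le_max_right _ _).trans hx))
  have hx4 : x₄ ≤ x :=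
    (le_max_right _ _).trans ((le_max_left _ _).trans ((le_max_right _ _).trans hx))
  have hx5 : (1 : ℝ) ≤ x := (le_max_right _ _).trans ((le_max_right _ _).trans hx)
  have hx0 : 0 < x := by linarith
  have hGR : (G : ℝ) ≤ x ^ ρ := h2 x hx2
  have hQ : (Q0 G J : ℝ) * (x ^ ρ) ^ (2 * k + 2) ≤ x ^ d := h3 x hx3
  have hR3 : (x ^ ρ) ^ (3 * k + 3) ≤ q * x := by
    have := h4 x hx4
    rwa [Real.rpow_zero, mul_one, one_mul] at this
  have hxβ : 0 ≤ x ^ β := Real.rpow_nonneg hx0.le β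
  have hfl : (⌊x⌋₊ : ℝ) ≤ x := Nat.floor_le hx0.le
  have hfl2 : (⌊x ^ β⌋₊ : ℝ) ≤ x ^ β := Nat.floor_le hxβ
  have hxx : x ^ (1 + β) = x * x ^ β := by
    rw [Real.rpow_add hx0, Real.rpow_one]
  have hmain : ((((Finset.Icc 1 ⌊x⌋₊) ×ˢ (Finset.Icc 1 ⌊x ^ β⌋₊)).filter
      (fun t : ℕ × ℕ => Nat.Coprime t.1 t.2 ∧
        x ^ d < (sm (x ^ ρ) (t.1 ^ 2 + t.2 ^ 2) : ℝ))).card : ℝ) ≤
      ∑ b ∈ Finset.Icc 1 ⌊x ^ β⌋₊, ((nbad G J b ⌊x⌋₊ : ℝ) + 2 * q * x) := by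
    rw [Finset.card_filter]
    push_cast
    rw [Finset.sum_product_right]
    apply Finset.sum_le_sum
    intro b _
    refine (k30_one hC (J := J) (k := k) hG hGR hQ).trans ?_
    have e1 : (⌊x⌋₊ : ℝ) * (C ^ (k + 1) / k.factorial) ≤ x * q := by
      apply mul_le_mul hfl hfr (by positivity) hx0.le
    linarith
  refine hmain.trans ?_
  rw [Finset.sum_add_distrib, Finset.sum_const, nsmul_eq_mul, Nat.card_Icc,
    Nat.add_sub_cancel]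
  have e1 := h1 x hx1
  have e2 : (⌊x ^ β⌋₊ : ℝ) * (2 * q * x) ≤ x ^ β * (2 * q * x) := by gcongr
  have e3 : ε * A ^ (-(1 / ρ)) = 4 * q := by rw [hq]; ring
  rw [e3, hxx]
  rw [hxx] at e1
  have e4 : 0 ≤ q * (x * x ^ β) := by positivity
  nlinarith

end Pool.Agent.TR

namespace Pool.Agent.TR

theorem smooth_rare : type_of% @smooth_rare_pr := @smooth_rare_pr

end Pool.Agent.TR
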