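import Pool.Agent.Lib_helper97.TRL.A12
import Pool.Agent.Lib_helper97.TRL.A13
import Pool.Agent.Lib_helper97.TRL.K30
import Pool.Agent.Lib_helper10.T2F.BAS
import Pool.Agent.Lib_helper97.TR.Defs
import Pool.Agent.Lib_helper97.TRL.D42
import Pool.Agent.Lib_helper97.TRL.D42A
import Pool.Agent.Lib_helper97.TRL.M42

set_option autoImplicit false

namespace Pool.Agent.TR

open Pool.Agent.T2 Pool.Agent.TF

open Classical in
theorem rare_count_pr (β d θ ε : ℝ) (hβ : 0 < β) (hβ1 : β < 1) (hd : 0 < d) (hd1 : d < 1)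
    (hθ : 0 < θ) (hθ1 : θ < 1) (hε : 0 < ε) : ∃ ρ₀ : ℝ, 0 < ρ₀ ∧ ∀ ρ : ℝ, 0 < ρ → ρ ≤ ρ₀ →
    ∃ κ x₀ : ℝ, 0 < κ ∧ ∀ x : ℝ, x₀ ≤ x → (((Prs β x).filter (fun t : ℕ × ℕ =>
      RA ρ d θ κ x (t.1 ^ 2 + t.2 ^ 2))).card : ℝ) ≤
        ε * 9 ^ (-(1 / ρ)) * x ^ (1 + β) := by
  obtain ⟨ρ₁, hρ₁, hsm⟩ := smooth_rare β d 9 (ε / 3) hβ hβ1 hd hd1 (by norm_num) (by positivity)
  refine ⟨min ρ₁ (min θ (1 / 2)), lt_min hρ₁ (lt_min hθ (by norm_num)), ?_⟩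
  intro ρ hρ hρle
  have hρle1 : ρ ≤ ρ₁ := hρle.trans (min_le_left _ _)
  have hρθ : ρ ≤ θ := hρle.trans ((min_le_right _ _).trans (min_le_left _ _))
  have hρhalf : ρ ≤ 1 / 2 := hρle.trans ((min_le_right _ _).trans (min_le_right _ _))
  obtain ⟨x₁, h1⟩ := hsm ρ hρ hρle1
  obtain ⟨ε', hε'⟩ : ∃ ε' : ℝ, ε' = ε / 3 * 9 ^ (-(1 / ρ)) := ⟨_, rfl⟩
  have hε'pos : 0 < ε' := by
    rw [hε']
    positivity
  obtain ⟨x₂, h2⟩ := sq_rare β ρ ε' hβ hβ1 hρ hε'pos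
  obtain ⟨C, x₃, hC, h3⟩ := mid_count β ρ hβ hβ1 hρ (by linarith)
  have hC0 : 0 < C := by linarith
  obtain ⟨κ, hκ⟩ : ∃ κ : ℝ, κ = min (1 - θ) (ε' / (2 * C)) := ⟨_, rfl⟩
  have hκpos : 0 < κ := by
    rw [hκ]
    exact lt_min (by linarith) (by positivity)
  have hκθ : κ ≤ 1 - θ := by
    rw [hκ]
    exact min_le_left _ _
  have hκC : κ ≤ ε' / (2 * C) := by
    rw [hκ]
    exact min_le_right _ _
  have hev := (Real.tendsto_log_atTop.eventually_ge_atTop (2 * C / ε')).and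
    ((Filter.eventually_ge_atTop (3 : ℝ)).and ((Filter.eventually_ge_atTop x₁).and
    ((Filter.eventually_ge_atTop x₂).and (Filter.eventually_ge_atTop x₃))))
  obtain ⟨x₀, hx₀⟩ := Filter.eventually_atTop.1 hev
  refine ⟨κ, x₀, hκpos, ?_⟩
  intro x hx
  obtain ⟨hlog, hx3, hxx1, hxx2, hxx3⟩ := hx₀ x hx
  have hx0 : 0 < x := by linarith
  have hx1 : 1 ≤ x := by linarith
  have hlogpos : 0 < Real.log x := Real.log_pos (by linarith)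
  have hX : 0 < x ^ (1 + β) := by positivity
  -- the three sets
  have a1 := h1 x hxx1
  have a2 := h2 x hxx2
  have hyz : x ^ θ * x ^ κ = x ^ (θ + κ) := (Real.rpow_add hx0 _ _).symm
  have a3 := h3 x hxx3 (x ^ θ) (x ^ κ) (Real.rpow_le_rpow_of_exponent_le hx1 hρθ)
    (Real.one_le_rpow hx1 hκpos.le) (by
      rw [hyz]
      calc x ^ (θ + κ) ≤ x ^ (1 : ℝ) := Real.rpow_le_rpow_of_exponent_le hx1 (by linarith)
        _ = x := Real.rpow_one x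
        _ ≤ 2 * x := by linarith)
  rw [Real.log_rpow hx0, hyz] at a3
  have b3 : C * (κ * Real.log x + 1) / Real.log x * x ^ (1 + β) ≤ ε' * x ^ (1 + β) := by
    refine mul_le_mul_of_nonneg_right ?_ hX.le
    rw [div_le_iff₀ hlogpos]
    have e1 : C * κ ≤ ε' / 2 := by
      calc C * κ ≤ C * (ε' / (2 * C)) := by gcongr
        _ = ε' / 2 := by field_simp
    have e2 : C ≤ ε' / 2 * Real.log x := by
      rw [div_le_iff₀ hε'pos] at hlog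
      linarith
    have e3 := mul_le_mul_of_nonneg_right e1 hlogpos.le
    linarith
  have c1 : ((Prs β x).filter (fun t : ℕ × ℕ =>
      x ^ d < (sm (x ^ ρ) (t.1 ^ 2 + t.2 ^ 2) : ℝ))).card ≤
      (((Finset.Icc 1 ⌊x⌋₊) ×ˢ (Finset.Icc 1 ⌊x ^ β⌋₊)).filter
      (fun t : ℕ × ℕ => Nat.Coprime t.1 t.2 ∧
        x ^ d < (sm (x ^ ρ) (t.1 ^ 2 + t.2 ^ 2) : ℝ))).card := by
    apply Finset.card_le_card
    intro t ht
    rw [Finset.mem_filter, Prs, Finset.mem_filter] at ht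
    rw [Finset.mem_filter]
    exact ⟨ht.1.1, ht.1.2, ht.2⟩
  obtain ⟨S₁, hS₁⟩ : ∃ S : Finset (ℕ × ℕ), S = (Prs β x).filter (fun t : ℕ × ℕ =>
      x ^ d < (sm (x ^ ρ) (t.1 ^ 2 + t.2 ^ 2) : ℝ)) := ⟨_, rfl⟩
  obtain ⟨S₂, hS₂⟩ : ∃ S : Finset (ℕ × ℕ), S = (Prs β x).filter (fun t : ℕ × ℕ =>
      ∃ p : ℕ, p.Prime ∧ x ^ ρ < (p : ℝ) ∧ p ^ 2 ∣ t.1 ^ 2 + t.2 ^ 2) := ⟨_, rfl⟩
  obtain ⟨S₃, hS₃⟩ : ∃ S : Finset (ℕ × ℕ), ∀ t, t ∈ S ↔ t ∈ Prs β x ∧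
      ∃ v ∈ (t.1 ^ 2 + t.2 ^ 2).divisors,
      Rough (x ^ ρ) v ∧ Squarefree v ∧ x ^ θ < (v : ℝ) ∧ (v : ℝ) ≤ x ^ (θ + κ) :=
    ⟨(Prs β x).filter _, fun t => Finset.mem_filter⟩
  rw [← hS₂] at a2
  rw [← hS₁] at c1
  have c3 : (S₃.card : ℝ) ≤
      ∑ t ∈ Prs β x, (((t.1 ^ 2 + t.2 ^ 2).divisors.filter (fun u : ℕ =>
        Rough (x ^ ρ) u ∧ Squarefree u ∧ x ^ θ < (u : ℝ) ∧ (u : ℝ) ≤ x ^ (θ + κ))).card : ℝ) := by
    have hsub3 : S₃ ⊆ Prs β x := fun t ht => ((hS₃ t).1 ht).1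
    refine le_trans ?_ (Finset.sum_le_sum_of_subset_of_nonneg hsub3
      (fun _ _ _ => by positivity))
    rw [Finset.card_eq_sum_ones, Nat.cast_sum]
    apply Finset.sum_le_sum
    intro t ht
    obtain ⟨v, hv1, hv2⟩ := ((hS₃ t).1 ht).2
    have : 1 ≤ ((t.1 ^ 2 + t.2 ^ 2).divisors.filter (fun u : ℕ =>
      Rough (x ^ ρ) u ∧ Squarefree u ∧ x ^ θ < (u : ℝ) ∧ (u : ℝ) ≤ x ^ (θ + κ))).card :=
      Finset.card_pos.2 ⟨v, Finset.mem_filter.2 ⟨hv1, hv2⟩⟩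
    exact_mod_cast this
  have hsub : ((Prs β x).filter (fun t : ℕ × ℕ =>
      RA ρ d θ κ x (t.1 ^ 2 + t.2 ^ 2))).card ≤ S₁.card + S₂.card + S₃.card := by
    refine le_trans (Finset.card_le_card ?_)
      ((Finset.card_union_le _ _).trans (Nat.add_le_add_right (Finset.card_union_le _ _) _))
    intro t ht
    obtain ⟨hP, h⟩ := Finset.mem_filter.1 ht
    rcases h with h | h | h
    · refine Finset.mem_union.2 (Or.inl (Finset.mem_union.2 (Or.inl ?_)))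
      rw [hS₁]
      exact Finset.mem_filter.2 ⟨hP, h⟩
    · refine Finset.mem_union.2 (Or.inl (Finset.mem_union.2 (Or.inr ?_)))
      rw [hS₂]
      exact Finset.mem_filter.2 ⟨hP, h⟩
    · exact Finset.mem_union.2 (Or.inr ((hS₃ t).2 ⟨hP, h⟩))
  have hsub' : (((Prs β x).filter (fun t : ℕ × ℕ =>
      RA ρ d θ κ x (t.1 ^ 2 + t.2 ^ 2))).card : ℝ) ≤
      (S₁.card : ℝ) + (S₂.card : ℝ) + (S₃.card : ℝ) := by
    exact_mod_cast hsub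
  have c1' : (S₁.card : ℝ) ≤ ε' * x ^ (1 + β) := by
    rw [hε']
    exact le_trans (by exact_mod_cast c1) a1
  have hfin : ε * 9 ^ (-(1 / ρ)) * x ^ (1 + β) =
      ε' * x ^ (1 + β) + ε' * x ^ (1 + β) + ε' * x ^ (1 + β) := by
    rw [hε']
    ring
  rw [hfin]
  exact hsub'.trans (add_le_add (add_le_add c1' a2) (c3.trans (a3.trans b3)))

end Pool.Agent.TR

namespace Pool.Agent.TR

theorem rare_count : type_of% @rare_count_pr := @rare_count_pr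

end Pool.Agent.TR
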