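import Pool.Agent.Lib_helper97.TRL.A1
import Pool.Agent.Lib_helper10.T2F.BAS
import Pool.Agent.Lib_helper97.TR.Defs
import Pool.Agent.Lib_helper97.TRL.D42
import Pool.Agent.Lib_helper97.TRL.D42A
import Pool.Agent.Lib_helper97.TRL.M42

set_option autoImplicit false

namespace Pool.Agent.TR

open Pool.Agent.T2 Pool.Agent.TF

open Classical in
theorem a3_sum (c : ℝ) {k : ℕ} (hk : k ≠ 0) :
    ∑ r ∈ k.divisors.filter (fun r : ℕ => Squarefree r), c ^ r.primeFactors.card =
      (c + 1) ^ k.primeFactors.card := by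
  have h1 := Nat.sum_divisors_filter_squarefree hk (f := fun r : ℕ => c ^ r.primeFactors.card)
  have e : (UniqueFactorizationMonoid.normalizedFactors k).toFinset = k.primeFactors := by
    rw [Nat.factors_eq]
    rfl
  rw [e] at h1
  have h2 : ∑ r ∈ k.divisors.filter (fun r : ℕ => Squarefree r), c ^ r.primeFactors.card =
      ∑ i ∈ k.primeFactors.powerset, c ^ (i.val.prod).primeFactors.card := by
    convert h1
  rw [h2, ← Finset.sum_pow_mul_eq_add_pow]
  refine Finset.sum_congr rfl fun i hi => ?_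
  rw [Finset.mem_powerset] at hi
  rw [one_pow, mul_one]
  congr 2
  have h3 : i.val.prod = ∏ p ∈ i, p := by
    rw [Finset.prod_val]
    rfl
  rw [h3]
  exact Nat.primeFactors_prod fun p hp => Nat.prime_of_mem_primeFactors (hi hp)

theorem hs_large_pr {W : ℝ} {r q : ℕ} (hr : Squarefree r) (hq : q.Prime) (hqr : q ∣ r)
    (hW : W < (q : ℝ)) (hrW : (r : ℝ) ≤ q * W) : hs W r = -(-1 : ℝ) ^ r.primeFactors.card := by
  classical
  obtain ⟨k, rfl⟩ := hqr
  have hk0 : k ≠ 0 := by
    rintro rfl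
    exact hr.ne_zero (by simp)
  have hk : Squarefree k := Squarefree.squarefree_of_dvd (Dvd.intro_left q rfl) hr
  have hcop : Nat.Coprime q k := by
    rw [hq.coprime_iff_not_dvd]
    intro h
    have h2 : q * q ∣ q * k := Nat.mul_dvd_mul_left q h
    exact hq.one_lt.ne' (Nat.isUnit_iff.1 (hr q h2))
  have hq0 : (0 : ℝ) < q := by exact_mod_cast hq.pos
  have hkW : (k : ℝ) ≤ W := by
    push_cast at hrW
    exact le_of_mul_le_mul_left hrW hq0
  have hset : (q * k).divisors.filter (fun r : ℕ => Squarefree r ∧ (r : ℝ) ≤ W) =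
      k.divisors.filter (fun r : ℕ => Squarefree r) := by
    ext d
    rw [Finset.mem_filter, Finset.mem_filter, Nat.mem_divisors, Nat.mem_divisors]
    constructor
    · rintro ⟨⟨h1, -⟩, h3, h4⟩
      refine ⟨⟨?_, hk0⟩, h3⟩
      have hnd : ¬ q ∣ d := by
        intro h
        have hd0 : 0 < d := Nat.pos_of_ne_zero h3.ne_zero
        have h5 : (q : ℝ) ≤ d := by exact_mod_cast Nat.le_of_dvd hd0 h
        linarith
      have h6 : Nat.Coprime d q := ((hq.coprime_iff_not_dvd).2 hnd).symm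
      exact h6.dvd_of_dvd_mul_left h1
    · rintro ⟨⟨h1, -⟩, h3⟩
      refine ⟨⟨Dvd.dvd.mul_left h1 q, mul_ne_zero hq.ne_zero hk0⟩, h3, ?_⟩
      have h5 : (d : ℝ) ≤ k := by exact_mod_cast Nat.le_of_dvd (Nat.pos_of_ne_zero hk0) h1
      linarith
  have h7 : hs W (q * k) = (-2 + 1 : ℝ) ^ k.primeFactors.card := by
    rw [← a3_sum (-2) hk0]
    unfold hs
    apply Finset.sum_congr _ fun _ _ => rfl
    convert hset
  have h8 : (q * k).primeFactors.card = k.primeFactors.card + 1 := by
    rw [hcop.primeFactors_mul, Finset.card_union_of_disjoint, hq.primeFactors,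
      Finset.card_singleton, add_comm]
    exact Nat.Coprime.disjoint_primeFactors hcop
  rw [h7, h8]
  norm_num [pow_succ]

theorem hs_bound_pr (W : ℝ) {k : ℕ} (hk : k ≠ 0) : |hs W k| ≤ 3 ^ k.primeFactors.card := by
  classical
  unfold hs
  calc |∑ r ∈ k.divisors.filter (fun r : ℕ => Squarefree r ∧ (r : ℝ) ≤ W),
        (-2 : ℝ) ^ r.primeFactors.card| ≤
        ∑ r ∈ k.divisors.filter (fun r : ℕ => Squarefree r ∧ (r : ℝ) ≤ W),
        |(-2 : ℝ) ^ r.primeFactors.card| := Finset.abs_sum_le_sum_abs _ _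
    _ = ∑ r ∈ k.divisors.filter (fun r : ℕ => Squarefree r ∧ (r : ℝ) ≤ W),
        (2 : ℝ) ^ r.primeFactors.card := by
      refine Finset.sum_congr rfl fun r _ => ?_
      rw [abs_pow]
      norm_num
    _ ≤ ∑ r ∈ k.divisors.filter (fun r : ℕ => Squarefree r), (2 : ℝ) ^ r.primeFactors.card := by
      refine Finset.sum_le_sum_of_subset_of_nonneg ?_ fun _ _ _ => by positivity
      intro r hr
      rw [Finset.mem_filter] at hr ⊢
      exact ⟨hr.1, hr.2.1⟩
    _ = (2 + 1 : ℝ) ^ k.primeFactors.card := a3_sum 2 hk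
    _ = 3 ^ k.primeFactors.card := by norm_num

theorem lam_parts_pr {R : ℝ} {m : ℕ} (hm : m ≠ 0) (hr : Squarefree (rg R m)) :
    lam m = lam (sm R m) * (-1 : ℝ) ^ (rg R m).primeFactors.card := by
  have h1 := sm_mul_rg R hm
  have h2 : lam m = lam (sm R m) * lam (rg R m) := by
    rw [← lam_mul, h1]
  rw [h2]
  congr 1
  unfold lam
  rw [if_neg (rg_ne R m)]
  congr 1
  rw [← (ArithmeticFunction.cardDistinctFactors_eq_cardFactors_iff_squarefree (rg_ne R m)).2 hr]
  rfl

end Pool.Agent.TR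

namespace Pool.Agent.TR

theorem hs_large : type_of% @hs_large_pr := @hs_large_pr
theorem hs_bound : type_of% @hs_bound_pr := @hs_bound_pr
theorem lam_parts : type_of% @lam_parts_pr := @lam_parts_pr

end Pool.Agent.TR
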