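import Pool.Agent.Lib_helper10.T2F.BAS
import Pool.Agent.Lib_helper97.TR.Defs
import Pool.Agent.Lib_helper97.TRL.D42
import Pool.Agent.Lib_helper97.TRL.D42A
import Pool.Agent.Lib_helper97.TRL.M42

set_option autoImplicit false

namespace Pool.Agent.TR

open Pool.Agent.T2 Pool.Agent.TF

theorem ty_card_pr (h : ℝ) (u : ℕ) : Multiset.card (ty h u) = u.primeFactors.card := by
  unfold ty
  rw [Multiset.card_map]
  rfl

theorem ty_mul_pr (h : ℝ) {u v : ℕ} (hu : u ≠ 0) (hv : v ≠ 0) (huv : Nat.Coprime u v) :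
    ty h (u * v) = ty h u + ty h v := by
  unfold ty
  have hd : Disjoint u.primeFactors v.primeFactors := huv.disjoint_primeFactors
  rw [Nat.primeFactors_mul hu hv, ← Finset.disjUnion_eq_union _ _ hd, Finset.disjUnion_val,
    Multiset.map_add]

theorem a4_sum (h : ℝ) (u : ℕ) :
    (((ty h u).sum : ℕ) : ℝ) = ∑ p ∈ u.primeFactors, (idx h p : ℝ) := by
  have h1 : (ty h u).sum = ∑ p ∈ u.primeFactors, idx h p := rfl
  rw [h1]
  push_cast
  rfl

theorem a4_log {u : ℕ} (hu : Squarefree u) :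
    Real.log (u : ℝ) = ∑ p ∈ u.primeFactors, Real.log (p : ℝ) := by
  have h1 : ((∏ p ∈ u.primeFactors, p : ℕ) : ℝ) = (u : ℝ) := by
    rw [Nat.prod_primeFactors_of_squarefree hu]
  rw [← h1]
  push_cast
  rw [Real.log_prod]
  intro p hp
  have := (Nat.prime_of_mem_primeFactors hp).pos
  positivity

/-- `h idx ≤ log p < h (idx + 1)`, and a squarefree number is the product of its primes -/
theorem ty_size_pr {h : ℝ} (hh : 0 < h) {u : ℕ} (hu : Squarefree u) :
    Real.exp (h * ((ty h u).sum : ℕ)) ≤ (u : ℝ) ∧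
      (u : ℝ) ≤ Real.exp (h * (((ty h u).sum : ℕ) + (Multiset.card (ty h u) : ℕ))) := by
  have hu0 : (0 : ℝ) < u := by
    have := Nat.pos_of_ne_zero hu.ne_zero
    exact_mod_cast this
  have key : ∀ p ∈ u.primeFactors, h * (idx h p : ℝ) ≤ Real.log (p : ℝ) ∧
      Real.log (p : ℝ) ≤ h * ((idx h p : ℝ) + 1) := by
    intro p hp
    have hp1 : (1 : ℝ) ≤ p := by exact_mod_cast (Nat.prime_of_mem_primeFactors hp).one_lt.le
    have hl : 0 ≤ Real.log (p : ℝ) := Real.log_nonneg hp1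
    have h0 : 0 ≤ Real.log (p : ℝ) / h := by positivity
    have h1 : ((idx h p : ℕ) : ℝ) ≤ Real.log (p : ℝ) / h := Nat.floor_le h0
    have h2 : Real.log (p : ℝ) / h < ((idx h p : ℕ) : ℝ) + 1 := Nat.lt_floor_add_one _
    rw [le_div_iff₀ hh] at h1
    rw [div_lt_iff₀ hh] at h2
    constructor <;> nlinarith
  have hc : ((Multiset.card (ty h u) : ℕ) : ℝ) = ∑ p ∈ u.primeFactors, (1 : ℝ) := by
    rw [ty_card_pr]
    simp
  constructor
  · rw [← Real.exp_log hu0, a4_log hu, a4_sum, Finset.mul_sum]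
    apply Real.exp_le_exp.2
    exact Finset.sum_le_sum (fun p hp => (key p hp).1)
  · rw [← Real.exp_log hu0, a4_log hu, a4_sum, hc, ← Finset.sum_add_distrib, Finset.mul_sum]
    apply Real.exp_le_exp.2
    exact Finset.sum_le_sum (fun p hp => (key p hp).2)

end Pool.Agent.TR

namespace Pool.Agent.TR

theorem ty_card : type_of% @ty_card_pr := @ty_card_pr
theorem ty_mul : type_of% @ty_mul_pr := @ty_mul_pr
theorem ty_size : type_of% @ty_size_pr := @ty_size_pr

end Pool.Agent.TR
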