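import Pool.Agent.Lib_helper97.TRL.A4
import Pool.Agent.Lib_helper10.T2F.BAS
import Pool.Agent.Lib_helper97.TR.Defs
import Pool.Agent.Lib_helper97.TRL.D42
import Pool.Agent.Lib_helper97.TRL.D42A
import Pool.Agent.Lib_helper97.TRL.M42

/-!
# TR, block A6: the error term as a function of the type
-/

set_option autoImplicit false

namespace Pool.Agent.TR

open Pool.Agent.T2 Pool.Agent.TF

theorem a6_powerset_map (f : ℕ → ℕ) (s : Multiset ℕ) :
    (s.map f).powerset = s.powerset.map (Multiset.map f) := by
  induction s using Multiset.induction_on with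
  | empty => simp
  | cons a s ih =>
    rw [Multiset.map_cons, Multiset.powerset_cons, Multiset.powerset_cons, ih, Multiset.map_add,
      Multiset.map_map, Multiset.map_map]
    congr 1
    apply Multiset.map_congr rfl
    intro t _
    simp

theorem a6_sum_powerset (s : Finset ℕ) (g : Multiset ℕ → ℝ) :
    (s.val.powerset.map g).sum = ∑ i ∈ s.powerset, g i.val := by
  rw [Finset.sum_eq_multiset_sum]
  congr 1
  have h : s.powerset.val.map Finset.val = s.val.powerset := by
    show (Multiset.pmap Finset.mk s.val.powerset _).map Finset.val = _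
    rw [Multiset.map_pmap]
    exact (Multiset.pmap_eq_map _ _ _ _).trans (Multiset.map_id _)
  rw [← h, Multiset.map_map]
  rfl

theorem a6_sum_sqf {r : ℕ} (hr : r ≠ 0) (f : ℕ → ℝ) :
    ∑ v ∈ r.divisors.filter Squarefree, f v = ∑ i ∈ r.primeFactors.powerset, f (∏ p ∈ i, p) := by
  rw [Nat.sum_divisors_filter_squarefree hr]
  have h : (UniqueFactorizationMonoid.normalizedFactors r).toFinset = r.primeFactors := by
    rw [Nat.factors_eq]
    rfl
  rw [h]
  apply Finset.sum_congr rfl
  intro i _
  rw [Finset.prod_val]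
  rfl

theorem hs_type_pr {h W : ℝ} (hh : 0 < h) (hW : 1 ≤ W) {r : ℕ} (hr : Squarefree r)
    (hno : ∀ v ∈ r.divisors, ¬ (W < (v : ℝ) ∧
      (v : ℝ) ≤ W * Real.exp (h * (r.primeFactors.card : ℕ)))) :
    (-1 : ℝ) ^ r.primeFactors.card + hs W r = GA (Real.log W / h) (ty h r) := by
  classical
  have hr0 : r ≠ 0 := hr.ne_zero
  have hW0 : 0 < W := by linarith
  unfold GA
  rw [ty_card]
  congr 1
  have e1 : hs W r = ∑ v ∈ r.divisors.filter Squarefree,
      (if (v : ℝ) ≤ W then (-2 : ℝ) ^ v.primeFactors.card else 0) := by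
    unfold hs
    rw [← Finset.sum_filter, Finset.filter_filter]
  rw [e1, a6_sum_sqf hr0]
  unfold ty
  rw [a6_powerset_map, Multiset.map_map, a6_sum_powerset]
  apply Finset.sum_congr rfl
  intro i hi
  rw [Finset.mem_powerset] at hi
  have hip : ∀ p ∈ i, p.Prime := fun p hp => Nat.prime_of_mem_primeFactors (hi hp)
  have hpf : (∏ p ∈ i, p).primeFactors = i := Nat.primeFactors_prod hip
  have hdvd : (∏ p ∈ i, p) ∣ r := by
    rw [← Nat.prod_primeFactors_of_squarefree hr]
    exact Finset.prod_dvd_prod_of_subset _ _ _ hi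
  set v : ℕ := ∏ p ∈ i, p with hv
  have hvs : Squarefree v := hr.squarefree_of_dvd hdvd
  have hty : ty h v = i.val.map (idx h) := by
    unfold ty
    rw [hpf]
  have hsz := ty_size hh hvs
  have hcard : Multiset.card (ty h v) = i.card := by rw [ty_card, hpf]
  have hcr : (i.card : ℝ) ≤ r.primeFactors.card := by exact_mod_cast Finset.card_le_card hi
  rw [hcard] at hsz
  have hiff : (v : ℝ) ≤ W ↔ (((ty h v).sum : ℕ) : ℝ) ≤ Real.log W / h := by
    rw [le_div_iff₀ hh]
    constructor
    · intro h1
      have h2 := hsz.1.trans h1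
      rw [← Real.le_log_iff_exp_le hW0] at h2
      linarith
    · intro h1
      by_contra h2
      have h2' : W < (v : ℝ) := not_le.1 h2
      have h3 : W * Real.exp (h * (r.primeFactors.card : ℕ)) < (v : ℝ) := by
        by_contra h4
        exact hno v (Nat.mem_divisors.2 ⟨hdvd, hr0⟩) ⟨h2', not_lt.1 h4⟩
      have h5 := h3.trans_le hsz.2
      have h6 : Real.exp (h * (((ty h v).sum : ℕ) + (i.card : ℕ))) ≤
          W * Real.exp (h * (r.primeFactors.card : ℕ)) := by
        have h7 : W = Real.exp (Real.log W) := (Real.exp_log hW0).symm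
        rw [h7, ← Real.exp_add]
        apply Real.exp_le_exp.2
        have h8 : h * (i.card : ℝ) ≤ h * (r.primeFactors.card : ℝ) :=
          mul_le_mul_of_nonneg_left hcr hh.le
        linarith
      exact absurd h5 (not_lt.2 h6)
  show (if (v : ℝ) ≤ W then (-2 : ℝ) ^ v.primeFactors.card else 0) =
    if (((i.val.map (idx h)).sum : ℕ) : ℝ) ≤ Real.log W / h then
      (-2 : ℝ) ^ Multiset.card (i.val.map (idx h)) else 0
  rw [← hty, hcard, hpf]
  by_cases hc : (v : ℝ) ≤ W
  · rw [if_pos hc, if_pos (hiff.1 hc)]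
  · rw [if_neg hc, if_neg fun hc' => hc (hiff.2 hc')]

theorem a6_pow (t : Multiset ℕ) :
    (t.powerset.map (fun s : Multiset ℕ => (2 : ℝ) ^ Multiset.card s)).sum =
      3 ^ Multiset.card t := by
  induction t using Multiset.induction_on with
  | empty => simp
  | cons a s ih =>
    rw [Multiset.powerset_cons, Multiset.map_add, Multiset.sum_add, Multiset.map_map, ih,
      Multiset.card_cons]
    have e : ((fun s : Multiset ℕ => (2 : ℝ) ^ Multiset.card s) ∘ Multiset.cons a) =
        fun s : Multiset ℕ => 2 * (2 : ℝ) ^ Multiset.card s := by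
      funext s
      simp only [Function.comp, Multiset.card_cons]
      ring
    rw [e, Multiset.sum_map_mul_left, ih]
    ring

theorem gs_bound_pr (η₀ θ top tot : ℝ) (t : Multiset ℕ) :
    |GS η₀ θ top tot t| ≤ 1 + 3 ^ Multiset.card t := by
  classical
  have h1 : |GA (θ / η₀) t| ≤ 1 + 3 ^ Multiset.card t := by
    unfold GA
    refine (abs_add_le _ _).trans (add_le_add ?_ ?_)
    · rw [abs_pow, abs_neg, abs_one, one_pow]
    · refine Multiset.abs_sum_le_sum_abs.trans ?_
      rw [Multiset.map_map, ← a6_pow]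
      apply Multiset.sum_map_le_sum_map
      intro s _
      simp only [Function.comp]
      split_ifs
      · rw [abs_pow]
        norm_num
      · rw [abs_zero]
        positivity
  unfold GS
  split_ifs
  · exact h1
  · rw [abs_zero]
    positivity




end Pool.Agent.TR

namespace Pool.Agent.TR

theorem hs_type : type_of% @hs_type_pr := @hs_type_pr
theorem gs_bound : type_of% @gs_bound_pr := @gs_bound_pr

end Pool.Agent.TR
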