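import Pool.Agent.Lib_helper97.TRL.A1
import Pool.Agent.Lib_helper97.TRL.A4
import Pool.Agent.Lib_helper10.T2F.BAS
import Pool.Agent.Lib_helper97.TR.Defs
import Pool.Agent.Lib_helper97.TRL.D42
import Pool.Agent.Lib_helper97.TRL.D42A
import Pool.Agent.Lib_helper97.TRL.M42

/-!
# Block A9 (project TR): the number of prime factors, and the types which occur
-/

set_option autoImplicit false

namespace Pool.Agent.TR

open Pool.Agent.T2 Pool.Agent.TF

theorem a9_pow_le {R : ℝ} (hR : 0 ≤ R) {m : ℕ} (hm : m ≠ 0) :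
    R ^ (rg R m).primeFactors.card ≤ (m : ℝ) := by
  have h1 : (∏ p ∈ (rg R m).primeFactors, p) ≤ rg R m :=
    Nat.le_of_dvd (Nat.pos_of_ne_zero (rg_ne R m)) (Nat.prod_primeFactors_dvd _)
  have h2 : rg R m ≤ m :=
    Nat.le_of_dvd (Nat.pos_of_ne_zero hm) (Dvd.intro_left _ (sm_mul_rg R hm))
  have h3 : (∏ _p ∈ (rg R m).primeFactors, R) ≤ ∏ p ∈ (rg R m).primeFactors, (p : ℝ) := by
    refine Finset.prod_le_prod (fun _ _ => hR) fun p hp => ?_
    exact ((rg_rough R m).2 p (Nat.prime_of_mem_primeFactors hp)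
      (Nat.dvd_of_mem_primeFactors hp)).le
  rw [Finset.prod_const] at h3
  refine h3.trans ?_
  rw [← Nat.cast_prod]
  exact_mod_cast h1.trans h2

theorem a9_dvd_le {R : ℝ} {m p : ℕ} (hm : m ≠ 0) (hp : p ∈ (rg R m).primeFactors) :
    1 ≤ p ∧ p ≤ m := by
  have h2 : rg R m ∣ m := Dvd.intro_left _ (sm_mul_rg R hm)
  exact ⟨(Nat.prime_of_mem_primeFactors hp).one_lt.le, Nat.le_of_dvd (Nat.pos_of_ne_zero hm)
    ((Nat.dvd_of_mem_primeFactors hp).trans h2)⟩

theorem a9_tys {N N₁ : ℕ} {t : Multiset ℕ} (h1 : Multiset.card t ≤ N) (h2 : ∀ i ∈ t, i ≤ N₁) :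
    t ∈ Tys N N₁ := by
  unfold Tys
  rw [Multiset.mem_toFinset, Multiset.mem_powerset, Multiset.le_iff_count]
  intro a
  by_cases ha : a ∈ t
  · rw [Multiset.count_nsmul, Multiset.count_eq_one_of_mem (Multiset.nodup_range _)
      (Multiset.mem_range.2 (Nat.lt_succ_of_le (h2 a ha))), mul_one]
    exact (Multiset.count_le_card a t).trans h1
  · rw [Multiset.count_eq_zero_of_notMem ha]
    exact Nat.zero_le _

/-- `R^card ≤ rg R m ≤ 2 x²`; the cells are at most `(2 log x + log 2)/h` -/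
theorem type_mem_pr (ρ η₀ : ℝ) (hρ : 0 < ρ) (hη : 0 < η₀) : ∃ (N N₁ : ℕ) (x₀ : ℝ),
    ∀ x : ℝ, x₀ ≤ x → ∀ m : ℕ, m ≠ 0 → (m : ℝ) ≤ 2 * x ^ 2 →
      ty (η₀ * Real.log x) (rg (x ^ ρ) m) ∈ Tys N N₁ ∧
        ((rg (x ^ ρ) m).primeFactors.card : ℝ) ≤ 2 / ρ + 1 ∧
        (rg (x ^ ρ) m).primeFactors.card ≤ N := by
  refine ⟨⌊2 / ρ + 1⌋₊, ⌊3 / η₀⌋₊, max 2 (Real.exp (1 / ρ)), ?_⟩
  intro x hx m hm hm2
  have hx2 : 2 ≤ x := (le_max_left _ _).trans hx
  have hx0 : 0 < x := by linarith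
  have hlog2 : Real.log 2 ≤ Real.log x := Real.log_le_log (by norm_num) hx2
  have hlog2' : 0 < Real.log 2 := Real.log_pos (by norm_num)
  have hlog2'' : Real.log 2 ≤ 1 := by
    have := Real.log_two_lt_d9
    linarith
  have hlogρ : 1 / ρ ≤ Real.log x := by
    rw [Real.le_log_iff_exp_le hx0]
    exact (le_max_right _ _).trans hx
  have hlx : 0 < Real.log x := by linarith
  have hlogm : ∀ y : ℝ, 0 < y → y ≤ 2 * x ^ 2 → Real.log y ≤ Real.log 2 + 2 * Real.log x := by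
    intro y hy0 hy
    calc Real.log y ≤ Real.log (2 * x ^ 2) := Real.log_le_log hy0 hy
      _ = Real.log 2 + 2 * Real.log x := by
        rw [Real.log_mul (by norm_num) (by positivity), Real.log_pow]
        norm_num
  have hcard : ((rg (x ^ ρ) m).primeFactors.card : ℝ) ≤ 2 / ρ + 1 := by
    have h1 := a9_pow_le (R := x ^ ρ) (by positivity) hm
    set c := (rg (x ^ ρ) m).primeFactors.card with hc
    have h2 := hlogm ((x ^ ρ) ^ c) (by positivity) (h1.trans hm2)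
    rw [Real.log_pow, Real.log_rpow hx0] at h2
    have h3 : ρ * Real.log x * c ≤ ρ * Real.log x * (2 / ρ + 1) := by
      have e1 : ρ * Real.log x * (2 / ρ + 1) = 2 * Real.log x + ρ * Real.log x := by
        field_simp
      have e2 : 1 ≤ ρ * Real.log x := by
        have := mul_le_mul_of_nonneg_left hlogρ hρ.le
        rwa [mul_one_div_cancel hρ.ne'] at this
      rw [e1]
      nlinarith
    exact le_of_mul_le_mul_left h3 (by positivity)
  have hcN : (rg (x ^ ρ) m).primeFactors.card ≤ ⌊2 / ρ + 1⌋₊ := Nat.le_floor hcard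
  refine ⟨?_, hcard, hcN⟩
  refine a9_tys (by rw [ty_card]; exact hcN) ?_
  intro i hi
  unfold ty at hi
  rw [Multiset.mem_map] at hi
  obtain ⟨p, hp, rfl⟩ := hi
  have hp' : p ∈ (rg (x ^ ρ) m).primeFactors := hp
  obtain ⟨p1, p2⟩ := a9_dvd_le hm hp'
  unfold idx
  refine Nat.floor_mono ?_
  have h1 : Real.log p ≤ 3 * Real.log x := by
    have h2 := hlogm p (by exact_mod_cast p1) (le_trans (by exact_mod_cast p2) hm2)
    linarith
  rw [div_le_div_iff₀ (by positivity) hη]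
  nlinarith

end Pool.Agent.TR

namespace Pool.Agent.TR

theorem type_mem : type_of% @type_mem_pr := @type_mem_pr

end Pool.Agent.TR
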