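import Pool.Agent.Lib_helper97.TRL.A1
import Pool.Agent.Lib_helper97.TRL.A3
import Pool.Agent.Lib_helper97.TRL.A4
import Pool.Agent.Lib_helper97.TRL.A6
import Pool.Agent.Lib_helper97.TRL.A9
import Pool.Agent.Lib_helper10.T2F.BAS
import Pool.Agent.Lib_helper97.TR.Defs
import Pool.Agent.Lib_helper97.TRL.D42
import Pool.Agent.Lib_helper97.TRL.D42A
import Pool.Agent.Lib_helper97.TRL.M42

/-!
# Project TR: block A15, the error term away from the rare pairs (helper61)
-/

set_option autoImplicit false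

namespace Pool.Agent.TR

open Pool.Agent.T2 Pool.Agent.TF

/-- the rough part is squarefree if no square of a large prime divides `m` -/
private theorem a15_sqf {R : ℝ} {m : ℕ} (hm : m ≠ 0)
    (h : ¬ ∃ p : ℕ, p.Prime ∧ R < (p : ℝ) ∧ p ^ 2 ∣ m) : Squarefree (rg R m) := by
  rw [Nat.squarefree_iff_prime_squarefree]
  intro p hp hdiv
  apply h
  refine ⟨p, hp, (rg_rough R m).2 p hp ((Dvd.intro _ rfl).trans hdiv), ?_⟩
  have h1 : rg R m ∣ m := ⟨sm R m, by rw [mul_comm]; exact (sm_mul_rg R hm).symm⟩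
  rw [pow_two]
  exact hdiv.trans h1

/-- divisors of rough numbers are rough -/
private theorem a15_rough {R : ℝ} {u v : ℕ} (hu : Rough R u) (h : v ∣ u) : Rough R v :=
  ⟨ne_zero_of_dvd_ne_zero hu.1 h, fun p hp hpv => hu.2 p hp (hpv.trans h)⟩

theorem err_formula_pr {ρ d θ κ η₀ top tot δ : ℝ} (hρ : 0 < ρ) (hρθ : ρ < θ) (hd : 0 < d)
    (hθtop : θ < top) (h2 : 2 < top + θ) (hη : 0 < η₀) (hηd : η₀ * (2 / ρ + 1) ≤ d)
    (hηκ : η₀ * (2 / ρ + 1) ≤ κ) (htot : tot + 3 * d ≤ 2) (hδ : 0 < δ) (hδ1 : δ ≤ 1) :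
    ∃ x₀ : ℝ, ∀ x : ℝ, x₀ ≤ x → ∀ n b : ℕ, 1 ≤ b → (b : ℝ) ≤ x → δ * x ≤ (n : ℝ) → (n : ℝ) ≤ x →
      ¬ RA ρ d θ κ x (n ^ 2 + b ^ 2) →
      lam (n ^ 2 + b ^ 2) - TI (x ^ ρ) (x ^ θ) (x ^ d) (n ^ 2 + b ^ 2) =
        EH (x ^ ρ) (η₀ * Real.log x) η₀ θ top tot (n ^ 2 + b ^ 2) := by
  obtain ⟨N, N₁, x₁, hty⟩ := type_mem ρ η₀ hρ hη
  refine ⟨max x₁ (max 3 (max ((2 : ℝ) ^ (1 / (top + θ - 2))) ((1 / δ ^ 2) ^ (1 / d)))),
    fun x hx n b hb hbx hn hnx hRA => ?_⟩
  have hx1 : x₁ ≤ x := le_trans (le_max_left _ _) hx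
  have hx3 : (3 : ℝ) ≤ x := le_trans (le_trans (le_max_left _ _) (le_max_right _ _)) hx
  have hxa : (2 : ℝ) ^ (1 / (top + θ - 2)) ≤ x :=
    le_trans (le_trans (le_trans (le_max_left _ _) (le_max_right _ _)) (le_max_right _ _)) hx
  have hxb : (1 / δ ^ 2) ^ (1 / d) ≤ x :=
    le_trans (le_trans (le_trans (le_max_right _ _) (le_max_right _ _)) (le_max_right _ _)) hx
  have hx0 : 0 < x := by linarith
  have hx1' : 1 < x := by linarith
  have hlog : 0 < Real.log x := Real.log_pos hx1'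
  set m : ℕ := n ^ 2 + b ^ 2 with hmdef
  have hm : m ≠ 0 := by
    have : 0 < b ^ 2 := by positivity
    omega
  have hmx : (m : ℝ) ≤ 2 * x ^ 2 := by
    rw [hmdef]
    push_cast
    have h1 : (n : ℝ) ^ 2 ≤ x ^ 2 := pow_le_pow_left₀ (Nat.cast_nonneg _) hnx 2
    have h2 : (b : ℝ) ^ 2 ≤ x ^ 2 := pow_le_pow_left₀ (Nat.cast_nonneg _) hbx 2
    linarith
  have hmlow : δ ^ 2 * x ^ 2 ≤ (m : ℝ) := by
    rw [hmdef]
    push_cast
    have h1 : (δ * x) ^ 2 ≤ (n : ℝ) ^ 2 := pow_le_pow_left₀ (by positivity) hn 2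
    have h2 : 0 ≤ (b : ℝ) ^ 2 := by positivity
    nlinarith
  -- the three conditions
  unfold RA at hRA
  push Not at hRA
  obtain ⟨hsm, hsq, hmid⟩ := hRA
  set R : ℝ := x ^ ρ with hR
  set h : ℝ := η₀ * Real.log x with hhdef
  have hh : 0 < h := by positivity
  have hrsq : Squarefree (rg R m) := a15_sqf hm (by
    rintro ⟨p, hp, hpR, hdiv⟩
    exact hsq p hp hpR hdiv)
  obtain ⟨-, hcard, -⟩ := hty x hx1 m hm hmx
  set r := rg R m with hr
  have hrm : (sm R m : ℝ) * r = m := by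
    rw [hr]
    exact_mod_cast sm_mul_rg R hm
  have hrne : r ≠ 0 := rg_ne R m
  have hr1 : (1 : ℝ) ≤ r := by exact_mod_cast Nat.one_le_iff_ne_zero.mpr hrne
  have hsm1 : (1 : ℝ) ≤ (sm R m : ℝ) := by
    exact_mod_cast Nat.one_le_iff_ne_zero.mpr (sm_ne R m)
  have hrlem : (r : ℝ) ≤ m := by
    rw [← hrm]
    nlinarith
  have hrdvd : r ∣ m := ⟨sm R m, by rw [mul_comm, hr]; exact (sm_mul_rg R hm).symm⟩
  have hcard' : η₀ * (r.primeFactors.card : ℝ) ≤ d :=
    le_trans (mul_le_mul_of_nonneg_left hcard hη.le) hηd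
  -- the left side
  have hW1 : (1 : ℝ) ≤ x ^ θ := Real.one_le_rpow hx1'.le (by linarith)
  have hlogW : Real.log (x ^ θ) / h = θ / η₀ := by
    rw [Real.log_rpow hx0, hhdef]
    field_simp
  have hTI : TI R (x ^ θ) (x ^ d) m = -lam (sm R m) * hs (x ^ θ) r := by
    unfold TI
    rw [if_pos hsm]
  have hlam := lam_parts hm hrsq
  have hleft : lam m - TI R (x ^ θ) (x ^ d) m =
      lam (sm R m) * ((-1 : ℝ) ^ r.primeFactors.card + hs (x ^ θ) r) := by
    rw [hTI, hlam]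
    ring
  have hEH : EH R h η₀ θ top tot m = lam (sm R m) * GS η₀ θ top tot (ty h r) := by
    unfold EH
    rw [if_pos hrsq]
  rw [hleft, hEH]
  congr 1
  -- `hs_type`
  have hexp : Real.exp (h * (r.primeFactors.card : ℕ)) ≤ x ^ κ := by
    rw [Real.rpow_def_of_pos hx0]
    apply Real.exp_le_exp.mpr
    have h1 : η₀ * (r.primeFactors.card : ℝ) ≤ κ :=
      le_trans (mul_le_mul_of_nonneg_left hcard hη.le) hηκ
    calc h * (r.primeFactors.card : ℕ) = Real.log x * (η₀ * (r.primeFactors.card : ℝ)) := by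
          rw [hhdef]; ring
      _ ≤ Real.log x * κ := mul_le_mul_of_nonneg_left h1 hlog.le
  have htype := hs_type hh hW1 hrsq (by
    intro v hv hcon
    have hvr : v ∣ r := Nat.dvd_of_mem_divisors hv
    have hvm : v ∈ m.divisors := Nat.mem_divisors.mpr ⟨hvr.trans hrdvd, hm⟩
    have h1 := hmid v hvm (a15_rough (rg_rough R m) hvr) (hrsq.squarefree_of_dvd hvr) hcon.1
    have h2 : (v : ℝ) ≤ x ^ (θ + κ) := by
      rw [Real.rpow_add hx0]
      exact hcon.2.trans (mul_le_mul_of_nonneg_left hexp (by linarith))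
    exact absurd h2 (not_le.mpr h1))
  rw [hlogW] at htype
  -- the total
  have htotal : tot ≤ η₀ * (((ty h r).sum : ℕ) : ℝ) := by
    have h1 := (ty_size hh hrsq).2
    rw [ty_card] at h1
    have h3 : Real.log r ≤ h * (((ty h r).sum : ℕ) + (r.primeFactors.card : ℕ)) := by
      have := Real.log_le_log (by linarith) h1
      rwa [Real.log_exp] at this
    -- lower bound of `log r`
    have h4 : δ ^ 2 * x ^ 2 ≤ x ^ d * r := by
      calc δ ^ 2 * x ^ 2 ≤ (m : ℝ) := hmlow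
        _ = (sm R m : ℝ) * r := hrm.symm
        _ ≤ x ^ d * r := mul_le_mul_of_nonneg_right hsm (by linarith)
    have h5 : 1 / δ ^ 2 ≤ x ^ d := by
      have h6 := Real.rpow_le_rpow (by positivity) hxb hd.le
      rw [← Real.rpow_mul (by positivity), one_div_mul_cancel hd.ne', Real.rpow_one] at h6
      exact h6
    have h7 : x ^ 2 ≤ x ^ d * (x ^ d * r) := by
      have h8 : 1 ≤ δ ^ 2 * x ^ d := by
        have h9 : 0 < δ ^ 2 := by positivity
        rw [div_le_iff₀ h9] at h5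
        linarith
      have hx2 : 0 ≤ x ^ 2 := by positivity
      calc x ^ 2 = 1 * x ^ 2 := (one_mul _).symm
        _ ≤ (δ ^ 2 * x ^ d) * x ^ 2 := mul_le_mul_of_nonneg_right h8 hx2
        _ = x ^ d * (δ ^ 2 * x ^ 2) := by ring
        _ ≤ x ^ d * (x ^ d * r) := mul_le_mul_of_nonneg_left h4 (by positivity)
    have h10 : 2 * Real.log x ≤ 2 * d * Real.log x + Real.log r := by
      have hxd : 0 < x ^ d := Real.rpow_pos_of_pos hx0 _
      have h11 := Real.log_le_log (by positivity) h7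
      rw [Real.log_mul hxd.ne' (by positivity), Real.log_mul hxd.ne' (by positivity),
        Real.log_rpow hx0, Real.log_pow] at h11
      push_cast at h11
      linarith
    have h12 : (2 - 2 * d) * Real.log x ≤
        (η₀ * (((ty h r).sum : ℕ) : ℝ) + η₀ * (r.primeFactors.card : ℝ)) * Real.log x := by
      have h13 : h * (((ty h r).sum : ℕ) + (r.primeFactors.card : ℕ)) =
          (η₀ * (((ty h r).sum : ℕ) : ℝ) + η₀ * (r.primeFactors.card : ℝ)) * Real.log x := by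
        rw [hhdef]; ring
      rw [h13] at h3
      linarith
    have h14 := le_of_mul_le_mul_right h12 hlog
    linarith
  unfold GS
  by_cases hall : ∀ i ∈ ty h r, (i : ℝ) * η₀ < top
  · rw [if_pos ⟨hall, htotal⟩]
    exact htype
  · rw [if_neg (fun hc => hall hc.1)]
    push Not at hall
    obtain ⟨i, hi, hitop⟩ := hall
    unfold ty at hi
    rw [Multiset.mem_map] at hi
    obtain ⟨q, hq, hqi⟩ := hi
    have hq' : q ∈ r.primeFactors := hq
    have hqp : q.Prime := Nat.prime_of_mem_primeFactors hq'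
    have hqr : q ∣ r := Nat.dvd_of_mem_primeFactors hq'
    have hq1 : (1 : ℝ) ≤ q := by exact_mod_cast hqp.one_lt.le
    have hqpos : (0 : ℝ) < q := by linarith
    have hidx : (i : ℝ) ≤ Real.log q / h := by
      rw [← hqi]
      exact Nat.floor_le (div_nonneg (Real.log_nonneg hq1) hh.le)
    have hlogq : top * Real.log x ≤ Real.log q := by
      rw [le_div_iff₀ hh] at hidx
      calc top * Real.log x ≤ ((i : ℝ) * η₀) * Real.log x :=
            mul_le_mul_of_nonneg_right hitop hlog.le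
        _ = (i : ℝ) * h := by rw [hhdef]; ring
        _ ≤ Real.log q := hidx
    have hqx : x ^ top ≤ (q : ℝ) := by
      rw [Real.rpow_def_of_pos hx0, mul_comm]
      calc Real.exp (top * Real.log x) ≤ Real.exp (Real.log q) := Real.exp_le_exp.mpr hlogq
        _ = q := Real.exp_log hqpos
    have hWq : x ^ θ < (q : ℝ) :=
      lt_of_lt_of_le (Real.rpow_lt_rpow_of_exponent_lt hx1' hθtop) hqx
    have hrW : (r : ℝ) ≤ q * x ^ θ := by
      have h20 : (2 : ℝ) ≤ x ^ (top + θ - 2) := by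
        have h21 : 0 < top + θ - 2 := by linarith
        have h22 := Real.rpow_le_rpow (by positivity) hxa h21.le
        rw [← Real.rpow_mul (by norm_num), one_div_mul_cancel h21.ne', Real.rpow_one] at h22
        exact h22
      calc (r : ℝ) ≤ m := hrlem
        _ ≤ 2 * x ^ 2 := hmx
        _ ≤ x ^ (top + θ - 2) * x ^ 2 := mul_le_mul_of_nonneg_right h20 (by positivity)
        _ = x ^ (top + θ - 2) * x ^ (2 : ℝ) := by norm_num
        _ = x ^ (top + θ) := by rw [← Real.rpow_add hx0]; ring_nf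
        _ = x ^ top * x ^ θ := Real.rpow_add hx0 _ _
        _ ≤ q * x ^ θ := mul_le_mul_of_nonneg_right hqx (by linarith)
    rw [hs_large hrsq hqp hqr hWq hrW]
    ring

theorem a15_err_bound {ρ d θ η₀ top tot : ℝ} (hρ : 0 < ρ) (hη : 0 < η₀) :
    ∃ x₀ : ℝ, ∀ x : ℝ, x₀ ≤ x → ∀ m : ℕ, m ≠ 0 → (m : ℝ) ≤ 2 * x ^ 2 →
      |lam m - TI (x ^ ρ) (x ^ θ) (x ^ d) m -
        EH (x ^ ρ) (η₀ * Real.log x) η₀ θ top tot m| ≤ 12 * 9 ^ (1 / ρ) := by
  obtain ⟨N, N₁, x₁, hty⟩ := type_mem ρ η₀ hρ hη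
  refine ⟨x₁, fun x hx m hm hmx => ?_⟩
  obtain ⟨-, hcard, -⟩ := hty x hx m hm hmx
  set R : ℝ := x ^ ρ
  set h : ℝ := η₀ * Real.log x
  set r := rg R m with hr
  have hpow : (3 : ℝ) ^ r.primeFactors.card ≤ 3 * 9 ^ (1 / ρ) := by
    calc (3 : ℝ) ^ r.primeFactors.card = (3 : ℝ) ^ ((r.primeFactors.card : ℕ) : ℝ) :=
          (Real.rpow_natCast _ _).symm
      _ ≤ (3 : ℝ) ^ (2 / ρ + 1) := Real.rpow_le_rpow_of_exponent_le (by norm_num) hcard
      _ = (3 : ℝ) ^ (2 * (1 / ρ)) * 3 := by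
          rw [Real.rpow_add (by norm_num), Real.rpow_one]
          ring_nf
      _ = 3 * 9 ^ (1 / ρ) := by
          rw [Real.rpow_mul (by norm_num)]
          norm_num
          ring
  have hpow1 : (1 : ℝ) ≤ (3 : ℝ) ^ r.primeFactors.card := one_le_pow₀ (by norm_num)
  have h1 : |lam m| ≤ 1 := lam_abs m
  have h2 : |TI R (x ^ θ) (x ^ d) m| ≤ 3 ^ r.primeFactors.card := by
    unfold TI
    split_ifs with hc
    · rw [abs_mul, abs_neg]
      calc |lam (sm R m)| * |hs (x ^ θ) (rg R m)|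
          ≤ 1 * 3 ^ r.primeFactors.card :=
            mul_le_mul (lam_abs _) (hs_bound _ (rg_ne R m)) (abs_nonneg _) zero_le_one
        _ = _ := one_mul _
    · rw [abs_zero]
      positivity
  have h3 : |EH R h η₀ θ top tot m| ≤ 1 + 3 ^ r.primeFactors.card := by
    unfold EH
    split_ifs with hc
    · rw [abs_mul]
      have h4 := gs_bound η₀ θ top tot (ty h (rg R m))
      rw [ty_card] at h4
      calc |lam (sm R m)| * |GS η₀ θ top tot (ty h (rg R m))|
          ≤ 1 * (1 + 3 ^ r.primeFactors.card) :=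
            mul_le_mul (lam_abs _) h4 (abs_nonneg _) zero_le_one
        _ = _ := one_mul _
    · rw [abs_zero]
      positivity
  have h5 : |lam m - TI R (x ^ θ) (x ^ d) m - EH R h η₀ θ top tot m| ≤
      |lam m| + |TI R (x ^ θ) (x ^ d) m| + |EH R h η₀ θ top tot m| := by
    have h6 := abs_sub (lam m - TI R (x ^ θ) (x ^ d) m) (EH R h η₀ θ top tot m)
    have h7 := abs_sub (lam m) (TI R (x ^ θ) (x ^ d) m)
    linarith
  linarith




end Pool.Agent.TR

namespace Pool.Agent.TR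

theorem err_formula : type_of% @err_formula_pr := @err_formula_pr

end Pool.Agent.TR
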