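import Pool.Agent.Lib_helper97.TRL.A1
import Pool.Agent.Lib_helper97.TRL.A3
import Pool.Agent.Lib_helper97.TRL.A4
import Pool.Agent.Lib_helper97.TRL.A6
import Pool.Agent.Lib_helper97.TRL.A9
import Pool.Agent.Lib_helper10.T2F.BAS
import Pool.Agent.Lib_helper97.TR.Defs
import Pool.Agent.Lib_helper97.TRL.D42
import Pool.Agent.Lib_helper97.TRL.D42A
import Pool.Agent.Lib_helper97.TRL.M42

/-!
# Block A15b (project TR): bound of the error term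
-/

set_option autoImplicit false

namespace Pool.Agent.TR

open Pool.Agent.T2 Pool.Agent.TF

theorem a15b_lam (n : ℕ) : |lam n| ≤ 1 := by
  unfold lam
  split_ifs
  · simp
  · rw [abs_pow]
    simp

/-- `hs_bound`, `gs_bound`, `type_mem`: `1 + 3^N + (1 + 3^N) ≤ 4 3^N`, `N ≤ 2/ρ + 1` -/
theorem err_bound_pr {ρ d θ η₀ top tot : ℝ} (hρ : 0 < ρ) (hη : 0 < η₀) :
    ∃ x₀ : ℝ, ∀ x : ℝ, x₀ ≤ x → ∀ m : ℕ, m ≠ 0 → (m : ℝ) ≤ 2 * x ^ 2 →
      |lam m - TI (x ^ ρ) (x ^ θ) (x ^ d) m -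
        EH (x ^ ρ) (η₀ * Real.log x) η₀ θ top tot m| ≤ 12 * 9 ^ (1 / ρ) := by
  obtain ⟨N, N₁, x₀, h⟩ := type_mem ρ η₀ hρ hη
  refine ⟨x₀, fun x hx m hm hm2 => ?_⟩
  obtain ⟨-, hc, -⟩ := h x hx m hm hm2
  set c := (rg (x ^ ρ) m).primeFactors.card with hcdef
  have h1 : |lam m| ≤ 1 := a15b_lam m
  have hs1 : |lam (sm (x ^ ρ) m)| ≤ 1 := a15b_lam _
  have h3c : (1 : ℝ) ≤ 3 ^ c := one_le_pow₀ (by norm_num)
  have h2 : |TI (x ^ ρ) (x ^ θ) (x ^ d) m| ≤ 3 ^ c := by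
    unfold TI
    split_ifs
    · rw [abs_mul, abs_neg]
      calc |lam (sm (x ^ ρ) m)| * |hs (x ^ θ) (rg (x ^ ρ) m)| ≤ 1 * 3 ^ c :=
            mul_le_mul hs1 (hs_bound _ (rg_ne _ _)) (abs_nonneg _) (by norm_num)
        _ = 3 ^ c := one_mul _
    · rw [abs_zero]
      positivity
  have h3 : |EH (x ^ ρ) (η₀ * Real.log x) η₀ θ top tot m| ≤ 1 + 3 ^ c := by
    unfold EH
    split_ifs
    · rw [abs_mul]
      have h4 := gs_bound η₀ θ top tot (ty (η₀ * Real.log x) (rg (x ^ ρ) m))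
      rw [ty_card] at h4
      calc |lam (sm (x ^ ρ) m)| * |GS η₀ θ top tot (ty (η₀ * Real.log x) (rg (x ^ ρ) m))| ≤
            1 * (1 + 3 ^ c) := mul_le_mul hs1 h4 (abs_nonneg _) (by norm_num)
        _ = 1 + 3 ^ c := one_mul _
    · rw [abs_zero]
      positivity
  have h5 : |lam m - TI (x ^ ρ) (x ^ θ) (x ^ d) m -
      EH (x ^ ρ) (η₀ * Real.log x) η₀ θ top tot m| ≤ 4 * 3 ^ c := by
    have a1 := abs_sub (lam m - TI (x ^ ρ) (x ^ θ) (x ^ d) m)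
      (EH (x ^ ρ) (η₀ * Real.log x) η₀ θ top tot m)
    have a2 := abs_sub (lam m) (TI (x ^ ρ) (x ^ θ) (x ^ d) m)
    linarith
  refine h5.trans ?_
  have h6 : (3 : ℝ) ^ c ≤ 3 * 9 ^ (1 / ρ) := by
    calc (3 : ℝ) ^ c = (3 : ℝ) ^ (c : ℝ) := (Real.rpow_natCast 3 c).symm
      _ ≤ (3 : ℝ) ^ (2 / ρ + 1) := Real.rpow_le_rpow_of_exponent_le (by norm_num) hc
      _ = 3 * 9 ^ (1 / ρ) := by
        rw [Real.rpow_add (by norm_num), Real.rpow_one, mul_comm]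
        congr 1
        rw [show (9 : ℝ) = 3 ^ (2 : ℝ) by norm_num, ← Real.rpow_mul (by norm_num)]
        congr 1
        ring
  linarith

end Pool.Agent.TR

namespace Pool.Agent.TR

theorem err_bound : type_of% @err_bound_pr := @err_bound_pr

end Pool.Agent.TR
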