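import Pool.Agent.Lib_helper97.TRL.A1
import Pool.Agent.Lib_helper10.T2F.BAS
import Pool.Agent.Lib_helper97.TR.Defs
import Pool.Agent.Lib_helper97.TRL.D42
import Pool.Agent.Lib_helper97.TRL.D42A
import Pool.Agent.Lib_helper97.TRL.M42

/-!
# TR A2: divisors and multiples (helper30)
-/

set_option autoImplicit false

namespace Pool.Agent.TR

open Pool.Agent.T2 Pool.Agent.TF

/-- a number whose primes are `≤ R` is prime to a rough number -/
theorem a2_cop {R : ℝ} {a b : ℕ} (ha : ∀ p : ℕ, p.Prime → p ∣ a → (p : ℝ) ≤ R)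
    (hb : ∀ p : ℕ, p.Prime → p ∣ b → R < (p : ℝ)) : Nat.Coprime a b := by
  refine Nat.Coprime.symm (Nat.coprime_of_dvd fun p hp h1 h2 => ?_)
  exact absurd (ha p hp h2) (not_le.2 (hb p hp h1))

theorem a2_uniq {R : ℝ} {a b : ℕ} (h0 : a * b ≠ 0)
    (ha : ∀ p : ℕ, p.Prime → p ∣ a → (p : ℝ) ≤ R)
    (hb : ∀ p : ℕ, p.Prime → p ∣ b → R < (p : ℝ)) :
    sm R (a * b) = a ∧ rg R (a * b) = b := by
  have hm := sm_mul_rg R h0
  have hs : ∀ p : ℕ, p.Prime → p ∣ sm R (a * b) → (p : ℝ) ≤ R := fun p hp h => sm_prime_le hp h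
  have hr : ∀ p : ℕ, p.Prime → p ∣ rg R (a * b) → R < (p : ℝ) := (rg_rough R (a * b)).2
  have e1 : a ∣ sm R (a * b) := by
    have : a ∣ sm R (a * b) * rg R (a * b) := by rw [hm]; exact dvd_mul_right _ _
    exact (a2_cop ha hr).dvd_of_dvd_mul_right this
  have e2 : sm R (a * b) ∣ a := by
    have : sm R (a * b) ∣ a * b := ⟨rg R (a * b), hm.symm⟩
    exact (a2_cop hs hb).dvd_of_dvd_mul_right this
  have e := Nat.dvd_antisymm e2 e1
  refine ⟨e, ?_⟩
  rw [e] at hm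
  exact Nat.eq_of_mul_eq_mul_left (Nat.pos_of_ne_zero (left_ne_zero_of_mul h0)) hm

theorem rough_dvd_rg_pr {R : ℝ} {u m : ℕ} (hu : Rough R u) (hm : m ≠ 0) :
    u ∣ rg R m ↔ u ∣ m := by
  have h := sm_mul_rg R hm
  constructor
  · intro h1
    exact h1.trans ⟨sm R m, by rw [mul_comm]; exact h.symm⟩
  · intro h1
    rw [← h] at h1
    exact ((a2_cop (fun p hp h => sm_prime_le hp h) hu.2).symm).dvd_of_dvd_mul_left h1

theorem sm_div_pr {R : ℝ} {u m : ℕ} (hu : Rough R u) (hm : m ≠ 0) (h : u ∣ m) :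
    sm R (m / u) = sm R m ∧ rg R (m / u) = rg R m / u := by
  have h1 : u ∣ rg R m := (rough_dvd_rg_pr hu hm).2 h
  have h2 := sm_mul_rg R hm
  have h3 : m / u = sm R m * (rg R m / u) := by
    conv_lhs => rw [← h2]
    exact Nat.mul_div_assoc _ h1
  have h4 : m / u ≠ 0 := by
    have := Nat.div_pos (Nat.le_of_dvd (Nat.pos_of_ne_zero hm) h) (Nat.pos_of_ne_zero hu.1)
    exact this.ne'
  rw [h3] at h4 ⊢
  exact a2_uniq h4 (fun p hp h => sm_prime_le hp h) (fun p hp h =>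
    (rg_rough R m).2 p hp (h.trans (Nat.div_dvd_of_dvd h1)))

theorem sm_mul_prime_pr {R : ℝ} {p k : ℕ} (hp : p.Prime) (hR : (p : ℝ) ≤ R) (hk : k ≠ 0) :
    sm R (p * k) = p * sm R k ∧ rg R (p * k) = rg R k := by
  have h2 := sm_mul_rg R hk
  have h3 : p * k = (p * sm R k) * rg R k := by rw [mul_assoc, h2]
  have h4 : (p * sm R k) * rg R k ≠ 0 := by rw [← h3]; exact mul_ne_zero hp.ne_zero hk
  rw [h3]
  refine a2_uniq h4 (fun q hq h => ?_) (rg_rough R k).2
  rcases (Nat.Prime.dvd_mul hq).1 h with h | h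
  · rw [(Nat.prime_dvd_prime_iff_eq hq hp).1 h]; exact hR
  · exact sm_prime_le hq h

theorem a2_lam_prime {p k : ℕ} (hp : p.Prime) (hk : k ≠ 0) : lam (p * k) = -lam k := by
  unfold lam
  rw [if_neg (mul_ne_zero hp.ne_zero hk), if_neg hk,
    ArithmeticFunction.cardFactors_mul hp.ne_zero hk,
    ArithmeticFunction.cardFactors_apply_prime hp, pow_add, pow_one, neg_one_mul]

theorem a2_lam_le (k : ℕ) : |lam k| ≤ 1 := by
  unfold lam
  split_ifs
  · simp
  · rw [abs_pow, abs_neg, abs_one, one_pow]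

/-- `lam` is completely multiplicative; `lam (sm R (p k)) = -lam (sm R k)` -/
theorem ft_flip_pr (R h z : ℝ) (t : Multiset ℕ) : Flip R (FT R h t z) := by
  constructor
  · intro n
    unfold FT
    split_ifs
    · exact a2_lam_le _
    · simp
  · intro p n hp hR hn
    obtain ⟨e1, e2⟩ := sm_mul_prime_pr hp hR hn
    unfold FT
    rw [e1, e2]
    split_ifs
    · exact a2_lam_prime hp (sm_ne R n)
    · simp






end Pool.Agent.TR

namespace Pool.Agent.TR

theorem rough_dvd_rg : type_of% @rough_dvd_rg_pr := @rough_dvd_rg_pr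
theorem sm_div : type_of% @sm_div_pr := @sm_div_pr
theorem sm_mul_prime : type_of% @sm_mul_prime_pr := @sm_mul_prime_pr
theorem ft_flip : type_of% @ft_flip_pr := @ft_flip_pr

end Pool.Agent.TR
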