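import Pool.Agent.Lib_helper97.TRL.CR2
import Pool.Agent.Lib_helper18.TFF.C2
import Pool.Agent.Lib_helper10.T2F.BAS
import Pool.Agent.Lib_helper10.T2F.BHS
import Pool.Agent.Lib_helper10.T2F.CLS
import Pool.Agent.Lib_helper18.TFF.C1
import Pool.Agent.Lib_helper18.TFF.C5
import Pool.Agent.Lib_helper18.TFF.C7
import Pool.Agent.Lib_helper97.TR.Defs

/-!
# TR, block CR14: products which are not primitive (helper20)
-/

set_option autoImplicit false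

namespace Pool.Agent.TR

open Pool.Agent.T2 Pool.Agent.TF Filter Topology

/-- a common factor of the coordinates of `u w` divides the norm of `u` -/
theorem cr14_factor {u w : G} (hw : Prm w) (h : ¬ Prm (u * w)) :
    ∃ q : ℕ, q.Prime ∧ q ∣ nn u ∧ (q : G) ∣ u * w := by
  obtain ⟨q, hq, hqd⟩ := Nat.exists_prime_and_dvd h
  have h1 : (q : G) ∣ u * w := bas_dvd_gcd.2 hqd
  refine ⟨q, hq, ?_, h1⟩
  by_contra hcon
  have h2 : (q : G) ∣ star u * (u * w) := h1.mul_left _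
  have h3 : star u * (u * w) = ((nn u : ℕ) : G) * w := by
    rw [← mul_assoc]
    congr 1
    apply Zsqrtd.ext
    · rw [Zsqrtd.re_mul, Zsqrtd.re_star, Zsqrtd.im_star, Zsqrtd.re_natCast, nn_cast]
      ring
    · rw [Zsqrtd.im_mul, Zsqrtd.re_star, Zsqrtd.im_star, Zsqrtd.im_natCast]
      ring
  rw [h3, bas_dvd] at h2
  have h4 : IsCoprime (q : ℤ) ((nn u : ℕ) : ℤ) := by
    rw [Nat.isCoprime_iff_coprime]
    exact (Nat.Prime.coprime_iff_not_dvd hq).2 hcon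
  have e1 : (((nn u : ℕ) : G) * w).re = ((nn u : ℕ) : ℤ) * w.re := by
    rw [Zsqrtd.re_mul, Zsqrtd.re_natCast, Zsqrtd.im_natCast]
    ring
  have e2 : (((nn u : ℕ) : G) * w).im = ((nn u : ℕ) : ℤ) * w.im := by
    rw [Zsqrtd.im_mul, Zsqrtd.re_natCast, Zsqrtd.im_natCast]
    ring
  rw [e1, e2] at h2
  have h5 : (q : G) ∣ w := bas_dvd.2 ⟨h4.dvd_of_dvd_mul_left h2.1, h4.dvd_of_dvd_mul_left h2.2⟩
  have h6 := prm_iff.1 hw q h5
  exact hq.one_lt.ne' h6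

open Classical in
theorem nonprim_count_pr {β τ ρ : ℝ} (hτ : 0 < τ) (hβ : 2 * τ < β) (hβ1 : β < 1) (hρ : 0 < ρ)
    {ε : ℝ} (hε : 0 < ε) : ∃ x₀ : ℝ, ∀ x : ℝ, x₀ ≤ x → ∀ σ : ℤ, (σ = 1 ∨ σ = -1) →
      ∑ j ∈ Finset.range (JJ β τ x), ∑ u ∈ Ru (x ^ ρ) (YY β τ x j),
        (((PB (2 * x ^ 2 / YY β τ x j)).filter (fun w => ¬ Prm (u * w) ∧
          0 < (u * w).re ∧ ((u * w).re : ℝ) ≤ x ∧ 1 ≤ σ * (u * w).im ∧
          ((σ * (u * w).im : ℤ) : ℝ) ≤ x ^ β)).card : ℝ) ≤ ε * x ^ (1 + β) := by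
  have hβ0 : 0 < β := by linarith
  obtain ⟨C, hC1, hC⟩ := mult_countR hτ hβ hβ1 hρ
  have hlim : Tendsto (fun x : ℝ => C * 16 * (1 / ((⌊x ^ ρ⌋₊ : ℕ) : ℝ) + 1 / x ^ β)) atTop
      (𝓝 (C * 16 * (0 + 0))) := by
    apply Tendsto.const_mul
    apply Tendsto.add
    · have h1 : Tendsto (fun x : ℝ => ((⌊x ^ ρ⌋₊ : ℕ) : ℝ)) atTop atTop :=
        tendsto_natCast_atTop_atTop.comp (tendsto_nat_floor_atTop.comp (tendsto_rpow_atTop hρ))
      simp only [one_div]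
      exact tendsto_inv_atTop_zero.comp h1
    · simp only [one_div]
      exact tendsto_inv_atTop_zero.comp (tendsto_rpow_atTop hβ0)
  have hev : ∀ᶠ x : ℝ in atTop, C * 16 * (1 / ((⌊x ^ ρ⌋₊ : ℕ) : ℝ) + 1 / x ^ β) ≤ ε := by
    have : C * 16 * (0 + 0) < ε := by simpa using hε
    filter_upwards [hlim.eventually (gt_mem_nhds this)] with x hx
    exact hx.le
  obtain ⟨x₁, hx₁⟩ := eventually_atTop.1 hev
  refine ⟨max x₁ 2, fun x hx σ hσ => ?_⟩
  have hx2 : (2 : ℝ) ≤ x := (le_max_right _ _).trans hx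
  have hx1 : (1 : ℝ) ≤ x := by linarith
  have hx0 : (0 : ℝ) < x := by linarith
  have hB1 : (1 : ℝ) ≤ x ^ β := Real.one_le_rpow hx1 hβ0.le
  have hBx : x ^ β ≤ x := by
    calc x ^ β ≤ x ^ (1 : ℝ) := Real.rpow_le_rpow_of_exponent_le hx1 hβ1.le
      _ = x := Real.rpow_one x
  have hR1 : (1 : ℝ) ≤ x ^ ρ := Real.one_le_rpow hx1 hρ.le
  have hG1 : 1 ≤ ⌊x ^ ρ⌋₊ := Nat.le_floor (by simpa using hR1)
  have hGle : ((⌊x ^ ρ⌋₊ : ℕ) : ℝ) ≤ x ^ ρ := Nat.floor_le (by linarith)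
  set S : Finset G := (Rg 1 x (x ^ β)).filter (fun ζ => ∃ g : ℕ, ⌊x ^ ρ⌋₊ < g ∧ (g : G) ∣ ζ)
    with hS
  have hSbd : ∀ ζ ∈ S, ζ ≠ 0 ∧ (nn ζ : ℝ) ≤ 16 * x ^ 2 := by
    intro ζ hζ
    rw [hS, Finset.mem_filter] at hζ
    have h1 := hζ.1
    unfold Rg at h1
    rw [Finset.mem_filter, mem_Bl] at h1
    exact h1.1
  have hmain := hC x hx2 (fun j => 2 * x ^ 2 / YY β τ x j) S hSbd
  have hcc := content_count (T := 1) le_rfl hB1 hBx ⌊x ^ ρ⌋₊ hG1
  have hsum : ∑ j ∈ Finset.range (JJ β τ x), ∑ u ∈ Ru (x ^ ρ) (YY β τ x j),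
        (((PB (2 * x ^ 2 / YY β τ x j)).filter (fun w => ¬ Prm (u * w) ∧
          0 < (u * w).re ∧ ((u * w).re : ℝ) ≤ x ∧ 1 ≤ σ * (u * w).im ∧
          ((σ * (u * w).im : ℤ) : ℝ) ≤ x ^ β)).card : ℝ) ≤
      ∑ j ∈ Finset.range (JJ β τ x), ∑ u ∈ Ru (x ^ ρ) (YY β τ x j),
        (((Bl (2 * x ^ 2 / YY β τ x j)).filter (fun z => u * z ∈ S)).card : ℝ) := by
    refine Finset.sum_le_sum fun j _ => Finset.sum_le_sum fun u hu => ?_
    have hcard : ((PB (2 * x ^ 2 / YY β τ x j)).filter (fun w => ¬ Prm (u * w) ∧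
          0 < (u * w).re ∧ ((u * w).re : ℝ) ≤ x ∧ 1 ≤ σ * (u * w).im ∧
          ((σ * (u * w).im : ℤ) : ℝ) ≤ x ^ β)).card ≤
        ((Bl (2 * x ^ 2 / YY β τ x j)).filter (fun z => u * z ∈ S)).card := by
      apply Finset.card_le_card
      intro w hw
      rw [Finset.mem_filter, mem_PB] at hw
      obtain ⟨⟨hwp, hwn⟩, hnp, hre, hrex, him1, himB⟩ := hw
      rw [Finset.mem_filter, mem_Bl]
      refine ⟨⟨prm_ne hwp, hwn⟩, ?_⟩
      rw [hS, Finset.mem_filter]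
      have hre' : (0 : ℝ) < ((u * w).re : ℝ) := by exact_mod_cast hre
      have him : |((u * w).im : ℝ)| ≤ x ^ β := by
        rw [abs_le]
        rcases hσ with h | h
        · rw [h] at him1 himB
          rw [one_mul] at him1 himB
          have h1 : (1 : ℝ) ≤ ((u * w).im : ℝ) := by exact_mod_cast him1
          constructor <;> linarith
        · rw [h] at him1 himB
          have h1 : (1 : ℝ) ≤ ((-1 * (u * w).im : ℤ) : ℝ) := by exact_mod_cast him1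
          push_cast at h1 himB
          constructor <;> linarith
      constructor
      · unfold Rg
        rw [Finset.mem_filter, mem_Bl]
        refine ⟨⟨?_, ?_⟩, hre, by linarith⟩
        · intro h0
          rw [h0] at hre
          simp at hre
        · rw [bas_cast_real]
          have h1 : ((u * w).re : ℝ) ^ 2 ≤ x ^ 2 := pow_le_pow_left₀ hre'.le hrex 2
          have h2 : ((u * w).im : ℝ) ^ 2 ≤ x ^ 2 := by
            rw [← sq_abs]
            exact pow_le_pow_left₀ (abs_nonneg _) (him.trans hBx) 2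
          nlinarith
      · obtain ⟨q, hq, hqu, hqd⟩ := cr14_factor hwp hnp
        refine ⟨q, ?_, hqd⟩
        unfold Ru at hu
        rw [Finset.mem_filter] at hu
        have h1 := hu.2.2.2.2.2 q hq hqu
        have h2 : ((⌊x ^ ρ⌋₊ : ℕ) : ℝ) < (q : ℝ) := lt_of_le_of_lt hGle h1
        exact_mod_cast h2
    exact_mod_cast hcard
  have hxx : x ^ β * x = x ^ (1 + β) := by
    rw [Real.rpow_add hx0, Real.rpow_one]
    ring
  have hpos : (0 : ℝ) < x ^ (1 + β) := Real.rpow_pos_of_pos hx0 _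
  calc _ ≤ C * (S.card : ℝ) := hsum.trans hmain
    _ ≤ C * (16 * 1 * x ^ β * x * (1 / ((⌊x ^ ρ⌋₊ : ℕ) : ℝ) + 1 / x ^ β)) :=
        mul_le_mul_of_nonneg_left hcc (by linarith)
    _ = C * 16 * (1 / ((⌊x ^ ρ⌋₊ : ℕ) : ℝ) + 1 / x ^ β) * (x ^ β * x) := by ring
    _ = C * 16 * (1 / ((⌊x ^ ρ⌋₊ : ℕ) : ℝ) + 1 / x ^ β) * x ^ (1 + β) := by rw [hxx]
    _ ≤ ε * x ^ (1 + β) :=
        mul_le_mul_of_nonneg_right (hx₁ x ((le_max_left _ _).trans hx)) hpos.le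

end Pool.Agent.TR

namespace Pool.Agent.TR

theorem nonprim_count : type_of% @nonprim_count_pr := @nonprim_count_pr

end Pool.Agent.TR
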