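import Pool.Agent.Lib_helper97.TR.Defs

/-! The definition of `SP` -/

set_option autoImplicit false

namespace Pool.Agent.TR

open Pool.Agent.T2 Pool.Agent.TF Filter Topology

open Classical in
/-- the sum with the condition that `u w` is primitive -/
noncomputable def SP (f : ℝ → ℝ) (α : G → ℝ) (F : ℕ → ℝ) (σ : ℤ) (R x Y : ℝ) (c : ℤ → ℝ) : ℝ :=
  ∑ u ∈ Ru R Y, α u * ∑ w ∈ (PB (2 * x ^ 2 / Y)).filter (fun w => Prm (u * w)),
    F (nn w) * (c (σ * (u * w).im) * f (((u * w).re : ℝ) / x))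

end Pool.Agent.TR
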