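import Pool.Agent.Lib_helper97.TRL.CR13
import Pool.Agent.Lib_helper18.TFF.C1
import Pool.Agent.Lib_helper10.T2F.BAS
import Pool.Agent.Lib_helper10.T2F.BHS
import Pool.Agent.Lib_helper10.T2F.CLS
import Pool.Agent.Lib_helper18.TFF.C2
import Pool.Agent.Lib_helper18.TFF.C5
import Pool.Agent.Lib_helper18.TFF.C7
import Pool.Agent.Lib_helper97.TR.Defs
import Pool.Agent.Lib_helper18.TFF.F4
import Pool.Agent.Lib_helper97.TRL.DSP

set_option autoImplicit false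

namespace Pool.Agent.TR

open Pool.Agent.T2 Pool.Agent.TF Filter Topology

theorem cr15_ind (Y : ℕ → ℝ) (hY : ∀ j, Y (j + 1) = 2 * Y j) (h0 : ∀ j, 0 ≤ Y j) (d : ℝ)
    (n : ℕ) :
    ∑ j ∈ Finset.range n, (if Y j < d ∧ d ≤ 2 * Y j then (1 : ℝ) else 0) =
      if Y 0 < d ∧ d ≤ Y n then 1 else 0 := by
  have hmono : ∀ n, Y 0 ≤ Y n := by
    intro n
    induction n with
    | zero => exact le_rfl
    | succ n ih =>
      rw [hY n]
      have := h0 n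
      linarith
  induction n with
  | zero =>
    rw [Finset.sum_range_zero, if_neg]
    rintro ⟨h1, h2⟩
    exact absurd h1 (not_lt.2 h2)
  | succ n ih =>
    rw [Finset.sum_range_succ, ih, hY n]
    have hn := h0 n
    by_cases h1 : d ≤ Y n
    · rw [if_neg (fun h : Y n < d ∧ d ≤ 2 * Y n => absurd h.1 (not_lt.2 h1)), add_zero]
      by_cases h2 : Y 0 < d
      · rw [if_pos ⟨h2, h1⟩, if_pos ⟨h2, by linarith⟩]
      · rw [if_neg (fun h => h2 h.1), if_neg (fun h => h2 h.1)]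
    · have h1' : Y n < d := not_le.1 h1
      have h2 : Y 0 < d := (hmono n).trans_lt h1'
      rw [if_neg (fun h : Y 0 < d ∧ d ≤ Y n => h1 h.2), zero_add]
      by_cases h3 : d ≤ 2 * Y n
      · rw [if_pos ⟨h1', h3⟩, if_pos ⟨h2, h3⟩]
      · rw [if_neg (fun h => h3 h.2), if_neg (fun h => h3 h.2)]

open Classical in
theorem cr15_split {β τ x : ℝ} (hτ : 0 < τ) (hβ : 2 * τ < β) (hβ1 : β < 1) (hx : 2 ≤ x)
    (hxτ : 2 ≤ x ^ (τ / 2)) (g : ℕ → ℝ)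
    (hg : ∀ d, g d ≠ 0 → x ^ (1 - β + τ) ≤ (d : ℝ) ∧ (d : ℝ) ≤ x ^ (1 - τ)) (D : Finset ℕ) :
    ∑ d ∈ D, g d = ∑ j ∈ Finset.range (JJ β (τ / 2) x),
      ∑ d ∈ D.filter (fun d : ℕ => YY β (τ / 2) x j < (d : ℝ) ∧ (d : ℝ) ≤ 2 * YY β (τ / 2) x j),
        g d := by
  have hx0 : 0 < x := by linarith
  obtain ⟨s1, s2, -, s4, -⟩ := scales (β := β) (τ := τ / 2) (x := x) (by linarith) (by linarith)
    hβ1 (by linarith)
  have hpos : ∀ j, 0 ≤ YY β (τ / 2) x j := fun j =>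
    (Real.rpow_pos_of_pos hx0 _).le.trans (s2 j)
  have e1 : ∀ d ∈ D, g d = ∑ j ∈ Finset.range (JJ β (τ / 2) x),
      if YY β (τ / 2) x j < (d : ℝ) ∧ (d : ℝ) ≤ 2 * YY β (τ / 2) x j then g d else 0 := by
    intro d _
    have e2 : ∑ j ∈ Finset.range (JJ β (τ / 2) x),
        (if YY β (τ / 2) x j < (d : ℝ) ∧ (d : ℝ) ≤ 2 * YY β (τ / 2) x j then g d else 0) =
        g d * ∑ j ∈ Finset.range (JJ β (τ / 2) x),
        (if YY β (τ / 2) x j < (d : ℝ) ∧ (d : ℝ) ≤ 2 * YY β (τ / 2) x j then (1 : ℝ) else 0) := by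
      rw [Finset.mul_sum]
      apply Finset.sum_congr rfl
      intro j _
      rw [mul_ite, mul_one, mul_zero]
    rw [e2, cr15_ind _ s1 hpos]
    by_cases h : g d = 0
    · rw [h, zero_mul]
    · obtain ⟨h1, h2⟩ := hg d h
      rw [if_pos, mul_one]
      constructor
      · refine lt_of_lt_of_le ?_ h1
        unfold YY
        rw [pow_zero, one_mul]
        exact Real.rpow_lt_rpow_of_exponent_lt (by linarith) (by linarith)
      · have e3 : x ^ (1 - τ / 2) = x ^ (1 - τ) * x ^ (τ / 2) := by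
          rw [← Real.rpow_add hx0]
          congr 1
          ring
        rw [e3] at s4
        have h3 : 0 < x ^ (1 - τ) := Real.rpow_pos_of_pos hx0 _
        nlinarith
  rw [Finset.sum_congr rfl e1, Finset.sum_comm]
  apply Finset.sum_congr rfl
  intro j _
  rw [Finset.sum_filter]

theorem cr15_swap {A N J : Finset ℕ} {P : ℕ → Finset G} (T : ℕ → ℕ → ℕ → G → ℝ) :
    ∑ b ∈ A, ∑ n ∈ N, ∑ j ∈ J, ∑ p ∈ P j, T b n j p =
      ∑ j ∈ J, ∑ p ∈ P j, ∑ b ∈ A, ∑ n ∈ N, T b n j p := by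
  calc ∑ b ∈ A, ∑ n ∈ N, ∑ j ∈ J, ∑ p ∈ P j, T b n j p
      = ∑ b ∈ A, ∑ j ∈ J, ∑ n ∈ N, ∑ p ∈ P j, T b n j p := by
        apply Finset.sum_congr rfl
        intro b _
        exact Finset.sum_comm
    _ = ∑ j ∈ J, ∑ b ∈ A, ∑ n ∈ N, ∑ p ∈ P j, T b n j p := Finset.sum_comm
    _ = ∑ j ∈ J, ∑ b ∈ A, ∑ p ∈ P j, ∑ n ∈ N, T b n j p := by
        apply Finset.sum_congr rfl
        intro j _
        apply Finset.sum_congr rfl
        intro b _
        exact Finset.sum_comm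
    _ = ∑ j ∈ J, ∑ p ∈ P j, ∑ b ∈ A, ∑ n ∈ N, T b n j p := by
        apply Finset.sum_congr rfl
        intro j _
        exact Finset.sum_comm

open Classical in
/-- the summand -/
noncomputable def cr15F (f : ℝ → ℝ) (x : ℝ) (F : ℕ → ℝ) (k : ℕ) (c : ℤ → ℝ) (ζ : G) : ℝ :=
  c ζ.im * (f ((ζ.re : ℝ) / x) * (if Prm ζ then F (nn ζ / k) else 0))

theorem cr15_supp {β δ Λ x : ℝ} (hδ : 0 < δ) {f : ℝ → ℝ} (hf : Cut δ Λ f) (hx : 2 ≤ x)
    (F : ℕ → ℝ) (k : ℕ) (c : ℤ → ℝ)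
    (hc : ∀ b, c b ≠ 0 → 1 ≤ b ∧ (b : ℝ) ≤ x ^ β) (ζ : G) (h : cr15F f x F k c ζ ≠ 0) :
    0 < (ζ.re : ℝ) ∧ (ζ.re : ℝ) ≤ x ∧ 1 ≤ ζ.im ∧ (ζ.im : ℝ) ≤ x ^ β := by
  have hx0 : 0 < x := by linarith
  have h1 : c ζ.im ≠ 0 := by
    intro h0
    apply h
    unfold cr15F
    rw [h0, zero_mul]
  have h2 : f ((ζ.re : ℝ) / x) ≠ 0 := by
    intro h0
    apply h
    unfold cr15F
    rw [h0, zero_mul, mul_zero]
  obtain ⟨a1, a2⟩ := hf.supp _ h2
  obtain ⟨b1, b2⟩ := hc _ h1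
  refine ⟨?_, ?_, b1, b2⟩
  · rw [le_div_iff₀ hx0] at a1
    have : 0 < δ * x := by positivity
    linarith
  · rw [div_le_one hx0] at a2
    exact a2

theorem cr15_Bl {β δ Λ x Y : ℝ} (hβ1 : β < 1) (hδ : 0 < δ) {f : ℝ → ℝ} (hf : Cut δ Λ f)
    (hx : 2 ≤ x) (hY : 0 < Y) (F : ℕ → ℝ) (k : ℕ) (c : ℤ → ℝ)
    (hc : ∀ b, c b ≠ 0 → 1 ≤ b ∧ (b : ℝ) ≤ x ^ β) (v z : G)
    (hv : Y < (nn v : ℝ)) (h : cr15F f x F k c (v * z) ≠ 0) : z ∈ Bl (2 * x ^ 2 / Y) := by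
  obtain ⟨a1, a2, a3, a4⟩ := cr15_supp hδ hf hx F k c hc _ h
  have hb : ((v * z).im : ℝ) ≤ x := by
    refine a4.trans ?_
    calc x ^ β ≤ x ^ (1 : ℝ) := Real.rpow_le_rpow_of_exponent_le (by linarith) hβ1.le
      _ = x := Real.rpow_one x
  have a3' : (1 : ℝ) ≤ ((v * z).im : ℝ) := by exact_mod_cast a3
  have hn : ((nn (v * z) : ℕ) : ℝ) = ((v * z).re : ℝ) ^ 2 + ((v * z).im : ℝ) ^ 2 := by
    have := nn_cast (v * z)
    exact_mod_cast congrArg (fun t : ℤ => (t : ℝ)) this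
  have hn2 : ((nn (v * z) : ℕ) : ℝ) ≤ 2 * x ^ 2 := by
    rw [hn]
    nlinarith
  rw [nn_mul] at hn2
  push_cast at hn2
  rw [mem_Bl]
  constructor
  · rintro rfl
    rw [mul_zero] at a1
    simp at a1
  · rw [le_div_iff₀ hY]
    have hz0 : (0 : ℝ) ≤ (nn z : ℝ) := Nat.cast_nonneg _
    nlinarith

theorem cr15_nat (N : ℕ) (T : ℤ → ℝ) :
    ∑ b ∈ Finset.Icc 1 N, T (b : ℤ) = ∑ b ∈ Finset.Icc (1 : ℤ) (N : ℤ), T b := by
  refine Finset.sum_bij' (fun b _ => (b : ℤ)) (fun b _ => b.toNat) ?_ ?_ ?_ ?_ ?_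
  · intro b hb
    rw [Finset.mem_Icc] at hb ⊢
    omega
  · intro b hb
    rw [Finset.mem_Icc] at hb ⊢
    omega
  · intro b _
    simp
  · intro b hb
    rw [Finset.mem_Icc] at hb
    omega
  · intro b _
    rfl

open Classical in
theorem cr15_one {β δ Λ x Y : ℝ} (hβ1 : β < 1) (hδ : 0 < δ) {f : ℝ → ℝ} (hf : Cut δ Λ f)
    (hx : 2 ≤ x) (hY : 0 < Y) (F : ℕ → ℝ) (k : ℕ) (c : ℤ → ℝ)
    (hc : ∀ b, c b ≠ 0 → 1 ≤ b ∧ (b : ℝ) ≤ x ^ β) (v : G) (hv : Y < (nn v : ℝ)) :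
    ∑ b ∈ Finset.Icc 1 ⌊x ^ β⌋₊, ∑ n ∈ Finset.Icc 1 ⌊x⌋₊,
      cr15F f x F k c (⟨(n : ℤ), (b : ℤ)⟩ : G) *
        (if v ∣ (⟨(n : ℤ), (b : ℤ)⟩ : G) then 1 else 0) =
      ∑ z ∈ Bl (2 * x ^ 2 / Y), cr15F f x F k c (v * z) := by
  have hv0 : v ≠ 0 := by
    rw [← nn_pos]
    have : (0 : ℝ) < nn v := by linarith
    exact_mod_cast this
  rw [cr15_nat ⌊x ^ β⌋₊ (fun b : ℤ => ∑ n ∈ Finset.Icc 1 ⌊x⌋₊,
      cr15F f x F k c (⟨(n : ℤ), b⟩ : G) * (if v ∣ (⟨(n : ℤ), b⟩ : G) then 1 else 0))]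
  apply f4_bij v hv0
  · intro ζ h
    obtain ⟨a1, a2, a3, a4⟩ := cr15_supp hδ hf hx F k c hc _ h
    have a1' : 0 < ζ.re := by exact_mod_cast a1
    refine ⟨by omega, ?_, a3, ?_⟩
    · rw [Int.natCast_floor_eq_floor (by linarith)]
      exact Int.le_floor.2 a2
    · rw [Int.natCast_floor_eq_floor (Real.rpow_nonneg (by linarith) _)]
      exact Int.le_floor.2 a4
  · intro z h
    exact cr15_Bl hβ1 hδ hf hx hY F k c hc v z hv h

open Classical in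
theorem cr15_u {x Y : ℝ} (f : ℝ → ℝ) (F : ℕ → ℝ) (c : ℤ → ℝ) (u : G) (hu : u ≠ 0) :
    ∑ z ∈ Bl (2 * x ^ 2 / Y), cr15F f x F (nn u) c (u * z) =
      ∑ w ∈ (PB (2 * x ^ 2 / Y)).filter (fun w => Prm (u * w)),
        F (nn w) * (c (1 * (u * w).im) * f (((u * w).re : ℝ) / x)) := by
  unfold PB
  rw [Finset.sum_filter, Finset.sum_filter]
  apply Finset.sum_congr rfl
  intro z _
  unfold cr15F
  by_cases h : Prm (u * z)
  · have h1 : Prm z := prm_mul_left (w := u) (by rwa [mul_comm])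
    rw [if_pos h1, if_pos h, if_pos h, nn_mul, Nat.mul_div_cancel_left _ (nn_pos.2 hu), one_mul]
    ring
  · rw [if_neg h, if_neg h]
    simp

open Classical in
theorem cr15_star {x Y : ℝ} (f : ℝ → ℝ) (F : ℕ → ℝ) (c : ℤ → ℝ) (u : G) (hu : u ≠ 0) :
    ∑ z ∈ Bl (2 * x ^ 2 / Y), cr15F f x F (nn u) c (star u * z) =
      ∑ w ∈ (PB (2 * x ^ 2 / Y)).filter (fun w => Prm (u * w)),
        F (nn w) * (c (-1 * (u * w).im) * f (((u * w).re : ℝ) / x)) := by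
  unfold PB
  rw [Finset.sum_filter, Finset.sum_filter]
  refine Finset.sum_nbij' (fun z => star z) (fun z => star z) ?_ ?_ ?_ ?_ ?_
  · intro z hz
    rw [mem_Bl] at hz ⊢
    exact ⟨star_ne_zero.2 hz.1, by rw [nn_star]; exact hz.2⟩
  · intro z hz
    rw [mem_Bl] at hz ⊢
    exact ⟨star_ne_zero.2 hz.1, by rw [nn_star]; exact hz.2⟩
  · intro z _
    exact star_star z
  · intro z _
    exact star_star z
  · intro z _
    have e : star u * z = star (u * star z) := by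
      rw [star_mul', star_star]
    have e1 : (star (u * star z)).im = -1 * (u * star z).im := by
      rw [Zsqrtd.im_star]; ring
    have e2 : (star (u * star z)).re = (u * star z).re := Zsqrtd.re_star _
    unfold cr15F
    rw [e, e1, e2]
    by_cases h : Prm (u * star z)
    · have h1 : Prm (star z) := prm_mul_left (w := u) (by rwa [mul_comm])
      rw [if_pos (prm_star.2 h), if_pos h1, if_pos h, nn_star, nn_mul,
        Nat.mul_div_cancel_left _ (nn_pos.2 hu)]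
      ring
    · rw [if_neg (fun h' => h (prm_star.1 h')), if_neg h]
      simp

theorem bil_id_pr {β τ ρ δ Λ x : ℝ} (hτ : 0 < τ) (hβ : 2 * τ < β) (hβ1 : β < 1) (hρ : 0 < ρ)
    (hδ : 0 < δ) {f : ℝ → ℝ} (hf : Cut δ Λ f) (hx : 2 ≤ x) (hxρ : 2 ≤ x ^ ρ)
    (hxτ : 2 ≤ x ^ (τ / 2)) (a F : ℕ → ℝ)
    (ha : ∀ d, a d ≠ 0 → Rough (x ^ ρ) d ∧ x ^ (1 - β + τ) ≤ (d : ℝ) ∧ (d : ℝ) ≤ x ^ (1 - τ))
    (c : ℤ → ℝ) (hc : ∀ b, c b ≠ 0 → 1 ≤ b ∧ (b : ℝ) ≤ x ^ β) :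
    ∑ b ∈ Finset.Icc 1 ⌊x ^ β⌋₊, c b *
      ∑ n ∈ (Finset.Icc 1 ⌊x⌋₊).filter (fun n => Nat.Coprime n b), f ((n : ℝ) / x) *
        ∑ d ∈ (n ^ 2 + b ^ 2).divisors, a d * F ((n ^ 2 + b ^ 2) / d) =
    ∑ j ∈ Finset.range (JJ β (τ / 2) x),
      (SP f (fun u => a (nn u)) F 1 (x ^ ρ) x (YY β (τ / 2) x j) c +
        SP f (fun u => a (nn u)) F (-1) (x ^ ρ) x (YY β (τ / 2) x j) c) := by
  classical
  have hx0 : 0 < x := by linarith
  obtain ⟨s1, s2, -, -, -⟩ := scales (β := β) (τ := τ / 2) (x := x) (by linarith) (by linarith)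
    hβ1 (by linarith)
  have hY1 : ∀ j, 1 ≤ YY β (τ / 2) x j := fun j => by
    refine le_trans ?_ (s2 j)
    exact Real.one_le_rpow (by linarith) (by linarith)
  have e1 : ∑ b ∈ Finset.Icc 1 ⌊x ^ β⌋₊, c b *
      ∑ n ∈ (Finset.Icc 1 ⌊x⌋₊).filter (fun n => Nat.Coprime n b), f ((n : ℝ) / x) *
        ∑ d ∈ (n ^ 2 + b ^ 2).divisors, a d * F ((n ^ 2 + b ^ 2) / d) =
      ∑ b ∈ Finset.Icc 1 ⌊x ^ β⌋₊, ∑ n ∈ Finset.Icc 1 ⌊x⌋₊,
        ∑ j ∈ Finset.range (JJ β (τ / 2) x), ∑ u ∈ Ru (x ^ ρ) (YY β (τ / 2) x j),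
          (a (nn u) * (cr15F f x F (nn u) c (⟨(n : ℤ), (b : ℤ)⟩ : G) *
            (if u ∣ (⟨(n : ℤ), (b : ℤ)⟩ : G) then 1 else 0)) +
          a (nn u) * (cr15F f x F (nn u) c (⟨(n : ℤ), (b : ℤ)⟩ : G) *
            (if star u ∣ (⟨(n : ℤ), (b : ℤ)⟩ : G) then 1 else 0))) := by
    apply Finset.sum_congr rfl
    intro b _
    rw [Finset.mul_sum, Finset.sum_filter]
    apply Finset.sum_congr rfl
    intro n _
    obtain ⟨z, hz⟩ : ∃ z : G, z = ⟨(n : ℤ), (b : ℤ)⟩ := ⟨_, rfl⟩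
    rw [← hz]
    have hre : z.re = n := by rw [hz]
    have him : z.im = b := by rw [hz]
    have hnn : nn z = n ^ 2 + b ^ 2 := by
      have h1 := nn_cast z
      rw [hre, him] at h1
      exact_mod_cast h1
    have hprm : Prm z ↔ Nat.Coprime n b := by
      unfold Prm
      rw [hre, him, Int.gcd_natCast_natCast]
    by_cases hco : Nat.Coprime n b
    · rw [if_pos hco, ← hnn, cr15_split hτ hβ hβ1 hx hxτ (fun d => a d * F (nn z / d))
        (fun d hd => (ha d (left_ne_zero_of_mul hd)).2), Finset.mul_sum, Finset.mul_sum]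
      apply Finset.sum_congr rfl
      intro j _
      rw [div_sum (hprm.2 hco) hxρ (hY1 j) (fun d => a d * F (nn z / d))
        (fun d hd => (ha d (left_ne_zero_of_mul hd)).1), Finset.mul_sum, Finset.mul_sum]
      apply Finset.sum_congr rfl
      intro u _
      unfold cr15F
      rw [if_pos (hprm.2 hco), hre, him]
      have e2 : ∀ P : Prop, (if P then a (nn u) * F (nn z / nn u) else 0) =
          a (nn u) * F (nn z / nn u) * (if P then 1 else 0) := by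
        intro P
        split_ifs <;> simp
      rw [e2, e2]
      push_cast
      ring
    · rw [if_neg hco]
      symm
      apply Finset.sum_eq_zero
      intro j _
      apply Finset.sum_eq_zero
      intro u _
      unfold cr15F
      rw [if_neg (fun h => hco (hprm.1 h))]
      ring
  rw [e1, cr15_swap]
  apply Finset.sum_congr rfl
  intro j _
  unfold SP
  rw [← Finset.sum_add_distrib]
  apply Finset.sum_congr rfl
  intro u hu
  unfold Ru at hu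
  rw [Finset.mem_filter] at hu
  obtain ⟨hu1, hu2, hu3, hu4, hu5⟩ := hu
  have hY0 : 0 < YY β (τ / 2) x j := by linarith [hY1 j]
  have hu0 : u ≠ 0 := by
    rw [← nn_pos]
    have : (0 : ℝ) < nn u := by linarith
    exact_mod_cast this
  have e3 := cr15_one hβ1 hδ hf hx hY0 F (nn u) c hc u hu4
  have e4 := cr15_one hβ1 hδ hf hx hY0 F (nn u) c hc (star u) (by rw [nn_star]; exact hu4)
  rw [cr15_u f F c u hu0] at e3
  rw [cr15_star f F c u hu0] at e4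
  rw [← e3, ← e4, Finset.mul_sum, Finset.mul_sum, ← Finset.sum_add_distrib]
  apply Finset.sum_congr rfl
  intro b _
  rw [Finset.mul_sum, Finset.mul_sum, ← Finset.sum_add_distrib]

end Pool.Agent.TR

namespace Pool.Agent.TR

theorem bil_id : type_of% @bil_id_pr := @bil_id_pr

end Pool.Agent.TR
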