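import Pool.Agent.Lib_helper97.TRL.CR11
import Pool.Agent.Lib_helper97.TRL.CR14
import Pool.Agent.Lib_helper97.TRL.CR15
import Pool.Agent.Lib_helper10.T2F.BAS
import Pool.Agent.Lib_helper10.T2F.BHS
import Pool.Agent.Lib_helper10.T2F.CLS
import Pool.Agent.Lib_helper18.TFF.C1
import Pool.Agent.Lib_helper18.TFF.C2
import Pool.Agent.Lib_helper18.TFF.C5
import Pool.Agent.Lib_helper18.TFF.C7
import Pool.Agent.Lib_helper97.TR.Defs
import Pool.Agent.Lib_helper97.TRL.DSP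

set_option autoImplicit false

namespace Pool.Agent.TR

open Pool.Agent.T2 Pool.Agent.TF Filter Topology

open Classical in
theorem cr16_diff {β δ Λ x : ℝ} (hδ : 0 < δ) {f : ℝ → ℝ} (hf : Cut δ Λ f) (hx : 2 ≤ x)
    {α : G → ℝ} (hα : ∀ u, |α u| ≤ 1) {F : ℕ → ℝ} (hF : ∀ n, |F n| ≤ 1) (σ : ℤ) {c : ℤ → ℝ}
    (hc1 : ∀ b, |c b| ≤ 1) (hc : ∀ b, c b ≠ 0 → 1 ≤ b ∧ (b : ℝ) ≤ x ^ β) (R Y : ℝ) :
    |SP f α F σ R x Y c - SB f α (gF F) σ R x Y c| ≤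
      ∑ u ∈ Ru R Y, (((PB (2 * x ^ 2 / Y)).filter (fun w => ¬ Prm (u * w) ∧
          0 < (u * w).re ∧ ((u * w).re : ℝ) ≤ x ∧ 1 ≤ σ * (u * w).im ∧
          ((σ * (u * w).im : ℤ) : ℝ) ≤ x ^ β)).card : ℝ) := by
  have hx0 : 0 < x := by linarith
  unfold SP SB
  rw [← Finset.sum_sub_distrib]
  refine (Finset.abs_sum_le_sum_abs _ _).trans (Finset.sum_le_sum fun u _ => ?_)
  rw [← mul_sub, abs_mul]
  obtain ⟨T, hT⟩ : ∃ T : G → ℝ, T = fun w =>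
    F (nn w) * (c (σ * (u * w).im) * f (((u * w).re : ℝ) / x)) := ⟨_, rfl⟩
  have e1 : ∑ z ∈ Bl (2 * x ^ 2 / Y),
      gF F z * (c (σ * (u * z).im) * f (((u * z).re : ℝ) / x)) =
      ∑ w ∈ PB (2 * x ^ 2 / Y), T w := by
    unfold PB
    rw [Finset.sum_filter]
    apply Finset.sum_congr rfl
    intro z _
    unfold gF
    rw [hT]
    split_ifs
    · rfl
    · rw [zero_mul]
  have e2 : ∑ w ∈ (PB (2 * x ^ 2 / Y)).filter (fun w => Prm (u * w)),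
      F (nn w) * (c (σ * (u * w).im) * f (((u * w).re : ℝ) / x)) =
      ∑ w ∈ (PB (2 * x ^ 2 / Y)).filter (fun w => Prm (u * w)), T w := by
    rw [hT]
  rw [e1, e2, ← Finset.sum_filter_add_sum_filter_not (PB (2 * x ^ 2 / Y))
    (fun w => Prm (u * w)) T]
  have e3 : ∀ s t : ℝ, s - (s + t) = -t := fun s t => by ring
  rw [e3, abs_neg]
  have h1 : |∑ w ∈ (PB (2 * x ^ 2 / Y)).filter (fun w => ¬ Prm (u * w)), T w| ≤
      (((PB (2 * x ^ 2 / Y)).filter (fun w => ¬ Prm (u * w) ∧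
          0 < (u * w).re ∧ ((u * w).re : ℝ) ≤ x ∧ 1 ≤ σ * (u * w).im ∧
          ((σ * (u * w).im : ℤ) : ℝ) ≤ x ^ β)).card : ℝ) := by
    rw [Finset.card_eq_sum_ones, Nat.cast_sum, Finset.sum_filter (fun w => ¬ Prm (u * w) ∧
          0 < (u * w).re ∧ ((u * w).re : ℝ) ≤ x ∧ 1 ≤ σ * (u * w).im ∧
          ((σ * (u * w).im : ℤ) : ℝ) ≤ x ^ β), Finset.sum_filter]
    refine (Finset.abs_sum_le_sum_abs _ _).trans (Finset.sum_le_sum fun w _ => ?_)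
    by_cases h : Prm (u * w)
    · rw [if_neg (fun h' => h' h), abs_zero]
      split_ifs <;> simp
    · rw [if_pos h]
      by_cases h0 : T w = 0
      · rw [h0, abs_zero]
        split_ifs <;> simp
      · have h2 : c (σ * (u * w).im) ≠ 0 := by
          intro h3
          apply h0
          rw [hT]
          simp only [h3, zero_mul, mul_zero]
        have h3 : f (((u * w).re : ℝ) / x) ≠ 0 := by
          intro h3
          apply h0
          rw [hT]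
          simp only [h3, mul_zero]
        obtain ⟨b1, b2⟩ := hc _ h2
        obtain ⟨a1, a2⟩ := hf.supp _ h3
        have a3 : 0 < (u * w).re := by
          rw [le_div_iff₀ hx0] at a1
          have h4 : 0 < δ * x := by positivity
          have h5 : (0 : ℝ) < ((u * w).re : ℝ) := by linarith
          exact_mod_cast h5
        have a4 : ((u * w).re : ℝ) ≤ x := by
          rwa [div_le_one hx0] at a2
        rw [if_pos ⟨h, a3, a4, b1, b2⟩]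
        rw [hT]
        simp only [abs_mul, Nat.cast_one]
        have c1 := hF (nn w)
        have c2 := hc1 (σ * (u * w).im)
        have c3 : |f (((u * w).re : ℝ) / x)| ≤ 1 := by
          rw [abs_of_nonneg (hf.nonneg _)]
          exact hf.le_one _
        have c4 : |c (σ * (u * w).im)| * |f (((u * w).re : ℝ) / x)| ≤ 1 :=
          mul_le_one₀ c2 (abs_nonneg _) c3
        exact mul_le_one₀ c1 (mul_nonneg (abs_nonneg _) (abs_nonneg _)) c4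
  calc |α u| * |∑ w ∈ (PB (2 * x ^ 2 / Y)).filter (fun w => ¬ Prm (u * w)), T w|
      ≤ 1 * |∑ w ∈ (PB (2 * x ^ 2 / Y)).filter (fun w => ¬ Prm (u * w)), T w| :=
        mul_le_mul_of_nonneg_right (hα u) (abs_nonneg _)
    _ ≤ _ := by rw [one_mul]; exact h1

theorem cr16_sign (t : ℝ) : ∃ s : ℝ, |s| ≤ 1 ∧ |t| = s * t := by
  by_cases h : 0 ≤ t
  · exact ⟨1, by simp, by rw [abs_of_nonneg h, one_mul]⟩
  · exact ⟨-1, by simp, by rw [abs_of_neg (not_le.1 h)]; ring⟩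

theorem cr16_pow {t x : ℝ} (ht : 0 < t) (hx : (2 : ℝ) ^ (1 / t) ≤ x) : 2 ≤ x ^ t := by
  have h0 : (0 : ℝ) < 2 ^ (1 / t) := Real.rpow_pos_of_pos (by norm_num) _
  calc (2 : ℝ) = ((2 : ℝ) ^ (1 / t)) ^ t := by
        rw [← Real.rpow_mul (by norm_num), one_div, inv_mul_cancel₀ ht.ne', Real.rpow_one]
    _ ≤ x ^ t := Real.rpow_le_rpow h0.le hx ht.le

theorem bil_int_pr {β τ ρ δ Λ : ℝ} (hτ : 0 < τ) (hβ : 2 * τ < β) (hβ1 : β < 1) (hρ : 0 < ρ)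
    (hδ : 0 < δ) (hδ1 : δ ≤ 1) (hΛ : 0 ≤ Λ) {ε : ℝ} (hε : 0 < ε) : ∃ x₀ : ℝ, ∀ x : ℝ, x₀ ≤ x →
      ∀ f : ℝ → ℝ, Cut δ Λ f → ∀ a F : ℕ → ℝ, (∀ d, |a d| ≤ 1) →
      (∀ d, a d ≠ 0 → Rough (x ^ ρ) d) → Flip (x ^ ρ) F →
      ∑ b ∈ Finset.Icc 1 ⌊x ^ β⌋₊,
        |∑ n ∈ (Finset.Icc 1 ⌊x⌋₊).filter (fun n => Nat.Coprime n b), f ((n : ℝ) / x) *
          ∑ d ∈ (n ^ 2 + b ^ 2).divisors.filter (fun d : ℕ =>
            x ^ (1 - β + τ) ≤ (d : ℝ) ∧ (d : ℝ) ≤ x ^ (1 - τ)),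
            a d * F ((n ^ 2 + b ^ 2) / d)| ≤ ε * x ^ (1 + β) := by
  classical
  obtain ⟨x₁, h₁⟩ := bil_rough (β := β) (τ := τ / 2) (ρ := ρ) (δ := δ) (Λ := Λ)
    (by linarith) (by linarith) hβ1 hρ hδ hδ1 hΛ (ε := ε / 4) (by linarith)
  obtain ⟨x₂, h₂⟩ := nonprim_count (β := β) (τ := τ / 2) (ρ := ρ)
    (by linarith) (by linarith) hβ1 hρ (ε := ε / 4) (by linarith)
  refine ⟨max (max x₁ x₂) (max 2 (max (2 ^ (1 / ρ)) (2 ^ (1 / (τ / 2))))), fun x hx f hf a F ha hrough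
    hflip => ?_⟩
  have hx1 : x₁ ≤ x := (le_max_left _ _).trans ((le_max_left _ _).trans hx)
  have hx2 : x₂ ≤ x := (le_max_right _ _).trans ((le_max_left _ _).trans hx)
  have hx3 : 2 ≤ x := (le_max_left _ _).trans ((le_max_right _ _).trans hx)
  have hx4 : 2 ≤ x ^ ρ := cr16_pow hρ ((le_max_left _ _).trans ((le_max_right _ _).trans
    ((le_max_right _ _).trans hx)))
  have hx5 : 2 ≤ x ^ (τ / 2) := cr16_pow (by linarith) ((le_max_right _ _).trans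
    ((le_max_right _ _).trans ((le_max_right _ _).trans hx)))
  -- the coefficients restricted to the window
  obtain ⟨a', ha'⟩ : ∃ a' : ℕ → ℝ, a' = fun d : ℕ =>
    if x ^ (1 - β + τ) ≤ (d : ℝ) ∧ (d : ℝ) ≤ x ^ (1 - τ) then a d else 0 := ⟨_, rfl⟩
  have ha1 : ∀ d, |a' d| ≤ 1 := by
    intro d
    rw [ha']
    dsimp only
    split_ifs
    · exact ha d
    · simp
  have ha2 : ∀ d, a' d ≠ 0 → Rough (x ^ ρ) d ∧ x ^ (1 - β + τ) ≤ (d : ℝ) ∧
      (d : ℝ) ≤ x ^ (1 - τ) := by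
    intro d hd
    rw [ha'] at hd
    dsimp only at hd
    by_cases h : x ^ (1 - β + τ) ≤ (d : ℝ) ∧ (d : ℝ) ≤ x ^ (1 - τ)
    · rw [if_pos h] at hd
      exact ⟨hrough d hd, h⟩
    · rw [if_neg h] at hd
      exact absurd rfl hd
  obtain ⟨S, hS⟩ : ∃ S : ℕ → ℝ, S = fun b =>
    ∑ n ∈ (Finset.Icc 1 ⌊x⌋₊).filter (fun n => Nat.Coprime n b), f ((n : ℝ) / x) *
      ∑ d ∈ (n ^ 2 + b ^ 2).divisors, a' d * F ((n ^ 2 + b ^ 2) / d) := ⟨_, rfl⟩
  have e1 : ∀ b, ∑ n ∈ (Finset.Icc 1 ⌊x⌋₊).filter (fun n => Nat.Coprime n b), f ((n : ℝ) / x) *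
          ∑ d ∈ (n ^ 2 + b ^ 2).divisors.filter (fun d : ℕ =>
            x ^ (1 - β + τ) ≤ (d : ℝ) ∧ (d : ℝ) ≤ x ^ (1 - τ)),
            a d * F ((n ^ 2 + b ^ 2) / d) = S b := by
    intro b
    rw [hS]
    apply Finset.sum_congr rfl
    intro n _
    congr 1
    rw [Finset.sum_filter]
    apply Finset.sum_congr rfl
    intro d _
    rw [ha']
    dsimp only
    split_ifs
    · rfl
    · rw [zero_mul]
  choose s hs1 hs2 using fun b => cr16_sign (S b)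
  obtain ⟨c, hc⟩ : ∃ c : ℤ → ℝ, c = fun b : ℤ =>
    if 1 ≤ b ∧ (b : ℝ) ≤ x ^ β then s b.toNat else 0 := ⟨_, rfl⟩
  have hc1 : ∀ b, |c b| ≤ 1 := by
    intro b
    rw [hc]
    dsimp only
    split_ifs
    · exact hs1 _
    · simp
  have hc2 : ∀ b, c b ≠ 0 → 1 ≤ b ∧ (b : ℝ) ≤ x ^ β := by
    intro b hb
    by_contra h
    apply hb
    rw [hc]
    exact if_neg h
  have e2 : ∑ b ∈ Finset.Icc 1 ⌊x ^ β⌋₊, |S b| = ∑ b ∈ Finset.Icc 1 ⌊x ^ β⌋₊, c b * S b := by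
    apply Finset.sum_congr rfl
    intro b hb
    rw [Finset.mem_Icc] at hb
    have h1 : (b : ℝ) ≤ x ^ β :=
      (Nat.le_floor_iff (Real.rpow_nonneg (by linarith) _)).1 hb.2
    rw [hs2 b, hc]
    dsimp only
    rw [if_pos]
    · simp
    · exact ⟨by exact_mod_cast hb.1, by exact_mod_cast h1⟩
  rw [Finset.sum_congr rfl (fun b _ => congrArg abs (e1 b)), e2, hS]
  rw [bil_id hτ hβ hβ1 hρ hδ hf hx3 hx4 hx5 a' F ha2 c hc2]
  have key : ∀ σ : ℤ, (σ = 1 ∨ σ = -1) → ∑ j ∈ Finset.range (JJ β (τ / 2) x),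
      SP f (fun u => a' (nn u)) F σ (x ^ ρ) x (YY β (τ / 2) x j) c ≤ ε / 2 * x ^ (1 + β) := by
    intro σ hσ
    have k1 := h₁ x hx1 f hf (fun u => a' (nn u)) (fun u => ha1 _) F hflip σ hσ c hc1 hc2
    have k2 := h₂ x hx2 σ hσ
    have k3 : ∀ j ∈ Finset.range (JJ β (τ / 2) x),
        SP f (fun u => a' (nn u)) F σ (x ^ ρ) x (YY β (τ / 2) x j) c ≤
        |SB f (fun u => a' (nn u)) (gF F) σ (x ^ ρ) x (YY β (τ / 2) x j) c| +
        ∑ u ∈ Ru (x ^ ρ) (YY β (τ / 2) x j),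
        (((PB (2 * x ^ 2 / YY β (τ / 2) x j)).filter (fun w => ¬ Prm (u * w) ∧
          0 < (u * w).re ∧ ((u * w).re : ℝ) ≤ x ∧ 1 ≤ σ * (u * w).im ∧
          ((σ * (u * w).im : ℤ) : ℝ) ≤ x ^ β)).card : ℝ) := by
      intro j _
      have k4 := cr16_diff (β := β) hδ hf hx3 (α := fun u => a' (nn u)) (fun u => ha1 _)
        hflip.bd σ hc1 hc2 (x ^ ρ) (YY β (τ / 2) x j)
      have k5 := le_abs_self (SP f (fun u => a' (nn u)) F σ (x ^ ρ) x (YY β (τ / 2) x j) c -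
        SB f (fun u => a' (nn u)) (gF F) σ (x ^ ρ) x (YY β (τ / 2) x j) c)
      have k6 := le_abs_self (SB f (fun u => a' (nn u)) (gF F) σ (x ^ ρ) x
        (YY β (τ / 2) x j) c)
      linarith
    calc _ ≤ _ := Finset.sum_le_sum k3
      _ ≤ ε / 4 * x ^ (1 + β) + ε / 4 * x ^ (1 + β) := by
        rw [Finset.sum_add_distrib]
        exact add_le_add k1 k2
      _ = ε / 2 * x ^ (1 + β) := by ring
  rw [Finset.sum_add_distrib]
  have k1 := key 1 (Or.inl rfl)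
  have k2 := key (-1) (Or.inr rfl)
  calc _ ≤ ε / 2 * x ^ (1 + β) + ε / 2 * x ^ (1 + β) := add_le_add k1 k2
    _ = ε * x ^ (1 + β) := by ring

end Pool.Agent.TR

namespace Pool.Agent.TR

theorem bil_int : type_of% @bil_int_pr := @bil_int_pr

end Pool.Agent.TR
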