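import Pool.Agent.Lib_helper97.TRL.A1
import Pool.Agent.Lib_helper97.TRL.A12
import Pool.Agent.Lib_helper97.TRL.A2
import Pool.Agent.Lib_helper97.TRL.A4
import Pool.Agent.Lib_helper97.TRL.CR16
import Pool.Agent.Lib_helper10.T2F.BAS
import Pool.Agent.Lib_helper97.TR.Defs
import Pool.Agent.Lib_helper97.TRL.D42
import Pool.Agent.Lib_helper97.TRL.D42A
import Pool.Agent.Lib_helper97.TRL.M42

/-!
# TR, block A16: one type (helper20)
-/

set_option autoImplicit false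

namespace Pool.Agent.TR

open Pool.Agent.T2 Pool.Agent.TF Filter Topology

open Classical in
theorem a16_split (S : Finset ℕ) (g : ℕ → ℝ) (R lo y z : ℝ) (P : ℕ → Prop)
    (hg : ∀ u, |g u| ≤ 1)
    (h1 : ∀ u ∈ S, g u ≠ 0 → Rough R u ∧ Squarefree u ∧ lo ≤ (u : ℝ))
    (h2 : ∀ u ∈ S, g u ≠ 0 → P u → (u : ℝ) ≤ y * z) (h3 : ∀ u : ℕ, (u : ℝ) ≤ y → P u) :
    |∑ u ∈ S.filter P, g u - ∑ u ∈ S.filter (fun u : ℕ => lo ≤ (u : ℝ) ∧ (u : ℝ) ≤ y), g u| ≤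
      ((S.filter (fun u : ℕ => Rough R u ∧ Squarefree u ∧ y < (u : ℝ) ∧
        (u : ℝ) ≤ y * z)).card : ℝ) := by
  rw [Finset.sum_filter, Finset.sum_filter, ← Finset.sum_sub_distrib]
  refine (Finset.abs_sum_le_sum_abs _ _).trans ?_
  rw [Finset.card_filter]
  push_cast
  refine Finset.sum_le_sum fun u hu => ?_
  by_cases h0 : g u = 0
  · rw [h0]
    simp only [ite_self, sub_self, abs_zero]
    split_ifs <;> norm_num
  · obtain ⟨a1, a2, a3⟩ := h1 u hu h0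
    by_cases h4 : (u : ℝ) ≤ y
    · rw [if_pos (h3 u h4), if_pos ⟨a3, h4⟩, sub_self, abs_zero]
      split_ifs <;> norm_num
    · have h5 : ¬ (lo ≤ (u : ℝ) ∧ (u : ℝ) ≤ y) := fun h => h4 h.2
      rw [if_neg h5, sub_zero]
      by_cases h6 : P u
      · rw [if_pos h6, if_pos ⟨a1, a2, not_le.1 h4, h2 u hu h0 h6⟩]
        exact hg u
      · rw [if_neg h6, abs_zero]
        split_ifs <;> norm_num

theorem a16_at_le (R h : ℝ) (t : Multiset ℕ) (u : ℕ) : |AT R h t u| ≤ 1 := by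
  unfold AT
  split_ifs <;> norm_num

theorem a16_at_ne {R h : ℝ} {t : Multiset ℕ} {u : ℕ} (hu : AT R h t u ≠ 0) :
    Rough R u ∧ Squarefree u ∧ ty h u = t := by
  unfold AT at hu
  by_contra hcon
  rw [if_neg hcon] at hu
  exact hu rfl

theorem a16_ft_ne {R h z : ℝ} {t : Multiset ℕ} {k : ℕ} (hk : FT R h t z k ≠ 0) :
    z < (rg R k : ℝ) := by
  unfold FT at hk
  by_contra hcon
  rw [if_neg (fun h => hcon h.2.2)] at hk
  exact hk rfl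

theorem a16_rg_le (R : ℝ) {k : ℕ} (hk : k ≠ 0) : rg R k ≤ k := by
  have h1 := sm_mul_rg R hk
  have h2 := Nat.pos_of_ne_zero (sm_ne R k)
  calc rg R k = 1 * rg R k := (one_mul _).symm
    _ ≤ sm R k * rg R k := Nat.mul_le_mul_right _ h2
    _ = k := h1

/-- the lower bound for the numbers of a given type -/
theorem a16_low {β τ₁ τ η₀ x : ℝ} (hτ : τ ≤ τ₁) (hη : 0 < η₀) (hx : 1 < x) {t : Multiset ℕ}
    (h1 : 1 - β + τ₁ ≤ η₀ * ((t.sum : ℕ) : ℝ)) {u : ℕ} (hu : Squarefree u)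
    (ht : ty (η₀ * Real.log x) u = t) : x ^ (1 - β + τ) ≤ (u : ℝ) := by
  have hl : 0 < Real.log x := Real.log_pos hx
  have h2 := (ty_size (mul_pos hη hl) hu).1
  rw [ht] at h2
  refine le_trans ?_ h2
  rw [Real.rpow_def_of_pos (by linarith)]
  apply Real.exp_le_exp.2
  have h3 : 1 - β + τ ≤ η₀ * ((t.sum : ℕ) : ℝ) := by linarith
  calc Real.log x * (1 - β + τ) ≤ Real.log x * (η₀ * ((t.sum : ℕ) : ℝ)) :=
        mul_le_mul_of_nonneg_left h3 hl.le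
    _ = η₀ * Real.log x * ((t.sum : ℕ) : ℝ) := by ring

open Classical in
/-- one integer -/
theorem a16_bt {β τ₁ τ ρ η₀ x y z : ℝ} (hτ : τ ≤ τ₁) (hη : 0 < η₀) (hx : 1 < x)
    (hy : y = x ^ (1 - τ)) (hyx : y ≤ x) (hyz : y * z = 2 * x) (t₁ t₂ : Multiset ℕ)
    (h1 : 1 - β + τ₁ ≤ η₀ * ((t₁.sum : ℕ) : ℝ)) (h2 : 1 - β + τ₁ ≤ η₀ * ((t₂.sum : ℕ) : ℝ))
    {m : ℕ} (hm : m ≠ 0) (hmx : (m : ℝ) ≤ 2 * x ^ 2) :
    |BT (x ^ ρ) (η₀ * Real.log x) x t₁ t₂ m -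
      (∑ d ∈ m.divisors.filter (fun d : ℕ => x ^ (1 - β + τ) ≤ (d : ℝ) ∧
          (d : ℝ) ≤ x ^ (1 - τ)), AT (x ^ ρ) (η₀ * Real.log x) t₁ d *
            FT (x ^ ρ) (η₀ * Real.log x) t₂ 0 (m / d) +
        ∑ d ∈ m.divisors.filter (fun d : ℕ => x ^ (1 - β + τ) ≤ (d : ℝ) ∧
          (d : ℝ) ≤ x ^ (1 - τ)), AT (x ^ ρ) (η₀ * Real.log x) t₂ d *
            FT (x ^ ρ) (η₀ * Real.log x) t₁ x (m / d))| ≤
      2 * ((m.divisors.filter (fun u : ℕ => Rough (x ^ ρ) u ∧ Squarefree u ∧ y < (u : ℝ) ∧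
        (u : ℝ) ≤ y * z)).card : ℝ) := by
  have hx0 : 0 < x := by linarith
  have key1 := a16_split m.divisors (fun d => AT (x ^ ρ) (η₀ * Real.log x) t₁ d *
            FT (x ^ ρ) (η₀ * Real.log x) t₂ 0 (m / d)) (x ^ ρ) (x ^ (1 - β + τ)) y z
      (fun u : ℕ => (u : ℝ) ≤ x)
      (by
        intro u
        rw [abs_mul]
        exact mul_le_one₀ (a16_at_le _ _ _ _) (abs_nonneg _) ((ft_flip _ _ _ _).bd _))
      (by
        intro u _ hu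
        obtain ⟨a1, a2, a3⟩ := a16_at_ne (left_ne_zero_of_mul hu)
        exact ⟨a1, a2, a16_low hτ hη hx h1 a2 a3⟩)
      (by
        intro u _ _ hu
        rw [hyz]
        linarith)
      (by
        intro u hu
        exact hu.trans hyx)
  have key2 := a16_split m.divisors (fun d => AT (x ^ ρ) (η₀ * Real.log x) t₂ d *
            FT (x ^ ρ) (η₀ * Real.log x) t₁ x (m / d)) (x ^ ρ) (x ^ (1 - β + τ)) y z
      (fun _ : ℕ => True)
      (by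
        intro u
        rw [abs_mul]
        exact mul_le_one₀ (a16_at_le _ _ _ _) (abs_nonneg _) ((ft_flip _ _ _ _).bd _))
      (by
        intro u _ hu
        obtain ⟨a1, a2, a3⟩ := a16_at_ne (left_ne_zero_of_mul hu)
        exact ⟨a1, a2, a16_low hτ hη hx h2 a2 a3⟩)
      (by
        intro u hu hu2 _
        rw [hyz]
        have hud := Nat.dvd_of_mem_divisors hu
        have hu0 : 0 < u := Nat.pos_of_mem_divisors hu
        have hmu : m / u ≠ 0 := by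
          have := Nat.div_pos (Nat.le_of_dvd (Nat.pos_of_ne_zero hm) hud) hu0
          omega
        have h5 := a16_ft_ne (right_ne_zero_of_mul hu2)
        have h6 : ((rg (x ^ ρ) (m / u) : ℕ) : ℝ) ≤ ((m / u : ℕ) : ℝ) := by
          exact_mod_cast a16_rg_le (x ^ ρ) hmu
        have h7 : (u : ℝ) * ((m / u : ℕ) : ℝ) = m := by
          exact_mod_cast Nat.mul_div_cancel' hud
        have hu0' : (0 : ℝ) < u := by exact_mod_cast hu0
        have h8 : (u : ℝ) * x ≤ m := by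
          rw [← h7]
          exact mul_le_mul_of_nonneg_left (by linarith) hu0'.le
        have h9 : (u : ℝ) * x ≤ (2 * x) * x := by nlinarith
        exact le_of_mul_le_mul_right h9 hx0)
      (fun _ _ => trivial)
  rw [Finset.filter_true] at key2
  rw [hy] at key1 key2 ⊢
  unfold BT
  have e : ∀ a b c d : ℝ, a + b - (c + d) = (a - c) + (b - d) := by intros; ring
  rw [e]
  refine (abs_add_le _ _).trans ?_
  have := add_le_add key1 key2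
  linarith

open Classical in
theorem type_bound_pr {β τ₁ ρ η₀ δ Λ ε : ℝ} (hβ : 0 < β) (hβ1 : β < 1) (hτ₁ : 0 < τ₁) (hρ : 0 < ρ)
    (hρ1 : ρ < 1 / 2) (hη : 0 < η₀) (hδ : 0 < δ) (hδ1 : δ ≤ 1) (hΛ : 0 ≤ Λ) (hε : 0 < ε)
    (t₁ t₂ : Multiset ℕ) (h1 : 1 - β + τ₁ ≤ η₀ * ((t₁.sum : ℕ) : ℝ))
    (h2 : 1 - β + τ₁ ≤ η₀ * ((t₂.sum : ℕ) : ℝ)) :
    ∃ x₀ : ℝ, ∀ x : ℝ, x₀ ≤ x → ∀ f : ℝ → ℝ, Cut δ Λ f →
      ∑ b ∈ Finset.Icc 1 ⌊x ^ β⌋₊,
        |∑ n ∈ (Finset.Icc 1 ⌊x⌋₊).filter (fun n => Nat.Coprime n b), f ((n : ℝ) / x) *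
          BT (x ^ ρ) (η₀ * Real.log x) x t₁ t₂ (n ^ 2 + b ^ 2)| ≤ ε * x ^ (1 + β) := by
  obtain ⟨C, X₁, hC1, hC⟩ := mid_count β ρ hβ hβ1 hρ (by linarith)
  have hC0 : 0 < C := by linarith
  obtain ⟨τ, hτ, hτ1, hτβ, hτh, hτC⟩ : ∃ τ : ℝ, 0 < τ ∧ τ ≤ τ₁ ∧ 2 * τ < β ∧ τ ≤ 1 / 2 ∧
      C * τ ≤ ε / 8 := by
    refine ⟨min (min τ₁ (β / 4)) (min (1 / 2) (ε / (8 * C))), ?_, ?_, ?_, ?_, ?_⟩
    · positivity
    · exact (min_le_left _ _).trans (min_le_left _ _)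
    · have : min (min τ₁ (β / 4)) (min (1 / 2) (ε / (8 * C))) ≤ β / 4 :=
        (min_le_left _ _).trans (min_le_right _ _)
      linarith
    · exact (min_le_right _ _).trans (min_le_left _ _)
    · have h3 : min (min τ₁ (β / 4)) (min (1 / 2) (ε / (8 * C))) ≤ ε / (8 * C) :=
        (min_le_right _ _).trans (min_le_right _ _)
      calc C * _ ≤ C * (ε / (8 * C)) := mul_le_mul_of_nonneg_left h3 hC0.le
        _ = ε / 8 := by field_simp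
  obtain ⟨X₂, hX₂⟩ := bil_int (τ := τ) (ρ := ρ) hτ hτβ hβ1 hρ hδ hδ1 hΛ (ε := ε / 4)
    (by linarith)
  refine ⟨max (max X₁ X₂) (max (Real.exp (8 * C * (Real.log 2 + 1) / ε + 1)) 2),
    fun x hx f hf => ?_⟩
  have hxX1 : X₁ ≤ x := ((le_max_left _ _).trans (le_max_left _ _)).trans hx
  have hxX2 : X₂ ≤ x := ((le_max_right _ _).trans (le_max_left _ _)).trans hx
  have hxe : Real.exp (8 * C * (Real.log 2 + 1) / ε + 1) ≤ x :=
    ((le_max_left _ _).trans (le_max_right _ _)).trans hx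
  have hx2 : 2 ≤ x := ((le_max_right _ _).trans (le_max_right _ _)).trans hx
  have hx0 : 0 < x := by linarith
  have hx1 : 1 < x := by linarith
  have hl2 : 0 < Real.log 2 := Real.log_pos (by norm_num)
  have hlog : 8 * C * (Real.log 2 + 1) / ε + 1 ≤ Real.log x := by
    rw [← Real.log_exp (8 * C * (Real.log 2 + 1) / ε + 1)]
    exact Real.log_le_log (Real.exp_pos _) hxe
  have hl : 0 < Real.log x := Real.log_pos hx1
  have hlogC : C * (Real.log 2 + 1) / Real.log x ≤ ε / 8 := by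
    rw [div_le_iff₀ hl]
    have h3 : 8 * C * (Real.log 2 + 1) / ε ≤ Real.log x := by linarith
    rw [div_le_iff₀ hε] at h3
    linarith
  set y : ℝ := x ^ (1 - τ) with hy
  set z : ℝ := 2 * x ^ τ with hz
  have hyz : y * z = 2 * x := by
    rw [hy, hz]
    have h3 : x ^ (1 - τ) * x ^ τ = x := by
      rw [← Real.rpow_add hx0]
      simp
    calc x ^ (1 - τ) * (2 * x ^ τ) = 2 * (x ^ (1 - τ) * x ^ τ) := by ring
      _ = 2 * x := by rw [h3]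
  have hyx : y ≤ x := by
    calc x ^ (1 - τ) ≤ x ^ (1 : ℝ) := Real.rpow_le_rpow_of_exponent_le hx1.le (by linarith)
      _ = x := Real.rpow_one x
  have hz1 : 1 ≤ z := by
    have : 1 ≤ x ^ τ := Real.one_le_rpow hx1.le hτ.le
    rw [hz]
    linarith
  have hρy : x ^ ρ ≤ y := Real.rpow_le_rpow_of_exponent_le hx1.le (by linarith)
  have hmid := hC x hxX1 y z hρy hz1 hyz.le
  have hlz : Real.log z = Real.log 2 + τ * Real.log x := by
    rw [hz, Real.log_mul (by norm_num) (Real.rpow_pos_of_pos hx0 _).ne', Real.log_rpow hx0]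
  have hcoef : C * (Real.log z + 1) / Real.log x ≤ ε / 4 := by
    rw [hlz]
    have e1 : C * (Real.log 2 + τ * Real.log x + 1) / Real.log x =
        C * τ + C * (Real.log 2 + 1) / Real.log x := by
      field_simp
      ring
    rw [e1]
    linarith
  have hpos : (0 : ℝ) < x ^ (1 + β) := Real.rpow_pos_of_pos hx0 _
  have hbil1 := hX₂ x hxX2 f hf (AT (x ^ ρ) (η₀ * Real.log x) t₁)
    (FT (x ^ ρ) (η₀ * Real.log x) t₂ 0) (a16_at_le _ _ _) (fun d hd => (a16_at_ne hd).1)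
    (ft_flip _ _ _ _)
  have hbil2 := hX₂ x hxX2 f hf (AT (x ^ ρ) (η₀ * Real.log x) t₂)
    (FT (x ^ ρ) (η₀ * Real.log x) t₁ x) (a16_at_le _ _ _) (fun d hd => (a16_at_ne hd).1)
    (ft_flip _ _ _ _)
  have hxβ : x ^ β ≤ x := by
    calc x ^ β ≤ x ^ (1 : ℝ) := Real.rpow_le_rpow_of_exponent_le hx1.le hβ1.le
      _ = x := Real.rpow_one x
  -- the sum of the counts
  have hcnt : ∑ b ∈ Finset.Icc 1 ⌊x ^ β⌋₊,
      ∑ n ∈ (Finset.Icc 1 ⌊x⌋₊).filter (fun n => Nat.Coprime n b),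
        (((n ^ 2 + b ^ 2).divisors.filter (fun u : ℕ =>
          Rough (x ^ ρ) u ∧ Squarefree u ∧ y < (u : ℝ) ∧ (u : ℝ) ≤ y * z)).card : ℝ) =
      ∑ t ∈ Prs β x, (((t.1 ^ 2 + t.2 ^ 2).divisors.filter (fun u : ℕ =>
        Rough (x ^ ρ) u ∧ Squarefree u ∧ y < (u : ℝ) ∧ (u : ℝ) ≤ y * z)).card : ℝ) := by
    unfold Prs
    rw [Finset.sum_filter, Finset.sum_product_right]
    refine Finset.sum_congr rfl fun b _ => ?_
    rw [Finset.sum_filter]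
  have hterm : ∀ b ∈ Finset.Icc 1 ⌊x ^ β⌋₊,
      |∑ n ∈ (Finset.Icc 1 ⌊x⌋₊).filter (fun n => Nat.Coprime n b), f ((n : ℝ) / x) *
          BT (x ^ ρ) (η₀ * Real.log x) x t₁ t₂ (n ^ 2 + b ^ 2)| ≤
      |∑ n ∈ (Finset.Icc 1 ⌊x⌋₊).filter (fun n => Nat.Coprime n b), f ((n : ℝ) / x) *
          ∑ d ∈ (n ^ 2 + b ^ 2).divisors.filter (fun d : ℕ =>
            x ^ (1 - β + τ) ≤ (d : ℝ) ∧ (d : ℝ) ≤ x ^ (1 - τ)),
            AT (x ^ ρ) (η₀ * Real.log x) t₁ d *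
              FT (x ^ ρ) (η₀ * Real.log x) t₂ 0 ((n ^ 2 + b ^ 2) / d)| +
      |∑ n ∈ (Finset.Icc 1 ⌊x⌋₊).filter (fun n => Nat.Coprime n b), f ((n : ℝ) / x) *
          ∑ d ∈ (n ^ 2 + b ^ 2).divisors.filter (fun d : ℕ =>
            x ^ (1 - β + τ) ≤ (d : ℝ) ∧ (d : ℝ) ≤ x ^ (1 - τ)),
            AT (x ^ ρ) (η₀ * Real.log x) t₂ d *
              FT (x ^ ρ) (η₀ * Real.log x) t₁ x ((n ^ 2 + b ^ 2) / d)| +
      2 * ∑ n ∈ (Finset.Icc 1 ⌊x⌋₊).filter (fun n => Nat.Coprime n b),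
        (((n ^ 2 + b ^ 2).divisors.filter (fun u : ℕ =>
          Rough (x ^ ρ) u ∧ Squarefree u ∧ y < (u : ℝ) ∧ (u : ℝ) ≤ y * z)).card : ℝ) := by
    intro b hb
    rw [Finset.mem_Icc] at hb
    have hbx : (b : ℝ) ≤ x := by
      have h3 : (b : ℝ) ≤ (⌊x ^ β⌋₊ : ℝ) := by exact_mod_cast hb.2
      exact (h3.trans (Nat.floor_le (Real.rpow_nonneg hx0.le _))).trans hxβ
    have hdiff : |∑ n ∈ (Finset.Icc 1 ⌊x⌋₊).filter (fun n => Nat.Coprime n b), f ((n : ℝ) / x) *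
          BT (x ^ ρ) (η₀ * Real.log x) x t₁ t₂ (n ^ 2 + b ^ 2) -
        (∑ n ∈ (Finset.Icc 1 ⌊x⌋₊).filter (fun n => Nat.Coprime n b), f ((n : ℝ) / x) *
          ∑ d ∈ (n ^ 2 + b ^ 2).divisors.filter (fun d : ℕ =>
            x ^ (1 - β + τ) ≤ (d : ℝ) ∧ (d : ℝ) ≤ x ^ (1 - τ)),
            AT (x ^ ρ) (η₀ * Real.log x) t₁ d *
              FT (x ^ ρ) (η₀ * Real.log x) t₂ 0 ((n ^ 2 + b ^ 2) / d) +
          ∑ n ∈ (Finset.Icc 1 ⌊x⌋₊).filter (fun n => Nat.Coprime n b), f ((n : ℝ) / x) *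
          ∑ d ∈ (n ^ 2 + b ^ 2).divisors.filter (fun d : ℕ =>
            x ^ (1 - β + τ) ≤ (d : ℝ) ∧ (d : ℝ) ≤ x ^ (1 - τ)),
            AT (x ^ ρ) (η₀ * Real.log x) t₂ d *
              FT (x ^ ρ) (η₀ * Real.log x) t₁ x ((n ^ 2 + b ^ 2) / d))| ≤
        2 * ∑ n ∈ (Finset.Icc 1 ⌊x⌋₊).filter (fun n => Nat.Coprime n b),
        (((n ^ 2 + b ^ 2).divisors.filter (fun u : ℕ =>
          Rough (x ^ ρ) u ∧ Squarefree u ∧ y < (u : ℝ) ∧ (u : ℝ) ≤ y * z)).card : ℝ) := by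
      rw [← Finset.sum_add_distrib, ← Finset.sum_sub_distrib, Finset.mul_sum]
      refine (Finset.abs_sum_le_sum_abs _ _).trans (Finset.sum_le_sum fun n hn => ?_)
      rw [Finset.mem_filter, Finset.mem_Icc] at hn
      have hnx : (n : ℝ) ≤ x := by
        have h3 : (n : ℝ) ≤ (⌊x⌋₊ : ℝ) := by exact_mod_cast hn.1.2
        exact h3.trans (Nat.floor_le hx0.le)
      have hm0 : n ^ 2 + b ^ 2 ≠ 0 := by
        have : 1 ≤ b ^ 2 := Nat.one_le_pow _ _ hb.1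
        omega
      have hmx : ((n ^ 2 + b ^ 2 : ℕ) : ℝ) ≤ 2 * x ^ 2 := by
        push_cast
        have h3 : (n : ℝ) ^ 2 ≤ x ^ 2 := pow_le_pow_left₀ (Nat.cast_nonneg _) hnx 2
        have h4 : (b : ℝ) ^ 2 ≤ x ^ 2 := pow_le_pow_left₀ (Nat.cast_nonneg _) hbx 2
        linarith
      have hk := a16_bt (β := β) (τ₁ := τ₁) (ρ := ρ) hτ1 hη hx1 hy hyx hyz t₁ t₂ h1 h2 hm0 hmx
      rw [← mul_add, ← mul_sub, abs_mul, abs_of_nonneg (hf.nonneg _)]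
      calc f ((n : ℝ) / x) * _ ≤ 1 * _ :=
            mul_le_mul_of_nonneg_right (hf.le_one _) (abs_nonneg _)
        _ ≤ _ := by rw [one_mul]; exact hk
    have h3 := abs_add_le
      (∑ n ∈ (Finset.Icc 1 ⌊x⌋₊).filter (fun n => Nat.Coprime n b), f ((n : ℝ) / x) *
          ∑ d ∈ (n ^ 2 + b ^ 2).divisors.filter (fun d : ℕ =>
            x ^ (1 - β + τ) ≤ (d : ℝ) ∧ (d : ℝ) ≤ x ^ (1 - τ)),
            AT (x ^ ρ) (η₀ * Real.log x) t₁ d *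
              FT (x ^ ρ) (η₀ * Real.log x) t₂ 0 ((n ^ 2 + b ^ 2) / d))
      (∑ n ∈ (Finset.Icc 1 ⌊x⌋₊).filter (fun n => Nat.Coprime n b), f ((n : ℝ) / x) *
          ∑ d ∈ (n ^ 2 + b ^ 2).divisors.filter (fun d : ℕ =>
            x ^ (1 - β + τ) ≤ (d : ℝ) ∧ (d : ℝ) ≤ x ^ (1 - τ)),
            AT (x ^ ρ) (η₀ * Real.log x) t₂ d *
              FT (x ^ ρ) (η₀ * Real.log x) t₁ x ((n ^ 2 + b ^ 2) / d))
    have h4 := abs_sub_abs_le_abs_sub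
      (∑ n ∈ (Finset.Icc 1 ⌊x⌋₊).filter (fun n => Nat.Coprime n b), f ((n : ℝ) / x) *
          BT (x ^ ρ) (η₀ * Real.log x) x t₁ t₂ (n ^ 2 + b ^ 2))
      (∑ n ∈ (Finset.Icc 1 ⌊x⌋₊).filter (fun n => Nat.Coprime n b), f ((n : ℝ) / x) *
          ∑ d ∈ (n ^ 2 + b ^ 2).divisors.filter (fun d : ℕ =>
            x ^ (1 - β + τ) ≤ (d : ℝ) ∧ (d : ℝ) ≤ x ^ (1 - τ)),
            AT (x ^ ρ) (η₀ * Real.log x) t₁ d *
              FT (x ^ ρ) (η₀ * Real.log x) t₂ 0 ((n ^ 2 + b ^ 2) / d) +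
          ∑ n ∈ (Finset.Icc 1 ⌊x⌋₊).filter (fun n => Nat.Coprime n b), f ((n : ℝ) / x) *
          ∑ d ∈ (n ^ 2 + b ^ 2).divisors.filter (fun d : ℕ =>
            x ^ (1 - β + τ) ≤ (d : ℝ) ∧ (d : ℝ) ≤ x ^ (1 - τ)),
            AT (x ^ ρ) (η₀ * Real.log x) t₂ d *
              FT (x ^ ρ) (η₀ * Real.log x) t₁ x ((n ^ 2 + b ^ 2) / d))
    linarith
  refine (Finset.sum_le_sum hterm).trans ?_
  rw [Finset.sum_add_distrib, Finset.sum_add_distrib, ← Finset.mul_sum, hcnt]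
  have h5 : ∑ t ∈ Prs β x, (((t.1 ^ 2 + t.2 ^ 2).divisors.filter (fun u : ℕ =>
        Rough (x ^ ρ) u ∧ Squarefree u ∧ y < (u : ℝ) ∧ (u : ℝ) ≤ y * z)).card : ℝ) ≤
      ε / 4 * x ^ (1 + β) := hmid.trans (mul_le_mul_of_nonneg_right hcoef hpos.le)
  linarith

end Pool.Agent.TR

namespace Pool.Agent.TR

theorem type_bound : type_of% @type_bound_pr := @type_bound_pr

end Pool.Agent.TR
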