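import Pool.Agent.Lib_helper97.TRL.A4
import Pool.Agent.Lib_helper10.T2F.BAS
import Pool.Agent.Lib_helper97.TR.Defs
import Pool.Agent.Lib_helper97.TRL.D42
import Pool.Agent.Lib_helper97.TRL.D42A
import Pool.Agent.Lib_helper97.TRL.M42

/-! TR, block A5: counting factorizations of a given type. -/

set_option autoImplicit false

namespace Pool.Agent.TR

open Pool.Agent.T2 Pool.Agent.TF

theorem a5_powerset_map (f : ℕ → ℕ) (s : Multiset ℕ) :
    (s.map f).powerset = s.powerset.map (Multiset.map f) := by
  induction s using Multiset.induction_on with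
  | empty => simp
  | cons a s ih =>
    rw [Multiset.map_cons, Multiset.powerset_cons, Multiset.powerset_cons, ih, Multiset.map_add,
      Multiset.map_map, Multiset.map_map]
    congr 1
    refine Multiset.map_congr rfl fun t _ => ?_
    simp

theorem a5_powerset_val (F : Finset ℕ) : F.powerset.val.map Finset.val = F.val.powerset := by
  unfold Finset.powerset
  rw [Multiset.map_pmap]
  simp only [Multiset.pmap_eq_map, Multiset.map_id']

theorem a5_card (F : Finset ℕ) (f : ℕ → ℕ) (t : Multiset ℕ) :
    (F.powerset.filter (fun S => S.val.map f = t)).card = (F.val.map f).powerset.count t := by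
  rw [a5_powerset_map, ← a5_powerset_val, Multiset.map_map, Multiset.count_map,
    Finset.card_def, Finset.filter_val]
  congr 1
  refine Multiset.filter_congr fun S _ => ?_
  simp only [Function.comp]
  exact eq_comm

theorem ty_count_pr (h : ℝ) {r : ℕ} (hr : Squarefree r) (t₁ t₂ : Multiset ℕ) :
    (r.divisors.filter (fun u => ty h u = t₁ ∧ ty h (r / u) = t₂)).card =
      if ty h r = t₁ + t₂ then (t₁ + t₂).powerset.count t₁ else 0 := by
  have hr0 : r ≠ 0 := hr.ne_zero
  have hadd : ∀ u ∈ r.divisors, ty h r = ty h u + ty h (r / u) := by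
    intro u hu
    have hud : u ∣ r := Nat.dvd_of_mem_divisors hu
    have hmul : u * (r / u) = r := Nat.mul_div_cancel' hud
    have hu0 : u ≠ 0 := by
      rintro rfl
      exact hr0 (by simpa using hmul.symm)
    have hv0 : r / u ≠ 0 := by
      intro h0
      rw [h0, mul_zero] at hmul
      exact hr0 hmul.symm
    have hcop : Nat.Coprime u (r / u) := by
      refine Nat.coprime_of_squarefree_mul ?_
      rw [hmul]
      exact hr
    have := ty_mul h hu0 hv0 hcop
    rwa [hmul] at this
  by_cases ht : ty h r = t₁ + t₂
  · rw [if_pos ht]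
    have h1 : r.divisors.filter (fun u => ty h u = t₁ ∧ ty h (r / u) = t₂) =
        r.divisors.filter (fun u => ty h u = t₁) := by
      refine Finset.filter_congr fun u hu => ?_
      constructor
      · exact fun h => h.1
      · intro h1
        refine ⟨h1, ?_⟩
        have h2 := hadd u hu
        rw [ht, h1] at h2
        exact (add_left_cancel h2).symm
    rw [h1, ← ht]
    have h2 : (ty h r).powerset.count t₁ =
        (r.primeFactors.powerset.filter (fun S => S.val.map (idx h) = t₁)).card := by
      rw [a5_card]
      rfl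
    rw [h2]
    refine Finset.card_bij' (fun u _ => u.primeFactors) (fun S _ => ∏ p ∈ S, p) ?_ ?_ ?_ ?_
    · intro u hu
      rw [Finset.mem_filter] at hu ⊢
      refine ⟨Finset.mem_powerset.2 (Nat.primeFactors_mono (Nat.dvd_of_mem_divisors hu.1) hr0),
        hu.2⟩
    · intro S hS
      rw [Finset.mem_filter, Finset.mem_powerset] at hS
      have hp : ∀ p ∈ S, p.Prime := fun p hp => Nat.prime_of_mem_primeFactors (hS.1 hp)
      rw [Finset.mem_filter, Nat.mem_divisors]
      refine ⟨⟨?_, hr0⟩, ?_⟩
      · calc ∏ p ∈ S, p ∣ ∏ p ∈ r.primeFactors, p := Finset.prod_dvd_prod_of_subset _ _ _ hS.1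
          _ = r := Nat.prod_primeFactors_of_squarefree hr
      · unfold ty
        rw [Nat.primeFactors_prod hp]
        exact hS.2
    · intro u hu
      rw [Finset.mem_filter] at hu
      exact Nat.prod_primeFactors_of_squarefree
        (hr.squarefree_of_dvd (Nat.dvd_of_mem_divisors hu.1))
    · intro S hS
      rw [Finset.mem_filter, Finset.mem_powerset] at hS
      exact Nat.primeFactors_prod fun p hp => Nat.prime_of_mem_primeFactors (hS.1 hp)
  · rw [if_neg ht, Finset.card_eq_zero, Finset.filter_eq_empty_iff]
    rintro u hu ⟨h1, h2⟩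
    exact ht (by rw [hadd u hu, h1, h2])

theorem count_pos_pr {t₁ t : Multiset ℕ} (h : t₁ ≤ t) : 0 < t.powerset.count t₁ := by
  rw [Multiset.count_pos, Multiset.mem_powerset]
  exact h




end Pool.Agent.TR

namespace Pool.Agent.TR

theorem ty_count : type_of% @ty_count_pr := @ty_count_pr
theorem count_pos : type_of% @count_pos_pr := @count_pos_pr

end Pool.Agent.TR
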