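import Pool.Agent.Lib_helper10.T2F.BAS
import Pool.Agent.Lib_helper97.TR.Defs
import Pool.Agent.Lib_helper97.TRL.D42
import Pool.Agent.Lib_helper97.TRL.D42A
import Pool.Agent.Lib_helper97.TRL.M42

set_option autoImplicit false

namespace Pool.Agent.TR

open Pool.Agent.T2 Pool.Agent.TF

theorem a7_small {A η₀ : ℝ} (t : Multiset ℕ) (ht : ∀ i ∈ t, (i : ℝ) * η₀ < A)
    (hs : A ≤ η₀ * ((t.sum : ℕ) : ℝ)) (hA : 0 < A) :
    ∃ t₁ ≤ t, A ≤ η₀ * ((t₁.sum : ℕ) : ℝ) ∧ η₀ * ((t₁.sum : ℕ) : ℝ) < 2 * A := by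
  induction t using Multiset.induction_on with
  | empty =>
    simp only [Multiset.sum_zero, Nat.cast_zero, mul_zero] at hs
    exact absurd hs (not_le.2 hA)
  | cons a s ih =>
    by_cases h : A ≤ η₀ * ((s.sum : ℕ) : ℝ)
    · obtain ⟨t₁, h1, h2⟩ := ih (fun i hi => ht i (Multiset.mem_cons_of_mem hi)) h
      exact ⟨t₁, h1.trans (Multiset.le_cons_self s a), h2⟩
    · refine ⟨a ::ₘ s, le_rfl, hs, ?_⟩
      have h1 := ht a (Multiset.mem_cons_self a s)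
      rw [Multiset.sum_cons, Nat.cast_add, mul_add]
      push Not at h
      linarith

theorem choose_type_pr {A top tot η₀ : ℝ} (hA : 0 < A) (h1 : top + A ≤ tot) (h2 : 3 * A ≤ tot)
    (hη : 0 < η₀) (t : Multiset ℕ) (ht : ∀ i ∈ t, (i : ℝ) * η₀ < top)
    (hs : tot ≤ η₀ * ((t.sum : ℕ) : ℝ)) :
    ∃ t₁ ≤ t, A ≤ η₀ * ((t₁.sum : ℕ) : ℝ) ∧ A ≤ η₀ * (((t - t₁).sum : ℕ) : ℝ) := by
  have hsub : ∀ t₁ ≤ t, η₀ * (((t - t₁).sum : ℕ) : ℝ) =
      η₀ * ((t.sum : ℕ) : ℝ) - η₀ * ((t₁.sum : ℕ) : ℝ) := by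
    intro t₁ ht₁
    have e : (t - t₁).sum + t₁.sum = t.sum := by
      rw [← Multiset.sum_add, tsub_add_cancel_of_le ht₁]
    rw [← e]
    push_cast
    ring
  by_cases hex : ∃ i ∈ t, A ≤ (i : ℝ) * η₀
  · obtain ⟨i, hi, hiA⟩ := hex
    have hle : ({i} : Multiset ℕ) ≤ t := Multiset.singleton_le.2 hi
    refine ⟨{i}, hle, ?_, ?_⟩
    · rw [Multiset.sum_singleton]
      linarith
    · rw [hsub _ hle, Multiset.sum_singleton]
      have := ht i hi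
      linarith
  · push Not at hex
    obtain ⟨t₁, hle, h3, h4⟩ := a7_small t hex (by linarith) hA
    refine ⟨t₁, hle, h3, ?_⟩
    rw [hsub _ hle]
    linarith



end Pool.Agent.TR

namespace Pool.Agent.TR

theorem choose_type : type_of% @choose_type_pr := @choose_type_pr

end Pool.Agent.TR
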