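import Pool.Agent.Lib_helper97.TRL.A1
import Pool.Agent.Lib_helper97.TRL.A2
import Pool.Agent.Lib_helper97.TRL.A5
import Pool.Agent.Lib_helper10.T2F.BAS
import Pool.Agent.Lib_helper97.TR.Defs
import Pool.Agent.Lib_helper97.TRL.D42
import Pool.Agent.Lib_helper97.TRL.D42A
import Pool.Agent.Lib_helper97.TRL.M42

set_option autoImplicit false

namespace Pool.Agent.TR

open Pool.Agent.T2 Pool.Agent.TF

theorem a8_rg_dvd (R : ℝ) {m : ℕ} (hm : m ≠ 0) : rg R m ∣ m :=
  ⟨sm R m, by rw [mul_comm]; exact (sm_mul_rg R hm).symm⟩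

theorem a8_rough {R : ℝ} {m u : ℕ} (hu : u ∣ rg R m) : Rough R u := by
  have h := rg_rough R m
  refine ⟨fun h0 => h.1 (by rw [h0] at hu; exact Nat.eq_zero_of_zero_dvd hu), fun p hp hpu => ?_⟩
  exact h.2 p hp (hpu.trans hu)

theorem a8_sum {R h : ℝ} {m : ℕ} (hm : m ≠ 0) (hr : Squarefree (rg R m)) (t : Multiset ℕ)
    (g : ℕ → ℝ) : ∑ u ∈ m.divisors, AT R h t u * g u =
      ∑ u ∈ (rg R m).divisors, if ty h u = t then g u else 0 := by
  classical
  symm
  refine Finset.sum_subset_zero_on_sdiff (Nat.divisors_subset_of_dvd hm (a8_rg_dvd R hm)) ?_ ?_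
  · intro u hu
    rw [Finset.mem_sdiff, Nat.mem_divisors, Nat.mem_divisors] at hu
    have : ¬ (Rough R u ∧ Squarefree u ∧ ty h u = t) := by
      rintro ⟨h1, -, -⟩
      exact hu.2 ⟨(rough_dvd_rg h1 hm).mpr hu.1.1, rg_ne R m⟩
    unfold AT
    rw [if_neg this, zero_mul]
  · intro u hu
    have hu' := Nat.dvd_of_mem_divisors hu
    unfold AT
    by_cases ht : ty h u = t
    · rw [if_pos ht, if_pos ⟨a8_rough hu', hr.squarefree_of_dvd hu', ht⟩, one_mul]
    · rw [if_neg ht, if_neg (fun h' => ht h'.2.2), zero_mul]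

theorem a8_FT {R h : ℝ} {m : ℕ} (hm : m ≠ 0) (hr : Squarefree (rg R m)) (t : Multiset ℕ) (z : ℝ)
    {u : ℕ} (hu : u ∈ (rg R m).divisors) : FT R h t z (m / u) =
      if ty h (rg R m / u) = t ∧ z < ((rg R m / u : ℕ) : ℝ) then lam (sm R m) else 0 := by
  classical
  have hu' := Nat.dvd_of_mem_divisors hu
  obtain ⟨h1, h2⟩ := sm_div (a8_rough hu') hm (hu'.trans (a8_rg_dvd R hm))
  have h3 : Squarefree (rg R m / u) := hr.squarefree_of_dvd (Nat.div_dvd_of_dvd hu')
  unfold FT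
  rw [h1, h2]
  simp only [h3, true_and]

theorem bt_eq_pr {R h x : ℝ} {m : ℕ} (hm : m ≠ 0) (hr : Squarefree (rg R m))
    (t₁ t₂ : Multiset ℕ) :
    BT R h x t₁ t₂ m = if ty h (rg R m) = t₁ + t₂ then
      ((t₁ + t₂).powerset.count t₁ : ℝ) * lam (sm R m) else 0 := by
  classical
  have hr0 := rg_ne R m
  have e1 : ∑ u ∈ m.divisors.filter (fun u : ℕ => (u : ℝ) ≤ x),
      AT R h t₁ u * FT R h t₂ 0 (m / u) =
      ∑ u ∈ (rg R m).divisors, if (ty h u = t₁ ∧ ty h (rg R m / u) = t₂) ∧ (u : ℝ) ≤ x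
        then lam (sm R m) else 0 := by
    rw [Finset.sum_filter]
    have : ∀ u ∈ m.divisors, (if (u : ℝ) ≤ x then AT R h t₁ u * FT R h t₂ 0 (m / u) else 0) =
        AT R h t₁ u * (if (u : ℝ) ≤ x then FT R h t₂ 0 (m / u) else 0) := by
      intro u _
      split_ifs <;> simp
    rw [Finset.sum_congr rfl this, a8_sum hm hr]
    refine Finset.sum_congr rfl fun u hu => ?_
    rw [a8_FT hm hr t₂ 0 hu]
    have hpos : (0 : ℝ) < ((rg R m / u : ℕ) : ℝ) := by
      exact_mod_cast Nat.div_pos (Nat.le_of_dvd (Nat.pos_of_ne_zero hr0)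
        (Nat.dvd_of_mem_divisors hu)) (Nat.pos_of_mem_divisors hu)
    by_cases h1 : ty h u = t₁ <;> by_cases h2 : ty h (rg R m / u) = t₂ <;>
      by_cases h3 : (u : ℝ) ≤ x <;> simp [h1, h2, h3, hpos]
  have e2 : ∑ v ∈ m.divisors, AT R h t₂ v * FT R h t₁ x (m / v) =
      ∑ u ∈ (rg R m).divisors, if (ty h u = t₁ ∧ ty h (rg R m / u) = t₂) ∧ x < (u : ℝ)
        then lam (sm R m) else 0 := by
    rw [a8_sum hm hr]
    rw [← Nat.sum_div_divisors (rg R m) (fun v => if ty h v = t₂ then FT R h t₁ x (m / v) else 0)]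
    refine Finset.sum_congr rfl fun u hu => ?_
    have hu' := Nat.dvd_of_mem_divisors hu
    have hv : rg R m / u ∈ (rg R m).divisors :=
      Nat.mem_divisors.mpr ⟨Nat.div_dvd_of_dvd hu', hr0⟩
    rw [a8_FT hm hr t₁ x hv, Nat.div_div_self hu' hr0]
    by_cases h1 : ty h u = t₁ <;> by_cases h2 : ty h (rg R m / u) = t₂ <;>
      by_cases h3 : x < (u : ℝ) <;> simp [h1, h2, h3]
  unfold BT
  rw [e1, e2, ← Finset.sum_add_distrib]
  have e3 : ∀ u ∈ (rg R m).divisors,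
      ((if (ty h u = t₁ ∧ ty h (rg R m / u) = t₂) ∧ (u : ℝ) ≤ x then lam (sm R m) else 0) +
        (if (ty h u = t₁ ∧ ty h (rg R m / u) = t₂) ∧ x < (u : ℝ) then lam (sm R m) else 0)) =
      if ty h u = t₁ ∧ ty h (rg R m / u) = t₂ then lam (sm R m) else 0 := by
    intro u _
    by_cases h1 : ty h u = t₁ ∧ ty h (rg R m / u) = t₂
    · rcases le_or_gt (u : ℝ) x with h2 | h2
      · rw [if_pos ⟨h1, h2⟩, if_neg (fun h' => absurd h'.2 (not_lt.mpr h2)), if_pos h1, add_zero]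
      · rw [if_neg (fun h' => absurd h'.2 (not_le.mpr h2)), if_pos ⟨h1, h2⟩, if_pos h1, zero_add]
    · rw [if_neg (fun h' => h1 h'.1), if_neg (fun h' => h1 h'.1), if_neg h1, add_zero]
  rw [Finset.sum_congr rfl e3, ← Finset.sum_filter, Finset.sum_const, nsmul_eq_mul,
    ty_count h hr t₁ t₂]
  split_ifs with h1
  · rfl
  · simp

theorem a8_lam (n : ℕ) : |lam n| ≤ 1 := by
  unfold lam
  split_ifs with h
  · simp
  · rw [abs_pow, abs_neg, abs_one, one_pow]

theorem a8_AT_FT (R h : ℝ) (t t' : Multiset ℕ) (z : ℝ) (u k : ℕ) :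
    |AT R h t u * FT R h t' z k| ≤ 1 := by
  rw [abs_mul]
  have h1 : |AT R h t u| ≤ 1 := by
    unfold AT; split_ifs <;> simp
  have h2 : |FT R h t' z k| ≤ 1 := by
    unfold FT
    split_ifs
    · exact a8_lam _
    · simp
  calc |AT R h t u| * |FT R h t' z k| ≤ 1 * 1 := mul_le_mul h1 h2 (abs_nonneg _) zero_le_one
    _ = 1 := one_mul 1

theorem a8_part (R h : ℝ) (t : Multiset ℕ) {m : ℕ} (hm : m ≠ 0) (D : Finset ℕ)
    (hD : D ⊆ m.divisors) (g : ℕ → ℝ) (hg : ∀ u, |AT R h t u * g u| ≤ 1) :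
    |∑ u ∈ D, AT R h t u * g u| ≤ 2 ^ (rg R m).primeFactors.card := by
  classical
  have h1 : ∑ u ∈ D, AT R h t u * g u =
      ∑ u ∈ D.filter (fun u => Rough R u ∧ Squarefree u), AT R h t u * g u := by
    rw [Finset.sum_filter]
    refine Finset.sum_congr rfl fun u _ => ?_
    split_ifs with h'
    · rfl
    · unfold AT
      rw [if_neg (fun h'' => h' ⟨h''.1, h''.2.1⟩), zero_mul]
  have h2 : (D.filter (fun u => Rough R u ∧ Squarefree u)).card ≤
      ((rg R m).primeFactors.powerset).card := by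
    refine Finset.card_le_card_of_injOn (fun u => u.primeFactors) ?_ ?_
    · intro u hu
      rw [Finset.mem_coe, Finset.mem_filter] at hu
      rw [Finset.mem_coe, Finset.mem_powerset]
      exact Nat.primeFactors_mono ((rough_dvd_rg hu.2.1 hm).mpr
        (Nat.dvd_of_mem_divisors (hD hu.1))) (rg_ne R m)
    · intro u hu v hv huv
      rw [Finset.mem_coe, Finset.mem_filter] at hu hv
      have e1 := Nat.prod_primeFactors_of_squarefree hu.2.2
      have e2 := Nat.prod_primeFactors_of_squarefree hv.2.2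
      simp only at huv
      rw [← e1, ← e2, huv]
  rw [Finset.card_powerset] at h2
  rw [h1]
  calc |∑ u ∈ D.filter (fun u => Rough R u ∧ Squarefree u), AT R h t u * g u|
      ≤ ∑ u ∈ D.filter (fun u => Rough R u ∧ Squarefree u), |AT R h t u * g u| :=
        Finset.abs_sum_le_sum_abs _ _
    _ ≤ ∑ _u ∈ D.filter (fun u => Rough R u ∧ Squarefree u), (1 : ℝ) :=
        Finset.sum_le_sum fun u _ => hg u
    _ = ((D.filter (fun u => Rough R u ∧ Squarefree u)).card : ℝ) := by simp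
    _ ≤ 2 ^ (rg R m).primeFactors.card := by exact_mod_cast h2

theorem bt_bound_pr (R h x : ℝ) (t₁ t₂ : Multiset ℕ) {m : ℕ} (hm : m ≠ 0) :
    |BT R h x t₁ t₂ m| ≤ 2 * 2 ^ (rg R m).primeFactors.card := by
  classical
  unfold BT
  refine (abs_add_le _ _).trans ?_
  have h1 := a8_part R h t₁ hm (m.divisors.filter (fun u : ℕ => (u : ℝ) ≤ x))
    (Finset.filter_subset _ _) (fun u => FT R h t₂ 0 (m / u)) (fun u => a8_AT_FT _ _ _ _ _ _ _)
  have h2 := a8_part R h t₂ hm m.divisors (Finset.Subset.refl _)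
    (fun u => FT R h t₁ x (m / u)) (fun u => a8_AT_FT _ _ _ _ _ _ _)
  linarith




end Pool.Agent.TR

namespace Pool.Agent.TR

theorem bt_eq : type_of% @bt_eq_pr := @bt_eq_pr
theorem bt_bound : type_of% @bt_bound_pr := @bt_bound_pr

end Pool.Agent.TR
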