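import Pool.Agent.Lib_helper97.TRL.A1
import Pool.Agent.Lib_helper97.TRL.A13
import Pool.Agent.Lib_helper97.TRL.A16
import Pool.Agent.Lib_helper97.TRL.A5
import Pool.Agent.Lib_helper97.TRL.A7
import Pool.Agent.Lib_helper97.TRL.A8
import Pool.Agent.Lib_helper97.TRL.A9
import Pool.Agent.Lib_helper10.T2F.BAS
import Pool.Agent.Lib_helper97.TR.Defs
import Pool.Agent.Lib_helper97.TRL.D42
import Pool.Agent.Lib_helper97.TRL.D42A
import Pool.Agent.Lib_helper97.TRL.M42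

set_option autoImplicit false

namespace Pool.Agent.TR

open Pool.Agent.T2 Pool.Agent.TF

theorem a17_pairs (β x : ℝ) (g : ℕ → ℕ → ℝ) : ∑ t ∈ Prs β x, g t.1 t.2 =
    ∑ b ∈ Finset.Icc 1 ⌊x ^ β⌋₊, ∑ n ∈ (Finset.Icc 1 ⌊x⌋₊).filter (fun n => Nat.Coprime n b),
      g n b := by
  unfold Prs
  rw [Finset.sum_filter, Finset.sum_product_right]
  apply Finset.sum_congr rfl
  intro b _
  rw [Finset.sum_filter]

/-- the types with a nonzero value -/
def a17_good (η₀ top tot : ℝ) (t : Multiset ℕ) : Prop :=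
  (∀ i ∈ t, (i : ℝ) * η₀ < top) ∧ tot ≤ η₀ * ((t.sum : ℕ) : ℝ)

theorem a17_gs {η₀ θ top tot : ℝ} {t : Multiset ℕ} (h : ¬ a17_good η₀ top tot t) :
    GS η₀ θ top tot t = 0 := by
  unfold GS
  exact if_neg h

/-- the coefficient of a type -/
noncomputable def a17_g (η₀ θ top tot : ℝ) (T : Multiset ℕ → Multiset ℕ) (t : Multiset ℕ) : ℝ :=
  GS η₀ θ top tot t / ((t.powerset.count (T t) : ℕ) : ℝ)

theorem a17_g_le (η₀ θ top tot : ℝ) (T : Multiset ℕ → Multiset ℕ) (t : Multiset ℕ) :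
    |a17_g η₀ θ top tot T t| ≤ |GS η₀ θ top tot t| := by
  unfold a17_g
  rcases Nat.eq_zero_or_pos (t.powerset.count (T t)) with h | h
  · rw [h]
    simp
  · rw [abs_div, Nat.abs_cast]
    apply div_le_self (abs_nonneg _)
    exact_mod_cast h

theorem a17_point {R h x η₀ θ top tot : ℝ} (S : Finset (Multiset ℕ))
    (T : Multiset ℕ → Multiset ℕ) (hT : ∀ t, a17_good η₀ top tot t → T t ≤ t) {m : ℕ}
    (hm : m ≠ 0) (hr : Squarefree (rg R m)) (hS : ty h (rg R m) ∈ S) :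
    EH R h η₀ θ top tot m =
      ∑ t ∈ S, a17_g η₀ θ top tot T t * BT R h x (T t) (t - T t) m := by
  rw [Finset.sum_eq_single (ty h (rg R m))]
  · by_cases hg : a17_good η₀ top tot (ty h (rg R m))
    · have h1 := hT _ hg
      have h2 : T (ty h (rg R m)) + (ty h (rg R m) - T (ty h (rg R m))) = ty h (rg R m) :=
        add_tsub_cancel_of_le h1
      rw [bt_eq hm hr, h2, if_pos rfl]
      have h3 : (0 : ℝ) <
          (((ty h (rg R m)).powerset.count (T (ty h (rg R m))) : ℕ) : ℝ) := by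
        exact_mod_cast count_pos h1
      rw [EH, if_pos hr, a17_g]
      field_simp
    · rw [EH, if_pos hr, a17_g, a17_gs hg]
      simp
  · intro t _ ht
    by_cases hg : a17_good η₀ top tot t
    · rw [bt_eq hm hr, add_tsub_cancel_of_le (hT t hg), if_neg (Ne.symm ht)]
      simp
    · rw [a17_g, a17_gs hg]
      simp
  · intro h
    exact absurd hS h

open Classical in
theorem a17_diff {R h x η₀ θ top tot : ℝ} (S : Finset (Multiset ℕ))
    (T : Multiset ℕ → Multiset ℕ) (hT : ∀ t, a17_good η₀ top tot t → T t ≤ t) {m N : ℕ}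
    (hm : m ≠ 0) (hS : ty h (rg R m) ∈ S) (hN : (rg R m).primeFactors.card ≤ N) :
    |EH R h η₀ θ top tot m - ∑ t ∈ S, a17_g η₀ θ top tot T t * BT R h x (T t) (t - T t) m| ≤
      (∑ t ∈ S, |GS η₀ θ top tot t| * (2 * 2 ^ N)) *
        (if ∃ p : ℕ, p.Prime ∧ R < (p : ℝ) ∧ p ^ 2 ∣ m then 1 else 0) := by
  have hB : 0 ≤ ∑ t ∈ S, |GS η₀ θ top tot t| * (2 * 2 ^ N) :=
    Finset.sum_nonneg fun t _ => by positivity
  by_cases hr : Squarefree (rg R m)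
  · rw [← a17_point S T hT hm hr hS, sub_self, abs_zero]
    split_ifs <;> simp [hB]
  · have hex : ∃ p : ℕ, p.Prime ∧ R < (p : ℝ) ∧ p ^ 2 ∣ m := by
      rw [Nat.squarefree_iff_prime_squarefree] at hr
      push Not at hr
      obtain ⟨p, hp, hpd⟩ := hr
      have hd : rg R m ∣ m := by
        conv_rhs => rw [← sm_mul_rg R hm]
        exact Dvd.intro_left _ rfl
      refine ⟨p, hp, (rg_rough R m).2 p hp ((Dvd.intro _ rfl).trans hpd), ?_⟩
      rw [pow_two]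
      exact hpd.trans hd
    rw [if_pos hex, mul_one, EH, if_neg hr, zero_sub, abs_neg]
    refine (Finset.abs_sum_le_sum_abs _ _).trans (Finset.sum_le_sum fun t _ => ?_)
    rw [abs_mul]
    apply mul_le_mul (a17_g_le _ _ _ _ _ _) _ (abs_nonneg _) (abs_nonneg _)
    refine (bt_bound R h x (T t) (t - T t) hm).trans ?_
    gcongr
    norm_num

theorem eh_bound_pr {β τ₁ ρ η₀ θ top tot δ Λ ε : ℝ} (hβ : 0 < β) (hβ1 : β < 1) (hτ₁ : 0 < τ₁)
    (hρ : 0 < ρ) (hρ1 : ρ < 1 / 2) (hη : 0 < η₀) (h1 : top + (1 - β + τ₁) ≤ tot)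
    (h2 : 3 * (1 - β + τ₁) ≤ tot) (hδ : 0 < δ) (hδ1 : δ ≤ 1) (hΛ : 0 ≤ Λ) (hε : 0 < ε) :
    ∃ x₀ : ℝ, ∀ x : ℝ, x₀ ≤ x → ∀ f : ℝ → ℝ, Cut δ Λ f →
      ∑ b ∈ Finset.Icc 1 ⌊x ^ β⌋₊,
        |∑ n ∈ (Finset.Icc 1 ⌊x⌋₊).filter (fun n => Nat.Coprime n b), f ((n : ℝ) / x) *
          EH (x ^ ρ) (η₀ * Real.log x) η₀ θ top tot (n ^ 2 + b ^ 2)| ≤ ε * x ^ (1 + β) := by
  classical
  obtain ⟨N, N₁, x1, hmem⟩ := type_mem ρ η₀ hρ hη
  have hA : 0 < 1 - β + τ₁ := by linarith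
  have hch : ∀ t : Multiset ℕ, ∃ t₁ : Multiset ℕ, a17_good η₀ top tot t → t₁ ≤ t ∧
      1 - β + τ₁ ≤ η₀ * ((t₁.sum : ℕ) : ℝ) ∧ 1 - β + τ₁ ≤ η₀ * (((t - t₁).sum : ℕ) : ℝ) := by
    intro t
    by_cases hg : a17_good η₀ top tot t
    · obtain ⟨t₁, q1, q2, q3⟩ := choose_type hA h1 h2 hη t hg.1 hg.2
      exact ⟨t₁, fun _ => ⟨q1, q2, q3⟩⟩
    · exact ⟨0, fun h => absurd h hg⟩
  choose T hT using hch
  set S := Tys N N₁ with hS
  set Gs := ∑ t ∈ S, |a17_g η₀ θ top tot T t| with hGs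
  set B := ∑ t ∈ S, |GS η₀ θ top tot t| * (2 * 2 ^ N) with hB
  have hGs0 : 0 ≤ Gs := Finset.sum_nonneg fun t _ => abs_nonneg _
  have hB0 : 0 ≤ B := Finset.sum_nonneg fun t _ => by positivity
  set ε1 := ε / (2 * (1 + Gs)) with hε1
  set ε2 := ε / (2 * (1 + B)) with hε2
  have hε10 : 0 < ε1 := by positivity
  have hε20 : 0 < ε2 := by positivity
  have hb : ∀ t : Multiset ℕ, ∃ x₀ : ℝ, ∀ x : ℝ, x₀ ≤ x → ∀ f : ℝ → ℝ, Cut δ Λ f →
      a17_good η₀ top tot t → ∑ b ∈ Finset.Icc 1 ⌊x ^ β⌋₊,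
        |∑ n ∈ (Finset.Icc 1 ⌊x⌋₊).filter (fun n => Nat.Coprime n b), f ((n : ℝ) / x) *
          BT (x ^ ρ) (η₀ * Real.log x) x (T t) (t - T t) (n ^ 2 + b ^ 2)| ≤
            ε1 * x ^ (1 + β) := by
    intro t
    by_cases hg : a17_good η₀ top tot t
    · obtain ⟨q1, q2, q3⟩ := hT t hg
      obtain ⟨x₀, hx₀⟩ := type_bound hβ hβ1 hτ₁ hρ hρ1 hη hδ hδ1 hΛ hε10 (T t) (t - T t) q2 q3
      exact ⟨x₀, fun x hx f hf _ => hx₀ x hx f hf⟩
    · exact ⟨0, fun x hx f hf h => absurd h hg⟩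
  choose xt hxt using hb
  obtain ⟨x2, hx2⟩ := sq_rare β ρ ε2 hβ hβ1 hρ hε20
  refine ⟨max (max 1 x1) (max x2 (∑ t ∈ S, |xt t|)), fun x hx f hf => ?_⟩
  have g1 : 1 ≤ x := (le_max_left _ _).trans ((le_max_left _ _).trans hx)
  have g2 : x1 ≤ x := (le_max_right _ _).trans ((le_max_left _ _).trans hx)
  have g3 : x2 ≤ x := (le_max_left _ _).trans ((le_max_right _ _).trans hx)
  have g4 : ∑ t ∈ S, |xt t| ≤ x := (le_max_right _ _).trans ((le_max_right _ _).trans hx)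
  have g5 : ∀ t ∈ S, xt t ≤ x := fun t ht =>
    (le_abs_self _).trans ((Finset.single_le_sum (f := fun t => |xt t|)
      (fun t _ => abs_nonneg _) ht).trans g4)
  have hx0 : 0 < x := by linarith
  have hX : 0 < x ^ (1 + β) := Real.rpow_pos_of_pos hx0 _
  have hxβ : x ^ β ≤ x := by
    calc x ^ β ≤ x ^ (1 : ℝ) := Real.rpow_le_rpow_of_exponent_le g1 hβ1.le
      _ = x := Real.rpow_one x
  set R := x ^ ρ with hR
  set h := η₀ * Real.log x with hh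
  -- one value of `b`
  have hone : ∀ b ∈ Finset.Icc 1 ⌊x ^ β⌋₊,
      |∑ n ∈ (Finset.Icc 1 ⌊x⌋₊).filter (fun n => Nat.Coprime n b), f ((n : ℝ) / x) *
          EH R h η₀ θ top tot (n ^ 2 + b ^ 2)| ≤
      ∑ t ∈ S, |a17_g η₀ θ top tot T t| *
        |∑ n ∈ (Finset.Icc 1 ⌊x⌋₊).filter (fun n => Nat.Coprime n b), f ((n : ℝ) / x) *
          BT R h x (T t) (t - T t) (n ^ 2 + b ^ 2)| +
      ∑ n ∈ (Finset.Icc 1 ⌊x⌋₊).filter (fun n => Nat.Coprime n b),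
        B * (if ∃ p : ℕ, p.Prime ∧ R < (p : ℝ) ∧ p ^ 2 ∣ n ^ 2 + b ^ 2 then 1 else 0) := by
    intro b hb
    rw [Finset.mem_Icc] at hb
    have hbx : (b : ℝ) ≤ x := by
      have : (b : ℝ) ≤ x ^ β := (Nat.le_floor_iff' (by omega)).1 hb.2
      linarith
    have e1 : ∑ n ∈ (Finset.Icc 1 ⌊x⌋₊).filter (fun n => Nat.Coprime n b), f ((n : ℝ) / x) *
          EH R h η₀ θ top tot (n ^ 2 + b ^ 2) =
        ∑ t ∈ S, a17_g η₀ θ top tot T t *
          ∑ n ∈ (Finset.Icc 1 ⌊x⌋₊).filter (fun n => Nat.Coprime n b), f ((n : ℝ) / x) *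
            BT R h x (T t) (t - T t) (n ^ 2 + b ^ 2) +
        ∑ n ∈ (Finset.Icc 1 ⌊x⌋₊).filter (fun n => Nat.Coprime n b), f ((n : ℝ) / x) *
          (EH R h η₀ θ top tot (n ^ 2 + b ^ 2) -
            ∑ t ∈ S, a17_g η₀ θ top tot T t * BT R h x (T t) (t - T t) (n ^ 2 + b ^ 2)) := by
      have e2 : ∑ t ∈ S, a17_g η₀ θ top tot T t *
          ∑ n ∈ (Finset.Icc 1 ⌊x⌋₊).filter (fun n => Nat.Coprime n b), f ((n : ℝ) / x) *
            BT R h x (T t) (t - T t) (n ^ 2 + b ^ 2) =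
          ∑ n ∈ (Finset.Icc 1 ⌊x⌋₊).filter (fun n => Nat.Coprime n b), f ((n : ℝ) / x) *
            ∑ t ∈ S, a17_g η₀ θ top tot T t * BT R h x (T t) (t - T t) (n ^ 2 + b ^ 2) := by
        simp only [Finset.mul_sum]
        rw [Finset.sum_comm]
        apply Finset.sum_congr rfl
        intro n _
        apply Finset.sum_congr rfl
        intro t _
        ring
      rw [e2, ← Finset.sum_add_distrib]
      apply Finset.sum_congr rfl
      intro n _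
      ring
    rw [e1]
    refine (abs_add_le _ _).trans (add_le_add ?_ ?_)
    · refine (Finset.abs_sum_le_sum_abs _ _).trans (Finset.sum_le_sum fun t _ => ?_)
      rw [abs_mul]
    · refine (Finset.abs_sum_le_sum_abs _ _).trans (Finset.sum_le_sum fun n hn => ?_)
      rw [Finset.mem_filter, Finset.mem_Icc] at hn
      have hnx : (n : ℝ) ≤ x := (Nat.le_floor_iff' (by omega)).1 hn.1.2
      have hm0 : n ^ 2 + b ^ 2 ≠ 0 := by
        have : 0 < n ^ 2 := pow_pos (by omega) 2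
        omega
      have hmx : ((n ^ 2 + b ^ 2 : ℕ) : ℝ) ≤ 2 * x ^ 2 := by
        push_cast
        have : (0 : ℝ) ≤ n := Nat.cast_nonneg n
        have : (0 : ℝ) ≤ b := Nat.cast_nonneg b
        nlinarith
      obtain ⟨m1, -, m3⟩ := hmem x g2 (n ^ 2 + b ^ 2) hm0 hmx
      have hd := a17_diff (R := R) (h := h) (x := x) (η₀ := η₀) (θ := θ) (top := top)
        (tot := tot) S T (fun t ht => (hT t ht).1) hm0 m1 m3
      rw [abs_mul, abs_of_nonneg (hf.nonneg _)]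
      calc f ((n : ℝ) / x) * |EH R h η₀ θ top tot (n ^ 2 + b ^ 2) -
            ∑ t ∈ S, a17_g η₀ θ top tot T t * BT R h x (T t) (t - T t) (n ^ 2 + b ^ 2)|
          ≤ 1 * |EH R h η₀ θ top tot (n ^ 2 + b ^ 2) -
            ∑ t ∈ S, a17_g η₀ θ top tot T t * BT R h x (T t) (t - T t) (n ^ 2 + b ^ 2)| :=
            mul_le_mul_of_nonneg_right (hf.le_one _) (abs_nonneg _)
        _ ≤ _ := by
            rw [one_mul]
            exact hd
  have hfin := Finset.sum_le_sum hone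
  refine hfin.trans ?_
  rw [Finset.sum_add_distrib, Finset.sum_comm]
  have p1 : ∑ t ∈ S, ∑ b ∈ Finset.Icc 1 ⌊x ^ β⌋₊, |a17_g η₀ θ top tot T t| *
        |∑ n ∈ (Finset.Icc 1 ⌊x⌋₊).filter (fun n => Nat.Coprime n b), f ((n : ℝ) / x) *
          BT R h x (T t) (t - T t) (n ^ 2 + b ^ 2)| ≤ Gs * (ε1 * x ^ (1 + β)) := by
    rw [hGs, Finset.sum_mul]
    apply Finset.sum_le_sum
    intro t ht
    rw [← Finset.mul_sum]
    by_cases hg : a17_good η₀ top tot t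
    · exact mul_le_mul_of_nonneg_left (hxt t x (g5 t ht) f hf hg) (abs_nonneg _)
    · rw [a17_g, a17_gs hg]
      simp
  have p2 : ∑ b ∈ Finset.Icc 1 ⌊x ^ β⌋₊,
      ∑ n ∈ (Finset.Icc 1 ⌊x⌋₊).filter (fun n => Nat.Coprime n b),
        B * (if ∃ p : ℕ, p.Prime ∧ R < (p : ℝ) ∧ p ^ 2 ∣ n ^ 2 + b ^ 2 then (1 : ℝ) else 0) ≤
      B * (ε2 * x ^ (1 + β)) := by
    have e1 := a17_pairs β x (fun n b =>
      B * (if ∃ p : ℕ, p.Prime ∧ R < (p : ℝ) ∧ p ^ 2 ∣ n ^ 2 + b ^ 2 then (1 : ℝ) else 0))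
    rw [← e1, ← Finset.mul_sum]
    apply mul_le_mul_of_nonneg_left _ hB0
    have e2 := hx2 x g3
    rw [Finset.card_filter] at e2
    push_cast at e2
    exact e2
  have p3 : Gs * ε1 ≤ ε / 2 := by
    rw [hε1, mul_div_assoc', div_le_div_iff₀ (by positivity) (by norm_num)]
    nlinarith
  have p4 : B * ε2 ≤ ε / 2 := by
    rw [hε2, mul_div_assoc', div_le_div_iff₀ (by positivity) (by norm_num)]
    nlinarith
  nlinarith



end Pool.Agent.TR

namespace Pool.Agent.TR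

theorem eh_bound : type_of% @eh_bound_pr := @eh_bound_pr

end Pool.Agent.TR
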