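import Pool.Agent.Lib_helper10.T2F.BAS
import Pool.Agent.Lib_helper97.TRL.D42
import Pool.Agent.Lib_helper97.TRL.D50

/-! # TR, block K14: the weights (helper16) -/

set_option autoImplicit false

namespace Pool.Agent.TR

open Pool.Agent.T2 Pool.Agent.TF

/-- counting an arithmetic progression -/
theorem k14_count (X N c : ℕ) (hN : 1 ≤ N) :
    |((((Finset.Icc 1 X).filter (fun n => n % N = c % N)).card : ℕ) : ℝ) - X / N| ≤ 1 := by
  have h := Nat.Ioc_filter_modEq_card 0 X (r := N) (by omega) c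
  have e : (Finset.Icc 1 X).filter (fun n => n % N = c % N) =
      (Finset.Ioc 0 X).filter (fun n => n ≡ c [MOD N]) := by
    ext n
    simp only [Finset.mem_filter, Finset.mem_Icc, Finset.mem_Ioc]
    constructor
    · rintro ⟨h1, h2⟩
      exact ⟨⟨by omega, h1.2⟩, h2⟩
    · rintro ⟨h1, h2⟩
      exact ⟨⟨by omega, h1.2⟩, h2⟩
  rw [e]
  have hNq : (0 : ℚ) < N := by exact_mod_cast hN
  have hq : |((((Finset.Ioc 0 X).filter (fun n => n ≡ c [MOD N])).card : ℤ) : ℚ) - X / N| ≤ 1 := by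
    rw [h]
    have h1 := Int.floor_le (((X : ℚ) - c) / N)
    have h2 := Int.lt_floor_add_one (((X : ℚ) - c) / N)
    have h3 := Int.floor_le ((((0 : ℕ) : ℚ) - c) / N)
    have h4 := Int.lt_floor_add_one ((((0 : ℕ) : ℚ) - c) / N)
    have e1 : ((X : ℚ) - c) / N = X / N - c / N := by ring
    have e2 : (((0 : ℕ) : ℚ) - c) / N = - (c / N) := by push_cast; ring
    have hpos : (0 : ℚ) ≤ X / N := by positivity
    set A := ⌊((X : ℚ) - c) / N⌋ with hA
    set B := ⌊(((0 : ℕ) : ℚ) - c) / N⌋ with hB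
    rw [e1] at h1 h2
    rw [e2] at h3 h4
    rcases le_total (A - B) 0 with hle | hle
    · rw [max_eq_right hle]
      have hle' : (A : ℚ) - B ≤ 0 := by exact_mod_cast hle
      rw [abs_le]
      constructor <;> push_cast <;> linarith
    · rw [max_eq_left hle]
      rw [abs_le]
      constructor <;> push_cast <;> linarith
  have hr := (Rat.cast_le (K := ℝ)).2 hq
  push_cast at hr
  exact hr

/-- K14 -/
theorem wf_plain_pr (X : ℕ) : WFn (fun _ => 1) X X 1 := by
  refine ⟨fun _ => zero_le_one, fun _ => le_rfl, by positivity, le_rfl, le_rfl, fun N c hN => ?_⟩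
  rw [Finset.sum_const, nsmul_eq_mul, mul_one]
  exact k14_count X N c hN

/-- summation by parts -/
theorem k14_abel (w g : ℕ → ℝ) (X : ℕ) :
    ∑ n ∈ Finset.Icc 1 X, w n * g n = (∑ n ∈ Finset.Icc 1 X, w n) * g X +
      ∑ n ∈ Finset.range X, (∑ i ∈ Finset.Icc 1 n, w i) * (g n - g (n + 1)) := by
  induction X with
  | zero => simp
  | succ X ih =>
    rw [Finset.sum_Icc_succ_top (by omega), Finset.sum_Icc_succ_top (by omega), ih,
      Finset.sum_range_succ]
    ring

/-- K14 -/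
theorem wf_cut_pr {δ Λ : ℝ} (hδ : 0 < δ) (hΛ : 0 ≤ Λ) {f : ℝ → ℝ} (hf : Cut δ Λ f) {x : ℝ}
    (hx : 1 ≤ x) : WFn (fun n : ℕ => f ((n : ℝ) / x)) ⌊x⌋₊
      (∑ n ∈ Finset.Icc 1 ⌊x⌋₊, f ((n : ℝ) / x)) (4 * Λ + 4) := by
  have hx0 : 0 < x := by linarith
  have hfl : ((⌊x⌋₊ : ℕ) : ℝ) ≤ x := Nat.floor_le hx0.le
  refine ⟨fun n => hf.nonneg _, fun n => hf.le_one _, Finset.sum_nonneg fun n _ => hf.nonneg _, ?_,
    by linarith, fun N c hN => ?_⟩
  · calc ∑ n ∈ Finset.Icc 1 ⌊x⌋₊, f ((n : ℝ) / x) ≤ ∑ n ∈ Finset.Icc 1 ⌊x⌋₊, (1 : ℝ) :=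
          Finset.sum_le_sum fun n _ => hf.le_one _
      _ = _ := by simp
  · set X : ℕ := ⌊x⌋₊ with hX
    set g : ℕ → ℝ := fun n => f ((n : ℝ) / x) with hg
    set w : ℕ → ℝ := fun n => (if n % N = c % N then 1 else 0) - 1 / N with hw
    have hNr : (0 : ℝ) < N := by exact_mod_cast hN
    have hW : ∀ m, |∑ n ∈ Finset.Icc 1 m, w n| ≤ 1 := by
      intro m
      have e : ∑ n ∈ Finset.Icc 1 m, w n =
          ((((Finset.Icc 1 m).filter (fun n => n % N = c % N)).card : ℕ) : ℝ) - m / N := by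
        rw [hw, Finset.sum_sub_distrib, Finset.sum_ite, Finset.sum_const, Finset.sum_const_zero,
          Finset.sum_const]
        simp
        ring
      rw [e]
      exact k14_count m N c hN
    have e : ∑ n ∈ (Finset.Icc 1 X).filter (fun n => n % N = c % N), g n -
        (∑ n ∈ Finset.Icc 1 X, g n) / N = ∑ n ∈ Finset.Icc 1 X, w n * g n := by
      rw [Finset.sum_filter, Finset.sum_div, ← Finset.sum_sub_distrib]
      apply Finset.sum_congr rfl
      intro n _
      simp only [hw]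
      split_ifs
      · ring
      · ring
    show |∑ n ∈ (Finset.Icc 1 X).filter (fun n => n % N = c % N), g n -
        (∑ n ∈ Finset.Icc 1 X, g n) / N| ≤ 4 * Λ + 4
    rw [e, k14_abel]
    have h1 : |(∑ n ∈ Finset.Icc 1 X, w n) * g X| ≤ 1 := by
      rw [abs_mul]
      have h2 : |g X| ≤ 1 := by
        rw [abs_of_nonneg (hf.nonneg _)]; exact hf.le_one _
      calc |∑ n ∈ Finset.Icc 1 X, w n| * |g X| ≤ 1 * 1 := by
            gcongr
            exact hW X
        _ = 1 := one_mul 1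
    have h2 : |∑ n ∈ Finset.range X, (∑ i ∈ Finset.Icc 1 n, w i) * (g n - g (n + 1))| ≤ Λ := by
      refine (Finset.abs_sum_le_sum_abs _ _).trans ?_
      have h3 : ∀ n ∈ Finset.range X, |(∑ i ∈ Finset.Icc 1 n, w i) * (g n - g (n + 1))| ≤
          Λ * (1 / x) := by
        intro n _
        rw [abs_mul]
        have h4 : |g n - g (n + 1)| ≤ Λ * (1 / x) := by
          have h5 := hf.lip ((n : ℝ) / x) (((n + 1 : ℕ) : ℝ) / x)
          have h6 : |(n : ℝ) / x - ((n + 1 : ℕ) : ℝ) / x| = 1 / x := by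
            rw [← sub_div, Nat.cast_add, Nat.cast_one, sub_add_cancel_left, abs_div, abs_neg,
              abs_one, abs_of_pos hx0]
          rw [h6] at h5
          exact h5
        calc |∑ i ∈ Finset.Icc 1 n, w i| * |g n - g (n + 1)| ≤ 1 * (Λ * (1 / x)) := by
              gcongr
              exact hW n
          _ = _ := one_mul _
      refine (Finset.sum_le_sum h3).trans ?_
      rw [Finset.sum_const, Finset.card_range, nsmul_eq_mul]
      calc (X : ℝ) * (Λ * (1 / x)) = Λ * (X / x) := by ring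
        _ ≤ Λ * 1 := by
            gcongr
            rw [div_le_one hx0]
            exact hfl
        _ = Λ := mul_one _
    have h3 := abs_add_le ((∑ n ∈ Finset.Icc 1 X, w n) * g X)
      (∑ n ∈ Finset.range X, (∑ i ∈ Finset.Icc 1 n, w i) * (g n - g (n + 1)))
    linarith




end Pool.Agent.TR

namespace Pool.Agent.TR

theorem wf_plain : type_of% @wf_plain_pr := @wf_plain_pr
theorem wf_cut : type_of% @wf_cut_pr := @wf_cut_pr

end Pool.Agent.TR
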