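import Pool.Agent.Lib_helper97.TRL.K1
import Pool.Agent.Lib_helper10.T2F.BAS
import Pool.Agent.Lib_helper97.TRL.D42
import Pool.Agent.Lib_helper97.TRL.D50

set_option autoImplicit false

namespace Pool.Agent.TR

open Pool.Agent.T2 Pool.Agent.TF

open Classical in
lemma k2_split (S0 S1 : Finset ℕ) (hd : Disjoint S0 S1) (c0 c1 : Finset ℕ → Prop) (y : ℕ → ℝ) :
    ∑ T ∈ (S0 ∪ S1).powerset.filter (fun T => c0 (T ∩ S0) ∧ c1 (T ∩ S1)), ∏ p ∈ T, y p =
      (∑ T ∈ S0.powerset.filter c0, ∏ p ∈ T, y p) * ∑ T ∈ S1.powerset.filter c1, ∏ p ∈ T, y p := by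
  rw [Finset.sum_mul_sum, ← Finset.sum_product']
  have key : ∀ T : Finset ℕ, T ⊆ S0 ∪ S1 → T ∩ S0 ∪ T ∩ S1 = T := by
    intro T hT
    rw [← Finset.inter_union_distrib_left]
    exact Finset.inter_eq_left.2 hT
  have k0 : ∀ T0 T1 : Finset ℕ, T0 ⊆ S0 → T1 ⊆ S1 → (T0 ∪ T1) ∩ S0 = T0 := by
    intro T0 T1 h0 h1
    ext a
    simp only [Finset.mem_inter, Finset.mem_union]
    constructor
    · rintro ⟨h | h, h'⟩
      · exact h
      · exact absurd (h1 h) (Finset.disjoint_left.1 hd h')
    · intro h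
      exact ⟨Or.inl h, h0 h⟩
  have k1 : ∀ T0 T1 : Finset ℕ, T0 ⊆ S0 → T1 ⊆ S1 → (T0 ∪ T1) ∩ S1 = T1 := by
    intro T0 T1 h0 h1
    ext a
    simp only [Finset.mem_inter, Finset.mem_union]
    constructor
    · rintro ⟨h | h, h'⟩
      · exact absurd h' (Finset.disjoint_left.1 hd (h0 h))
      · exact h
    · intro h
      exact ⟨Or.inr h, h1 h⟩
  refine Finset.sum_nbij' (fun T => (T ∩ S0, T ∩ S1)) (fun q => q.1 ∪ q.2) ?_ ?_ ?_ ?_ ?_
  · intro T hT
    simp only [Finset.mem_filter, Finset.mem_powerset] at hT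
    simp only [Finset.mem_product, Finset.mem_filter, Finset.mem_powerset]
    exact ⟨⟨Finset.inter_subset_right, hT.2.1⟩, ⟨Finset.inter_subset_right, hT.2.2⟩⟩
  · rintro ⟨T0, T1⟩ hT
    simp only [Finset.mem_product, Finset.mem_filter, Finset.mem_powerset] at hT
    simp only [Finset.mem_filter, Finset.mem_powerset]
    rw [k0 T0 T1 hT.1.1 hT.2.1, k1 T0 T1 hT.1.1 hT.2.1]
    exact ⟨Finset.union_subset_union hT.1.1 hT.2.1, hT.1.2, hT.2.2⟩
  · intro T hT
    simp only [Finset.mem_filter, Finset.mem_powerset] at hT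
    exact key T hT.1
  · rintro ⟨T0, T1⟩ hT
    simp only [Finset.mem_product, Finset.mem_filter, Finset.mem_powerset] at hT
    simp only [k0 T0 T1 hT.1.1 hT.2.1, k1 T0 T1 hT.1.1 hT.2.1]
  · intro T hT
    simp only [Finset.mem_filter, Finset.mem_powerset] at hT
    rw [← Finset.prod_union]
    · rw [key T hT.1]
    · exact Finset.disjoint_of_subset_left Finset.inter_subset_right
        (Finset.disjoint_of_subset_right Finset.inter_subset_right hd)

theorem bonf_levels_pr (l : ℕ → ℕ) (J k : ℕ) (S : Finset ℕ) (hl : ∀ p ∈ S, l p < J) (x : ℕ → ℝ)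
    (hx : ∀ p ∈ S, 0 ≤ x p ∧ x p ≤ 2) :
    |∏ p ∈ S, (1 - x p) - ∑ T ∈ AdS l J k S, ∏ p ∈ T, (-x p)| ≤
      ∑ j ∈ Finset.range J, ∑ T ∈ ReS l k j S, ∏ p ∈ T, x p := by
  classical
  induction J generalizing S with
  | zero =>
    have hS : S = ∅ := Finset.eq_empty_of_forall_notMem fun p hp => by
      exact absurd (hl p hp) (Nat.not_lt_zero _)
    subst hS
    have : AdS l 0 k ∅ = {∅} := by
      ext T
      simp [AdS]
    rw [this]
    simp
  | succ J ih =>
    set S0 := S.filter (fun p => l p < J) with hS0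
    set S1 := S.filter (fun p => l p = J) with hS1
    have hd : Disjoint S0 S1 := by
      rw [Finset.disjoint_left]
      intro p h0 h1
      rw [hS0, Finset.mem_filter] at h0
      rw [hS1, Finset.mem_filter] at h1
      omega
    have hU : S0 ∪ S1 = S := by
      ext p
      rw [Finset.mem_union, hS0, hS1, Finset.mem_filter, Finset.mem_filter]
      constructor
      · rintro (h | h)
        · exact h.1
        · exact h.1
      · intro h
        rcases Nat.lt_or_ge (l p) J with h' | h'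
        · exact Or.inl ⟨h, h'⟩
        · have := hl p h
          exact Or.inr ⟨h, by omega⟩
    have h0sub : S0 ⊆ S := Finset.filter_subset _ _
    have h1sub : S1 ⊆ S := Finset.filter_subset _ _
    have IH := ih S0 (fun p hp => (Finset.mem_filter.1 hp).2) (fun p hp => hx p (h0sub hp))
    have B1 := bonf_one S1 x (fun p hp => hx p (h1sub hp)) (k + J)
    -- filters
    have hfil : ∀ T : Finset ℕ, T ⊆ S → ∀ i, i < J →
        T.filter (fun p => l p = i) = (T ∩ S0).filter (fun p => l p = i) := by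
      intro T hT i hi
      ext p
      simp only [Finset.mem_filter, Finset.mem_inter, hS0]
      constructor
      · rintro ⟨h, h'⟩
        exact ⟨⟨h, hT h, by omega⟩, h'⟩
      · rintro ⟨⟨h, -⟩, h'⟩
        exact ⟨h, h'⟩
    have hfilJ : ∀ T : Finset ℕ, T ⊆ S → T.filter (fun p => l p = J) = T ∩ S1 := by
      intro T hT
      ext p
      simp only [Finset.mem_filter, Finset.mem_inter, hS1]
      constructor
      · rintro ⟨h, h'⟩
        exact ⟨h, hT h, h'⟩
      · rintro ⟨h, -, h'⟩
        exact ⟨h, h'⟩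
    have eAd : AdS l (J + 1) k S = (S0 ∪ S1).powerset.filter (fun T =>
        (∀ j < J, ((T ∩ S0).filter (fun p => l p = j)).card ≤ k + j) ∧
          (T ∩ S1).card ≤ k + J) := by
      rw [hU]
      ext T
      simp only [AdS, Finset.mem_filter, Finset.mem_powerset]
      constructor
      · rintro ⟨hT, h⟩
        refine ⟨hT, fun j hj => ?_, ?_⟩
        · rw [← hfil T hT j hj]; exact h j (by omega)
        · rw [← hfilJ T hT]; exact h J (by omega)
      · rintro ⟨hT, h, h'⟩
        refine ⟨hT, fun j hj => ?_⟩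
        rcases Nat.lt_or_ge j J with h1 | h1
        · rw [hfil T hT j h1]; exact h j h1
        · have : j = J := by omega
          subst this
          rw [hfilJ T hT]; exact h'
    have eRe : ReS l k J S = (S0 ∪ S1).powerset.filter (fun T =>
        (∀ j < J, ((T ∩ S0).filter (fun p => l p = j)).card ≤ k + j) ∧
          (T ∩ S1).card = k + J + 1) := by
      rw [hU]
      ext T
      simp only [ReS, Finset.mem_filter, Finset.mem_powerset]
      constructor
      · rintro ⟨hT, h, h', -⟩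
        refine ⟨hT, fun j hj => ?_, ?_⟩
        · rw [← hfil T hT j hj]; exact h j (by omega)
        · rw [← hfilJ T hT]; exact h'
      · rintro ⟨hT, h, h'⟩
        refine ⟨hT, fun j hj => ?_, ?_, fun p hp => ?_⟩
        · rw [hfil T hT j hj]; exact h j hj
        · rw [hfilJ T hT]; exact h'
        · have := hl p (hT hp)
          omega
    have eReLt : ∀ j < J, ReS l k j S = ReS l k j S0 := by
      intro j hj
      ext T
      simp only [ReS, Finset.mem_filter, Finset.mem_powerset]
      constructor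
      · rintro ⟨hT, h, h', h''⟩
        refine ⟨fun p hp => ?_, h, h', h''⟩
        rw [hS0, Finset.mem_filter]
        exact ⟨hT hp, lt_of_le_of_lt (h'' p hp) hj⟩
      · rintro ⟨hT, h, h', h''⟩
        exact ⟨hT.trans h0sub, h, h', h''⟩
    have eA0 : S0.powerset.filter (fun T =>
        ∀ j < J, (T.filter (fun p => l p = j)).card ≤ k + j) = AdS l J k S0 := by
      ext T
      simp [AdS]
    have eE : S1.powerset.filter (fun T => T.card = k + J + 1) =
        S1.powersetCard (k + J + 1) := by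
      ext T
      simp [Finset.mem_powersetCard]
    have sAd : ∑ T ∈ AdS l (J + 1) k S, ∏ p ∈ T, (-x p) =
        (∑ T ∈ AdS l J k S0, ∏ p ∈ T, (-x p)) *
          ∑ T ∈ S1.powerset.filter (fun T => T.card ≤ k + J), ∏ p ∈ T, (-x p) := by
      rw [eAd, ← eA0]
      convert k2_split S0 S1 hd
        (fun T => ∀ j < J, (T.filter (fun p => l p = j)).card ≤ k + j)
        (fun T => T.card ≤ k + J) (fun p => -x p)
    have sRe : ∑ T ∈ ReS l k J S, ∏ p ∈ T, x p =
        (∑ T ∈ AdS l J k S0, ∏ p ∈ T, x p) *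
          ∑ T ∈ S1.powersetCard (k + J + 1), ∏ p ∈ T, x p := by
      rw [eRe, ← eA0, ← eE]
      convert k2_split S0 S1 hd
        (fun T => ∀ j < J, (T.filter (fun p => l p = j)).card ≤ k + j)
        (fun T => T.card = k + J + 1) x
    have hprod : ∏ p ∈ S, (1 - x p) = (∏ p ∈ S0, (1 - x p)) * ∏ p ∈ S1, (1 - x p) := by
      rw [← Finset.prod_union hd, hU]
    have hre : ∑ j ∈ Finset.range J, ∑ T ∈ ReS l k j S, ∏ p ∈ T, x p =
        ∑ j ∈ Finset.range J, ∑ T ∈ ReS l k j S0, ∏ p ∈ T, x p :=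
      Finset.sum_congr rfl (fun j hj => by rw [eReLt j (Finset.mem_range.1 hj)])
    rw [Finset.sum_range_succ, hre, sRe, sAd, hprod]
    set P0 := ∏ p ∈ S0, (1 - x p)
    set P1 := ∏ p ∈ S1, (1 - x p) with hP1
    set A0 := ∑ T ∈ AdS l J k S0, ∏ p ∈ T, (-x p) with hA0
    set A1 := ∑ T ∈ S1.powerset.filter (fun T => T.card ≤ k + J), ∏ p ∈ T, (-x p)
    set E1 := ∑ T ∈ S1.powersetCard (k + J + 1), ∏ p ∈ T, x p with hE1
    have hP1' : |P1| ≤ 1 := by
      rw [hP1, Finset.abs_prod]
      refine Finset.prod_le_one (fun p _ => abs_nonneg _) (fun p hp => ?_)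
      have := hx p (h1sub hp)
      rw [abs_le]
      constructor <;> linarith
    have hA0' : |A0| ≤ ∑ T ∈ AdS l J k S0, ∏ p ∈ T, x p := by
      rw [hA0]
      refine (Finset.abs_sum_le_sum_abs _ _).trans (Finset.sum_le_sum fun T hT => ?_)
      rw [Finset.abs_prod]
      refine Finset.prod_le_prod (fun p _ => abs_nonneg _) (fun p hp => ?_)
      have hTs : T ⊆ S0 := by
        simp only [AdS, Finset.mem_filter, Finset.mem_powerset] at hT
        exact hT.1
      rw [abs_neg, abs_of_nonneg (hx p (h0sub (hTs hp))).1]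
    have hsum0 : 0 ≤ ∑ T ∈ AdS l J k S0, ∏ p ∈ T, x p := le_trans (abs_nonneg _) hA0'
    have e1 : P0 * P1 - A0 * A1 = (P0 - A0) * P1 + A0 * (P1 - A1) := by ring
    rw [e1]
    refine (abs_add_le _ _).trans ?_
    rw [abs_mul, abs_mul]
    refine add_le_add ?_ ?_
    · calc |P0 - A0| * |P1| ≤ |P0 - A0| * 1 :=
            mul_le_mul_of_nonneg_left hP1' (abs_nonneg _)
        _ ≤ _ := by rw [mul_one]; exact IH
    · exact mul_le_mul hA0' B1 (abs_nonneg _) hsum0



end Pool.Agent.TR

namespace Pool.Agent.TR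

theorem bonf_levels : type_of% @bonf_levels_pr := @bonf_levels_pr

end Pool.Agent.TR
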