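import Pool.Agent.Lib_helper97.TRL.K13
import Pool.Agent.Lib_helper97.TRL.K2
import Pool.Agent.Lib_helper97.TRL.K3
import Pool.Agent.Lib_helper97.TRL.K6
import Pool.Agent.Lib_helper97.TRL.K9
import Pool.Agent.Lib_helper10.T2F.BAS
import Pool.Agent.Lib_helper97.TRL.D42
import Pool.Agent.Lib_helper97.TRL.D50

/-!
# Part K, block K15 (helper69): core_sum
-/

set_option autoImplicit false

namespace Pool.Agent.TR

open Pool.Agent.T2 Pool.Agent.TF

/-- the admissible subsets of a subset -/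
theorem k15_AdS_sub (l : ℕ → ℕ) (J k : ℕ) {S U : Finset ℕ} (h : U ⊆ S) :
    AdS l J k U = (AdS l J k S).filter (fun T => T ⊆ U) := by
  classical
  ext T
  simp only [AdS, Finset.mem_filter, Finset.mem_powerset]
  constructor
  · rintro ⟨h1, h2⟩
    exact ⟨⟨h1.trans h, h2⟩, h1⟩
  · rintro ⟨⟨_, h2⟩, h1⟩
    exact ⟨h1, h2⟩

theorem k15_ReS_sub (l : ℕ → ℕ) (k j : ℕ) {S U : Finset ℕ} (h : U ⊆ S) :
    ReS l k j U = (ReS l k j S).filter (fun T => T ⊆ U) := by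
  classical
  ext T
  simp only [ReS, Finset.mem_filter, Finset.mem_powerset]
  constructor
  · rintro ⟨h1, h2⟩
    exact ⟨⟨h1.trans h, h2⟩, h1⟩
  · rintro ⟨⟨_, h2⟩, h1⟩
    exact ⟨h1, h2⟩

/-- swapping the sums -/
theorem k15_swap (D : Finset ℕ) (F : Finset (Finset ℕ)) (V : ℕ → Finset ℕ) (g : ℕ → ℝ)
    (c : Finset ℕ → ℝ) :
    ∑ n ∈ D, g n * ∑ T ∈ F.filter (fun T => T ⊆ V n), c T =
      ∑ T ∈ F, c T * ∑ n ∈ D.filter (fun n => T ⊆ V n), g n := by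
  classical
  have h1 : ∀ n ∈ D, g n * ∑ T ∈ F.filter (fun T => T ⊆ V n), c T =
      ∑ T ∈ F, if T ⊆ V n then g n * c T else 0 := by
    intro n _
    rw [Finset.mul_sum, Finset.sum_filter]
  have h2 : ∀ T ∈ F, c T * ∑ n ∈ D.filter (fun n => T ⊆ V n), g n =
      ∑ n ∈ D, if T ⊆ V n then g n * c T else 0 := by
    intro T _
    rw [Finset.mul_sum, Finset.sum_filter]
    refine Finset.sum_congr rfl fun n _ => ?_
    split_ifs
    · ring
    · rfl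
  rw [Finset.sum_congr rfl h1, Finset.sum_congr rfl h2, Finset.sum_comm]

/-- the sum over a family of sets: main term and error -/
theorem k15_fam (F : Finset (Finset ℕ)) (c A : Finset ℕ → ℝ) (M e : ℝ)
    (s : ℝ) (hs : s = 1 ∨ s = -1)
    (hc : ∀ T ∈ F, c T = s ^ T.card * 2 ^ T.card)
    (hA : ∀ T ∈ F, |A T - M * 2 ^ T.card / ∏ p ∈ T, (p : ℝ)| ≤ e * 2 ^ T.card) :
    |∑ T ∈ F, c T * A T - M * ∑ T ∈ F, ∏ p ∈ T, (s * (4 / (p : ℝ)))| ≤
      e * ∑ T ∈ F, (4 : ℝ) ^ T.card := by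
  classical
  rw [Finset.mul_sum, Finset.mul_sum, ← Finset.sum_sub_distrib]
  refine (Finset.abs_sum_le_sum_abs _ _).trans (Finset.sum_le_sum fun T hT => ?_)
  have h1 : ∏ p ∈ T, (s * (4 / (p : ℝ))) = s ^ T.card * 4 ^ T.card / ∏ p ∈ T, (p : ℝ) := by
    rw [Finset.prod_mul_distrib, Finset.prod_div_distrib, Finset.prod_const, Finset.prod_const]
    ring
  have h4 : (4 : ℝ) ^ T.card = 2 ^ T.card * 2 ^ T.card := by
    rw [← mul_pow]; norm_num
  have h2 : c T * A T - M * ∏ p ∈ T, (s * (4 / (p : ℝ))) =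
      (s ^ T.card * 2 ^ T.card) * (A T - M * 2 ^ T.card / ∏ p ∈ T, (p : ℝ)) := by
    rw [h1, hc T hT, h4]; ring
  have hs' : |s ^ T.card| = 1 := by
    rw [abs_pow]
    rcases hs with rfl | rfl <;> simp
  rw [h2, abs_mul, abs_mul, hs', one_mul, abs_of_pos (by positivity : (0 : ℝ) < 2 ^ T.card), h4]
  calc (2 : ℝ) ^ T.card * |A T - M * 2 ^ T.card / ∏ p ∈ T, (p : ℝ)|
      ≤ 2 ^ T.card * (e * 2 ^ T.card) := by
        exact mul_le_mul_of_nonneg_left (hA T hT) (by positivity)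
    _ = e * (2 ^ T.card * 2 ^ T.card) := by ring

theorem core_sum_pr : ∃ C : ℝ, 1 ≤ C ∧ ∀ (G k b N a r X : ℕ) (R H E : ℝ) (g : ℕ → ℝ), 16 ≤ G →
    1 ≤ N → (∀ p : ℕ, p.Prime → p ∣ N → p ≤ G) → (G : ℝ) ≤ R → Squarefree r →
    (∀ p ∈ r.primeFactors, p % 4 = 1 ∧ R < (p : ℝ) ∧ ¬ p ∣ b) → WFn g X H E →
    |∑ n ∈ (Finset.Icc 1 X).filter (fun n => n % N = a % N ∧ r ∣ n ^ 2 + b ^ 2),
        g n * (-1) ^ (Sn G R b n).card| ≤
      2 ^ r.primeFactors.card * (H / ((r : ℝ) * N) *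
        (Real.exp (-(4 * ∑ p ∈ Pb G R b, 1 / (p : ℝ))) + 2 * (C ^ (k + 1) / k.factorial)) +
        E * R ^ (3 * k + 3)) := by
  classical
  obtain ⟨C, hC1, hC⟩ := ad_main
  refine ⟨C, hC1, ?_⟩
  intro G k b N a r X R H E g hG hN hNG hGR hr hr' hg
  have hR1 : (1 : ℝ) ≤ R := by
    have : (16 : ℝ) ≤ (G : ℝ) := by exact_mod_cast hG
    linarith
  have hR0 : (0 : ℝ) ≤ R := by linarith
  set S := Pb G R b with hS
  set J := lvl R 2 + 1 with hJ
  set D := (Finset.Icc 1 X).filter (fun n => n % N = a % N ∧ r ∣ n ^ 2 + b ^ 2) with hD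
  have hmemS : ∀ p ∈ S, p.Prime ∧ p % 4 = 1 ∧ G < p ∧ (p : ℝ) ≤ R := by
    intro p hp
    rw [hS, Pb, Finset.mem_filter, Finset.mem_Icc] at hp
    exact ⟨hp.2.1, hp.2.2.1, hp.2.2.2.1, (Nat.le_floor_iff hR0).1 hp.1.2⟩
  have hSnS : ∀ n, Sn G R b n ⊆ S := fun n => Finset.filter_subset _ _
  have hlJ : ∀ p ∈ S, lvl R p < J := by
    intro p hp
    obtain ⟨h1, _, _, h4⟩ := hmemS p hp
    exact lvl_lt h1.two_le h4
  have hH : 0 ≤ H := hg.H_nonneg
  have hE : 0 ≤ E := by linarith [hg.E_one]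
  have hfam := fam_sum (R := R) hR1 (J := J) (k := k) (S := S)
    (fun p hp => ⟨(hmemS p hp).1, by have := (hmemS p hp).2.2.1; omega, (hmemS p hp).2.2.2⟩) hlJ
  obtain ⟨hre, had⟩ := hC R J k S hR1
    (fun p hp => ⟨(hmemS p hp).1, (hmemS p hp).2.1, (hmemS p hp).2.2.2⟩) hlJ
  set w := r.primeFactors.card with hw
  set M : ℝ := 2 ^ w * (H / ((r : ℝ) * N)) with hM
  have hM0 : 0 ≤ M := by rw [hM]; positivity
  set e : ℝ := 2 ^ w * E with he
  have he0 : 0 ≤ e := by rw [he]; positivity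
  -- the sums over `n`
  have hroot : ∀ T, T ⊆ S → |∑ n ∈ D.filter (fun n => T ⊆ Sn G R b n), g n -
      M * 2 ^ T.card / ∏ p ∈ T, (p : ℝ)| ≤ e * 2 ^ T.card := by
    intro T hT
    have h := root_T hg (G := G) (b := b) (N := N) (r := r) (R := R) hN hNG hGR hr hr' hT a
    have h1 : D.filter (fun n => T ⊆ Sn G R b n) = (Finset.Icc 1 X).filter
        (fun n => (n % N = a % N ∧ r ∣ n ^ 2 + b ^ 2) ∧ T ⊆ Sn G R b n) := by
      rw [hD, Finset.filter_filter]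
    have h2 : M * 2 ^ T.card / ∏ p ∈ T, (p : ℝ) =
        2 ^ (w + T.card) * H / ((r : ℝ) * N * ∏ p ∈ T, (p : ℝ)) := by
      rw [hM, pow_add]
      field_simp
    have h3 : e * 2 ^ T.card = 2 ^ (w + T.card) * E := by
      rw [he, pow_add]; ring
    rw [h2, h3, h1]
    exact h
  -- Bonferroni for each n
  have hbon : ∀ n, |(-1 : ℝ) ^ (Sn G R b n).card -
      ∑ T ∈ (AdS (lvl R) J k S).filter (fun T => T ⊆ Sn G R b n), (-2 : ℝ) ^ T.card| ≤
      ∑ j ∈ Finset.range J, ∑ T ∈ (ReS (lvl R) k j S).filter (fun T => T ⊆ Sn G R b n),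
        (2 : ℝ) ^ T.card := by
    intro n
    have h := bonf_levels (lvl R) J k (Sn G R b n) (fun p hp => hlJ p (hSnS n hp))
      (fun _ => (2 : ℝ)) (fun p _ => by norm_num)
    simp only [Finset.prod_const] at h
    rw [k15_AdS_sub (lvl R) J k (hSnS n)] at h
    rw [show ((1 : ℝ) - 2) = -1 by norm_num] at h
    refine h.trans (le_of_eq ?_)
    refine Finset.sum_congr rfl fun j _ => ?_
    rw [k15_ReS_sub (lvl R) k j (hSnS n)]
  -- the two parts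
  have hAdS : ∀ T ∈ AdS (lvl R) J k S, T ⊆ S := by
    intro T hT
    rw [AdS, Finset.mem_filter, Finset.mem_powerset] at hT
    exact hT.1
  have hReS : ∀ j, ∀ T ∈ ReS (lvl R) k j S, T ⊆ S := by
    intro j T hT
    rw [ReS, Finset.mem_filter, Finset.mem_powerset] at hT
    exact hT.1
  have hm1 := k15_fam (AdS (lvl R) J k S) (fun T => (-2 : ℝ) ^ T.card)
    (fun T => ∑ n ∈ D.filter (fun n => T ⊆ Sn G R b n), g n) M e (-1) (Or.inr rfl)
    (fun T _ => by rw [← mul_pow]; norm_num) (fun T hT => hroot T (hAdS T hT))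
  have hm2 : ∀ j, |∑ T ∈ ReS (lvl R) k j S, (2 : ℝ) ^ T.card *
        ∑ n ∈ D.filter (fun n => T ⊆ Sn G R b n), g n -
        M * ∑ T ∈ ReS (lvl R) k j S, ∏ p ∈ T, (4 / (p : ℝ))| ≤
      e * ∑ T ∈ ReS (lvl R) k j S, (4 : ℝ) ^ T.card := by
    intro j
    have h := k15_fam (ReS (lvl R) k j S) (fun T => (2 : ℝ) ^ T.card)
      (fun T => ∑ n ∈ D.filter (fun n => T ⊆ Sn G R b n), g n) M e 1 (Or.inl rfl)
      (fun T _ => by simp) (fun T hT => hroot T (hReS j T hT))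
    simpa using h
  -- first part
  have hp1 : |∑ n ∈ D, g n * ∑ T ∈ (AdS (lvl R) J k S).filter (fun T => T ⊆ Sn G R b n),
      (-2 : ℝ) ^ T.card| ≤ M * (Real.exp (-(4 * ∑ p ∈ S, 1 / (p : ℝ))) +
        C ^ (k + 1) / k.factorial) + e * ∑ T ∈ AdS (lvl R) J k S, (4 : ℝ) ^ T.card := by
    rw [k15_swap]
    have h1 : |∑ T ∈ AdS (lvl R) J k S, ∏ p ∈ T, (-1 * (4 / (p : ℝ)))| ≤
        Real.exp (-(4 * ∑ p ∈ S, 1 / (p : ℝ))) + C ^ (k + 1) / k.factorial := by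
      simpa only [neg_one_mul] using had
    have h2 := abs_sub_abs_le_abs_sub (∑ T ∈ AdS (lvl R) J k S, (-2 : ℝ) ^ T.card *
      ∑ n ∈ D.filter (fun n => T ⊆ Sn G R b n), g n)
      (M * ∑ T ∈ AdS (lvl R) J k S, ∏ p ∈ T, (-1 * (4 / (p : ℝ))))
    rw [abs_mul M, abs_of_nonneg hM0] at h2
    have h3 := mul_le_mul_of_nonneg_left h1 hM0
    linarith [hm1]
  -- second part
  have hp2 : ∑ n ∈ D, g n * ∑ j ∈ Finset.range J,
      ∑ T ∈ (ReS (lvl R) k j S).filter (fun T => T ⊆ Sn G R b n), (2 : ℝ) ^ T.card ≤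
      M * (C ^ (k + 1) / k.factorial) +
        e * ∑ j ∈ Finset.range J, ∑ T ∈ ReS (lvl R) k j S, (4 : ℝ) ^ T.card := by
    have h1 : ∑ n ∈ D, g n * ∑ j ∈ Finset.range J,
        ∑ T ∈ (ReS (lvl R) k j S).filter (fun T => T ⊆ Sn G R b n), (2 : ℝ) ^ T.card =
        ∑ j ∈ Finset.range J, ∑ T ∈ ReS (lvl R) k j S, (2 : ℝ) ^ T.card *
          ∑ n ∈ D.filter (fun n => T ⊆ Sn G R b n), g n := by
      have h0 : ∀ n ∈ D, g n * ∑ j ∈ Finset.range J,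
          ∑ T ∈ (ReS (lvl R) k j S).filter (fun T => T ⊆ Sn G R b n), (2 : ℝ) ^ T.card =
          ∑ j ∈ Finset.range J, g n *
            ∑ T ∈ (ReS (lvl R) k j S).filter (fun T => T ⊆ Sn G R b n), (2 : ℝ) ^ T.card :=
        fun n _ => Finset.mul_sum _ _ _
      rw [Finset.sum_congr rfl h0, Finset.sum_comm]
      exact Finset.sum_congr rfl fun j _ => k15_swap _ _ _ _ _
    rw [h1]
    have h2 : ∀ j ∈ Finset.range J, ∑ T ∈ ReS (lvl R) k j S, (2 : ℝ) ^ T.card *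
          ∑ n ∈ D.filter (fun n => T ⊆ Sn G R b n), g n ≤
        M * ∑ T ∈ ReS (lvl R) k j S, ∏ p ∈ T, (4 / (p : ℝ)) +
          e * ∑ T ∈ ReS (lvl R) k j S, (4 : ℝ) ^ T.card := by
      intro j _
      have := le_of_abs_le (hm2 j)
      linarith
    refine (Finset.sum_le_sum h2).trans ?_
    rw [Finset.sum_add_distrib, ← Finset.mul_sum, ← Finset.mul_sum]
    have h3 := mul_le_mul_of_nonneg_left hre hM0
    linarith
  -- conclusion
  have hdiff : |∑ n ∈ D, g n * (-1) ^ (Sn G R b n).card - ∑ n ∈ D, g n *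
      ∑ T ∈ (AdS (lvl R) J k S).filter (fun T => T ⊆ Sn G R b n), (-2 : ℝ) ^ T.card| ≤
      ∑ n ∈ D, g n * ∑ j ∈ Finset.range J,
        ∑ T ∈ (ReS (lvl R) k j S).filter (fun T => T ⊆ Sn G R b n), (2 : ℝ) ^ T.card := by
    rw [← Finset.sum_sub_distrib]
    refine (Finset.abs_sum_le_sum_abs _ _).trans (Finset.sum_le_sum fun n _ => ?_)
    rw [← mul_sub, abs_mul, abs_of_nonneg (hg.nonneg n)]
    exact mul_le_mul_of_nonneg_left (hbon n) (hg.nonneg n)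
  have htri := abs_sub_abs_le_abs_sub (∑ n ∈ D, g n * (-1) ^ (Sn G R b n).card)
    (∑ n ∈ D, g n * ∑ T ∈ (AdS (lvl R) J k S).filter (fun T => T ⊆ Sn G R b n),
      (-2 : ℝ) ^ T.card)
  have hfam' := mul_le_mul_of_nonneg_left hfam he0
  have hfin : 2 ^ w * (H / ((r : ℝ) * N) *
        (Real.exp (-(4 * ∑ p ∈ S, 1 / (p : ℝ))) + 2 * (C ^ (k + 1) / k.factorial)) +
        E * R ^ (3 * k + 3)) = M * (Real.exp (-(4 * ∑ p ∈ S, 1 / (p : ℝ))) +
        2 * (C ^ (k + 1) / k.factorial)) + e * R ^ (3 * k + 3) := by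
    rw [hM, he]; ring
  rw [hfin]
  nlinarith [hp1, hp2, hdiff, htri, hfam']



end Pool.Agent.TR

namespace Pool.Agent.TR

theorem core_sum : type_of% @core_sum_pr := @core_sum_pr

end Pool.Agent.TR
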