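import Pool.Agent.Lib_helper10.T2F.BAS
import Pool.Agent.Lib_helper97.TRL.D42
import Pool.Agent.Lib_helper97.TRL.D50

set_option autoImplicit false

namespace Pool.Agent.TR

open Pool.Agent.T2 Pool.Agent.TF

theorem k19_lam_prod (S : Finset ℕ) (hS : ∀ p ∈ S, p.Prime) :
    lam (∏ p ∈ S, p) = (-1) ^ S.card := by
  classical
  induction S using Finset.induction_on with
  | empty => simp [lam]
  | insert a s ha ih =>
    rw [Finset.prod_insert ha, lam_mul, lam_prime (hS a (Finset.mem_insert_self a s)),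
      ih (fun p hp => hS p (Finset.mem_insert_of_mem hp)), Finset.card_insert_of_notMem ha,
      pow_succ]
    ring

theorem k19_mod4 {n b p : ℕ} (hp : p.Prime) (hp2 : 2 < p) (hpb : ¬ p ∣ b)
    (h : p ∣ n ^ 2 + b ^ 2) : p % 4 = 1 := by
  haveI : Fact p.Prime := ⟨hp⟩
  have hb : (b : ZMod p) ≠ 0 := by
    intro h0
    exact hpb ((ZMod.natCast_eq_zero_iff b p).1 h0)
  have hsum : ((n : ZMod p)) ^ 2 = - (b : ZMod p) ^ 2 := by
    have h1 : ((n ^ 2 + b ^ 2 : ℕ) : ZMod p) = 0 := (ZMod.natCast_eq_zero_iff _ p).2 h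
    push_cast at h1
    linear_combination h1
  have h3 : p % 4 ≠ 3 := ZMod.mod_four_ne_three_of_sq_eq_neg_sq' hb hsum
  rcases hp.eq_two_or_odd with h2 | h2
  · omega
  · omega

theorem good_lam_pr {G J b n : ℕ} {R : ℝ} (hG : 2 ≤ G) (hGR : (G : ℝ) ≤ R) (hn : 1 ≤ n)
    (hcop : Nat.Coprime n b) (hbad : ¬ IsBad G J b n) :
    lam (sm R (n ^ 2 + b ^ 2)) = gb G J b n * (-1) ^ (Sn G R b n).card := by
  classical
  have hm0 : n ^ 2 + b ^ 2 ≠ 0 := by positivity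
  have hbad1 : ∀ p : ℕ, p.Prime → p ≤ G → ¬ p ^ J ∣ n ^ 2 + b ^ 2 := by
    intro p hp hpG hd
    exact hbad (Or.inl ⟨hcop, Or.inl ⟨p, hp, hpG, hd⟩⟩)
  have hbad2 : ∀ p : ℕ, p.Prime → G < p → ¬ p ^ 2 ∣ n ^ 2 + b ^ 2 := by
    intro p hp hpG hd
    exact hbad (Or.inl ⟨hcop, Or.inr ⟨p, hp, hpG, hd⟩⟩)
  have hnb : ∀ p : ℕ, p.Prime → ¬ (p ∣ n ∧ p ∣ b) := by
    intro p hp h
    have := Nat.dvd_gcd h.1 h.2
    rw [hcop.gcd_eq_one] at this
    exact hp.one_lt.ne' (Nat.dvd_one.1 this)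
  have hgb : gb G J b n = lam (sm (G : ℝ) (n ^ 2 + b ^ 2)) := by
    unfold gb
    rw [if_pos]
    intro p hp hpG
    exact ⟨hbad1 p hp hpG, hnb p hp⟩
  have hset : ((n ^ 2 + b ^ 2).primeFactors.filter (fun p : ℕ => (p : ℝ) ≤ R)).filter
      (fun p : ℕ => ¬ (p : ℝ) ≤ (G : ℝ)) = Sn G R b n := by
    ext p
    unfold Sn Pb
    simp only [Finset.mem_filter, Finset.mem_Icc, Nat.mem_primeFactors, not_le, Nat.cast_lt]
    constructor
    · rintro ⟨⟨⟨hp, hd, -⟩, hR⟩, hG'⟩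
      have hpb : ¬ p ∣ b := by
        intro hb
        have h1 : p ∣ n ^ 2 := by
          have h2 : p ∣ b ^ 2 := dvd_pow hb (by norm_num)
          exact (Nat.dvd_add_left h2).1 hd
        exact hnb p hp ⟨hp.dvd_of_dvd_pow h1, hb⟩
      refine ⟨⟨⟨hp.one_lt.le, Nat.le_floor hR⟩, hp, k19_mod4 hp (by omega) hpb hd, hG', hpb⟩, hd⟩
    · rintro ⟨⟨⟨h1, hfl⟩, hp, -, hG', hpb⟩, hd⟩
      refine ⟨⟨⟨hp, hd, hm0⟩, ?_⟩, hG'⟩
      have hR0 : 0 ≤ R := le_trans (Nat.cast_nonneg G) hGR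
      exact (Nat.le_floor_iff hR0).1 hfl
  have hset2 : ((n ^ 2 + b ^ 2).primeFactors.filter (fun p : ℕ => (p : ℝ) ≤ R)).filter
      (fun p : ℕ => (p : ℝ) ≤ (G : ℝ)) =
      (n ^ 2 + b ^ 2).primeFactors.filter (fun p : ℕ => (p : ℝ) ≤ (G : ℝ)) := by
    ext p
    simp only [Finset.mem_filter]
    constructor
    · rintro ⟨⟨h1, -⟩, h2⟩
      exact ⟨h1, h2⟩
    · rintro ⟨h1, h2⟩
      exact ⟨⟨h1, h2.trans hGR⟩, h2⟩
  have hsm : sm R (n ^ 2 + b ^ 2) = sm (G : ℝ) (n ^ 2 + b ^ 2) * ∏ p ∈ Sn G R b n, p := by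
    unfold sm
    rw [← Finset.prod_filter_mul_prod_filter_not
      ((n ^ 2 + b ^ 2).primeFactors.filter (fun p : ℕ => (p : ℝ) ≤ R))
      (fun p : ℕ => (p : ℝ) ≤ (G : ℝ)), hset2, hset]
    congr 1
    refine Finset.prod_congr rfl ?_
    intro p hp
    have hp' : p ∈ ((n ^ 2 + b ^ 2).primeFactors.filter (fun p : ℕ => (p : ℝ) ≤ R)).filter
      (fun p : ℕ => ¬ (p : ℝ) ≤ (G : ℝ)) := by rw [hset]; exact hp
    simp only [Finset.mem_filter, Nat.mem_primeFactors, not_le, Nat.cast_lt] at hp'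
    obtain ⟨⟨⟨hpp, hd, -⟩, -⟩, hG'⟩ := hp'
    have h1 : 1 ≤ (n ^ 2 + b ^ 2).factorization p :=
      (hpp.dvd_iff_one_le_factorization hm0).1 hd
    have h2 : (n ^ 2 + b ^ 2).factorization p < 2 := by
      by_contra hcon
      push Not at hcon
      exact hbad2 p hpp hG' ((hpp.pow_dvd_iff_le_factorization hm0).2 hcon)
    have h3 : (n ^ 2 + b ^ 2).factorization p = 1 := by omega
    rw [h3, pow_one]
  rw [hsm, lam_mul, hgb, k19_lam_prod]
  intro p hp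
  unfold Sn Pb at hp
  simp only [Finset.mem_filter] at hp
  exact hp.1.2.1



end Pool.Agent.TR

namespace Pool.Agent.TR

theorem good_lam : type_of% @good_lam_pr := @good_lam_pr

end Pool.Agent.TR
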