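import Pool.Agent.Lib_helper10.T2F.BAS
import Pool.Agent.Lib_helper97.TRL.D42
import Pool.Agent.Lib_helper97.TRL.D50

set_option autoImplicit false

namespace Pool.Agent.TR

open Pool.Agent.T2 Pool.Agent.TF

theorem k21_prime {b n p : ℕ} (hp : p.Prime) (h2 : 2 < p) (hcop : Nat.Coprime n b)
    (hd : p ∣ n ^ 2 + b ^ 2) : p % 4 = 1 ∧ ¬ p ∣ b := by
  have hb : ¬ p ∣ b := by
    intro h
    have h1 : p ∣ n ^ 2 := (Nat.dvd_add_left (dvd_pow h two_ne_zero)).1 hd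
    have h3 : p ∣ n := hp.dvd_of_dvd_pow h1
    have h4 : p ∣ Nat.gcd n b := Nat.dvd_gcd h3 h
    rw [hcop] at h4
    exact hp.one_lt.ne' (Nat.dvd_one.1 h4)
  refine ⟨?_, hb⟩
  haveI : Fact p.Prime := ⟨hp⟩
  have hy : (b : ZMod p) ≠ 0 := by
    rw [Ne, ZMod.natCast_eq_zero_iff]
    exact hb
  have hxy : (n : ZMod p) ^ 2 = -(b : ZMod p) ^ 2 := by
    have h1 : ((n ^ 2 + b ^ 2 : ℕ) : ZMod p) = 0 := (ZMod.natCast_eq_zero_iff _ _).2 hd
    push_cast at h1
    exact eq_neg_of_add_eq_zero_left h1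
  have h3 : p % 4 ≠ 3 := ZMod.mod_four_ne_three_of_sq_eq_neg_sq' hy hxy
  have hodd : p % 2 = 1 := (hp.eq_two_or_odd).resolve_left (by omega)
  omega

theorem k21_rg_dvd (R : ℝ) {m : ℕ} (hm : m ≠ 0) : rg R m ∣ m := by
  unfold rg
  have h1 : m = ∏ p ∈ m.primeFactors, p ^ m.factorization p := by
    conv_lhs => rw [← Nat.prod_factorization_pow_eq_self hm]
    rfl
  conv_rhs => rw [h1]
  exact Finset.prod_dvd_prod_of_subset _ _ _ (Finset.filter_subset _ _)

theorem k21_rg_prime {R : ℝ} {m p : ℕ} (hp : p.Prime) (h : p ∣ rg R m) : R < (p : ℝ) := by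
  unfold rg at h
  obtain ⟨q, hq, hpq⟩ := (Prime.dvd_finset_prod_iff hp.prime _).1 h
  rw [Finset.mem_filter] at hq
  have hqq : q.Prime := Nat.prime_of_mem_primeFactors hq.1
  have h1 : p ∣ q := hp.dvd_of_dvd_pow hpq
  have h2 : p = q := (Nat.prime_dvd_prime_iff_eq hp hqq).1 h1
  rw [h2]
  exact hq.2

theorem good_hs_pr {b n : ℕ} {R : ℝ} (W : ℝ) (hR : 2 ≤ R) (hn : 1 ≤ n)
    (hcop : Nat.Coprime n b) :
    hs W (rg R (n ^ 2 + b ^ 2)) = hr R W b (n ^ 2 + b ^ 2) := by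
  set m := n ^ 2 + b ^ 2 with hmdef
  have hm : m ≠ 0 := by positivity
  have hrgd : rg R m ∣ m := k21_rg_dvd R hm
  have hrg0 : rg R m ≠ 0 := fun h => hm (by rw [h] at hrgd; exact zero_dvd_iff.1 hrgd)
  unfold hs hr
  apply Finset.sum_congr _ (fun _ _ => rfl)
  ext r
  unfold Rb
  rw [Finset.mem_filter, Finset.mem_filter, Finset.mem_filter, Finset.mem_Icc, Nat.mem_divisors]
  constructor
  · rintro ⟨⟨hrd, _⟩, hsqf, hrW⟩
    have hr1 : 1 ≤ r := Nat.pos_of_dvd_of_pos hrd (Nat.pos_of_ne_zero hrg0)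
    have hrm : r ∣ m := hrd.trans hrgd
    refine ⟨⟨⟨hr1, Nat.le_floor hrW⟩, hsqf, ?_⟩, hrm⟩
    intro p hp
    have hpp : p.Prime := Nat.prime_of_mem_primeFactors hp
    have hpr : p ∣ r := Nat.dvd_of_mem_primeFactors hp
    have hRp : R < (p : ℝ) := k21_rg_prime hpp (hpr.trans hrd)
    have h2p : 2 < p := by
      have : (2 : ℝ) < p := hR.trans_lt hRp
      exact_mod_cast this
    obtain ⟨h4, hb⟩ := k21_prime hpp h2p hcop (hpr.trans hrm)
    exact ⟨h4, hRp, hb⟩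
  · rintro ⟨⟨⟨hr1, hrW⟩, hsqf, hall⟩, hrm⟩
    refine ⟨⟨?_, hrg0⟩, hsqf, ?_⟩
    · rw [← Nat.prod_primeFactors_of_squarefree hsqf]
      apply Finset.prod_primes_dvd
      · intro p hp
        exact (Nat.prime_of_mem_primeFactors hp).prime
      · intro p hp
        have hpp : p.Prime := Nat.prime_of_mem_primeFactors hp
        have hpm : p ∣ m := (Nat.dvd_of_mem_primeFactors hp).trans hrm
        have hmem : p ∈ m.primeFactors.filter (fun p : ℕ => R < (p : ℝ)) := by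
          rw [Finset.mem_filter]
          exact ⟨Nat.mem_primeFactors.2 ⟨hpp, hpm, hm⟩, (hall p hp).2.1⟩
        refine dvd_trans ?_ (Finset.dvd_prod_of_mem (fun p => p ^ m.factorization p) hmem)
        apply dvd_pow_self
        exact (hpp.factorization_pos_of_dvd hm hpm).ne'
    · exact (Nat.le_floor_iff' (by omega)).1 hrW

end Pool.Agent.TR

namespace Pool.Agent.TR

theorem good_hs : type_of% @good_hs_pr := @good_hs_pr

end Pool.Agent.TR
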