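import Pool.Agent.Lib_helper10.T2F.BAS
import Pool.Agent.Lib_helper97.TRL.D42
import Pool.Agent.Lib_helper97.TRL.D50

/-!
# Block K23 of part K of TR (MP_892e4c_nt)
-/

set_option autoImplicit false

namespace Pool.Agent.TR

open Pool.Agent.T2 Pool.Agent.TF

open Classical in
/-- the primes `> R` dividing `m` -/
private noncomputable def k23_P (R : ℝ) (m : ℕ) : Finset ℕ :=
  m.primeFactors.filter (fun p : ℕ => R < (p : ℝ))

private theorem k23_card {x ρ : ℝ} (hx : 2 ≤ x) (hρ : 0 < ρ) {m : ℕ} (hm : 1 ≤ m)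
    (hmx : (m : ℝ) ≤ 2 * x ^ 2) : ((k23_P (x ^ ρ) m).card : ℝ) ≤ 3 / ρ := by
  have hx0 : (0 : ℝ) < x := by linarith
  have h1 : ∏ p ∈ k23_P (x ^ ρ) m, p ∣ m := by
    refine dvd_trans ?_ (Nat.prod_primeFactors_dvd m)
    exact Finset.prod_dvd_prod_of_subset _ _ _ (Finset.filter_subset _ _)
  have h2 : (∏ p ∈ k23_P (x ^ ρ) m, (p : ℝ)) ≤ m := by
    have h3 := Nat.le_of_dvd (by omega) h1
    rw [← Nat.cast_prod]
    exact Nat.cast_le.mpr h3
  have h3 : (x ^ ρ) ^ (k23_P (x ^ ρ) m).card ≤ ∏ p ∈ k23_P (x ^ ρ) m, (p : ℝ) := by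
    rw [← Finset.prod_const]
    refine Finset.prod_le_prod (fun _ _ => (Real.rpow_pos_of_pos hx0 _).le) fun p hp => ?_
    unfold k23_P at hp
    exact (Finset.mem_filter.mp hp).2.le
  have h4 : (x ^ ρ) ^ (k23_P (x ^ ρ) m).card ≤ x ^ (3 : ℝ) := by
    refine (h3.trans (h2.trans hmx)).trans ?_
    have h5 : x ^ (3 : ℝ) = x * x ^ 2 := by
      rw [show (3 : ℝ) = ((3 : ℕ) : ℝ) by norm_num, Real.rpow_natCast]
      ring
    rw [h5]
    exact mul_le_mul_of_nonneg_right hx (by positivity)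
  rw [← Real.rpow_natCast, ← Real.rpow_mul hx0.le,
    Real.rpow_le_rpow_left_iff (by linarith : (1 : ℝ) < x)] at h4
  rw [le_div_iff₀ hρ, mul_comm]
  exact h4

private theorem k23_main {x ρ : ℝ} (hx : 2 ≤ x) (hρ : 0 < ρ) {m : ℕ} (hm : 1 ≤ m)
    (hmx : (m : ℝ) ≤ 2 * x ^ 2) (F : Finset ℕ) (hF : ∀ r ∈ F, Squarefree r)
    (hF2 : ∀ r ∈ F, r.primeFactors ⊆ k23_P (x ^ ρ) m) :
    |∑ r ∈ F, (-2 : ℝ) ^ r.primeFactors.card| ≤ (3 : ℝ) ^ (3 / ρ) := by
  have h1 : |∑ r ∈ F, (-2 : ℝ) ^ r.primeFactors.card| ≤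
      ∑ r ∈ F, (2 : ℝ) ^ r.primeFactors.card := by
    refine (Finset.abs_sum_le_sum_abs _ _).trans (le_of_eq (Finset.sum_congr rfl fun r _ => ?_))
    rw [abs_pow]
    norm_num
  have h2 : ∑ r ∈ F, (2 : ℝ) ^ r.primeFactors.card ≤
      ∑ t ∈ (k23_P (x ^ ρ) m).powerset, (2 : ℝ) ^ t.card := by
    rw [← Finset.sum_image (f := fun t : Finset ℕ => (2 : ℝ) ^ t.card) (s := F)
      (g := fun r => r.primeFactors)]
    · refine Finset.sum_le_sum_of_subset_of_nonneg ?_ fun _ _ _ => by positivity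
      intro t ht
      rw [Finset.mem_image] at ht
      obtain ⟨r, hr, rfl⟩ := ht
      exact Finset.mem_powerset.mpr (hF2 r hr)
    · intro r hr r' hr' h
      have h' : r.primeFactors = r'.primeFactors := h
      rw [← Nat.prod_primeFactors_of_squarefree (hF r hr), h',
        Nat.prod_primeFactors_of_squarefree (hF r' hr')]
  have h3 : ∑ t ∈ (k23_P (x ^ ρ) m).powerset, (2 : ℝ) ^ t.card =
      3 ^ (k23_P (x ^ ρ) m).card := by
    have h4 := Finset.sum_pow_mul_eq_add_pow (2 : ℝ) 1 (k23_P (x ^ ρ) m)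
    simp only [one_pow, mul_one] at h4
    rw [h4]
    norm_num
  refine h1.trans (h2.trans (h3.le.trans ?_))
  rw [← Real.rpow_natCast]
  exact Real.rpow_le_rpow_of_exponent_le (by norm_num) (k23_card hx hρ hm hmx)

theorem k_hs_bound_pr {x ρ : ℝ} (hx : 2 ≤ x) (hρ : 0 < ρ) {m : ℕ} (hm : 1 ≤ m)
    (hmx : (m : ℝ) ≤ 2 * x ^ 2) (W : ℝ) (b : ℕ) :
    |hs W (rg (x ^ ρ) m)| ≤ (3 : ℝ) ^ (3 / ρ) ∧ |hr (x ^ ρ) W b m| ≤ (3 : ℝ) ^ (3 / ρ) := by
  classical
  constructor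
  · unfold hs
    refine k23_main hx hρ hm hmx _ (fun r hr => (Finset.mem_filter.mp hr).2.1) fun r hr p hp => ?_
    have h1 := Nat.dvd_of_mem_divisors (Finset.mem_filter.mp hr).1
    have hp' := Nat.prime_of_mem_primeFactors hp
    have h2 : p ∣ rg (x ^ ρ) m := (Nat.dvd_of_mem_primeFactors hp).trans h1
    unfold rg at h2
    obtain ⟨q, hq, hpq⟩ := (hp'.prime.dvd_finsetProd_iff _).mp h2
    rw [Finset.mem_filter] at hq
    have h3 := (Nat.prime_dvd_prime_iff_eq hp' (Nat.prime_of_mem_primeFactors hq.1)).mp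
      (hp'.dvd_of_dvd_pow hpq)
    unfold k23_P
    rw [Finset.mem_filter, h3]
    exact hq
  · unfold hr
    refine k23_main hx hρ hm hmx _ (fun r hr => ?_) fun r hr p hp => ?_
    · have h1 := (Finset.mem_filter.mp hr).1
      unfold Rb at h1
      exact (Finset.mem_filter.mp h1).2.1
    · rw [Finset.mem_filter] at hr
      have h1 := hr.1
      unfold Rb at h1
      have h2 := (Finset.mem_filter.mp h1).2.2 p hp
      unfold k23_P
      rw [Finset.mem_filter, Nat.mem_primeFactors]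
      exact ⟨⟨Nat.prime_of_mem_primeFactors hp, (Nat.dvd_of_mem_primeFactors hp).trans hr.2,
        by omega⟩, h2.2.1⟩



end Pool.Agent.TR

namespace Pool.Agent.TR

theorem k_hs_bound : type_of% @k_hs_bound_pr := @k_hs_bound_pr

end Pool.Agent.TR
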