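import Pool.Agent.Lib_helper97.TRL.K22
import Pool.Agent.Lib_helper10.T2F.BAS
import Pool.Agent.Lib_helper97.TRL.D42
import Pool.Agent.Lib_helper97.TRL.D50

set_option autoImplicit false

namespace Pool.Agent.TR

open Pool.Agent.T2 Pool.Agent.TF

theorem main_b_pr {C A : ℝ}
    (hC : ∀ (G k b N a r X : ℕ) (R H E : ℝ) (g : ℕ → ℝ), 16 ≤ G →
      1 ≤ N → (∀ p : ℕ, p.Prime → p ∣ N → p ≤ G) → (G : ℝ) ≤ R → Squarefree r →
      (∀ p ∈ r.primeFactors, p % 4 = 1 ∧ R < (p : ℝ) ∧ ¬ p ∣ b) → WFn g X H E →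
      |∑ n ∈ (Finset.Icc 1 X).filter (fun n => n % N = a % N ∧ r ∣ n ^ 2 + b ^ 2),
          g n * (-1) ^ (Sn G R b n).card| ≤
        2 ^ r.primeFactors.card * (H / ((r : ℝ) * N) *
          (Real.exp (-(4 * ∑ p ∈ Pb G R b, 1 / (p : ℝ))) + 2 * (C ^ (k + 1) / k.factorial)) +
          E * R ^ (3 * k + 3)))
    {G J k b X : ℕ} {R W H E : ℝ} {g : ℕ → ℝ} (hG : 16 ≤ G) (hJ : 1 ≤ J) (hb : 1 ≤ b)
    (hGR : (G : ℝ) ≤ R) (hW : 0 ≤ W) (hg : WFn g X H E) (hC1 : 1 ≤ C)
    (hA : ∑ r ∈ Rb R W b, (4 : ℝ) ^ r.primeFactors.card / r ≤ A) :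
    |∑ n ∈ Finset.Icc 1 X, g n * (gb G J b n * (-1) ^ (Sn G R b n).card *
        hr R W b (n ^ 2 + b ^ 2))| ≤
      A * (H * (Real.exp (-(4 * ∑ p ∈ Pb G R b, 1 / (p : ℝ))) +
        2 * (C ^ (k + 1) / k.factorial)) + Q0 G J * E * R ^ (3 * k + 3) * W) := by
  classical
  obtain ⟨Q, hQ⟩ : ∃ Q, Q = Q0 G J := ⟨_, rfl⟩
  rw [← hQ]
  have hQ1 : 1 ≤ Q := by rw [hQ]; exact q0_pos G J
  have hQp : ∀ p : ℕ, p.Prime → p ∣ Q → p ≤ G := fun p hp h => q0_primes hp (hQ ▸ h)
  obtain ⟨e, he⟩ : ∃ e : ℝ, e = Real.exp (-(4 * ∑ p ∈ Pb G R b, 1 / (p : ℝ))) +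
        2 * (C ^ (k + 1) / k.factorial) := ⟨_, rfl⟩
  obtain ⟨D, hD⟩ : ∃ D : ℝ, D = E * R ^ (3 * k + 3) := ⟨_, rfl⟩
  have hR0 : 0 ≤ R := le_trans (Nat.cast_nonneg _) hGR
  have he0 : 0 ≤ e := by
    rw [he]
    have : 0 ≤ C ^ (k + 1) / (k.factorial : ℝ) := by positivity
    have := Real.exp_pos (-(4 * ∑ p ∈ Pb G R b, 1 / (p : ℝ)))
    linarith
  have hE0 : 0 ≤ E := by linarith [hg.E_one]
  have hD0 : 0 ≤ D := by rw [hD]; positivity
  have hH0 : 0 ≤ H := hg.H_nonneg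
  have hQ0 : (0 : ℝ) < (Q : ℝ) := by exact_mod_cast hQ1
  rw [← he]
  -- one `r`
  have hin : ∀ r ∈ Rb R W b,
      |∑ n ∈ (Finset.Icc 1 X).filter (fun n => r ∣ n ^ 2 + b ^ 2),
        g n * (gb G J b n * (-1) ^ (Sn G R b n).card)| ≤
      2 ^ r.primeFactors.card * (H / r * e + Q * D) := by
    intro r hr
    unfold Rb at hr
    rw [Finset.mem_filter] at hr
    obtain ⟨hr1, hr2, hr3⟩ := hr
    rw [← Finset.sum_fiberwise_of_maps_to (t := Finset.range Q) (g := fun n => n % Q)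
      (fun n _ => Finset.mem_range.2 (Nat.mod_lt _ (by omega)))]
    have h1 : ∀ a ∈ Finset.range Q,
        |∑ n ∈ ((Finset.Icc 1 X).filter (fun n => r ∣ n ^ 2 + b ^ 2)).filter
          (fun n => n % Q = a), g n * (gb G J b n * (-1) ^ (Sn G R b n).card)| ≤
        2 ^ r.primeFactors.card * (H / ((r : ℝ) * Q) * e + D) := by
      intro a ha
      rw [Finset.mem_range] at ha
      have ha' : a % Q = a := Nat.mod_eq_of_lt ha
      have h2 : ((Finset.Icc 1 X).filter (fun n => r ∣ n ^ 2 + b ^ 2)).filter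
          (fun n => n % Q = a) =
          (Finset.Icc 1 X).filter (fun n => n % Q = a % Q ∧ r ∣ n ^ 2 + b ^ 2) := by
        ext n
        simp only [Finset.mem_filter, ha']
        tauto
      rw [h2]
      have h3 : ∑ n ∈ (Finset.Icc 1 X).filter (fun n => n % Q = a % Q ∧ r ∣ n ^ 2 + b ^ 2),
          g n * (gb G J b n * (-1) ^ (Sn G R b n).card) =
          gb G J b a * ∑ n ∈ (Finset.Icc 1 X).filter
            (fun n => n % Q = a % Q ∧ r ∣ n ^ 2 + b ^ 2), g n * (-1) ^ (Sn G R b n).card := by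
        rw [Finset.mul_sum]
        apply Finset.sum_congr rfl
        intro n hn
        rw [Finset.mem_filter] at hn
        have h4 : gb G J b n = gb G J b a := gb_period hJ hb (by rw [← hQ]; exact hn.2.1)
        rw [h4]
        ring
      rw [h3, abs_mul]
      have h5 := hC G k b Q a r X R H E g hG hQ1 hQp hGR hr2 hr3 hg
      rw [← he, ← hD] at h5
      calc |gb G J b a| * _ ≤ 1 * _ :=
            mul_le_mul_of_nonneg_right (gb_abs G J b a) (abs_nonneg _)
        _ ≤ _ := by rw [one_mul]; exact h5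
    refine (Finset.abs_sum_le_sum_abs _ _).trans ((Finset.sum_le_sum h1).trans ?_)
    rw [Finset.sum_const, Finset.card_range, nsmul_eq_mul]
    apply le_of_eq
    by_cases hr0 : (r : ℝ) = 0
    · rw [hr0]
      simp
      ring
    · field_simp
  -- expansion
  have h1 : ∑ n ∈ Finset.Icc 1 X, g n * (gb G J b n * (-1) ^ (Sn G R b n).card *
        hr R W b (n ^ 2 + b ^ 2)) =
      ∑ r ∈ Rb R W b, (-2 : ℝ) ^ r.primeFactors.card *
        ∑ n ∈ (Finset.Icc 1 X).filter (fun n => r ∣ n ^ 2 + b ^ 2),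
          g n * (gb G J b n * (-1) ^ (Sn G R b n).card) := by
    have h2 : ∀ n ∈ Finset.Icc 1 X, g n * (gb G J b n * (-1) ^ (Sn G R b n).card *
        hr R W b (n ^ 2 + b ^ 2)) = ∑ r ∈ Rb R W b, (if r ∣ n ^ 2 + b ^ 2 then
          (-2 : ℝ) ^ r.primeFactors.card *
            (g n * (gb G J b n * (-1) ^ (Sn G R b n).card)) else 0) := by
      intro n _
      unfold hr
      rw [Finset.sum_filter, Finset.mul_sum, Finset.mul_sum]
      apply Finset.sum_congr rfl
      intro r _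
      split_ifs
      · ring
      · ring
    rw [Finset.sum_congr rfl h2, Finset.sum_comm]
    apply Finset.sum_congr rfl
    intro r _
    rw [Finset.mul_sum, Finset.sum_filter]
  rw [h1]
  refine (Finset.abs_sum_le_sum_abs _ _).trans ?_
  have h2 : ∀ r ∈ Rb R W b, |(-2 : ℝ) ^ r.primeFactors.card *
        ∑ n ∈ (Finset.Icc 1 X).filter (fun n => r ∣ n ^ 2 + b ^ 2),
          g n * (gb G J b n * (-1) ^ (Sn G R b n).card)| ≤
      (4 : ℝ) ^ r.primeFactors.card / r * (H * e + Q * D * W) := by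
    intro r hr
    have h3 := hin r hr
    unfold Rb at hr
    rw [Finset.mem_filter, Finset.mem_Icc] at hr
    have hr0 : (0 : ℝ) < (r : ℝ) := by exact_mod_cast hr.1.1
    have hrW : (r : ℝ) ≤ W := (Nat.le_floor_iff hW).1 hr.1.2
    rw [abs_mul, abs_pow, abs_neg, abs_two]
    calc (2 : ℝ) ^ r.primeFactors.card * _
        ≤ (2 : ℝ) ^ r.primeFactors.card * (2 ^ r.primeFactors.card * (H / r * e + Q * D)) :=
          mul_le_mul_of_nonneg_left h3 (by positivity)
      _ = (4 : ℝ) ^ r.primeFactors.card / r * (H * e + Q * D * r) := by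
          rw [show (4 : ℝ) = 2 * 2 by norm_num, mul_pow]
          field_simp
      _ ≤ (4 : ℝ) ^ r.primeFactors.card / r * (H * e + Q * D * W) := by
          apply mul_le_mul_of_nonneg_left _ (by positivity)
          have : (Q : ℝ) * D * r ≤ Q * D * W :=
            mul_le_mul_of_nonneg_left hrW (by positivity)
          linarith
  refine (Finset.sum_le_sum h2).trans ?_
  rw [← Finset.sum_mul]
  calc _ ≤ A * (H * e + Q * D * W) := by
        apply mul_le_mul_of_nonneg_right hA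
        have : 0 ≤ (Q : ℝ) * D * W := by positivity
        have : 0 ≤ H * e := by positivity
        linarith
    _ = _ := by rw [hD]; ring

end Pool.Agent.TR

namespace Pool.Agent.TR

theorem main_b : type_of% @main_b_pr := @main_b_pr

end Pool.Agent.TR
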