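import Pool.Agent.Lib_helper10.T2F.BAS
import Pool.Agent.Lib_helper97.TRL.D42
import Pool.Agent.Lib_helper97.TRL.D50

set_option autoImplicit false

namespace Pool.Agent.TR

open Pool.Agent.T2 Pool.Agent.TF

/-- K25: the sum over `n` for which the product of `Sn` is large -/
theorem rare_b_pr {C A : ℝ}
    (hC : ∀ (G k b r X : ℕ) (R H E : ℝ) (g : ℕ → ℝ), 16 ≤ G →
      (G : ℝ) ≤ R → Squarefree r → (∀ p ∈ r.primeFactors, p % 4 = 1 ∧ R < (p : ℝ) ∧ ¬ p ∣ b) →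
      WFn g X H E →
      ∑ n ∈ (Finset.Icc 1 X).filter (fun n => r ∣ n ^ 2 + b ^ 2 ∧
          R ^ (2 * k + 2) < ∏ p ∈ Sn G R b n, (p : ℝ)), g n ≤
        2 ^ r.primeFactors.card * (H / r * (C ^ (k + 1) / k.factorial) +
          E * R ^ (3 * k + 3)))
    {G k b X : ℕ} {R W H E : ℝ} {g : ℕ → ℝ} (hG : 16 ≤ G)
    (hGR : (G : ℝ) ≤ R) (hW : 0 ≤ W) (hg : WFn g X H E) (hC1 : 1 ≤ C)
    (hA : ∑ r ∈ Rb R W b, (4 : ℝ) ^ r.primeFactors.card / r ≤ A) :
    ∑ n ∈ (Finset.Icc 1 X).filter (fun n => R ^ (2 * k + 2) < ∏ p ∈ Sn G R b n, (p : ℝ)),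
        g n * |hr R W b (n ^ 2 + b ^ 2)| ≤
      A * (H * (C ^ (k + 1) / k.factorial) + E * R ^ (3 * k + 3) * W) := by
  classical
  have hR0 : 0 ≤ R := by
    have : (0 : ℝ) ≤ (G : ℝ) := Nat.cast_nonneg G
    linarith
  have hE0 : 0 ≤ E := by linarith [hg.E_one]
  have hc0 : 0 ≤ C ^ (k + 1) / (k.factorial : ℝ) := by positivity
  set c : ℝ := C ^ (k + 1) / (k.factorial : ℝ) with hc
  have hhr : ∀ m : ℕ, |hr R W b m| ≤
      ∑ r ∈ Rb R W b, if r ∣ m then (2 : ℝ) ^ r.primeFactors.card else 0 := by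
    intro m
    unfold hr
    refine (Finset.abs_sum_le_sum_abs _ _).trans (le_of_eq ?_)
    rw [Finset.sum_filter]
    refine Finset.sum_congr rfl fun r _ => ?_
    split_ifs
    · rw [abs_pow, abs_neg, abs_two]
    · rfl
  have hterm : ∀ r ∈ Rb R W b,
      ∑ n ∈ (Finset.Icc 1 X).filter (fun n => R ^ (2 * k + 2) < ∏ p ∈ Sn G R b n, (p : ℝ)),
        g n * (if r ∣ n ^ 2 + b ^ 2 then (2 : ℝ) ^ r.primeFactors.card else 0) ≤
      (4 : ℝ) ^ r.primeFactors.card / r * (H * c + E * R ^ (3 * k + 3) * W) := by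
    intro r hr
    unfold Rb at hr
    rw [Finset.mem_filter, Finset.mem_Icc] at hr
    obtain ⟨⟨hr1, hrW⟩, hsq, hpf⟩ := hr
    have hr0 : (0 : ℝ) < (r : ℝ) := by exact_mod_cast hr1
    have hrW' : (r : ℝ) ≤ W := (Nat.le_floor_iff hW).mp hrW
    have h1 := hC G k b r X R H E g hG hGR hsq hpf hg
    have e1 : ∑ n ∈ (Finset.Icc 1 X).filter
        (fun n => R ^ (2 * k + 2) < ∏ p ∈ Sn G R b n, (p : ℝ)),
        g n * (if r ∣ n ^ 2 + b ^ 2 then (2 : ℝ) ^ r.primeFactors.card else 0) =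
        2 ^ r.primeFactors.card * ∑ n ∈ (Finset.Icc 1 X).filter (fun n => r ∣ n ^ 2 + b ^ 2 ∧
          R ^ (2 * k + 2) < ∏ p ∈ Sn G R b n, (p : ℝ)), g n := by
      rw [Finset.mul_sum, Finset.sum_filter, Finset.sum_filter]
      refine Finset.sum_congr rfl fun n _ => ?_
      by_cases h2 : r ∣ n ^ 2 + b ^ 2 <;>
        by_cases h3 : R ^ (2 * k + 2) < ∏ p ∈ Sn G R b n, (p : ℝ) <;> simp [h2, h3, mul_comm]
    rw [e1]
    have h4 : (2 : ℝ) ^ r.primeFactors.card * (2 ^ r.primeFactors.card) =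
        4 ^ r.primeFactors.card := by
      rw [← mul_pow]; norm_num
    calc (2 : ℝ) ^ r.primeFactors.card *
          ∑ n ∈ (Finset.Icc 1 X).filter (fun n => r ∣ n ^ 2 + b ^ 2 ∧
            R ^ (2 * k + 2) < ∏ p ∈ Sn G R b n, (p : ℝ)), g n
        ≤ (2 : ℝ) ^ r.primeFactors.card * (2 ^ r.primeFactors.card * (H / r * c +
          E * R ^ (3 * k + 3))) := mul_le_mul_of_nonneg_left h1 (by positivity)
      _ = 4 ^ r.primeFactors.card * (H / r * c + E * R ^ (3 * k + 3)) := by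
          rw [← mul_assoc, h4]
      _ ≤ 4 ^ r.primeFactors.card * (H / r * c + E * R ^ (3 * k + 3) * (W / r)) := by
          have h5 : 1 ≤ W / (r : ℝ) := by rw [le_div_iff₀ hr0]; linarith
          have h6 : 0 ≤ E * R ^ (3 * k + 3) := by positivity
          have h7 : E * R ^ (3 * k + 3) ≤ E * R ^ (3 * k + 3) * (W / r) := by nlinarith
          exact mul_le_mul_of_nonneg_left (by linarith) (by positivity)
      _ = (4 : ℝ) ^ r.primeFactors.card / r * (H * c + E * R ^ (3 * k + 3) * W) := by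
          field_simp
  calc ∑ n ∈ (Finset.Icc 1 X).filter (fun n => R ^ (2 * k + 2) < ∏ p ∈ Sn G R b n, (p : ℝ)),
        g n * |hr R W b (n ^ 2 + b ^ 2)|
      ≤ ∑ n ∈ (Finset.Icc 1 X).filter (fun n => R ^ (2 * k + 2) < ∏ p ∈ Sn G R b n, (p : ℝ)),
        g n * ∑ r ∈ Rb R W b,
          if r ∣ n ^ 2 + b ^ 2 then (2 : ℝ) ^ r.primeFactors.card else 0 :=
        Finset.sum_le_sum fun n _ => mul_le_mul_of_nonneg_left (hhr _) (hg.nonneg n)
    _ = ∑ r ∈ Rb R W b,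
        ∑ n ∈ (Finset.Icc 1 X).filter (fun n => R ^ (2 * k + 2) < ∏ p ∈ Sn G R b n, (p : ℝ)),
          g n * (if r ∣ n ^ 2 + b ^ 2 then (2 : ℝ) ^ r.primeFactors.card else 0) := by
        simp only [Finset.mul_sum]
        exact Finset.sum_comm
    _ ≤ ∑ r ∈ Rb R W b,
        (4 : ℝ) ^ r.primeFactors.card / r * (H * c + E * R ^ (3 * k + 3) * W) :=
        Finset.sum_le_sum hterm
    _ = (∑ r ∈ Rb R W b, (4 : ℝ) ^ r.primeFactors.card / r) *
        (H * c + E * R ^ (3 * k + 3) * W) := by rw [Finset.sum_mul]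
    _ ≤ A * (H * c + E * R ^ (3 * k + 3) * W) := by
        refine mul_le_mul_of_nonneg_right hA ?_
        have := hg.H_nonneg
        positivity



end Pool.Agent.TR

namespace Pool.Agent.TR

theorem rare_b : type_of% @rare_b_pr := @rare_b_pr

end Pool.Agent.TR
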