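import Pool.Agent.Lib_helper97.TRL.K11
import Pool.Agent.Lib_helper97.TRL.K14
import Pool.Agent.Lib_helper97.TRL.K15
import Pool.Agent.Lib_helper97.TRL.K16
import Pool.Agent.Lib_helper97.TRL.K19
import Pool.Agent.Lib_helper97.TRL.K20
import Pool.Agent.Lib_helper97.TRL.K21
import Pool.Agent.Lib_helper97.TRL.K22
import Pool.Agent.Lib_helper97.TRL.K23
import Pool.Agent.Lib_helper97.TRL.K24
import Pool.Agent.Lib_helper97.TRL.K25
import Pool.Agent.Lib_helper10.T2F.BAS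
import Pool.Agent.Lib_helper97.TRL.D42
import Pool.Agent.Lib_helper97.TRL.D50

set_option autoImplicit false

namespace Pool.Agent.TR

open Pool.Agent.T2 Pool.Agent.TF

lemma k26_rb_mono {R W W' : ℝ} (h : W ≤ W') (b : ℕ) : Rb R W b ⊆ Rb R W' b := by
  intro r hr
  unfold Rb at hr ⊢
  rw [Finset.mem_filter, Finset.mem_Icc] at hr ⊢
  exact ⟨⟨hr.1.1, hr.1.2.trans (Nat.floor_le_floor h)⟩, hr.2⟩

/-- the pointwise comparison -/
lemma k26_point {G J k b n : ℕ} {x ρ θ d : ℝ} {c : ℝ} (hG : 16 ≤ G)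
    (hx : 2 ≤ x) (hbx : (b : ℝ) ≤ x) (hρ : 0 < ρ)
    (hGR : (G : ℝ) ≤ x ^ ρ)
    (hD : (Q0 G J : ℝ) * (x ^ ρ) ^ (2 * k + 2) ≤ x ^ d) (hc0 : 0 ≤ c) (hc1 : c ≤ 1)
    (hn : 1 ≤ n) (hnx : (n : ℝ) ≤ x) :
    |(if Nat.Coprime n b then c * TI (x ^ ρ) (x ^ θ) (x ^ d) (n ^ 2 + b ^ 2) else 0) +
      c * (gb G J b n * (-1) ^ (Sn G (x ^ ρ) b n).card *
        hr (x ^ ρ) (x ^ θ) b (n ^ 2 + b ^ 2))| ≤
      (if (x ^ ρ) ^ (2 * k + 2) < ∏ p ∈ Sn G (x ^ ρ) b n, (p : ℝ) then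
        c * |hr (x ^ ρ) (x ^ θ) b (n ^ 2 + b ^ 2)| else 0) +
      (by classical exact if IsBad G J b n then 2 * (3 : ℝ) ^ (3 / ρ) else 0) := by
  classical
  set R := x ^ ρ with hR
  set W := x ^ θ with hW
  set D := x ^ d with hDdef
  set m := n ^ 2 + b ^ 2 with hm
  have hG2 : 2 ≤ G := by omega
  have hR2 : (2 : ℝ) ≤ R := by
    have : (16 : ℝ) ≤ G := by exact_mod_cast hG
    linarith
  have hm1 : 1 ≤ m := by
    have : 1 ≤ n ^ 2 := Nat.one_le_pow _ _ hn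
    omega
  have hmx : (m : ℝ) ≤ 2 * x ^ 2 := by
    rw [hm]
    push_cast
    have h1 : (n : ℝ) ^ 2 ≤ x ^ 2 := pow_le_pow_left₀ (Nat.cast_nonneg _) hnx 2
    have h2 : (b : ℝ) ^ 2 ≤ x ^ 2 := pow_le_pow_left₀ (Nat.cast_nonneg _) hbx 2
    linarith
  obtain ⟨hhs, hhr⟩ := k_hs_bound hx hρ hm1 hmx W b
  rw [← hR] at hhs hhr
  have hthree : (0 : ℝ) ≤ (3 : ℝ) ^ (3 / ρ) := by positivity
  have habs1 : |((-1 : ℝ)) ^ (Sn G R b n).card| = 1 := by
    rw [abs_pow, abs_neg, abs_one, one_pow]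
  have hgb := gb_abs G J b n
  have hrare : 0 ≤ (if R ^ (2 * k + 2) < ∏ p ∈ Sn G R b n, (p : ℝ) then
        c * |hr R W b m| else 0) := by
    split_ifs
    · positivity
    · exact le_rfl
  by_cases hbad : IsBad G J b n
  · rw [if_pos hbad]
    have h1 : |if Nat.Coprime n b then c * TI R W D m else 0| ≤ (3 : ℝ) ^ (3 / ρ) := by
      split_ifs
      · rw [abs_mul, abs_of_nonneg hc0]
        have hTI : |TI R W D m| ≤ (3 : ℝ) ^ (3 / ρ) := by
          unfold TI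
          split_ifs
          · rw [abs_mul, abs_neg]
            calc |lam (sm R m)| * |hs W (rg R m)| ≤ 1 * (3 : ℝ) ^ (3 / ρ) :=
                  mul_le_mul (lam_abs_pr _) hhs (abs_nonneg _) zero_le_one
              _ = _ := one_mul _
          · rw [abs_zero]; exact hthree
        calc c * |TI R W D m| ≤ 1 * (3 : ℝ) ^ (3 / ρ) :=
              mul_le_mul hc1 hTI (abs_nonneg _) zero_le_one
          _ = _ := one_mul _
      · rw [abs_zero]; exact hthree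
    have h2 : |c * (gb G J b n * (-1) ^ (Sn G R b n).card * hr R W b m)| ≤
        (3 : ℝ) ^ (3 / ρ) := by
      rw [abs_mul, abs_mul, abs_mul, habs1, abs_of_nonneg hc0, mul_one]
      calc c * (|gb G J b n| * |hr R W b m|) ≤ 1 * (1 * (3 : ℝ) ^ (3 / ρ)) := by
            refine mul_le_mul hc1 ?_ (by positivity) zero_le_one
            exact mul_le_mul hgb hhr (abs_nonneg _) zero_le_one
        _ = _ := by ring
    calc _ ≤ |if Nat.Coprime n b then c * TI R W D m else 0| +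
          |c * (gb G J b n * (-1) ^ (Sn G R b n).card * hr R W b m)| := abs_add_le _ _
      _ ≤ (3 : ℝ) ^ (3 / ρ) + (3 : ℝ) ^ (3 / ρ) := add_le_add h1 h2
      _ ≤ _ := by linarith
  · rw [if_neg hbad, add_zero]
    by_cases hcop : Nat.Coprime n b
    · rw [if_pos hcop]
      have hlam := good_lam hG2 hGR hn hcop hbad
      have hhsr := good_hs W hR2 hn hcop
      have hsize := good_size hG2 hGR hn hcop hbad
      rw [← hm] at hlam hhsr hsize
      by_cases hs : (sm R m : ℝ) ≤ D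
      · have hz : c * TI R W D m +
            c * (gb G J b n * (-1) ^ (Sn G R b n).card * hr R W b m) = 0 := by
          unfold TI
          rw [if_pos hs, hlam, hhsr]
          ring
        rw [hz, abs_zero]
        exact hrare
      · have hcond : R ^ (2 * k + 2) < ∏ p ∈ Sn G R b n, (p : ℝ) := by
          have hQ : (0 : ℝ) < Q0 G J := by exact_mod_cast q0_pos G J
          have h1 : (Q0 G J : ℝ) * R ^ (2 * k + 2) < Q0 G J * ∏ p ∈ Sn G R b n, (p : ℝ) :=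
            (hD.trans_lt (not_le.mp hs)).trans_le hsize
          exact lt_of_mul_lt_mul_left h1 hQ.le
        rw [if_pos hcond]
        have hTI : TI R W D m = 0 := by
          unfold TI
          rw [if_neg hs]
        rw [hTI, mul_zero, zero_add, abs_mul, abs_mul, abs_mul, habs1, abs_of_nonneg hc0, mul_one]
        refine mul_le_mul_of_nonneg_left ?_ hc0
        calc |gb G J b n| * |hr R W b m| ≤ 1 * |hr R W b m| :=
              mul_le_mul_of_nonneg_right hgb (abs_nonneg _)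
          _ = _ := one_mul _
    · rw [if_neg hcop, gb_zero hn hcop hbad]
      simpa using hrare

theorem one_b_pr : ∃ C A : ℝ, 1 ≤ C ∧ 1 ≤ A ∧ ∀ (G J k b : ℕ) (x ρ θ d δ Λ : ℝ) (f : ℝ → ℝ),
    16 ≤ G → 1 ≤ J → 1 ≤ b → 2 ≤ x → (b : ℝ) ≤ x → 0 < ρ → ρ ≤ 1 → 0 < θ → θ ≤ 1 → 0 < δ →
    0 ≤ Λ → Cut δ Λ f → (G : ℝ) ≤ x ^ ρ → (Q0 G J : ℝ) * (x ^ ρ) ^ (2 * k + 2) ≤ x ^ d →
    |∑ n ∈ (Finset.Icc 1 ⌊x⌋₊).filter (fun n => Nat.Coprime n b), f ((n : ℝ) / x) *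
        TI (x ^ ρ) (x ^ θ) (x ^ d) (n ^ 2 + b ^ 2)| ≤
      C * ρ ^ (-A) * (x * (Real.exp (-(4 * ∑ p ∈ Pb G (x ^ ρ) b, 1 / (p : ℝ))) +
        3 * (C ^ (k + 1) / k.factorial)) +
        (Q0 G J + 1) * (4 * Λ + 4) * (x ^ ρ) ^ (3 * k + 3) * x ^ θ) +
      2 * (3 : ℝ) ^ (3 / ρ) * nbad G J b ⌊x⌋₊ := by
  classical
  obtain ⟨C1, hC1, hcore⟩ := core_sum
  obtain ⟨C2, hC2, hrare⟩ := core_rare
  obtain ⟨C3, A, hC3, hA, hrb⟩ := rb_sum
  refine ⟨max C1 (max C2 C3), A, le_max_of_le_left hC1, hA, ?_⟩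
  set C := max C1 (max C2 C3) with hC
  have hC1C : C1 ≤ C := le_max_left _ _
  have hC2C : C2 ≤ C := (le_max_left _ _).trans (le_max_right _ _)
  have hC3C : C3 ≤ C := (le_max_right _ _).trans (le_max_right _ _)
  intro G J k b x ρ θ d δ Λ f hG hJ hb hx hbx hρ hρ1 hθ hθ1 hδ hΛ hf hGR hD
  have hx1 : (1 : ℝ) ≤ x := by linarith
  have hx0 : (0 : ℝ) < x := by linarith
  have hwf := wf_cut hδ hΛ hf hx1
  set g : ℕ → ℝ := fun n => f ((n : ℝ) / x) with hg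
  set X := ⌊x⌋₊ with hX
  set H : ℝ := ∑ n ∈ Finset.Icc 1 X, f ((n : ℝ) / x) with hH
  set E : ℝ := 4 * Λ + 4 with hE
  set R := x ^ ρ with hR
  set W := x ^ θ with hW
  have hR0 : 0 < R := Real.rpow_pos_of_pos hx0 _
  have hW0 : 0 ≤ W := (Real.rpow_pos_of_pos hx0 _).le
  have hWx : W ≤ x := by
    calc W = x ^ θ := rfl
      _ ≤ x ^ (1 : ℝ) := Real.rpow_le_rpow_of_exponent_le hx1 hθ1
      _ = x := Real.rpow_one x
  have hXx : (X : ℝ) ≤ x := Nat.floor_le hx0.le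
  have hHx : H ≤ x := hwf.H_le.trans hXx
  have hH0 : 0 ≤ H := hwf.H_nonneg
  -- the sum over `Rb`
  have hAA : ∑ r ∈ Rb R W b, (4 : ℝ) ^ r.primeFactors.card / r ≤ C3 * ρ ^ (-A) := by
    refine (Finset.sum_le_sum_of_subset_of_nonneg (k26_rb_mono hWx b) ?_).trans
      (hrb x ρ hx1 hρ hρ1 b)
    intro r _ _
    positivity
  have hmain := main_b (k := k) hcore hG hJ hb hGR hW0 hwf hC1 hAA
  have hrareb := rare_b (k := k) hrare hG hGR hW0 hwf hC2 hAA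
  -- the pointwise comparison, summed
  set t : ℕ → ℝ := fun n => if Nat.Coprime n b then
    g n * TI R W (x ^ d) (n ^ 2 + b ^ 2) else 0 with ht
  set mm : ℕ → ℝ := fun n => g n * (gb G J b n * (-1) ^ (Sn G R b n).card *
    hr R W b (n ^ 2 + b ^ 2)) with hmm
  have hsumt : ∑ n ∈ (Finset.Icc 1 X).filter (fun n => Nat.Coprime n b),
      f ((n : ℝ) / x) * TI R W (x ^ d) (n ^ 2 + b ^ 2) = ∑ n ∈ Finset.Icc 1 X, t n := by
    rw [Finset.sum_filter]
  have hpt : ∑ n ∈ Finset.Icc 1 X, |t n + mm n| ≤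
      ∑ n ∈ (Finset.Icc 1 X).filter (fun n => R ^ (2 * k + 2) < ∏ p ∈ Sn G R b n, (p : ℝ)),
        g n * |hr R W b (n ^ 2 + b ^ 2)| + 2 * (3 : ℝ) ^ (3 / ρ) * nbad G J b X := by
    have h1 : ∀ n ∈ Finset.Icc 1 X, |t n + mm n| ≤
        (if R ^ (2 * k + 2) < ∏ p ∈ Sn G R b n, (p : ℝ) then
          g n * |hr R W b (n ^ 2 + b ^ 2)| else 0) +
        (if IsBad G J b n then 2 * (3 : ℝ) ^ (3 / ρ) else 0) := by
      intro n hn
      rw [Finset.mem_Icc] at hn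
      have hnx : (n : ℝ) ≤ x := (Nat.cast_le.mpr hn.2).trans hXx
      have h2 := k26_point (k := k) (θ := θ) hG hx hbx hρ hGR hD (hwf.nonneg n) (hwf.le_one n)
        hn.1 hnx
      convert h2 using 2
    refine (Finset.sum_le_sum h1).trans (le_of_eq ?_)
    rw [Finset.sum_add_distrib, ← Finset.sum_filter, ← Finset.sum_filter]
    congr 1
    rw [Finset.sum_const, nsmul_eq_mul, mul_comm]
    congr 1
  have htot : |∑ n ∈ Finset.Icc 1 X, t n| ≤ |∑ n ∈ Finset.Icc 1 X, mm n| +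
      ∑ n ∈ Finset.Icc 1 X, |t n + mm n| := by
    have h1 : ∑ n ∈ Finset.Icc 1 X, t n =
        ∑ n ∈ Finset.Icc 1 X, (t n + mm n) - ∑ n ∈ Finset.Icc 1 X, mm n := by
      rw [Finset.sum_add_distrib]; ring
    rw [h1]
    have h2 := Finset.abs_sum_le_sum_abs (fun n => t n + mm n) (Finset.Icc 1 X)
    have h3 := abs_sub (∑ n ∈ Finset.Icc 1 X, (t n + mm n)) (∑ n ∈ Finset.Icc 1 X, mm n)
    linarith
  rw [hsumt]
  refine htot.trans ?_
  have hfac : (0 : ℝ) < k.factorial := by exact_mod_cast Nat.factorial_pos k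
  have hp1 : C1 ^ (k + 1) / k.factorial ≤ C ^ (k + 1) / k.factorial := by
    have := pow_le_pow_left₀ (zero_le_one.trans hC1) hC1C (k + 1)
    gcongr
  have hp2 : C2 ^ (k + 1) / k.factorial ≤ C ^ (k + 1) / k.factorial := by
    have := pow_le_pow_left₀ (zero_le_one.trans hC2) hC2C (k + 1)
    gcongr
  have hρA : 0 ≤ ρ ^ (-A) := Real.rpow_nonneg hρ.le _
  have hAC : C3 * ρ ^ (-A) ≤ C * ρ ^ (-A) := mul_le_mul_of_nonneg_right hC3C hρA
  have hAC0 : 0 ≤ C3 * ρ ^ (-A) := mul_nonneg (zero_le_one.trans hC3) hρA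
  set e : ℝ := Real.exp (-(4 * ∑ p ∈ Pb G R b, 1 / (p : ℝ))) with he
  have he0 : 0 ≤ e := (Real.exp_pos _).le
  set P : ℝ := C ^ (k + 1) / k.factorial with hP
  have hC0 : 0 ≤ C := zero_le_one.trans (hC1.trans hC1C)
  have hP0 : 0 ≤ P := by positivity
  have hE0 : 0 ≤ E := by rw [hE]; linarith
  set Z : ℝ := E * R ^ (3 * k + 3) * W with hZ
  have hZ0 : 0 ≤ Z := by positivity
  have hQ0 : (0 : ℝ) ≤ Q0 G J := Nat.cast_nonneg _
  have hb1 : |∑ n ∈ Finset.Icc 1 X, mm n| ≤ C3 * ρ ^ (-A) * (x * (e + 2 * P) + Q0 G J * Z) := by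
    refine hmain.trans (mul_le_mul_of_nonneg_left ?_ hAC0)
    have h1 : H * (e + 2 * (C1 ^ (k + 1) / k.factorial)) ≤ x * (e + 2 * P) := by
      refine mul_le_mul hHx (by linarith) ?_ hx0.le
      have : 0 ≤ C1 ^ (k + 1) / k.factorial := by
        have := zero_le_one.trans hC1
        positivity
      linarith
    have h2 : (Q0 G J : ℝ) * E * R ^ (3 * k + 3) * W = Q0 G J * Z := by rw [hZ]; ring
    linarith
  have hb2 : ∑ n ∈ (Finset.Icc 1 X).filter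
      (fun n => R ^ (2 * k + 2) < ∏ p ∈ Sn G R b n, (p : ℝ)),
        g n * |hr R W b (n ^ 2 + b ^ 2)| ≤ C3 * ρ ^ (-A) * (x * P + Z) := by
    refine hrareb.trans (mul_le_mul_of_nonneg_left ?_ hAC0)
    have h1 : H * (C2 ^ (k + 1) / k.factorial) ≤ x * P := by
      refine mul_le_mul hHx hp2 ?_ hx0.le
      have := zero_le_one.trans hC2
      positivity
    linarith
  have hfinal : C3 * ρ ^ (-A) * (x * (e + 2 * P) + Q0 G J * Z) +
      C3 * ρ ^ (-A) * (x * P + Z) ≤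
      C * ρ ^ (-A) * (x * (e + 3 * P) + (Q0 G J + 1) * E * R ^ (3 * k + 3) * W) := by
    have h1 : C3 * ρ ^ (-A) * (x * (e + 2 * P) + Q0 G J * Z) +
        C3 * ρ ^ (-A) * (x * P + Z) =
        C3 * ρ ^ (-A) * (x * (e + 3 * P) + (Q0 G J + 1) * E * R ^ (3 * k + 3) * W) := by
      rw [hZ]; ring
    rw [h1]
    refine mul_le_mul_of_nonneg_right hAC ?_
    positivity
  linarith



end Pool.Agent.TR

namespace Pool.Agent.TR

theorem one_b : type_of% @one_b_pr := @one_b_pr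

end Pool.Agent.TR
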