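import Pool.Agent.Lib_helper97.TRL.K10
import Pool.Agent.Lib_helper97.TRL.K18
import Pool.Agent.Lib_helper97.TRL.K26
import Pool.Agent.Lib_helper97.TRL.K27
import Pool.Agent.Lib_helper97.TRL.K28
import Pool.Agent.Lib_helper10.T2F.BAS
import Pool.Agent.Lib_helper97.TRL.D42
import Pool.Agent.Lib_helper97.TRL.D50

set_option autoImplicit false

namespace Pool.Agent.TR

open Pool.Agent.T2 Pool.Agent.TF

theorem type_one_pr (β θ d ε : ℝ) (hβ : 0 < β) (hβ1 : β < 1) (hθ : 0 < θ) (hd : 0 < d)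
    (hθd : θ + d < 1) (hε : 0 < ε) : ∃ ρ₀ : ℝ, 0 < ρ₀ ∧ ∀ ρ : ℝ, 0 < ρ → ρ ≤ ρ₀ →
    ∀ δ Λ : ℝ, 0 < δ → δ ≤ 1 → 0 ≤ Λ → ∃ x₀ : ℝ, ∀ x : ℝ, x₀ ≤ x → ∀ f : ℝ → ℝ, Cut δ Λ f →
      ∑ b ∈ Finset.Icc 1 ⌊x ^ β⌋₊,
        |∑ n ∈ (Finset.Icc 1 ⌊x⌋₊).filter (fun n => Nat.Coprime n b), f ((n : ℝ) / x) *
          TI (x ^ ρ) (x ^ θ) (x ^ d) (n ^ 2 + b ^ 2)| ≤ ε * x ^ (1 + β) := by
  obtain ⟨C, A, hC, hA, hone⟩ := one_b
  obtain ⟨ρ₀, hρ₀, hρ₀1, hρ₀d, hnum⟩ := fin_num C A 1 d (ε / 12) hC (by linarith) le_rfl hd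
    (by positivity)
  refine ⟨ρ₀, hρ₀, fun ρ hρ hρρ δ Λ hδ hδ1 hΛ => ?_⟩
  have hnum1 := hnum ρ hρ hρρ
  rw [Real.one_rpow, mul_one] at hnum1
  set k := ⌊d / (6 * ρ)⌋₊ with hk
  have h3 : (0 : ℝ) < (3 : ℝ) ^ (3 / ρ) := by positivity
  set T := (3 : ℝ) ^ (3 / ρ) with hT
  have hη : 0 < ε / (8 * T) := by positivity
  obtain ⟨G, J, hG, hJ, x1, hbad⟩ := bad_count β (ε / (8 * T)) hβ hβ1 hη
  have hB0 : 0 < C * ρ ^ (-A) := by positivity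
  set B := C * ρ ^ (-A) with hB
  set M := Real.log (4 * B / ε) / 4 with hM
  have hMexp : B * Real.exp (-(4 * M)) = ε / 4 := by
    have h1 : -(4 * M) = -Real.log (4 * B / ε) := by
      rw [hM]
      ring
    rw [h1, Real.exp_neg, Real.exp_log (by positivity)]
    field_simp
  obtain ⟨x2, hinv⟩ := sum_inv_large ρ M hρ G
  obtain ⟨-, -, q3, q4, q5⟩ := fin_pow hd hρ (hρρ.trans hρ₀d)
  obtain ⟨x3, hx3⟩ := q3 G
  obtain ⟨x4, hx4⟩ := q4 (Q0 G J)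
  obtain ⟨x5, hx5⟩ := q5 (B * ((Q0 G J + 1) * (4 * Λ + 4))) θ (ε / 4) (by positivity)
    (by linarith)
  refine ⟨max (max 2 x1) (max (max x2 x3) (max x4 x5)), fun x hx f hf => ?_⟩
  have g1 : 2 ≤ x := (le_max_left _ _).trans ((le_max_left _ _).trans hx)
  have g2 : x1 ≤ x := (le_max_right _ _).trans ((le_max_left _ _).trans hx)
  have g3 : x2 ≤ x := (le_max_left _ _).trans ((le_max_left _ _).trans
    ((le_max_right _ _).trans hx))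
  have g4 : x3 ≤ x := (le_max_right _ _).trans ((le_max_left _ _).trans
    ((le_max_right _ _).trans hx))
  have g5 : x4 ≤ x := (le_max_left _ _).trans ((le_max_right _ _).trans
    ((le_max_right _ _).trans hx))
  have g6 : x5 ≤ x := (le_max_right _ _).trans ((le_max_right _ _).trans
    ((le_max_right _ _).trans hx))
  have hx0 : 0 < x := by linarith
  have hx1 : 1 ≤ x := by linarith
  have hxβ : x ^ β ≤ x := by
    calc x ^ β ≤ x ^ (1 : ℝ) := Real.rpow_le_rpow_of_exponent_le hx1 hβ1.le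
      _ = x := Real.rpow_one x
  have hxβ0 : 0 < x ^ β := Real.rpow_pos_of_pos hx0 _
  have hX : x ^ (1 + β) = x * x ^ β := by rw [Real.rpow_add hx0, Real.rpow_one]
  have hb : ∀ b ∈ Finset.Icc 1 ⌊x ^ β⌋₊,
      |∑ n ∈ (Finset.Icc 1 ⌊x⌋₊).filter (fun n => Nat.Coprime n b), f ((n : ℝ) / x) *
          TI (x ^ ρ) (x ^ θ) (x ^ d) (n ^ 2 + b ^ 2)| ≤
        3 / 4 * ε * x + 2 * T * nbad G J b ⌊x⌋₊ := by
    intro b hb
    rw [Finset.mem_Icc] at hb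
    have hbx : (b : ℝ) ≤ x := by
      have : (b : ℝ) ≤ x ^ β := (Nat.le_floor_iff' (by omega)).1 hb.2
      linarith
    refine (hone G J k b x ρ θ d δ Λ f hG hJ hb.1 g1 hbx hρ (hρρ.trans hρ₀1) hθ
      (by linarith) hδ hΛ hf (hx3 x g4) (hx4 x g5)).trans ?_
    have e1 : B * Real.exp (-(4 * ∑ p ∈ Pb G (x ^ ρ) b, 1 / (p : ℝ))) ≤ ε / 4 := by
      rw [← hMexp]
      apply mul_le_mul_of_nonneg_left _ hB0.le
      apply Real.exp_le_exp.2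
      have := hinv x g3 b hb.1 hbx
      linarith
    have e2 := hx5 x g6
    have e3 : C * ρ ^ (-A) * (x * (Real.exp (-(4 * ∑ p ∈ Pb G (x ^ ρ) b, 1 / (p : ℝ))) +
        3 * (C ^ (k + 1) / k.factorial)) +
        (Q0 G J + 1) * (4 * Λ + 4) * (x ^ ρ) ^ (3 * k + 3) * x ^ θ) =
        x * (B * Real.exp (-(4 * ∑ p ∈ Pb G (x ^ ρ) b, 1 / (p : ℝ)))) +
        3 * x * (B * (C ^ (k + 1) / k.factorial)) +
        B * ((Q0 G J + 1) * (4 * Λ + 4)) * ((x ^ ρ) ^ (3 * k + 3) * x ^ θ) := by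
      rw [hB]
      ring
    rw [e3]
    have e4 : x * (B * Real.exp (-(4 * ∑ p ∈ Pb G (x ^ ρ) b, 1 / (p : ℝ)))) ≤ x * (ε / 4) :=
      mul_le_mul_of_nonneg_left e1 hx0.le
    have e5 : 3 * x * (B * (C ^ (k + 1) / k.factorial)) ≤ 3 * x * (ε / 12) :=
      mul_le_mul_of_nonneg_left hnum1 (by positivity)
    linarith
  calc ∑ b ∈ Finset.Icc 1 ⌊x ^ β⌋₊,
        |∑ n ∈ (Finset.Icc 1 ⌊x⌋₊).filter (fun n => Nat.Coprime n b), f ((n : ℝ) / x) *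
          TI (x ^ ρ) (x ^ θ) (x ^ d) (n ^ 2 + b ^ 2)|
      ≤ ∑ b ∈ Finset.Icc 1 ⌊x ^ β⌋₊, (3 / 4 * ε * x + 2 * T * nbad G J b ⌊x⌋₊) :=
        Finset.sum_le_sum hb
    _ = (⌊x ^ β⌋₊ : ℝ) * (3 / 4 * ε * x) +
        2 * T * ∑ b ∈ Finset.Icc 1 ⌊x ^ β⌋₊, (nbad G J b ⌊x⌋₊ : ℝ) := by
        rw [Finset.sum_add_distrib, Finset.sum_const, Nat.card_Icc, nsmul_eq_mul,
          Nat.add_sub_cancel, Finset.mul_sum]
    _ ≤ x ^ β * (3 / 4 * ε * x) + 2 * T * (ε / (8 * T) * x ^ (1 + β)) := by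
        have f1 : (⌊x ^ β⌋₊ : ℝ) ≤ x ^ β := Nat.floor_le hxβ0.le
        have f2 := hbad x g2
        gcongr
    _ = ε * x ^ (1 + β) := by
        rw [hX]
        field_simp
        ring



end Pool.Agent.TR

namespace Pool.Agent.TR

theorem type_one : type_of% @type_one_pr := @type_one_pr

end Pool.Agent.TR
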