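import Pool.Agent.Lib_helper97.TRL.A14
import Pool.Agent.Lib_helper97.TRL.A15
import Pool.Agent.Lib_helper97.TRL.A15b
import Pool.Agent.Lib_helper97.TRL.A17
import Pool.Agent.Lib_helper97.TRL.K29
import Pool.Agent.Lib_helper10.T2F.BAS
import Pool.Agent.Lib_helper97.TR.Defs
import Pool.Agent.Lib_helper97.TRL.D42
import Pool.Agent.Lib_helper97.TRL.D42A
import Pool.Agent.Lib_helper97.TRL.M42

/-! TR, block A18 (helper4): coprime pairs with a cutoff, choice of the constants. -/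

set_option autoImplicit false

namespace Pool.Agent.TR

open Pool.Agent.T2 Pool.Agent.TF

/-- the sum over the pairs -/
theorem a18_prs (β x : ℝ) (g : ℕ → ℕ → ℝ) :
    ∑ b ∈ Finset.Icc 1 ⌊x ^ β⌋₊, ∑ n ∈ (Finset.Icc 1 ⌊x⌋₊).filter (fun n => Nat.Coprime n b),
      g n b = ∑ t ∈ Prs β x, g t.1 t.2 := by
  classical
  unfold Prs
  rw [Finset.sum_filter, Finset.sum_product_right]
  refine Finset.sum_congr rfl fun b _ => ?_
  rw [Finset.sum_filter]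

theorem coprime_weighted_pr (β : ℝ) (hβ : 1 / 3 < β) (hβ1 : β < 1) (δ Λ ε : ℝ) (hδ : 0 < δ)
    (hδ1 : δ ≤ 1) (hΛ : 0 ≤ Λ) (hε : 0 < ε) :
    ∃ x₀ : ℝ, ∀ x : ℝ, x₀ ≤ x → ∀ f : ℝ → ℝ, Cut δ Λ f →
      ∑ b ∈ Finset.Icc 1 ⌊x ^ β⌋₊,
        |∑ n ∈ (Finset.Icc 1 ⌊x⌋₊).filter (fun n => Nat.Coprime n b), f ((n : ℝ) / x) *
          lam (n ^ 2 + b ^ 2)| ≤ ε * x ^ (1 + β) := by
  classical
  have hβ0 : 0 < β := by linarith
  obtain ⟨γ, hγ, hγ1, hγ2⟩ : ∃ γ : ℝ, 0 < γ ∧ γ ≤ 3 * β - 1 ∧ γ ≤ β :=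
    ⟨min (3 * β - 1) β, lt_min (by linarith) hβ0, min_le_left _ _, min_le_right _ _⟩
  obtain ⟨d, hd⟩ : ∃ d : ℝ, d = γ / 12 := ⟨_, rfl⟩
  obtain ⟨θ, hθ⟩ : ∃ θ : ℝ, θ = 1 - β + 2 * (γ / 3) := ⟨_, rfl⟩
  obtain ⟨top, htop⟩ : ∃ top : ℝ, top = 1 + β - γ / 3 := ⟨_, rfl⟩
  obtain ⟨tot, htot⟩ : ∃ tot : ℝ, tot = 2 - 3 * d := ⟨_, rfl⟩
  have hd0 : 0 < d := by rw [hd]; linarith
  have hd1 : d < 1 := by rw [hd]; linarith
  have hθ0 : 0 < θ := by rw [hθ]; linarith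
  have hθd : θ + d < 1 := by rw [hθ, hd]; linarith
  have hθ1 : θ < 1 := by linarith
  obtain ⟨ρ₁, hρ₁, h1⟩ := type_one β θ d (ε / 4) hβ0 hβ1 hθ0 hd0 hθd (by linarith)
  obtain ⟨ρ₂, hρ₂, h2⟩ := rare_count β d θ (ε / 100) hβ0 hβ1 hd0 hd1 hθ0 hθ1 (by linarith)
  obtain ⟨ρ, hρ, hρa, hρb, hρc, hρd⟩ : ∃ ρ : ℝ, 0 < ρ ∧ ρ ≤ ρ₁ ∧ ρ ≤ ρ₂ ∧ ρ < 1 / 2 ∧ ρ < θ := by
    refine ⟨min (min ρ₁ ρ₂) (min (1 / 4) (θ / 2)), ?_, ?_, ?_, ?_, ?_⟩
    · exact lt_min (lt_min hρ₁ hρ₂) (lt_min (by norm_num) (by linarith))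
    · exact (min_le_left _ _).trans (min_le_left _ _)
    · exact (min_le_left _ _).trans (min_le_right _ _)
    · exact ((min_le_right _ _).trans (min_le_left _ _)).trans_lt (by norm_num)
    · exact ((min_le_right _ _).trans (min_le_right _ _)).trans_lt (by linarith)
  obtain ⟨κ, x₂, hκ, h2'⟩ := h2 ρ hρ hρb
  obtain ⟨x₁, h1'⟩ := h1 ρ hρ hρa δ Λ hδ hδ1 hΛ
  have hq : 0 < 2 / ρ + 1 := by positivity
  obtain ⟨η₀, hη, hηd, hηκ⟩ : ∃ η₀ : ℝ, 0 < η₀ ∧ η₀ * (2 / ρ + 1) ≤ d ∧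
      η₀ * (2 / ρ + 1) ≤ κ := by
    refine ⟨min d κ / (2 / ρ + 1), div_pos (lt_min hd0 hκ) hq, ?_, ?_⟩
    · rw [div_mul_cancel₀ _ hq.ne']; exact min_le_left _ _
    · rw [div_mul_cancel₀ _ hq.ne']; exact min_le_right _ _
  obtain ⟨x₃, h3⟩ := err_formula (ρ := ρ) (d := d) (θ := θ) (κ := κ) (η₀ := η₀) (top := top)
    (tot := tot) (δ := δ) hρ hρd hd0 (by rw [hθ, htop]; linarith) (by rw [hθ, htop]; linarith)
    hη hηd hηκ (by rw [htot]; linarith) hδ hδ1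
  obtain ⟨x₄, h4⟩ := err_bound (ρ := ρ) (d := d) (θ := θ) (η₀ := η₀) (top := top)
    (tot := tot) hρ hη
  obtain ⟨x₅, h5⟩ := eh_bound (β := β) (τ₁ := d) (ρ := ρ) (η₀ := η₀) (θ := θ) (top := top)
    (tot := tot) (δ := δ) (Λ := Λ) (ε := ε / 4) hβ0 hβ1 hd0 hρ hρc hη
    (by rw [htop, htot, hd]; linarith) (by rw [htot, hd]; linarith) hδ hδ1 hΛ (by linarith)
  refine ⟨max 1 (max (max x₁ x₂) (max x₃ (max x₄ x₅))), fun x hx f hf => ?_⟩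
  have hx1 : 1 ≤ x := (le_max_left _ _).trans hx
  have hxa : max (max x₁ x₂) (max x₃ (max x₄ x₅)) ≤ x := (le_max_right _ _).trans hx
  have hxx₁ : x₁ ≤ x := ((le_max_left _ _).trans (le_max_left _ _)).trans hxa
  have hxx₂ : x₂ ≤ x := ((le_max_right _ _).trans (le_max_left _ _)).trans hxa
  have hxx₃ : x₃ ≤ x := ((le_max_left _ _).trans (le_max_right _ _)).trans hxa
  have hxx₄ : x₄ ≤ x :=
    (((le_max_left _ _).trans (le_max_right _ _)).trans (le_max_right _ _)).trans hxa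
  have hxx₅ : x₅ ≤ x :=
    (((le_max_right _ _).trans (le_max_right _ _)).trans (le_max_right _ _)).trans hxa
  have hx0 : 0 < x := by linarith
  have hP : 0 < x ^ (1 + β) := Real.rpow_pos_of_pos hx0 _
  have hxβ : x ^ β ≤ x := by
    calc x ^ β ≤ x ^ (1 : ℝ) := Real.rpow_le_rpow_of_exponent_le hx1 hβ1.le
      _ = x := Real.rpow_one x
  set R := x ^ ρ with hR
  set h := η₀ * Real.log x with hh
  set E : ℕ → ℝ := fun m => lam m - TI R (x ^ θ) (x ^ d) m - EH R h η₀ θ top tot m with hE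
  have key1 : ∀ b : ℕ, |∑ n ∈ (Finset.Icc 1 ⌊x⌋₊).filter (fun n => Nat.Coprime n b),
      f ((n : ℝ) / x) * lam (n ^ 2 + b ^ 2)| ≤
      |∑ n ∈ (Finset.Icc 1 ⌊x⌋₊).filter (fun n => Nat.Coprime n b),
        f ((n : ℝ) / x) * TI R (x ^ θ) (x ^ d) (n ^ 2 + b ^ 2)| +
      |∑ n ∈ (Finset.Icc 1 ⌊x⌋₊).filter (fun n => Nat.Coprime n b),
        f ((n : ℝ) / x) * EH R h η₀ θ top tot (n ^ 2 + b ^ 2)| +
      ∑ n ∈ (Finset.Icc 1 ⌊x⌋₊).filter (fun n => Nat.Coprime n b),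
        |f ((n : ℝ) / x) * E (n ^ 2 + b ^ 2)| := by
    intro b
    have e : ∑ n ∈ (Finset.Icc 1 ⌊x⌋₊).filter (fun n => Nat.Coprime n b),
        f ((n : ℝ) / x) * lam (n ^ 2 + b ^ 2) =
        ∑ n ∈ (Finset.Icc 1 ⌊x⌋₊).filter (fun n => Nat.Coprime n b),
          f ((n : ℝ) / x) * TI R (x ^ θ) (x ^ d) (n ^ 2 + b ^ 2) +
        ∑ n ∈ (Finset.Icc 1 ⌊x⌋₊).filter (fun n => Nat.Coprime n b),
          f ((n : ℝ) / x) * EH R h η₀ θ top tot (n ^ 2 + b ^ 2) +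
        ∑ n ∈ (Finset.Icc 1 ⌊x⌋₊).filter (fun n => Nat.Coprime n b),
          f ((n : ℝ) / x) * E (n ^ 2 + b ^ 2) := by
      rw [← Finset.sum_add_distrib, ← Finset.sum_add_distrib]
      refine Finset.sum_congr rfl fun n _ => ?_
      simp only [hE]
      ring
    rw [e]
    exact (abs_add_three _ _ _).trans
      (add_le_add le_rfl (Finset.abs_sum_le_sum_abs _ _))
  have key2 : ∑ b ∈ Finset.Icc 1 ⌊x ^ β⌋₊,
      ∑ n ∈ (Finset.Icc 1 ⌊x⌋₊).filter (fun n => Nat.Coprime n b),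
        |f ((n : ℝ) / x) * E (n ^ 2 + b ^ 2)| ≤ 12 * (ε / 100) * x ^ (1 + β) := by
    rw [a18_prs β x (fun n b => |f ((n : ℝ) / x) * E (n ^ 2 + b ^ 2)|)]
    have h6 : ∀ t ∈ Prs β x, |f ((t.1 : ℝ) / x) * E (t.1 ^ 2 + t.2 ^ 2)| ≤
        if RA ρ d θ κ x (t.1 ^ 2 + t.2 ^ 2) then 12 * (9 : ℝ) ^ (1 / ρ) else 0 := by
      intro t ht
      unfold Prs at ht
      rw [Finset.mem_filter, Finset.mem_product, Finset.mem_Icc, Finset.mem_Icc] at ht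
      obtain ⟨⟨⟨hn1, hn2⟩, hb1, hb2⟩, _⟩ := ht
      have hn : (t.1 : ℝ) ≤ x := (Nat.le_floor_iff hx0.le).1 hn2
      have hb : (t.2 : ℝ) ≤ x :=
        ((Nat.le_floor_iff (Real.rpow_nonneg hx0.le β)).1 hb2).trans hxβ
      by_cases hf0 : f ((t.1 : ℝ) / x) = 0
      · rw [hf0, zero_mul, abs_zero]
        split_ifs
        · positivity
        · exact le_rfl
      · have hfs := hf.supp _ hf0
        have hδn : δ * x ≤ (t.1 : ℝ) := by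
          have := hfs.1
          rwa [le_div_iff₀ hx0] at this
        split_ifs with hRA
        · have hm0 : t.1 ^ 2 + t.2 ^ 2 ≠ 0 := by
            have : 0 < t.1 ^ 2 := by positivity
            omega
          have hm : ((t.1 ^ 2 + t.2 ^ 2 : ℕ) : ℝ) ≤ 2 * x ^ 2 := by
            push_cast
            have a1 : (t.1 : ℝ) ^ 2 ≤ x ^ 2 := pow_le_pow_left₀ (Nat.cast_nonneg _) hn 2
            have a2 : (t.2 : ℝ) ^ 2 ≤ x ^ 2 := pow_le_pow_left₀ (Nat.cast_nonneg _) hb 2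
            linarith
          have h7 := h4 x hxx₄ (t.1 ^ 2 + t.2 ^ 2) hm0 hm
          rw [abs_mul]
          have h8 : |f ((t.1 : ℝ) / x)| ≤ 1 := by
            rw [abs_of_nonneg (hf.nonneg _)]
            exact hf.le_one _
          calc |f ((t.1 : ℝ) / x)| * |E (t.1 ^ 2 + t.2 ^ 2)| ≤ 1 * (12 * (9 : ℝ) ^ (1 / ρ)) :=
                mul_le_mul h8 h7 (abs_nonneg _) zero_le_one
            _ = 12 * (9 : ℝ) ^ (1 / ρ) := one_mul _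
        · have h7 := h3 x hxx₃ t.1 t.2 hb1 hb hδn hn hRA
          have h8 : E (t.1 ^ 2 + t.2 ^ 2) = 0 := by
            simp only [hE]
            rw [h7]
            ring
          rw [h8, mul_zero, abs_zero]
    refine (Finset.sum_le_sum h6).trans ?_
    rw [← Finset.sum_filter, Finset.sum_const, nsmul_eq_mul]
    have h9 := h2' x hxx₂
    have h10 : (0 : ℝ) < 9 ^ (1 / ρ) := Real.rpow_pos_of_pos (by norm_num) _
    have h11 : (9 : ℝ) ^ (-(1 / ρ)) * 9 ^ (1 / ρ) = 1 := by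
      rw [← Real.rpow_add (by norm_num : (0 : ℝ) < 9), neg_add_cancel, Real.rpow_zero]
    calc (((Prs β x).filter (fun t : ℕ × ℕ =>
          RA ρ d θ κ x (t.1 ^ 2 + t.2 ^ 2))).card : ℝ) * (12 * (9 : ℝ) ^ (1 / ρ))
        ≤ (ε / 100 * 9 ^ (-(1 / ρ)) * x ^ (1 + β)) * (12 * (9 : ℝ) ^ (1 / ρ)) :=
          mul_le_mul_of_nonneg_right h9 (by positivity)
      _ = 12 * (ε / 100) * x ^ (1 + β) * ((9 : ℝ) ^ (-(1 / ρ)) * 9 ^ (1 / ρ)) := by ring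
      _ = 12 * (ε / 100) * x ^ (1 + β) := by rw [h11, mul_one]
  have h12 := h1' x hxx₁ f hf
  have h13 := h5 x hxx₅ f hf
  calc ∑ b ∈ Finset.Icc 1 ⌊x ^ β⌋₊,
        |∑ n ∈ (Finset.Icc 1 ⌊x⌋₊).filter (fun n => Nat.Coprime n b), f ((n : ℝ) / x) *
          lam (n ^ 2 + b ^ 2)|
      ≤ ∑ b ∈ Finset.Icc 1 ⌊x ^ β⌋₊,
        (|∑ n ∈ (Finset.Icc 1 ⌊x⌋₊).filter (fun n => Nat.Coprime n b),
          f ((n : ℝ) / x) * TI R (x ^ θ) (x ^ d) (n ^ 2 + b ^ 2)| +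
        |∑ n ∈ (Finset.Icc 1 ⌊x⌋₊).filter (fun n => Nat.Coprime n b),
          f ((n : ℝ) / x) * EH R h η₀ θ top tot (n ^ 2 + b ^ 2)| +
        ∑ n ∈ (Finset.Icc 1 ⌊x⌋₊).filter (fun n => Nat.Coprime n b),
          |f ((n : ℝ) / x) * E (n ^ 2 + b ^ 2)|) := Finset.sum_le_sum fun b _ => key1 b
    _ = _ + _ + _ := by rw [Finset.sum_add_distrib, Finset.sum_add_distrib]
    _ ≤ ε / 4 * x ^ (1 + β) + ε / 4 * x ^ (1 + β) + 12 * (ε / 100) * x ^ (1 + β) :=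
        add_le_add (add_le_add h12 h13) key2
    _ ≤ ε * x ^ (1 + β) := by nlinarith



end Pool.Agent.TR

namespace Pool.Agent.TR

theorem coprime_weighted : type_of% @coprime_weighted_pr := @coprime_weighted_pr

end Pool.Agent.TR
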