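import Pool.Agent.Lib_helper97.TRL.A18
import Pool.Agent.Lib_helper10.T2F.BAS
import Pool.Agent.Lib_helper97.TR.Defs
import Pool.Agent.Lib_helper97.TRL.D42
import Pool.Agent.Lib_helper97.TRL.D42A
import Pool.Agent.Lib_helper97.TRL.M42

/-!
# TR (MP_892e4c_nt), block A19: coprime pairs, without the cutoff
-/

set_option autoImplicit false

namespace Pool.Agent.TR

open Pool.Agent.T2 Pool.Agent.TF

theorem a19_lam (n : ℕ) : |lam n| ≤ 1 := by
  unfold lam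
  split_ifs with h
  · simp
  · rw [abs_pow, abs_neg, abs_one, one_pow]

theorem a19_fc_cut {δ : ℝ} (hδ : 0 < δ) (_hδ1 : δ ≤ 1 / 4) :
    Cut δ (1 / δ) (fc δ) ∧ ∀ t, 2 * δ ≤ t → t ≤ 1 - δ → fc δ t = 1 := by
  have hsupp : ∀ t, fc δ t ≠ 0 → δ < t ∧ t < 1 := by
    intro t ht
    constructor
    · by_contra h
      rw [not_lt] at h
      apply ht
      unfold fc
      apply max_eq_left
      refine (min_le_right _ _).trans ((min_le_left _ _).trans ?_)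
      exact div_nonpos_of_nonpos_of_nonneg (by linarith) hδ.le
    · by_contra h
      rw [not_lt] at h
      apply ht
      unfold fc
      apply max_eq_left
      refine (min_le_right _ _).trans ((min_le_right _ _).trans ?_)
      exact div_nonpos_of_nonpos_of_nonneg (by linarith) hδ.le
  refine ⟨⟨fun t => le_max_left _ _, fun t => ?_, fun t ht => ?_, fun s t => ?_⟩,
    fun t h1 h2 => ?_⟩
  · exact max_le zero_le_one (min_le_left _ _)
  · exact ⟨(hsupp t ht).1.le, (hsupp t ht).2.le⟩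
  · unfold fc
    have h1 : |max 0 (min 1 (min ((s - δ) / δ) ((1 - s) / δ))) -
        max 0 (min 1 (min ((t - δ) / δ) ((1 - t) / δ)))| ≤
        |min 1 (min ((s - δ) / δ) ((1 - s) / δ)) - min 1 (min ((t - δ) / δ) ((1 - t) / δ))| := by
      refine (abs_max_sub_max_le_max _ _ _ _).trans ?_
      rw [sub_self, abs_zero]
      exact max_le (abs_nonneg _) le_rfl
    have h2 : |min 1 (min ((s - δ) / δ) ((1 - s) / δ)) - min 1 (min ((t - δ) / δ) ((1 - t) / δ))| ≤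
        |min ((s - δ) / δ) ((1 - s) / δ) - min ((t - δ) / δ) ((1 - t) / δ)| := by
      refine (abs_min_sub_min_le_max _ _ _ _).trans ?_
      rw [sub_self, abs_zero]
      exact max_le (abs_nonneg _) le_rfl
    have h3 : |min ((s - δ) / δ) ((1 - s) / δ) - min ((t - δ) / δ) ((1 - t) / δ)| ≤
        1 / δ * |s - t| := by
      refine (abs_min_sub_min_le_max _ _ _ _).trans ?_
      have e1 : (s - δ) / δ - (t - δ) / δ = 1 / δ * (s - t) := by ring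
      have e2 : (1 - s) / δ - (1 - t) / δ = 1 / δ * (t - s) := by ring
      rw [e1, e2, abs_mul, abs_mul, abs_of_pos (one_div_pos.2 hδ), abs_sub_comm t s, max_self]
    exact h1.trans (h2.trans h3)
  · unfold fc
    have e1 : (1 : ℝ) ≤ (t - δ) / δ := by
      rw [le_div_iff₀ hδ]
      linarith
    have e2 : (1 : ℝ) ≤ (1 - t) / δ := by
      rw [le_div_iff₀ hδ]
      linarith
    rw [min_eq_left (le_min e1 e2), max_eq_right zero_le_one]

open Classical in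
theorem a19_count {x δ : ℝ} (hx : 1 ≤ x) (hδ : 0 < δ) (hδ1 : δ ≤ 1 / 4) :
    (((Finset.Icc 1 ⌊x⌋₊).filter (fun n : ℕ => fc δ ((n : ℝ) / x) ≠ 1)).card : ℝ) ≤
      3 * δ * x + 2 := by
  have hx0 : (0 : ℝ) < x := lt_of_lt_of_le one_pos hx
  have hsub : (Finset.Icc 1 ⌊x⌋₊).filter (fun n : ℕ => fc δ ((n : ℝ) / x) ≠ 1) ⊆
      Finset.Icc 1 ⌊2 * δ * x⌋₊ ∪ Finset.Ioc ⌊(1 - δ) * x⌋₊ ⌊x⌋₊ := by
    intro n hn
    rw [Finset.mem_filter, Finset.mem_Icc] at hn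
    rw [Finset.mem_union, Finset.mem_Icc, Finset.mem_Ioc]
    by_cases h : 2 * δ ≤ (n : ℝ) / x
    · right
      refine ⟨?_, hn.1.2⟩
      by_contra hc
      rw [not_lt] at hc
      apply hn.2
      refine (a19_fc_cut hδ hδ1).2 _ h ?_
      rw [div_le_iff₀ hx0]
      have h1 : (n : ℝ) ≤ (⌊(1 - δ) * x⌋₊ : ℝ) := by exact_mod_cast hc
      exact h1.trans (Nat.floor_le (by nlinarith))
    · left
      refine ⟨hn.1.1, Nat.le_floor ?_⟩
      rw [not_le, div_lt_iff₀ hx0] at h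
      exact h.le
  have hc := Finset.card_le_card hsub
  have hc2 := hc.trans (Finset.card_union_le _ _)
  rw [Nat.card_Icc, Nat.card_Ioc, Nat.add_sub_cancel] at hc2
  have h1 : ((⌊2 * δ * x⌋₊ : ℕ) : ℝ) ≤ 2 * δ * x := Nat.floor_le (by positivity)
  have h2 : ((⌊x⌋₊ - ⌊(1 - δ) * x⌋₊ : ℕ) : ℝ) ≤ δ * x + 1 := by
    have h3 : ⌊(1 - δ) * x⌋₊ ≤ ⌊x⌋₊ := Nat.floor_le_floor (by nlinarith)
    rw [Nat.cast_sub h3]
    have h4 : ((⌊x⌋₊ : ℕ) : ℝ) ≤ x := Nat.floor_le hx0.le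
    have h5 := Nat.lt_floor_add_one ((1 - δ) * x)
    linarith
  have h6 : (((Finset.Icc 1 ⌊x⌋₊).filter (fun n : ℕ => fc δ ((n : ℝ) / x) ≠ 1)).card : ℝ) ≤
      ((⌊2 * δ * x⌋₊ : ℕ) : ℝ) + ((⌊x⌋₊ - ⌊(1 - δ) * x⌋₊ : ℕ) : ℝ) := by exact_mod_cast hc2
  linarith

theorem a19_one {x δ : ℝ} (hx : 1 ≤ x) (hδ : 0 < δ) (hδ1 : δ ≤ 1 / 4) (b : ℕ) :
    |∑ n ∈ (Finset.Icc 1 ⌊x⌋₊).filter (fun n => Nat.Coprime n b), lam (n ^ 2 + b ^ 2)| ≤
      |∑ n ∈ (Finset.Icc 1 ⌊x⌋₊).filter (fun n => Nat.Coprime n b), fc δ ((n : ℝ) / x) *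
          lam (n ^ 2 + b ^ 2)| + (3 * δ * x + 2) := by
  classical
  have h1 : ∑ n ∈ (Finset.Icc 1 ⌊x⌋₊).filter (fun n => Nat.Coprime n b), lam (n ^ 2 + b ^ 2) =
      ∑ n ∈ (Finset.Icc 1 ⌊x⌋₊).filter (fun n => Nat.Coprime n b), fc δ ((n : ℝ) / x) *
          lam (n ^ 2 + b ^ 2) +
      ∑ n ∈ (Finset.Icc 1 ⌊x⌋₊).filter (fun n => Nat.Coprime n b), (1 - fc δ ((n : ℝ) / x)) *
          lam (n ^ 2 + b ^ 2) := by
    rw [← Finset.sum_add_distrib]
    exact Finset.sum_congr rfl (fun n _ => by ring)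
  rw [h1]
  refine (abs_add_le _ _).trans (add_le_add le_rfl ?_)
  refine (Finset.abs_sum_le_sum_abs _ _).trans ?_
  have h2 : ∑ n ∈ (Finset.Icc 1 ⌊x⌋₊).filter (fun n => Nat.Coprime n b),
      |(1 - fc δ ((n : ℝ) / x)) * lam (n ^ 2 + b ^ 2)| ≤
      ∑ n ∈ Finset.Icc 1 ⌊x⌋₊, (if fc δ ((n : ℝ) / x) ≠ 1 then (1 : ℝ) else 0) := by
    refine (Finset.sum_le_sum (fun n _ => ?_)).trans
      (Finset.sum_le_sum_of_subset_of_nonneg (Finset.filter_subset _ _) (fun n _ _ => ?_))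
    · rw [abs_mul]
      split_ifs with h
      · have h3 : |1 - fc δ ((n : ℝ) / x)| ≤ 1 := by
          have h4 := (a19_fc_cut hδ hδ1).1.1 ((n : ℝ) / x)
          have h5 := (a19_fc_cut hδ hδ1).1.2 ((n : ℝ) / x)
          rw [abs_le]
          constructor <;> linarith
        calc |1 - fc δ ((n : ℝ) / x)| * |lam (n ^ 2 + b ^ 2)| ≤ 1 * 1 :=
              mul_le_mul h3 (a19_lam _) (abs_nonneg _) zero_le_one
          _ = 1 := one_mul 1
      · rw [not_not] at h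
        rw [h, sub_self, abs_zero, zero_mul]
    · split_ifs
      · exact zero_le_one
      · exact le_rfl
  refine h2.trans ?_
  rw [← Finset.sum_filter, Finset.sum_const, nsmul_eq_mul, mul_one]
  exact a19_count hx hδ hδ1

theorem coprime_sharp_pr (β : ℝ) (hβ : 1 / 3 < β) (hβ1 : β < 1) (ε : ℝ) (hε : 0 < ε) :
    ∃ x₀ : ℝ, ∀ x : ℝ, x₀ ≤ x →
      ∑ b ∈ Finset.Icc 1 ⌊x ^ β⌋₊,
        |∑ n ∈ (Finset.Icc 1 ⌊x⌋₊).filter (fun n => Nat.Coprime n b),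
          lam (n ^ 2 + b ^ 2)| ≤ ε * x ^ (1 + β) := by
  have hδ : 0 < min (ε / 20) (1 / 4) := lt_min (by positivity) (by norm_num)
  have hδ1 : min (ε / 20) (1 / 4) ≤ 1 / 4 := min_le_right _ _
  have hδ2 : min (ε / 20) (1 / 4) ≤ ε / 20 := min_le_left _ _
  set δ := min (ε / 20) (1 / 4) with hδdef
  obtain ⟨x₀, hx₀⟩ := coprime_weighted β hβ hβ1 δ (1 / δ) (ε / 2) hδ (by linarith)
    (by positivity) (by positivity)
  refine ⟨max x₀ (max 1 (20 / ε)), fun x hx => ?_⟩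
  have hx1 : x₀ ≤ x := (le_max_left _ _).trans hx
  have hx2 : 1 ≤ x := (le_max_left _ _).trans ((le_max_right _ _).trans hx)
  have hx3 : 20 / ε ≤ x := (le_max_right _ _).trans ((le_max_right _ _).trans hx)
  have hx0 : 0 < x := lt_of_lt_of_le one_pos hx2
  have hw := hx₀ x hx1 (fc δ) (a19_fc_cut hδ hδ1).1
  have hpow : x ^ (1 + β) = x * x ^ β := by
    rw [Real.rpow_add hx0, Real.rpow_one]
  have hxb : 0 ≤ x ^ β := Real.rpow_nonneg hx0.le _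
  have hcard : ((⌊x ^ β⌋₊ : ℕ) : ℝ) ≤ x ^ β := Nat.floor_le hxb
  calc ∑ b ∈ Finset.Icc 1 ⌊x ^ β⌋₊,
        |∑ n ∈ (Finset.Icc 1 ⌊x⌋₊).filter (fun n => Nat.Coprime n b), lam (n ^ 2 + b ^ 2)|
      ≤ ∑ b ∈ Finset.Icc 1 ⌊x ^ β⌋₊,
        (|∑ n ∈ (Finset.Icc 1 ⌊x⌋₊).filter (fun n => Nat.Coprime n b), fc δ ((n : ℝ) / x) *
          lam (n ^ 2 + b ^ 2)| + (3 * δ * x + 2)) :=
        Finset.sum_le_sum (fun b _ => a19_one hx2 hδ hδ1 b)
    _ = ∑ b ∈ Finset.Icc 1 ⌊x ^ β⌋₊,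
        |∑ n ∈ (Finset.Icc 1 ⌊x⌋₊).filter (fun n => Nat.Coprime n b), fc δ ((n : ℝ) / x) *
          lam (n ^ 2 + b ^ 2)| + ((⌊x ^ β⌋₊ : ℕ) : ℝ) * (3 * δ * x + 2) := by
        rw [Finset.sum_add_distrib, Finset.sum_const, Nat.card_Icc, Nat.add_sub_cancel,
          nsmul_eq_mul]
    _ ≤ ε / 2 * x ^ (1 + β) + x ^ β * (3 * δ * x + 2) :=
        add_le_add hw (mul_le_mul_of_nonneg_right hcard (by positivity))
    _ ≤ ε * x ^ (1 + β) := by
        rw [hpow]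
        have h1 : 3 * δ * x + 2 ≤ ε / 2 * x := by
          have h2 : 20 ≤ x * ε := by
            rwa [div_le_iff₀ hε] at hx3
          have h3 : δ * x ≤ ε / 20 * x := mul_le_mul_of_nonneg_right hδ2 hx0.le
          nlinarith
        have h4 : x ^ β * (3 * δ * x + 2) ≤ x ^ β * (ε / 2 * x) :=
          mul_le_mul_of_nonneg_left h1 hxb
        nlinarith



end Pool.Agent.TR

namespace Pool.Agent.TR

theorem coprime_sharp : type_of% @coprime_sharp_pr := @coprime_sharp_pr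

end Pool.Agent.TR
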