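import Pool.Agent.Lib_helper97.TRL.A19
import Pool.Agent.Lib_helper10.T2F.BAS
import Pool.Agent.Lib_helper97.TR.Defs
import Pool.Agent.Lib_helper97.TRL.D42
import Pool.Agent.Lib_helper97.TRL.D42A
import Pool.Agent.Lib_helper97.TRL.M42

/-! TR, block A19b: all pairs -/

set_option autoImplicit false

namespace Pool.Agent.TR

open Pool.Agent.T2 Pool.Agent.TF

open Classical in
/-- the sum over the `n` prime to `b` -/
noncomputable def a19S (y : ℝ) (b : ℕ) : ℝ :=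
  ∑ n ∈ (Finset.Icc 1 ⌊y⌋₊).filter (fun n => Nat.Coprime n b), lam (n ^ 2 + b ^ 2)

theorem a19_abs (y : ℝ) (hy : 0 ≤ y) (b : ℕ) : |a19S y b| ≤ y := by
  classical
  unfold a19S
  refine (Finset.abs_sum_le_sum_abs _ _).trans ?_
  calc ∑ n ∈ (Finset.Icc 1 ⌊y⌋₊).filter (fun n => Nat.Coprime n b), |lam (n ^ 2 + b ^ 2)|
      ≤ ∑ _n ∈ (Finset.Icc 1 ⌊y⌋₊).filter (fun n => Nat.Coprime n b), (1 : ℝ) :=
        Finset.sum_le_sum fun n _ => lam_abs _
    _ = (((Finset.Icc 1 ⌊y⌋₊).filter (fun n => Nat.Coprime n b)).card : ℝ) := by simp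
    _ ≤ ((Finset.Icc 1 ⌊y⌋₊).card : ℝ) := by exact_mod_cast Finset.card_filter_le _ _
    _ = (⌊y⌋₊ : ℝ) := by rw [Nat.card_Icc, Nat.add_sub_cancel]
    _ ≤ y := Nat.floor_le hy

/-- the fibre of the greatest common divisor -/
theorem a19_fibre (x : ℝ) {g b : ℕ} (hg : 1 ≤ g) (hb : 1 ≤ b) :
    ∑ n ∈ (Finset.Icc 1 ⌊x⌋₊).filter (fun n => Nat.gcd n b = g), lam (n ^ 2 + b ^ 2) =
      if g ∣ b then a19S (x / g) (b / g) else 0 := by
  classical
  split_ifs with hgb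
  · unfold a19S
    rw [Nat.floor_div_natCast]
    obtain ⟨c, rfl⟩ := hgb
    have hg0 : 0 < g := hg
    rw [Nat.mul_div_cancel_left c hg0]
    symm
    refine Finset.sum_bij (fun n _ => g * n) ?_ ?_ ?_ ?_
    · intro n hn
      rw [Finset.mem_filter, Finset.mem_Icc] at hn ⊢
      refine ⟨⟨Nat.mul_pos hg0 hn.1.1, ?_⟩, ?_⟩
      · have := Nat.mul_le_mul_left g hn.1.2
        exact this.trans (Nat.mul_div_le _ _)
      · rw [Nat.gcd_mul_left, Nat.Coprime.gcd_eq_one hn.2, mul_one]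
    · intro n _ n' _ h
      exact Nat.eq_of_mul_eq_mul_left hg0 h
    · intro m hm
      rw [Finset.mem_filter, Finset.mem_Icc] at hm
      have h1 : g ∣ m := by
        rw [← hm.2]; exact Nat.gcd_dvd_left _ _
      obtain ⟨n, rfl⟩ := h1
      refine ⟨n, ?_, rfl⟩
      rw [Finset.mem_filter, Finset.mem_Icc]
      refine ⟨⟨?_, ?_⟩, ?_⟩
      · exact Nat.pos_of_mul_pos_left hm.1.1
      · rw [Nat.le_div_iff_mul_le hg0, mul_comm]; exact hm.1.2
      · have h2 := hm.2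
        rw [Nat.gcd_mul_left] at h2
        have h3 : g * Nat.gcd n c = g * 1 := by rw [h2, mul_one]
        exact Nat.eq_of_mul_eq_mul_left hg0 h3
    · intro n _
      have e : (g * n) ^ 2 + (g * c) ^ 2 = g ^ 2 * (n ^ 2 + c ^ 2) := by ring
      rw [e, lam_mul, pow_two g, lam_mul, ← pow_two, lam_sq (by omega), one_mul]
  · apply Finset.sum_eq_zero
    intro n hn
    rw [Finset.mem_filter] at hn
    exfalso
    apply hgb
    rw [← hn.2]
    exact Nat.gcd_dvd_right _ _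

/-- the sum over all `n` -/
theorem a19_all (x : ℝ) {B b : ℕ} (hb : 1 ≤ b) (hbB : b ≤ B) :
    |∑ n ∈ Finset.Icc 1 ⌊x⌋₊, lam (n ^ 2 + b ^ 2)| ≤
      ∑ g ∈ Finset.Icc 1 B, if g ∣ b then |a19S (x / g) (b / g)| else 0 := by
  classical
  rw [← Finset.sum_fiberwise_of_maps_to (s := Finset.Icc 1 ⌊x⌋₊) (t := Finset.Icc 1 B)
    (g := fun n => Nat.gcd n b) (fun n hn => by
      rw [Finset.mem_Icc] at hn ⊢
      exact ⟨Nat.gcd_pos_of_pos_right _ hb, (Nat.gcd_le_right _ hb).trans hbB⟩)]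
  refine (Finset.abs_sum_le_sum_abs _ _).trans (Finset.sum_le_sum fun g hg => ?_)
  rw [Finset.mem_Icc] at hg
  rw [a19_fibre x hg.1 hb]
  split_ifs with h
  · exact le_rfl
  · simp

/-- the sum over the multiples of `g` -/
theorem a19_mult (F : ℕ → ℝ) (hF : ∀ b, 0 ≤ F b) {y : ℝ} {g : ℕ} (hg : 1 ≤ g) :
    ∑ b ∈ Finset.Icc 1 ⌊y⌋₊, (if g ∣ b then F (b / g) else 0) ≤
      ∑ b ∈ Finset.Icc 1 ⌊y / g⌋₊, F b := by
  classical
  rw [← Finset.sum_filter, Nat.floor_div_natCast]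
  have hg0 : 0 < g := hg
  have h1 : ∑ b ∈ (Finset.Icc 1 ⌊y⌋₊).filter (fun b => g ∣ b), F (b / g) =
      ∑ c ∈ ((Finset.Icc 1 ⌊y⌋₊).filter (fun b => g ∣ b)).image (fun b => b / g), F c := by
    rw [Finset.sum_image]
    intro b hb b' hb' h
    have h2 := (Finset.mem_filter.mp (Finset.mem_coe.mp hb)).2
    have h3 := (Finset.mem_filter.mp (Finset.mem_coe.mp hb')).2
    have h4 : b / g = b' / g := h
    rw [← Nat.div_mul_cancel h2, ← Nat.div_mul_cancel h3, h4]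
  rw [h1]
  refine Finset.sum_le_sum_of_subset_of_nonneg ?_ (fun c _ _ => hF c)
  intro c hc
  rw [Finset.mem_image] at hc
  obtain ⟨b, hb, rfl⟩ := hc
  rw [Finset.mem_filter, Finset.mem_Icc] at hb
  rw [Finset.mem_Icc]
  refine ⟨Nat.div_pos (Nat.le_of_dvd (by omega) hb.2) hg0, Nat.div_le_div_right hb.1.2⟩

/-- the sum over all `b` -/
theorem a19_total (x y : ℝ) :
    ∑ b ∈ Finset.Icc 1 ⌊y⌋₊, |∑ n ∈ Finset.Icc 1 ⌊x⌋₊, lam (n ^ 2 + b ^ 2)| ≤
      ∑ g ∈ Finset.Icc 1 ⌊y⌋₊, ∑ b ∈ Finset.Icc 1 ⌊y / g⌋₊, |a19S (x / g) b| := by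
  calc ∑ b ∈ Finset.Icc 1 ⌊y⌋₊, |∑ n ∈ Finset.Icc 1 ⌊x⌋₊, lam (n ^ 2 + b ^ 2)|
      ≤ ∑ b ∈ Finset.Icc 1 ⌊y⌋₊, ∑ g ∈ Finset.Icc 1 ⌊y⌋₊,
          (if g ∣ b then |a19S (x / g) (b / g)| else 0) := by
        refine Finset.sum_le_sum fun b hb => ?_
        rw [Finset.mem_Icc] at hb
        exact a19_all x hb.1 hb.2
    _ = ∑ g ∈ Finset.Icc 1 ⌊y⌋₊, ∑ b ∈ Finset.Icc 1 ⌊y⌋₊,
          (if g ∣ b then |a19S (x / g) (b / g)| else 0) := Finset.sum_comm
    _ ≤ _ := by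
        refine Finset.sum_le_sum fun g hg => ?_
        rw [Finset.mem_Icc] at hg
        exact a19_mult (fun b => |a19S (x / g) b|) (fun _ => abs_nonneg _) hg.1

theorem all_sharp_pr (β : ℝ) (hβ : 1 / 3 < β) (hβ1 : β < 1) (ε : ℝ) (hε : 0 < ε) :
    ∃ x₀ : ℝ, ∀ x : ℝ, x₀ ≤ x →
      ∑ b ∈ Finset.Icc 1 ⌊x ^ β⌋₊,
        |∑ n ∈ Finset.Icc 1 ⌊x⌋₊, lam (n ^ 2 + b ^ 2)| ≤ ε * x ^ (1 + β) := by
  set K : ℕ := ⌈2 / ε⌉₊ with hK
  have hKε : 2 / ε ≤ K := Nat.le_ceil _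
  have hK0 : (0 : ℝ) < K := lt_of_lt_of_le (by positivity) hKε
  have hKne : K ≠ 0 := by
    rintro h
    rw [h] at hK0
    simp at hK0
  obtain ⟨x₁, hx₁⟩ := coprime_sharp β hβ hβ1 (ε / (2 * K)) (by positivity)
  refine ⟨max 1 (K * max 1 x₁), ?_⟩
  intro x hx
  have hx1 : 1 ≤ x := (le_max_left _ _).trans hx
  have hx0 : 0 < x := by linarith
  have hxK : K * max 1 x₁ ≤ x := (le_max_right _ _).trans hx
  refine (a19_total x (x ^ β)).trans ?_
  set B := ⌊x ^ β⌋₊ with hB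
  have hxb0 : 0 < x ^ β := Real.rpow_pos_of_pos hx0 _
  have hpow : x * x ^ β = x ^ (1 + β) := by
    rw [Real.rpow_add hx0, Real.rpow_one]
  -- a bound for small `g`
  have hsmall : ∀ g ∈ Finset.Icc 1 K, ∑ b ∈ Finset.Icc 1 ⌊x ^ β / g⌋₊, |a19S (x / g) b| ≤
      ε / (2 * K) * x ^ (1 + β) := by
    intro g hg
    rw [Finset.mem_Icc] at hg
    have hg1 : (1 : ℝ) ≤ g := by exact_mod_cast hg.1
    have hgK : (g : ℝ) ≤ K := by exact_mod_cast hg.2
    have hg0 : (0 : ℝ) < g := by linarith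
    have h1 : x₁ ≤ x / g := by
      rw [le_div_iff₀ hg0]
      calc x₁ * g ≤ max 1 x₁ * g := by
            exact mul_le_mul_of_nonneg_right (le_max_right _ _) hg0.le
        _ ≤ max 1 x₁ * K := mul_le_mul_of_nonneg_left hgK (by positivity)
        _ ≤ x := by rw [mul_comm]; exact hxK
    have h2 := hx₁ (x / g) h1
    have h3 : x ^ β / g ≤ (x / g) ^ β := by
      rw [Real.div_rpow hx0.le hg0.le]
      have h4 : (g : ℝ) ^ β ≤ g := by
        calc (g : ℝ) ^ β ≤ (g : ℝ) ^ (1 : ℝ) := Real.rpow_le_rpow_of_exponent_le hg1 hβ1.le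
          _ = g := Real.rpow_one _
      have h5 : 0 < (g : ℝ) ^ β := Real.rpow_pos_of_pos hg0 _
      gcongr
    have h6 : (x / g) ^ (1 + β) ≤ x ^ (1 + β) := by
      apply Real.rpow_le_rpow (by positivity) _ (by linarith)
      exact div_le_self hx0.le hg1
    calc ∑ b ∈ Finset.Icc 1 ⌊x ^ β / g⌋₊, |a19S (x / g) b|
        ≤ ∑ b ∈ Finset.Icc 1 ⌊(x / g) ^ β⌋₊, |a19S (x / g) b| := by
          apply Finset.sum_le_sum_of_subset_of_nonneg
          · exact Finset.Icc_subset_Icc_right (Nat.floor_le_floor h3)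
          · intro b _ _
            exact abs_nonneg _
      _ ≤ ε / (2 * K) * (x / g) ^ (1 + β) := h2
      _ ≤ ε / (2 * K) * x ^ (1 + β) := by gcongr
  -- a bound for large `g`
  have hlarge : ∀ g ∈ Finset.Icc 1 B, ∑ b ∈ Finset.Icc 1 ⌊x ^ β / g⌋₊, |a19S (x / g) b| ≤
      x ^ (1 + β) * ((g : ℝ) ^ 2)⁻¹ := by
    intro g hg
    rw [Finset.mem_Icc] at hg
    have hg1 : (1 : ℝ) ≤ g := by exact_mod_cast hg.1
    have hg0 : (0 : ℝ) < g := by linarith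
    calc ∑ b ∈ Finset.Icc 1 ⌊x ^ β / g⌋₊, |a19S (x / g) b|
        ≤ ∑ _b ∈ Finset.Icc 1 ⌊x ^ β / g⌋₊, x / g :=
          Finset.sum_le_sum fun b _ => a19_abs _ (by positivity) _
      _ = (⌊x ^ β / g⌋₊ : ℝ) * (x / g) := by
          rw [Finset.sum_const, Nat.card_Icc, Nat.add_sub_cancel, nsmul_eq_mul]
      _ ≤ (x ^ β / g) * (x / g) := by
          have := Nat.floor_le (show 0 ≤ x ^ β / g by positivity)
          gcongr
      _ = x ^ (1 + β) * ((g : ℝ) ^ 2)⁻¹ := by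
          rw [← hpow]
          field_simp
  have hsplit : ∑ g ∈ Finset.Icc 1 B, ∑ b ∈ Finset.Icc 1 ⌊x ^ β / g⌋₊, |a19S (x / g) b| ≤
      ∑ g ∈ Finset.Icc 1 K, ε / (2 * K) * x ^ (1 + β) +
        ∑ g ∈ Finset.Ioc K (max K B), x ^ (1 + β) * ((g : ℝ) ^ 2)⁻¹ := by
    classical
    have hterm : ∀ g ∈ Finset.Icc 1 B, ∑ b ∈ Finset.Icc 1 ⌊x ^ β / g⌋₊, |a19S (x / g) b| ≤
        (if g ≤ K then ε / (2 * K) * x ^ (1 + β) else 0) +
          (if K < g then x ^ (1 + β) * ((g : ℝ) ^ 2)⁻¹ else 0) := by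
      intro g hg
      have hg' := Finset.mem_Icc.mp hg
      by_cases h : g ≤ K
      · rw [if_pos h, if_neg (by omega), add_zero]
        exact hsmall g (Finset.mem_Icc.mpr ⟨hg'.1, h⟩)
      · rw [if_neg h, if_pos (by omega), zero_add]
        exact hlarge g hg
    refine (Finset.sum_le_sum hterm).trans ?_
    rw [Finset.sum_add_distrib, ← Finset.sum_filter, ← Finset.sum_filter]
    have hx1b : 0 ≤ x ^ (1 + β) := Real.rpow_nonneg hx0.le _
    refine add_le_add ?_ ?_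
    · apply Finset.sum_le_sum_of_subset_of_nonneg
      · intro g hg
        rw [Finset.mem_filter, Finset.mem_Icc] at hg
        exact Finset.mem_Icc.mpr ⟨hg.1.1, hg.2⟩
      · intro g _ _
        positivity
    · apply Finset.sum_le_sum_of_subset_of_nonneg
      · intro g hg
        rw [Finset.mem_filter, Finset.mem_Icc] at hg
        exact Finset.mem_Ioc.mpr ⟨hg.2, hg.1.2.trans (le_max_right _ _)⟩
      · intro g _ _
        positivity
  refine hsplit.trans ?_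
  rw [Finset.sum_const, Nat.card_Icc, Nat.add_sub_cancel, nsmul_eq_mul, ← Finset.mul_sum]
  have hx1b : 0 ≤ x ^ (1 + β) := Real.rpow_nonneg hx0.le _
  have h1 : (K : ℝ) * (ε / (2 * K) * x ^ (1 + β)) = ε / 2 * x ^ (1 + β) := by
    field_simp
  have h2 : ∑ g ∈ Finset.Ioc K (max K B), ((g : ℝ) ^ 2)⁻¹ ≤ ε / 2 := by
    have h3 := sum_Ioc_inv_sq_le_sub (α := ℝ) hKne (le_max_left K B)
    have h4 : (0 : ℝ) ≤ ((max K B : ℕ) : ℝ)⁻¹ := by positivity
    have h5 : (K : ℝ)⁻¹ ≤ ε / 2 := by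
      rw [inv_le_comm₀ hK0 (by positivity)]
      calc (ε / 2)⁻¹ = 2 / ε := by rw [inv_div]
        _ ≤ K := hKε
    linarith
  rw [h1]
  nlinarith



end Pool.Agent.TR

namespace Pool.Agent.TR

theorem all_sharp : type_of% @all_sharp_pr := @all_sharp_pr

end Pool.Agent.TR
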