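import Pool.Agent.Lib_helper97.TRL.A19b
import Pool.Agent.Lib_helper10.T2F.BAS
import Pool.Agent.Lib_helper97.TR.Defs
import Pool.Agent.Lib_helper97.TRL.D42
import Pool.Agent.Lib_helper97.TRL.D42A
import Pool.Agent.Lib_helper97.TRL.M42

/-!
# TR, block A20: Markov's inequality
-/

set_option autoImplicit false

namespace Pool.Agent.TR

open Pool.Agent.T2 Pool.Agent.TF

open Classical in
theorem full_cancel_pr (β : ℝ) (hβ : 1 / 3 < β) (hβ1 : β < 1) (ε : ℝ) (hε : 0 < ε) :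
    ∃ x₀ : ℝ, ∀ x : ℝ, x₀ ≤ x →
      (((Finset.Icc 1 ⌊x ^ β⌋₊).filter (fun b : ℕ =>
        ε * x < |∑ n ∈ Finset.Icc 1 ⌊x⌋₊, lam (n ^ 2 + b ^ 2)|)).card : ℝ) ≤
        ε * x ^ β := by
  obtain ⟨x₁, h1⟩ := all_sharp β hβ hβ1 (ε ^ 2) (by positivity)
  refine ⟨max x₁ 1, fun x hx => ?_⟩
  have hx1 : 1 ≤ x := (le_max_right _ _).trans hx
  have hx0 : 0 < x := by linarith
  have h2 := h1 x ((le_max_left _ _).trans hx)
  set S : ℕ → ℝ := fun b => |∑ n ∈ Finset.Icc 1 ⌊x⌋₊, lam (n ^ 2 + b ^ 2)| with hS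
  set A : Finset ℕ := (Finset.Icc 1 ⌊x ^ β⌋₊).filter (fun b : ℕ => ε * x < S b) with hA
  have h3 : (A.card : ℝ) * (ε * x) ≤ ∑ b ∈ A, S b := by
    rw [← nsmul_eq_mul]
    exact Finset.card_nsmul_le_sum _ _ _ fun b hb => (Finset.mem_filter.1 hb).2.le
  have h4 : ∑ b ∈ A, S b ≤ ∑ b ∈ Finset.Icc 1 ⌊x ^ β⌋₊, S b :=
    Finset.sum_le_sum_of_subset_of_nonneg (Finset.filter_subset _ _)
      fun b _ _ => abs_nonneg _
  have h5 : (A.card : ℝ) * (ε * x) ≤ ε * x ^ β * (ε * x) := by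
    refine (h3.trans (h4.trans h2)).trans (le_of_eq ?_)
    rw [Real.rpow_add hx0, Real.rpow_one]
    ring
  exact le_of_mul_le_mul_right h5 (by positivity)



end Pool.Agent.TR

namespace Pool.Agent.TR

theorem full_cancel : type_of% @full_cancel_pr := @full_cancel_pr

end Pool.Agent.TR
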