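import Pool.Agent.Lib_helper97.TR.Defs
import Pool.Agent.Lib_helper10.T2F.BAS
import Pool.Agent.Lib_helper10.T2F.CLS

/-!
# MRF (part MRE of the project TR): elementary facts
-/

set_option autoImplicit false

namespace Pool.Agent.TR

open Pool.Agent.T2 Pool.Agent.TF Filter Topology

theorem flip_mono {R R' : ℝ} {F : ℕ → ℝ} (h : R' ≤ R) (hF : Flip R F) : Flip R' F :=
  ⟨hF.bd, fun p n hp hpR hn => hF.flip p n hp (hpR.trans h) hn⟩

theorem rough_mono {R R' : ℝ} {n : ℕ} (h : R' ≤ R) (hn : Rough R n) : Rough R' n :=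
  ⟨hn.1, fun p hp hpn => lt_of_le_of_lt h (hn.2 p hp hpn)⟩

/-- multiplication by a smooth number -/
theorem flip_smooth {R : ℝ} {F : ℕ → ℝ} (hF : Flip R F) (s n : ℕ) (hs : s ≠ 0)
    (hs' : ∀ p : ℕ, p.Prime → p ∣ s → (p : ℝ) ≤ R) (hn : n ≠ 0) : F (s * n) = lam s * F n := by
  induction s using induction_on_primes with
  | zero => exact absurd rfl hs
  | one =>
    have h1 : lam 1 = 1 := by simp [lam]
    rw [one_mul, h1, one_mul]
  | prime_mul p a hp ih =>
    have ha : a ≠ 0 := by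
      rintro rfl
      exact hs (mul_zero _)
    have h1 := ih ha (fun q hq hqa => hs' q hq (hqa.mul_left p))
    rw [mul_assoc, hF.flip p (a * n) hp (hs' p hp (dvd_mul_right p a)) (mul_ne_zero ha hn), h1,
      lam_mul, lam_prime hp]
    ring

/-- a rough number has few prime factors -/
theorem rough_omega {ρ X : ℝ} (hρ : 0 < ρ) (hX : 1 < X) {d : ℕ} (hd : Rough (X ^ ρ) d)
    (hdX : (d : ℝ) ≤ X) : (ArithmeticFunction.cardFactors d : ℝ) ≤ 1 / ρ := by
  have hX0 : 0 < X := by linarith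
  have key : ∀ d : ℕ, Rough (X ^ ρ) d → (X ^ ρ) ^ (ArithmeticFunction.cardFactors d) ≤ (d : ℝ) := by
    intro d
    induction d using induction_on_primes with
    | zero => intro h; exact absurd rfl h.1
    | one => intro _; simp
    | prime_mul p a hp ih =>
      intro h
      have ha : a ≠ 0 := by
        rintro rfl
        exact h.1 (mul_zero _)
      have h1 := ih ⟨ha, fun q hq hqa => h.2 q hq (hqa.mul_left p)⟩
      have h2 := h.2 p hp (dvd_mul_right p a)
      rw [ArithmeticFunction.cardFactors_mul hp.ne_zero ha,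
        ArithmeticFunction.cardFactors_apply_prime hp, pow_add, pow_one]
      push_cast
      exact mul_le_mul h2.le h1 (by positivity) (by positivity)
  have h1 := (key d hd).trans hdX
  have hlX : 0 < Real.log X := Real.log_pos hX
  have h2 := Real.log_le_log (by positivity) h1
  rw [Real.log_pow, Real.log_rpow hX0] at h2
  rw [le_div_iff₀ hρ]
  have h3 : ((ArithmeticFunction.cardFactors d : ℝ) * ρ) * Real.log X ≤ 1 * Real.log X := by
    rw [one_mul, mul_assoc]; exact h2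
  exact le_of_mul_le_mul_right h3 hlX

theorem Sm_eq_SmF {m : G} (χ : MChar m) (k : ℤ) (x : ℝ) : Sm χ k x = SmF lam χ k x := rfl

theorem PB_empty {x : ℝ} (hx : x < 1) : PB x = ∅ := by
  ext z
  simp only [mem_PB, Finset.notMem_empty, iff_false, not_and, not_le]
  intro hz
  have h1 : 1 ≤ nn z := nn_pos.2 (prm_ne hz)
  have h2 : (1 : ℝ) ≤ nn z := by exact_mod_cast h1
  linarith

theorem SmF_zero (F : ℕ → ℝ) {m : G} (χ : MChar m) (k : ℤ) {x : ℝ} (hx : x < 1) :
    SmF F χ k x = 0 := by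
  rw [SmF, PB_empty hx, Finset.sum_empty]

theorem SmF_floor (F : ℕ → ℝ) {m : G} (χ : MChar m) (k : ℤ) (x : ℝ) :
    SmF F χ k x = SmF F χ k (⌊x⌋₊ : ℝ) := by
  rw [SmF, cls_PB_floor, SmF]

theorem chi_norm_le {m : G} (χ : MChar m) (z : G) : ‖χ.f z‖ ≤ 1 := by
  by_cases h : IsCoprime z m
  · exact (χ.nrm z h).le
  · rw [χ.zero z h, norm_zero]
    exact zero_le_one

theorem SmF_eq (F : ℕ → ℝ) {m : G} (χ : MChar m) (k : ℤ) (x : ℝ) :
    SmF F χ k x = ∑ z ∈ PB x, ((F (nn z) : ℂ) * χ.f z) * ang k z := by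
  unfold SmF xi
  apply Finset.sum_congr rfl
  intro z _
  ring

theorem SmF_coef {F : ℕ → ℝ} (hF : ∀ n, |F n| ≤ 1) {m : G} (χ : MChar m) (z : G) :
    ‖(F (nn z) : ℂ) * χ.f z‖ ≤ 1 := by
  rw [norm_mul, Complex.norm_real, Real.norm_eq_abs]
  exact mul_le_one₀ (hF _) (norm_nonneg _) (chi_norm_le χ z)

/-- a function and its restriction to the nonzero numbers -/
theorem SmF_congr {F F' : ℕ → ℝ} (h : ∀ n, n ≠ 0 → F n = F' n) {m : G} (χ : MChar m) (k : ℤ)
    (x : ℝ) : SmF F χ k x = SmF F' χ k x := by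
  unfold SmF
  apply Finset.sum_congr rfl
  intro z hz
  rw [mem_PB] at hz
  rw [h (nn z) (nn_pos.2 (prm_ne hz.1)).ne']

end Pool.Agent.TR
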