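import Pool.Agent.Lib_helper10.T2F.BAS
import Pool.Agent.Lib_helper10.T2F.BHS
import Pool.Agent.Lib_helper10.T2F.CLS
import Pool.Agent.Lib_helper18.TFF.C1
import Pool.Agent.Lib_helper18.TFF.C2
import Pool.Agent.Lib_helper18.TFF.C5
import Pool.Agent.Lib_helper18.TFF.C7
import Pool.Agent.Lib_helper97.TR.Defs

/-! TR block CR1: the number of the rough divisors in the octant -/

set_option autoImplicit false

namespace Pool.Agent.TR

open Pool.Agent.T2 Pool.Agent.TF

/-- non-associated rough divisors -/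
theorem cr1_core (R : ℝ) (hR : 1 ≤ R) (ζ : G) : ζ ≠ 0 → ∃ m : ℕ, R ^ m ≤ (nn ζ : ℝ) ∧
    ∀ S : Finset G, (∀ u ∈ S, ∀ v ∈ S, Associated u v → u = v) →
      (∀ u ∈ S, u ∣ ζ ∧ ∀ q : G, Prime q → q ∣ u → R < (nn q : ℝ)) → S.card ≤ 2 ^ m := by
  classical
  induction ζ using UniqueFactorizationMonoid.induction_on_prime with
  | h₁ => exact fun h => absurd rfl h
  | h₂ z hz =>
    intro hne
    refine ⟨0, ?_, ?_⟩
    · rw [pow_zero]
      exact_mod_cast nn_pos.2 hne
    · intro S hS1 hS2
      rw [pow_zero]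
      apply Finset.card_le_one.2
      intro a ha b hb
      have h1 : IsUnit a := isUnit_of_dvd_unit (hS2 a ha).1 hz
      have h2 : IsUnit b := isUnit_of_dvd_unit (hS2 b hb).1 hz
      exact hS1 a ha b hb ((associated_one_iff_isUnit.2 h1).trans (associated_one_iff_isUnit.2 h2).symm)
  | h₃ a q ha hq ih =>
    intro _
    obtain ⟨m, hm1, hm2⟩ := ih ha
    have hcop : ∀ u : G, u ∣ q * a → ¬ q ∣ u → u ∣ a := by
      intro u hu hqu
      have h1 : IsCoprime q u := (hq.irreducible.coprime_iff_not_dvd).2 hqu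
      exact h1.symm.dvd_of_dvd_mul_left hu
    have hq1 : (1 : ℝ) ≤ (nn q : ℝ) := by exact_mod_cast nn_pos.2 hq.ne_zero
    have ha1 : (0 : ℝ) ≤ (nn a : ℝ) := Nat.cast_nonneg _
    rcases le_or_gt (nn q : ℝ) R with hqR | hqR
    · refine ⟨m, ?_, ?_⟩
      · rw [nn_mul]
        push_cast
        exact hm1.trans (le_mul_of_one_le_left ha1 hq1)
      · intro S hS1 hS2
        apply hm2 S hS1
        intro u hu
        refine ⟨hcop u (hS2 u hu).1 fun hqu => ?_, (hS2 u hu).2⟩
        exact absurd ((hS2 u hu).2 q hq hqu) (not_lt.2 hqR)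
    · refine ⟨m + 1, ?_, ?_⟩
      · rw [nn_mul, pow_succ]
        push_cast
        rw [mul_comm]
        exact mul_le_mul hqR.le hm1 (by positivity) (by positivity)
      · intro S hS1 hS2
        have hsplit : S.card = (S.filter (fun u => u ∣ a)).card +
            (S.filter (fun u => ¬ u ∣ a)).card :=
          (Finset.card_filter_add_card_filter_not _).symm
        have c1 : (S.filter (fun u => u ∣ a)).card ≤ 2 ^ m := by
          apply hm2
          · intro u hu v hv
            exact hS1 u (Finset.mem_filter.1 hu).1 v (Finset.mem_filter.1 hv).1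
          · intro u hu
            rw [Finset.mem_filter] at hu
            exact ⟨hu.2, (hS2 u hu.1).2⟩
        have hdiv : ∀ u ∈ S.filter (fun u => ¬ u ∣ a), ∃ v, u = q * v := by
          intro u hu
          rw [Finset.mem_filter] at hu
          by_contra hc
          exact hu.2 (hcop u (hS2 u hu.1).1 (fun h => hc h))
        choose! g hg using hdiv
        have c2 : (S.filter (fun u => ¬ u ∣ a)).card ≤ 2 ^ m := by
          have hinj : Set.InjOn g (S.filter (fun u => ¬ u ∣ a) : Set G) := by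
            intro u hu v hv huv
            rw [hg u hu, hg v hv, huv]
          rw [← Finset.card_image_of_injOn hinj]
          apply hm2
          · intro u' hu' v' hv' hass
            obtain ⟨u, hu, rfl⟩ := Finset.mem_image.1 hu'
            obtain ⟨v, hv, rfl⟩ := Finset.mem_image.1 hv'
            have h1 : u = v := by
              apply hS1 u (Finset.mem_filter.1 hu).1 v (Finset.mem_filter.1 hv).1
              rw [hg u hu, hg v hv]
              exact hass.mul_left q
            rw [h1]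
          · intro u' hu'
            obtain ⟨u, hu, rfl⟩ := Finset.mem_image.1 hu'
            have hu1 := (Finset.mem_filter.1 hu).1
            have h1 := (hS2 u hu1).1
            constructor
            · rw [hg u hu] at h1
              exact (mul_dvd_mul_iff_left hq.ne_zero).1 h1
            · intro q' hq' hq'u
              apply (hS2 u hu1).2 q' hq'
              rw [hg u hu]
              exact dvd_mul_of_dvd_right hq'u q
        rw [hsplit, pow_succ]
        omega

/-- associated elements of the octant are equal -/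
theorem cr1_assoc {u v : G} (hu : 0 < u.im ∧ u.im < u.re) (hv : 0 < v.im ∧ v.im < v.re)
    (h : Associated u v) : u = v := by
  obtain ⟨w, hw⟩ := h
  have hnn : nn (w : G) = 1 := by
    have h1 : nn (w : G) * nn ((w⁻¹ : Gˣ) : G) = 1 := by
      rw [← nn_mul, Units.mul_inv]
      rfl
    exact Nat.eq_one_of_mul_eq_one_right h1
  have h2 := nn_cast (w : G)
  rw [hnn] at h2
  set a := (w : G).re with ha
  set b := (w : G).im with hb
  have hre : v.re = u.re * a - u.im * b := by
    rw [← hw, Zsqrtd.re_mul]; ring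
  have him : v.im = u.re * b + u.im * a := by
    rw [← hw, Zsqrtd.im_mul]
  have hab : a ^ 2 + b ^ 2 = 1 := by
    rw [← h2]; norm_num
  have ha2 : a ^ 2 ≤ 1 := by nlinarith [sq_nonneg b]
  have hb2 : b ^ 2 ≤ 1 := by nlinarith [sq_nonneg a]
  have ha3 : -1 ≤ a ∧ a ≤ 1 := abs_le.1 (by
    have := sq_le_one_iff_abs_le_one a |>.1 ha2
    exact this)
  have hb3 : -1 ≤ b ∧ b ≤ 1 := abs_le.1 (by
    have := sq_le_one_iff_abs_le_one b |>.1 hb2
    exact this)
  obtain ⟨hu1, hu2⟩ := hu
  obtain ⟨hv1, hv2⟩ := hv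
  have ha4 : a = -1 ∨ a = 0 ∨ a = 1 := by omega
  have hb4 : b = -1 ∨ b = 0 ∨ b = 1 := by omega
  rcases ha4 with h | h | h <;> rcases hb4 with h' | h' | h' <;>
    rw [h, h'] at hre him hab <;> norm_num at hab <;>
    first
    | (exfalso; linarith)
    | (apply Zsqrtd.ext <;> linarith)

open Classical in
/-- the number of the rough divisors in the octant -/
theorem rough_div_count_pr {ρ : ℝ} (hρ : 0 < ρ) : ∃ C : ℝ, 1 ≤ C ∧ ∀ x : ℝ, 2 ≤ x → ∀ ζ : G, ζ ≠ 0 →
    (nn ζ : ℝ) ≤ 16 * x ^ 2 → ∀ S : Finset G, (∀ u ∈ S, 0 < u.im ∧ u.im < u.re ∧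
      Rough (x ^ ρ) (nn u) ∧ u ∣ ζ) → (S.card : ℝ) ≤ C := by
  refine ⟨2 ^ ⌊6 / ρ⌋₊, one_le_pow₀ (by norm_num), ?_⟩
  intro x hx ζ hζ hnn S hS
  have hx0 : 0 < x := by linarith
  have hx1 : 1 < x := by linarith
  have hR : 1 ≤ x ^ ρ := Real.one_le_rpow hx1.le hρ.le
  obtain ⟨m, hm1, hm2⟩ := cr1_core (x ^ ρ) hR ζ hζ
  have hcard : S.card ≤ 2 ^ m := by
    apply hm2
    · intro u hu v hv h
      exact cr1_assoc ⟨(hS u hu).1, (hS u hu).2.1⟩ ⟨(hS v hv).1, (hS v hv).2.1⟩ h
    · intro u hu
      obtain ⟨-, -, hr, hd⟩ := hS u hu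
      refine ⟨hd, fun q hq hqu => ?_⟩
      have hq1 : nn q ≠ 1 := by
        intro h
        exact hq.not_isUnit (Zsqrtd.norm_eq_one_iff.1 h)
      obtain ⟨p, hp, hpq⟩ := Nat.exists_prime_and_dvd hq1
      have hqu' : nn q ∣ nn u := by
        obtain ⟨t, rfl⟩ := hqu
        rw [nn_mul]
        exact dvd_mul_right _ _
      have h1 := hr.2 p hp (hpq.trans hqu')
      have h2 : p ≤ nn q := Nat.le_of_dvd (nn_pos.2 hq.ne_zero) hpq
      exact h1.trans_le (by exact_mod_cast h2)
  have hm3 : m ≤ ⌊6 / ρ⌋₊ := by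
    apply Nat.le_floor
    rw [le_div_iff₀ hρ]
    by_contra hc
    push Not at hc
    have h1 : x ^ (6 : ℝ) < (x ^ ρ) ^ m := by
      rw [← Real.rpow_natCast, ← Real.rpow_mul hx0.le]
      apply Real.rpow_lt_rpow_of_exponent_lt hx1
      linarith
    have h2 : x ^ (6 : ℝ) = x ^ 6 := by
      rw [← Real.rpow_natCast]; norm_num
    have h3 : 16 * x ^ 2 ≤ x ^ 6 := by
      have h4 : (16 : ℝ) ≤ x ^ 4 := by
        calc (16 : ℝ) = 2 ^ 4 := by norm_num
          _ ≤ x ^ 4 := pow_le_pow_left₀ (by norm_num) hx 4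
      calc 16 * x ^ 2 ≤ x ^ 4 * x ^ 2 := mul_le_mul_of_nonneg_right h4 (by positivity)
        _ = x ^ 6 := by ring
    rw [h2] at h1
    linarith
  calc (S.card : ℝ) ≤ (2 : ℝ) ^ m := by exact_mod_cast hcard
    _ ≤ 2 ^ ⌊6 / ρ⌋₊ := pow_le_pow_right₀ (by norm_num) hm3



end Pool.Agent.TR

namespace Pool.Agent.TR

theorem rough_div_count : type_of% @rough_div_count_pr := @rough_div_count_pr

end Pool.Agent.TR
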