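import Pool.Agent.Lib_helper97.TRL.CR2
import Pool.Agent.Lib_helper18.TFF.C2
import Pool.Agent.Lib_helper10.T2F.BAS
import Pool.Agent.Lib_helper10.T2F.BHS
import Pool.Agent.Lib_helper10.T2F.CLS
import Pool.Agent.Lib_helper18.TFF.C1
import Pool.Agent.Lib_helper18.TFF.C5
import Pool.Agent.Lib_helper18.TFF.C7
import Pool.Agent.Lib_helper97.TR.Defs

/-!
# TR, block CR3: smoothing a cell (port of TF C3 of helper18)
-/

set_option autoImplicit false

namespace Pool.Agent.TR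

open Pool.Agent.T2 Pool.Agent.TF Filter Topology

/-- the trapezoid function -/
noncomputable def cr3_psi (p q η : ℝ) (y : ℝ) : ℝ :=
  max 0 (min 1 (min ((y - p) / η) ((q - y) / η)))

theorem cr3_psi_nonneg (p q η y : ℝ) : 0 ≤ cr3_psi p q η y := le_max_left _ _

theorem cr3_psi_le (p q η y : ℝ) : cr3_psi p q η y ≤ 1 :=
  max_le zero_le_one (min_le_left _ _)

theorem cr3_psi_zero {p q η y : ℝ} (hη : 0 < η) (h : y ≤ p ∨ q ≤ y) : cr3_psi p q η y = 0 := by
  unfold cr3_psi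
  apply max_eq_left
  rcases h with h | h
  · exact (min_le_right _ _).trans ((min_le_left _ _).trans
      (div_nonpos_of_nonpos_of_nonneg (by linarith) hη.le))
  · exact (min_le_right _ _).trans ((min_le_right _ _).trans
      (div_nonpos_of_nonpos_of_nonneg (by linarith) hη.le))

theorem cr3_psi_one {p q η y : ℝ} (hη : 0 < η) (h1 : p + η ≤ y) (h2 : y ≤ q - η) :
    cr3_psi p q η y = 1 := by
  unfold cr3_psi
  have e1 : 1 ≤ (y - p) / η := by
    rw [le_div_iff₀ hη]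
    linarith
  have e2 : 1 ≤ (q - y) / η := by
    rw [le_div_iff₀ hη]
    linarith
  rw [min_eq_left (le_min e1 e2)]
  exact max_eq_right zero_le_one

theorem cr3_psi_lip {p q η : ℝ} (hη : 0 < η) (s t : ℝ) :
    |cr3_psi p q η s - cr3_psi p q η t| ≤ 1 / η * |s - t| := by
  have e1 : |(s - p) / η - (t - p) / η| = 1 / η * |s - t| := by
    rw [← sub_div, abs_div, abs_of_pos hη]
    rw [show s - p - (t - p) = s - t by ring]
    ring
  have e2 : |(q - s) / η - (q - t) / η| = 1 / η * |s - t| := by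
    rw [← sub_div, abs_div, abs_of_pos hη]
    rw [show q - s - (q - t) = -(s - t) by ring, abs_neg]
    ring
  unfold cr3_psi
  have h1 : |max 0 (min 1 (min ((s - p) / η) ((q - s) / η))) -
      max 0 (min 1 (min ((t - p) / η) ((q - t) / η)))| ≤
      |min 1 (min ((s - p) / η) ((q - s) / η)) - min 1 (min ((t - p) / η) ((q - t) / η))| := by
    have := abs_max_sub_max_le_max (0 : ℝ) (min 1 (min ((s - p) / η) ((q - s) / η))) 0
      (min 1 (min ((t - p) / η) ((q - t) / η)))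
    simpa using this
  have h2 : |min 1 (min ((s - p) / η) ((q - s) / η)) - min 1 (min ((t - p) / η) ((q - t) / η))| ≤
      |min ((s - p) / η) ((q - s) / η) - min ((t - p) / η) ((q - t) / η)| := by
    have := abs_min_sub_min_le_max (1 : ℝ) (min ((s - p) / η) ((q - s) / η)) 1
      (min ((t - p) / η) ((q - t) / η))
    simpa using this
  have h3 : |min ((s - p) / η) ((q - s) / η) - min ((t - p) / η) ((q - t) / η)| ≤
      1 / η * |s - t| := by
    have := abs_min_sub_min_le_max ((s - p) / η) ((q - s) / η) ((t - p) / η) ((q - t) / η)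
    rw [e1, e2, max_self] at this
    exact this
  linarith

/-- the difference of the indicator function of the cell and its smooth version -/
theorem cr3_diff {L M i : ℕ} (hL : 1 ≤ L) (hi : i < L) {r : ℤ} {B η : ℝ} (hB : 1 ≤ B)
    (hη : 0 < η) (b : ℤ) :
    |cf L M B i r b - (if (M : ℤ) ∣ b - r then 1 else 0) *
      cr3_psi ((i : ℝ) / L) (((i : ℝ) + 1) / L) η ((b : ℝ) / B)| ≤ 1 ∧
    (cf L M B i r b - (if (M : ℤ) ∣ b - r then 1 else 0) *
      cr3_psi ((i : ℝ) / L) (((i : ℝ) + 1) / L) η ((b : ℝ) / B) ≠ 0 →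
      (1 ≤ b ∧ (b : ℝ) ≤ B) ∧ (((i : ℝ) / L * B ≤ (b : ℝ) ∧ (b : ℝ) ≤ (i : ℝ) / L * B + η * B) ∨
        ((((i : ℝ) + 1) / L * B - η * B ≤ (b : ℝ) ∧
          (b : ℝ) ≤ ((i : ℝ) + 1) / L * B - η * B + η * B)))) := by
  have hB0 : (0 : ℝ) < B := by linarith
  have hL0 : (0 : ℝ) < L := by exact_mod_cast hL
  have hi' : (i : ℝ) + 1 ≤ L := by exact_mod_cast hi
  have hiL : 0 ≤ (i : ℝ) / L := by positivity
  have hi1 : ((i : ℝ) + 1) / L ≤ 1 := by
    rw [div_le_one hL0]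
    exact hi'
  set P := (i : ℝ) / L with hP
  set Q := ((i : ℝ) + 1) / L with hQ
  have hmem : b ∈ Cell L M B i r ↔ (P < (b : ℝ) / B ∧ (b : ℝ) / B ≤ Q) ∧ (M : ℤ) ∣ b - r := by
    unfold Cell
    rw [Finset.mem_filter, Finset.mem_Icc]
    have e1 : (i : ℝ) * B / L < (b : ℝ) ↔ P < (b : ℝ) / B := by
      rw [lt_div_iff₀ hB0, hP]
      rw [show (i : ℝ) * B / L = (i : ℝ) / L * B by ring]
    have e2 : (b : ℝ) ≤ ((i : ℝ) + 1) * B / L ↔ (b : ℝ) / B ≤ Q := by
      rw [div_le_iff₀ hB0, hQ]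
      rw [show ((i : ℝ) + 1) * B / L = ((i : ℝ) + 1) / L * B by ring]
    rw [e1, e2]
    constructor
    · rintro ⟨-, h1, h2⟩
      exact ⟨h1, h2⟩
    · rintro ⟨h1, h2⟩
      refine ⟨⟨?_, ?_⟩, h1, h2⟩
      · have h3 : 0 < (b : ℝ) / B := lt_of_le_of_lt hiL h1.1
        have h4 : 0 < (b : ℝ) := by
          by_contra hcon
          push Not at hcon
          exact absurd h3 (not_lt.mpr (div_nonpos_of_nonpos_of_nonneg hcon hB0.le))
        have h5 : (0 : ℤ) < b := by exact_mod_cast h4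
        omega
      · apply Int.le_floor.mpr
        have h3 : (b : ℝ) / B ≤ 1 := h1.2.trans hi1
        rwa [div_le_one hB0] at h3
  by_cases hM : (M : ℤ) ∣ b - r
  · rw [if_pos hM, one_mul]
    by_cases hb : P < (b : ℝ) / B ∧ (b : ℝ) / B ≤ Q
    · have hc : cf L M B i r b = 1 := by
        unfold cf
        rw [if_pos (hmem.mpr ⟨hb, hM⟩)]
      rw [hc]
      have h0 := cr3_psi_nonneg P Q η ((b : ℝ) / B)
      have h1 := cr3_psi_le P Q η ((b : ℝ) / B)
      refine ⟨by rw [abs_le]; constructor <;> linarith, fun hne => ?_⟩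
      have hb1 : 1 ≤ b ∧ (b : ℝ) ≤ B := by
        have := hmem.mpr ⟨hb, hM⟩
        unfold Cell at this
        rw [Finset.mem_filter, Finset.mem_Icc] at this
        refine ⟨this.1.1, ?_⟩
        have h3 : (b : ℝ) / B ≤ 1 := hb.2.trans hi1
        rwa [div_le_one hB0] at h3
      refine ⟨hb1, ?_⟩
      have hP1 : P * B < (b : ℝ) := by
        have := hb.1
        rwa [lt_div_iff₀ hB0] at this
      have hQ1 : (b : ℝ) ≤ Q * B := by
        have := hb.2
        rwa [div_le_iff₀ hB0] at this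
      by_contra hcon
      push Not at hcon
      obtain ⟨hc1, hc2⟩ := hcon
      apply hne
      have e1 := hc1 hP1.le
      rw [cr3_psi_one hη]
      · ring
      · rw [le_div_iff₀ hB0]
        linarith
      · rw [div_le_iff₀ hB0]
        by_contra hcon2
        push Not at hcon2
        have := hc2 (by linarith)
        linarith
    · have hc : cf L M B i r b = 0 := by
        unfold cf
        rw [if_neg (fun h => hb (hmem.mp h).1)]
      have hz : cr3_psi P Q η ((b : ℝ) / B) = 0 := by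
        apply cr3_psi_zero hη
        by_contra hcon
        push Not at hcon
        exact hb ⟨hcon.1, hcon.2.le⟩
      rw [hc, hz]
      simp
  · have hc : cf L M B i r b = 0 := by
      unfold cf
      rw [if_neg (fun h => hM (hmem.mp h).2)]
    rw [hc, if_neg hM]
    simp

open Classical in
theorem cr3_term {L M i : ℕ} (hL : 1 ≤ L) (hi : i < L) {r : ℤ} {x B η : ℝ} (hB : 1 ≤ B)
    (hBx : B ≤ x) (hη : 0 < η) {δ Λ : ℝ} {f : ℝ → ℝ} (hδ : 0 < δ) (hf : Cut δ Λ f) {σ : ℤ}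
    (hσ : σ = 1 ∨ σ = -1) (v z : G) {a : ℝ} (ha : |a| ≤ 1) :
    |a * cf L M B i r (σ * (v * z).im) * f (((v * z).re : ℝ) / x) -
      a * ((if (M : ℤ) ∣ σ * (v * z).im - r then 1 else 0) *
      (cr3_psi ((i : ℝ) / L) (((i : ℝ) + 1) / L) η (((σ * (v * z).im : ℤ) : ℝ) / B) *
        f (((v * z).re : ℝ) / x)))| ≤
    if v * z ∈ (Rg 1 x B).filter (fun ζ => (ζ.re : ℝ) ≤ x ∧
        (i : ℝ) / L * B ≤ ((σ * ζ.im : ℤ) : ℝ) ∧
        ((σ * ζ.im : ℤ) : ℝ) ≤ (i : ℝ) / L * B + η * B) ∪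
      (Rg 1 x B).filter (fun ζ => (ζ.re : ℝ) ≤ x ∧
        ((i : ℝ) + 1) / L * B - η * B ≤ ((σ * ζ.im : ℤ) : ℝ) ∧
        ((σ * ζ.im : ℤ) : ℝ) ≤ ((i : ℝ) + 1) / L * B - η * B + η * B) then 1 else 0 := by
  have hx : 0 < x := by linarith
  have hd := cr3_diff (M := M) (r := r) hL hi hB hη (σ * (v * z).im)
  set ζ := v * z with hζ
  set D := cf L M B i r (σ * ζ.im) - (if (M : ℤ) ∣ σ * ζ.im - r then 1 else 0) *
      cr3_psi ((i : ℝ) / L) (((i : ℝ) + 1) / L) η (((σ * ζ.im : ℤ) : ℝ) / B) with hD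
  have e1 : a * cf L M B i r (σ * ζ.im) * f ((ζ.re : ℝ) / x) -
      a * ((if (M : ℤ) ∣ σ * ζ.im - r then 1 else 0) *
      (cr3_psi ((i : ℝ) / L) (((i : ℝ) + 1) / L) η (((σ * ζ.im : ℤ) : ℝ) / B) *
        f ((ζ.re : ℝ) / x))) = a * D * f ((ζ.re : ℝ) / x) := by
    rw [hD]
    ring
  rw [e1]
  by_cases hz : D = 0 ∨ f ((ζ.re : ℝ) / x) = 0
  · have : a * D * f ((ζ.re : ℝ) / x) = 0 := by
      rcases hz with h | h <;> rw [h] <;> ring
    rw [this, abs_zero]
    split_ifs <;> norm_num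
  · push Not at hz
    obtain ⟨hz1, hz2⟩ := hz
    have hs := hf.supp _ hz2
    have hre : 0 < (ζ.re : ℝ) := by
      have h3 : 0 < (ζ.re : ℝ) / x := lt_of_lt_of_le hδ hs.1
      by_contra hcon
      push Not at hcon
      exact absurd h3 (not_lt.mpr (div_nonpos_of_nonpos_of_nonneg hcon hx.le))
    have hre2 : (ζ.re : ℝ) ≤ x := by
      have := hs.2
      rwa [div_le_one hx] at this
    obtain ⟨⟨hb1, hb2⟩, hb3⟩ := hd.2 hz1
    have hb1' : (1 : ℝ) ≤ ((σ * ζ.im : ℤ) : ℝ) := by exact_mod_cast hb1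
    have habs : |(ζ.im : ℝ)| = ((σ * ζ.im : ℤ) : ℝ) := by
      have h4 : |(ζ.im : ℝ)| = |((σ * ζ.im : ℤ) : ℝ)| := by
        rcases hσ with h | h <;> rw [h] <;> push_cast <;> simp
      rw [h4, abs_of_pos (by linarith)]
    have hR : ζ ∈ Rg 1 x B := by
      unfold Rg
      rw [Finset.mem_filter, mem_Bl]
      refine ⟨⟨?_, ?_⟩, ?_, ?_⟩
      · intro h
        rw [h] at hre
        simp at hre
      · have h5 : (nn ζ : ℝ) = (ζ.re : ℝ) ^ 2 + (ζ.im : ℝ) ^ 2 := by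
          have h6 : ((nn ζ : ℕ) : ℤ) = ζ.re ^ 2 + ζ.im ^ 2 := by
            unfold nn
            rw [Int.natAbs_of_nonneg (GaussianInt.norm_nonneg ζ), Zsqrtd.norm_def]
            ring
          exact_mod_cast h6
        rw [h5]
        have h6 : (ζ.re : ℝ) ^ 2 ≤ x ^ 2 := by
          apply pow_le_pow_left₀ hre.le hre2
        have h7 : (ζ.im : ℝ) ^ 2 ≤ x ^ 2 := by
          rw [← sq_abs (ζ.im : ℝ), habs]
          exact pow_le_pow_left₀ (by linarith) (hb2.trans hBx) 2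
        nlinarith [sq_nonneg x]
      · exact_mod_cast hre
      · rw [habs, one_mul]
        exact hb2
    rw [if_pos]
    · rw [abs_mul, abs_mul]
      have h1 : |a| ≤ 1 := ha
      have h2 : |D| ≤ 1 := hd.1
      have h3 : |f ((ζ.re : ℝ) / x)| ≤ 1 := by
        rw [abs_of_nonneg (hf.nonneg _)]
        exact hf.le_one _
      have h4 : |a| * |D| ≤ 1 := mul_le_one₀ h1 (abs_nonneg _) h2
      exact mul_le_one₀ h4 (abs_nonneg _) h3
    · rw [Finset.mem_union, Finset.mem_filter, Finset.mem_filter]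
      rcases hb3 with h | h
      · exact Or.inl ⟨hR, hre2, h.1, h.2⟩
      · exact Or.inr ⟨hR, hre2, h.1, h.2⟩


/-- outside the ball of radius `2x²/Y` the terms vanish -/
theorem cr3_van {L M i : ℕ} {r : ℤ} {x B Y : ℝ} (hB : 1 ≤ B) (hBx : B ≤ x) (hY : 0 < Y)
    {δ Λ : ℝ} {f : ℝ → ℝ} (hδ : 0 < δ) (hf : Cut δ Λ f) {σ : ℤ} (hσ : σ = 1 ∨ σ = -1) {u z : G}
    (hu : Y < (nn u : ℝ)) (hz0 : z ≠ 0) (hz : z ∉ Bl (2 * x ^ 2 / Y)) :
    cf L M B i r (σ * (u * z).im) * f (((u * z).re : ℝ) / x) = 0 := by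
  have hx : 0 < x := by linarith
  by_contra hne
  have hc : cf L M B i r (σ * (u * z).im) ≠ 0 := left_ne_zero_of_mul hne
  have hf0 : f (((u * z).re : ℝ) / x) ≠ 0 := right_ne_zero_of_mul hne
  have hs := hf.supp _ hf0
  set ζ := u * z with hζ
  have hre : 0 < (ζ.re : ℝ) := by
    have h3 : 0 < (ζ.re : ℝ) / x := lt_of_lt_of_le hδ hs.1
    by_contra hcon
    push Not at hcon
    exact absurd h3 (not_lt.mpr (div_nonpos_of_nonpos_of_nonneg hcon hx.le))
  have hre2 : (ζ.re : ℝ) ≤ x := by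
    have := hs.2
    rwa [div_le_one hx] at this
  have hm : σ * ζ.im ∈ Cell L M B i r := by
    by_contra hcon
    apply hc
    unfold cf
    rw [if_neg hcon]
  unfold Cell at hm
  rw [Finset.mem_filter, Finset.mem_Icc] at hm
  have hb1 : (1 : ℝ) ≤ ((σ * ζ.im : ℤ) : ℝ) := by exact_mod_cast hm.1.1
  have hb2 : ((σ * ζ.im : ℤ) : ℝ) ≤ B := Int.le_floor.mp hm.1.2
  have habs : |(ζ.im : ℝ)| = ((σ * ζ.im : ℤ) : ℝ) := by
    have h4 : |(ζ.im : ℝ)| = |((σ * ζ.im : ℤ) : ℝ)| := by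
      rcases hσ with h | h <;> rw [h] <;> push_cast <;> simp
    rw [h4, abs_of_pos (by linarith)]
  have h5 : (nn ζ : ℝ) = (ζ.re : ℝ) ^ 2 + (ζ.im : ℝ) ^ 2 := by
    have h6 : ((nn ζ : ℕ) : ℤ) = ζ.re ^ 2 + ζ.im ^ 2 := by
      unfold nn
      rw [Int.natAbs_of_nonneg (GaussianInt.norm_nonneg ζ), Zsqrtd.norm_def]
      ring
    exact_mod_cast h6
  have h6 : (ζ.re : ℝ) ^ 2 ≤ x ^ 2 := pow_le_pow_left₀ hre.le hre2 2
  have h7 : (ζ.im : ℝ) ^ 2 ≤ x ^ 2 := by
    rw [← sq_abs (ζ.im : ℝ), habs]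
    exact pow_le_pow_left₀ (by linarith) (hb2.trans hBx) 2
  have h8 : (nn ζ : ℝ) ≤ 2 * x ^ 2 := by rw [h5]; linarith
  have h9 : (nn ζ : ℝ) = (nn u : ℝ) * (nn z : ℝ) := by
    rw [hζ, nn_mul]
    push_cast
    ring
  apply hz
  rw [mem_Bl]
  refine ⟨hz0, ?_⟩
  rw [le_div_iff₀ hY]
  have h10 : (0 : ℝ) ≤ (nn z : ℝ) := Nat.cast_nonneg _
  nlinarith

theorem cell_smoothR_pr {β τ ρ : ℝ} (hτ : 0 < τ) (hβ : 2 * τ < β) (hβ1 : β < 1) (hρ : 0 < ρ)
    (L M i : ℕ) (hL : 1 ≤ L) (hM : 1 ≤ M) (hi : i < L) (r : ℤ) {ε : ℝ} (hε : 0 < ε) :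
    ∃ (K : ℝ) (ψ : ℝ → ℝ) (x₀ : ℝ), 1 ≤ K ∧ Cut 0 K ψ ∧ ∀ x : ℝ, x₀ ≤ x →
      ∀ (δ Λ : ℝ) (f : ℝ → ℝ), 0 < δ → Cut δ Λ f → ∀ α : G → ℝ, (∀ u, |α u| ≤ 1) →
      ∀ F : ℕ → ℝ, (∀ n, |F n| ≤ 1) → ∀ σ : ℤ, (σ = 1 ∨ σ = -1) →
      ∀ Z : ℕ → ℝ, (∀ j, 2 * x ^ 2 / YY β τ x j ≤ Z j) →
      ∑ j ∈ Finset.range (JJ β τ x),
        |SB f α (gF F) σ (x ^ ρ) x (YY β τ x j) (cf L M (x ^ β) i r) -
          SCR ψ f α F σ (x ^ ρ) x (x ^ β) (YY β τ x j) M r (Z j)| ≤ ε * x ^ (1 + β) := by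
  classical
  obtain ⟨C, hC, hmult⟩ := mult_countR hτ hβ hβ1 hρ
  have hβ0 : 0 < β := by linarith
  have hL0 : (0 : ℝ) < L := by exact_mod_cast hL
  set η : ℝ := min 1 (ε / (4 * C)) with hη
  have hη0 : 0 < η := lt_min one_pos (by positivity)
  have hη1 : η ≤ 1 := min_le_left _ _
  have hηC : 2 * C * η ≤ ε / 2 := by
    have : η ≤ ε / (4 * C) := min_le_right _ _
    calc 2 * C * η ≤ 2 * C * (ε / (4 * C)) := mul_le_mul_of_nonneg_left this (by positivity)
      _ = ε / 2 := by field_simp; ring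
  have hx0 : ∃ x₀ : ℝ, ∀ x : ℝ, x₀ ≤ x → 4 * C / ε ≤ x ^ β := by
    have h1 := (tendsto_rpow_atTop hβ0).eventually (eventually_ge_atTop (4 * C / ε))
    exact eventually_atTop.mp h1
  obtain ⟨x₀, hx0⟩ := hx0
  refine ⟨1 / η, cr3_psi ((i : ℝ) / L) (((i : ℝ) + 1) / L) η, max 2 x₀, ?_, ?_, ?_⟩
  · rw [le_div_iff₀ hη0]
    linarith
  · refine ⟨cr3_psi_nonneg _ _ _, cr3_psi_le _ _ _, fun t ht => ?_, fun s t => cr3_psi_lip hη0 s t⟩
    have hi1 : ((i : ℝ) + 1) / L ≤ 1 := by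
      rw [div_le_one hL0]
      exact_mod_cast hi
    have hiL : 0 ≤ (i : ℝ) / L := by positivity
    by_contra hcon
    apply ht
    apply cr3_psi_zero hη0
    by_contra hcon2
    push Not at hcon2
    exact hcon ⟨by linarith [hcon2.1], by linarith [hcon2.2]⟩
  intro x hx δ Λ f hδ hf α hα F hF σ hσ Z hZ
  have hx2 : (2 : ℝ) ≤ x := (le_max_left _ _).trans hx
  have hxx : x₀ ≤ x := (le_max_right _ _).trans hx
  have hxp : 0 < x := by linarith
  set B : ℝ := x ^ β with hBdef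
  have hB : 1 ≤ B := Real.one_le_rpow (by linarith) hβ0.le
  have hBx : B ≤ x := by
    calc B ≤ x ^ (1 : ℝ) := Real.rpow_le_rpow_of_exponent_le (by linarith) hβ1.le
      _ = x := Real.rpow_one x
  set R : Finset G := (Rg 1 x B).filter (fun ζ => (ζ.re : ℝ) ≤ x ∧
        (i : ℝ) / L * B ≤ ((σ * ζ.im : ℤ) : ℝ) ∧
        ((σ * ζ.im : ℤ) : ℝ) ≤ (i : ℝ) / L * B + η * B) ∪
      (Rg 1 x B).filter (fun ζ => (ζ.re : ℝ) ≤ x ∧
        ((i : ℝ) + 1) / L * B - η * B ≤ ((σ * ζ.im : ℤ) : ℝ) ∧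
        ((σ * ζ.im : ℤ) : ℝ) ≤ ((i : ℝ) + 1) / L * B - η * B + η * B) with hR
  have hRm : ∀ ζ ∈ R, ζ ≠ 0 ∧ (nn ζ : ℝ) ≤ 16 * x ^ 2 := by
    intro ζ h
    have h1 : ζ ∈ Rg 1 x B := by
      rw [hR, Finset.mem_union, Finset.mem_filter, Finset.mem_filter] at h
      rcases h with h | h
      · exact h.1
      · exact h.1
    unfold Rg at h1
    rw [Finset.mem_filter, mem_Bl] at h1
    exact h1.1
  have hRc : (R.card : ℝ) ≤ 2 * (x * (η * B + 1)) := by
    have h1 : (R.card : ℝ) ≤ _ := Nat.cast_le.mpr (Finset.card_union_le _ _)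
    refine h1.trans ?_
    rw [Nat.cast_add]
    have h2 := strip_count (a := (i : ℝ) / L * B) (h := η * B) hB hBx (by positivity) σ hσ
    have h3 := strip_count (a := ((i : ℝ) + 1) / L * B - η * B) (h := η * B) hB hBx
      (by positivity) σ hσ
    linarith
  have key : ∀ j, |SB f α (gF F) σ (x ^ ρ) x (YY β τ x j) (cf L M B i r) -
      SCR (cr3_psi ((i : ℝ) / L) (((i : ℝ) + 1) / L) η) f α F σ (x ^ ρ) x B (YY β τ x j) M r
        (Z j)| ≤
      ∑ u ∈ Ru (x ^ ρ) (YY β τ x j),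
        (((Bl (Z j)).filter (fun z => u * z ∈ R)).card : ℝ) := by
    intro j
    have hY : 0 < YY β τ x j := by
      unfold YY
      have := Real.rpow_pos_of_pos hxp (1 - β + τ)
      positivity
    have hsub : Bl (2 * x ^ 2 / YY β τ x j) ⊆ Bl (Z j) := by
      intro z hz
      rw [mem_Bl] at hz ⊢
      exact ⟨hz.1, hz.2.trans (hZ j)⟩
    unfold SB SCR
    rw [← Finset.sum_sub_distrib]
    refine (Finset.abs_sum_le_sum_abs _ _).trans (Finset.sum_le_sum fun u hu => ?_)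
    have hu' : YY β τ x j < (nn u : ℝ) := by
      unfold Ru at hu
      rw [Finset.mem_filter] at hu
      exact hu.2.2.2.1
    have e1 : ∑ z ∈ Bl (2 * x ^ 2 / YY β τ x j),
        gF F z * (cf L M B i r (σ * (u * z).im) * f (((u * z).re : ℝ) / x)) =
        ∑ z ∈ Bl (Z j), gF F z * (cf L M B i r (σ * (u * z).im) * f (((u * z).re : ℝ) / x)) := by
      refine Finset.sum_subset hsub fun z hz hz' => ?_
      rw [mem_Bl] at hz
      rw [cr3_van hB hBx hY hδ hf hσ hu' hz.1 hz', mul_zero]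
    have e2 : ∑ w ∈ PB (Z j), F (nn w) * ((if (M : ℤ) ∣ σ * (u * w).im - r then 1 else 0) *
        (cr3_psi ((i : ℝ) / L) (((i : ℝ) + 1) / L) η (((σ * (u * w).im : ℤ) : ℝ) / B) *
          f (((u * w).re : ℝ) / x))) =
        ∑ w ∈ Bl (Z j), gF F w * ((if (M : ℤ) ∣ σ * (u * w).im - r then 1 else 0) *
        (cr3_psi ((i : ℝ) / L) (((i : ℝ) + 1) / L) η (((σ * (u * w).im : ℤ) : ℝ) / B) *
          f (((u * w).re : ℝ) / x))) := by
      have hPB : PB (Z j) ⊆ Bl (Z j) := by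
        intro w hw
        rw [mem_PB] at hw
        rw [mem_Bl]
        exact ⟨prm_ne hw.1, hw.2⟩
      rw [← Finset.sum_subset hPB (f := fun w => gF F w *
        ((if (M : ℤ) ∣ σ * (u * w).im - r then 1 else 0) *
        (cr3_psi ((i : ℝ) / L) (((i : ℝ) + 1) / L) η (((σ * (u * w).im : ℤ) : ℝ) / B) *
          f (((u * w).re : ℝ) / x))))]
      · refine Finset.sum_congr rfl fun w hw => ?_
        rw [mem_PB] at hw
        unfold gF
        rw [if_pos hw.1]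
      · intro w hw hw'
        rw [mem_Bl] at hw
        rw [mem_PB] at hw'
        unfold gF
        rw [if_neg (fun h => hw' ⟨h, hw.2⟩), zero_mul]
    rw [e1, e2, ← mul_sub, abs_mul, ← Finset.sum_sub_distrib]
    refine (mul_le_of_le_one_left (abs_nonneg _) (hα u)).trans ?_
    refine (Finset.abs_sum_le_sum_abs _ _).trans ?_
    rw [Finset.card_filter, Nat.cast_sum]
    refine Finset.sum_le_sum fun z _ => ?_
    have hg : |gF F z| ≤ 1 := by
      unfold gF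
      split_ifs
      · exact hF _
      · simp
    have := cr3_term (M := M) (r := r) hL hi hB hBx hη0 hδ hf hσ u z hg
    rw [← hR] at this
    rw [← mul_assoc (gF F z) (cf L M B i r _)]
    refine this.trans (le_of_eq ?_)
    split_ifs <;> simp
  refine (Finset.sum_le_sum fun j _ => key j).trans ?_
  refine (hmult x hx2 Z R hRm).trans ?_
  have hCB : 4 * C / ε ≤ B := hx0 x hxx
  have hCB' : 2 * C ≤ ε / 2 * B := by
    rw [div_le_iff₀ hε] at hCB
    linarith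
  have hpow : x ^ (1 + β) = x * B := by
    rw [Real.rpow_add hxp, Real.rpow_one]
  rw [hpow]
  calc C * (R.card : ℝ) ≤ C * (2 * (x * (η * B + 1))) :=
        mul_le_mul_of_nonneg_left hRc (by linarith)
    _ = (2 * C * η) * (x * B) + (2 * C) * x := by ring
    _ ≤ (ε / 2) * (x * B) + (ε / 2 * B) * x := by
        apply add_le_add
        · exact mul_le_mul_of_nonneg_right hηC (by positivity)
        · exact mul_le_mul_of_nonneg_right hCB' hxp.le
    _ = ε * (x * B) := by ring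



end Pool.Agent.TR

namespace Pool.Agent.TR

theorem cell_smoothR : type_of% @cell_smoothR_pr := @cell_smoothR_pr

end Pool.Agent.TR
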