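import Pool.Agent.Lib_helper18.TFF.C5
import Pool.Agent.Lib_helper97.TR.Defs
import Pool.Agent.Lib_helper18.TFF.C6
import Pool.Agent.Lib_helper10.T2F.BAS

set_option autoImplicit false

namespace Pool.Agent.TR

open Pool.Agent.T2 Pool.Agent.TF Filter Topology

open Classical in
theorem cr4_part_p {M N : ℕ} (hM : 1 ≤ M) (hN : 1 ≤ N) {Y R : ℝ} (hY : 0 < Y) (F : G → ℝ) :
    ∑ u ∈ Ru R Y, F u =
      ∑ v ∈ Cls M, ∑ a ∈ Finset.Icc 1 (2 * N), ∑ u ∈ SubR R M v N a Y, F u := by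
  have hN0 : (0 : ℝ) < N := by exact_mod_cast hN
  unfold SubR
  simp_rw [Finset.sum_filter]
  have hsw : ∑ v ∈ Cls M, ∑ a ∈ Finset.Icc 1 (2 * N), ∑ u ∈ Ru R Y,
      (if (M : G) ∣ u - v ∧ ⌈(N : ℝ) * nn u / Y⌉₊ = a then F u else 0) =
      ∑ u ∈ Ru R Y, ∑ v ∈ Cls M, ∑ a ∈ Finset.Icc 1 (2 * N),
      (if (M : G) ∣ u - v ∧ ⌈(N : ℝ) * nn u / Y⌉₊ = a then F u else 0) := by
    rw [Finset.sum_comm (s := Ru R Y)]
    refine Finset.sum_congr rfl fun v _ => ?_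
    rw [Finset.sum_comm]
  rw [hsw]
  refine Finset.sum_congr rfl fun u hu => ?_
  obtain ⟨v₀, hv₀, hu0⟩ := c6_cls hM u
  unfold Ru at hu
  rw [Finset.mem_filter, mem_PB] at hu
  obtain ⟨⟨-, h2⟩, -, -, h1, -⟩ := hu
  symm
  refine c6_unique (Cls M) (Finset.Icc 1 (2 * N)) (fun v => (M : G) ∣ u - v)
    (fun a => ⌈(N : ℝ) * nn u / Y⌉₊ = a) hv₀ hu0 (a₀ := ⌈(N : ℝ) * nn u / Y⌉₊) ?_ ?_ (F u)
  · rw [Finset.mem_Icc]
    constructor
    · rw [Nat.one_le_ceil_iff]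
      have : 0 < (nn u : ℝ) := lt_trans hY h1
      positivity
    · rw [Nat.ceil_le, div_le_iff₀ hY]
      push_cast
      nlinarith
  · intro a _
    exact eq_comm

/-- the error for a pair -/
theorem cr4_pair {δ Λ K : ℝ} (hδ : 0 < δ) (hδ1 : δ ≤ 1) (hΛ : 0 ≤ Λ) (hK : 0 ≤ K) {T : ℕ}
    (hT : 2 / δ ≤ T) {N g M Y' : ℕ} {x B Y R : ℝ} (hN : 1 ≤ N) (hg : 1 ≤ g)
    (hB : 1 ≤ B) (hTx : 4 * ((T : ℝ) + 2) * B ≤ x) (hY : 1 ≤ Y)
    (hY1 : x ^ 2 / Y ≤ (Y' : ℝ)) (hY2 : (Y' : ℝ) ≤ 2 * x ^ 2 / Y) {ψ f : ℝ → ℝ}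
    (hψ : Cut 0 K ψ) (hf : Cut δ Λ f) {σ : ℤ} (hσ : σ = 1 ∨ σ = -1) {v c : G} {a b : ℕ}
    (ha : a ∈ Finset.Icc 1 (2 * N)) (hb : b ∈ Finset.Icc 1 (2 * N)) {P : G}
    (hp : P ∈ SubR R M v N a Y) {w : G} (hw : w ∈ Sl M c N g b Y') :
    |ψ (((σ * (P * ((g : G) * w)).im : ℤ) : ℝ) / B) *
        f (((P * ((g : G) * w)).re : ℝ) / x) -
      ∑ s ∈ Finset.Icc (-((T * N : ℕ) : ℤ)) ((T * N : ℕ) : ℤ),
        Ps ψ f σ x B (Real.sqrt (Y * Y' / x ^ 2 * ((a : ℝ) / N * (b / N)))) ((s : ℝ) / N) *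
          hat ((ag (star P) w - s * (B / (N * x))) / (B / (N * x)))| ≤
      if P * ((g : G) * w) ∈ Rg (4 * ((T : ℝ) + 2)) x B then
        (K + Λ) * (8 + 3 * (T + 2)) / Real.sqrt N else 0 := by
  classical
  have hT0 : (0 : ℝ) ≤ T := Nat.cast_nonneg T
  have hB0 : 0 < B := by linarith
  have hx : 0 < x := by nlinarith
  have hBx : B ≤ x := by nlinarith
  have hY0 : 0 < Y := by linarith
  have hN1 : (1 : ℝ) ≤ N := by exact_mod_cast hN
  have hN0 : (0 : ℝ) < N := by linarith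
  have hg0 : (0 : ℝ) < g := by exact_mod_cast hg
  have hY'0 : (0 : ℝ) < Y' := lt_of_lt_of_le (by positivity) hY1
  have hYY : Y * Y' / x ^ 2 ≤ 2 := by
    rw [div_le_iff₀ (by positivity)]
    rw [le_div_iff₀ hY0] at hY2
    linarith
  rw [Finset.mem_Icc] at ha hb
  have ha2 : (a : ℝ) ≤ 2 * N := by exact_mod_cast ha.2
  have hb2 : (b : ℝ) ≤ 2 * N := by exact_mod_cast hb.2
  unfold SubR Ru at hp
  rw [Finset.mem_filter, Finset.mem_filter, mem_PB] at hp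
  obtain ⟨⟨⟨hPp, hpY2⟩, -, -, hpY, -⟩, -, hpa⟩ := hp
  rw [Nat.ceil_eq_iff (by omega), Nat.cast_sub ha.1, Nat.cast_one, lt_div_iff₀ hY0,
    div_le_iff₀ hY0] at hpa
  rw [c6_sl hN hg hb.1 hb.2 hY'0, mem_PB, Nat.ceil_eq_iff (by omega), Nat.cast_sub hb.1,
    Nat.cast_one, lt_div_iff₀ hY'0, div_le_iff₀ hY'0, le_div_iff₀ (by positivity)] at hw
  obtain ⟨⟨hwp, hw2⟩, -, hwb⟩ := hw
  have hpel : P ≠ 0 := prm_ne hPp
  have hw0 : w ≠ 0 := prm_ne hwp
  have hg' : (g : G) ≠ 0 := by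
    rw [ne_eq, Nat.cast_eq_zero]
    omega
  set ζ : G := P * ((g : G) * w) with hζd
  have hζ : ζ ≠ 0 := mul_ne_zero hpel (mul_ne_zero hg' hw0)
  have hnζ : (nn ζ : ℝ) = (nn P : ℝ) * ((g : ℝ) ^ 2 * nn w) := by
    rw [hζd, nn_mul, nn_mul, nn_nat]
    push_cast
    ring
  have hnw : 0 < (nn w : ℝ) := by exact_mod_cast nn_pos.2 hw0
  have hp0 : 0 < (nn P : ℝ) := by exact_mod_cast nn_pos.2 hpel
  have hn8 : (nn ζ : ℝ) ≤ 8 * x ^ 2 := by
    rw [hnζ]
    rw [le_div_iff₀ hY0] at hY2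
    have h1 : (g : ℝ) ^ 2 * nn w ≤ 2 * Y' := by linarith
    calc (nn P : ℝ) * ((g : ℝ) ^ 2 * nn w) ≤ (2 * Y) * (2 * Y') :=
          mul_le_mul hpY2 h1 (by positivity) (by positivity)
      _ ≤ 8 * x ^ 2 := by nlinarith
  set t : ℝ := Complex.arg (ζ : ℂ) * x / B with htd
  set u : ℝ := ‖(ζ : ℂ)‖ / x with hud
  set u' : ℝ := Real.sqrt (Y * Y' / x ^ 2 * ((a : ℝ) / N * (b / N))) with hu'd
  have hag : ∀ s : ℤ, (ag (star P) w - s * (B / (N * x))) / (B / (N * x)) =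
      (N : ℝ) * t - s := by
    intro s
    rw [← c6_arg hg hpel, ← hζd, htd]
    field_simp
  simp_rw [hag]
  rw [← c6_ps ψ f σ hx hB0 ζ]
  have htB : |t * B / x| ≤ Real.pi := by
    have e : t * B / x = Complex.arg (ζ : ℂ) := by
      rw [htd]
      field_simp
    rw [e]
    exact Complex.abs_arg_le_pi _
  have hu0 : 0 ≤ u := by positivity
  have hu'0 : 0 ≤ u' := Real.sqrt_nonneg _
  split_ifs with hR
  · -- inside the region
    have hu4 : u ≤ 4 := by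
      rw [hud, div_le_iff₀ hx]
      rw [nn_norm] at hn8
      have := norm_nonneg (ζ : ℂ)
      nlinarith
    have hu'4 : u' ≤ 4 := by
      rw [hu'd]
      apply Real.sqrt_le_iff.2
      refine ⟨by norm_num, ?_⟩
      have h1 : (a : ℝ) / N ≤ 2 := by
        rw [div_le_iff₀ hN0]
        exact ha2
      have h2 : (b : ℝ) / N ≤ 2 := by
        rw [div_le_iff₀ hN0]
        exact hb2
      have h3 : (a : ℝ) / N * (b / N) ≤ 2 * 2 :=
        mul_le_mul h1 h2 (by positivity) (by norm_num)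
      have h4 : Y * Y' / x ^ 2 * ((a : ℝ) / N * (b / N)) ≤ 2 * (2 * 2) :=
        mul_le_mul hYY h3 (by positivity) (by norm_num)
      linarith
    refine (freeze hδ hδ1 hψ hf hσ hB0 hBx N T hN hT hu0 hu4 hu'0 hu'4 htB).trans ?_
    have huu : |u - u'| ≤ 3 / Real.sqrt N := by
      have e1 : u = Real.sqrt (Y * Y' / x ^ 2 * (((nn P : ℝ) / Y) * ((g : ℝ) ^ 2 * nn w / Y'))) := by
        have e2 : Y * Y' / x ^ 2 * (((nn P : ℝ) / Y) * ((g : ℝ) ^ 2 * nn w / Y')) =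
            (‖(ζ : ℂ)‖ / x) ^ 2 := by
          rw [div_pow, ← nn_norm, hnζ]
          field_simp
        rw [e2, Real.sqrt_sq (by positivity)]
      rw [e1, hu'd]
      refine (c6_sqrt (by positivity) (by positivity)).trans ?_
      have h1 : |Y * Y' / x ^ 2 * (((nn P : ℝ) / Y) * ((g : ℝ) ^ 2 * nn w / Y')) -
          Y * Y' / x ^ 2 * ((a : ℝ) / N * (b / N))| ≤ 9 / N := by
        rw [← mul_sub, abs_mul, abs_of_nonneg (by positivity : 0 ≤ Y * Y' / x ^ 2)]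
        have h2 : |(nn P : ℝ) / Y * ((g : ℝ) ^ 2 * nn w / Y') - (a : ℝ) / N * (b / N)| ≤ 4 / N := by
          have e3 : (nn P : ℝ) / Y * ((g : ℝ) ^ 2 * nn w / Y') - (a : ℝ) / N * (b / N) =
              (nn P : ℝ) / Y * ((g : ℝ) ^ 2 * nn w / Y' - b / N) +
                (b / N) * ((nn P : ℝ) / Y - a / N) := by ring
          rw [e3]
          refine (abs_add_le _ _).trans ?_
          rw [abs_mul, abs_mul, abs_of_nonneg (by positivity : 0 ≤ (nn P : ℝ) / Y),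
            abs_of_nonneg (by positivity : 0 ≤ (b : ℝ) / N)]
          have h3 : |(g : ℝ) ^ 2 * nn w / Y' - b / N| ≤ 1 / N := by
            have e4 : (g : ℝ) ^ 2 * nn w / Y' - b / N =
                ((N : ℝ) * (g : ℝ) ^ 2 * nn w - b * Y') / (Y' * N) := by
              field_simp
            rw [e4, abs_div, abs_of_pos (by positivity : (0 : ℝ) < Y' * N),
              div_le_div_iff₀ (by positivity) hN0]
            have : |(N : ℝ) * (g : ℝ) ^ 2 * nn w - b * Y'| ≤ Y' := by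
              rw [abs_le]
              constructor <;> linarith [hwb.1, hwb.2]
            nlinarith
          have h4 : |(nn P : ℝ) / Y - a / N| ≤ 1 / N := by
            have e4 : (nn P : ℝ) / Y - a / N = ((N : ℝ) * nn P - a * Y) / (Y * N) := by
              field_simp
            rw [e4, abs_div, abs_of_pos (by positivity : (0 : ℝ) < Y * N),
              div_le_div_iff₀ (by positivity) hN0]
            have : |(N : ℝ) * nn P - a * Y| ≤ Y := by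
              rw [abs_le]
              constructor <;> linarith [hpa.1, hpa.2]
            nlinarith
          have h5 : (nn P : ℝ) / Y ≤ 2 := by
            rw [div_le_iff₀ hY0]
            exact hpY2
          have h6 : (b : ℝ) / N ≤ 2 := by
            rw [div_le_iff₀ hN0]
            exact hb2
          have h7 := mul_le_mul h5 h3 (abs_nonneg _) (by norm_num)
          have h8 := mul_le_mul h6 h4 (abs_nonneg _) (by norm_num)
          refine (add_le_add h7 h8).trans (le_of_eq ?_)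
          ring
        have h9 := mul_le_mul hYY h2 (abs_nonneg _) (by norm_num)
        refine h9.trans ?_
        rw [← mul_div_assoc]
        exact div_le_div_of_nonneg_right (by norm_num) hN0.le
      refine (Real.sqrt_le_sqrt h1).trans (le_of_eq ?_)
      rw [Real.sqrt_div (by norm_num)]
      congr 1
      rw [show (9 : ℝ) = 3 ^ 2 by norm_num, Real.sqrt_sq (by norm_num)]
    have hsN : Real.sqrt N ≤ N := by
      apply Real.sqrt_le_iff.2
      exact ⟨by positivity, by nlinarith⟩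
    have hsN0 : 0 < Real.sqrt N := Real.sqrt_pos.2 hN0
    have h8 : 8 / (N : ℝ) ≤ 8 / Real.sqrt N :=
      div_le_div_of_nonneg_left (by norm_num) hsN0 hsN
    have h9 : ((T : ℝ) + 2) * |u - u'| ≤ ((T : ℝ) + 2) * (3 / Real.sqrt N) :=
      mul_le_mul_of_nonneg_left huu (by positivity)
    have h10 : (K + Λ) * (8 / N + ((T : ℝ) + 2) * |u - u'|) ≤
        (K + Λ) * (8 / Real.sqrt N + ((T : ℝ) + 2) * (3 / Real.sqrt N)) :=
      mul_le_mul_of_nonneg_left (by linarith) (by linarith)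
    refine h10.trans (le_of_eq ?_)
    ring
  · -- outside the region
    have hbig : ¬ |t| ≤ (T : ℝ) + 1 := fun h => hR (c6_region hT0 hB hTx hζ hn8 h)
    have z1 : Ps ψ f σ x B u t = 0 := by
      by_contra hne
      have h1 := (ps_supp hδ hδ1 hψ hf hσ hB0 hBx hu0 (by linarith [Real.pi_pos]) hne).1
      exact hbig (by linarith)
    have z2 : ∑ s ∈ Finset.Icc (-((T * N : ℕ) : ℤ)) ((T * N : ℕ) : ℤ),
        Ps ψ f σ x B u' ((s : ℝ) / N) * hat ((N : ℝ) * t - s) = 0 := by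
      apply Finset.sum_eq_zero
      intro s _
      by_contra hne
      have h1 := right_ne_zero_of_mul hne
      have h2 := left_ne_zero_of_mul hne
      obtain ⟨h3, h4⟩ := c6_near hN hB0 hBx htB h1
      have h5 := (ps_supp hδ hδ1 hψ hf hσ hB0 hBx hu'0 h4 h2).1
      apply hbig
      have h6 : |t| ≤ |(s : ℝ) / N| + |t - (s : ℝ) / N| := by
        calc |t| = |(s : ℝ) / N + (t - (s : ℝ) / N)| := by
              congr 1
              ring
          _ ≤ _ := abs_add_le _ _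
      linarith
    rw [z1, z2, sub_zero, abs_zero]

/-- decomposition of one content into slices -/
theorem cr4_gen {δ Λ K : ℝ} (hδ : 0 < δ) (hδ1 : δ ≤ 1) (hΛ : 0 ≤ Λ) (hK : 0 ≤ K) (T : ℕ)
    (hT : 2 / δ ≤ T) (N g M Y' : ℕ) (x B Y R : ℝ) (r : ℤ) (hN : 1 ≤ N) (hg : 1 ≤ g)
    (hM : 1 ≤ M) (hB : 1 ≤ B) (hTx : 4 * ((T : ℝ) + 2) * B ≤ x) (hY : 1 ≤ Y) (hYx : Y ≤ x)
    (hY1 : x ^ 2 / Y ≤ (Y' : ℝ)) (hY2 : (Y' : ℝ) ≤ 2 * x ^ 2 / Y)
    (ψ f : ℝ → ℝ) (hψ : Cut 0 K ψ) (hf : Cut δ Λ f) (α : G → ℝ) (hα : ∀ u, |α u| ≤ 1)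
    (F : ℕ → ℝ) (hF : ∀ n, |F n| ≤ 1) (σ : ℤ) (hσ : σ = 1 ∨ σ = -1) :
    |∑ u ∈ Ru R Y, α u * ∑ w ∈ PB (2 * Y' / (g : ℝ) ^ 2),
      F (nn w) * ((if (M : ℤ) ∣ σ * (u * ((g : G) * w)).im - r then 1 else 0) *
        (ψ (((σ * (u * ((g : G) * w)).im : ℤ) : ℝ) / B) *
          f (((u * ((g : G) * w)).re : ℝ) / x)))| ≤
      (∑ v ∈ Cls M, ∑ c ∈ Cls M, ∑ a ∈ Finset.Icc 1 (2 * N), ∑ b ∈ Finset.Icc 1 (2 * N),
        ∑ s ∈ Finset.Icc (-((T * N : ℕ) : ℤ)) ((T * N : ℕ) : ℤ),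
          |TSR α F (SubR R M v N a Y) (Sl M c N g b Y') (B / (N * x)) s|) +
      ((K + Λ) * (8 + 3 * (T + 2)) + 1) / Real.sqrt N * ∑ u ∈ Ru R Y,
        (((Bl (8 * x ^ 2 / Y)).filter (fun z => u * z ∈ Rg (4 * (T + 2)) x B)).card : ℝ) := by
  classical
  have hT0 : (0 : ℝ) ≤ T := Nat.cast_nonneg T
  have hx : 0 < x := by nlinarith
  have hY0 : 0 < Y := by linarith
  have hY'0 : (0 : ℝ) < Y' := lt_of_lt_of_le (by positivity) hY1
  have hN0 : (0 : ℝ) < N := by exact_mod_cast hN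
  set RR : Finset G := Rg (4 * ((T : ℝ) + 2)) x B with hR
  set E : ℝ := (K + Λ) * (8 + 3 * (T + 2)) / Real.sqrt N with hE
  have hE0 : 0 ≤ E := by positivity
  set k : ℝ := B / (N * x) with hk
  set I : Finset ℤ := Finset.Icc (-((T * N : ℕ) : ℤ)) ((T * N : ℕ) : ℤ) with hI
  -- the term
  set Q : G → G → ℝ := fun u w => α u * (F (nn w) *
    ((if (M : ℤ) ∣ σ * (u * ((g : G) * w)).im - r then 1 else 0) *
      (ψ (((σ * (u * ((g : G) * w)).im : ℤ) : ℝ) / B) *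
        f (((u * ((g : G) * w)).re : ℝ) / x)))) with hQ
  have hSG : ∑ u ∈ Ru R Y, α u * ∑ w ∈ PB (2 * Y' / (g : ℝ) ^ 2),
      F (nn w) * ((if (M : ℤ) ∣ σ * (u * ((g : G) * w)).im - r then 1 else 0) *
        (ψ (((σ * (u * ((g : G) * w)).im : ℤ) : ℝ) / B) *
          f (((u * ((g : G) * w)).re : ℝ) / x))) =
      ∑ u ∈ Ru R Y, ∑ w ∈ PB (2 * Y' / (g : ℝ) ^ 2), Q u w := by
    refine Finset.sum_congr rfl fun u _ => ?_
    rw [Finset.mul_sum]
  have hsplit : ∀ H : G → G → ℝ, ∑ u ∈ Ru R Y, ∑ w ∈ PB (2 * Y' / (g : ℝ) ^ 2), H u w =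
      ∑ v ∈ Cls M, ∑ c ∈ Cls M, ∑ a ∈ Finset.Icc 1 (2 * N), ∑ b ∈ Finset.Icc 1 (2 * N),
        ∑ u ∈ SubR R M v N a Y, ∑ w ∈ Sl M c N g b Y', H u w := by
    intro H
    rw [cr4_part_p hM hN hY0]
    refine Finset.sum_congr rfl fun v _ => ?_
    rw [Finset.sum_comm (s := Cls M)]
    refine Finset.sum_congr rfl fun a _ => ?_
    rw [Finset.sum_congr rfl (fun u _ => c6_part_w hM hN hg hY'0 (H u))]
    rw [Finset.sum_comm]
    refine Finset.sum_congr rfl fun c _ => ?_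
    rw [Finset.sum_comm]
  have hmain : ∀ v ∈ Cls M, ∀ c ∈ Cls M, ∀ a ∈ Finset.Icc 1 (2 * N),
      ∀ b ∈ Finset.Icc 1 (2 * N),
      |∑ u ∈ SubR R M v N a Y, ∑ w ∈ Sl M c N g b Y', Q u w| ≤
        (∑ s ∈ I, |TSR α F (SubR R M v N a Y) (Sl M c N g b Y') k s|) +
        ∑ u ∈ SubR R M v N a Y, ∑ w ∈ Sl M c N g b Y',
          (if u * ((g : G) * w) ∈ RR then E else 0) := by
    intro v _ c _ a ha b hb
    set χ : ℝ := if (M : ℤ) ∣ σ * (v * ((g : G) * c)).im - r then 1 else 0 with hχ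
    have hχ0 : 0 ≤ χ := by
      rw [hχ]
      split_ifs <;> norm_num
    have hχ1 : χ ≤ 1 := by
      rw [hχ]
      split_ifs <;> norm_num
    set P : ℤ → ℝ := fun s => Ps ψ f σ x B
      (Real.sqrt (Y * Y' / x ^ 2 * ((a : ℝ) / N * (b / N)))) ((s : ℝ) / N) with hP
    have hP1 : ∀ s, |χ * P s| ≤ 1 := by
      intro s
      rw [hP]
      unfold Ps
      rw [abs_mul, abs_mul, abs_of_nonneg hχ0, abs_of_nonneg (hψ.nonneg _),
        abs_of_nonneg (hf.nonneg _)]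
      exact mul_le_one₀ hχ1 (mul_nonneg (hψ.nonneg _) (hf.nonneg _))
        (mul_le_one₀ (hψ.le_one _) (hf.nonneg _) (hf.le_one _))
    have hTS : ∑ s ∈ I, χ * P s * TSR α F (SubR R M v N a Y) (Sl M c N g b Y') k s =
        ∑ u ∈ SubR R M v N a Y, ∑ w ∈ Sl M c N g b Y', α u * (F (nn w) * (χ * ∑ s ∈ I,
          P s * hat ((ag (star u) w - s * k) / k))) := by
      unfold TSR
      simp_rw [Finset.mul_sum]
      rw [Finset.sum_comm]
      refine Finset.sum_congr rfl fun u _ => ?_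
      rw [Finset.sum_comm]
      refine Finset.sum_congr rfl fun w _ => ?_
      refine Finset.sum_congr rfl fun s _ => ?_
      ring
    have hdiff : |∑ u ∈ SubR R M v N a Y, ∑ w ∈ Sl M c N g b Y', Q u w -
        ∑ s ∈ I, χ * P s * TSR α F (SubR R M v N a Y) (Sl M c N g b Y') k s| ≤
        ∑ u ∈ SubR R M v N a Y, ∑ w ∈ Sl M c N g b Y',
          (if u * ((g : G) * w) ∈ RR then E else 0) := by
      rw [hTS, ← Finset.sum_sub_distrib]
      refine (Finset.abs_sum_le_sum_abs _ _).trans (Finset.sum_le_sum fun u hu => ?_)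
      rw [← Finset.sum_sub_distrib]
      refine (Finset.abs_sum_le_sum_abs _ _).trans (Finset.sum_le_sum fun w hw => ?_)
      have hpd : (M : G) ∣ u - v := by
        unfold SubR at hu
        rw [Finset.mem_filter] at hu
        exact hu.2.1
      have hwd : (M : G) ∣ w - c := by
        unfold Sl Slc at hw
        rw [Finset.mem_filter] at hw
        exact hw.2.2
      have hQe : Q u w = α u * (F (nn w) * (χ *
          (ψ (((σ * (u * ((g : G) * w)).im : ℤ) : ℝ) / B) *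
            f (((u * ((g : G) * w)).re : ℝ) / x)))) := by
        simp only [hQ, hχ]
        rw [if_congr (c6_chi hpd hwd) rfl rfl]
      rw [hQe, ← mul_sub, ← mul_sub, ← mul_sub, abs_mul, abs_mul, abs_mul, abs_of_nonneg hχ0]
      have h1 := cr4_pair (M := M) hδ hδ1 hΛ hK hT hN hg hB hTx hY hY1 hY2 hψ hf hσ ha hb hu hw
      refine le_trans ?_ h1
      refine (mul_le_of_le_one_left (by positivity) (hα u)).trans ?_
      refine (mul_le_of_le_one_left (by positivity) (hF _)).trans ?_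
      exact mul_le_of_le_one_left (abs_nonneg _) hχ1
    have h2 : |∑ s ∈ I, χ * P s * TSR α F (SubR R M v N a Y) (Sl M c N g b Y') k s| ≤
        ∑ s ∈ I, |TSR α F (SubR R M v N a Y) (Sl M c N g b Y') k s| := by
      refine (Finset.abs_sum_le_sum_abs _ _).trans (Finset.sum_le_sum fun s _ => ?_)
      rw [abs_mul]
      exact mul_le_of_le_one_left (abs_nonneg _) (hP1 s)
    have h3 := abs_add_le (∑ s ∈ I, χ * P s * TSR α F (SubR R M v N a Y) (Sl M c N g b Y') k s)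
      (∑ u ∈ SubR R M v N a Y, ∑ w ∈ Sl M c N g b Y', Q u w -
        ∑ s ∈ I, χ * P s * TSR α F (SubR R M v N a Y) (Sl M c N g b Y') k s)
    rw [add_sub_cancel] at h3
    exact h3.trans (add_le_add h2 hdiff)
  have hcount : ∑ u ∈ Ru R Y, ∑ w ∈ PB (2 * Y' / (g : ℝ) ^ 2),
      (if u * ((g : G) * w) ∈ RR then E else 0) ≤
      ((K + Λ) * (8 + 3 * (T + 2)) + 1) / Real.sqrt N * ∑ u ∈ Ru R Y,
          (((Bl (8 * x ^ 2 / Y)).filter (fun z => u * z ∈ RR)).card : ℝ) := by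
    rw [Finset.mul_sum]
    refine Finset.sum_le_sum fun u _ => ?_
    rw [← Finset.sum_filter, Finset.sum_const, nsmul_eq_mul, mul_comm]
    have hEC : E ≤ ((K + Λ) * (8 + 3 * (T + 2)) + 1) / Real.sqrt N := by
      rw [hE]
      exact div_le_div_of_nonneg_right (by linarith) (Real.sqrt_nonneg _)
    refine mul_le_mul hEC ?_ (by positivity) (hE0.trans hEC)
    have hg' : (g : G) ≠ 0 := by
      rw [ne_eq, Nat.cast_eq_zero]
      omega
    have hg0 : (0 : ℝ) < g := by exact_mod_cast hg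
    refine Nat.cast_le.2 (Finset.card_le_card_of_injOn (fun w => (g : G) * w) ?_ ?_)
    · intro w hw
      have hw' := Finset.mem_coe.1 hw
      rw [Finset.mem_filter, mem_PB] at hw'
      refine Finset.mem_coe.2 ?_
      rw [Finset.mem_filter, mem_Bl]
      refine ⟨⟨mul_ne_zero hg' (prm_ne hw'.1.1), ?_⟩, hw'.2⟩
      rw [nn_mul, nn_nat]
      push_cast
      have h1 := hw'.1.2
      rw [le_div_iff₀ (by positivity)] at h1
      rw [le_div_iff₀ hY0] at hY2 ⊢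
      nlinarith [sq_nonneg x]
    · intro w _ w' _ h
      exact mul_left_cancel₀ hg' h
  rw [hSG, hsplit]
  refine le_trans ?_ (add_le_add le_rfl hcount)
  rw [hsplit (fun u w => if u * ((g : G) * w) ∈ RR then E else 0), ← Finset.sum_add_distrib]
  refine (Finset.abs_sum_le_sum_abs _ _).trans (Finset.sum_le_sum fun v hv => ?_)
  rw [← Finset.sum_add_distrib]
  refine (Finset.abs_sum_le_sum_abs _ _).trans (Finset.sum_le_sum fun c hc => ?_)
  rw [← Finset.sum_add_distrib]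
  refine (Finset.abs_sum_le_sum_abs _ _).trans (Finset.sum_le_sum fun a ha => ?_)
  rw [← Finset.sum_add_distrib]
  refine (Finset.abs_sum_le_sum_abs _ _).trans (Finset.sum_le_sum fun b hb => ?_)
  exact hmain v hv c hc a ha b hb

open Classical in
theorem slicesR_pr {δ Λ K : ℝ} (hδ : 0 < δ) (hδ1 : δ ≤ 1) (hΛ : 0 ≤ Λ) (hK : 0 ≤ K) (T : ℕ)
    (hT : 2 / δ ≤ T) : ∃ C : ℝ, 1 ≤ C ∧ ∀ (N M Y' : ℕ) (x B Y R : ℝ) (r : ℤ), 1 ≤ N →
      1 ≤ M → 1 ≤ B → 4 * (T + 2) * B ≤ x → 1 ≤ Y → Y ≤ x → x ^ 2 / Y ≤ (Y' : ℝ) →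
      (Y' : ℝ) ≤ 2 * x ^ 2 / Y →
      ∀ (ψ f : ℝ → ℝ), Cut 0 K ψ → Cut δ Λ f → ∀ α : G → ℝ, (∀ u, |α u| ≤ 1) →
      ∀ F : ℕ → ℝ, (∀ n, |F n| ≤ 1) → ∀ σ : ℤ, (σ = 1 ∨ σ = -1) →
      |SCR ψ f α F σ R x B Y M r (2 * Y')| ≤
        (∑ v ∈ Cls M, ∑ c ∈ Cls M, ∑ a ∈ Finset.Icc 1 (2 * N), ∑ b ∈ Finset.Icc 1 (2 * N),
          ∑ s ∈ Finset.Icc (-((T * N : ℕ) : ℤ)) ((T * N : ℕ) : ℤ),
            |TSR α F (SubR R M v N a Y) (Sl M c N 1 b Y') (B / (N * x)) s|) +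
        C / Real.sqrt N * ∑ u ∈ Ru R Y,
          (((Bl (8 * x ^ 2 / Y)).filter (fun z => u * z ∈ Rg (4 * (T + 2)) x B)).card : ℝ) := by
  refine ⟨(K + Λ) * (8 + 3 * (T + 2)) + 1, ?_, ?_⟩
  · have : 0 ≤ (K + Λ) * (8 + 3 * ((T : ℝ) + 2)) := by positivity
    linarith
  intro N M Y' x B Y R r hN hM hB hTx hY hYx hY1 hY2 ψ f hψ hf α hα F hF σ hσ
  have h := cr4_gen hδ hδ1 hΛ hK T hT N 1 M Y' x B Y R r hN le_rfl hM hB hTx hY hYx hY1 hY2
    ψ f hψ hf α hα F hF σ hσ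
  have e : SCR ψ f α F σ R x B Y M r (2 * Y') =
      ∑ u ∈ Ru R Y, α u * ∑ w ∈ PB (2 * Y' / (((1 : ℕ) : ℝ)) ^ 2),
      F (nn w) * ((if (M : ℤ) ∣ σ * (u * (((1 : ℕ) : G) * w)).im - r then 1 else 0) *
        (ψ (((σ * (u * (((1 : ℕ) : G) * w)).im : ℤ) : ℝ) / B) *
          f (((u * (((1 : ℕ) : G) * w)).re : ℝ) / x))) := by
    unfold SCR
    simp only [Nat.cast_one, one_mul, one_pow, div_one]
  rw [e]
  exact h

end Pool.Agent.TR

namespace Pool.Agent.TR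

theorem slicesR : type_of% @slicesR_pr := @slicesR_pr

end Pool.Agent.TR
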