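import Pool.Agent.Lib_helper10.T2F.HMO
import Pool.Agent.Lib_helper10.T2F.LSG
import Pool.Agent.Lib_helper10.T2F.MER
import Pool.Agent.Lib_helper10.T2F.MRT
import Pool.Agent.Lib_helper10.T2F.PEL
import Pool.Agent.Lib_helper10.T2F.PHM
import Pool.Agent.Lib_helper10.T2F.PTW
import Pool.Agent.Lib_helper10.T2F.SPA
import Pool.Agent.Lib_helper10.T2F.TJA
import Pool.Agent.Lib_helper10.T2F.TKA
import Pool.Agent.Lib_helper10.T2F.TKR
import Pool.Agent.Lib_helper10.T2F.TKV
import Pool.Agent.Lib_helper10.T2F.UCD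
import Pool.Agent.Lib_helper97.TRL.B19

/-! TR (MP_892e4c_nt), block M13: reduction of classes to characters -/

set_option autoImplicit false

namespace Pool.Agent.TR

open Pool.Agent.T2 Pool.Agent.TF Filter Topology

theorem cls_reduceF_pr (m : ℕ) (hm : 1 ≤ m) (c : G) : ∃ (m₂ : G) (r : ℝ) (s : Finset (MChar m₂)),
    m₂ ≠ 0 ∧ 0 < r ∧ ∀ (R : ℝ) (F : ℕ → ℝ), (m : ℝ) ≤ R → Flip R F → ∀ (k : ℤ) (x : ℝ),
      ‖AclF F m c k x‖ ≤ ∑ χ ∈ s, ‖SmF F χ k (x / r)‖ := by
  classical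
  have hmG : (m : G) ≠ 0 := by
    have : m ≠ 0 := by omega
    exact_mod_cast this
  set g : G := EuclideanDomain.gcd c (m : G) with hg
  have hg0 : g ≠ 0 := by
    intro h
    exact hmG (EuclideanDomain.gcd_eq_zero_iff.1 h).2
  obtain ⟨c₁, hc₁⟩ : g ∣ c := EuclideanDomain.gcd_dvd_left _ _
  obtain ⟨m₁, hm₁⟩ : g ∣ (m : G) := EuclideanDomain.gcd_dvd_right _ _
  have hm₁0 : m₁ ≠ 0 := by
    rintro rfl
    rw [mul_zero] at hm₁
    exact hmG hm₁
  have hcop : IsCoprime c₁ m₁ := by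
    have h1 := EuclideanDomain.gcd_eq_gcd_ab c (m : G)
    refine ⟨EuclideanDomain.gcdA c (m : G), EuclideanDomain.gcdB c (m : G), ?_⟩
    apply mul_left_cancel₀ hg0
    have h2 : g = c * EuclideanDomain.gcdA c (m : G) + (m : G) * EuclideanDomain.gcdB c (m : G) := h1
    linear_combination -EuclideanDomain.gcdA c (m : G) * hc₁ -
      EuclideanDomain.gcdB c (m : G) * hm₁ - h2
  by_cases hprm : Prm g
  swap
  · refine ⟨1, 1, ∅, one_ne_zero, zero_lt_one, fun R F _ _ k x => ?_⟩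
    refine le_of_eq ?_
    rw [Finset.sum_empty, norm_eq_zero, AclF]
    refine Finset.sum_eq_zero fun z hz => ?_
    exfalso
    rw [Finset.mem_filter, mem_PB] at hz
    obtain ⟨⟨h1, _⟩, v, hv⟩ := hz
    apply hprm
    refine prm_mul_left (w := c₁ + m₁ * v) ?_
    have : g * (c₁ + m₁ * v) = z := by
      linear_combination -hc₁ - v * hm₁ - hv
    rwa [this]
  have hgs : star g ≠ 0 := by
    intro h
    exact hg0 (by rw [← star_star g, h, star_zero])
  set m₂ : G := m₁ * star g with hm₂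
  have hm₂0 : m₂ ≠ 0 := mul_ne_zero hm₁0 hgs
  have hfin := cls_finite hm₂0
  let R := G ⧸ Ideal.span {m₂}
  let _ : Fintype (MulChar R ℂ) := Fintype.ofFinite _
  have hnn : (0 : ℝ) < nn g := by exact_mod_cast nn_pos.2 hg0
  -- the condition on `w`
  set P : G → Prop := fun w => m₁ ∣ w - c₁ ∧ IsCoprime w (star g) with hP
  have hPinv : ∀ w w', m₂ ∣ w - w' → P w → P w' := by
    rintro w w' ⟨v, hv⟩ ⟨⟨a, ha⟩, b, d, hbd⟩
    refine ⟨⟨a - star g * v, ?_⟩, b, d + b * (m₁ * v), ?_⟩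
    · rw [hm₂] at hv
      linear_combination ha - hv
    · rw [hm₂] at hv
      linear_combination hbd - b * hv
  have hPcop : ∀ w, P w → IsCoprime w m₂ := by
    rintro w ⟨⟨a, ha⟩, hb⟩
    refine IsCoprime.mul_right ?_ hb
    obtain ⟨u, v, huv⟩ := hcop
    refine ⟨u, v - u * a, ?_⟩
    linear_combination huv + u * ha
  let φ : R → ℂ := fun r => if ∃ w, Ideal.Quotient.mk (Ideal.span {m₂}) w = r ∧ P w then 1 else 0
  have hφ : ∀ w, φ (Ideal.Quotient.mk (Ideal.span {m₂}) w) = if P w then 1 else 0 := by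
    intro w
    have : (∃ w', Ideal.Quotient.mk (Ideal.span {m₂}) w' = Ideal.Quotient.mk (Ideal.span {m₂}) w ∧
        P w') ↔ P w := by
      constructor
      · rintro ⟨w', h1, h2⟩
        rw [Ideal.Quotient.mk_eq_mk_iff_sub_mem, Ideal.mem_span_singleton] at h1
        exact hPinv _ _ h1 h2
      · exact fun h => ⟨w, rfl, h⟩
    simp only [φ, this]
  obtain ⟨b, hb1, hb2⟩ := cls_expand φ (fun r => by
    simp only [φ]
    split_ifs <;> simp) (fun r hr => by
    simp only [φ]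
    rw [if_neg]
    rintro ⟨w, rfl, hw⟩
    exact hr ((cls_isUnit w).2 (hPcop w hw)))
  refine ⟨m₂, nn g, Finset.univ.image (fun χ : MulChar R ℂ => cls_char hm₂0 χ), hm₂0, hnn,
    fun R₀ F hmR hF k x => ?_⟩
  have hgF : ∀ w : G, w ≠ 0 → F (nn (g * w)) = lam (nn g) * F (nn w) := by
    intro w hw
    rw [nn_mul]
    refine flip_smooth hF _ _ (nn_pos.2 hg0).ne' (fun p hp hpd => ?_) (nn_pos.2 hw).ne'
    have h1 : nn g ∣ nn (m : G) := by
      rw [hm₁, nn_mul]
      exact dvd_mul_right _ _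
    rw [nn_nat] at h1
    have h2 : p ∣ m := hp.dvd_of_dvd_pow (hpd.trans h1)
    have h3 : p ≤ m := Nat.le_of_dvd (by omega) h2
    exact le_trans (by exact_mod_cast h3) hmR
  have hset : (PB x).filter (fun z => (m : G) ∣ z - c) =
      ((PB (x / nn g)).filter P).image (fun w => g * w) := by
    ext z
    simp only [Finset.mem_filter, Finset.mem_image, mem_PB, hP]
    constructor
    · rintro ⟨⟨h1, h2⟩, v, hv⟩
      have h3 : g * (c₁ + m₁ * v) = z := by
        linear_combination -hc₁ - v * hm₁ - hv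
      rw [← h3] at h1 h2
      have h4 := (cls_prm hprm).1 h1
      refine ⟨c₁ + m₁ * v, ⟨⟨h4.1, ?_⟩, ⟨v, by ring⟩, h4.2⟩, h3⟩
      rw [nn_mul] at h2
      push_cast at h2
      rw [le_div_iff₀ hnn]
      linarith
    · rintro ⟨w, ⟨⟨h1, h2⟩, ⟨v, hv⟩, h4⟩, rfl⟩
      refine ⟨⟨(cls_prm hprm).2 ⟨h1, h4⟩, ?_⟩, v, ?_⟩
      · rw [nn_mul]
        push_cast
        rw [le_div_iff₀ hnn] at h2
        linarith
      · linear_combination g * hv - hc₁ - v * hm₁
  have hinj : ∀ w ∈ (PB (x / nn g)).filter P, ∀ w' ∈ (PB (x / nn g)).filter P,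
      g * w = g * w' → w = w' := fun w _ w' _ h => mul_left_cancel₀ hg0 h
  have hA : AclF F m c k x = ((gl g : ℂ) * ang k g) *
      ∑ χ : MulChar R ℂ, b χ * SmF F (cls_char hm₂0 χ) k (x / nn g) := by
    rw [AclF, hset, Finset.sum_image hinj]
    have h1 : ∀ w ∈ (PB (x / nn g)).filter P, (F (nn (g * w)) : ℂ) * ang k (g * w) =
        ((gl g : ℂ) * ang k g) * ((F (nn w) : ℂ) * ang k w) := by
      intro w hw
      rw [hgF w (prm_ne ((mem_PB.1 (Finset.mem_filter.1 hw).1).1)), ang_mul, gl]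
      push_cast
      ring
    rw [Finset.sum_congr rfl h1, ← Finset.mul_sum]
    congr 1
    rw [Finset.sum_filter]
    simp only [SmF, Finset.mul_sum]
    rw [Finset.sum_comm]
    refine Finset.sum_congr rfl fun w _ => ?_
    have h2 : (if P w then (F (nn w) : ℂ) * ang k w else 0) =
        φ (Ideal.Quotient.mk (Ideal.span {m₂}) w) * ((F (nn w) : ℂ) * ang k w) := by
      rw [hφ]
      split_ifs <;> simp
    rw [h2, hb2, Finset.sum_mul]
    refine Finset.sum_congr rfl fun χ _ => ?_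
    simp only [xi, cls_char]
    ring
  rw [hA, norm_mul]
  have hu : ‖(gl g : ℂ) * ang k g‖ ≤ 1 := by
    rw [norm_mul, Complex.norm_real, Real.norm_eq_abs]
    calc |gl g| * ‖ang k g‖ ≤ 1 * 1 := mul_le_mul (gl_abs g) (ang_le k g) (norm_nonneg _) zero_le_one
      _ = 1 := one_mul 1
  have hcinj : Function.Injective (fun χ : MulChar R ℂ => cls_char hm₂0 χ) := by
    intro χ χ' h
    have h1 : (cls_char hm₂0 χ).f = (cls_char hm₂0 χ').f := congrArg MChar.f h
    apply MulChar.ext'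
    intro r
    obtain ⟨w, rfl⟩ := Ideal.Quotient.mk_surjective r
    exact congrFun h1 w
  rw [Finset.sum_image (fun χ _ χ' _ h => hcinj h)]
  refine le_trans (mul_le_of_le_one_left (norm_nonneg _) hu) (le_trans (norm_sum_le _ _) ?_)
  refine Finset.sum_le_sum fun χ _ => ?_
  rw [norm_mul]
  exact mul_le_of_le_one_left (norm_nonneg _) (hb1 χ)

end Pool.Agent.TR

namespace Pool.Agent.TR

theorem cls_reduceF : type_of% @cls_reduceF_pr := @cls_reduceF_pr

end Pool.Agent.TR
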