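import Pool.Agent.Lib_helper97.TRL.M12
import Pool.Agent.Lib_helper97.TRL.M13
import Pool.Agent.Lib_helper10.T2F.HMO
import Pool.Agent.Lib_helper10.T2F.LSG
import Pool.Agent.Lib_helper10.T2F.MER
import Pool.Agent.Lib_helper10.T2F.MRT
import Pool.Agent.Lib_helper10.T2F.PEL
import Pool.Agent.Lib_helper10.T2F.PHM
import Pool.Agent.Lib_helper10.T2F.PTW
import Pool.Agent.Lib_helper10.T2F.SPA
import Pool.Agent.Lib_helper10.T2F.TJA
import Pool.Agent.Lib_helper10.T2F.TKA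
import Pool.Agent.Lib_helper10.T2F.TKR
import Pool.Agent.Lib_helper10.T2F.TKV
import Pool.Agent.Lib_helper10.T2F.UCD
import Pool.Agent.Lib_helper97.TRL.B19

set_option autoImplicit false

namespace Pool.Agent.TR

open Pool.Agent.T2 Pool.Agent.TF Filter Topology

theorem mr_classF_pr (m : ℕ) (hm : 1 ≤ m) (c : G) (z τ ρ ε : ℝ) (hz : 0 < z) (hτ : 0 < τ)
    (hρ : 0 < ρ) (hε : 0 < ε) :
    ∃ X₀ : ℝ, ∀ X : ℝ, X₀ ≤ X → ∀ F : ℕ → ℝ, Flip (X ^ ρ) F →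
      ∑ Y ∈ (Finset.Icc 1 ⌊X⌋₊).filter (fun Y : ℕ => X ^ τ ≤ (Y : ℝ)),
        (∑ k ∈ Ks (Y / X ^ τ), ‖AclF F m c k (z * Y)‖ ^ 2) / (Y : ℝ) ^ 3 ≤
          ε * Real.log X := by
  classical
  obtain ⟨m₂, r, s, hm₂, hr, hs⟩ := cls_reduceF m hm c
  set M : ℝ := (s.card : ℝ) + 1 with hM
  have hM0 : 0 < M := by positivity
  have hch := fun χ : MChar m₂ => mr_mainF hm₂ χ (z / r) τ ρ (ε / M ^ 2) (by positivity) hτ hρ
    (by positivity)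
  choose X₀ hX₀ using hch
  have hm0 : (0 : ℝ) ≤ (m : ℝ) := Nat.cast_nonneg m
  refine ⟨1 + ∑ χ ∈ s, |X₀ χ| + (m : ℝ) ^ (1 / ρ), fun X hX F hF => ?_⟩
  have hS0 : 0 ≤ ∑ χ ∈ s, |X₀ χ| := Finset.sum_nonneg fun χ _ => abs_nonneg _
  have hmr : 0 ≤ (m : ℝ) ^ (1 / ρ) := Real.rpow_nonneg hm0 _
  have hX1 : 1 ≤ X := by linarith
  have hmX : (m : ℝ) ≤ X ^ ρ := by
    have h1 : (m : ℝ) ^ (1 / ρ) ≤ X := by linarith
    have h2 := Real.rpow_le_rpow hmr h1 hρ.le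
    rwa [← Real.rpow_mul hm0, one_div_mul_cancel hρ.ne', Real.rpow_one] at h2
  have hlog := Real.log_nonneg hX1
  have hterm : ∀ Y ∈ (Finset.Icc 1 ⌊X⌋₊).filter (fun Y : ℕ => X ^ τ ≤ (Y : ℝ)),
      (∑ k ∈ Ks (Y / X ^ τ), ‖AclF F m c k (z * Y)‖ ^ 2) / (Y : ℝ) ^ 3 ≤
      M * ∑ χ ∈ s, (∑ k ∈ Ks (Y / X ^ τ), ‖SmF F χ k (z / r * Y)‖ ^ 2) / (Y : ℝ) ^ 3 := by
    intro Y _
    rw [← Finset.sum_div, ← mul_div_assoc]
    refine div_le_div_of_nonneg_right ?_ (by positivity)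
    rw [Finset.sum_comm, Finset.mul_sum]
    refine Finset.sum_le_sum fun k _ => ?_
    have h1 : z * Y / r = z / r * Y := by ring
    have h2 := hs (X ^ ρ) F hmX hF k (z * Y)
    rw [h1] at h2
    calc ‖AclF F m c k (z * Y)‖ ^ 2 ≤ (∑ χ ∈ s, ‖SmF F χ k (z / r * Y)‖) ^ 2 :=
          pow_le_pow_left₀ (norm_nonneg _) h2 2
      _ ≤ s.card * ∑ χ ∈ s, ‖SmF F χ k (z / r * Y)‖ ^ 2 := sq_sum_le_card_mul_sum_sq
      _ ≤ M * ∑ χ ∈ s, ‖SmF F χ k (z / r * Y)‖ ^ 2 := by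
          refine mul_le_mul_of_nonneg_right (by rw [hM]; linarith) ?_
          exact Finset.sum_nonneg fun χ _ => by positivity
  refine le_trans (Finset.sum_le_sum hterm) ?_
  rw [← Finset.mul_sum, Finset.sum_comm]
  have hsum : ∀ χ ∈ s, ∑ Y ∈ (Finset.Icc 1 ⌊X⌋₊).filter (fun Y : ℕ => X ^ τ ≤ (Y : ℝ)),
      (∑ k ∈ Ks (Y / X ^ τ), ‖SmF F χ k (z / r * Y)‖ ^ 2) / (Y : ℝ) ^ 3 ≤
        ε / M ^ 2 * Real.log X := by
    intro χ hχ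
    refine hX₀ χ X ?_ F hF
    have h1 : |X₀ χ| ≤ ∑ χ ∈ s, |X₀ χ| :=
      Finset.single_le_sum (f := fun χ => |X₀ χ|) (fun χ _ => abs_nonneg _) hχ
    linarith [le_abs_self (X₀ χ)]
  refine le_trans (mul_le_mul_of_nonneg_left (Finset.sum_le_sum hsum) hM0.le) ?_
  rw [Finset.sum_const, nsmul_eq_mul]
  have h3 : (s.card : ℝ) ≤ M := by rw [hM]; linarith
  calc M * ((s.card : ℝ) * (ε / M ^ 2 * Real.log X)) ≤ M * (M * (ε / M ^ 2 * Real.log X)) := by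
        refine mul_le_mul_of_nonneg_left (mul_le_mul_of_nonneg_right h3 ?_) hM0.le
        exact mul_nonneg (by positivity) hlog
    _ = ε * Real.log X := by field_simp



end Pool.Agent.TR

namespace Pool.Agent.TR

theorem mr_classF : type_of% @mr_classF_pr := @mr_classF_pr

end Pool.Agent.TR
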