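import Pool.Agent.Lib_helper97.TRL.CR5
import Pool.Agent.Lib_helper97.TRL.M14
import Pool.Agent.Lib_helper10.T2F.BAS
import Pool.Agent.Lib_helper10.T2F.BHS
import Pool.Agent.Lib_helper10.T2F.CLS
import Pool.Agent.Lib_helper18.TFF.C1
import Pool.Agent.Lib_helper18.TFF.C2
import Pool.Agent.Lib_helper18.TFF.C5
import Pool.Agent.Lib_helper18.TFF.C7
import Pool.Agent.Lib_helper97.TR.Defs

/-! # TR, block CR6: the variance of a slice, bounded coefficients -/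

set_option autoImplicit false
set_option maxHeartbeats 4000000

namespace Pool.Agent.TR

open Pool.Agent.T2 Pool.Agent.TF Filter Topology

theorem cr6_mr (M : ℕ) (hM : 1 ≤ M) (c : G) (a : ℝ) (ha : 0 ≤ a) {τ ρ ε : ℝ} (hτ : 0 < τ)
    (hρ : 0 < ρ) (hε : 0 < ε) :
    ∃ X₀ : ℝ, ∀ X : ℝ, X₀ ≤ X → ∀ F : ℕ → ℝ, Flip (X ^ ρ) F →
      ∑ Y ∈ (Finset.Icc 1 ⌊X⌋₊).filter (fun Y : ℕ => X ^ τ ≤ (Y : ℝ)),
        (∑ k ∈ Ks (Y / X ^ τ), ‖AclF F M c k (a * Y)‖ ^ 2) / (Y : ℝ) ^ 3 ≤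
          ε * Real.log X := by
  classical
  rcases ha.eq_or_lt with h | h
  · subst h
    refine ⟨1, fun X hX F _ => ?_⟩
    have h0 : ∀ (k : ℤ) (Y : ℕ), AclF F M c k (0 * (Y : ℝ)) = 0 := by
      intro k Y
      unfold AclF
      refine Finset.sum_eq_zero fun z hz => ?_
      exfalso
      have h1 := mem_PB.1 (Finset.mem_filter.1 hz).1
      have h2 : 0 < nn z := nn_pos.2 (prm_ne h1.1)
      have h3 : (1 : ℝ) ≤ nn z := by exact_mod_cast h2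
      have h4 := h1.2
      rw [zero_mul] at h4
      linarith
    have h5 : ∑ Y ∈ (Finset.Icc 1 ⌊X⌋₊).filter (fun Y : ℕ => X ^ τ ≤ (Y : ℝ)),
        (∑ k ∈ Ks (Y / X ^ τ), ‖AclF F M c k (0 * Y)‖ ^ 2) / (Y : ℝ) ^ 3 = 0 := by
      refine Finset.sum_eq_zero fun Y _ => ?_
      rw [Finset.sum_eq_zero, zero_div]
      intro k _
      rw [h0, norm_zero]
      norm_num
    rw [h5]
    exact mul_nonneg hε.le (Real.log_nonneg hX)
  · exact mr_classF M hM c a τ ρ ε h hτ hρ hε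

theorem cr6_split (F : ℕ → ℝ) (M : ℕ) (c : G) {a b Y : ℝ} (hab : a ≤ b) (hY : 0 ≤ Y) (k : ℤ) :
    ∑ w ∈ Slc M c a b Y, (F (nn w) : ℂ) * ang k w =
      AclF F M c k (b * Y) - AclF F M c k (a * Y) := by
  classical
  have h1 : (PB (b * Y)).filter (fun z => (M : G) ∣ z - c) =
      Slc M c a b Y ∪ (PB (a * Y)).filter (fun z => (M : G) ∣ z - c) := by
    ext z
    unfold Slc
    rw [Finset.mem_union, Finset.mem_filter, Finset.mem_filter, Finset.mem_filter, mem_PB, mem_PB]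
    constructor
    · rintro ⟨⟨h1, h2⟩, h3⟩
      by_cases h : a * Y < (nn z : ℝ)
      · exact Or.inl ⟨⟨h1, h2⟩, h, h3⟩
      · exact Or.inr ⟨⟨h1, not_lt.1 h⟩, h3⟩
    · rintro (⟨⟨h1, h2⟩, -, h3⟩ | ⟨⟨h1, h2⟩, h3⟩)
      · exact ⟨⟨h1, h2⟩, h3⟩
      · exact ⟨⟨h1, h2.trans (mul_le_mul_of_nonneg_right hab hY)⟩, h3⟩
  have h2 : Disjoint (Slc M c a b Y) ((PB (a * Y)).filter (fun z => (M : G) ∣ z - c)) := by
    rw [Finset.disjoint_left]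
    intro z hz hz'
    unfold Slc at hz
    have h3 := (Finset.mem_filter.1 hz).2.1
    have h4 := (mem_PB.1 (Finset.mem_filter.1 hz').1).2
    linarith
  have h3 : AclF F M c k (b * Y) = ∑ w ∈ Slc M c a b Y, (F (nn w) : ℂ) * ang k w +
      AclF F M c k (a * Y) := by
    unfold AclF
    rw [h1, Finset.sum_union h2]
  rw [h3]
  ring

theorem cr6_one (M : ℕ) (c : G) (a b : ℝ) (ha : 0 ≤ a) (hab : a < b) :
    ∃ C : ℝ, 1 ≤ C ∧ ∀ (F : ℕ → ℝ) (D k Z : ℝ) (Y : ℕ), (∀ n, |F n| ≤ 1) → 1 ≤ D → 0 < k →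
      k ≤ 1 → 1 ≤ Z → D * Z ≤ k * Y →
      SVF F (Slc M c a b Y) k / (k * (Y : ℝ) ^ 3) ≤
        4 * ((∑ l ∈ Ks (Y / Z), ‖AclF F M c l (b * Y)‖ ^ 2) / (Y : ℝ) ^ 3 +
          (∑ l ∈ Ks (Y / Z), ‖AclF F M c l (a * Y)‖ ^ 2) / (Y : ℝ) ^ 3) +
        C / D ^ 2 * (1 / (Y : ℝ)) := by
  classical
  obtain ⟨C, hC, hs⟩ := hat_sumF
  have hb : 0 < b := lt_of_le_of_lt ha hab
  refine ⟨C * (2 * (1 + b) ^ 2), ?_, fun F D k Z Y hF hD hk hk1 hZ hDZ => ?_⟩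
  · have h1 : 1 ≤ 2 * (1 + b) ^ 2 := by nlinarith
    nlinarith
  have hD0 : 0 < D := by linarith
  have hDk : D ≤ k * Y := by nlinarith
  have hY0 : (0 : ℝ) < Y := by
    by_contra h
    have h1 : k * (Y : ℝ) ≤ 0 := mul_nonpos_of_nonneg_of_nonpos hk.le (not_lt.1 h)
    linarith
  have hY1 : (1 : ℝ) ≤ Y := by
    have : 0 < Y := by exact_mod_cast hY0
    exact_mod_cast this
  have hZ0 : 0 < Z := by linarith
  have hK : 1 ≤ D / k := by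
    rw [le_div_iff₀ hk]
    linarith
  have hKZ : D / k ≤ (Y : ℝ) / Z := by
    rw [div_le_div_iff₀ hk hZ0]
    linarith
  set Y₁ : ℝ := max 1 (b * Y) with hY₁
  have hsub : Slc M c a b Y ⊆ PB Y₁ := by
    intro z hz
    unfold Slc at hz
    have h1 := mem_PB.1 (Finset.mem_filter.1 hz).1
    exact mem_PB.2 ⟨h1.1, h1.2.trans (le_max_right _ _)⟩
  have hY₁0 : 0 < Y₁ := lt_of_lt_of_le one_pos (le_max_left _ _)
  have hY₁le : Y₁ ≤ (1 + b) * Y := by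
    refine max_le ?_ ?_
    · nlinarith
    · nlinarith
  have h1 := hs F Y₁ (D / k) k (Slc M c a b Y) hF (le_max_left _ _) hK hk hk1 hsub
  have h3 : ∀ l : ℤ, ‖∑ w ∈ Slc M c a b Y, (F (nn w) : ℂ) * ang l w‖ ^ 2 ≤
      2 * (‖AclF F M c l (b * Y)‖ ^ 2 + ‖AclF F M c l (a * Y)‖ ^ 2) := by
    intro l
    rw [cr6_split F M c hab.le hY0.le l]
    have h4 := norm_sub_le (AclF F M c l (b * Y)) (AclF F M c l (a * Y))
    have h5 := norm_nonneg (AclF F M c l (b * Y) - AclF F M c l (a * Y))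
    nlinarith [sq_nonneg (‖AclF F M c l (b * Y)‖ - ‖AclF F M c l (a * Y)‖),
      norm_nonneg (AclF F M c l (b * Y)), norm_nonneg (AclF F M c l (a * Y))]
  have h4 : 2 * k * ∑ l ∈ Ks (D / k), ‖∑ w ∈ Slc M c a b Y, (F (nn w) : ℂ) * ang l w‖ ^ 2 ≤
      k * (4 * (∑ l ∈ Ks (Y / Z), ‖AclF F M c l (b * Y)‖ ^ 2 +
        ∑ l ∈ Ks (Y / Z), ‖AclF F M c l (a * Y)‖ ^ 2)) := by
    have e1 : ∑ l ∈ Ks (D / k), ‖∑ w ∈ Slc M c a b Y, (F (nn w) : ℂ) * ang l w‖ ^ 2 ≤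
        ∑ l ∈ Ks (Y / Z), ‖∑ w ∈ Slc M c a b Y, (F (nn w) : ℂ) * ang l w‖ ^ 2 := by
      refine Finset.sum_le_sum_of_subset_of_nonneg ?_ fun _ _ _ => by positivity
      intro l hl
      rw [mem_Ks] at hl ⊢
      exact hl.trans hKZ
    have e2 : ∑ l ∈ Ks (Y / Z), ‖∑ w ∈ Slc M c a b Y, (F (nn w) : ℂ) * ang l w‖ ^ 2 ≤
        2 * (∑ l ∈ Ks (Y / Z), ‖AclF F M c l (b * Y)‖ ^ 2 +
        ∑ l ∈ Ks (Y / Z), ‖AclF F M c l (a * Y)‖ ^ 2) := by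
      rw [← Finset.sum_add_distrib, Finset.mul_sum]
      exact Finset.sum_le_sum fun l _ => h3 l
    have e3 := mul_le_mul_of_nonneg_left (e1.trans e2) (by positivity : 0 ≤ 2 * k)
    refine e3.trans (le_of_eq ?_)
    ring
  have h5 : C * (1 / (k * (D / k)) + Y₁ / (k * (D / k) ^ 2)) * Y₁ ≤
      C * (2 * (1 + b) ^ 2) / D ^ 2 * (k * (Y : ℝ) ^ 2) := by
    have e0 : C * (1 / (k * (D / k)) + Y₁ / (k * (D / k) ^ 2)) * Y₁ =
        C / D ^ 2 * (D * Y₁ + k * Y₁ ^ 2) := by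
      field_simp
    rw [e0]
    have e1 : D * Y₁ ≤ (k * Y) * ((1 + b) * Y) :=
      mul_le_mul hDk hY₁le hY₁0.le (by positivity)
    have e2 : k * Y₁ ^ 2 ≤ k * ((1 + b) * Y) ^ 2 :=
      mul_le_mul_of_nonneg_left (pow_le_pow_left₀ hY₁0.le hY₁le 2) hk.le
    have e3 : (k * Y) * ((1 + b) * Y) ≤ k * ((1 + b) * Y) ^ 2 := by
      have e4 : (1 + b) ≤ (1 + b) ^ 2 := by nlinarith
      calc (k * Y) * ((1 + b) * Y) = k * (Y : ℝ) ^ 2 * (1 + b) := by ring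
        _ ≤ k * (Y : ℝ) ^ 2 * (1 + b) ^ 2 := mul_le_mul_of_nonneg_left e4 (by positivity)
        _ = k * ((1 + b) * Y) ^ 2 := by ring
    calc C / D ^ 2 * (D * Y₁ + k * Y₁ ^ 2) ≤ C / D ^ 2 * (2 * (k * ((1 + b) * Y) ^ 2)) :=
          mul_le_mul_of_nonneg_left (by linarith) (by positivity)
      _ = C * (2 * (1 + b) ^ 2) / D ^ 2 * (k * (Y : ℝ) ^ 2) := by ring
  have h6 : SVF F (Slc M c a b Y) k ≤ k * (4 * (∑ l ∈ Ks (Y / Z), ‖AclF F M c l (b * Y)‖ ^ 2 +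
        ∑ l ∈ Ks (Y / Z), ‖AclF F M c l (a * Y)‖ ^ 2)) +
      C * (2 * (1 + b) ^ 2) / D ^ 2 * (k * (Y : ℝ) ^ 2) := by linarith
  have h7 : 0 < k * (Y : ℝ) ^ 3 := by positivity
  rw [div_le_iff₀ h7]
  refine h6.trans (le_of_eq ?_)
  field_simp

theorem cr6_harm {X : ℝ} (hX : 1 ≤ X) :
    ∑ Y ∈ Finset.Icc 1 ⌊X⌋₊, 1 / (Y : ℝ) ≤ 1 + Real.log X := by
  have h := harmonic_floor_le_one_add_log X hX
  refine le_trans (le_of_eq ?_) h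
  rw [harmonic_eq_sum_Icc]
  push_cast
  refine Finset.sum_congr rfl fun Y _ => ?_
  rw [one_div]

theorem slice_varF_pr (M : ℕ) (hM : 1 ≤ M) (c : G) (a b : ℝ) (ha : 0 ≤ a) (hab : a < b)
    {τ ρ ε : ℝ} (hτ : 0 < τ) (hρ : 0 < ρ) (hε : 0 < ε) : ∃ X₀ : ℝ, ∀ X : ℝ, X₀ ≤ X →
      ∀ F : ℕ → ℝ, Flip (X ^ ρ) F → ∀ k : ℝ, 0 < k → k ≤ 1 →
      ∑ Y ∈ (Finset.Icc 1 ⌊X⌋₊).filter (fun Y : ℕ => X ^ τ ≤ k * Y),
        SVF F (Slc M c a b Y) k / (k * (Y : ℝ) ^ 3) ≤ ε * Real.log X := by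
  have hb : 0 ≤ b := ha.trans hab.le
  obtain ⟨X₁, h₁⟩ := cr6_mr M hM c b hb (τ := τ / 2) (ρ := ρ) (ε := ε / 16) (by positivity) hρ
    (by positivity)
  obtain ⟨X₂, h₂⟩ := cr6_mr M hM c a ha (τ := τ / 2) (ρ := ρ) (ε := ε / 16) (by positivity) hρ
    (by positivity)
  obtain ⟨C, hC, hone⟩ := cr6_one M c a b ha hab
  set D : ℝ := 1 + 4 * C / ε with hD
  have hD1 : 1 ≤ D := by
    have : 0 ≤ 4 * C / ε := by positivity
    linarith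
  have hD0 : 0 < D := by linarith
  have hCD : C / D ^ 2 ≤ ε / 4 := by
    rw [div_le_iff₀ (by positivity)]
    have e1 : D ≤ D ^ 2 := by nlinarith
    have e2 : 4 * C / ε ≤ D := by linarith
    have e3 : 4 * C ≤ D * ε := by rwa [div_le_iff₀ hε] at e2
    have e4 : ε / 4 * D ≤ ε / 4 * D ^ 2 := mul_le_mul_of_nonneg_left e1 (by positivity)
    linarith
  obtain ⟨X₃, hX₃⟩ := (tendsto_rpow_atTop (show (0 : ℝ) < τ / 2 by positivity)).eventually_ge_atTop D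
    |>.exists_forall_of_atTop
  refine ⟨max (max X₁ X₂) (max X₃ (Real.exp 1)), fun X hX F hF k hk hk1 => ?_⟩
  have hX₁ : X₁ ≤ X := (le_max_left _ _).trans ((le_max_left _ _).trans hX)
  have hX₂ : X₂ ≤ X := (le_max_right _ _).trans ((le_max_left _ _).trans hX)
  have hXD : D ≤ X ^ (τ / 2) := hX₃ X ((le_max_left _ _).trans ((le_max_right _ _).trans hX))
  have hXe : Real.exp 1 ≤ X := (le_max_right _ _).trans ((le_max_right _ _).trans hX)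
  have hX0 : 0 < X := lt_of_lt_of_le (Real.exp_pos _) hXe
  have hX1 : 1 ≤ X := (Real.one_le_exp zero_le_one).trans hXe
  have hlog : 1 ≤ Real.log X := by
    rw [Real.le_log_iff_exp_le hX0]
    exact hXe
  have hZ1 : 1 ≤ X ^ (τ / 2) := hD1.trans hXD
  have hZ0 : 0 < X ^ (τ / 2) := by linarith
  have hZZ : X ^ (τ / 2) * X ^ (τ / 2) = X ^ τ := by
    rw [← Real.rpow_add hX0]
    congr 1
    ring
  have hfil : (Finset.Icc 1 ⌊X⌋₊).filter (fun Y : ℕ => X ^ τ ≤ k * Y) ⊆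
      (Finset.Icc 1 ⌊X⌋₊).filter (fun Y : ℕ => X ^ (τ / 2) ≤ (Y : ℝ)) := by
    intro Y hY
    rw [Finset.mem_filter] at hY ⊢
    refine ⟨hY.1, ?_⟩
    have e1 : X ^ (τ / 2) ≤ X ^ τ := by rw [← hZZ]; nlinarith
    have e2 : k * (Y : ℝ) ≤ Y := by
      have : (0 : ℝ) ≤ Y := Nat.cast_nonneg Y
      nlinarith
    exact e1.trans (hY.2.trans e2)
  have hsub : ∀ d : ℝ, ∑ Y ∈ (Finset.Icc 1 ⌊X⌋₊).filter (fun Y : ℕ => X ^ τ ≤ k * Y),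
        (∑ l ∈ Ks (Y / X ^ (τ / 2)), ‖AclF F M c l (d * Y)‖ ^ 2) / (Y : ℝ) ^ 3 ≤
      ∑ Y ∈ (Finset.Icc 1 ⌊X⌋₊).filter (fun Y : ℕ => X ^ (τ / 2) ≤ (Y : ℝ)),
        (∑ l ∈ Ks (Y / X ^ (τ / 2)), ‖AclF F M c l (d * Y)‖ ^ 2) / (Y : ℝ) ^ 3 := by
    intro d
    refine Finset.sum_le_sum_of_subset_of_nonneg hfil ?_
    intro Y _ _
    positivity
  have hharm : ∑ Y ∈ (Finset.Icc 1 ⌊X⌋₊).filter (fun Y : ℕ => X ^ τ ≤ k * Y), 1 / (Y : ℝ) ≤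
      1 + Real.log X := by
    refine le_trans ?_ (cr6_harm hX1)
    refine Finset.sum_le_sum_of_subset_of_nonneg (Finset.filter_subset _ _) ?_
    intro Y _ _
    positivity
  calc ∑ Y ∈ (Finset.Icc 1 ⌊X⌋₊).filter (fun Y : ℕ => X ^ τ ≤ k * Y),
        SVF F (Slc M c a b Y) k / (k * (Y : ℝ) ^ 3)
      ≤ ∑ Y ∈ (Finset.Icc 1 ⌊X⌋₊).filter (fun Y : ℕ => X ^ τ ≤ k * Y),
        (4 * ((∑ l ∈ Ks (Y / X ^ (τ / 2)), ‖AclF F M c l (b * Y)‖ ^ 2) / (Y : ℝ) ^ 3 +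
          (∑ l ∈ Ks (Y / X ^ (τ / 2)), ‖AclF F M c l (a * Y)‖ ^ 2) / (Y : ℝ) ^ 3) +
        C / D ^ 2 * (1 / (Y : ℝ))) := by
        refine Finset.sum_le_sum fun Y hY => hone F D k (X ^ (τ / 2)) Y hF.bd hD1 hk hk1 hZ1 ?_
        refine le_trans ?_ (Finset.mem_filter.1 hY).2
        rw [← hZZ]
        exact mul_le_mul_of_nonneg_right hXD hZ0.le
    _ = 4 * (∑ Y ∈ (Finset.Icc 1 ⌊X⌋₊).filter (fun Y : ℕ => X ^ τ ≤ k * Y),
          (∑ l ∈ Ks (Y / X ^ (τ / 2)), ‖AclF F M c l (b * Y)‖ ^ 2) / (Y : ℝ) ^ 3 +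
          ∑ Y ∈ (Finset.Icc 1 ⌊X⌋₊).filter (fun Y : ℕ => X ^ τ ≤ k * Y),
          (∑ l ∈ Ks (Y / X ^ (τ / 2)), ‖AclF F M c l (a * Y)‖ ^ 2) / (Y : ℝ) ^ 3) +
        C / D ^ 2 * ∑ Y ∈ (Finset.Icc 1 ⌊X⌋₊).filter (fun Y : ℕ => X ^ τ ≤ k * Y),
          1 / (Y : ℝ) := by
        rw [Finset.sum_add_distrib, ← Finset.mul_sum, ← Finset.mul_sum, Finset.sum_add_distrib]
    _ ≤ 4 * (ε / 16 * Real.log X + ε / 16 * Real.log X) + ε / 4 * (1 + Real.log X) := by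
        refine add_le_add (mul_le_mul_of_nonneg_left (add_le_add ?_ ?_) (by norm_num)) ?_
        · exact (hsub b).trans (h₁ X hX₁ F hF)
        · exact (hsub a).trans (h₂ X hX₂ F hF)
        · refine mul_le_mul hCD hharm ?_ (by positivity)
          refine Finset.sum_nonneg fun Y _ => ?_
          positivity
    _ ≤ ε * Real.log X := by
        have e1 : ε / 4 * (1 + Real.log X) ≤ ε / 4 * (2 * Real.log X) :=
          mul_le_mul_of_nonneg_left (by linarith) (by positivity)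
        linarith



end Pool.Agent.TR

namespace Pool.Agent.TR

theorem slice_varF : type_of% @slice_varF_pr := @slice_varF_pr

end Pool.Agent.TR
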