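import Pool.Agent.Lib_helper97.TRL.CR5
import Pool.Agent.Lib_helper97.TRL.CR6
import Pool.Agent.Lib_helper18.TFF.C1
import Pool.Agent.Lib_helper10.T2F.BAS
import Pool.Agent.Lib_helper10.T2F.BHS
import Pool.Agent.Lib_helper10.T2F.CLS
import Pool.Agent.Lib_helper18.TFF.C2
import Pool.Agent.Lib_helper18.TFF.C5
import Pool.Agent.Lib_helper18.TFF.C7
import Pool.Agent.Lib_helper97.TR.Defs

/-! TR, block CR7: the choice of the scales (adapted from the TF block C9 of helper16). -/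

set_option autoImplicit false

namespace Pool.Agent.TR

open Pool.Agent.T2 Pool.Agent.TF Filter Topology

theorem cr7_ne_zero {M : ℕ} {c : G} {N g b : ℕ} {Y : ℝ} {w : G} (hw : w ∈ Sl M c N g b Y) :
    w ≠ 0 := by
  classical
  unfold Sl Slc PB Bl at hw
  simp only [Finset.mem_filter] at hw
  exact hw.1.1.2.1

theorem cr7_single {ι : Type} (I : Finset ι) (F : ι → ℝ) (h : ∀ i, 0 ≤ F i) (i : ι)
    (hi : i ∈ I) : F i ≤ ∑ i ∈ I, F i :=
  Finset.single_le_sum (f := F) (fun j _ => h j) hi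

/-- the minimum over a dyadic interval is at most the logarithmic mean -/
theorem cr7_min (V : ℕ → ℝ) (hV : ∀ y, 0 ≤ V y) {X1 : ℝ} (hX1 : 2 ≤ X1) (S : Finset ℕ)
    (hS : ∀ y : ℕ, X1 ≤ (y : ℝ) → (y : ℝ) < 2 * X1 → y ∈ S)
    (hS' : ∀ y ∈ S, X1 ≤ (y : ℝ) ∧ (y : ℝ) < 2 * X1) :
    ∃ y : ℕ, X1 ≤ (y : ℝ) ∧ (y : ℝ) ≤ 2 * X1 ∧ V y ≤ 4 * ∑ y ∈ S, V y / y := by
  have hX0 : 0 < X1 := by linarith
  have hsub : Finset.Ico ⌈X1⌉₊ ⌈2 * X1⌉₊ ⊆ S := by
    intro y hy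
    rw [Finset.mem_Ico] at hy
    exact hS y (Nat.le_of_ceil_le hy.1) (Nat.lt_ceil.1 hy.2)
  have hcard : X1 / 2 ≤ (S.card : ℝ) := by
    have h1 : (Finset.Ico ⌈X1⌉₊ ⌈2 * X1⌉₊).card ≤ S.card := Finset.card_le_card hsub
    rw [Nat.card_Ico] at h1
    have h2 : (⌈2 * X1⌉₊ : ℝ) ≤ (S.card : ℝ) + ⌈X1⌉₊ := by
      have : ⌈2 * X1⌉₊ ≤ S.card + ⌈X1⌉₊ := by omega
      exact_mod_cast this
    have h3 : 2 * X1 ≤ (⌈2 * X1⌉₊ : ℝ) := Nat.le_ceil _
    have h4 : (⌈X1⌉₊ : ℝ) < X1 + 1 := Nat.ceil_lt_add_one hX0.le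
    linarith
  have hne : S.Nonempty := by
    rw [← Finset.card_pos]
    have : (0 : ℝ) < S.card := by linarith
    exact_mod_cast this
  obtain ⟨y, hy, hmin⟩ := Finset.exists_min_image S V hne
  refine ⟨y, (hS' y hy).1, (hS' y hy).2.le, ?_⟩
  have h1 : (S.card : ℝ) * V y ≤ ∑ z ∈ S, V z := by
    rw [← nsmul_eq_mul]
    exact Finset.card_nsmul_le_sum S V (V y) hmin
  have h2 : ∑ z ∈ S, V z ≤ 2 * X1 * ∑ z ∈ S, V z / z := by
    rw [Finset.mul_sum]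
    refine Finset.sum_le_sum fun z hz => ?_
    have hz1 := (hS' z hz).1
    have hz2 := (hS' z hz).2
    have hz0 : (0 : ℝ) < z := by linarith
    rw [mul_div_assoc', le_div_iff₀ hz0]
    nlinarith [hV z]
  have h3 : X1 / 2 * V y ≤ (S.card : ℝ) * V y := mul_le_mul_of_nonneg_right hcard (hV y)
  have h4 : X1 / 2 * V y ≤ X1 / 2 * (4 * ∑ z ∈ S, V z / z) := by
    calc X1 / 2 * V y ≤ 2 * X1 * ∑ z ∈ S, V z / z := by linarith
      _ = X1 / 2 * (4 * ∑ z ∈ S, V z / z) := by ring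
  exact le_of_mul_le_mul_left h4 (by linarith)

theorem cr7_flip_mono {R R' : ℝ} (h : R' ≤ R) {F : ℕ → ℝ} (hF : Flip R F) : Flip R' F :=
  ⟨hF.bd, fun p n hp hpR hn => hF.flip p n hp (le_trans hpR h) hn⟩

theorem choose_scaleR_pr {β τ ρ : ℝ} (hτ : 0 < τ) (hβ : 2 * τ < β) (hβ1 : β < 1) (hρ : 0 < ρ)
    (M N : ℕ) (hM : 1 ≤ M) (hN : 1 ≤ N) {ε : ℝ} (hε : 0 < ε) : ∃ x₀ : ℝ, ∀ x : ℝ, x₀ ≤ x →
      ∀ F : ℕ → ℝ, Flip (x ^ ρ) F →
      ∃ (Y' : ℕ → ℕ) (v : ℕ → ℝ), (∀ j, x ^ 2 / YY β τ x j ≤ (Y' j : ℝ) ∧ 0 ≤ v j) ∧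
        (∀ j, j < JJ β τ x → (Y' j : ℝ) ≤ 2 * x ^ 2 / YY β τ x j) ∧
        ∑ j ∈ Finset.range (JJ β τ x), v j ≤ ε * Real.log x ∧
        ∀ j, j < JJ β τ x → ∀ c ∈ Cls M, ∀ b ∈ Finset.Icc 1 (2 * N),
          SVF F (Sl M c N 1 b (Y' j)) (x ^ β / (N * x)) ≤
            v j * (x ^ β / (N * x)) * (Y' j : ℝ) ^ 2 := by
  classical
  have hNR : (1 : ℝ) ≤ N := by exact_mod_cast hN
  set I : Finset (G × ℕ) := Cls M ×ˢ Finset.Icc 1 (2 * N) with hI
  set ε' : ℝ := ε / (12 * (I.card + 1)) with hε'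
  have hcard0 : (0 : ℝ) ≤ I.card := by positivity
  have hε'0 : 0 < ε' := by positivity
  have hvar : ∀ i : G × ℕ, ∃ X₀ : ℝ, (i ∈ I → ∀ X : ℝ, X₀ ≤ X → ∀ F : ℕ → ℝ,
      Flip (X ^ (ρ / 3)) F → ∀ k : ℝ, 0 < k →
      k ≤ 1 → ∑ Y ∈ (Finset.Icc 1 ⌊X⌋₊).filter (fun Y : ℕ => X ^ (τ / 4) ≤ k * Y),
        SVF F (Sl M i.1 N 1 i.2 Y) k / (k * (Y : ℝ) ^ 3) ≤ ε' * Real.log X) := by
    intro i
    by_cases hi : i ∈ I
    · have hi' := hi
      rw [hI, Finset.mem_product] at hi'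
      have hb : 1 ≤ i.2 := (Finset.mem_Icc.1 hi'.2).1
      have hbR : (1 : ℝ) ≤ i.2 := by exact_mod_cast hb
      have hd : (0 : ℝ) < (N : ℝ) * ((1 : ℕ) : ℝ) ^ 2 := by positivity
      obtain ⟨X₀, h⟩ := slice_varF M hM i.1 (((i.2 : ℝ) - 1) / (N * ((1 : ℕ) : ℝ) ^ 2))
        ((i.2 : ℝ) / (N * ((1 : ℕ) : ℝ) ^ 2)) (div_nonneg (by linarith) hd.le)
        (div_lt_div_of_pos_right (by linarith) hd) (τ := τ / 4) (ρ := ρ / 3)
        (by linarith) (by linarith) hε'0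
      exact ⟨X₀, fun _ X hX F hF k hk hk1 => h X hX F hF k hk hk1⟩
    · exact ⟨0, fun h => absurd h hi⟩
  choose X₀ hsv using hvar
  set XX : ℝ := ∑ i ∈ I, |X₀ i| with hXX
  have hXi : ∀ i ∈ I, X₀ i ≤ XX := by
    intro i hi
    have : |X₀ i| ≤ ∑ i ∈ I, |X₀ i| :=
      Finset.single_le_sum (f := fun i => |X₀ i|) (fun j _ => abs_nonneg _) hi
    linarith [le_abs_self (X₀ i)]
  -- large x
  have hlim1 : ∀ᶠ x : ℝ in atTop, (N : ℝ) ≤ x ^ (β + τ / 4) :=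
    (tendsto_rpow_atTop (by linarith)).eventually_ge_atTop _
  have hlim2 : ∀ᶠ x : ℝ in atTop, 2 ≤ x ^ (1 + τ) :=
    (tendsto_rpow_atTop (by linarith)).eventually_ge_atTop _
  have hlim3 : ∀ᶠ x : ℝ in atTop, XX ≤ x := eventually_ge_atTop _
  have hlim4 : ∀ᶠ x : ℝ in atTop, 2 ≤ x := eventually_ge_atTop _
  obtain ⟨x₀, hx₀⟩ := ((hlim1.and hlim2).and (hlim3.and hlim4)).exists_forall_of_atTop
  refine ⟨x₀, fun x hx F hF => ?_⟩
  obtain ⟨⟨hx1, hx2⟩, hx3, hx4⟩ := hx₀ x hx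
  have hxpos : 0 < x := by linarith
  have hx1' : 1 ≤ x := by linarith
  obtain ⟨hs1, hs2, hs3, hs4, hs5⟩ := scales hτ hβ hβ1 hx1'
  set k : ℝ := x ^ β / (N * x) with hk
  have hxβ : 0 < x ^ β := Real.rpow_pos_of_pos hxpos _
  have hk0 : 0 < k := by positivity
  have hxβx : x ^ β ≤ x := by
    calc x ^ β ≤ x ^ (1 : ℝ) := Real.rpow_le_rpow_of_exponent_le hx1' hβ1.le
      _ = x := Real.rpow_one x
  have hk1 : k ≤ 1 := by
    rw [hk, div_le_one (by positivity)]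
    nlinarith
  have hYpos : ∀ j, 0 < YY β τ x j := fun j =>
    lt_of_lt_of_le (Real.rpow_pos_of_pos hxpos _) (hs2 j)
  have hY1 : ∀ j, 1 ≤ YY β τ x j := fun j =>
    le_trans (Real.one_le_rpow hx1' (by linarith)) (hs2 j)
  have hYmono : ∀ j j', j < j' → 2 * YY β τ x j ≤ YY β τ x j' := by
    intro j j' hjj
    unfold YY
    have h1 : (2 : ℝ) ^ (j + 1) ≤ 2 ^ j' := pow_le_pow_right₀ (by norm_num) hjj
    have h2 : 0 < x ^ (1 - β + τ) := Real.rpow_pos_of_pos hxpos _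
    calc 2 * (2 ^ j * x ^ (1 - β + τ)) = 2 ^ (j + 1) * x ^ (1 - β + τ) := by ring
      _ ≤ _ := mul_le_mul_of_nonneg_right h1 h2.le
  -- X1
  set X1 : ℕ → ℝ := fun j => x ^ 2 / YY β τ x j with hX1
  have hX1big : ∀ j, j < JJ β τ x → x ^ (1 + τ) ≤ X1 j := by
    intro j hj
    have h1 := hs3 j hj.le
    rw [hX1]
    simp only
    rw [le_div_iff₀ (hYpos j)]
    calc x ^ (1 + τ) * YY β τ x j ≤ x ^ (1 + τ) * x ^ (1 - τ) :=
          mul_le_mul_of_nonneg_left h1 (Real.rpow_nonneg hxpos.le _)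
      _ = x ^ 2 := by
          rw [← Real.rpow_add hxpos, ← Real.rpow_natCast x 2]
          congr 1
          push_cast
          ring
  set X : ℝ := 2 * x ^ 2 with hX
  have hX3 : X ≤ x ^ (3 : ℝ) := by
    have h1 : x ^ (3 : ℝ) = x ^ 3 := by
      rw [← Real.rpow_natCast x 3]
      norm_num
    rw [h1, hX]
    nlinarith [sq_nonneg x]
  have hX0 : 0 ≤ X := by rw [hX]; positivity
  have hXpow : ∀ t : ℝ, 0 ≤ t → X ^ t ≤ x ^ (3 * t) := fun t ht => by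
    calc X ^ t ≤ (x ^ (3 : ℝ)) ^ t := Real.rpow_le_rpow hX0 hX3 ht
      _ = x ^ (3 * t) := by rw [← Real.rpow_mul hxpos.le]
  have hFX : Flip (X ^ (ρ / 3)) F := by
    refine cr7_flip_mono ?_ hF
    refine le_trans (hXpow (ρ / 3) (by linarith)) (le_of_eq ?_)
    congr 1
    ring
  have hXk : X ^ (τ / 4) ≤ x ^ (β + τ) / N := by
    rw [le_div_iff₀ (by linarith)]
    calc X ^ (τ / 4) * N ≤ x ^ (3 * (τ / 4)) * x ^ (β + τ / 4) :=
          mul_le_mul (hXpow _ (by linarith)) hx1 (by linarith) (Real.rpow_nonneg hxpos.le _)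
      _ = x ^ (β + τ) := by
          rw [← Real.rpow_add hxpos]
          congr 1
          ring
  -- the quantity V
  set V : ℕ → ℝ := fun y => ∑ i ∈ I, SVF F (Sl M i.1 N 1 i.2 y) k / (k * (y : ℝ) ^ 2) with hV
  have hSV0 : ∀ (i : G × ℕ) (y : ℕ), 0 ≤ SVF F (Sl M i.1 N 1 i.2 y) k := fun i y =>
    svF_nonneg F _ (fun w hw => cr7_ne_zero hw) hk0 hk1
  have hV0 : ∀ y, 0 ≤ V y := fun y =>
    Finset.sum_nonneg fun i _ => div_nonneg (hSV0 i y) (by positivity)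
  have hVle : ∀ (y : ℕ) (i : G × ℕ), i ∈ I →
      SVF F (Sl M i.1 N 1 i.2 y) k / (k * (y : ℝ) ^ 2) ≤ V y := fun y i hi =>
    cr7_single I (fun i => SVF F (Sl M i.1 N 1 i.2 y) k / (k * (y : ℝ) ^ 2))
      (fun i => div_nonneg (hSV0 i y) (by positivity)) i hi
  -- the sets
  set S : ℕ → Finset ℕ := fun j => (Finset.Icc 1 ⌊X⌋₊).filter
    (fun y : ℕ => X1 j ≤ (y : ℝ) ∧ (y : ℝ) < 2 * X1 j) with hSdef
  have hX1le : ∀ j, 2 * X1 j ≤ X := by
    intro j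
    rw [hX1, hX]
    simp only
    have : x ^ 2 / YY β τ x j ≤ x ^ 2 := div_le_self (by positivity) (hY1 j)
    linarith
  have hsel : ∀ j, j < JJ β τ x → ∃ y : ℕ, X1 j ≤ (y : ℝ) ∧ (y : ℝ) ≤ 2 * X1 j ∧
      V y ≤ 4 * ∑ y ∈ S j, V y / y := by
    intro j hj
    have h2 : 2 ≤ X1 j := le_trans hx2 (hX1big j hj)
    refine cr7_min V hV0 h2 (S j) ?_ ?_
    · intro y hy1 hy2
      rw [hSdef]
      simp only [Finset.mem_filter, Finset.mem_Icc]
      refine ⟨⟨?_, ?_⟩, hy1, hy2⟩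
      · have : (1 : ℝ) ≤ y := by linarith
        exact_mod_cast this
      · exact Nat.le_floor (by linarith [hX1le j])
    · intro y hy
      rw [hSdef] at hy
      simp only [Finset.mem_filter] at hy
      exact hy.2
  have hsel' : ∀ j, ∃ y : ℕ, X1 j ≤ (y : ℝ) ∧ (j < JJ β τ x → (y : ℝ) ≤ 2 * X1 j ∧
      V y ≤ 4 * ∑ y ∈ S j, V y / y) := by
    intro j
    by_cases hj : j < JJ β τ x
    · obtain ⟨y, h1, h2, h3⟩ := hsel j hj
      exact ⟨y, h1, fun _ => ⟨h2, h3⟩⟩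
    · exact ⟨⌈X1 j⌉₊, Nat.le_ceil _, fun h => absurd h hj⟩
  choose Y' hY'1 hY'2 using hsel'
  refine ⟨Y', fun j => V (Y' j), fun j => ⟨hY'1 j, hV0 _⟩, ?_, ?_, ?_⟩
  · intro j hj
    have := (hY'2 j hj).1
    rw [hX1] at this
    simp only at this
    rw [mul_div_assoc]
    exact this
  · -- the sum
    have h1 : ∑ j ∈ Finset.range (JJ β τ x), V (Y' j) ≤
        ∑ j ∈ Finset.range (JJ β τ x), 4 * ∑ y ∈ S j, V y / y :=
      Finset.sum_le_sum fun j hj => (hY'2 j (Finset.mem_range.1 hj)).2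
    have hdisj : (↑(Finset.range (JJ β τ x)) : Set ℕ).PairwiseDisjoint S := by
      intro j _ j' _ hjj
      rw [Function.onFun, Finset.disjoint_left]
      intro y hy hy'
      rw [hSdef] at hy hy'
      simp only [Finset.mem_filter] at hy hy'
      have key : ∀ a b : ℕ, a < b → 2 * X1 b ≤ X1 a := by
        intro a b hab
        rw [hX1]
        simp only
        rw [← mul_div_assoc, div_le_div_iff₀ (hYpos b) (hYpos a)]
        have := hYmono a b hab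
        nlinarith [sq_nonneg x]
      rcases lt_or_gt_of_ne hjj with h | h
      · have := key j j' h
        linarith [hy.2.1, hy'.2.2]
      · have := key j' j h
        linarith [hy.2.2, hy'.2.1]
    have h2 : ∑ j ∈ Finset.range (JJ β τ x), ∑ y ∈ S j, V y / y =
        ∑ y ∈ (Finset.range (JJ β τ x)).biUnion S, V y / y :=
      (Finset.sum_biUnion hdisj).symm
    have hsubU : (Finset.range (JJ β τ x)).biUnion S ⊆
        (Finset.Icc 1 ⌊X⌋₊).filter (fun y : ℕ => X ^ (τ / 4) ≤ k * y) := by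
      intro y hy
      rw [Finset.mem_biUnion] at hy
      obtain ⟨j, hj, hy⟩ := hy
      rw [hSdef] at hy
      simp only [Finset.mem_filter] at hy
      rw [Finset.mem_filter]
      refine ⟨hy.1, ?_⟩
      have h3 : x ^ (1 + τ) ≤ (y : ℝ) :=
        le_trans (hX1big j (Finset.mem_range.1 hj)) hy.2.1
      have h4 : k * x ^ (1 + τ) = x ^ (β + τ) / N := by
        rw [hk, Real.rpow_add hxpos 1 τ, Real.rpow_one, Real.rpow_add hxpos β τ]
        field_simp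
      calc X ^ (τ / 4) ≤ k * x ^ (1 + τ) := by rw [h4]; exact hXk
        _ ≤ k * y := mul_le_mul_of_nonneg_left h3 hk0.le
    have h3 : ∑ y ∈ (Finset.range (JJ β τ x)).biUnion S, V y / y ≤
        ∑ y ∈ (Finset.Icc 1 ⌊X⌋₊).filter (fun y : ℕ => X ^ (τ / 4) ≤ k * y), V y / y :=
      Finset.sum_le_sum_of_subset_of_nonneg hsubU
        (fun y _ _ => div_nonneg (hV0 y) (by positivity))
    have hXlog : Real.log X ≤ 3 * Real.log x := by
      rw [hX, Real.log_mul (by norm_num) (by positivity), Real.log_pow]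
      have : Real.log 2 ≤ Real.log x := Real.log_le_log (by norm_num) hx4
      push_cast
      linarith
    have hXXx : XX ≤ X := by
      rw [hX]
      nlinarith
    have h4 : ∑ y ∈ (Finset.Icc 1 ⌊X⌋₊).filter (fun y : ℕ => X ^ (τ / 4) ≤ k * y), V y / y ≤
        I.card * (ε' * Real.log X) := by
      have h5 : ∑ y ∈ (Finset.Icc 1 ⌊X⌋₊).filter (fun y : ℕ => X ^ (τ / 4) ≤ k * y), V y / y =
          ∑ i ∈ I, ∑ y ∈ (Finset.Icc 1 ⌊X⌋₊).filter (fun y : ℕ => X ^ (τ / 4) ≤ k * y),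
            SVF F (Sl M i.1 N 1 i.2 y) k / (k * (y : ℝ) ^ 3) := by
        rw [Finset.sum_comm]
        refine Finset.sum_congr rfl fun y hy => ?_
        rw [hV]
        simp only
        rw [Finset.sum_div]
        refine Finset.sum_congr rfl fun i _ => ?_
        rw [div_div]
        congr 1
        ring
      rw [h5, ← nsmul_eq_mul]
      refine Finset.sum_le_card_nsmul I _ _ fun i hi => ?_
      exact hsv i hi X (le_trans (hXi i hi) hXXx) F hFX k hk0 hk1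
    have hlogx : 0 ≤ Real.log x := Real.log_nonneg hx1'
    have h6 : (I.card : ℝ) * (ε' * Real.log X) ≤ ε / 4 * Real.log x := by
      have h7 : (I.card : ℝ) * ε' ≤ ε / 12 := by
        rw [hε', mul_div_assoc', div_le_div_iff₀ (by positivity) (by norm_num)]
        nlinarith
      calc (I.card : ℝ) * (ε' * Real.log X) = ((I.card : ℝ) * ε') * Real.log X := by ring
        _ ≤ ((I.card : ℝ) * ε') * (3 * Real.log x) :=
            mul_le_mul_of_nonneg_left hXlog (by positivity)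
        _ ≤ ε / 12 * (3 * Real.log x) := mul_le_mul_of_nonneg_right h7 (by linarith)
        _ = ε / 4 * Real.log x := by ring
    calc ∑ j ∈ Finset.range (JJ β τ x), V (Y' j)
        ≤ ∑ j ∈ Finset.range (JJ β τ x), 4 * ∑ y ∈ S j, V y / y := h1
      _ = 4 * ∑ j ∈ Finset.range (JJ β τ x), ∑ y ∈ S j, V y / y := by rw [Finset.mul_sum]
      _ ≤ 4 * (ε / 4 * Real.log x) := by
          rw [h2]
          exact mul_le_mul_of_nonneg_left (le_trans h3 (le_trans h4 h6)) (by norm_num)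
      _ = ε * Real.log x := by ring
  · intro j hj c hc b hb
    have hmem : ((c, b) : G × ℕ) ∈ I := by
      rw [hI, Finset.mem_product]
      exact ⟨hc, hb⟩
    have hy0 : (0 : ℝ) < (Y' j : ℝ) := by
      have h1 := hY'1 j
      have h2 : 2 ≤ X1 j := le_trans hx2 (hX1big j hj)
      linarith
    have h1 := hVle (Y' j) (c, b) hmem
    dsimp only at h1
    have h2 : (0 : ℝ) < k * (Y' j : ℝ) ^ 2 := by positivity
    rw [div_le_iff₀ h2, ← mul_assoc] at h1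
    exact h1



end Pool.Agent.TR

namespace Pool.Agent.TR

theorem choose_scaleR : type_of% @choose_scaleR_pr := @choose_scaleR_pr

end Pool.Agent.TR
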