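import Pool.Agent.Lib_helper18.TRF.Bridge
import Pool.Agent.Lib_helper10.T2F.BAS
import Pool.Agent.Lib_helper10.T2F.BHS
import Pool.Agent.Lib_helper10.T2F.CLS
import Pool.Agent.Lib_helper18.TFF.C1
import Pool.Agent.Lib_helper18.TFF.C2
import Pool.Agent.Lib_helper18.TFF.C5
import Pool.Agent.Lib_helper18.TFF.C7
import Pool.Agent.Lib_helper97.TR.Defs
import Pool.Agent.Lib_helper18.TFF.C10

/-!
# TR: block CR8, pairs of rough elements in the same direction
-/

set_option autoImplicit false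

namespace Pool.Agent.TR

open Pool.Agent.T2 Pool.Agent.TF Filter Topology

theorem cr8_mem {R Y : ℝ} {u : G} (hu : u ∈ Ru R Y) :
    u ∈ Bl (2 * Y) ∧ Prm u ∧ 0 < u.re ∧ (nn u : ℝ) ≤ 2 * Y ∧ u ≠ 0 := by
  classical
  unfold Ru at hu
  rw [Finset.mem_filter] at hu
  obtain ⟨h1, h2, h3, -, -⟩ := hu
  unfold PB at h1
  rw [Finset.mem_filter] at h1
  obtain ⟨h4, h5⟩ := h1
  refine ⟨h4, h5, h2.trans h3, ?_, ?_⟩
  · unfold Bl at h4
    exact (Finset.mem_filter.1 h4).2.2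
  · unfold Bl at h4
    exact (Finset.mem_filter.1 h4).2.1

theorem cr8_eq {u u' : G} (hu : Prm u) (h0 : 0 < u.re) (hu' : Prm u') (h0' : 0 < u'.re)
    (h : det u u' = 0) : u = u' := by
  unfold det at h
  have h1 : u.re * u'.im = u.im * u'.re := by linarith
  have c1 : IsCoprime u.re u.im := Int.isCoprime_iff_gcd_eq_one.2 hu
  have c2 : IsCoprime u'.re u'.im := Int.isCoprime_iff_gcd_eq_one.2 hu'
  have d1 : u.re ∣ u'.re := by
    have : u.re ∣ u.im * u'.re := ⟨u'.im, h1.symm⟩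
    exact c1.dvd_of_dvd_mul_left this
  have d2 : u'.re ∣ u.re := by
    have : u'.re ∣ u'.im * u.re := ⟨u.im, by linarith⟩
    exact c2.dvd_of_dvd_mul_left this
  have h2 : u.re = u'.re := Int.dvd_antisymm h0.le h0'.le d1 d2
  have h3 : u.im = u'.im := by
    rw [← h2, mul_comm u.im] at h1
    exact (mul_left_cancel₀ h0.ne' h1).symm
  exact Zsqrtd.ext h2 h3

theorem pair_hatR_pr {η ρ : ℝ} (hη : 0 < η) (hρ : 0 < ρ) : ∃ C Y₀ : ℝ, 1 ≤ C ∧ ∀ Y : ℝ, Y₀ ≤ Y →
    ∀ R : ℝ, Y ^ ρ ≤ R → ∀ k : ℝ, 0 < k → k ≤ 1 / 2 → Y ^ η ≤ 2 * k * Y →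
      ∀ Q : Finset G, Q ⊆ Ru R Y → ∀ α : G → ℝ, (∀ u, |α u| ≤ 1) →
      ∑ u ∈ Q, ∑ u' ∈ Q, α u * α u' * hat (ag (star u) (star u') / k) ≤
        C * k * Y ^ 2 / Real.log Y ^ 2 := by
  classical
  obtain ⟨C₁, Y₁, hC₁, h1⟩ := pair_sieveR η ρ hη hρ
  obtain ⟨C₂, hC₂, h2⟩ := ball_le
  have hlog : ∀ᶠ Y : ℝ in atTop, Real.log Y ≤ Y ^ (η / 2) := by
    have := (isLittleO_log_rpow_atTop (half_pos hη)).bound (zero_lt_one)
    filter_upwards [this, eventually_ge_atTop 1] with Y hY hY1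
    rw [one_mul, Real.norm_eq_abs, Real.norm_eq_abs,
      abs_of_nonneg (Real.rpow_nonneg (by linarith) _)] at hY
    exact (le_abs_self _).trans hY
  obtain ⟨Y₂, hY₂⟩ := eventually_atTop.1 hlog
  refine ⟨2 * C₁ + 4 * C₂, max (max Y₁ Y₂) 3, by linarith, ?_⟩
  intro Y hY R hR k hk hk2 hYk Q hQ α hα
  have hY1 : Y₁ ≤ Y := (le_max_left _ _).trans ((le_max_left _ _).trans hY)
  have hY2 : Y₂ ≤ Y := (le_max_right _ _).trans ((le_max_left _ _).trans hY)
  have hY3 : 3 ≤ Y := (le_max_right _ _).trans hY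
  have hY0 : 0 < Y := by linarith
  have hL : 0 < Real.log Y := Real.log_pos (by linarith)
  set D : ℝ := 2 * k * Y with hD
  have hterm : ∀ u ∈ Q, ∀ u' ∈ Q,
      α u * α u' * hat (ag (star u) (star u') / k) ≤
        (if u = u' then 1 else 0) + (if (det u u' ≠ 0 ∧
          |(det u u' : ℝ)| ≤ D ∧ ((1 : ℕ) : ℤ) ∣ det u u')
          then (1 : ℝ) else 0) := by
    intro u hu u' hu'
    obtain ⟨-, a2, a3, a4, a5⟩ := cr8_mem (hQ hu)
    obtain ⟨-, b2, b3, b4, b5⟩ := cr8_mem (hQ hu')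
    have hle : α u * α u' * hat (ag (star u) (star u') / k) ≤
        hat (ag (star u) (star u') / k) := by
      have c1 : α u * α u' ≤ 1 := by
        refine (le_abs_self _).trans ?_
        rw [abs_mul]
        exact mul_le_one₀ (hα u) (abs_nonneg _) (hα u')
      have c2 := bkl_hat_nonneg (ag (star u) (star u') / k)
      nlinarith
    have hnn : (0 : ℝ) ≤ (if u = u' then 1 else 0) + (if (det u u' ≠ 0 ∧
        |(det u u' : ℝ)| ≤ D ∧ ((1 : ℕ) : ℤ) ∣ det u u')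
        then (1 : ℝ) else 0) := by
      split_ifs <;> norm_num
    by_cases h0 : hat (ag (star u) (star u') / k) = 0
    · rw [h0] at hle
      rw [h0]
      linarith
    · have c3 := bkl_hat_lt h0
      rw [abs_div, abs_of_pos hk, div_lt_one hk] at c3
      have c4 : star u ≠ 0 := by
        rw [← nn_pos, nn_star, nn_pos]
        exact a5
      have c5 := c10_det (star u) (star u') c4
      rw [nn_star, nn_star, c10_det_star] at c5
      rw [Int.cast_neg, abs_neg] at c5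
      have c6 : Real.sqrt (nn u : ℝ) * Real.sqrt (nn u' : ℝ) ≤ 2 * Y := by
        calc Real.sqrt (nn u : ℝ) * Real.sqrt (nn u' : ℝ)
            ≤ Real.sqrt (2 * Y) * Real.sqrt (2 * Y) := by
              gcongr
          _ = 2 * Y := Real.mul_self_sqrt (by linarith)
      have c7 : |(det u u' : ℝ)| ≤ D := by
        calc |(det u u' : ℝ)| ≤ Real.sqrt (nn u : ℝ) * Real.sqrt (nn u' : ℝ) *
              |ag (star u) (star u')| := c5
          _ ≤ 2 * Y * k := by gcongr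
          _ = D := by rw [hD]; ring
      refine hle.trans ((c10_hat_le _).trans ?_)
      by_cases h00 : det u u' = 0
      · rw [if_pos (cr8_eq a2 a3 b2 b3 h00)]
        split_ifs <;> norm_num
      · rw [if_pos (c := det u u' ≠ 0 ∧ _) ⟨h00, c7, by simp⟩]
        split_ifs <;> norm_num
  have hsum : ∑ u ∈ Q, ∑ u' ∈ Q, α u * α u' * hat (ag (star u) (star u') / k) ≤
      ∑ u ∈ Ru R Y, ∑ u' ∈ Ru R Y,
        ((if u = u' then 1 else 0) + (if (det u u' ≠ 0 ∧
          |(det u u' : ℝ)| ≤ D ∧ ((1 : ℕ) : ℤ) ∣ det u u')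
          then (1 : ℝ) else 0)) := by
    have hnn : ∀ u u' : G, (0 : ℝ) ≤ (if u = u' then 1 else 0) + (if (det u u' ≠ 0 ∧
        |(det u u' : ℝ)| ≤ D ∧ ((1 : ℕ) : ℤ) ∣ det u u')
        then (1 : ℝ) else 0) := by
      intro u u'
      split_ifs <;> norm_num
    refine (Finset.sum_le_sum fun u hu => Finset.sum_le_sum fun u' hu' => hterm u hu u' hu').trans ?_
    refine (Finset.sum_le_sum fun u _ =>
      Finset.sum_le_sum_of_subset_of_nonneg hQ fun u' _ _ => hnn u u').trans ?_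
    exact Finset.sum_le_sum_of_subset_of_nonneg hQ fun u _ _ =>
      Finset.sum_nonneg fun u' _ => hnn u u'
  have hsplit : ∑ u ∈ Ru R Y, ∑ u' ∈ Ru R Y,
        ((if u = u' then 1 else 0) + (if (det u u' ≠ 0 ∧
          |(det u u' : ℝ)| ≤ D ∧ ((1 : ℕ) : ℤ) ∣ det u u')
          then (1 : ℝ) else 0)) = ((Ru R Y).card : ℝ) + NpR R Y D 1 := by
    simp_rw [Finset.sum_add_distrib]
    congr 1
    · simp
    · unfold NpR
      rw [← Finset.sum_product', Finset.sum_boole]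
  rw [hsplit] at hsum
  refine hsum.trans ?_
  -- the diagonal
  have hcard : ((Ru R Y).card : ℝ) ≤ C₂ * (2 * Y) := by
    refine le_trans ?_ (h2 (2 * Y) (by linarith))
    exact_mod_cast Finset.card_le_card fun u hu => (cr8_mem hu).1
  have hlogk : Real.log Y ^ 2 ≤ 2 * k * Y := by
    have e1 := hY₂ Y hY2
    calc Real.log Y ^ 2 ≤ (Y ^ (η / 2)) ^ 2 := by gcongr
      _ = Y ^ η := by
        rw [← Real.rpow_natCast, ← Real.rpow_mul hY0.le]
        congr 1
        push_cast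
        ring
      _ ≤ 2 * k * Y := hYk
  have hdiag : C₂ * (2 * Y) ≤ 4 * C₂ * k * Y ^ 2 / Real.log Y ^ 2 := by
    rw [le_div_iff₀ (by positivity)]
    have : C₂ * (2 * Y) * Real.log Y ^ 2 ≤ C₂ * (2 * Y) * (2 * k * Y) := by gcongr
    calc C₂ * (2 * Y) * Real.log Y ^ 2 ≤ C₂ * (2 * Y) * (2 * k * Y) := this
      _ = 4 * C₂ * k * Y ^ 2 := by ring
  have hYη : (1 : ℝ) ≤ Y ^ η := Real.one_le_rpow (by linarith) hη.le
  have hD1 : 1 ≤ D := hYη.trans hYk
  have hNp : NpR R Y D 1 ≤ C₁ * Y * D / (Real.sqrt (1 : ℕ) * Real.log Y ^ 2) := by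
    refine h1 Y hY1 D R hYk ?_ hR 1 le_rfl ?_
    · rw [hD]
      nlinarith
    · rw [Nat.cast_one]
      exact Real.one_le_rpow hD1 (by norm_num)
  rw [Nat.cast_one, Real.sqrt_one, one_mul, hD] at hNp
  calc ((Ru R Y).card : ℝ) + NpR R Y D 1
      ≤ 4 * C₂ * k * Y ^ 2 / Real.log Y ^ 2 + C₁ * Y * (2 * k * Y) / Real.log Y ^ 2 :=
        add_le_add (hcard.trans hdiag) hNp
    _ = (2 * C₁ + 4 * C₂) * k * Y ^ 2 / Real.log Y ^ 2 := by ring

end Pool.Agent.TR

namespace Pool.Agent.TR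

theorem pair_hatR : type_of% @pair_hatR_pr := @pair_hatR_pr

end Pool.Agent.TR
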