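import Pool.Agent.Lib_helper97.TRL.CR5
import Pool.Agent.Lib_helper97.TRL.CR8
import Pool.Agent.Lib_helper18.TFF.C7
import Pool.Agent.Lib_helper10.T2F.BAS
import Pool.Agent.Lib_helper10.T2F.BHS
import Pool.Agent.Lib_helper10.T2F.CLS
import Pool.Agent.Lib_helper18.TFF.C1
import Pool.Agent.Lib_helper18.TFF.C2
import Pool.Agent.Lib_helper18.TFF.C5
import Pool.Agent.Lib_helper97.TR.Defs

/-! Block CR9 of project TR (helper97): the bilinear sum with a hat, rough elements. -/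

set_option autoImplicit false

namespace Pool.Agent.TR

open Pool.Agent.T2 Pool.Agent.TF Filter Topology

private theorem cr9_ne {R Y : ℝ} {u : G} (h : u ∈ Ru R Y) : star u ≠ 0 := by
  simp only [Ru, Finset.mem_filter] at h
  intro h0
  have h1 : u = 0 := star_eq_zero.1 h0
  have h2 := h.2.1
  rw [h1] at h2
  simp at h2

private theorem cr9_inj (Q : Finset G) : Set.InjOn (fun u : G => star u) (Q : Set G) :=
  fun _ _ _ _ h => star_injective h

/-- the square of the sum -/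
private theorem cr9_sq {R Y : ℝ} {Q : Finset G} (hQ : Q ⊆ Ru R Y) (α : G → ℝ) (F : ℕ → ℝ)
    (S : Finset G) (hS : ∀ w ∈ S, w ≠ 0) {k : ℝ} (hk : 0 < k) (hk1 : k ≤ 1) (s : ℤ)
    (hs : |(s : ℝ) * k| ≤ 1) :
    TSR α F Q S k s ^ 2 ≤ (∑ u ∈ Q, ∑ u' ∈ Q, α u * α u' *
      hat (ag (star u) (star u') / k)) * SVF F S k := by
  classical
  have h := pos_def (Q.image (fun u : G => star u)) S
    (fun u hu => by
      obtain ⟨p, hp, rfl⟩ := Finset.mem_image.1 hu
      exact cr9_ne (hQ hp)) hS (fun u => α (star u)) (fun w => F (nn w)) hk hk1 hs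
  rw [Finset.sum_image (cr9_inj Q), Finset.sum_image (cr9_inj Q)] at h
  have e1 : ∑ p ∈ Q, ∑ w ∈ S, α (star (star p)) * F (nn w) *
      hat ((ag (star p) w - (s : ℝ) * k) / k) = TSR α F Q S k s := by
    unfold TSR
    refine Finset.sum_congr rfl fun p hp => ?_
    rw [star_star, Finset.mul_sum]
    exact Finset.sum_congr rfl fun w _ => by ring
  have e2 : ∑ p ∈ Q, ∑ u' ∈ Q.image (fun u : G => star u),
      α (star (star p)) * α (star u') * hat (ag (star p) u' / k) =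
      ∑ p ∈ Q, ∑ p' ∈ Q, α p * α p' * hat (ag (star p) (star p') / k) := by
    refine Finset.sum_congr rfl fun p hp => ?_
    rw [Finset.sum_image (cr9_inj Q)]
    refine Finset.sum_congr rfl fun p' hp' => ?_
    rw [star_star, star_star]
  rw [e1, e2] at h
  exact h

theorem ts_boundR_pr {β τ ρ : ℝ} (hτ : 0 < τ) (hβ : 2 * τ < β) (hβ1 : β < 1) (hρ : 0 < ρ)
    (N T : ℕ) (hN : 1 ≤ N) :
    ∃ C x₀ : ℝ, 1 ≤ C ∧ ∀ x : ℝ, x₀ ≤ x → ∀ Y : ℝ, x ^ (1 - β + τ) ≤ Y → Y ≤ x ^ (1 - τ) →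
      ∀ (Y' v : ℝ), 0 ≤ v → 0 ≤ Y' → Y' ≤ 2 * x ^ 2 / Y →
      ∀ Q : Finset G, Q ⊆ Ru (x ^ ρ) Y → ∀ α : G → ℝ, (∀ u, |α u| ≤ 1) →
      ∀ (F : ℕ → ℝ) (S : Finset G), (∀ w ∈ S, w ≠ 0) →
      SVF F S (x ^ β / (N * x)) ≤ v * (x ^ β / (N * x)) * Y' ^ 2 →
      ∀ s ∈ Finset.Icc (-((T * N : ℕ) : ℤ)) ((T * N : ℕ) : ℤ),
        |TSR α F Q S (x ^ β / (N * x)) s| ≤ C * Real.sqrt v * (x ^ (1 + β) / Real.log x) := by
  obtain ⟨C, Y₀, hC, hp⟩ := pair_hatR (η := τ / 2) (ρ := ρ) (by linarith) hρ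
  have hb : 0 < 1 - β := by linarith
  have hNp : (0 : ℝ) < N := by exact_mod_cast hN
  have hN1 : (1 : ℝ) ≤ N := by exact_mod_cast hN
  have t1 : Tendsto (fun x : ℝ => x ^ (1 - β + τ)) atTop atTop :=
    tendsto_rpow_atTop (by linarith)
  have t2 : Tendsto (fun x : ℝ => x ^ (τ / 2)) atTop atTop := tendsto_rpow_atTop (by linarith)
  have t3 : Tendsto (fun x : ℝ => x ^ (-(1 - β))) atTop (𝓝 0) := tendsto_rpow_neg_atTop hb
  have hT : (0 : ℝ) < 1 / (2 * (T + 1)) := by positivity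
  have hev : ∀ᶠ x : ℝ in atTop, (3 ≤ x ∧ Y₀ ≤ x ^ (1 - β + τ)) ∧
      ((N : ℝ) ≤ x ^ (τ / 2) ∧ x ^ (-(1 - β)) < 1 / (2 * (T + 1))) :=
    ((eventually_ge_atTop 3).and (t1.eventually_ge_atTop Y₀)).and
      ((t2.eventually_ge_atTop (N : ℝ)).and (t3.eventually_lt_const hT))
  obtain ⟨x₀, hx₀⟩ := eventually_atTop.1 hev
  refine ⟨2 * Real.sqrt C / (1 - β), x₀, ?_, ?_⟩
  · rw [le_div_iff₀ hb]
    have : 1 ≤ Real.sqrt C := by
      rw [← Real.sqrt_one]
      exact Real.sqrt_le_sqrt hC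
    have h0 : 0 < β := by linarith
    nlinarith
  intro x hx Y hY1 hY2 Y' v hv hY' hY'2 Q hQ α hα F S hS hSV s hs
  obtain ⟨⟨hx3, hx4⟩, hx5, hx6⟩ := hx₀ x hx
  have hx0 : 0 < x := by linarith
  have hx1 : 1 ≤ x := by linarith
  have hlx : 0 < Real.log x := Real.log_pos (by linarith)
  -- the parameter `k`
  set k : ℝ := x ^ β / (N * x) with hk
  have hkx : k = x ^ (-(1 - β)) / N := by
    rw [hk, show -(1 - β) = β - 1 by ring, Real.rpow_sub_one hx0.ne']
    field_simp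
  have hk0 : 0 < k := by positivity
  have hxs : x ^ (-(1 - β)) ≤ 1 / 2 := by
    refine hx6.le.trans ?_
    rw [div_le_div_iff₀ (by positivity) (by norm_num)]
    have : (0 : ℝ) ≤ T := Nat.cast_nonneg T
    linarith
  have hk2 : k ≤ 1 / 2 := by
    rw [hkx, div_le_iff₀ hNp]
    nlinarith
  have hk1 : k ≤ 1 := by linarith
  have hsk : |(s : ℝ) * k| ≤ 1 := by
    rw [abs_mul, abs_of_pos hk0]
    have h1 : |(s : ℝ)| ≤ (T : ℝ) * N := by
      rw [Finset.mem_Icc] at hs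
      rw [abs_le]
      constructor
      · have := hs.1
        have h2 : (-((T * N : ℕ) : ℤ) : ℝ) ≤ (s : ℝ) := by exact_mod_cast this
        push_cast at h2
        linarith
      · have := hs.2
        have h2 : (s : ℝ) ≤ (((T * N : ℕ) : ℤ) : ℝ) := by exact_mod_cast this
        push_cast at h2
        linarith
    have h2 : (0 : ℝ) ≤ T := Nat.cast_nonneg T
    calc |(s : ℝ)| * k ≤ (T : ℝ) * N * k := mul_le_mul_of_nonneg_right h1 hk0.le
      _ = T * x ^ (-(1 - β)) := by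
          rw [hkx]
          field_simp
      _ ≤ T * (1 / (2 * (T + 1))) := mul_le_mul_of_nonneg_left hx6.le h2
      _ ≤ 1 := by
          rw [mul_one_div, div_le_one (by positivity)]
          linarith
  -- the size of `Y`
  have hYp : 0 < Y := lt_of_lt_of_le (Real.rpow_pos_of_pos hx0 _) hY1
  have hYx : Y ≤ x := by
    refine hY2.trans ?_
    calc x ^ (1 - τ) ≤ x ^ (1 : ℝ) := Real.rpow_le_rpow_of_exponent_le hx1 (by linarith)
      _ = x := Real.rpow_one x
  have hlY : (1 - β) * Real.log x ≤ Real.log Y := by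
    have h1 : Real.log (x ^ (1 - β + τ)) ≤ Real.log Y :=
      Real.log_le_log (Real.rpow_pos_of_pos hx0 _) hY1
    rw [Real.log_rpow hx0] at h1
    nlinarith
  have hlY0 : 0 < Real.log Y := lt_of_lt_of_le (by positivity) hlY
  have hYk : Y ^ (τ / 2) ≤ 2 * k * Y := by
    have h1 : Y ^ (τ / 2) ≤ x ^ (τ / 2) := Real.rpow_le_rpow hYp.le hYx (by linarith)
    have h2 : x ^ τ / N ≤ k * Y := by
      rw [hkx, div_mul_eq_mul_div, div_le_div_iff_of_pos_right hNp]
      calc x ^ τ = x ^ (-(1 - β)) * x ^ (1 - β + τ) := by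
            rw [← Real.rpow_add hx0]
            congr 1
            ring
        _ ≤ x ^ (-(1 - β)) * Y := mul_le_mul_of_nonneg_left hY1 (Real.rpow_pos_of_pos hx0 _).le
    have h3 : x ^ (τ / 2) ≤ x ^ τ / N := by
      rw [le_div_iff₀ hNp]
      calc x ^ (τ / 2) * N ≤ x ^ (τ / 2) * x ^ (τ / 2) :=
            mul_le_mul_of_nonneg_left hx5 (Real.rpow_pos_of_pos hx0 _).le
        _ = x ^ τ := by
            rw [← Real.rpow_add hx0]
            congr 1
            ring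
    have h4 : 0 < k * Y := mul_pos hk0 hYp
    linarith
  have hYR : Y ^ ρ ≤ x ^ ρ := Real.rpow_le_rpow hYp.le hYx hρ.le
  -- the main estimate
  have hsq := cr9_sq hQ α F S hS hk0 hk1 s hsk
  have hpair := hp Y (hx4.trans hY1) (x ^ ρ) hYR k hk0 hk2 hYk Q hQ α hα
  have hA : 0 ≤ C * k * Y ^ 2 / Real.log Y ^ 2 := by positivity
  have hmain : TSR α F Q S k s ^ 2 ≤
      (C * k * Y ^ 2 / Real.log Y ^ 2) * (v * k * Y' ^ 2) :=
    hsq.trans ((mul_le_mul_of_nonneg_right hpair (svF_nonneg F S hS hk0 hk1)).trans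
      (mul_le_mul_of_nonneg_left hSV hA))
  have hfin : (C * k * Y ^ 2 / Real.log Y ^ 2) * (v * k * Y' ^ 2) ≤
      (2 * Real.sqrt C / (1 - β) * Real.sqrt v * (x ^ (1 + β) / Real.log x)) ^ 2 := by
    have h1 : (C * k * Y ^ 2 / Real.log Y ^ 2) * (v * k * Y' ^ 2) =
        (Real.sqrt C * Real.sqrt v * (k * (Y * Y') / Real.log Y)) ^ 2 := by
      rw [mul_pow, mul_pow, Real.sq_sqrt (by linarith), Real.sq_sqrt hv]
      field_simp
    rw [h1]
    have h2 : Y * Y' ≤ 2 * x ^ 2 := by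
      calc Y * Y' ≤ Y * (2 * x ^ 2 / Y) := mul_le_mul_of_nonneg_left hY'2 hYp.le
        _ = 2 * x ^ 2 := by field_simp
    have h3 : k * (Y * Y') / Real.log Y ≤ 2 * x ^ (1 + β) / ((1 - β) * Real.log x) := by
      have h4 : k * (Y * Y') ≤ 2 * x ^ (1 + β) := by
        calc k * (Y * Y') ≤ k * (2 * x ^ 2) := mul_le_mul_of_nonneg_left h2 hk0.le
          _ = 2 * x ^ (1 + β) / N := by
              rw [hk, Real.rpow_add hx0, Real.rpow_one]
              field_simp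
          _ ≤ 2 * x ^ (1 + β) := div_le_self (by positivity) hN1
      exact div_le_div₀ (by positivity) h4 (by positivity) hlY
    have h5 : 0 ≤ k * (Y * Y') / Real.log Y := by positivity
    refine pow_le_pow_left₀ (by positivity) ?_ 2
    calc Real.sqrt C * Real.sqrt v * (k * (Y * Y') / Real.log Y)
        ≤ Real.sqrt C * Real.sqrt v * (2 * x ^ (1 + β) / ((1 - β) * Real.log x)) :=
          mul_le_mul_of_nonneg_left h3 (by positivity)
      _ = 2 * Real.sqrt C / (1 - β) * Real.sqrt v * (x ^ (1 + β) / Real.log x) := by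
          field_simp
  have hR : 0 ≤ 2 * Real.sqrt C / (1 - β) * Real.sqrt v * (x ^ (1 + β) / Real.log x) := by
    positivity
  exact abs_le_of_sq_le_sq (hmain.trans hfin) hR



end Pool.Agent.TR

namespace Pool.Agent.TR

theorem ts_boundR : type_of% @ts_boundR_pr := @ts_boundR_pr

end Pool.Agent.TR
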