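import Pool.Agent.Lib_helper97.TRL.CR2
import Pool.Agent.Lib_helper97.TRL.CR3
import Pool.Agent.Lib_helper97.TRL.CR4
import Pool.Agent.Lib_helper97.TRL.CR7
import Pool.Agent.Lib_helper97.TRL.CR9
import Pool.Agent.Lib_helper18.TFF.C1
import Pool.Agent.Lib_helper18.TFF.C2
import Pool.Agent.Lib_helper10.T2F.BAS
import Pool.Agent.Lib_helper10.T2F.BHS
import Pool.Agent.Lib_helper10.T2F.CLS
import Pool.Agent.Lib_helper18.TFF.C5
import Pool.Agent.Lib_helper18.TFF.C7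
import Pool.Agent.Lib_helper97.TR.Defs

/-!
# Project TR: block CR10, the cells (helper61; after TF block C12 of helper85)
-/

set_option autoImplicit false

namespace Pool.Agent.TR

open Pool.Agent.T2 Pool.Agent.TF Filter Topology

/-- Cauchy-Schwarz for the scales -/
private theorem cr10_cs (J : ℕ) (v : ℕ → ℝ) (e Lg : ℝ) (hv : ∀ j, 0 ≤ v j) (he : 0 ≤ e)
    (hL : 0 ≤ Lg) (hJ : (J : ℝ) ≤ 2 * Lg) (hs : ∑ j ∈ Finset.range J, v j ≤ e ^ 2 / 2 * Lg) :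
    ∑ j ∈ Finset.range J, Real.sqrt (v j) ≤ e * Lg := by
  have h1 : (∑ j ∈ Finset.range J, Real.sqrt (v j)) ^ 2 ≤
      (Finset.range J).card * ∑ j ∈ Finset.range J, Real.sqrt (v j) ^ 2 :=
    sq_sum_le_card_mul_sum_sq
  have h2 : ∑ j ∈ Finset.range J, Real.sqrt (v j) ^ 2 = ∑ j ∈ Finset.range J, v j :=
    Finset.sum_congr rfl fun j _ => Real.sq_sqrt (hv j)
  rw [h2, Finset.card_range] at h1
  have h0 : 0 ≤ ∑ j ∈ Finset.range J, v j := Finset.sum_nonneg fun j _ => hv j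
  have h3 : (J : ℝ) * ∑ j ∈ Finset.range J, v j ≤ (2 * Lg) * (e ^ 2 / 2 * Lg) :=
    mul_le_mul hJ hs h0 (by positivity)
  have h4 : (∑ j ∈ Finset.range J, Real.sqrt (v j)) ^ 2 ≤ (e * Lg) ^ 2 := by
    calc _ ≤ _ := h1
      _ ≤ _ := h3
      _ = _ := by ring
  exact (pow_le_pow_iff_left₀ (Finset.sum_nonneg fun j _ => Real.sqrt_nonneg _) (by positivity)
    two_ne_zero).mp h4

/-- a fivefold sum of bounded terms -/
private theorem cr10_five {α₁ α₂ α₃ α₄ α₅ : Type*} (s₁ : Finset α₁) (s₂ : Finset α₂)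
    (s₃ : Finset α₃) (s₄ : Finset α₄) (s₅ : Finset α₅) (F : α₁ → α₂ → α₃ → α₄ → α₅ → ℝ) (D : ℝ)
    (h : ∀ a ∈ s₁, ∀ b ∈ s₂, ∀ c ∈ s₃, ∀ d ∈ s₄, ∀ e ∈ s₅, F a b c d e ≤ D) :
    ∑ a ∈ s₁, ∑ b ∈ s₂, ∑ c ∈ s₃, ∑ d ∈ s₄, ∑ e ∈ s₅, F a b c d e ≤
      ((s₁.card : ℝ) * (s₂.card * (s₃.card * (s₄.card * s₅.card)))) * D := by
  have h5 : ∀ a ∈ s₁, ∀ b ∈ s₂, ∀ c ∈ s₃, ∀ d ∈ s₄, ∑ e ∈ s₅, F a b c d e ≤ s₅.card * D := by
    intro a ha b hb c hc d hd
    have := Finset.sum_le_card_nsmul s₅ (fun e => F a b c d e) D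
      (fun e he => h a ha b hb c hc d hd e he)
    simpa [nsmul_eq_mul] using this
  have h4 : ∀ a ∈ s₁, ∀ b ∈ s₂, ∀ c ∈ s₃, ∑ d ∈ s₄, ∑ e ∈ s₅, F a b c d e ≤
      s₄.card * (s₅.card * D) := by
    intro a ha b hb c hc
    have := Finset.sum_le_card_nsmul s₄ (fun d => ∑ e ∈ s₅, F a b c d e) (s₅.card * D)
      (fun d hd => h5 a ha b hb c hc d hd)
    simpa [nsmul_eq_mul] using this
  have h3 : ∀ a ∈ s₁, ∀ b ∈ s₂, ∑ c ∈ s₃, ∑ d ∈ s₄, ∑ e ∈ s₅, F a b c d e ≤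
      s₃.card * (s₄.card * (s₅.card * D)) := by
    intro a ha b hb
    have := Finset.sum_le_card_nsmul s₃ (fun c => ∑ d ∈ s₄, ∑ e ∈ s₅, F a b c d e)
      (s₄.card * (s₅.card * D)) (fun c hc => h4 a ha b hb c hc)
    simpa [nsmul_eq_mul] using this
  have h2 : ∀ a ∈ s₁, ∑ b ∈ s₂, ∑ c ∈ s₃, ∑ d ∈ s₄, ∑ e ∈ s₅, F a b c d e ≤
      s₂.card * (s₃.card * (s₄.card * (s₅.card * D))) := by
    intro a ha
    have := Finset.sum_le_card_nsmul s₂ (fun b => ∑ c ∈ s₃, ∑ d ∈ s₄, ∑ e ∈ s₅, F a b c d e)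
      (s₃.card * (s₄.card * (s₅.card * D))) (fun b hb => h3 a ha b hb)
    simpa [nsmul_eq_mul] using this
  have h1 := Finset.sum_le_card_nsmul s₁
    (fun a => ∑ b ∈ s₂, ∑ c ∈ s₃, ∑ d ∈ s₄, ∑ e ∈ s₅, F a b c d e)
    (s₂.card * (s₃.card * (s₄.card * (s₅.card * D)))) h2
  rw [nsmul_eq_mul] at h1
  calc _ ≤ _ := h1
    _ = _ := by ring

open Classical in
theorem cellsR_pr {β τ ρ : ℝ} (hτ : 0 < τ) (hβ : 2 * τ < β) (hβ1 : β < 1) (hρ : 0 < ρ) {δ Λ : ℝ}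
    (hδ : 0 < δ) (hδ1 : δ ≤ 1) (hΛ : 0 ≤ Λ) (L M i : ℕ) (hL : 1 ≤ L) (hM : 1 ≤ M) (hi : i < L)
    (r : ℤ) {ε : ℝ} (hε : 0 < ε) : ∃ x₀ : ℝ, ∀ x : ℝ, x₀ ≤ x → ∀ f : ℝ → ℝ, Cut δ Λ f →
      ∀ α : G → ℝ, (∀ u, |α u| ≤ 1) → ∀ F : ℕ → ℝ, Flip (x ^ ρ) F → ∀ σ : ℤ,
      (σ = 1 ∨ σ = -1) → ∑ j ∈ Finset.range (JJ β τ x),
        |SB f α (gF F) σ (x ^ ρ) x (YY β τ x j) (cf L M (x ^ β) i r)| ≤ ε * x ^ (1 + β) := by
  -- the parameters
  set T : ℕ := ⌈2 / δ⌉₊ with hTdef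
  have hT : 2 / δ ≤ (T : ℝ) := Nat.le_ceil _
  obtain ⟨K, ψ, x₁, hK1, hψ, hsm⟩ := cell_smoothR hτ hβ hβ1 hρ L M i hL hM hi r
    (show 0 < ε / 3 by positivity)
  obtain ⟨Cs, hCs, hsl⟩ := slicesR hδ hδ1 hΛ (show 0 ≤ K by linarith) T hT
  obtain ⟨Cm, hCm, hmult⟩ := mult_countR hτ hβ hβ1 hρ
  set A : ℝ := Cs * (Cm * (12 * (4 * ((T : ℝ) + 2)))) with hA
  have hA0 : 0 ≤ A := by positivity
  set N : ℕ := ⌈(3 * A / ε) ^ 2⌉₊ + 1 with hNdef
  have hN : 1 ≤ N := by omega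
  have hN1 : (3 * A / ε) ^ 2 ≤ (N : ℝ) := by
    rw [hNdef]
    push_cast
    have := Nat.le_ceil ((3 * A / ε) ^ 2)
    linarith
  have hsN : 3 * A / ε ≤ Real.sqrt N := Real.le_sqrt_of_sq_le hN1
  have hsN0 : 0 < Real.sqrt N := Real.sqrt_pos.mpr (by exact_mod_cast hN)
  have hAN : A / Real.sqrt N ≤ ε / 3 := by
    rw [div_le_iff₀ hsN0]
    have h1 : 3 * A / ε * (ε / 3) = A := by field_simp
    nlinarith
  obtain ⟨Ct, x₃, hCt, hts⟩ := ts_boundR hτ hβ hβ1 hρ N T hN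
  set S5 : Finset ℤ := Finset.Icc (-((T * N : ℕ) : ℤ)) ((T * N : ℕ) : ℤ) with hS5
  set I2 : Finset ℕ := Finset.Icc 1 (2 * N) with hI2
  set NN : ℝ := ((Cls M).card : ℝ) * ((Cls M).card * (I2.card * (I2.card * S5.card))) with hNN
  have hNN0 : 0 ≤ NN := by positivity
  set κ : ℝ := ε / (3 * (NN * Ct + 1)) with hκ
  have hCt0 : 0 ≤ Ct := by linarith
  have hden : 0 < 3 * (NN * Ct + 1) := by positivity
  have hκ0 : 0 < κ := by positivity
  have hκ1 : NN * Ct * κ ≤ ε / 3 := by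
    have h0 : 0 ≤ NN * Ct := by positivity
    have h1 : κ * (3 * (NN * Ct + 1)) = ε := by
      rw [hκ]
      field_simp
    nlinarith
  obtain ⟨x₄, hch⟩ := choose_scaleR hτ hβ hβ1 hρ M N hM hN (show 0 < κ ^ 2 / 2 by positivity)
  refine ⟨max x₁ (max (max x₃ x₄) (max 3 ((4 * ((T : ℝ) + 2)) ^ (1 / (1 - β))))),
    fun x hx f hf α hα F hF σ hσ => ?_⟩
  have hx1 : x₁ ≤ x := le_trans (le_max_left _ _) hx
  have hx3 : x₃ ≤ x := le_trans (le_trans (le_max_left _ _) (le_max_left _ _))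
    (le_trans (le_max_right _ _) hx)
  have hx4 : x₄ ≤ x := le_trans (le_trans (le_max_right _ _) (le_max_left _ _))
    (le_trans (le_max_right _ _) hx)
  have hx5 : (3 : ℝ) ≤ x := le_trans (le_trans (le_max_left _ _) (le_max_right _ _))
    (le_trans (le_max_right _ _) hx)
  have hx6 : (4 * ((T : ℝ) + 2)) ^ (1 / (1 - β)) ≤ x :=
    le_trans (le_trans (le_max_right _ _) (le_max_right _ _)) (le_trans (le_max_right _ _) hx)
  have hx0 : 0 < x := by linarith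
  have hx1' : (1 : ℝ) ≤ x := by linarith
  have hlog : 0 < Real.log x := Real.log_pos (by linarith)
  -- the size of `B`
  have hβ0 : 0 < β := by linarith
  have h1β : 0 < 1 - β := by linarith
  set B : ℝ := x ^ β with hB
  have hB1 : 1 ≤ B := Real.one_le_rpow hx1' hβ0.le
  have hBx : B ≤ x := by
    calc B ≤ x ^ (1 : ℝ) := Real.rpow_le_rpow_of_exponent_le hx1' hβ1.le
      _ = x := Real.rpow_one x
  have hTB : 4 * ((T : ℝ) + 2) * B ≤ x := by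
    have h1 : 4 * ((T : ℝ) + 2) ≤ x ^ (1 - β) := by
      have h2 := Real.rpow_le_rpow (by positivity) hx6 h1β.le
      rw [← Real.rpow_mul (by positivity), one_div, inv_mul_cancel₀ h1β.ne', Real.rpow_one] at h2
      exact h2
    calc 4 * ((T : ℝ) + 2) * B ≤ x ^ (1 - β) * B :=
          mul_le_mul_of_nonneg_right h1 (by linarith)
      _ = x ^ ((1 - β) + β) := (Real.rpow_add hx0 _ _).symm
      _ = x := by rw [sub_add_cancel, Real.rpow_one]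
  obtain ⟨-, hYlow, hYup, -, hJJ⟩ := scales hτ hβ hβ1 hx1'
  obtain ⟨Y', v, hY'v, hY'up, hsumv, hvar⟩ := hch x hx4 F hF
  set J := JJ β τ x with hJ
  have hYone : ∀ j, 1 ≤ YY β τ x j := fun j =>
    (Real.one_le_rpow hx1' (by linarith)).trans (hYlow j)
  have hYx : ∀ j, j ≤ J → YY β τ x j ≤ x := by
    intro j hj
    refine (hYup j hj).trans ?_
    calc x ^ (1 - τ) ≤ x ^ (1 : ℝ) := Real.rpow_le_rpow_of_exponent_le hx1' (by linarith)
      _ = x := Real.rpow_one x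
  -- the error terms
  set E : ℕ → ℝ := fun j => ∑ u ∈ Ru (x ^ ρ) (YY β τ x j),
    (((Bl (8 * x ^ 2 / YY β τ x j)).filter
      (fun z => u * z ∈ Rg (4 * ((T : ℝ) + 2)) x B)).card : ℝ) with hE
  have hEsum : ∑ j ∈ Finset.range J, E j ≤ Cm * (12 * (4 * ((T : ℝ) + 2)) * B * x) := by
    have h1 := hmult x (by linarith) (fun j => 8 * x ^ 2 / YY β τ x j)
      (Rg (4 * ((T : ℝ) + 2)) x B) (by
        intro ζ hζ
        rw [Rg, Finset.mem_filter, Bl, Finset.mem_filter] at hζ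
        exact ⟨hζ.1.2.1, hζ.1.2.2⟩)
    have h2 := region_count (T := 4 * ((T : ℝ) + 2)) (x := x) (B := B)
      (by have : (0 : ℝ) ≤ T := Nat.cast_nonneg T
          linarith) hB1 hBx
    exact h1.trans (mul_le_mul_of_nonneg_left h2 (by linarith))
  -- one scale
  have hone : ∀ j ∈ Finset.range J,
      |SCR ψ f α F σ (x ^ ρ) x B (YY β τ x j) M r (2 * Y' j)| ≤
        NN * (Ct * Real.sqrt (v j) * (x ^ (1 + β) / Real.log x)) +
          Cs / Real.sqrt N * E j := by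
    intro j hj
    rw [Finset.mem_range] at hj
    have h1 := hsl N M (Y' j) x B (YY β τ x j) (x ^ ρ) r hN hM hB1 hTB
      (hYone j) (hYx j hj.le) (hY'v j).1 (hY'up j hj) ψ f hψ hf α hα F hF.bd σ hσ
    refine h1.trans (add_le_add ?_ le_rfl)
    refine cr10_five (Cls M) (Cls M) I2 I2 S5 _ _ ?_
    intro w _ c hc a _ b hb s hs
    refine hts x hx3 (YY β τ x j) (hYlow j) (hYup j hj.le) (Y' j) (v j) (hY'v j).2
      (Nat.cast_nonneg _) (hY'up j hj) _ (Finset.filter_subset _ _) α hα F _ ?_ ?_ s hs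
    · intro z hz
      rw [Sl, Slc, Finset.mem_filter, PB, Finset.mem_filter, Bl, Finset.mem_filter] at hz
      exact hz.1.1.2.1
    · exact hvar j hj c hc b hb
  have hX0 : 0 ≤ x ^ (1 + β) := Real.rpow_nonneg hx0.le _
  have hsumSC : ∑ j ∈ Finset.range J,
      |SCR ψ f α F σ (x ^ ρ) x B (YY β τ x j) M r (2 * Y' j)| ≤
        ε / 3 * x ^ (1 + β) + ε / 3 * x ^ (1 + β) := by
    refine (Finset.sum_le_sum hone).trans ?_
    have h3 : ∑ j ∈ Finset.range J,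
        (NN * (Ct * Real.sqrt (v j) * (x ^ (1 + β) / Real.log x)) + Cs / Real.sqrt N * E j) =
        (NN * Ct) * (x ^ (1 + β) / Real.log x) * ∑ j ∈ Finset.range J, Real.sqrt (v j) +
          (Cs / Real.sqrt N) * ∑ j ∈ Finset.range J, E j := by
      rw [Finset.mul_sum, Finset.mul_sum, ← Finset.sum_add_distrib]
      exact Finset.sum_congr rfl fun j _ => by ring
    rw [h3]
    refine add_le_add ?_ ?_
    · have h4 := cr10_cs J v κ (Real.log x) (fun j => (hY'v j).2) hκ0.le hlog.le hJJ hsumv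
      calc (NN * Ct) * (x ^ (1 + β) / Real.log x) * ∑ j ∈ Finset.range J, Real.sqrt (v j)
          ≤ (NN * Ct) * (x ^ (1 + β) / Real.log x) * (κ * Real.log x) :=
            mul_le_mul_of_nonneg_left h4 (by positivity)
        _ = (NN * Ct * κ) * x ^ (1 + β) := by
            field_simp
        _ ≤ ε / 3 * x ^ (1 + β) := mul_le_mul_of_nonneg_right hκ1 hX0
    · have h5 : B * x = x ^ (1 + β) := by
        rw [hB, add_comm, Real.rpow_add hx0, Real.rpow_one]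
      calc (Cs / Real.sqrt N) * ∑ j ∈ Finset.range J, E j
          ≤ (Cs / Real.sqrt N) * (Cm * (12 * (4 * ((T : ℝ) + 2)) * B * x)) :=
            mul_le_mul_of_nonneg_left hEsum (by positivity)
        _ = A / Real.sqrt N * (B * x) := by
            rw [hA]
            ring
        _ ≤ ε / 3 * (B * x) := mul_le_mul_of_nonneg_right hAN (by positivity)
        _ = ε / 3 * x ^ (1 + β) := by rw [h5]
  -- the end
  have hfin := hsm x hx1 δ Λ f hδ hf α hα F hF.bd σ hσ (fun j => 2 * (Y' j : ℝ)) (fun j => by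
    have h := (hY'v j).1
    have h2 : 2 * x ^ 2 / YY β τ x j = 2 * (x ^ 2 / YY β τ x j) := by ring
    rw [h2]
    linarith)
  have htri : ∀ j ∈ Finset.range J,
      |SB f α (gF F) σ (x ^ ρ) x (YY β τ x j) (cf L M B i r)| ≤
      |SB f α (gF F) σ (x ^ ρ) x (YY β τ x j) (cf L M B i r) -
        SCR ψ f α F σ (x ^ ρ) x B (YY β τ x j) M r (2 * (Y' j : ℝ))| +
      |SCR ψ f α F σ (x ^ ρ) x B (YY β τ x j) M r (2 * (Y' j : ℝ))| := by
    intro j _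
    set a := SB f α (gF F) σ (x ^ ρ) x (YY β τ x j) (cf L M B i r)
    set b := SCR ψ f α F σ (x ^ ρ) x B (YY β τ x j) M r (2 * (Y' j : ℝ))
    have h3 : a = (a - b) + b := by ring
    calc |a| = |(a - b) + b| := by rw [← h3]
      _ ≤ |a - b| + |b| := abs_add_le _ _
  calc ∑ j ∈ Finset.range J, |SB f α (gF F) σ (x ^ ρ) x (YY β τ x j) (cf L M B i r)|
      ≤ ∑ j ∈ Finset.range J,
        (|SB f α (gF F) σ (x ^ ρ) x (YY β τ x j) (cf L M B i r) -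
          SCR ψ f α F σ (x ^ ρ) x B (YY β τ x j) M r (2 * (Y' j : ℝ))| +
        |SCR ψ f α F σ (x ^ ρ) x B (YY β τ x j) M r (2 * (Y' j : ℝ))|) :=
        Finset.sum_le_sum htri
    _ = _ := by rw [Finset.sum_add_distrib]
    _ ≤ ε / 3 * x ^ (1 + β) + (ε / 3 * x ^ (1 + β) + ε / 3 * x ^ (1 + β)) :=
        add_le_add hfin hsumSC
    _ = ε * x ^ (1 + β) := by ring

end Pool.Agent.TR

namespace Pool.Agent.TR

theorem cellsR : type_of% @cellsR_pr := @cellsR_pr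

end Pool.Agent.TR
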