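import Pool.Agent.Lib_helper10.T2F.BAS
import Pool.Agent.Lib_helper10.T2F.BHS
import Pool.Agent.Lib_helper10.T2F.CLS
import Pool.Agent.Lib_helper18.TFF.C1
import Pool.Agent.Lib_helper18.TFF.C2
import Pool.Agent.Lib_helper18.TFF.C5
import Pool.Agent.Lib_helper18.TFF.C7
import Pool.Agent.Lib_helper97.TR.Defs

/-! TR, block CR12: divisors of a primitive element with a given norm -/

set_option autoImplicit false

namespace Pool.Agent.TR

open Pool.Agent.T2 Pool.Agent.TF Filter Topology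

theorem cr12_mul_star (z : G) : z * star z = ((nn z : ℕ) : G) := by
  have h := nn_cast z
  apply Zsqrtd.ext
  · simp only [Zsqrtd.re_mul, Zsqrtd.re_star, Zsqrtd.im_star, Zsqrtd.re_natCast]
    rw [h]; ring
  · simp only [Zsqrtd.im_mul, Zsqrtd.re_star, Zsqrtd.im_star, Zsqrtd.im_natCast]
    ring

theorem cr12_unit {e : G} (h : nn e = 1) :
    e = 1 ∨ e = -1 ∨ e = (⟨0, 1⟩ : G) ∨ e = (⟨0, -1⟩ : G) := by
  have h1 := nn_cast e
  rw [h] at h1
  obtain ⟨a, b⟩ := e
  replace h1 : (1 : ℤ) = a ^ 2 + b ^ 2 := by simpa using h1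
  clear h
  have ha : a ≤ 1 := by nlinarith [sq_nonneg b]
  have ha' : -1 ≤ a := by nlinarith [sq_nonneg b]
  have hb : b ≤ 1 := by nlinarith [sq_nonneg a]
  have hb' : -1 ≤ b := by nlinarith [sq_nonneg a]
  interval_cases a <;> interval_cases b
  · exact absurd h1 (by norm_num)
  · right; left; rfl
  · exact absurd h1 (by norm_num)
  · right; right; right; rfl
  · exact absurd h1 (by norm_num)
  · right; right; left; rfl
  · exact absurd h1 (by norm_num)
  · left; rfl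
  · exact absurd h1 (by norm_num)

/-- the gcd with `d` has norm `d` -/
theorem cr12_gcd {z : G} (hz : Prm z) {d : ℕ} (hd : d ∣ nn z) :
    nn (EuclideanDomain.gcd z (d : G)) = d := by
  set g : G := EuclideanDomain.gcd z (d : G) with hg
  have hgz : g ∣ z := EuclideanDomain.gcd_dvd_left _ _
  have hgd : g ∣ (d : G) := EuclideanDomain.gcd_dvd_right _ _
  have h1 : nn g ∣ d := by
    obtain ⟨u, hu⟩ := hgd
    obtain ⟨v, hv⟩ := hgz
    have h2 := det_mul g u v
    rw [← hu, ← hv] at h2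
    have h3 : det (d : G) z = d * z.im := by
      simp [det]
    rw [h3] at h2
    have h4 : ((nn g : ℕ) : ℤ) ∣ (d : ℤ) * z.im := ⟨_, h2⟩
    have h5 := det_mul g (u * ui) v
    have h6 : g * (u * ui) = (d : G) * ui := by rw [← mul_assoc, ← hu]
    rw [h6, ← hv] at h5
    have h7 : det ((d : G) * ui) z = -(d * z.re) := by
      simp [det, ui]
    rw [h7] at h5
    have h8 : ((nn g : ℕ) : ℤ) ∣ (d : ℤ) * z.re := by
      rw [← dvd_neg]
      exact ⟨_, h5⟩
    have h9 : ((nn g : ℕ) : ℤ) ∣ (d : ℤ) * (Int.gcd z.re z.im : ℤ) := by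
      rw [Int.gcd_eq_gcd_ab, mul_add, ← mul_assoc, ← mul_assoc]
      exact dvd_add (h8.mul_right _) (h4.mul_right _)
    rw [show Int.gcd z.re z.im = 1 from hz] at h9
    have h10 : ((nn g : ℕ) : ℤ) ∣ (d : ℤ) := by simpa using h9
    exact_mod_cast h10
  have h2 : d ∣ nn g := by
    have h3 : g = z * EuclideanDomain.gcdA z (d : G) + d * EuclideanDomain.gcdB z (d : G) :=
      EuclideanDomain.gcd_eq_gcd_ab _ _
    set x := EuclideanDomain.gcdA z (d : G)
    set y := EuclideanDomain.gcdB z (d : G)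
    obtain ⟨m, hm⟩ := hd
    have h4 : z * star z = (d : G) * m := by
      rw [cr12_mul_star, hm]; push_cast; ring
    have h5 : ((nn g : ℕ) : G) = (d : G) * (m * x * star x + z * x * star y + star z * star x * y +
        d * y * star y) := by
      rw [← cr12_mul_star, h3, star_add, star_mul', star_mul', star_natCast]
      linear_combination (x * star x) * h4
    have h6 := congrArg Zsqrtd.re h5
    rw [Zsqrtd.re_natCast] at h6
    set W := (m * x * star x + z * x * star y + star z * star x * y + d * y * star y : G)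
    have h7 : ((d : G) * W).re = (d : ℤ) * W.re := by
      rw [Zsqrtd.re_mul, Zsqrtd.re_natCast, Zsqrtd.im_natCast]; ring
    rw [h7] at h6
    have h8 : (d : ℤ) ∣ ((nn g : ℕ) : ℤ) := ⟨_, h6⟩
    exact_mod_cast h8
  exact Nat.dvd_antisymm h1 h2

theorem div_prim_exists_pr {z : G} (hz : Prm z) {d : ℕ} (hd : d ∣ nn z) :
    ∃ t : G, t ∣ z ∧ nn t = d :=
  ⟨EuclideanDomain.gcd z (d : G), EuclideanDomain.gcd_dvd_left _ _, cr12_gcd hz hd⟩

/-- every divisor of norm `d` is the gcd up to a unit -/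
theorem cr12_eq {z : G} (hz : Prm z) {t : G} (ht : t ∣ z) :
    ∃ e : G, nn e = 1 ∧ EuclideanDomain.gcd z ((nn t : ℕ) : G) = t * e := by
  have h0 : t ≠ 0 := by
    rintro rfl
    exact prm_ne hz (zero_dvd_iff.1 ht)
  have hd : nn t ∣ nn z := by
    obtain ⟨v, hv⟩ := ht
    rw [hv, nn_mul]
    exact dvd_mul_right _ _
  have h1 : t ∣ ((nn t : ℕ) : G) := by
    rw [← cr12_mul_star]
    exact dvd_mul_right _ _
  obtain ⟨e, he⟩ := EuclideanDomain.dvd_gcd ht h1
  refine ⟨e, ?_, he⟩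
  have h2 := congrArg nn he
  rw [cr12_gcd hz hd, nn_mul] at h2
  have h3 : 0 < nn t := nn_pos.2 h0
  exact Nat.eq_of_mul_eq_mul_left h3 (by rw [← h2, mul_one])

theorem cr12_assoc {z t t' : G} (hz : Prm z) (ht : t ∣ z) (ht' : t' ∣ z)
    (h : nn t = nn t') : ∃ e : G, nn e = 1 ∧ t' = t * e := by
  obtain ⟨e, he, h1⟩ := cr12_eq hz ht
  obtain ⟨e', he', h2⟩ := cr12_eq hz ht'
  rw [h] at h1
  have h3 : t * e = t' * e' := by rw [← h1, ← h2]
  have h5 : e' * star e' = 1 := by rw [cr12_mul_star, he', Nat.cast_one]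
  refine ⟨e * star e', ?_, ?_⟩
  · rw [nn_mul, nn_star, he, he']
  · rw [← mul_assoc, h3, mul_assoc, h5, mul_one]

theorem div_prim_unique_pr {z t t' : G} (hz : Prm z) (ht : t ∣ z) (ht' : t' ∣ z)
    (h : nn t = nn t') : Associated t t' := by
  obtain ⟨e, he, h1⟩ := cr12_assoc hz ht ht' h
  have h5 : e * star e = 1 := by rw [cr12_mul_star, he, Nat.cast_one]
  exact ⟨⟨e, star e, h5, by rw [mul_comm]; exact h5⟩, h1.symm⟩

/-- the element of the closed octant -/
def cr12_oc (t : G) : G := ⟨max |t.re| |t.im|, min |t.re| |t.im|⟩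

theorem cr12_oc_self {t : G} (h1 : 0 < t.im) (h2 : t.im < t.re) : cr12_oc t = t := by
  have h3 : 0 < t.re := h1.trans h2
  apply Zsqrtd.ext
  · simp only [cr12_oc]
    rw [abs_of_pos h3, abs_of_pos h1, max_eq_left h2.le]
  · simp only [cr12_oc]
    rw [abs_of_pos h3, abs_of_pos h1, min_eq_right h2.le]

theorem cr12_oc_star (t : G) : cr12_oc (star t) = cr12_oc t := by
  simp [cr12_oc]

theorem cr12_oc_mul (t e : G) (he : nn e = 1) : cr12_oc (t * e) = cr12_oc t := by
  rcases cr12_unit he with rfl | rfl | rfl | rfl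
  · rw [mul_one]
  · simp [cr12_oc]
  · apply Zsqrtd.ext
    · simp only [cr12_oc, Zsqrtd.re_mul, Zsqrtd.im_mul]
      simp [max_comm]
    · simp only [cr12_oc, Zsqrtd.re_mul, Zsqrtd.im_mul]
      simp [min_comm]
  · apply Zsqrtd.ext
    · simp only [cr12_oc, Zsqrtd.re_mul, Zsqrtd.im_mul]
      simp [max_comm]
    · simp only [cr12_oc, Zsqrtd.re_mul, Zsqrtd.im_mul]
      simp [min_comm]

theorem cr12_oc_eq (t : G) : (∃ e : G, nn e = 1 ∧ cr12_oc t = t * e) ∨
    (∃ e : G, nn e = 1 ∧ cr12_oc t = star t * e) := by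
  obtain ⟨a, b⟩ := t
  have u1 : nn (1 : G) = 1 := by decide
  have u2 : nn (-1 : G) = 1 := by decide
  have u3 : nn (⟨0, 1⟩ : G) = 1 := by decide
  have u4 : nn (⟨0, -1⟩ : G) = 1 := by decide
  rcases le_total 0 a with ha | ha <;> rcases le_total 0 b with hb | hb <;>
    rcases le_total |b| |a| with hab | hab
  · left; refine ⟨1, u1, ?_⟩
    apply Zsqrtd.ext <;> simp [cr12_oc, abs_of_nonneg ha, abs_of_nonneg hb] at * <;> omega
  · right; refine ⟨⟨0, 1⟩, u3, ?_⟩
    apply Zsqrtd.ext <;> simp [cr12_oc, abs_of_nonneg ha, abs_of_nonneg hb] at * <;> omega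
  · right; refine ⟨1, u1, ?_⟩
    apply Zsqrtd.ext <;> simp [cr12_oc, abs_of_nonneg ha, abs_of_nonpos hb] at * <;> omega
  · left; refine ⟨⟨0, 1⟩, u3, ?_⟩
    apply Zsqrtd.ext <;> simp [cr12_oc, abs_of_nonneg ha, abs_of_nonpos hb] at * <;> omega
  · right; refine ⟨-1, u2, ?_⟩
    apply Zsqrtd.ext <;> simp [cr12_oc, abs_of_nonpos ha, abs_of_nonneg hb] at * <;> omega
  · left; refine ⟨⟨0, -1⟩, u4, ?_⟩
    apply Zsqrtd.ext <;> simp [cr12_oc, abs_of_nonpos ha, abs_of_nonneg hb] at * <;> omega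
  · left; refine ⟨-1, u2, ?_⟩
    apply Zsqrtd.ext <;> simp [cr12_oc, abs_of_nonpos ha, abs_of_nonpos hb] at * <;> omega
  · right; refine ⟨⟨0, -1⟩, u4, ?_⟩
    apply Zsqrtd.ext <;> simp [cr12_oc, abs_of_nonpos ha, abs_of_nonpos hb] at * <;> omega

theorem cr12_not {u : G} (h1 : 0 < u.im) (h2 : u.im < u.re) {e : G} (he : nn e = 1) :
    star u ≠ u * e := by
  intro h
  have hr := congrArg Zsqrtd.re h
  have hi := congrArg Zsqrtd.im h
  rcases cr12_unit he with rfl | rfl | rfl | rfl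
  · simp at hr hi; omega
  · simp at hr hi; omega
  · simp at hr hi; omega
  · simp at hr hi; omega

open Classical in
theorem div_oct_pr {z : G} (hz : Prm z) {d : ℕ} (hd : d ∣ nn z) (h1 : 1 < d) (h2 : ¬ 2 ∣ d) :
    ∃ u : G, (0 < u.im ∧ u.im < u.re ∧ Prm u ∧ nn u = d ∧ ((u ∣ z ∧ ¬ star u ∣ z) ∨
      (star u ∣ z ∧ ¬ u ∣ z))) ∧ ∀ u' : G, 0 < u'.im → u'.im < u'.re → nn u' = d →
        (u' ∣ z ∨ star u' ∣ z) → u' = u := by
  obtain ⟨t, ht, htd⟩ := div_prim_exists_pr hz hd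
  have htp : Prm t := by
    obtain ⟨v, hv⟩ := ht
    rw [hv] at hz
    exact prm_mul_left hz
  have hn : ((d : ℕ) : ℤ) = t.re ^ 2 + t.im ^ 2 := by rw [← htd]; exact nn_cast t
  have hg : Int.gcd t.re t.im = 1 := htp
  have hd2 : ¬ (2 : ℤ) ∣ (d : ℤ) := by
    intro h; exact h2 (by exact_mod_cast h)
  have hre : t.re ≠ 0 := by
    intro h
    rw [h, Int.gcd_zero_left] at hg
    rw [h] at hn
    have h3 : t.im ^ 2 = 1 := by
      rw [← Int.natAbs_sq, hg]; norm_num
    rw [h3] at hn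
    norm_num at hn
    omega
  have him : t.im ≠ 0 := by
    intro h
    rw [h, Int.gcd_zero_right] at hg
    rw [h] at hn
    have h3 : t.re ^ 2 = 1 := by
      rw [← Int.natAbs_sq, hg]; norm_num
    rw [h3] at hn
    norm_num at hn
    omega
  have hne : |t.re| ≠ |t.im| := by
    intro h
    have h3 : t.re ^ 2 = t.im ^ 2 := sq_eq_sq_iff_abs_eq_abs _ _ |>.2 h
    apply hd2
    rw [hn, h3]
    exact ⟨t.im ^ 2, by ring⟩
  set u : G := cr12_oc t with hu
  have hu1 : 0 < u.im := by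
    rw [hu]
    simp only [cr12_oc]
    exact lt_min (abs_pos.2 hre) (abs_pos.2 him)
  have hu2 : u.im < u.re := by
    rw [hu]
    simp only [cr12_oc]
    exact min_lt_max.2 hne
  have hcase : (∃ e : G, nn e = 1 ∧ u = t * e) ∨ (∃ e : G, nn e = 1 ∧ u = star t * e) :=
    cr12_oc_eq t
  have hnu : nn u = d := by
    rcases hcase with ⟨e, he, h⟩ | ⟨e, he, h⟩
    · rw [h, nn_mul, he, mul_one, htd]
    · rw [h, nn_mul, he, mul_one, nn_star, htd]
  have hmul : ∀ {s e w : G}, nn e = 1 → s ∣ w → s * e ∣ w := by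
    intro s e w he hs
    have h5 : e * star e = 1 := by rw [cr12_mul_star, he, Nat.cast_one]
    obtain ⟨v, hv⟩ := hs
    refine ⟨star e * v, ?_⟩
    rw [hv]
    linear_combination (-(s * v)) * h5
  have hdiv : u ∣ z ∨ star u ∣ z := by
    rcases hcase with ⟨e, he, h⟩ | ⟨e, he, h⟩
    · left; rw [h]; exact hmul he ht
    · right; rw [h, star_mul', star_star]; exact hmul (by rw [nn_star, he]) ht
  have hnot : ¬ (u ∣ z ∧ star u ∣ z) := by
    rintro ⟨ha, hb⟩
    obtain ⟨e, he, h⟩ := cr12_assoc hz ha hb (nn_star u).symm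
    exact cr12_not hu1 hu2 he h
  have hpu : Prm u := by
    rcases hdiv with h | h
    · obtain ⟨v, hv⟩ := h
      rw [hv] at hz
      exact prm_mul_left hz
    · obtain ⟨v, hv⟩ := h
      rw [hv] at hz
      exact prm_star.1 (prm_mul_left hz)
  refine ⟨u, ⟨hu1, hu2, hpu, hnu, ?_⟩, ?_⟩
  · rcases hdiv with h | h
    · left; exact ⟨h, fun h' => hnot ⟨h, h'⟩⟩
    · right; exact ⟨h, fun h' => hnot ⟨h', h⟩⟩
  · intro u' h3 h4 h5 h6
    rw [← cr12_oc_self h3 h4, hu]
    rcases h6 with h6 | h6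
    · obtain ⟨e, he, h⟩ := cr12_assoc hz ht h6 (by rw [htd, h5])
      rw [h, cr12_oc_mul _ _ he]
    · obtain ⟨e, he, h⟩ := cr12_assoc hz ht h6 (by rw [htd, nn_star, h5])
      rw [← cr12_oc_star u', h, cr12_oc_mul _ _ he]





end Pool.Agent.TR

namespace Pool.Agent.TR

theorem div_prim_exists : type_of% @div_prim_exists_pr := @div_prim_exists_pr
theorem div_prim_unique : type_of% @div_prim_unique_pr := @div_prim_unique_pr
theorem div_oct : type_of% @div_oct_pr := @div_oct_pr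

end Pool.Agent.TR
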