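import Pool.Agent.Lib_helper97.TRL.CR12
import Pool.Agent.Lib_helper10.T2F.BAS
import Pool.Agent.Lib_helper10.T2F.BHS
import Pool.Agent.Lib_helper10.T2F.CLS
import Pool.Agent.Lib_helper18.TFF.C1
import Pool.Agent.Lib_helper18.TFF.C2
import Pool.Agent.Lib_helper18.TFF.C5
import Pool.Agent.Lib_helper18.TFF.C7
import Pool.Agent.Lib_helper97.TR.Defs

set_option autoImplicit false

namespace Pool.Agent.TR

open Pool.Agent.T2 Pool.Agent.TF Filter Topology

open Classical in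
theorem cr13_mem {R Y : ℝ} {u : G} : u ∈ Ru R Y ↔
    Prm u ∧ (nn u : ℝ) ≤ 2 * Y ∧ 0 < u.im ∧ u.im < u.re ∧ Y < (nn u : ℝ) ∧ Rough R (nn u) := by
  unfold Ru
  rw [Finset.mem_filter, mem_PB]
  tauto

open Classical in
theorem div_sum_pr {z : G} (hz : Prm z) {R Y : ℝ} (hR : 2 ≤ R) (hY : 1 ≤ Y) (g : ℕ → ℝ)
    (hg : ∀ d, g d ≠ 0 → Rough R d) :
    ∑ d ∈ (nn z).divisors.filter (fun d : ℕ => Y < (d : ℝ) ∧ (d : ℝ) ≤ 2 * Y), g d =
      ∑ u ∈ Ru R Y, ((if u ∣ z then g (nn u) else 0) + (if star u ∣ z then g (nn u) else 0)) := by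
  have hz0 : nn z ≠ 0 := (nn_pos.mpr (prm_ne hz)).ne'
  -- the rough divisors
  have hodd : ∀ d : ℕ, Rough R d → ¬ 2 ∣ d := by
    intro d hd h2
    have := hd.2 2 Nat.prime_two h2
    push_cast at this
    linarith
  -- both sides restricted
  set A := ((nn z).divisors.filter (fun d : ℕ => Y < (d : ℝ) ∧ (d : ℝ) ≤ 2 * Y)).filter
    (fun d => Rough R d) with hA
  set B := (Ru R Y).filter (fun u => u ∣ z ∨ star u ∣ z) with hB
  have hL : ∑ d ∈ (nn z).divisors.filter (fun d : ℕ => Y < (d : ℝ) ∧ (d : ℝ) ≤ 2 * Y), g d =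
      ∑ d ∈ A, g d := by
    symm
    apply Finset.sum_subset (Finset.filter_subset _ _)
    intro d hd hd'
    by_contra h
    exact hd' (Finset.mem_filter.mpr ⟨hd, hg d h⟩)
  have hRt : ∑ u ∈ Ru R Y, ((if u ∣ z then g (nn u) else 0) +
      (if star u ∣ z then g (nn u) else 0)) =
      ∑ u ∈ B, ((if u ∣ z then g (nn u) else 0) + (if star u ∣ z then g (nn u) else 0)) := by
    symm
    apply Finset.sum_subset (Finset.filter_subset _ _)
    intro u hu hu'
    have h : ¬ (u ∣ z ∨ star u ∣ z) := fun h => hu' (Finset.mem_filter.mpr ⟨hu, h⟩)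
    push Not at h
    rw [if_neg h.1, if_neg h.2, add_zero]
  rw [hL, hRt]
  symm
  apply Finset.sum_bij (fun u _ => nn u)
  · intro u hu
    rw [hB, Finset.mem_filter, cr13_mem] at hu
    obtain ⟨⟨h1, h2, h3, h4, h5, h6⟩, h7⟩ := hu
    rw [hA, Finset.mem_filter, Finset.mem_filter, Nat.mem_divisors]
    refine ⟨⟨⟨?_, hz0⟩, h5, h2⟩, h6⟩
    rcases h7 with h7 | h7
    · exact pel_nn_dvd h7
    · have := pel_nn_dvd h7
      rwa [nn_star] at this
  · intro u hu u' hu' h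
    rw [hB, Finset.mem_filter, cr13_mem] at hu hu'
    obtain ⟨⟨h1, h2, h3, h4, h5, h6⟩, h7⟩ := hu
    obtain ⟨⟨h1', h2', h3', h4', h5', h6'⟩, h7'⟩ := hu'
    have hd : nn u ∣ nn z := by
      rcases h7 with h7 | h7
      · exact pel_nn_dvd h7
      · have := pel_nn_dvd h7
        rwa [nn_star] at this
    have h1d : 1 < nn u := by
      have : (1 : ℝ) < nn u := by linarith
      exact_mod_cast this
    obtain ⟨v, -, hv⟩ := div_oct hz hd h1d (hodd _ h6)
    have e1 := hv u h3 h4 rfl h7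
    have e2 := hv u' h3' h4' h.symm h7'
    rw [e1, e2]
  · intro d hd
    rw [hA, Finset.mem_filter, Finset.mem_filter, Nat.mem_divisors] at hd
    obtain ⟨⟨⟨h1, -⟩, h2, h3⟩, h4⟩ := hd
    have h1d : 1 < d := by
      have : (1 : ℝ) < d := by linarith
      exact_mod_cast this
    obtain ⟨u, ⟨ha, hb, hc, he, hf⟩, -⟩ := div_oct hz h1 h1d (hodd _ h4)
    refine ⟨u, ?_, he⟩
    rw [hB, Finset.mem_filter, cr13_mem, he]
    refine ⟨⟨hc, h3, ha, hb, h2, h4⟩, ?_⟩
    rcases hf with hf | hf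
    · exact Or.inl hf.1
    · exact Or.inr hf.1
  · intro u hu
    rw [hB, Finset.mem_filter, cr13_mem] at hu
    obtain ⟨⟨h1, h2, h3, h4, h5, h6⟩, h7⟩ := hu
    have hd : nn u ∣ nn z := by
      rcases h7 with h7 | h7
      · exact pel_nn_dvd h7
      · have := pel_nn_dvd h7
        rwa [nn_star] at this
    have h1d : 1 < nn u := by
      have : (1 : ℝ) < nn u := by linarith
      exact_mod_cast this
    obtain ⟨v, ⟨-, -, -, -, hf⟩, hv⟩ := div_oct hz hd h1d (hodd _ h6)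
    have e1 := hv u h3 h4 rfl h7
    subst e1
    rcases hf with ⟨hf1, hf2⟩ | ⟨hf1, hf2⟩
    · rw [if_pos hf1, if_neg hf2, add_zero]
    · rw [if_neg hf2, if_pos hf1, zero_add]



end Pool.Agent.TR

namespace Pool.Agent.TR

theorem div_sum : type_of% @div_sum_pr := @div_sum_pr

end Pool.Agent.TR
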