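import Pool.Agent.Lib_helper97.TRL.CR1
import Pool.Agent.Lib_helper10.T2F.BAS
import Pool.Agent.Lib_helper10.T2F.BHS
import Pool.Agent.Lib_helper10.T2F.CLS
import Pool.Agent.Lib_helper18.TFF.C1
import Pool.Agent.Lib_helper18.TFF.C2
import Pool.Agent.Lib_helper18.TFF.C5
import Pool.Agent.Lib_helper18.TFF.C7
import Pool.Agent.Lib_helper97.TR.Defs

set_option autoImplicit false

namespace Pool.Agent.TR

open Pool.Agent.T2 Pool.Agent.TF Filter Topology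

theorem cr2_yy_mono {β τ x : ℝ} (hx : 0 < x) {i j : ℕ} (h : i < j) :
    2 * YY β τ x i ≤ YY β τ x j := by
  unfold YY
  have hp : 0 < x ^ (1 - β + τ) := Real.rpow_pos_of_pos hx _
  have h1 : (2 : ℝ) ^ (i + 1) ≤ 2 ^ j := pow_le_pow_right₀ (by norm_num) h
  have h2 : (2 : ℝ) ^ (i + 1) * x ^ (1 - β + τ) ≤ 2 ^ j * x ^ (1 - β + τ) :=
    mul_le_mul_of_nonneg_right h1 hp.le
  calc 2 * (2 ^ i * x ^ (1 - β + τ)) = (2 : ℝ) ^ (i + 1) * x ^ (1 - β + τ) := by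
        rw [pow_succ]; ring
    _ ≤ _ := h2

open Classical in
theorem cr2_mem {R Y : ℝ} {u : G} (h : u ∈ Ru R Y) :
    0 < u.im ∧ u.im < u.re ∧ Y < (nn u : ℝ) ∧ (nn u : ℝ) ≤ 2 * Y ∧ Rough R (nn u) := by
  unfold Ru at h
  rw [Finset.mem_filter, mem_PB] at h
  exact ⟨h.2.1, h.2.2.1, h.2.2.2.1, h.1.2, h.2.2.2.2⟩

open Classical in
theorem cr2_card_le {S : Finset G} {D : ℝ} {v : G} (hv : v ≠ 0) :
    ((Bl D).filter (fun z => v * z ∈ S)).card ≤ (S.filter (fun ζ => v ∣ ζ)).card := by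
  apply Finset.card_le_card_of_injOn (fun z => v * z)
  · intro z hz
    rw [Finset.mem_coe, Finset.mem_filter] at hz
    rw [Finset.mem_coe, Finset.mem_filter]
    exact ⟨hz.2, dvd_mul_right _ _⟩
  · intro z _ w _ h
    exact mul_left_cancel₀ hv h

open Classical in
theorem mult_countR_pr {β τ ρ : ℝ} (hτ : 0 < τ) (hβ : 2 * τ < β) (hβ1 : β < 1) (hρ : 0 < ρ) :
    ∃ C : ℝ, 1 ≤ C ∧ ∀ x : ℝ, 2 ≤ x → ∀ (D : ℕ → ℝ) (S : Finset G),
      (∀ ζ ∈ S, ζ ≠ 0 ∧ (nn ζ : ℝ) ≤ 16 * x ^ 2) →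
      ∑ j ∈ Finset.range (JJ β τ x), ∑ u ∈ Ru (x ^ ρ) (YY β τ x j),
        (((Bl (D j)).filter (fun z => u * z ∈ S)).card : ℝ) ≤ C * S.card := by
  obtain ⟨C, hC, h⟩ := rough_div_count hρ
  refine ⟨C, hC, ?_⟩
  intro x hx D S hS
  have hx0 : (0 : ℝ) < x := by linarith
  have h1 : ∑ j ∈ Finset.range (JJ β τ x), ∑ u ∈ Ru (x ^ ρ) (YY β τ x j),
        (((Bl (D j)).filter (fun z => u * z ∈ S)).card : ℝ) ≤
      ∑ j ∈ Finset.range (JJ β τ x), ∑ u ∈ Ru (x ^ ρ) (YY β τ x j),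
        ∑ ζ ∈ S, (if u ∣ ζ then (1 : ℝ) else 0) := by
    refine Finset.sum_le_sum (fun j _ => Finset.sum_le_sum (fun u hu => ?_))
    have hm := cr2_mem hu
    have hu0 : u ≠ 0 := by
      rintro rfl
      simp at hm
    have h2 := cr2_card_le (S := S) (D := D j) hu0
    rw [Finset.sum_boole]
    exact_mod_cast h2
  refine h1.trans ?_
  have h2 : ∑ j ∈ Finset.range (JJ β τ x), ∑ u ∈ Ru (x ^ ρ) (YY β τ x j),
        ∑ ζ ∈ S, (if u ∣ ζ then (1 : ℝ) else 0) =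
      ∑ ζ ∈ S, ∑ j ∈ Finset.range (JJ β τ x), ∑ u ∈ Ru (x ^ ρ) (YY β τ x j),
        (if u ∣ ζ then (1 : ℝ) else 0) := by
    rw [Finset.sum_comm (s := S)]
    exact Finset.sum_congr rfl (fun j _ => Finset.sum_comm)
  rw [h2]
  have h3 : ∀ ζ ∈ S, ∑ j ∈ Finset.range (JJ β τ x), ∑ u ∈ Ru (x ^ ρ) (YY β τ x j),
        (if u ∣ ζ then (1 : ℝ) else 0) ≤ C := by
    intro ζ hζ
    obtain ⟨hζ0, hζ1⟩ := hS ζ hζ
    have h4 : ∑ j ∈ Finset.range (JJ β τ x), ∑ u ∈ Ru (x ^ ρ) (YY β τ x j),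
        (if u ∣ ζ then (1 : ℝ) else 0) =
        ((((Finset.range (JJ β τ x)).biUnion (fun j =>
          (Ru (x ^ ρ) (YY β τ x j)).filter (fun u => u ∣ ζ))).card : ℕ) : ℝ) := by
      rw [Finset.card_biUnion]
      · push_cast
        refine Finset.sum_congr rfl (fun j _ => ?_)
        rw [Finset.sum_boole]
      · intro i _ j _ hij
        rw [Function.onFun, Finset.disjoint_left]
        intro u hu hu'
        obtain ⟨-, -, hp1, hp2, -⟩ := cr2_mem (Finset.mem_filter.mp hu).1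
        obtain ⟨-, -, hp3, hp4, -⟩ := cr2_mem (Finset.mem_filter.mp hu').1
        rcases lt_or_gt_of_ne hij with h | h
        · have := cr2_yy_mono (β := β) (τ := τ) hx0 h
          linarith
        · have := cr2_yy_mono (β := β) (τ := τ) hx0 h
          linarith
    rw [h4]
    apply h x hx ζ hζ0 hζ1
    intro u hu
    rw [Finset.mem_biUnion] at hu
    obtain ⟨j, -, hu⟩ := hu
    rw [Finset.mem_filter] at hu
    obtain ⟨ha, hb, -, -, hc⟩ := cr2_mem hu.1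
    exact ⟨ha, hb, hc, hu.2⟩
  calc ∑ ζ ∈ S, ∑ j ∈ Finset.range (JJ β τ x), ∑ u ∈ Ru (x ^ ρ) (YY β τ x j),
        (if u ∣ ζ then (1 : ℝ) else 0) ≤ ∑ ζ ∈ S, C := Finset.sum_le_sum h3
    _ = C * S.card := by
        rw [Finset.sum_const, nsmul_eq_mul, mul_comm]



end Pool.Agent.TR

namespace Pool.Agent.TR

theorem mult_countR : type_of% @mult_countR_pr := @mult_countR_pr

end Pool.Agent.TR
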