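import Pool.Agent.Lib_helper10.T2F.BAS
import Pool.Agent.Lib_helper10.T2F.BHS
import Pool.Agent.Lib_helper10.T2F.CLS
import Pool.Agent.Lib_helper18.TFF.C1
import Pool.Agent.Lib_helper18.TFF.C2
import Pool.Agent.Lib_helper18.TFF.C5
import Pool.Agent.Lib_helper18.TFF.C7
import Pool.Agent.Lib_helper97.TR.Defs

/-! TR, block CR5 (helper4): positivity, Fourier expansion for bounded coefficients. -/

set_option autoImplicit false

namespace Pool.Agent.TR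

open Pool.Agent.T2 Pool.Agent.TF Filter Topology

/-- the sum of the indicator weights -/
theorem cr5_ls : ∃ C : ℝ, 1 ≤ C ∧ ∀ b : G → ℝ, (∀ z, |b z| ≤ 1) → ∀ (Y : ℝ) (S : Finset G), 1 ≤ Y → S ⊆ PB Y → ∀ K : ℝ, 0 ≤ K →
    ∑ k ∈ Ks K, ‖∑ w ∈ S, (b w : ℂ) * ang k w‖ ^ 2 ≤ C * (K + Y) * Y := by
  classical
  obtain ⟨C₁, hC₁, h1⟩ := large_sieve
  obtain ⟨C₂, hC₂, h2⟩ := ball_le
  refine ⟨C₁ * C₂, by nlinarith, fun b hb Y S hY hS K hK => ?_⟩
  have h3 := h1 K Y hK hY (fun z => if z ∈ S then (b z : ℂ) else 0)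
  have h4 : ∀ k : ℤ, ∑ z ∈ PB Y, (if z ∈ S then (b z : ℂ) else 0) * ang k z =
      ∑ w ∈ S, (b w : ℂ) * ang k w := by
    intro k
    rw [← Finset.sum_subset hS]
    · apply Finset.sum_congr rfl
      intro z hz
      rw [if_pos hz]
    · intro z _ hz
      rw [if_neg hz, zero_mul]
  simp only [h4] at h3
  refine h3.trans ?_
  have h5 : ∑ z ∈ PB Y, ‖(if z ∈ S then (b z : ℂ) else 0)‖ ^ 2 ≤ C₂ * Y := by
    have h6 : ∑ z ∈ PB Y, ‖(if z ∈ S then (b z : ℂ) else 0)‖ ^ 2 ≤ ∑ z ∈ PB Y, (1 : ℝ) := by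
      apply Finset.sum_le_sum
      intro z _
      split_ifs
      · rw [Complex.norm_real, Real.norm_eq_abs, sq_abs]
        have := hb z
        rw [← sq_abs]
        nlinarith [abs_nonneg (b z)]
      · simp
    refine h6.trans ?_
    rw [Finset.sum_const, nsmul_eq_mul, mul_one]
    refine le_trans ?_ (h2 Y (by linarith))
    exact_mod_cast Finset.card_le_card (Finset.filter_subset _ _)
  calc C₁ * (K + Y) * ∑ z ∈ PB Y, ‖(if z ∈ S then (b z : ℂ) else 0)‖ ^ 2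
      ≤ C₁ * (K + Y) * (C₂ * Y) := mul_le_mul_of_nonneg_left h5 (by positivity)
    _ = C₁ * C₂ * (K + Y) * Y := by ring

theorem cr5_hat : ∃ C : ℝ, 1 ≤ C ∧ ∀ b : G → ℝ, (∀ z, |b z| ≤ 1) → ∀ (Y K w₀ θ₀ : ℝ) (S S' : Finset G), 1 ≤ Y → 1 ≤ K →
    0 < w₀ → w₀ ≤ 1 → |θ₀| ≤ 1 → S ⊆ PB Y → S' ⊆ PB Y →
    |∑ w ∈ S, ∑ w' ∈ S', b w * b w' * hat ((ag w w' - θ₀) / w₀)| ≤
      w₀ * ∑ k ∈ Ks K, (‖∑ w ∈ S, (b w : ℂ) * ang k w‖ ^ 2 +
        ‖∑ w ∈ S', (b w : ℂ) * ang k w‖ ^ 2) + C * (1 / (w₀ * K) + Y / (w₀ * K ^ 2)) * Y := by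
  classical
  obtain ⟨C, hC, hls⟩ := cr5_ls
  refine ⟨4 * C, by linarith, fun b hb Y K w₀ θ₀ S S' hY hK hw hw1 hθ hS hS' => ?_⟩
  obtain ⟨c, hc1, hc2, hc3, hc4⟩ := hat_fourier w₀ θ₀ hw hw1 hθ
  set A : ℤ → ℂ := fun k => ∑ w ∈ S, (b w : ℂ) * ang k w with hA
  set B : ℤ → ℂ := fun k => ∑ w ∈ S', (b w : ℂ) * ang k w with hB
  set A' : ℤ → ℂ := fun k => ∑ w ∈ S, (b w : ℂ) * ang (-k) w with hA'
  have hne : ∀ {z : G} {T : Finset G}, T ⊆ PB Y → z ∈ T → z ≠ 0 := by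
    intro z T hT hz
    exact prm_ne (mem_PB.1 (hT hz)).1
  have hAA : ∀ k, ‖A' k‖ = ‖A k‖ := by
    intro k
    have : A' k = (starRingEnd ℂ) (A k) := by
      simp only [hA, hA']
      rw [map_sum]
      apply Finset.sum_congr rfl
      intro w hw
      rw [map_mul, Complex.conj_ofReal, ang_conj k (hne hS hw)]
    rw [this, RCLike.norm_conj]
  -- the summability of each pair
  have hsp : ∀ w ∈ S, ∀ w' ∈ S', Summable (fun k : ℤ => c k * (ang (-k) w * ang k w')) := by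
    intro w hw w' hw'
    apply Summable.of_norm
    refine Summable.of_nonneg_of_le (fun k => norm_nonneg _) (fun k => ?_) hc1
    rw [norm_mul, norm_mul]
    have h1 := ang_le (-k) w
    have h2 := ang_le k w'
    have h3 : ‖ang (-k) w‖ * ‖ang k w'‖ ≤ 1 := mul_le_one₀ h1 (norm_nonneg _) h2
    calc ‖c k‖ * (‖ang (-k) w‖ * ‖ang k w'‖) ≤ ‖c k‖ * 1 :=
          mul_le_mul_of_nonneg_left h3 (norm_nonneg _)
      _ = ‖c k‖ := mul_one _
  -- the sum as a series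
  have hser : ((∑ w ∈ S, ∑ w' ∈ S', b w * b w' * hat ((ag w w' - θ₀) / w₀) : ℝ) : ℂ) =
      ∑' k : ℤ, c k * (A' k * B k) := by
    have h1 : ((∑ w ∈ S, ∑ w' ∈ S', b w * b w' * hat ((ag w w' - θ₀) / w₀) : ℝ) : ℂ) =
        ∑ w ∈ S, ∑ w' ∈ S', ∑' k : ℤ, (b w : ℂ) * b w' * (c k * (ang (-k) w * ang k w')) := by
      push_cast
      apply Finset.sum_congr rfl
      intro w hw'
      apply Finset.sum_congr rfl
      intro w' hw''
      rw [tsum_mul_left, ← bhs_pair hc4 (hne hS hw') (hne hS' hw'')]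
    rw [h1]
    have h2 : ∀ w ∈ S, ∑ w' ∈ S', ∑' k : ℤ,
        (b w : ℂ) * b w' * (c k * (ang (-k) w * ang k w')) =
        ∑' k : ℤ, ∑ w' ∈ S', (b w : ℂ) * b w' * (c k * (ang (-k) w * ang k w')) := by
      intro w hw'
      rw [Summable.tsum_finsetSum]
      intro w' hw''
      exact (hsp w hw' w' hw'').mul_left _
    rw [Finset.sum_congr rfl h2, ← Summable.tsum_finsetSum]
    · congr 1
      ext k
      simp only [hA', hB]
      rw [Finset.sum_mul_sum, Finset.mul_sum]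
      apply Finset.sum_congr rfl
      intro w _
      rw [Finset.mul_sum]
      apply Finset.sum_congr rfl
      intro w' _
      ring
    · intro w hw'
      apply summable_sum
      intro w' hw''
      exact (hsp w hw' w' hw'').mul_left _
  -- bounds for the coefficients
  set e : ℤ → ℝ := fun k => (‖A k‖ ^ 2 + ‖B k‖ ^ 2) / 2 with he
  have he0 : ∀ k, 0 ≤ e k := fun k => by simp only [he]; positivity
  have hterm : ∀ k, ‖c k * (A' k * B k)‖ ≤ ‖c k‖ * e k := by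
    intro k
    rw [norm_mul, norm_mul, hAA k]
    apply mul_le_mul_of_nonneg_left _ (norm_nonneg _)
    simp only [he]
    nlinarith [sq_nonneg (‖A k‖ - ‖B k‖)]
  have hls2 : ∀ K : ℝ, 0 ≤ K → ∑ k ∈ Ks K, e k ≤ C * (K + Y) * Y := by
    intro K hK
    have h1 := hls b hb Y S hY hS K hK
    have h2 := hls b hb Y S' hY hS' K hK
    simp only [he]
    rw [← Finset.sum_div, Finset.sum_add_distrib]
    linarith
  -- finite sums
  set R : ℝ := w₀ * ∑ k ∈ Ks K, (‖A k‖ ^ 2 + ‖B k‖ ^ 2) +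
    4 * C * (1 / (w₀ * K) + Y / (w₀ * K ^ 2)) * Y with hR
  have hfin : ∀ F : Finset ℤ, ∑ k ∈ F, ‖c k‖ * e k ≤ R := by
    intro F
    -- choose `n`
    obtain ⟨n, hn⟩ : ∃ n : ℕ, F ⊆ Ks (2 ^ n * K) := by
      obtain ⟨M, hM⟩ : ∃ M : ℝ, ∀ k ∈ F, |(k : ℝ)| ≤ M := by
        refine ⟨∑ k ∈ F, |(k : ℝ)|, fun k hk => ?_⟩
        exact Finset.single_le_sum (f := fun k : ℤ => |(k : ℝ)|) (fun _ _ => abs_nonneg _) hk
      obtain ⟨n, hn⟩ := pow_unbounded_of_one_lt M (show (1 : ℝ) < 2 by norm_num)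
      refine ⟨n, fun k hk => ?_⟩
      rw [mem_Ks]
      have : (0 : ℝ) < 2 ^ n := by positivity
      nlinarith [hM k hk]
    have h1 : ∑ k ∈ F, ‖c k‖ * e k ≤ ∑ k ∈ Ks K ∪ (Ks (2 ^ n * K) \ Ks K), ‖c k‖ * e k := by
      apply Finset.sum_le_sum_of_subset_of_nonneg
      · intro k hk
        rw [Finset.mem_union, Finset.mem_sdiff]
        by_cases h : k ∈ Ks K
        · exact Or.inl h
        · exact Or.inr ⟨hn hk, h⟩
      · intro k _ _
        exact mul_nonneg (norm_nonneg _) (he0 k)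
    refine h1.trans ?_
    rw [Finset.sum_union Finset.disjoint_sdiff]
    have h2 : ∑ k ∈ Ks K, ‖c k‖ * e k ≤ w₀ * ∑ k ∈ Ks K, (‖A k‖ ^ 2 + ‖B k‖ ^ 2) := by
      rw [Finset.mul_sum]
      apply Finset.sum_le_sum
      intro k _
      calc ‖c k‖ * e k ≤ w₀ * e k := mul_le_mul_of_nonneg_right (hc2 k) (he0 k)
        _ ≤ w₀ * (‖A k‖ ^ 2 + ‖B k‖ ^ 2) := by
          apply mul_le_mul_of_nonneg_left _ hw.le
          simp only [he]
          have : 0 ≤ ‖A k‖ ^ 2 + ‖B k‖ ^ 2 := by positivity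
          linarith
    have h3 := bhs_tail hC e he0 hY (show 0 ≤ Y by linarith) hls2 hw hc3 hK n
    have h4 : C * Y / w₀ * ((4 - 4 * (1 / 2) ^ n) / K + (4 / 3) * (1 - (1 / 4) ^ n) * Y / K ^ 2) ≤
        4 * C * (1 / (w₀ * K) + Y / (w₀ * K ^ 2)) * Y := by
      have e1 : 4 * C * (1 / (w₀ * K) + Y / (w₀ * K ^ 2)) * Y =
          C * Y / w₀ * (4 / K + 4 * Y / K ^ 2) := by
        field_simp
      rw [e1]
      have hK0 : 0 < K := by linarith
      have hY0 : 0 < Y := by linarith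
      have hCY : 0 ≤ C * Y / w₀ := by positivity
      apply mul_le_mul_of_nonneg_left _ hCY
      have p1 : (0 : ℝ) ≤ (1 / 2) ^ n := by positivity
      have p2 : (0 : ℝ) ≤ (1 / 4) ^ n := by positivity
      apply add_le_add
      · apply div_le_div_of_nonneg_right _ hK0.le
        linarith
      · apply div_le_div_of_nonneg_right _ (by positivity)
        apply mul_le_mul_of_nonneg_right _ hY0.le
        linarith
    rw [hR]
    linarith
  -- conclusion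
  have hsumm : Summable (fun k => ‖c k‖ * e k) :=
    summable_of_sum_le (fun k => mul_nonneg (norm_nonneg _) (he0 k)) hfin
  have h1 : |∑ w ∈ S, ∑ w' ∈ S', b w * b w' * hat ((ag w w' - θ₀) / w₀)| =
      ‖∑' k : ℤ, c k * (A' k * B k)‖ := by
    rw [← hser, Complex.norm_real, Real.norm_eq_abs]
  rw [h1]
  have h2 : Summable (fun k => ‖c k * (A' k * B k)‖) :=
    Summable.of_nonneg_of_le (fun k => norm_nonneg _) hterm hsumm
  calc ‖∑' k : ℤ, c k * (A' k * B k)‖ ≤ ∑' k : ℤ, ‖c k * (A' k * B k)‖ := norm_tsum_le_tsum_norm h2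
    _ ≤ ∑' k : ℤ, ‖c k‖ * e k := Summable.tsum_le_tsum hterm h2 hsumm
    _ ≤ R := hsumm.tsum_le_of_sum_le hfin


theorem svF_nonneg_pr (F : ℕ → ℝ) (S : Finset G) (hS : ∀ w ∈ S, w ≠ 0) {k : ℝ} (hk : 0 < k)
    (hk1 : k ≤ 1) : 0 ≤ SVF F S k := by
  have e3 := c7_exp (U := S) (S := S) (k := k) (fun w => F (nn w)) (fun w => F (nn w))
    (fun u => Complex.arg (u : ℂ) - 0)
    (fun w => Complex.arg (w : ℂ) - 0) (fun u w => hat (ag u w / k))
    (fun u hu w hw => c7_K0 hk hk1 0 (hS u hu) (hS w hw))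
  have h1 : 0 ≤ k * SVF F S k := by
    unfold SVF
    rw [← e3]
    exact intervalIntegral.integral_nonneg (by linarith [Real.pi_pos]) fun φ _ =>
      mul_self_nonneg _
  exact nonneg_of_mul_nonneg_right h1 hk

theorem hat_sumF_pr : ∃ C : ℝ, 1 ≤ C ∧ ∀ (F : ℕ → ℝ) (Y K w₀ : ℝ) (S : Finset G),
    (∀ n, |F n| ≤ 1) → 1 ≤ Y → 1 ≤ K → 0 < w₀ → w₀ ≤ 1 → S ⊆ PB Y →
    SVF F S w₀ ≤ 2 * w₀ * ∑ k ∈ Ks K, ‖∑ w ∈ S, (F (nn w) : ℂ) * ang k w‖ ^ 2 +
      C * (1 / (w₀ * K) + Y / (w₀ * K ^ 2)) * Y := by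
  obtain ⟨C, hC, h⟩ := cr5_hat
  refine ⟨C, hC, fun F Y K w₀ S hF hY hK hw hw1 hS => ?_⟩
  have h1 := h (fun z => F (nn z)) (fun z => hF (nn z)) Y K w₀ 0 S S hY hK hw hw1 (by simp) hS hS
  have h2 : SVF F S w₀ = ∑ w ∈ S, ∑ w' ∈ S, F (nn w) * F (nn w') *
      hat ((ag w w' - 0) / w₀) := by
    simp only [sub_zero]
    rfl
  rw [h2]
  refine (le_abs_self _).trans (h1.trans (le_of_eq ?_))
  rw [Finset.sum_add_distrib]
  ring




end Pool.Agent.TR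

namespace Pool.Agent.TR

theorem svF_nonneg : type_of% @svF_nonneg_pr := @svF_nonneg_pr
theorem hat_sumF : type_of% @hat_sumF_pr := @hat_sumF_pr

end Pool.Agent.TR
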