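import Pool.Agent.Lib_helper18.TFF.F1
import Pool.Agent.Lib_helper10.T2F.TKA
import Pool.Agent.Lib_helper97.TRL.D50

/-! Part K: two known facts (Mertens' theorem for the primes `1 mod 4`, Chebyshev) -/

set_option autoImplicit false

namespace Pool.Agent.TR

open Pool.Agent.T2 Pool.Agent.TF

theorem k_mertens : ∃ C : ℝ, 0 ≤ C ∧ ∀ x : ℕ, 1 ≤ x →
    |∑ p ∈ (Finset.Icc 1 x).filter (fun p => p.Prime ∧ p % 4 = 1), Real.log p / p -
      1 / 2 * Real.log x| ≤ C := f1_Q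

theorem k_pi {y : ℝ} (hy : 2 ≤ y) :
    (Nat.primeCounting ⌊y⌋₊ : ℝ) ≤ 5 * y / Real.log y := tka_pi hy

end Pool.Agent.TR
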