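import Pool.Agent.Lib_helper10.T2F.BAS
import Pool.Agent.Lib_helper97.TRL.D42
import Pool.Agent.Lib_helper97.TRL.D50

set_option autoImplicit false

namespace Pool.Agent.TR

theorem k1_eq (S : Finset ℕ) (x : ℕ → ℝ) (K : ℕ) :
    ∑ T ∈ S.powerset, (if T.card = K then ∏ p ∈ T, (-x p) else 0) =
      (-1) ^ K * ∑ T ∈ S.powersetCard K, ∏ p ∈ T, x p := by
  rw [Finset.powersetCard_eq_filter, Finset.sum_filter, Finset.mul_sum]
  refine Finset.sum_congr rfl fun T _ => ?_
  split_ifs with h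
  · rw [Finset.prod_neg, h]
  · rw [mul_zero]

theorem k1_rec (S : Finset ℕ) (x : ℕ → ℝ) (K q : ℕ) (hq : q ∉ S) :
    ∑ T ∈ (insert q S).powerset.filter (fun T => T.card ≤ K), ∏ p ∈ T, (-x p) =
      (1 - x q) * (∑ T ∈ S.powerset.filter (fun T => T.card ≤ K), ∏ p ∈ T, (-x p)) +
      x q * ((-1) ^ K * ∑ T ∈ S.powersetCard K, ∏ p ∈ T, x p) := by
  rw [← k1_eq, Finset.sum_filter, Finset.sum_filter, Finset.sum_powerset_insert hq]
  have h : ∑ T ∈ S.powerset, (if (insert q T).card ≤ K then ∏ p ∈ insert q T, (-x p) else 0) =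
      (-x q) * (∑ T ∈ S.powerset, (if T.card ≤ K then ∏ p ∈ T, (-x p) else 0) -
        ∑ T ∈ S.powerset, (if T.card = K then ∏ p ∈ T, (-x p) else 0)) := by
    rw [← Finset.sum_sub_distrib, Finset.mul_sum]
    refine Finset.sum_congr rfl fun T hT => ?_
    have hqT : q ∉ T := fun h => hq (Finset.mem_powerset.1 hT h)
    rw [Finset.card_insert_of_notMem hqT, Finset.prod_insert hqT]
    rcases lt_trichotomy T.card K with h1 | h1 | h1
    · rw [if_pos (by omega), if_pos h1.le, if_neg h1.ne]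
      ring
    · rw [if_neg (by omega), if_pos h1.le, if_pos h1]
      ring
    · rw [if_neg (by omega), if_neg (by omega), if_neg (by omega)]
      ring
  rw [h]
  ring

theorem k1_card (S : Finset ℕ) (x : ℕ → ℝ) (K q : ℕ) (hq : q ∉ S) :
    ∑ T ∈ (insert q S).powersetCard (K + 1), ∏ p ∈ T, x p =
      ∑ T ∈ S.powersetCard (K + 1), ∏ p ∈ T, x p + x q * ∑ T ∈ S.powersetCard K, ∏ p ∈ T, x p := by
  rw [Finset.powersetCard_eq_filter, Finset.powersetCard_eq_filter, Finset.powersetCard_eq_filter,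
    Finset.sum_filter, Finset.sum_filter, Finset.sum_filter, Finset.sum_powerset_insert hq,
    Finset.mul_sum]
  congr 1
  refine Finset.sum_congr rfl fun T hT => ?_
  have hqT : q ∉ T := fun h => hq (Finset.mem_powerset.1 hT h)
  rw [Finset.card_insert_of_notMem hqT, Finset.prod_insert hqT]
  by_cases h1 : T.card = K
  · rw [if_pos (by omega), if_pos h1]
  · rw [if_neg (by omega), if_neg h1, mul_zero]

/-- K1 -/
theorem bonf_one_pr (S : Finset ℕ) (x : ℕ → ℝ) (hx : ∀ p ∈ S, 0 ≤ x p ∧ x p ≤ 2) (K : ℕ) :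
    |∏ p ∈ S, (1 - x p) - ∑ T ∈ S.powerset.filter (fun T => T.card ≤ K), ∏ p ∈ T, (-x p)| ≤
      ∑ T ∈ S.powersetCard (K + 1), ∏ p ∈ T, x p := by
  induction S using Finset.induction_on with
  | empty =>
    have h : Finset.powersetCard (K + 1) (∅ : Finset ℕ) = ∅ := by
      rw [Finset.powersetCard_eq_empty]
      simp
    rw [h]
    simp [Finset.filter_singleton]
  | insert q S hq ih =>
    have hq2 := hx q (Finset.mem_insert_self q S)
    have hS : ∀ p ∈ S, 0 ≤ x p ∧ x p ≤ 2 := fun p hp => hx p (Finset.mem_insert_of_mem hp)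
    have ih' := ih hS
    rw [k1_rec S x K q hq, k1_card S x K q hq, Finset.prod_insert hq]
    have he : 0 ≤ ∑ T ∈ S.powersetCard K, ∏ p ∈ T, x p := by
      refine Finset.sum_nonneg fun T hT => Finset.prod_nonneg fun p hp => ?_
      exact (hS p ((Finset.mem_powersetCard.1 hT).1 hp)).1
    have e : (1 - x q) * ∏ p ∈ S, (1 - x p) -
        ((1 - x q) * (∑ T ∈ S.powerset.filter (fun T => T.card ≤ K), ∏ p ∈ T, (-x p)) +
        x q * ((-1) ^ K * ∑ T ∈ S.powersetCard K, ∏ p ∈ T, x p)) =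
        (1 - x q) * (∏ p ∈ S, (1 - x p) -
          ∑ T ∈ S.powerset.filter (fun T => T.card ≤ K), ∏ p ∈ T, (-x p)) -
        x q * ((-1) ^ K * ∑ T ∈ S.powersetCard K, ∏ p ∈ T, x p) := by ring
    rw [e]
    refine (abs_sub _ _).trans ?_
    have h1 : |(1 - x q) * (∏ p ∈ S, (1 - x p) -
          ∑ T ∈ S.powerset.filter (fun T => T.card ≤ K), ∏ p ∈ T, (-x p))| ≤
          ∑ T ∈ S.powersetCard (K + 1), ∏ p ∈ T, x p := by
      rw [abs_mul]
      have h2 : |1 - x q| ≤ 1 := by rw [abs_le]; constructor <;> linarith [hq2.1, hq2.2]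
      calc _ ≤ 1 * _ := mul_le_mul_of_nonneg_right h2 (abs_nonneg _)
        _ ≤ _ := by rw [one_mul]; exact ih'
    have h3 : |x q * ((-1) ^ K * ∑ T ∈ S.powersetCard K, ∏ p ∈ T, x p)| =
        x q * ∑ T ∈ S.powersetCard K, ∏ p ∈ T, x p := by
      rw [abs_mul, abs_mul, abs_pow, abs_neg, abs_one, one_pow, one_mul, abs_of_nonneg hq2.1,
        abs_of_nonneg he]
    rw [h3]
    linarith



end Pool.Agent.TR

namespace Pool.Agent.TR

theorem bonf_one : type_of% @bonf_one_pr := @bonf_one_pr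

end Pool.Agent.TR
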