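import Pool.Agent.Lib_helper97.TRL.K0
import Pool.Agent.Lib_helper10.T2F.BAS
import Pool.Agent.Lib_helper97.TRL.D42
import Pool.Agent.Lib_helper97.TRL.D50

set_option autoImplicit false

namespace Pool.Agent.TR

open Pool.Agent.T2 Pool.Agent.TF

lemma k10_block {C : ℝ} (h : ∀ x : ℕ, 1 ≤ x →
    |∑ p ∈ (Finset.Icc 1 x).filter (fun p => p.Prime ∧ p % 4 = 1), Real.log p / p -
      1 / 2 * Real.log x| ≤ C) (A : ℕ) (hA : 2 ≤ A) (hAC : 8 * C ≤ Real.log A) :
    1 / 8 ≤ ∑ p ∈ (Finset.Icc 1 (A ^ 2)).filter (fun p => p.Prime ∧ p % 4 = 1 ∧ A < p),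
      1 / (p : ℝ) := by
  have hA1 : 1 ≤ A ^ 2 := Nat.one_le_pow _ _ (by omega)
  have h1 := abs_le.1 (h A (by omega))
  have h2 := abs_le.1 (h (A ^ 2) hA1)
  have hlogA : 0 < Real.log A := Real.log_pos (by exact_mod_cast hA)
  have hl : Real.log ((A ^ 2 : ℕ) : ℝ) = 2 * Real.log A := by
    push_cast
    rw [Real.log_pow]
    norm_num
  rw [hl] at h2
  have hs := Finset.sum_filter_add_sum_filter_not
    ((Finset.Icc 1 (A ^ 2)).filter (fun p => p.Prime ∧ p % 4 = 1)) (fun p => p ≤ A)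
    (fun p => Real.log p / (p : ℝ))
  have e1 : ((Finset.Icc 1 (A ^ 2)).filter (fun p => p.Prime ∧ p % 4 = 1)).filter
      (fun p => p ≤ A) = (Finset.Icc 1 A).filter (fun p => p.Prime ∧ p % 4 = 1) := by
    ext p
    simp only [Finset.mem_filter, Finset.mem_Icc]
    constructor
    · rintro ⟨⟨⟨a, _⟩, b⟩, c⟩
      exact ⟨⟨a, c⟩, b⟩
    · rintro ⟨⟨a, c⟩, b⟩
      exact ⟨⟨⟨a, c.trans (Nat.le_self_pow (by norm_num) A)⟩, b⟩, c⟩
  have e2 : ((Finset.Icc 1 (A ^ 2)).filter (fun p => p.Prime ∧ p % 4 = 1)).filter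
      (fun p => ¬ p ≤ A) =
      (Finset.Icc 1 (A ^ 2)).filter (fun p => p.Prime ∧ p % 4 = 1 ∧ A < p) := by
    ext p
    simp only [Finset.mem_filter, Finset.mem_Icc, not_le]
    tauto
  rw [e1, e2] at hs
  have h3 : 1 / 4 * Real.log A ≤
      ∑ p ∈ (Finset.Icc 1 (A ^ 2)).filter (fun p => p.Prime ∧ p % 4 = 1 ∧ A < p),
        Real.log p / (p : ℝ) := by
    linarith [h1.1, h1.2, h2.1, h2.2]
  have h4 : ∑ p ∈ (Finset.Icc 1 (A ^ 2)).filter (fun p => p.Prime ∧ p % 4 = 1 ∧ A < p),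
        Real.log p / (p : ℝ) ≤ 2 * Real.log A *
      ∑ p ∈ (Finset.Icc 1 (A ^ 2)).filter (fun p => p.Prime ∧ p % 4 = 1 ∧ A < p),
        1 / (p : ℝ) := by
    rw [Finset.mul_sum]
    apply Finset.sum_le_sum
    intro p hp
    rw [Finset.mem_filter, Finset.mem_Icc] at hp
    have hp0 : (0 : ℝ) < p := by exact_mod_cast hp.1.1
    have hle : Real.log p ≤ 2 * Real.log A := by
      rw [← hl]
      exact Real.log_le_log hp0 (by exact_mod_cast hp.1.2)
    rw [mul_one_div]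
    gcongr
  have h5 := h3.trans h4
  by_contra hcon
  rw [not_le] at hcon
  have h6 := mul_lt_mul_of_pos_left hcon (by positivity : 0 < 2 * Real.log A)
  linarith

lemma k10_iter {C : ℝ} (h : ∀ x : ℕ, 1 ≤ x →
    |∑ p ∈ (Finset.Icc 1 x).filter (fun p => p.Prime ∧ p % 4 = 1), Real.log p / p -
      1 / 2 * Real.log x| ≤ C) (A : ℕ) (hA : 2 ≤ A) (hAC : 8 * C ≤ Real.log A) (m : ℕ) :
    (m : ℝ) / 8 ≤ ∑ p ∈ (Finset.Icc 1 (A ^ 2 ^ m)).filter
      (fun p => p.Prime ∧ p % 4 = 1 ∧ A < p), 1 / (p : ℝ) := by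
  induction m with
  | zero =>
    simp only [Nat.cast_zero, zero_div]
    exact Finset.sum_nonneg fun _ _ => by positivity
  | succ m ih =>
    have hB : A ≤ A ^ 2 ^ m := Nat.le_self_pow (by positivity) A
    have hlog : 8 * C ≤ Real.log ((A ^ 2 ^ m : ℕ) : ℝ) := by
      refine hAC.trans (Real.log_le_log (by positivity) ?_)
      exact_mod_cast hB
    have h1 := k10_block h (A ^ 2 ^ m) (hA.trans hB) hlog
    have e : (A ^ 2 ^ m) ^ 2 = A ^ 2 ^ (m + 1) := by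
      rw [← pow_mul, pow_succ]
    rw [e] at h1
    have hdis : Disjoint ((Finset.Icc 1 (A ^ 2 ^ m)).filter
        (fun p => p.Prime ∧ p % 4 = 1 ∧ A < p))
        ((Finset.Icc 1 (A ^ 2 ^ (m + 1))).filter
        (fun p => p.Prime ∧ p % 4 = 1 ∧ A ^ 2 ^ m < p)) := by
      rw [Finset.disjoint_left]
      intro p hp hq
      rw [Finset.mem_filter, Finset.mem_Icc] at hp hq
      omega
    have hsub : (Finset.Icc 1 (A ^ 2 ^ m)).filter (fun p => p.Prime ∧ p % 4 = 1 ∧ A < p) ∪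
        (Finset.Icc 1 (A ^ 2 ^ (m + 1))).filter
        (fun p => p.Prime ∧ p % 4 = 1 ∧ A ^ 2 ^ m < p) ⊆
        (Finset.Icc 1 (A ^ 2 ^ (m + 1))).filter (fun p => p.Prime ∧ p % 4 = 1 ∧ A < p) := by
      intro p hp
      rw [Finset.mem_union, Finset.mem_filter, Finset.mem_filter, Finset.mem_Icc,
        Finset.mem_Icc] at hp
      rw [Finset.mem_filter, Finset.mem_Icc]
      have hmono : A ^ 2 ^ m ≤ A ^ 2 ^ (m + 1) :=
        Nat.pow_le_pow_right (by omega) (Nat.pow_le_pow_right (by norm_num) (by omega))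
      rcases hp with hp | hp
      · exact ⟨⟨hp.1.1, hp.1.2.trans hmono⟩, hp.2⟩
      · exact ⟨hp.1, hp.2.1, hp.2.2.1, lt_of_le_of_lt hB hp.2.2.2⟩
    have h2 := Finset.sum_le_sum_of_subset_of_nonneg hsub
      (f := fun p : ℕ => 1 / (p : ℝ)) (fun _ _ _ => by positivity)
    rw [Finset.sum_union hdis] at h2
    push_cast
    linarith

lemma k10_card (b : ℕ) (hb : 1 ≤ b) : (b.primeFactors.card : ℝ) * Real.log 2 ≤ Real.log b := by
  have h1 : 2 ^ b.primeFactors.card ≤ ∏ p ∈ b.primeFactors, p := by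
    rw [← Finset.prod_const]
    exact Finset.prod_le_prod' fun p hp => (Nat.prime_of_mem_primeFactors hp).two_le
  have h2 : ∏ p ∈ b.primeFactors, p ≤ b := Nat.le_of_dvd (by omega) (Nat.prod_primeFactors_dvd b)
  have h3 : ((2 : ℝ)) ^ b.primeFactors.card ≤ b := by exact_mod_cast h1.trans h2
  rw [← Real.log_pow]
  exact Real.log_le_log (by positivity) h3

theorem sum_inv_large_pr (ρ M : ℝ) (hρ : 0 < ρ) (G : ℕ) : ∃ x₀ : ℝ, ∀ x : ℝ, x₀ ≤ x →
    ∀ b : ℕ, 1 ≤ b → (b : ℝ) ≤ x → M ≤ ∑ p ∈ Pb G (x ^ ρ) b, 1 / (p : ℝ) := by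
  classical
  obtain ⟨C, hC, h⟩ := k_mertens
  obtain ⟨m, hm⟩ := exists_nat_ge (8 * (M + 2))
  obtain ⟨K, hK⟩ : ∃ K : ℕ, K = G + ⌈Real.exp (8 * C)⌉₊ + 2 := ⟨_, rfl⟩
  -- x large
  have hev1 : ∀ᶠ x : ℝ in Filter.atTop, (K : ℝ) + 1 ≤ Real.log x :=
    Real.tendsto_log_atTop.eventually_ge_atTop _
  have hev2 : ∀ᶠ x : ℝ in Filter.atTop, (2 * Real.log x) ^ (2 ^ m) ≤ x ^ ρ := by
    have h1 := (isLittleO_log_rpow_rpow_atTop ((2 ^ m : ℕ) : ℝ) hρ).def
      (c := 1 / 2 ^ (2 ^ m)) (by positivity)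
    filter_upwards [h1, Filter.eventually_ge_atTop (1 : ℝ)] with x hx hx1
    have hl : 0 ≤ Real.log x := Real.log_nonneg hx1
    rw [Real.rpow_natCast, Real.norm_of_nonneg (by positivity),
      Real.norm_of_nonneg (by positivity)] at hx
    rw [mul_pow]
    have h2 := mul_le_mul_of_nonneg_left hx (by positivity : (0 : ℝ) ≤ 2 ^ (2 ^ m))
    calc (2 : ℝ) ^ 2 ^ m * Real.log x ^ 2 ^ m ≤ 2 ^ 2 ^ m * (1 / 2 ^ 2 ^ m * x ^ ρ) := h2
      _ = x ^ ρ := by field_simp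
  obtain ⟨x₀, hx₀⟩ := Filter.eventually_atTop.1 (hev1.and (hev2.and
    (Filter.eventually_ge_atTop (3 : ℝ))))
  refine ⟨x₀, fun x hx b hb hbx => ?_⟩
  obtain ⟨hx1, hx2, hx3⟩ := hx₀ x hx
  have hx0 : 0 < x := by linarith
  have hlog : 0 < Real.log x := Real.log_pos (by linarith)
  obtain ⟨A, hAdef⟩ : ∃ A : ℕ, A = ⌊Real.log x⌋₊ + K := ⟨_, rfl⟩
  have hA2 : 2 ≤ A := by omega
  have hAG : G ≤ A := by omega
  have hAlog : Real.log x ≤ A := by
    have := (Nat.lt_floor_add_one (Real.log x)).le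
    have h2 : (⌊Real.log x⌋₊ : ℝ) + 1 ≤ A := by
      rw [hAdef]
      push_cast
      have : (1 : ℝ) ≤ K := by
        rw [hK]; push_cast
        have h3 : (0 : ℝ) ≤ G := by positivity
        have h4 : (0 : ℝ) ≤ (⌈Real.exp (8 * C)⌉₊ : ℝ) := by positivity
        linarith
      linarith
    linarith
  have hAup : (A : ℝ) ≤ 2 * Real.log x := by
    rw [hAdef]
    push_cast
    have := Nat.floor_le hlog.le
    linarith
  have hAC : 8 * C ≤ Real.log A := by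
    rw [Real.le_log_iff_exp_le (by positivity)]
    refine (Nat.le_ceil _).trans ?_
    have : ⌈Real.exp (8 * C)⌉₊ ≤ A := by omega
    exact_mod_cast this
  have h1 := k10_iter h A hA2 hAC m
  have hAx : ((A ^ 2 ^ m : ℕ) : ℝ) ≤ x ^ ρ := by
    push_cast
    exact (pow_le_pow_left₀ (by positivity) hAup _).trans hx2
  obtain ⟨U, hU⟩ : ∃ U : Finset ℕ, U = (Finset.Icc 1 (A ^ 2 ^ m)).filter
      (fun p => p.Prime ∧ p % 4 = 1 ∧ A < p) := ⟨_, rfl⟩
  rw [← hU] at h1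
  have hsplit := Finset.sum_filter_add_sum_filter_not U (fun p => p ∣ b)
    (fun p : ℕ => 1 / (p : ℝ))
  have hbad : ∑ p ∈ U.filter (fun p => p ∣ b), 1 / (p : ℝ) ≤ 2 := by
    have h2 : ∀ p ∈ U.filter (fun p => p ∣ b), 1 / (p : ℝ) ≤ 1 / Real.log x := by
      intro p hp
      rw [Finset.mem_filter, hU, Finset.mem_filter] at hp
      apply one_div_le_one_div_of_le hlog
      have : A ≤ p := hp.1.2.2.2.le
      exact hAlog.trans (by exact_mod_cast this)
    have h3 : (U.filter (fun p => p ∣ b)).card ≤ b.primeFactors.card := by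
      apply Finset.card_le_card
      intro p hp
      rw [Finset.mem_filter, hU, Finset.mem_filter] at hp
      exact Nat.mem_primeFactors.2 ⟨hp.1.2.1, hp.2, by omega⟩
    have h4 := k10_card b hb
    have hlb : Real.log b ≤ Real.log x := Real.log_le_log (by exact_mod_cast hb) hbx
    have hl2 : (1 : ℝ) / 2 ≤ Real.log 2 := by
      have := Real.log_two_gt_d9
      linarith
    have h5 : (b.primeFactors.card : ℝ) ≤ 2 * Real.log x := by
      have h6 : (0 : ℝ) ≤ b.primeFactors.card := by positivity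
      nlinarith
    calc ∑ p ∈ U.filter (fun p => p ∣ b), 1 / (p : ℝ)
        ≤ ∑ p ∈ U.filter (fun p => p ∣ b), 1 / Real.log x := Finset.sum_le_sum h2
      _ = ((U.filter (fun p => p ∣ b)).card : ℝ) * (1 / Real.log x) := by
          rw [Finset.sum_const, nsmul_eq_mul]
      _ ≤ (2 * Real.log x) * (1 / Real.log x) := by
          refine mul_le_mul_of_nonneg_right ?_ (by positivity)
          exact le_trans (by exact_mod_cast h3) h5
      _ = 2 := by field_simp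
  have hsub : U.filter (fun p => ¬ p ∣ b) ⊆ Pb G (x ^ ρ) b := by
    intro p hp
    rw [Finset.mem_filter, hU, Finset.mem_filter, Finset.mem_Icc] at hp
    rw [Pb, Finset.mem_filter, Finset.mem_Icc]
    refine ⟨⟨hp.1.1.1, ?_⟩, hp.1.2.1, hp.1.2.2.1, lt_of_le_of_lt hAG hp.1.2.2.2, hp.2⟩
    apply Nat.le_floor
    exact le_trans (by exact_mod_cast hp.1.1.2) hAx
  have h7 := Finset.sum_le_sum_of_subset_of_nonneg hsub
    (f := fun p : ℕ => 1 / (p : ℝ)) (fun _ _ _ => by positivity)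
  linarith

end Pool.Agent.TR

namespace Pool.Agent.TR

theorem sum_inv_large : type_of% @sum_inv_large_pr := @sum_inv_large_pr

end Pool.Agent.TR
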