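import Pool.Agent.Lib_helper97.TRL.K7
import Pool.Agent.Lib_helper10.T2F.BAS
import Pool.Agent.Lib_helper97.TRL.D42
import Pool.Agent.Lib_helper97.TRL.D50

set_option autoImplicit false

namespace Pool.Agent.TR

open Pool.Agent.T2 Pool.Agent.TF

theorem k11_mem {P Q : ℝ} (_hQ : 0 ≤ Q) (p : ℕ) :
    p ∈ pr1 P Q ↔ p.Prime ∧ p % 4 = 1 ∧ P < (p : ℝ) ∧ (p : ℝ) ≤ Q := by
  unfold pr1
  rw [Finset.mem_filter, Finset.mem_range]
  constructor
  · rintro ⟨_, h⟩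
    exact h
  · intro h
    exact ⟨Nat.lt_succ_of_le (Nat.le_floor h.2.2.2), h⟩

theorem k11_dyadic {C0 x : ℝ} (hx : 1 ≤ x)
    (hC : ∀ y : ℝ, 1 ≤ y → ∑ p ∈ pr1 y (y ^ 2), 1 / (p : ℝ) ≤ C0) (m : ℕ) :
    ∑ p ∈ pr1 (x ^ (1 / (2 : ℝ) ^ m)) x, 1 / (p : ℝ) ≤ C0 * m := by
  classical
  have hx0 : 0 ≤ x := by linarith
  induction m with
  | zero =>
    have h : pr1 (x ^ (1 / (2 : ℝ) ^ 0)) x = ∅ := by
      rw [Finset.eq_empty_iff_forall_notMem]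
      intro p hp
      rw [k11_mem hx0] at hp
      have h1 := hp.2.2.1
      rw [pow_zero, div_one, Real.rpow_one] at h1
      exact absurd hp.2.2.2 (not_le.2 h1)
    rw [h]
    simp
  | succ m ih =>
    have hy : 1 ≤ x ^ (1 / (2 : ℝ) ^ (m + 1)) := Real.one_le_rpow hx (by positivity)
    have hy2 : (x ^ (1 / (2 : ℝ) ^ (m + 1))) ^ 2 = x ^ (1 / (2 : ℝ) ^ m) := by
      rw [← Real.rpow_natCast, ← Real.rpow_mul hx0]
      congr 1
      rw [pow_succ]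
      push_cast
      field_simp
    have hsub : pr1 (x ^ (1 / (2 : ℝ) ^ (m + 1))) x ⊆
        pr1 (x ^ (1 / (2 : ℝ) ^ (m + 1))) ((x ^ (1 / (2 : ℝ) ^ (m + 1))) ^ 2) ∪
          pr1 (x ^ (1 / (2 : ℝ) ^ m)) x := by
      intro p hp
      rw [k11_mem hx0] at hp
      rw [Finset.mem_union, k11_mem hx0, k11_mem (by positivity), hy2]
      by_cases h : (p : ℝ) ≤ x ^ (1 / (2 : ℝ) ^ m)
      · exact Or.inl ⟨hp.1, hp.2.1, hp.2.2.1, h⟩
      · exact Or.inr ⟨hp.1, hp.2.1, not_le.1 h, hp.2.2.2⟩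
    calc ∑ p ∈ pr1 (x ^ (1 / (2 : ℝ) ^ (m + 1))) x, 1 / (p : ℝ)
        ≤ ∑ p ∈ pr1 (x ^ (1 / (2 : ℝ) ^ (m + 1))) ((x ^ (1 / (2 : ℝ) ^ (m + 1))) ^ 2) ∪
          pr1 (x ^ (1 / (2 : ℝ) ^ m)) x, 1 / (p : ℝ) :=
          Finset.sum_le_sum_of_subset_of_nonneg hsub (fun _ _ _ => by positivity)
      _ ≤ ∑ p ∈ pr1 (x ^ (1 / (2 : ℝ) ^ (m + 1))) ((x ^ (1 / (2 : ℝ) ^ (m + 1))) ^ 2),
            1 / (p : ℝ) + ∑ p ∈ pr1 (x ^ (1 / (2 : ℝ) ^ m)) x, 1 / (p : ℝ) := by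
          rw [← Finset.sum_union_inter]
          exact le_add_of_nonneg_right (Finset.sum_nonneg (fun _ _ => by positivity))
      _ ≤ C0 + C0 * m := add_le_add (hC _ hy) ih
      _ = C0 * ((m + 1 : ℕ) : ℝ) := by push_cast; ring

theorem k11_sub {x ρ : ℝ} (hx : 1 ≤ x) (b : ℕ) :
    ∑ r ∈ Rb (x ^ ρ) x b, (4 : ℝ) ^ r.primeFactors.card / r ≤
      Real.exp (4 * ∑ p ∈ pr1 (x ^ ρ) x, 1 / (p : ℝ)) := by
  classical
  have hx0 : 0 ≤ x := by linarith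
  have hinj : Set.InjOn (fun r : ℕ => r.primeFactors) (Rb (x ^ ρ) x b : Set ℕ) := by
    intro r hr s hs h
    rw [Finset.mem_coe] at hr hs
    unfold Rb at hr hs
    rw [Finset.mem_filter] at hr hs
    rw [← Nat.prod_primeFactors_of_squarefree hr.2.1, ← Nat.prod_primeFactors_of_squarefree hs.2.1]
    have h' : r.primeFactors = s.primeFactors := h
    rw [h']
  have hval : ∀ r ∈ Rb (x ^ ρ) x b, (4 : ℝ) ^ r.primeFactors.card / r =
      ∏ p ∈ r.primeFactors, (4 / (p : ℝ)) := by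
    intro r hr
    unfold Rb at hr
    rw [Finset.mem_filter] at hr
    rw [Finset.prod_div_distrib, Finset.prod_const]
    congr 1
    rw [← Nat.cast_prod, Nat.prod_primeFactors_of_squarefree hr.2.1]
  have hmem : ∀ r ∈ Rb (x ^ ρ) x b, r.primeFactors ∈ (pr1 (x ^ ρ) x).powerset := by
    intro r hr
    unfold Rb at hr
    rw [Finset.mem_filter, Finset.mem_Icc] at hr
    rw [Finset.mem_powerset]
    intro p hp
    rw [k11_mem hx0]
    obtain ⟨h1, h2, _⟩ := hr.2.2 p hp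
    have hpr := Nat.prime_of_mem_primeFactors hp
    have hle : p ≤ r := Nat.le_of_dvd hr.1.1 (Nat.dvd_of_mem_primeFactors hp)
    refine ⟨hpr, h1, h2, ?_⟩
    calc (p : ℝ) ≤ r := by exact_mod_cast hle
      _ ≤ (⌊x⌋₊ : ℝ) := by exact_mod_cast hr.1.2
      _ ≤ x := Nat.floor_le hx0
  rw [Finset.sum_congr rfl hval]
  calc ∑ r ∈ Rb (x ^ ρ) x b, ∏ p ∈ r.primeFactors, (4 / (p : ℝ))
      = ∑ T ∈ (Rb (x ^ ρ) x b).image (fun r : ℕ => r.primeFactors), ∏ p ∈ T, (4 / (p : ℝ)) := by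
        rw [Finset.sum_image hinj]
    _ ≤ ∑ T ∈ (pr1 (x ^ ρ) x).powerset, ∏ p ∈ T, (4 / (p : ℝ)) := by
        apply Finset.sum_le_sum_of_subset_of_nonneg
        · intro T hT
          rw [Finset.mem_image] at hT
          obtain ⟨r, hr, rfl⟩ := hT
          exact hmem r hr
        · intro T _ _
          exact Finset.prod_nonneg (fun _ _ => by positivity)
    _ = ∏ p ∈ pr1 (x ^ ρ) x, (1 + 4 / (p : ℝ)) := by
        rw [Finset.prod_one_add]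
    _ ≤ ∏ p ∈ pr1 (x ^ ρ) x, Real.exp (4 * (1 / (p : ℝ))) := by
        apply Finset.prod_le_prod
        · intro p _
          positivity
        · intro p _
          have := Real.add_one_le_exp (4 * (1 / (p : ℝ)))
          calc 1 + 4 / (p : ℝ) = 4 * (1 / (p : ℝ)) + 1 := by ring
            _ ≤ _ := this
    _ = Real.exp (4 * ∑ p ∈ pr1 (x ^ ρ) x, 1 / (p : ℝ)) := by
        rw [← Real.exp_sum, Finset.mul_sum]

theorem rb_sum_pr : ∃ C A : ℝ, 1 ≤ C ∧ 1 ≤ A ∧ ∀ x ρ : ℝ, 1 ≤ x → 0 < ρ → ρ ≤ 1 → ∀ b : ℕ,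
    ∑ r ∈ Rb (x ^ ρ) x b, (4 : ℝ) ^ r.primeFactors.card / r ≤ C * ρ ^ (-A) := by
  obtain ⟨C0, hC1, hC0⟩ := sum_inv_sq
  have hlog2 : 0 < Real.log 2 := Real.log_pos (by norm_num)
  have hlog2' : Real.log 2 ≤ 1 := by
    have := Real.log_two_lt_d9
    linarith
  refine ⟨Real.exp (4 * C0), 4 * C0 / Real.log 2, Real.one_le_exp (by linarith), ?_, ?_⟩
  · rw [le_div_iff₀ hlog2]
    linarith
  intro x ρ hx hρ hρ1 b
  set m : ℕ := ⌈Real.logb 2 (1 / ρ)⌉₊ with hm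
  have hlb : 0 ≤ Real.logb 2 (1 / ρ) := by
    apply Real.logb_nonneg (by norm_num)
    rw [le_div_iff₀ hρ]
    linarith
  have hm1 : Real.logb 2 (1 / ρ) ≤ m := Nat.le_ceil _
  have hm2 : (m : ℝ) ≤ Real.logb 2 (1 / ρ) + 1 := (Nat.ceil_lt_add_one hlb).le
  have hpow : 1 / (2 : ℝ) ^ m ≤ ρ := by
    have h1 : 1 / ρ ≤ (2 : ℝ) ^ m := by
      rw [← Real.rpow_natCast]
      rwa [Real.logb_le_iff_le_rpow (by norm_num) (by positivity)] at hm1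
    rw [div_le_iff₀ (by positivity)]
    rw [div_le_iff₀ hρ] at h1
    linarith
  have hsub : pr1 (x ^ ρ) x ⊆ pr1 (x ^ (1 / (2 : ℝ) ^ m)) x := by
    have hx0 : 0 ≤ x := by linarith
    intro p hp
    rw [k11_mem hx0] at hp ⊢
    exact ⟨hp.1, hp.2.1, lt_of_le_of_lt (Real.rpow_le_rpow_of_exponent_le hx hpow) hp.2.2.1,
      hp.2.2.2⟩
  have hsum : ∑ p ∈ pr1 (x ^ ρ) x, 1 / (p : ℝ) ≤ C0 * m :=
    (Finset.sum_le_sum_of_subset_of_nonneg hsub (fun _ _ _ => by positivity)).trans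
      (k11_dyadic hx hC0 m)
  refine (k11_sub hx b).trans ?_
  have h2 : ρ ^ (-(4 * C0 / Real.log 2)) = Real.exp (4 * C0 * Real.logb 2 (1 / ρ)) := by
    rw [Real.rpow_def_of_pos hρ, Real.logb, one_div, Real.log_inv]
    congr 1
    field_simp
  rw [h2, ← Real.exp_add, Real.exp_le_exp]
  have h3 : C0 * m ≤ C0 * (Real.logb 2 (1 / ρ) + 1) :=
    mul_le_mul_of_nonneg_left hm2 (by linarith)
  nlinarith



end Pool.Agent.TR

namespace Pool.Agent.TR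

theorem rb_sum : type_of% @rb_sum_pr := @rb_sum_pr

end Pool.Agent.TR
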