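import Pool.Agent.Lib_helper10.T2F.BAS
import Pool.Agent.Lib_helper97.TRL.D42
import Pool.Agent.Lib_helper97.TRL.D50

set_option autoImplicit false

namespace Pool.Agent.TR

open Pool.Agent.T2 Pool.Agent.TF

/-- the two roots of `n² + b²` modulo `p` -/
theorem k12_roots {p b : ℕ} (hp : p.Prime) (hp4 : p % 4 = 1) (hb : ¬ p ∣ b) :
    ∃ c₁ c₂ : ℕ, ¬ c₁ ≡ c₂ [MOD p] ∧
      ∀ n : ℕ, p ∣ n ^ 2 + b ^ 2 ↔ (n ≡ c₁ [MOD p] ∨ n ≡ c₂ [MOD p]) := by
  have : Fact p.Prime := ⟨hp⟩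
  obtain ⟨s, hs⟩ : IsSquare (-1 : ZMod p) := ZMod.exists_sq_eq_neg_one_iff.mpr (by omega)
  have hb0 : (b : ZMod p) ≠ 0 := by
    rw [Ne, ZMod.natCast_eq_zero_iff]
    exact hb
  have hs0 : s ≠ 0 := by
    rintro rfl
    rw [mul_zero] at hs
    exact neg_ne_zero.mpr one_ne_zero hs
  have h2 : (2 : ZMod p) ≠ 0 := by
    have : ((2 : ℕ) : ZMod p) ≠ 0 := by
      rw [Ne, ZMod.natCast_eq_zero_iff]
      intro h
      have := (Nat.prime_dvd_prime_iff_eq hp Nat.prime_two).mp h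
      omega
    exact_mod_cast this
  refine ⟨(s * b).val, (-(s * b)).val, ?_, ?_⟩
  · rw [← ZMod.natCast_eq_natCast_iff, ZMod.natCast_zmod_val, ZMod.natCast_zmod_val]
    intro h
    have h3 : 2 * (s * b) = 0 := by
      calc 2 * (s * b) = s * b + s * b := by ring
        _ = -(s * b) + s * b := by rw [← h]
        _ = 0 := by ring
    exact mul_ne_zero h2 (mul_ne_zero hs0 hb0) h3
  · intro n
    rw [← ZMod.natCast_eq_natCast_iff, ← ZMod.natCast_eq_natCast_iff, ZMod.natCast_zmod_val,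
      ZMod.natCast_zmod_val, ← sq_eq_sq_iff_eq_or_eq_neg, ← ZMod.natCast_eq_zero_iff]
    push_cast
    have e : (s * (b : ZMod p)) ^ 2 = -(b : ZMod p) ^ 2 := by
      calc (s * (b : ZMod p)) ^ 2 = (s * s) * (b : ZMod p) ^ 2 := by ring
        _ = -(b : ZMod p) ^ 2 := by rw [← hs]; ring
    rw [e]
    constructor
    · intro h
      linear_combination h
    · intro h
      rw [h]; ring

theorem root_sum_pr {g : ℕ → ℝ} {X : ℕ} {H E : ℝ} (hg : WFn g X H E) (b : ℕ) (T : Finset ℕ) :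
    (∀ p ∈ T, p.Prime ∧ p % 4 = 1 ∧ ¬ p ∣ b) → ∀ N a : ℕ, 1 ≤ N → (∀ p ∈ T, ¬ p ∣ N) →
    |∑ n ∈ (Finset.Icc 1 X).filter (fun n => n % N = a % N ∧ ∀ p ∈ T, p ∣ n ^ 2 + b ^ 2), g n -
      2 ^ T.card * H / ((∏ p ∈ T, (p : ℝ)) * N)| ≤ 2 ^ T.card * E := by
  induction T using Finset.induction_on with
  | empty =>
    intro _ N a hN _
    have h := hg.dist N a hN
    simpa using h
  | insert p T hpT ih =>
    intro hT N a hN hTN
    obtain ⟨hp, hp4, hpb⟩ := hT p (Finset.mem_insert_self _ _)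
    have hpN := hTN p (Finset.mem_insert_self _ _)
    have hT' : ∀ q ∈ T, q.Prime ∧ q % 4 = 1 ∧ ¬ q ∣ b := fun q hq =>
      hT q (Finset.mem_insert_of_mem hq)
    have hcop : Nat.Coprime N p := (Nat.coprime_comm.mp ((Nat.Prime.coprime_iff_not_dvd hp).mpr hpN))
    have hNp : 1 ≤ N * p := Nat.one_le_iff_ne_zero.mpr
      (Nat.mul_ne_zero (by omega) hp.ne_zero)
    have hTNp : ∀ q ∈ T, ¬ q ∣ N * p := by
      intro q hq h
      rcases (Nat.Prime.dvd_mul (hT' q hq).1).mp h with h | h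
      · exact hTN q (Finset.mem_insert_of_mem hq) h
      · have := (Nat.prime_dvd_prime_iff_eq (hT' q hq).1 hp).mp h
        subst this
        exact hpT hq
    obtain ⟨c₁, c₂, hne, hroot⟩ := k12_roots hp hp4 hpb
    obtain ⟨a₁, h1N, h1p⟩ := Nat.chineseRemainder hcop a c₁
    obtain ⟨a₂, h2N, h2p⟩ := Nat.chineseRemainder hcop a c₂
    have i1 := ih hT' (N * p) a₁ hNp hTNp
    have i2 := ih hT' (N * p) a₂ hNp hTNp
    have key : ∀ c a' : ℕ, a' ≡ a [MOD N] → a' ≡ c [MOD p] → ∀ n : ℕ,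
        (n % (N * p) = a' % (N * p) ↔ (n % N = a % N ∧ n ≡ c [MOD p])) := by
      intro c a' hN' hp' n
      change (n ≡ a' [MOD N * p]) ↔ (n ≡ a [MOD N] ∧ n ≡ c [MOD p])
      rw [← Nat.modEq_and_modEq_iff_modEq_mul hcop]
      exact ⟨fun h => ⟨h.1.trans hN', h.2.trans hp'⟩,
        fun h => ⟨h.1.trans hN'.symm, h.2.trans hp'.symm⟩⟩
    have hsplit : (Finset.Icc 1 X).filter (fun n => n % N = a % N ∧
        ∀ q ∈ insert p T, q ∣ n ^ 2 + b ^ 2) =
        (Finset.Icc 1 X).filter (fun n => n % (N * p) = a₁ % (N * p) ∧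
          ∀ q ∈ T, q ∣ n ^ 2 + b ^ 2) ∪
        (Finset.Icc 1 X).filter (fun n => n % (N * p) = a₂ % (N * p) ∧
          ∀ q ∈ T, q ∣ n ^ 2 + b ^ 2) := by
      rw [← Finset.filter_or]
      refine Finset.filter_congr fun n _ => ?_
      rw [Finset.forall_mem_insert, hroot, key c₁ a₁ h1N h1p, key c₂ a₂ h2N h2p]
      tauto
    have hdisj : Disjoint ((Finset.Icc 1 X).filter (fun n => n % (N * p) = a₁ % (N * p) ∧
          ∀ q ∈ T, q ∣ n ^ 2 + b ^ 2))
        ((Finset.Icc 1 X).filter (fun n => n % (N * p) = a₂ % (N * p) ∧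
          ∀ q ∈ T, q ∣ n ^ 2 + b ^ 2)) := by
      rw [Finset.disjoint_filter]
      rintro n _ ⟨hn1, -⟩ ⟨hn2, -⟩
      have e1 := ((key c₁ a₁ h1N h1p n).mp hn1).2
      have e2 := ((key c₂ a₂ h2N h2p n).mp hn2).2
      exact hne (e1.symm.trans e2)
    rw [hsplit, Finset.sum_union hdisj, Finset.card_insert_of_notMem hpT,
      Finset.prod_insert hpT]
    have hp0 : (p : ℝ) ≠ 0 := by exact_mod_cast hp.ne_zero
    have hN0 : (N : ℝ) ≠ 0 := by
      have : N ≠ 0 := by omega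
      exact_mod_cast this
    have hP0 : (∏ q ∈ T, (q : ℝ)) ≠ 0 := by
      refine Finset.prod_ne_zero_iff.mpr fun q hq => ?_
      exact_mod_cast (hT' q hq).1.ne_zero
    have e : (2 : ℝ) ^ (T.card + 1) * H / (((p : ℝ) * ∏ q ∈ T, (q : ℝ)) * N) =
        2 ^ T.card * H / ((∏ q ∈ T, (q : ℝ)) * ((N * p : ℕ) : ℝ)) +
        2 ^ T.card * H / ((∏ q ∈ T, (q : ℝ)) * ((N * p : ℕ) : ℝ)) := by
      push_cast
      rw [pow_succ (2 : ℝ) T.card]
      field_simp
      ring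
    rw [e, pow_succ (2 : ℝ) T.card]
    rw [abs_le] at i1 i2 ⊢
    constructor
    · linarith [i1.1, i2.1]
    · linarith [i1.2, i2.2]


end Pool.Agent.TR

namespace Pool.Agent.TR

theorem root_sum : type_of% @root_sum_pr := @root_sum_pr

end Pool.Agent.TR
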