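import Pool.Agent.Lib_helper97.TRL.K12
import Pool.Agent.Lib_helper10.T2F.BAS
import Pool.Agent.Lib_helper97.TRL.D42
import Pool.Agent.Lib_helper97.TRL.D50

/-!
# Block K13 (helper76): roots, with `r` and `T`
-/

set_option autoImplicit false

namespace Pool.Agent.TR

open Pool.Agent.T2 Pool.Agent.TF

theorem k13_dvd {r m : ℕ} (hr : Squarefree r) : r ∣ m ↔ ∀ p ∈ r.primeFactors, p ∣ m := by
  constructor
  · intro h p hp
    exact (Nat.dvd_of_mem_primeFactors hp).trans h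
  · intro h
    rw [← Nat.prod_primeFactors_of_squarefree hr]
    exact Finset.prod_primes_dvd m (fun p hp => (Nat.prime_of_mem_primeFactors hp).prime) h

theorem root_T_pr {g : ℕ → ℝ} {X : ℕ} {H E : ℝ} (hg : WFn g X H E) {G b N r : ℕ} {R : ℝ}
    (hN : 1 ≤ N) (hNG : ∀ p : ℕ, p.Prime → p ∣ N → p ≤ G) (hGR : (G : ℝ) ≤ R)
    (hr : Squarefree r) (hr' : ∀ p ∈ r.primeFactors, p % 4 = 1 ∧ R < (p : ℝ) ∧ ¬ p ∣ b)
    {T : Finset ℕ} (hT : T ⊆ Pb G R b) (a : ℕ) :
    |∑ n ∈ (Finset.Icc 1 X).filter (fun n => (n % N = a % N ∧ r ∣ n ^ 2 + b ^ 2) ∧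
        T ⊆ Sn G R b n), g n -
      2 ^ (r.primeFactors.card + T.card) * H / ((r : ℝ) * N * ∏ p ∈ T, (p : ℝ))| ≤
      2 ^ (r.primeFactors.card + T.card) * E := by
  have hR : 0 ≤ R := (Nat.cast_nonneg G).trans hGR
  have hTm : ∀ p ∈ T, p.Prime ∧ p % 4 = 1 ∧ G < p ∧ ¬ p ∣ b ∧ (p : ℝ) ≤ R := by
    intro p hp
    have h := hT hp
    unfold Pb at h
    rw [Finset.mem_filter, Finset.mem_Icc] at h
    exact ⟨h.2.1, h.2.2.1, h.2.2.2.1, h.2.2.2.2, (Nat.le_floor_iff hR).1 h.1.2⟩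
  have hdis : Disjoint r.primeFactors T := by
    rw [Finset.disjoint_left]
    intro p hp hpT
    exact absurd (hTm p hpT).2.2.2.2 (not_le.2 (hr' p hp).2.1)
  have hU : ∀ p ∈ r.primeFactors ∪ T, p.Prime ∧ p % 4 = 1 ∧ ¬ p ∣ b := by
    intro p hp
    rcases Finset.mem_union.1 hp with h | h
    · exact ⟨Nat.prime_of_mem_primeFactors h, (hr' p h).1, (hr' p h).2.2⟩
    · exact ⟨(hTm p h).1, (hTm p h).2.1, (hTm p h).2.2.2.1⟩
  have hUN : ∀ p ∈ r.primeFactors ∪ T, ¬ p ∣ N := by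
    intro p hp hd
    have hle := hNG p (hU p hp).1 hd
    rcases Finset.mem_union.1 hp with h | h
    · have h1 : (p : ℝ) ≤ (G : ℝ) := by exact_mod_cast hle
      exact absurd (h1.trans hGR) (not_le.2 (hr' p h).2.1)
    · exact absurd hle (not_le.2 (hTm p h).2.2.1)
  have key := root_sum hg b (r.primeFactors ∪ T) hU N a hN hUN
  have hcard : (r.primeFactors ∪ T).card = r.primeFactors.card + T.card :=
    Finset.card_union_of_disjoint hdis
  have hprod : (∏ p ∈ r.primeFactors ∪ T, (p : ℝ)) = (r : ℝ) * ∏ p ∈ T, (p : ℝ) := by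
    rw [Finset.prod_union hdis]
    congr 1
    have h := congrArg (fun t : ℕ => (t : ℝ)) (Nat.prod_primeFactors_of_squarefree hr)
    simpa only [Nat.cast_prod] using h
  have hfil : (Finset.Icc 1 X).filter (fun n => (n % N = a % N ∧ r ∣ n ^ 2 + b ^ 2) ∧
        T ⊆ Sn G R b n) =
      (Finset.Icc 1 X).filter (fun n => n % N = a % N ∧
        ∀ p ∈ r.primeFactors ∪ T, p ∣ n ^ 2 + b ^ 2) := by
    apply Finset.filter_congr
    intro n _
    constructor
    · rintro ⟨⟨h1, h2⟩, h3⟩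
      refine ⟨h1, fun p hp => ?_⟩
      rcases Finset.mem_union.1 hp with h | h
      · exact (k13_dvd hr).1 h2 p h
      · have h4 := h3 h
        unfold Sn at h4
        exact (Finset.mem_filter.1 h4).2
    · rintro ⟨h1, h2⟩
      refine ⟨⟨h1, (k13_dvd hr).2 fun p hp => h2 p (Finset.mem_union_left _ hp)⟩, fun p hp => ?_⟩
      unfold Sn
      exact Finset.mem_filter.2 ⟨hT hp, h2 p (Finset.mem_union_right _ hp)⟩
  rw [hcard, hprod] at key
  rw [hfil]
  have harr : (r : ℝ) * N * ∏ p ∈ T, (p : ℝ) = ((r : ℝ) * ∏ p ∈ T, (p : ℝ)) * N := by ring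
  rw [harr]
  exact key



end Pool.Agent.TR

namespace Pool.Agent.TR

theorem root_T : type_of% @root_T_pr := @root_T_pr

end Pool.Agent.TR
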