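import Pool.Agent.Lib_helper97.TRL.K3
import Pool.Agent.Lib_helper10.T2F.BAS
import Pool.Agent.Lib_helper97.TRL.D42
import Pool.Agent.Lib_helper97.TRL.D50

/-! TR, block K4: the products of admissible sets are small -/

set_option autoImplicit false

namespace Pool.Agent.TR

open Pool.Agent.T2 Pool.Agent.TF

theorem k4_sum (k J : ℕ) : ∑ i ∈ Finset.range J, (((k + i : ℕ) : ℝ)) / 2 ^ i =
    2 * k + 2 - (2 * k + 2 * J + 2) / 2 ^ J := by
  induction J with
  | zero => simp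
  | succ J ih =>
    rw [Finset.sum_range_succ, ih]
    push_cast
    have h2 : (2 : ℝ) ^ J ≠ 0 := by positivity
    rw [pow_succ]
    field_simp
    ring

theorem k4_prod {R : ℝ} (hR : 1 ≤ R) {T : Finset ℕ} (hT : ∀ p ∈ T, 2 ≤ p ∧ (p : ℝ) ≤ R) :
    ∏ p ∈ T, (p : ℝ) ≤ R ^ (∑ p ∈ T, (1 : ℝ) / 2 ^ lvl R p) := by
  rw [Real.rpow_sum_of_pos (by linarith)]
  apply Finset.prod_le_prod
  · intro p _
    positivity
  · intro p hp
    exact (lvl_spec (hT p hp).1 (hT p hp).2).2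

theorem k4_fiber (l : ℕ → ℕ) (T : Finset ℕ) (J : ℕ) (hJ : ∀ p ∈ T, l p < J) :
    ∑ p ∈ T, (1 : ℝ) / 2 ^ l p =
      ∑ i ∈ Finset.range J, ((T.filter (fun p => l p = i)).card : ℝ) / 2 ^ i := by
  rw [← Finset.sum_fiberwise_of_maps_to (s := T) (t := Finset.range J) (g := l)
    (fun p hp => Finset.mem_range.2 (hJ p hp))]
  apply Finset.sum_congr rfl
  intro i _
  rw [Finset.sum_congr rfl (g := fun _ => (1 : ℝ) / 2 ^ i)]
  · rw [Finset.sum_const, nsmul_eq_mul]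
    ring
  · intro p hp
    rw [(Finset.mem_filter.1 hp).2]

theorem k4_final {R : ℝ} (hR : 1 ≤ R) {T : Finset ℕ} (hT : ∀ p ∈ T, 2 ≤ p ∧ (p : ℝ) ≤ R) {k : ℕ}
    (h : ∑ p ∈ T, (1 : ℝ) / 2 ^ lvl R p ≤ 2 * k + 2) : ∏ p ∈ T, (p : ℝ) ≤ R ^ (2 * k + 2) := by
  refine (k4_prod hR hT).trans ?_
  rw [← Real.rpow_natCast]
  apply Real.rpow_le_rpow_of_exponent_le hR
  push_cast
  exact h

/-- K4: the products of admissible sets are small -/
theorem fam_size_pr {R : ℝ} (hR : 1 ≤ R) {J k : ℕ} {S : Finset ℕ}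
    (hS : ∀ p ∈ S, 2 ≤ p ∧ (p : ℝ) ≤ R) (hJ : ∀ p ∈ S, lvl R p < J) :
    (∀ T ∈ AdS (lvl R) J k S, ∏ p ∈ T, (p : ℝ) ≤ R ^ (2 * k + 2)) ∧
    (∀ j, ∀ T ∈ ReS (lvl R) k j S, ∏ p ∈ T, (p : ℝ) ≤ R ^ (2 * k + 2)) := by
  classical
  constructor
  · intro T hT
    unfold AdS at hT
    rw [Finset.mem_filter, Finset.mem_powerset] at hT
    obtain ⟨hTS, hc⟩ := hT
    apply k4_final hR (fun p hp => hS p (hTS hp))
    rw [k4_fiber (lvl R) T J (fun p hp => hJ p (hTS hp))]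
    have h1 : ∑ i ∈ Finset.range J, ((T.filter (fun p => lvl R p = i)).card : ℝ) / 2 ^ i ≤
        ∑ i ∈ Finset.range J, (((k + i : ℕ) : ℝ)) / 2 ^ i := by
      apply Finset.sum_le_sum
      intro i hi
      apply div_le_div_of_nonneg_right _ (by positivity)
      exact_mod_cast hc i (Finset.mem_range.1 hi)
    rw [k4_sum] at h1
    have h2 : (0 : ℝ) ≤ (2 * k + 2 * J + 2) / 2 ^ J := by positivity
    linarith
  · intro j T hT
    unfold ReS at hT
    rw [Finset.mem_filter, Finset.mem_powerset] at hT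
    obtain ⟨hTS, hc, hcj, hle⟩ := hT
    apply k4_final hR (fun p hp => hS p (hTS hp))
    rw [k4_fiber (lvl R) T (j + 1) (fun p hp => Nat.lt_succ_of_le (hle p hp)),
      Finset.sum_range_succ, hcj]
    have h1 : ∑ i ∈ Finset.range j, ((T.filter (fun p => lvl R p = i)).card : ℝ) / 2 ^ i ≤
        ∑ i ∈ Finset.range j, (((k + i : ℕ) : ℝ)) / 2 ^ i := by
      apply Finset.sum_le_sum
      intro i hi
      apply div_le_div_of_nonneg_right _ (by positivity)
      exact_mod_cast hc i (Finset.mem_range.1 hi)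
    rw [k4_sum] at h1
    have h2 : (((k + j + 1 : ℕ) : ℝ)) / 2 ^ j ≤ (2 * k + 2 * j + 2) / 2 ^ j := by
      apply div_le_div_of_nonneg_right _ (by positivity)
      push_cast
      have hk : (0 : ℝ) ≤ k := Nat.cast_nonneg k
      have hj : (0 : ℝ) ≤ j := Nat.cast_nonneg j
      linarith
    linarith

end Pool.Agent.TR

namespace Pool.Agent.TR

theorem fam_size : type_of% @fam_size_pr := @fam_size_pr

end Pool.Agent.TR
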