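import Pool.Agent.Lib_helper97.TRL.M7
import Pool.Agent.Lib_helper10.T2F.HMO
import Pool.Agent.Lib_helper10.T2F.LSG
import Pool.Agent.Lib_helper10.T2F.MER
import Pool.Agent.Lib_helper10.T2F.MRT
import Pool.Agent.Lib_helper10.T2F.PEL
import Pool.Agent.Lib_helper10.T2F.PHM
import Pool.Agent.Lib_helper10.T2F.PTW
import Pool.Agent.Lib_helper10.T2F.SPA
import Pool.Agent.Lib_helper10.T2F.TJA
import Pool.Agent.Lib_helper10.T2F.TKA
import Pool.Agent.Lib_helper10.T2F.TKR
import Pool.Agent.Lib_helper10.T2F.TKV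
import Pool.Agent.Lib_helper10.T2F.UCD
import Pool.Agent.Lib_helper97.TRL.B19

/-! TR, block M8 (helper19): the sum of 1/norm over rough primitive elements -/

set_option autoImplicit false

namespace Pool.Agent.TR

open Pool.Agent.T2 Pool.Agent.TF Filter Topology

/-- the odd prime factors of the norm of a primitive element are `1 mod 4` -/
theorem m8_mod {e : G} (he : Prm e) {p : ℕ} (hp : p.Prime) (hp2 : 2 < p) (hd : p ∣ nn e) :
    p % 4 = 1 := by
  have : Fact p.Prime := ⟨hp⟩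
  have hc : IsCoprime e.re e.im := Int.isCoprime_iff_gcd_eq_one.2 he
  have h1 := ZMod.isSquare_neg_one_of_eq_sq_add_sq_of_isCoprime (nn_cast e) hc
  rw [Int.natAbs_natCast] at h1
  have h2 := ZMod.isSquare_neg_one_of_dvd hd h1
  rw [ZMod.exists_sq_eq_neg_one_iff] at h2
  have h3 : p % 2 = 1 := hp.eq_two_or_odd.resolve_left (by omega)
  omega

/-- the numbers composed of the primes of a set -/
theorem m8_euler (S : Finset ℕ) (hS : Pset S) (N : Finset ℕ)
    (hN : ∀ n ∈ N, n ≠ 0 ∧ ∀ p : ℕ, p.Prime → p ∣ n → p ∈ S) :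
    ∑ n ∈ N, 1 / (n : ℝ) ≤ Real.exp (2 * rs S) := by
  classical
  let f : ℕ →* ℝ :=
    { toFun := fun n => 1 / (n : ℝ)
      map_one' := by simp
      map_mul' := fun a b => by
        push_cast
        rw [one_div_mul_one_div] }
  have hf : ∀ n : ℕ, f n = 1 / (n : ℝ) := fun n => rfl
  have hlt : ∀ {p : ℕ}, p.Prime → ‖f p‖ < 1 := by
    intro p hp
    have h1 : (1 : ℝ) < p := by exact_mod_cast hp.one_lt
    rw [hf, Real.norm_eq_abs, abs_of_nonneg (by positivity), div_lt_one (by linarith)]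
    exact h1
  obtain ⟨-, hsum⟩ :=
    EulerProduct.summable_and_hasSum_factoredNumbers_prod_filter_prime_geometric hlt S
  have hfil : S.filter Nat.Prime = S := Finset.filter_true_of_mem (fun p hp => (hS p hp).1)
  rw [hfil] at hsum
  have hmem : ∀ n ∈ N, n ∈ Nat.factoredNumbers S := by
    intro n hn
    obtain ⟨h0, h⟩ := hN n hn
    refine ⟨h0, fun p hp => ?_⟩
    exact h p (Nat.prime_of_mem_primeFactorsList hp) (Nat.dvd_of_mem_primeFactorsList hp)
  have h1 : ∑ n ∈ N, 1 / (n : ℝ) ≤ ∏ p ∈ S, (1 - f p)⁻¹ := by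
    have h2 := sum_le_hasSum (N.subtype (fun n => n ∈ Nat.factoredNumbers S))
      (fun i _ => by rw [hf]; positivity) hsum
    refine le_trans (le_of_eq ?_) h2
    exact (Finset.sum_subtype_of_mem (fun n : ℕ => 1 / (n : ℝ)) hmem).symm
  refine h1.trans ?_
  unfold rs
  rw [Finset.mul_sum, Real.exp_sum]
  apply Finset.prod_le_prod
  · intro p hp
    have := hlt (hS p hp).1
    rw [Real.norm_eq_abs, abs_lt] at this
    have h3 : 0 < 1 - f p := by linarith
    positivity
  · intro p hp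
    have hp2 : (2 : ℝ) ≤ p := by exact_mod_cast (hS p hp).1.two_le
    have hx : f p ≤ 1 / 2 := by
      rw [hf]
      exact one_div_le_one_div_of_le (by norm_num) hp2
    have hx0 : 0 ≤ f p := by rw [hf]; positivity
    have h3 : 0 < 1 - f p := by linarith
    have h4 : (1 - f p)⁻¹ ≤ 1 + 2 * f p := by
      rw [inv_le_iff_one_le_mul₀ h3]
      nlinarith
    have h5 := Real.add_one_le_exp (2 * f p)
    rw [hf] at *
    linarith

open Classical in
theorem rough_sum_pr (ρ : ℝ) (hρ : 0 < ρ) : ∃ C X₀ : ℝ, 1 ≤ C ∧ ∀ X : ℝ, X₀ ≤ X →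
    ∑ e ∈ (PB X).filter (fun e => Rough (X ^ ρ) (nn e)), 1 / (nn e : ℝ) ≤ C := by
  obtain ⟨C, hC, hmer⟩ := mer_upper
  set r : ℝ := min ρ 1 with hr
  have hr0 : 0 < r := lt_min hρ one_pos
  have hr1 : r ≤ 1 := min_le_right _ _
  set K : ℝ := Real.exp (2 * (C * (1 + Real.log (1 / r)))) with hK
  have hlr : 0 ≤ Real.log (1 / r) := Real.log_nonneg (by rw [le_div_iff₀ hr0]; linarith)
  have hK1 : 1 ≤ K := by
    rw [hK]
    apply Real.one_le_exp
    positivity
  have h2r : (1 : ℝ) ≤ 2 ^ (1 / r) := Real.one_le_rpow (by norm_num) (by positivity)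
  refine ⟨4 * 2 ^ (1 / r) * K, 2 ^ (1 / r), ?_, fun X hX => ?_⟩
  · nlinarith [mul_nonneg (sub_nonneg.2 h2r) (sub_nonneg.2 hK1)]
  have hX2 : 2 ≤ X := by
    refine le_trans ?_ hX
    calc (2 : ℝ) = 2 ^ (1 : ℝ) := (Real.rpow_one 2).symm
      _ ≤ 2 ^ (1 / r) := by
        apply Real.rpow_le_rpow_of_exponent_le (by norm_num)
        rw [le_div_iff₀ hr0]; linarith
  have hX0 : 0 < X := by linarith
  have hXr : 2 ≤ X ^ r := by
    calc (2 : ℝ) = (2 ^ (1 / r)) ^ r := by
          rw [← Real.rpow_mul (by norm_num), one_div, inv_mul_cancel₀ hr0.ne', Real.rpow_one]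
      _ ≤ X ^ r := Real.rpow_le_rpow (by positivity) hX hr0.le
  have hXle : X ^ r ≤ X := by
    calc X ^ r ≤ X ^ (1 : ℝ) := Real.rpow_le_rpow_of_exponent_le (by linarith) hr1
      _ = X := Real.rpow_one X
  have hrρ : X ^ r ≤ X ^ ρ := Real.rpow_le_rpow_of_exponent_le (by linarith) (min_le_left _ _)
  set A : Finset G := (PB X).filter (fun e => Rough (X ^ ρ) (nn e)) with hA
  set N : Finset ℕ := A.image nn with hNdef
  -- the facts for the elements
  have hfac : ∀ e ∈ A, Rough (X ^ r) (nn e) ∧ (nn e : ℝ) ≤ X ∧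
      ∀ p : ℕ, p.Prime → p ∣ nn e → p % 4 = 1 ∧ p ∈ pr1 (X ^ r) X := by
    intro e he
    rw [hA, Finset.mem_filter, mem_PB] at he
    obtain ⟨⟨hprm, hle⟩, hro⟩ := he
    have hro' := rough_mono hrρ hro
    refine ⟨hro', hle, fun p hp hpe => ?_⟩
    have h1 := hro'.2 p hp hpe
    have h2 : 2 < p := by
      have : (2 : ℝ) < p := lt_of_le_of_lt hXr h1
      exact_mod_cast this
    have h3 := m8_mod hprm hp h2 hpe
    refine ⟨h3, mer_mem.2 ⟨hp, h3, h1, ?_⟩⟩
    refine le_trans ?_ hle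
    exact_mod_cast Nat.le_of_dvd (Nat.pos_of_ne_zero hro'.1) hpe
  -- the fibers
  have hfib : ∑ e ∈ A, 1 / (nn e : ℝ) = ∑ n ∈ N, ((A.filter (fun e => nn e = n)).card : ℝ) *
      (1 / (n : ℝ)) := by
    rw [← Finset.sum_fiberwise_of_maps_to (s := A) (t := N) (g := nn)
      (fun e he => Finset.mem_image_of_mem nn he) (fun e => 1 / (nn e : ℝ))]
    apply Finset.sum_congr rfl
    intro n _
    rw [Finset.sum_congr rfl (g := fun _ => 1 / (n : ℝ))
      (fun e he => by rw [(Finset.mem_filter.1 he).2]), Finset.sum_const, nsmul_eq_mul]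
  rw [hfib]
  have hN : ∀ n ∈ N, n ≠ 0 ∧ (∀ p : ℕ, p.Prime → p ∣ n → p ∈ pr1 (X ^ r) X) ∧
      ((A.filter (fun e => nn e = n)).card : ℝ) ≤ 4 * 2 ^ (1 / r) := by
    intro n hn
    rw [hNdef, Finset.mem_image] at hn
    obtain ⟨e, he, rfl⟩ := hn
    obtain ⟨h1, h2, h3⟩ := hfac e he
    refine ⟨h1.1, fun p hp hpe => (h3 p hp hpe).2, ?_⟩
    have h4 := norm_eq_count (nn e) h1.1 (fun p hp hpe => (h3 p hp hpe).1)
    have h5 : ((A.filter (fun e' => nn e' = nn e)).card : ℝ) ≤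
        (((Bl ((nn e : ℕ) : ℝ)).filter (fun e' => nn e' = nn e)).card : ℝ) := by
      have : A.filter (fun e' => nn e' = nn e) ⊆
          (Bl ((nn e : ℕ) : ℝ)).filter (fun e' => nn e' = nn e) := by
        intro e' he'
        rw [Finset.mem_filter] at he' ⊢
        refine ⟨mem_Bl.2 ⟨?_, ?_⟩, he'.2⟩
        · have := he'.1
          rw [hA, Finset.mem_filter, mem_PB] at this
          exact prm_ne this.1.1
        · rw [he'.2]
      exact_mod_cast Finset.card_le_card this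
    refine h5.trans (h4.trans ?_)
    have h6 := rough_omega hr0 (by linarith : 1 < X) h1 h2
    have h7 : (2 : ℝ) ^ (ArithmeticFunction.cardFactors (nn e)) ≤ 2 ^ (1 / r) := by
      rw [← Real.rpow_natCast]
      exact Real.rpow_le_rpow_of_exponent_le (by norm_num) h6
    linarith
  have h1 : ∑ n ∈ N, ((A.filter (fun e => nn e = n)).card : ℝ) * (1 / (n : ℝ)) ≤
      4 * 2 ^ (1 / r) * ∑ n ∈ N, 1 / (n : ℝ) := by
    rw [Finset.mul_sum]
    apply Finset.sum_le_sum
    intro n hn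
    exact mul_le_mul_of_nonneg_right (hN n hn).2.2 (by positivity)
  have h2 := m8_euler (pr1 (X ^ r) X) (mer_pset _ _) N (fun n hn => ⟨(hN n hn).1, (hN n hn).2.1⟩)
  have h3 : rs (pr1 (X ^ r) X) ≤ C * (1 + Real.log (1 / r)) := by
    refine (hmer _ _ hXr hXle).trans (le_of_eq ?_)
    have hlX : 0 < Real.log X := Real.log_pos (by linarith)
    rw [Real.log_rpow hX0]
    congr 3
    field_simp
  have h4 : Real.exp (2 * rs (pr1 (X ^ r) X)) ≤ K := by
    rw [hK]
    apply Real.exp_le_exp.2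
    linarith
  refine h1.trans ?_
  have h5 : (0 : ℝ) ≤ 4 * 2 ^ (1 / r) := by positivity
  exact mul_le_mul_of_nonneg_left (h2.trans h4) h5



end Pool.Agent.TR

namespace Pool.Agent.TR

theorem rough_sum : type_of% @rough_sum_pr := @rough_sum_pr

end Pool.Agent.TR
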