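import Pool.Agent.Lib_helper10.T2F.HMO
import Pool.Agent.Lib_helper10.T2F.LSG
import Pool.Agent.Lib_helper10.T2F.MER
import Pool.Agent.Lib_helper10.T2F.MRT
import Pool.Agent.Lib_helper10.T2F.PEL
import Pool.Agent.Lib_helper10.T2F.PHM
import Pool.Agent.Lib_helper10.T2F.PTW
import Pool.Agent.Lib_helper10.T2F.SPA
import Pool.Agent.Lib_helper10.T2F.TJA
import Pool.Agent.Lib_helper10.T2F.TKA
import Pool.Agent.Lib_helper10.T2F.TKR
import Pool.Agent.Lib_helper10.T2F.TKV
import Pool.Agent.Lib_helper10.T2F.UCD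
import Pool.Agent.Lib_helper97.TRL.B19

/-! TR, block M7: Gaussian divisors of a given norm -/

set_option autoImplicit false

namespace Pool.Agent.TR

open Pool.Agent.T2 Pool.Agent.TF Filter Topology

theorem m7_mul_star (z : G) : z * star z = ((nn z : ℕ) : G) := by
  have h := nn_cast z
  apply Zsqrtd.ext
  · simp only [Zsqrtd.re_mul, Zsqrtd.re_star, Zsqrtd.im_star, Zsqrtd.re_natCast]
    rw [h]; ring
  · simp only [Zsqrtd.im_mul, Zsqrtd.re_star, Zsqrtd.im_star, Zsqrtd.im_natCast]
    ring

theorem m7_unit {e : G} (h : nn e = 1) :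
    e = 1 ∨ e = -1 ∨ e = (⟨0, 1⟩ : G) ∨ e = (⟨0, -1⟩ : G) := by
  have h1 := nn_cast e
  rw [h] at h1
  obtain ⟨a, b⟩ := e
  replace h1 : (1 : ℤ) = a ^ 2 + b ^ 2 := by simpa using h1
  clear h
  have ha : a ≤ 1 := by nlinarith [sq_nonneg b]
  have ha' : -1 ≤ a := by nlinarith [sq_nonneg b]
  have hb : b ≤ 1 := by nlinarith [sq_nonneg a]
  have hb' : -1 ≤ b := by nlinarith [sq_nonneg a]
  interval_cases a <;> interval_cases b
  · exact absurd h1 (by norm_num)
  · right; left; rfl
  · exact absurd h1 (by norm_num)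
  · right; right; right; rfl
  · exact absurd h1 (by norm_num)
  · right; right; left; rfl
  · exact absurd h1 (by norm_num)
  · left; rfl
  · exact absurd h1 (by norm_num)

/-- the gcd with `d` has norm `d` -/
theorem m7_gcd {z : G} (hz : Prm z) {d : ℕ} (hd : d ∣ nn z) :
    nn (EuclideanDomain.gcd z (d : G)) = d := by
  set g : G := EuclideanDomain.gcd z (d : G) with hg
  have hgz : g ∣ z := EuclideanDomain.gcd_dvd_left _ _
  have hgd : g ∣ (d : G) := EuclideanDomain.gcd_dvd_right _ _
  have h1 : nn g ∣ d := by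
    obtain ⟨u, hu⟩ := hgd
    obtain ⟨v, hv⟩ := hgz
    have h2 := det_mul g u v
    rw [← hu, ← hv] at h2
    have h3 : det (d : G) z = d * z.im := by
      simp [det]
    rw [h3] at h2
    have h4 : ((nn g : ℕ) : ℤ) ∣ (d : ℤ) * z.im := ⟨_, h2⟩
    have h5 := det_mul g (u * ui) v
    have h6 : g * (u * ui) = (d : G) * ui := by rw [← mul_assoc, ← hu]
    rw [h6, ← hv] at h5
    have h7 : det ((d : G) * ui) z = -(d * z.re) := by
      simp [det, ui]
    rw [h7] at h5
    have h8 : ((nn g : ℕ) : ℤ) ∣ (d : ℤ) * z.re := by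
      rw [← dvd_neg]
      exact ⟨_, h5⟩
    have h9 : ((nn g : ℕ) : ℤ) ∣ (d : ℤ) * (Int.gcd z.re z.im : ℤ) := by
      rw [Int.gcd_eq_gcd_ab, mul_add, ← mul_assoc, ← mul_assoc]
      exact dvd_add (h8.mul_right _) (h4.mul_right _)
    rw [show Int.gcd z.re z.im = 1 from hz] at h9
    have h10 : ((nn g : ℕ) : ℤ) ∣ (d : ℤ) := by simpa using h9
    exact_mod_cast h10
  have h2 : d ∣ nn g := by
    have h3 : g = z * EuclideanDomain.gcdA z (d : G) + d * EuclideanDomain.gcdB z (d : G) :=
      EuclideanDomain.gcd_eq_gcd_ab _ _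
    set x := EuclideanDomain.gcdA z (d : G)
    set y := EuclideanDomain.gcdB z (d : G)
    obtain ⟨m, hm⟩ := hd
    have h4 : z * star z = (d : G) * m := by
      rw [m7_mul_star, hm]; push_cast; ring
    have h5 : ((nn g : ℕ) : G) = (d : G) * (m * x * star x + z * x * star y + star z * star x * y +
        d * y * star y) := by
      rw [← m7_mul_star, h3, star_add, star_mul', star_mul', star_natCast]
      linear_combination (x * star x) * h4
    have h6 := congrArg Zsqrtd.re h5
    rw [Zsqrtd.re_natCast] at h6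
    set W := (m * x * star x + z * x * star y + star z * star x * y + d * y * star y : G)
    have h7 : ((d : G) * W).re = (d : ℤ) * W.re := by
      rw [Zsqrtd.re_mul, Zsqrtd.re_natCast, Zsqrtd.im_natCast]; ring
    rw [h7] at h6
    have h8 : (d : ℤ) ∣ ((nn g : ℕ) : ℤ) := ⟨_, h6⟩
    exact_mod_cast h8
  exact Nat.dvd_antisymm h1 h2

theorem m7_exists {z : G} (hz : Prm z) {d : ℕ} (hd : d ∣ nn z) :
    ∃ t : G, t ∣ z ∧ nn t = d :=
  ⟨EuclideanDomain.gcd z (d : G), EuclideanDomain.gcd_dvd_left _ _, m7_gcd hz hd⟩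

/-- every divisor of norm `d` is the gcd up to a unit -/
theorem m7_eq {z : G} (hz : Prm z) {t : G} (ht : t ∣ z) :
    ∃ e : G, nn e = 1 ∧ EuclideanDomain.gcd z ((nn t : ℕ) : G) = t * e := by
  have h0 : t ≠ 0 := by
    rintro rfl
    exact prm_ne hz (zero_dvd_iff.1 ht)
  have hd : nn t ∣ nn z := by
    obtain ⟨v, hv⟩ := ht
    rw [hv, nn_mul]
    exact dvd_mul_right _ _
  have h1 : t ∣ ((nn t : ℕ) : G) := by
    rw [← m7_mul_star]
    exact dvd_mul_right _ _
  obtain ⟨e, he⟩ := EuclideanDomain.dvd_gcd ht h1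
  refine ⟨e, ?_, he⟩
  have h2 := congrArg nn he
  rw [m7_gcd hz hd, nn_mul] at h2
  have h3 : 0 < nn t := nn_pos.2 h0
  exact Nat.eq_of_mul_eq_mul_left h3 (by rw [← h2, mul_one])

theorem m7_assoc {z t t' : G} (hz : Prm z) (ht : t ∣ z) (ht' : t' ∣ z)
    (h : nn t = nn t') : ∃ e : G, nn e = 1 ∧ t' = t * e := by
  obtain ⟨e, he, h1⟩ := m7_eq hz ht
  obtain ⟨e', he', h2⟩ := m7_eq hz ht'
  rw [h] at h1
  have h3 : t * e = t' * e' := by rw [← h1, ← h2]
  have h5 : e' * star e' = 1 := by rw [m7_mul_star, he', Nat.cast_one]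
  refine ⟨e * star e', ?_, ?_⟩
  · rw [nn_mul, nn_star, he, he']
  · rw [← mul_assoc, h3, mul_assoc, h5, mul_one]

theorem m7_unique {z t t' : G} (hz : Prm z) (ht : t ∣ z) (ht' : t' ∣ z)
    (h : nn t = nn t') : Associated t t' := by
  obtain ⟨e, he, h1⟩ := m7_assoc hz ht ht' h
  have h5 : e * star e = 1 := by rw [m7_mul_star, he, Nat.cast_one]
  exact ⟨⟨e, star e, h5, by rw [mul_comm]; exact h5⟩, h1.symm⟩

open Classical in
theorem norm_div_count_pr {z : G} (hz : Prm z) {d : ℕ} (hdz : d ∣ nn z) :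
    ((Bl (d : ℝ)).filter (fun e => nn e = d ∧ e ∣ z)).card = 4 := by
  have hz0 : z ≠ 0 := prm_ne hz
  have hd0 : 0 < d := Nat.pos_of_dvd_of_pos hdz (nn_pos.2 hz0)
  obtain ⟨t, htz, htd⟩ := m7_exists hz hdz
  have ht0 : t ≠ 0 := by
    rintro rfl
    exact hz0 (zero_dvd_iff.1 htz)
  have u1 : nn (1 : G) = 1 := by decide
  have u2 : nn (-1 : G) = 1 := by decide
  have u3 : nn (⟨0, 1⟩ : G) = 1 := by decide
  have u4 : nn (⟨0, -1⟩ : G) = 1 := by decide
  have hset : (Bl (d : ℝ)).filter (fun e => nn e = d ∧ e ∣ z) =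
      ({1, -1, ⟨0, 1⟩, ⟨0, -1⟩} : Finset G).image (fun e => t * e) := by
    ext e
    rw [Finset.mem_filter, mem_Bl, Finset.mem_image]
    constructor
    · rintro ⟨-, he, hez⟩
      obtain ⟨w, hw, h⟩ := m7_assoc hz htz hez (by rw [htd, he])
      refine ⟨w, ?_, h.symm⟩
      rcases m7_unit hw with rfl | rfl | rfl | rfl <;> simp
    · rintro ⟨w, hw, rfl⟩
      have hw1 : nn w = 1 := by
        simp only [Finset.mem_insert, Finset.mem_singleton] at hw
        rcases hw with rfl | rfl | rfl | rfl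
        · exact u1
        · exact u2
        · exact u3
        · exact u4
      have h5 : w * star w = 1 := by rw [m7_mul_star, hw1, Nat.cast_one]
      have hnn : nn (t * w) = d := by rw [nn_mul, hw1, mul_one, htd]
      refine ⟨⟨?_, ?_⟩, hnn, ?_⟩
      · intro h0
        have := nn_pos.not.2 (not_not.2 h0)
        omega
      · rw [hnn]
      · obtain ⟨v, hv⟩ := htz
        refine ⟨star w * v, ?_⟩
        rw [hv]
        linear_combination (-(t * v)) * h5
  rw [hset, Finset.card_image_of_injective _ (mul_right_injective₀ ht0)]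
  decide

open Classical in
theorem norm_eq_count_pr (d : ℕ) (hd : d ≠ 0) (h4 : ∀ p : ℕ, p.Prime → p ∣ d → p % 4 = 1) :
    (((Bl (d : ℝ)).filter (fun e => nn e = d)).card : ℝ) ≤
      4 * 2 ^ (ArithmeticFunction.cardFactors d) := by
  induction d using induction_on_primes with
  | zero => exact absurd rfl hd
  | one =>
    have h1 : (Bl ((1 : ℕ) : ℝ)).filter (fun e => nn e = 1) ⊆
        ({1, -1, ⟨0, 1⟩, ⟨0, -1⟩} : Finset G) := by
      intro e he
      rw [Finset.mem_filter] at he
      rcases m7_unit he.2 with rfl | rfl | rfl | rfl <;> simp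
    have h2 := (Finset.card_le_card h1).trans (Finset.card_le_four)
    have h3 : (ArithmeticFunction.cardFactors 1) = 0 := by simp
    rw [h3, pow_zero, mul_one]
    exact_mod_cast h2
  | prime_mul p a hp ih =>
    have ha : a ≠ 0 := fun h => hd (by rw [h, mul_zero])
    have hp4 : p % 4 = 1 := h4 p hp (dvd_mul_right _ _)
    have ih' := ih ha (fun q hq hqa => h4 q hq (hqa.mul_left p))
    set A := (Bl (a : ℝ)).filter (fun e => nn e = a) with hA
    have hnp : nn (pel p) = p := (pel_spec_pr hp hp4).1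
    have hsub : (Bl ((p * a : ℕ) : ℝ)).filter (fun e => nn e = p * a) ⊆
        A.image (fun e => pel p * e) ∪ A.image (fun e => star (pel p) * e) := by
      intro e he
      rw [Finset.mem_filter, mem_Bl] at he
      obtain ⟨⟨he0, -⟩, hen⟩ := he
      have h1 : pel p ∣ e * star e := by
        rw [m7_mul_star, hen]
        refine ⟨star (pel p) * (a : G), ?_⟩
        rw [← mul_assoc, pel_mul_star_pr hp hp4]
        push_cast
        rfl
      have hmem : ∀ s : G, nn s = p → s ∣ e → ∃ v ∈ A, s * v = e := by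
        rintro s hs ⟨v, hv⟩
        have h2 : nn v = a := by
          have h3 : nn s * nn v = p * a := by rw [← nn_mul, ← hv, hen]
          rw [hs] at h3
          exact Nat.eq_of_mul_eq_mul_left hp.pos h3
        refine ⟨v, ?_, hv.symm⟩
        rw [hA, Finset.mem_filter, mem_Bl]
        refine ⟨⟨?_, ?_⟩, h2⟩
        · rintro rfl
          rw [mul_zero] at hv
          exact he0 hv
        · rw [h2]
      rw [Finset.mem_union, Finset.mem_image, Finset.mem_image]
      rcases (pel_prime_pr hp hp4).dvd_or_dvd h1 with h | h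
      · left
        obtain ⟨v, hv, h2⟩ := hmem _ hnp h
        exact ⟨v, hv, h2⟩
      · right
        have h3 : star (pel p) ∣ e := by
          obtain ⟨v, hv⟩ := h
          refine ⟨star v, ?_⟩
          have h4 := congrArg star hv
          rw [star_star, star_mul'] at h4
          exact h4
        obtain ⟨v, hv, h2⟩ := hmem _ (by rw [nn_star, hnp]) h3
        exact ⟨v, hv, h2⟩
    have hcard : ((Bl ((p * a : ℕ) : ℝ)).filter (fun e => nn e = p * a)).card ≤ 2 * A.card := by
      refine (Finset.card_le_card hsub).trans ((Finset.card_union_le _ _).trans ?_)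
      have h1 : (A.image (fun e => pel p * e)).card ≤ A.card := Finset.card_image_le
      have h2 : (A.image (fun e => star (pel p) * e)).card ≤ A.card := Finset.card_image_le
      omega
    have hom : ArithmeticFunction.cardFactors (p * a) = ArithmeticFunction.cardFactors a + 1 := by
      rw [ArithmeticFunction.cardFactors_mul hp.ne_zero ha,
        ArithmeticFunction.cardFactors_apply_prime hp, add_comm]
    have hcard' : (((Bl ((p * a : ℕ) : ℝ)).filter (fun e => nn e = p * a)).card : ℝ) ≤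
        2 * (A.card : ℝ) := by exact_mod_cast hcard
    refine hcard'.trans ?_
    rw [hom, pow_succ]
    linarith




end Pool.Agent.TR

namespace Pool.Agent.TR

theorem norm_div_count : type_of% @norm_div_count_pr := @norm_div_count_pr
theorem norm_eq_count : type_of% @norm_eq_count_pr := @norm_eq_count_pr

end Pool.Agent.TR
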