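import Pool.Agent.Lib_helper10.T2F.HMO
import Pool.Agent.Lib_helper10.T2F.LSG
import Pool.Agent.Lib_helper10.T2F.MER
import Pool.Agent.Lib_helper10.T2F.MRT
import Pool.Agent.Lib_helper10.T2F.PEL
import Pool.Agent.Lib_helper10.T2F.PHM
import Pool.Agent.Lib_helper10.T2F.PTW
import Pool.Agent.Lib_helper10.T2F.SPA
import Pool.Agent.Lib_helper10.T2F.TJA
import Pool.Agent.Lib_helper10.T2F.TKA
import Pool.Agent.Lib_helper10.T2F.TKR
import Pool.Agent.Lib_helper10.T2F.TKV
import Pool.Agent.Lib_helper10.T2F.UCD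
import Pool.Agent.Lib_helper97.TRL.B19

set_option autoImplicit false

namespace Pool.Agent.TR

open Pool.Agent.T2 Pool.Agent.TF Filter Topology

theorem m9a_nn_one : nn (1 : G) = 1 := by
  have := nn_nat 1
  simpa using this

theorem m9a_unit {u : G} (h : IsUnit u) : nn u = 1 := by
  obtain ⟨v, hv⟩ := h.exists_right_inv
  have h1 := nn_mul u v
  rw [hv, m9a_nn_one] at h1
  exact Nat.eq_one_of_mul_eq_one_right h1.symm

theorem m9a_assoc {u v : G} (h : Associated u v) : nn u = nn v := by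
  obtain ⟨e, rfl⟩ := h
  rw [nn_mul, m9a_unit e.isUnit, mul_one]

/-- lower bound for the norm of a product -/
theorem m9a_prod (c : ℝ) (hc : 0 ≤ c) (s : Multiset G) (h : ∀ q ∈ s, c ≤ (nn q : ℝ)) :
    c ^ s.card ≤ (nn s.prod : ℝ) := by
  induction s using Multiset.induction_on with
  | empty => simp [m9a_nn_one]
  | cons a s ih =>
    have h1 := ih (fun q hq => h q (Multiset.mem_cons_of_mem hq))
    have h2 := h a (Multiset.mem_cons_self a s)
    rw [Multiset.card_cons, Multiset.prod_cons, nn_mul, pow_succ, mul_comm]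
    push_cast
    exact mul_le_mul h2 h1 (by positivity) (by positivity)

open Classical in
/-- the multiples of `q` in a ball -/
theorem m9a_mult {C : ℝ} (hb : ∀ x : ℝ, 0 ≤ x → ((Bl x).card : ℝ) ≤ C * x) {q : G} (hq : q ≠ 0)
    {y : ℝ} (hy : 0 ≤ y) : (((Bl y).filter (fun w => q ∣ w)).card : ℝ) ≤ C * (y / nn q) := by
  have hq0 : (0 : ℝ) < nn q := by exact_mod_cast nn_pos.2 hq
  have hsub : (Bl y).filter (fun w => q ∣ w) ⊆ (Bl (y / nn q)).image (fun v => q * v) := by
    intro w hw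
    rw [Finset.mem_filter, mem_Bl] at hw
    obtain ⟨⟨hw0, hwy⟩, v, rfl⟩ := hw
    rw [Finset.mem_image]
    refine ⟨v, ?_, rfl⟩
    rw [mem_Bl]
    refine ⟨fun h => hw0 (by rw [h, mul_zero]), ?_⟩
    rw [le_div_iff₀ hq0, mul_comm]
    rw [nn_mul] at hwy
    exact_mod_cast hwy
  have h1 : (((Bl y).filter (fun w => q ∣ w)).card : ℝ) ≤ ((Bl (y / nn q)).card : ℝ) := by
    exact_mod_cast (Finset.card_le_card hsub).trans Finset.card_image_le
  exact h1.trans (hb _ (by positivity))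

/-- the norm of a nonunit divisor of a rough element is large -/
theorem m9a_large {R : ℝ} {t q : G} (ht : Rough R (nn t)) (hq : ¬ IsUnit q) (hqt : q ∣ star t) :
    R < (nn q : ℝ) := by
  have h1 : nn q ≠ 1 := fun h => hq (cls_unit_of_nn h)
  have h2 : nn q ∣ nn t := by
    obtain ⟨v, hv⟩ := hqt
    rw [← nn_star t, hv, nn_mul]
    exact dvd_mul_right _ _
  have h3 : nn q ≠ 0 := fun h => ht.1 (by rw [h] at h2; exact Nat.eq_zero_of_zero_dvd h2)
  obtain ⟨p, hp, hpq⟩ := Nat.exists_prime_and_dvd h1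
  have h4 := ht.2 p hp (hpq.trans h2)
  have h5 : (p : ℝ) ≤ nn q := by exact_mod_cast Nat.le_of_dvd (by omega) hpq
  linarith

open Classical in
theorem not_prm_count_pr (ρ : ℝ) (hρ : 0 < ρ) : ∃ C X₀ : ℝ, 1 ≤ C ∧ ∀ X : ℝ, X₀ ≤ X → ∀ t : G,
    Prm t → (nn t : ℝ) ≤ X → Rough (X ^ ρ) (nn t) → ∀ y : ℝ, 0 ≤ y →
      (((PB y).filter (fun w => ¬ Prm (t * w))).card : ℝ) ≤ C * y / X ^ ρ := by
  obtain ⟨Cb, hCb, hb⟩ := ball_le
  refine ⟨max 1 (Cb / ρ), 2, le_max_left _ _, fun X hX t ht htX hr y hy => ?_⟩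
  have hX0 : 0 < X := by linarith
  have hXρ : 0 < X ^ ρ := Real.rpow_pos_of_pos hX0 ρ
  have ht0 : star t ≠ 0 := by
    intro h
    have := prm_ne ht
    exact this (star_eq_zero.1 h)
  set F := UniqueFactorizationMonoid.factors (star t) with hF
  have hFprime : ∀ q ∈ F, Prime q := fun q hq => UniqueFactorizationMonoid.prime_of_factor q hq
  have hFdvd : ∀ q ∈ F, q ∣ star t := fun q hq => UniqueFactorizationMonoid.dvd_of_mem_factors hq
  have hFlarge : ∀ q ∈ F, X ^ ρ < (nn q : ℝ) := fun q hq =>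
    m9a_large hr (hFprime q hq).not_isUnit (hFdvd q hq)
  -- the number of factors
  have hcard : (F.card : ℝ) ≤ 1 / ρ := by
    have h1 := m9a_prod (X ^ ρ) hXρ.le F (fun q hq => (hFlarge q hq).le)
    have h2 : nn F.prod = nn t := by
      rw [m9a_assoc (UniqueFactorizationMonoid.factors_prod ht0), nn_star]
    rw [h2] at h1
    have h3 := h1.trans htX
    have hlX : 0 < Real.log X := Real.log_pos (by linarith)
    have h4 := Real.log_le_log (by positivity) h3
    rw [Real.log_pow, Real.log_rpow hX0] at h4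
    rw [le_div_iff₀ hρ]
    have h5 : ((F.card : ℝ) * ρ) * Real.log X ≤ 1 * Real.log X := by
      rw [one_mul, mul_assoc]; exact h4
    exact le_of_mul_le_mul_right h5 hlX
  have hsub : (PB y).filter (fun w => ¬ Prm (t * w)) ⊆
      F.toFinset.biUnion (fun q => (Bl y).filter (fun w => q ∣ w)) := by
    intro w hw
    rw [Finset.mem_filter, mem_PB] at hw
    obtain ⟨⟨hwp, hwy⟩, hn⟩ := hw
    rw [cls_prm ht] at hn
    have hnc : ¬ IsCoprime w (star t) := fun h => hn ⟨hwp, h⟩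
    have hex : ∃ z : G, Prime z ∧ z ∣ w ∧ z ∣ star t := by
      by_contra hno
      push Not at hno
      exact hnc (isCoprime_of_prime_dvd (fun h => ht0 h.2) (fun z hz h1 => hno z hz h1))
    obtain ⟨z, hz, hzw, hzt⟩ := hex
    obtain ⟨q, hq, hzq⟩ := UniqueFactorizationMonoid.exists_mem_factors_of_dvd ht0 hz.irreducible hzt
    rw [Finset.mem_biUnion]
    refine ⟨q, Multiset.mem_toFinset.2 hq, ?_⟩
    rw [Finset.mem_filter, mem_Bl]
    exact ⟨⟨prm_ne hwp, hwy⟩, hzq.symm.dvd.trans hzw⟩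
  have h1 : (((PB y).filter (fun w => ¬ Prm (t * w))).card : ℝ) ≤
      ∑ q ∈ F.toFinset, (((Bl y).filter (fun w => q ∣ w)).card : ℝ) := by
    exact_mod_cast (Finset.card_le_card hsub).trans Finset.card_biUnion_le
  have h2 : ∀ q ∈ F.toFinset, (((Bl y).filter (fun w => q ∣ w)).card : ℝ) ≤
      Cb * (y / X ^ ρ) := by
    intro q hq
    have hq' := Multiset.mem_toFinset.1 hq
    refine (m9a_mult hb (hFprime q hq').ne_zero hy).trans ?_
    refine mul_le_mul_of_nonneg_left ?_ (by linarith)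
    exact div_le_div_of_nonneg_left hy hXρ (hFlarge q hq').le
  have h3 : (F.toFinset.card : ℝ) ≤ 1 / ρ := by
    have : F.toFinset.card ≤ F.card := Multiset.toFinset_card_le F
    have h' : (F.toFinset.card : ℝ) ≤ F.card := by exact_mod_cast this
    linarith
  refine (h1.trans (Finset.sum_le_card_nsmul _ _ _ h2)).trans ?_
  rw [nsmul_eq_mul]
  have hnn : 0 ≤ Cb * (y / X ^ ρ) := by positivity
  calc (F.toFinset.card : ℝ) * (Cb * (y / X ^ ρ)) ≤ (1 / ρ) * (Cb * (y / X ^ ρ)) :=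
        mul_le_mul_of_nonneg_right h3 hnn
    _ = (Cb / ρ) * (y / X ^ ρ) := by ring
    _ ≤ max 1 (Cb / ρ) * (y / X ^ ρ) :=
        mul_le_mul_of_nonneg_right (le_max_right _ _) (by positivity)
    _ = max 1 (Cb / ρ) * y / X ^ ρ := by ring



end Pool.Agent.TR

namespace Pool.Agent.TR

theorem not_prm_count : type_of% @not_prm_count_pr := @not_prm_count_pr

end Pool.Agent.TR
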