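import Pool.Agent.Lib_helper97.TRL.M6
import Pool.Agent.Lib_helper97.TRL.M7
import Pool.Agent.Lib_helper97.TRL.M8
import Pool.Agent.Lib_helper97.TRL.M9a
import Pool.Agent.Lib_helper10.T2F.HMO
import Pool.Agent.Lib_helper10.T2F.LSG
import Pool.Agent.Lib_helper10.T2F.MER
import Pool.Agent.Lib_helper10.T2F.MRT
import Pool.Agent.Lib_helper10.T2F.PEL
import Pool.Agent.Lib_helper10.T2F.PHM
import Pool.Agent.Lib_helper10.T2F.PTW
import Pool.Agent.Lib_helper10.T2F.SPA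
import Pool.Agent.Lib_helper10.T2F.TJA
import Pool.Agent.Lib_helper10.T2F.TKA
import Pool.Agent.Lib_helper10.T2F.TKR
import Pool.Agent.Lib_helper10.T2F.TKV
import Pool.Agent.Lib_helper10.T2F.UCD
import Pool.Agent.Lib_helper97.TRL.B19

/-! TR, part M, block M9b -/

set_option autoImplicit false

namespace Pool.Agent.TR

open Pool.Agent.T2 Pool.Agent.TF Filter Topology

open Classical in
/-- the inner sum of `H` over the divisors of the norm -/
theorem m9b_divsum {ρ X Y : ℝ} (hYX : Y ≤ X) {H : ℕ → ℝ}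
    (hH : ∀ d, H d ≠ 0 → Rough (X ^ ρ) d) {z : G} (hz : z ∈ PB Y) :
    ∑ d ∈ (nn z).divisors, H d = (1 / 4) * ∑ e ∈ ((PB X).filter
      (fun e => Rough (X ^ ρ) (nn e))).filter (fun e => e ∣ z), H (nn e) := by
  rw [mem_PB] at hz
  obtain ⟨hzp, hzY⟩ := hz
  have hz0 : nn z ≠ 0 := (nn_pos.2 (prm_ne hzp)).ne'
  set T : Finset G := ((PB X).filter (fun e => Rough (X ^ ρ) (nn e))).filter (fun e => e ∣ z)
    with hT
  have hmap : ∀ e ∈ T, nn e ∈ (nn z).divisors := by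
    intro e he
    rw [hT, Finset.mem_filter] at he
    obtain ⟨w, hw⟩ := he.2
    rw [Nat.mem_divisors]
    refine ⟨⟨nn w, ?_⟩, hz0⟩
    rw [hw, nn_mul]
  have h1 : ∑ e ∈ T, H (nn e) = ∑ d ∈ (nn z).divisors, ∑ e ∈ T.filter (fun e => nn e = d), H (nn e) := by
    rw [Finset.sum_fiberwise_of_maps_to hmap]
  rw [h1, Finset.mul_sum]
  apply Finset.sum_congr rfl
  intro d hd
  rw [Nat.mem_divisors] at hd
  have h2 : ∑ e ∈ T.filter (fun e => nn e = d), H (nn e) =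
      ∑ e ∈ T.filter (fun e => nn e = d), H d := by
    apply Finset.sum_congr rfl
    intro e he
    rw [Finset.mem_filter] at he
    rw [he.2]
  rw [h2, Finset.sum_const, nsmul_eq_mul]
  by_cases h0 : H d = 0
  · rw [h0]; ring
  · have hr := hH d h0
    have h3 : T.filter (fun e => nn e = d) =
        (Bl (d : ℝ)).filter (fun e => nn e = d ∧ e ∣ z) := by
      ext e
      rw [hT]
      simp only [Finset.mem_filter, mem_PB, mem_Bl]
      constructor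
      · rintro ⟨⟨⟨⟨h4, h5⟩, h6⟩, h7⟩, h8⟩
        exact ⟨⟨prm_ne h4, by rw [h8]⟩, h8, h7⟩
      · rintro ⟨⟨h4, h5⟩, h6, h7⟩
        have h8 : Prm e := by
          obtain ⟨w, hw⟩ := h7
          rw [hw] at hzp
          exact prm_mul_left hzp
        have h9 : (nn e : ℝ) ≤ X := by
          have : nn e ≤ nn z := by
            rw [h6]
            exact Nat.le_of_dvd (Nat.pos_of_ne_zero hz0) hd.1
          have h10 : (nn e : ℝ) ≤ nn z := by exact_mod_cast this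
          linarith
        exact ⟨⟨⟨⟨h8, h9⟩, by rw [h6]; exact hr⟩, h7⟩, h6⟩
    rw [h3, norm_div_count hzp hd.1]
    push_cast
    ring

open Classical in
theorem m9b_inner {X Y D : ℝ} (hY : 0 ≤ Y) {m : G} (χ : MChar m) (k : ℤ) {e : G} (he : Prm e)
    (hcard : (((PB (Y / nn e)).filter (fun w => ¬ Prm (e * w))).card : ℝ) ≤ D) :
    ‖∑ z ∈ (PB Y).filter (fun z => e ∣ z), (gl z : ℂ) * xi χ k z‖ ≤
      ‖Sm χ k (Y / nn e)‖ + D := by
  have he0 : e ≠ 0 := prm_ne he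
  have hne : 0 < nn e := nn_pos.2 he0
  have hneR : (0 : ℝ) < nn e := by exact_mod_cast hne
  have h1 : ∑ z ∈ (PB Y).filter (fun z => e ∣ z), (gl z : ℂ) * xi χ k z =
      ∑ w ∈ (PB (Y / nn e)).filter (fun w => Prm (e * w)),
        (gl (e * w) : ℂ) * xi χ k (e * w) := by
    apply tkr_mul_sum he0
    · intro w hw
      rw [Finset.mem_filter, mem_PB] at hw
      rw [Finset.mem_filter, mem_PB]
      refine ⟨⟨hw.2, ?_⟩, dvd_mul_right e w⟩
      rw [nn_mul]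
      push_cast
      have := (le_div_iff₀ hneR).1 hw.1.2
      linarith
    · intro z hz
      rw [Finset.mem_filter, mem_PB] at hz
      obtain ⟨⟨h2, h3⟩, w, hw⟩ := hz
      refine ⟨w, ?_, hw⟩
      rw [Finset.mem_filter, mem_PB]
      rw [hw] at h2 h3
      refine ⟨⟨?_, ?_⟩, h2⟩
      · rw [mul_comm] at h2
        exact prm_mul_left h2
      · rw [le_div_iff₀ hneR]
        rw [nn_mul] at h3
        push_cast at h3
        linarith
  have h2 : ∑ w ∈ (PB (Y / nn e)).filter (fun w => Prm (e * w)),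
        (gl (e * w) : ℂ) * xi χ k (e * w) = ((gl e : ℂ) * xi χ k e) *
        (Sm χ k (Y / nn e) - ∑ w ∈ (PB (Y / nn e)).filter (fun w => ¬ Prm (e * w)),
          (gl w : ℂ) * xi χ k w) := by
    have h3 : Sm χ k (Y / nn e) = ∑ w ∈ (PB (Y / nn e)).filter (fun w => Prm (e * w)),
        (gl w : ℂ) * xi χ k w + ∑ w ∈ (PB (Y / nn e)).filter (fun w => ¬ Prm (e * w)),
          (gl w : ℂ) * xi χ k w := by
      rw [Sm, Finset.sum_filter_add_sum_filter_not]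
    rw [h3, add_sub_cancel_right, Finset.mul_sum]
    apply Finset.sum_congr rfl
    intro w _
    rw [gl_mul, tkr_xi_mul]
    push_cast
    ring
  have hxi : ∀ w : G, ‖(gl w : ℂ) * xi χ k w‖ ≤ 1 := by
    intro w
    rw [norm_mul, Complex.norm_real, Real.norm_eq_abs, xi, norm_mul]
    have h4 := gl_abs w
    have h5 := chi_norm_le χ w
    have h6 := ang_le k w
    calc |gl w| * (‖χ.f w‖ * ‖ang k w‖) ≤ 1 * (1 * 1) := by gcongr
      _ = 1 := by ring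
  rw [h1, h2, norm_mul]
  have h7 : ‖∑ w ∈ (PB (Y / nn e)).filter (fun w => ¬ Prm (e * w)),
          (gl w : ℂ) * xi χ k w‖ ≤ D := by
    refine (norm_sum_le _ _).trans ?_
    refine (Finset.sum_le_sum (fun w _ => hxi w)).trans ?_
    simpa using hcard
  calc ‖(gl e : ℂ) * xi χ k e‖ * ‖Sm χ k (Y / nn e) -
        ∑ w ∈ (PB (Y / nn e)).filter (fun w => ¬ Prm (e * w)), (gl w : ℂ) * xi χ k w‖
      ≤ 1 * (‖Sm χ k (Y / nn e)‖ +
        ‖∑ w ∈ (PB (Y / nn e)).filter (fun w => ¬ Prm (e * w)), (gl w : ℂ) * xi χ k w‖) := by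
        gcongr
        · exact hxi e
        · exact norm_sub_le _ _
    _ ≤ _ := by rw [one_mul]; linarith

open Classical in
theorem mr_splitF_pr (ρ : ℝ) (hρ : 0 < ρ) : ∃ C X₀ : ℝ, 1 ≤ C ∧ ∀ X : ℝ, X₀ ≤ X → ∀ F : ℕ → ℝ,
    Flip (X ^ ρ) F → ∀ (m : G) (χ : MChar m) (k : ℤ) (Y : ℝ), 1 ≤ Y → Y ≤ X →
      ‖SmF F χ k Y‖ ≤ C * (∑ e ∈ (PB X).filter (fun e => Rough (X ^ ρ) (nn e)),
        ‖Sm χ k (Y / nn e)‖) + C * Y / X ^ ρ := by
  obtain ⟨C₁, hC₁, hconv⟩ := flip_conv ρ hρ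
  obtain ⟨C₂, X₂, hC₂, hrs⟩ := rough_sum ρ hρ
  obtain ⟨C₃, X₃, hC₃, hnp⟩ := not_prm_count ρ hρ
  refine ⟨C₁ * C₂ * C₃, max 2 (max X₂ X₃), ?_, ?_⟩
  · have : 1 ≤ C₁ * C₂ := one_le_mul_of_one_le_of_one_le hC₁ hC₂
    exact one_le_mul_of_one_le_of_one_le this hC₃
  intro X hX F hF m χ k Y hY hYX
  simp only [max_le_iff] at hX
  obtain ⟨hX2, hXX2, hXX3⟩ := hX
  obtain ⟨H, hHF, hHr, hHb⟩ := hconv X hX2 F hF
  have hX0 : 0 < X := by linarith
  have hXρ : 0 < X ^ ρ := Real.rpow_pos_of_pos hX0 ρ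
  set S : Finset G := (PB X).filter (fun e => Rough (X ^ ρ) (nn e)) with hS
  have h1 : SmF F χ k Y = (1 / 4) * ∑ e ∈ S, (H (nn e) : ℂ) *
      ∑ z ∈ (PB Y).filter (fun z => e ∣ z), (gl z : ℂ) * xi χ k z := by
    have h2 : SmF F χ k Y = ∑ z ∈ PB Y, ∑ e ∈ S,
        (if e ∣ z then (1 / 4 : ℂ) * ((H (nn e) : ℂ) * ((gl z : ℂ) * xi χ k z)) else 0) := by
      rw [SmF]
      apply Finset.sum_congr rfl
      intro z hz
      have hz0 : nn z ≠ 0 := by
        rw [mem_PB] at hz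
        exact (nn_pos.2 (prm_ne hz.1)).ne'
      rw [hHF _ hz0, m9b_divsum hYX hHr hz, ← Finset.sum_filter, gl]
      push_cast
      rw [Finset.mul_sum, Finset.mul_sum, Finset.sum_mul]
      apply Finset.sum_congr rfl
      intro e _
      ring
    rw [h2, Finset.sum_comm, Finset.mul_sum]
    apply Finset.sum_congr rfl
    intro e _
    rw [← Finset.sum_filter, Finset.mul_sum, Finset.mul_sum]
  have h3 : ∀ e ∈ S, ‖(H (nn e) : ℂ) *
      ∑ z ∈ (PB Y).filter (fun z => e ∣ z), (gl z : ℂ) * xi χ k z‖ ≤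
      C₁ * (‖Sm χ k (Y / nn e)‖ + C₃ * (Y / nn e) / X ^ ρ) := by
    intro e he
    rw [hS, Finset.mem_filter, mem_PB] at he
    obtain ⟨⟨h4, h5⟩, h6⟩ := he
    have h7 := hHb (nn e) h5
    have h8 := hnp X hXX3 e h4 h5 h6 (Y / nn e) (by positivity)
    have h9 := m9b_inner (X := X) (by linarith : (0 : ℝ) ≤ Y) χ k h4 h8
    rw [norm_mul, Complex.norm_real, Real.norm_eq_abs]
    gcongr
  calc ‖SmF F χ k Y‖ ≤ (1 / 4) * ∑ e ∈ S, C₁ * (‖Sm χ k (Y / nn e)‖ + C₃ * (Y / nn e) / X ^ ρ) := by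
        rw [h1, norm_mul]
        have h10 : ‖(1 / 4 : ℂ)‖ = 1 / 4 := by norm_num
        rw [h10]
        gcongr
        exact (norm_sum_le _ _).trans (Finset.sum_le_sum h3)
    _ = (1 / 4) * (C₁ * ∑ e ∈ S, ‖Sm χ k (Y / nn e)‖ +
        C₁ * C₃ * Y / X ^ ρ * ∑ e ∈ S, 1 / (nn e : ℝ)) := by
        congr 1
        rw [Finset.mul_sum, Finset.mul_sum, ← Finset.sum_add_distrib]
        apply Finset.sum_congr rfl
        intro e _
        ring
    _ ≤ 1 * (C₁ * ∑ e ∈ S, ‖Sm χ k (Y / nn e)‖ + C₁ * C₃ * Y / X ^ ρ * C₂) := by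
        have h11 := hrs X hXX2
        have h12 : 0 ≤ ∑ e ∈ S, ‖Sm χ k (Y / nn e)‖ := Finset.sum_nonneg (fun _ _ => norm_nonneg _)
        have h13 : (0 : ℝ) ≤ C₁ * C₃ * Y / X ^ ρ * C₂ := by positivity
        gcongr
        norm_num
    _ ≤ C₁ * C₂ * C₃ * (∑ e ∈ S, ‖Sm χ k (Y / nn e)‖) + C₁ * C₂ * C₃ * Y / X ^ ρ := by
        rw [one_mul]
        have h12 : 0 ≤ ∑ e ∈ S, ‖Sm χ k (Y / nn e)‖ := Finset.sum_nonneg (fun _ _ => norm_nonneg _)
        have h14 : C₁ ≤ C₁ * C₂ * C₃ := by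
          have : 1 ≤ C₂ * C₃ := one_le_mul_of_one_le_of_one_le hC₂ hC₃
          nlinarith
        have h15 : C₁ * C₃ * Y / X ^ ρ * C₂ = C₁ * C₂ * C₃ * Y / X ^ ρ := by ring
        rw [h15]
        gcongr



end Pool.Agent.TR

namespace Pool.Agent.TR

theorem mr_splitF : type_of% @mr_splitF_pr := @mr_splitF_pr

end Pool.Agent.TR
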