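import Pool.Agent.Lib_helper97.TRL.M11
import Pool.Agent.Lib_helper97.TRL.M8
import Pool.Agent.Lib_helper97.TRL.M9b
import Pool.Agent.Lib_helper10.T2F.HMO
import Pool.Agent.Lib_helper10.T2F.LSG
import Pool.Agent.Lib_helper10.T2F.MER
import Pool.Agent.Lib_helper10.T2F.MRT
import Pool.Agent.Lib_helper10.T2F.PEL
import Pool.Agent.Lib_helper10.T2F.PHM
import Pool.Agent.Lib_helper10.T2F.PTW
import Pool.Agent.Lib_helper10.T2F.SPA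
import Pool.Agent.Lib_helper10.T2F.TJA
import Pool.Agent.Lib_helper10.T2F.TKA
import Pool.Agent.Lib_helper10.T2F.TKR
import Pool.Agent.Lib_helper10.T2F.TKV
import Pool.Agent.Lib_helper10.T2F.UCD
import Pool.Agent.Lib_helper97.TRL.B19

/-!
# TR, block M10: every single frequency
-/

set_option autoImplicit false

namespace Pool.Agent.TR

open Pool.Agent.T2 Pool.Agent.TF Filter Topology

theorem m10_Sm_floor {m : G} (χ : MChar m) (k : ℤ) (x : ℝ) :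
    Sm χ k x = Sm χ k (⌊x⌋₊ : ℝ) := by
  rw [Sm_eq_SmF, Sm_eq_SmF, SmF_floor]

theorem m10_Sm_zero {m : G} (χ : MChar m) (k : ℤ) : Sm χ k ((0 : ℕ) : ℝ) = 0 := by
  rw [Sm_eq_SmF]
  exact SmF_zero _ _ _ (by norm_num)

/-- one elementary divisor -/
theorem m10_one {m : G} (χ : MChar m) (k : ℤ) (n : ℕ) (hn : 1 ≤ n) (X K : ℝ) (hX : 0 ≤ X)
    (h : ∑ Y ∈ Finset.Icc 1 ⌊X⌋₊, ‖Sm χ k Y‖ ^ 2 / (Y : ℝ) ^ 3 ≤ K) :
    (n : ℝ) * ∑ Y ∈ Finset.Icc 1 ⌊X⌋₊, ‖Sm χ k ((Y : ℝ) / n)‖ ^ 2 / (Y : ℝ) ^ 3 ≤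
      2 * K * (1 / (n : ℝ)) := by
  have hn0 : (0 : ℝ) < n := by exact_mod_cast hn
  have hn1 : (1 : ℝ) ≤ n := by exact_mod_cast hn
  have hz : (0 : ℝ) < 1 / n := by positivity
  have h1 := mrf_scale (fun j => ‖Sm χ k (j : ℝ)‖ ^ 2) (fun j => by positivity)
    (by simp only [m10_Sm_zero, norm_zero]; norm_num) (1 / n) X hz hX
  have e1 : ∑ Y ∈ Finset.Icc 1 ⌊X⌋₊, ‖Sm χ k ((Y : ℝ) / n)‖ ^ 2 / (Y : ℝ) ^ 3 =
      ∑ Y ∈ Finset.Icc 1 ⌊X⌋₊, ‖Sm χ k ((⌊1 / (n : ℝ) * (Y : ℝ)⌋₊ : ℕ) : ℝ)‖ ^ 2 /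
        (Y : ℝ) ^ 3 := by
    refine Finset.sum_congr rfl fun Y _ => ?_
    rw [m10_Sm_floor χ k ((Y : ℝ) / n)]
    have : (Y : ℝ) / n = 1 / (n : ℝ) * (Y : ℝ) := by ring
    rw [this]
  have e2 : ∑ y ∈ Finset.Icc 1 ⌊1 / (n : ℝ) * X⌋₊, ‖Sm χ k (y : ℝ)‖ ^ 2 / (y : ℝ) ^ 3 ≤ K := by
    refine le_trans ?_ h
    apply Finset.sum_le_sum_of_subset_of_nonneg
    · apply Finset.Icc_subset_Icc le_rfl
      apply Nat.floor_le_floor
      have : 1 / (n : ℝ) ≤ 1 := by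
        rw [div_le_one hn0]; exact hn1
      calc 1 / (n : ℝ) * X ≤ 1 * X := mul_le_mul_of_nonneg_right this hX
        _ = X := one_mul X
    · intro _ _ _; positivity
  have hK : 0 ≤ K := le_trans (Finset.sum_nonneg fun _ _ => by positivity) h
  have e3 : (1 / (n : ℝ)) ^ 3 * (1 / (1 / (n : ℝ)) + 1) ≤ 2 / (n : ℝ) ^ 2 := by
    rw [one_div_one_div]
    have : (1 / (n : ℝ)) ^ 3 * ((n : ℝ) + 1) ≤ (1 / (n : ℝ)) ^ 3 * ((n : ℝ) + n) := by gcongr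
    refine this.trans (le_of_eq ?_)
    field_simp
    ring
  rw [e1]
  calc (n : ℝ) * ∑ Y ∈ Finset.Icc 1 ⌊X⌋₊, ‖Sm χ k ((⌊1 / (n : ℝ) * (Y : ℝ)⌋₊ : ℕ) : ℝ)‖ ^ 2 /
        (Y : ℝ) ^ 3
      ≤ (n : ℝ) * ((1 / (n : ℝ)) ^ 3 * (1 / (1 / (n : ℝ)) + 1) *
        ∑ y ∈ Finset.Icc 1 ⌊1 / (n : ℝ) * X⌋₊, ‖Sm χ k (y : ℝ)‖ ^ 2 / (y : ℝ) ^ 3) := by
        exact mul_le_mul_of_nonneg_left h1 hn0.le
    _ ≤ (n : ℝ) * (2 / (n : ℝ) ^ 2 * K) := by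
        apply mul_le_mul_of_nonneg_left _ hn0.le
        exact mul_le_mul e3 e2 (Finset.sum_nonneg fun _ _ => by positivity) (by positivity)
    _ = 2 * K * (1 / (n : ℝ)) := by
        field_simp

theorem mr_pointF_pr {m : G} (hm : m ≠ 0) (χ : MChar m) (ρ ε : ℝ) (hρ : 0 < ρ) (hε : 0 < ε) :
    ∃ X₀ : ℝ, ∀ X : ℝ, X₀ ≤ X → ∀ F : ℕ → ℝ, Flip (X ^ ρ) F → ∀ k ∈ Ks X,
      ∑ Y ∈ Finset.Icc 1 ⌊X⌋₊, ‖SmF F χ k Y‖ ^ 2 / (Y : ℝ) ^ 3 ≤ ε * Real.log X := by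
  classical
  obtain ⟨C, X₁, hC, h1⟩ := mr_splitF ρ hρ
  obtain ⟨D, X₂, hD, h2⟩ := rough_sum ρ hρ
  have hC0 : 0 < C := by linarith
  have hD0 : 0 < D := by linarith
  set ε' : ℝ := ε / (8 * C ^ 2 * D ^ 2) with hε'
  have hε'0 : 0 < ε' := by positivity
  obtain ⟨X₃, h3⟩ := mr_point hm χ ε' hε'0
  set X₄ : ℝ := (8 * C ^ 2 / ε) ^ (1 / (2 * ρ)) with hX₄
  refine ⟨max (max X₁ X₂) (max X₃ (max X₄ (Real.exp 1))), fun X hX F hF k hk => ?_⟩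
  have hX1 : X₁ ≤ X := le_trans (le_trans (le_max_left _ _) (le_max_left _ _)) hX
  have hX2 : X₂ ≤ X := le_trans (le_trans (le_max_right _ _) (le_max_left _ _)) hX
  have hX3 : X₃ ≤ X := le_trans (le_trans (le_max_left _ _) (le_max_right _ _)) hX
  have hX4 : X₄ ≤ X := le_trans (le_trans (le_trans (le_max_left _ _) (le_max_right _ _))
    (le_max_right _ _)) hX
  have hX5 : Real.exp 1 ≤ X := le_trans (le_trans (le_trans (le_max_right _ _) (le_max_right _ _))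
    (le_max_right _ _)) hX
  have he1 : (1 : ℝ) ≤ Real.exp 1 := Real.one_le_exp (by norm_num)
  have hXge : 1 ≤ X := he1.trans hX5
  have hX0 : 0 < X := by linarith
  have hlog : 1 ≤ Real.log X := by
    have := Real.log_le_log (Real.exp_pos 1) hX5
    rwa [Real.log_exp] at this
  set E : Finset G := (PB X).filter (fun e => Rough (X ^ ρ) (nn e)) with hE
  have hsumE : ∑ e ∈ E, 1 / (nn e : ℝ) ≤ D := h2 X hX2
  have hEn : ∀ e ∈ E, 1 ≤ nn e := by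
    intro e he
    rw [hE, Finset.mem_filter] at he
    exact Nat.one_le_iff_ne_zero.2 he.2.1
  have hpt := h3 X hX3 k hk
  -- pointwise
  have hY : ∀ Y ∈ Finset.Icc 1 ⌊X⌋₊, ‖SmF F χ k Y‖ ^ 2 / (Y : ℝ) ^ 3 ≤
      2 * C ^ 2 * D * (∑ e ∈ E, (nn e : ℝ) * (‖Sm χ k ((Y : ℝ) / nn e)‖ ^ 2 / (Y : ℝ) ^ 3)) +
        2 * C ^ 2 / (X ^ ρ) ^ 2 * (1 / (Y : ℝ)) := by
    intro Y hYm
    rw [Finset.mem_Icc] at hYm
    have hY1 : (1 : ℝ) ≤ Y := by exact_mod_cast hYm.1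
    have hYX : (Y : ℝ) ≤ X := le_trans (by exact_mod_cast hYm.2) (Nat.floor_le hX0.le)
    have hY0 : (0 : ℝ) < Y := by linarith
    have hXr : 0 < X ^ ρ := Real.rpow_pos_of_pos hX0 ρ
    have a1 := h1 X hX1 F hF m χ k Y hY1 hYX
    set S : ℝ := ∑ e ∈ E, ‖Sm χ k ((Y : ℝ) / nn e)‖ with hS
    have a2 : ‖SmF F χ k Y‖ ≤ C * S + C * Y / X ^ ρ := a1
    have hS0 : 0 ≤ S := Finset.sum_nonneg fun _ _ => norm_nonneg _
    have a3 : ‖SmF F χ k Y‖ ^ 2 ≤ 2 * C ^ 2 * S ^ 2 + 2 * C ^ 2 / (X ^ ρ) ^ 2 * (Y : ℝ) ^ 2 := by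
      have b1 : ‖SmF F χ k Y‖ ^ 2 ≤ (C * S + C * Y / X ^ ρ) ^ 2 :=
        pow_le_pow_left₀ (norm_nonneg _) a2 2
      have b2 : (C * S + C * Y / X ^ ρ) ^ 2 ≤ 2 * (C * S) ^ 2 + 2 * (C * Y / X ^ ρ) ^ 2 := by
        nlinarith [sq_nonneg (C * S - C * Y / X ^ ρ)]
      refine b1.trans (b2.trans (le_of_eq ?_))
      field_simp
    have a4 : S ^ 2 ≤ D * ∑ e ∈ E, (nn e : ℝ) * ‖Sm χ k ((Y : ℝ) / nn e)‖ ^ 2 := by
      have b1 : S = ∑ e ∈ E, (1 / Real.sqrt (nn e)) *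
          (Real.sqrt (nn e) * ‖Sm χ k ((Y : ℝ) / nn e)‖) := by
        rw [hS]
        refine Finset.sum_congr rfl fun e he => ?_
        have : (0 : ℝ) < nn e := by exact_mod_cast hEn e he
        have hs : 0 < Real.sqrt (nn e) := Real.sqrt_pos.2 this
        field_simp
      have b2 := Finset.sum_mul_sq_le_sq_mul_sq E (fun e => 1 / Real.sqrt (nn e))
        (fun e => Real.sqrt (nn e) * ‖Sm χ k ((Y : ℝ) / nn e)‖)
      rw [← b1] at b2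
      refine b2.trans ?_
      have b3 : ∑ e ∈ E, (1 / Real.sqrt (nn e)) ^ 2 = ∑ e ∈ E, 1 / (nn e : ℝ) := by
        refine Finset.sum_congr rfl fun e _ => ?_
        rw [div_pow, one_pow, Real.sq_sqrt (Nat.cast_nonneg _)]
      have b4 : ∑ e ∈ E, (Real.sqrt (nn e) * ‖Sm χ k ((Y : ℝ) / nn e)‖) ^ 2 =
          ∑ e ∈ E, (nn e : ℝ) * ‖Sm χ k ((Y : ℝ) / nn e)‖ ^ 2 := by
        refine Finset.sum_congr rfl fun e _ => ?_
        rw [mul_pow, Real.sq_sqrt (Nat.cast_nonneg _)]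
      rw [b3, b4]
      exact mul_le_mul_of_nonneg_right hsumE (Finset.sum_nonneg fun _ _ => by positivity)
    have a5 : ‖SmF F χ k Y‖ ^ 2 ≤
        2 * C ^ 2 * (D * ∑ e ∈ E, (nn e : ℝ) * ‖Sm χ k ((Y : ℝ) / nn e)‖ ^ 2) +
          2 * C ^ 2 / (X ^ ρ) ^ 2 * (Y : ℝ) ^ 2 := by
      have : 2 * C ^ 2 * S ^ 2 ≤
          2 * C ^ 2 * (D * ∑ e ∈ E, (nn e : ℝ) * ‖Sm χ k ((Y : ℝ) / nn e)‖ ^ 2) :=
        mul_le_mul_of_nonneg_left a4 (by positivity)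
      linarith
    have a6 : ∑ e ∈ E, (nn e : ℝ) * (‖Sm χ k ((Y : ℝ) / nn e)‖ ^ 2 / (Y : ℝ) ^ 3) =
        (∑ e ∈ E, (nn e : ℝ) * ‖Sm χ k ((Y : ℝ) / nn e)‖ ^ 2) / (Y : ℝ) ^ 3 := by
      rw [Finset.sum_div]
      exact Finset.sum_congr rfl fun e _ => by rw [mul_div_assoc]
    rw [a6]
    calc ‖SmF F χ k Y‖ ^ 2 / (Y : ℝ) ^ 3
        ≤ (2 * C ^ 2 * (D * ∑ e ∈ E, (nn e : ℝ) * ‖Sm χ k ((Y : ℝ) / nn e)‖ ^ 2) +
          2 * C ^ 2 / (X ^ ρ) ^ 2 * (Y : ℝ) ^ 2) / (Y : ℝ) ^ 3 := by gcongr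
      _ = _ := by
        field_simp
  calc ∑ Y ∈ Finset.Icc 1 ⌊X⌋₊, ‖SmF F χ k Y‖ ^ 2 / (Y : ℝ) ^ 3
      ≤ ∑ Y ∈ Finset.Icc 1 ⌊X⌋₊,
        (2 * C ^ 2 * D * (∑ e ∈ E, (nn e : ℝ) * (‖Sm χ k ((Y : ℝ) / nn e)‖ ^ 2 / (Y : ℝ) ^ 3)) +
        2 * C ^ 2 / (X ^ ρ) ^ 2 * (1 / (Y : ℝ))) := Finset.sum_le_sum hY
    _ = 2 * C ^ 2 * D * (∑ e ∈ E, (nn e : ℝ) *
          ∑ Y ∈ Finset.Icc 1 ⌊X⌋₊, ‖Sm χ k ((Y : ℝ) / nn e)‖ ^ 2 / (Y : ℝ) ^ 3) +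
        2 * C ^ 2 / (X ^ ρ) ^ 2 * ∑ Y ∈ Finset.Icc 1 ⌊X⌋₊, 1 / (Y : ℝ) := by
        rw [Finset.sum_add_distrib, ← Finset.mul_sum, ← Finset.mul_sum, Finset.sum_comm]
        congr 2
        exact Finset.sum_congr rfl fun e _ => by rw [Finset.mul_sum]
    _ ≤ 2 * C ^ 2 * D * (∑ e ∈ E, 2 * (ε' * Real.log X) * (1 / (nn e : ℝ))) +
        2 * C ^ 2 / (X ^ ρ) ^ 2 * (1 + Real.log X) := by
        refine add_le_add ?_ ?_
        · apply mul_le_mul_of_nonneg_left _ (by positivity)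
          exact Finset.sum_le_sum fun e he => m10_one χ k (nn e) (hEn e he) X _ hX0.le hpt
        · exact mul_le_mul_of_nonneg_left (mrt_harm X hXge) (by positivity)
    _ ≤ 2 * C ^ 2 * D * (2 * (ε' * Real.log X) * D) +
        2 * C ^ 2 / (X ^ ρ) ^ 2 * (2 * Real.log X) := by
        refine add_le_add ?_ ?_
        · apply mul_le_mul_of_nonneg_left _ (by positivity)
          rw [← Finset.mul_sum]
          exact mul_le_mul_of_nonneg_left hsumE (by positivity)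
        · apply mul_le_mul_of_nonneg_left _ (by positivity)
          linarith
    _ ≤ ε / 2 * Real.log X + ε / 2 * Real.log X := by
        refine add_le_add (le_of_eq ?_) ?_
        · rw [hε']
          field_simp
          ring
        · have hXr : 0 < X ^ ρ := Real.rpow_pos_of_pos hX0 ρ
          have b0 : 0 ≤ 8 * C ^ 2 / ε := by positivity
          have b1 : 8 * C ^ 2 / ε ≤ (X ^ ρ) ^ 2 := by
            have c1 : (X₄) ^ (2 * ρ) ≤ X ^ (2 * ρ) :=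
              Real.rpow_le_rpow (by positivity) hX4 (by positivity)
            have c2 : (X₄) ^ (2 * ρ) = 8 * C ^ 2 / ε := by
              rw [hX₄, ← Real.rpow_mul b0, one_div_mul_cancel (by positivity), Real.rpow_one]
            have c3 : X ^ (2 * ρ) = (X ^ ρ) ^ 2 := by
              rw [mul_comm, Real.rpow_mul hX0.le]
              norm_num
            rw [c2, c3] at c1
            exact c1
          have b2 : 2 * C ^ 2 / (X ^ ρ) ^ 2 ≤ ε / 4 := by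
            rw [div_le_iff₀ (by positivity)]
            rw [div_le_iff₀ hε] at b1
            nlinarith
          calc 2 * C ^ 2 / (X ^ ρ) ^ 2 * (2 * Real.log X) ≤ ε / 4 * (2 * Real.log X) :=
                mul_le_mul_of_nonneg_right b2 (by linarith)
            _ = ε / 2 * Real.log X := by ring
    _ = ε * Real.log X := by ring



end Pool.Agent.TR

namespace Pool.Agent.TR

theorem mr_pointF : type_of% @mr_pointF_pr := @mr_pointF_pr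

end Pool.Agent.TR
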