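import Pool.Agent.Lib_helper10.T2F.HMO
import Pool.Agent.Lib_helper10.T2F.LSG
import Pool.Agent.Lib_helper10.T2F.MER
import Pool.Agent.Lib_helper10.T2F.MRT
import Pool.Agent.Lib_helper10.T2F.PEL
import Pool.Agent.Lib_helper10.T2F.PHM
import Pool.Agent.Lib_helper10.T2F.PTW
import Pool.Agent.Lib_helper10.T2F.SPA
import Pool.Agent.Lib_helper10.T2F.TJA
import Pool.Agent.Lib_helper10.T2F.TKA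
import Pool.Agent.Lib_helper10.T2F.TKR
import Pool.Agent.Lib_helper10.T2F.TKV
import Pool.Agent.Lib_helper10.T2F.UCD
import Pool.Agent.Lib_helper97.TRL.B19

set_option autoImplicit false

namespace Pool.Agent.TR

open Pool.Agent.T2 Pool.Agent.TF

/-- M11 -/
theorem mrf_scale_pr (f : ℕ → ℝ) (hf : ∀ n, 0 ≤ f n) (h0 : f 0 = 0) (ζ X : ℝ) (hζ : 0 < ζ)
    (hX : 0 ≤ X) : ∑ Y ∈ Finset.Icc 1 ⌊X⌋₊, f ⌊ζ * Y⌋₊ / (Y : ℝ) ^ 3 ≤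
      ζ ^ 3 * (1 / ζ + 1) * ∑ y ∈ Finset.Icc 1 ⌊ζ * X⌋₊, f y / (y : ℝ) ^ 3 := by
  classical
  set F : ℕ → ℝ := fun y => f y / (y : ℝ) ^ 3 with hF
  have hF0 : ∀ y, 0 ≤ F y := fun y => div_nonneg (hf y) (by positivity)
  have hFz : F 0 = 0 := by simp [hF, h0]
  have hstep : ∀ Y ∈ Finset.Icc 1 ⌊X⌋₊,
      f ⌊ζ * (Y : ℝ)⌋₊ / (Y : ℝ) ^ 3 ≤ ζ ^ 3 * F ⌊ζ * (Y : ℝ)⌋₊ := by
    intro Y hY
    rw [Finset.mem_Icc] at hY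
    have hY1 : (1 : ℝ) ≤ Y := by exact_mod_cast hY.1
    rcases Nat.eq_zero_or_pos ⌊ζ * (Y : ℝ)⌋₊ with h | h
    · rw [h, h0, hFz]; simp
    · have hy1 : (1 : ℝ) ≤ (⌊ζ * (Y : ℝ)⌋₊ : ℝ) := by exact_mod_cast h
      have hyle : ((⌊ζ * (Y : ℝ)⌋₊ : ℕ) : ℝ) ≤ ζ * Y := Nat.floor_le (by positivity)
      have hy3 : ((⌊ζ * (Y : ℝ)⌋₊ : ℕ) : ℝ) ^ 3 ≤ ζ ^ 3 * (Y : ℝ) ^ 3 := by
        rw [← mul_pow]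
        exact pow_le_pow_left₀ (by linarith) hyle 3
      rw [hF]
      simp only
      rw [← mul_div_assoc, div_le_div_iff₀ (by positivity) (by positivity)]
      calc f ⌊ζ * (Y : ℝ)⌋₊ * ((⌊ζ * (Y : ℝ)⌋₊ : ℕ) : ℝ) ^ 3
          ≤ f ⌊ζ * (Y : ℝ)⌋₊ * (ζ ^ 3 * (Y : ℝ) ^ 3) := mul_le_mul_of_nonneg_left hy3 (hf _)
        _ = ζ ^ 3 * f ⌊ζ * (Y : ℝ)⌋₊ * (Y : ℝ) ^ 3 := by ring
  have hmap : ∀ Y ∈ Finset.Icc 1 ⌊X⌋₊, ⌊ζ * (Y : ℝ)⌋₊ ∈ Finset.range (⌊ζ * X⌋₊ + 1) := by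
    intro Y hY
    rw [Finset.mem_Icc] at hY
    rw [Finset.mem_range, Nat.lt_succ_iff]
    refine Nat.floor_le_floor ?_
    have h1 : (Y : ℝ) ≤ X := le_trans (by exact_mod_cast hY.2) (Nat.floor_le hX)
    exact mul_le_mul_of_nonneg_left h1 hζ.le
  have hfib : ∑ Y ∈ Finset.Icc 1 ⌊X⌋₊, F ⌊ζ * (Y : ℝ)⌋₊ ≤
      (1 / ζ + 1) * ∑ y ∈ Finset.Icc 1 ⌊ζ * X⌋₊, F y := by
    rw [← Finset.sum_fiberwise_of_maps_to hmap]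
    have h1 : ∀ y ∈ Finset.range (⌊ζ * X⌋₊ + 1),
        ∑ Y ∈ (Finset.Icc 1 ⌊X⌋₊).filter (fun Y : ℕ => ⌊ζ * (Y : ℝ)⌋₊ = y), F ⌊ζ * (Y : ℝ)⌋₊ ≤
          (1 / ζ + 1) * F y := by
      intro y _
      have h2 : ∀ Y ∈ (Finset.Icc 1 ⌊X⌋₊).filter (fun Y : ℕ => ⌊ζ * (Y : ℝ)⌋₊ = y),
          F ⌊ζ * (Y : ℝ)⌋₊ = F y := by
        intro Y hY
        rw [(Finset.mem_filter.mp hY).2]
      rw [Finset.sum_congr rfl h2, Finset.sum_const, nsmul_eq_mul]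
      exact mul_le_mul_of_nonneg_right (cls_fib ζ hζ ⌊X⌋₊ y) (hF0 y)
    refine le_trans (Finset.sum_le_sum h1) ?_
    rw [← Finset.mul_sum]
    refine mul_le_mul_of_nonneg_left (le_of_eq ?_) (by positivity)
    rw [Finset.range_eq_Ico, Finset.sum_eq_sum_Ico_succ_bot (Nat.succ_pos _), hFz, zero_add]
    rfl
  calc ∑ Y ∈ Finset.Icc 1 ⌊X⌋₊, f ⌊ζ * (Y : ℝ)⌋₊ / (Y : ℝ) ^ 3
      ≤ ∑ Y ∈ Finset.Icc 1 ⌊X⌋₊, ζ ^ 3 * F ⌊ζ * (Y : ℝ)⌋₊ := Finset.sum_le_sum hstep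
    _ = ζ ^ 3 * ∑ Y ∈ Finset.Icc 1 ⌊X⌋₊, F ⌊ζ * (Y : ℝ)⌋₊ := by rw [Finset.mul_sum]
    _ ≤ ζ ^ 3 * ((1 / ζ + 1) * ∑ y ∈ Finset.Icc 1 ⌊ζ * X⌋₊, F y) :=
        mul_le_mul_of_nonneg_left hfib (by positivity)
    _ = ζ ^ 3 * (1 / ζ + 1) * ∑ y ∈ Finset.Icc 1 ⌊ζ * X⌋₊, F y := by ring



end Pool.Agent.TR

namespace Pool.Agent.TR

theorem mrf_scale : type_of% @mrf_scale_pr := @mrf_scale_pr

end Pool.Agent.TR
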