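import Pool.Agent.Lib_helper10.T2F.HMO
import Pool.Agent.Lib_helper10.T2F.LSG
import Pool.Agent.Lib_helper10.T2F.MER
import Pool.Agent.Lib_helper10.T2F.MRT
import Pool.Agent.Lib_helper10.T2F.PEL
import Pool.Agent.Lib_helper10.T2F.PHM
import Pool.Agent.Lib_helper10.T2F.PTW
import Pool.Agent.Lib_helper10.T2F.SPA
import Pool.Agent.Lib_helper10.T2F.TJA
import Pool.Agent.Lib_helper10.T2F.TKA
import Pool.Agent.Lib_helper10.T2F.TKR
import Pool.Agent.Lib_helper10.T2F.TKV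
import Pool.Agent.Lib_helper10.T2F.UCD
import Pool.Agent.Lib_helper97.TRL.B19

/-! TR, part M, block M3 (helper35): few frequencies are large on some block. -/

set_option autoImplicit false

namespace Pool.Agent.TR

open Pool.Agent.T2 Filter Topology

theorem m3_large {a ρ α K : ℝ} (ha : 0 < a) (hα : 0 < α) : ∃ X₀ : ℝ, ∀ X : ℝ,
    X₀ ≤ X → 1 ≤ X ∧ 2 ≤ a * Real.log X ∧ (Real.log X / Real.log ρ + 1) * K ≤ X ^ α := by
  have h1 : ∀ᶠ X : ℝ in atTop, 1 ≤ X := eventually_ge_atTop 1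
  have h3 : ∀ᶠ X : ℝ in atTop, 2 ≤ a * Real.log X := by
    have : Tendsto (fun X : ℝ => a * Real.log X) atTop atTop :=
      Real.tendsto_log_atTop.const_mul_atTop ha
    exact this.eventually_ge_atTop 2
  have h4 : ∀ᶠ X : ℝ in atTop, (Real.log X / Real.log ρ + 1) * K ≤ X ^ α := by
    have e1 : (fun X : ℝ => Real.log X) =o[atTop] (fun X : ℝ => X ^ α) :=
      isLittleO_log_rpow_atTop hα
    have e2 : (fun _ : ℝ => (1 : ℝ)) =o[atTop] (fun X : ℝ => X ^ α) := by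
      rw [Asymptotics.isLittleO_const_left]
      right
      have := tendsto_rpow_atTop hα
      exact tendsto_norm_atTop_atTop.comp this
    have e3 : (fun X : ℝ => (K / Real.log ρ) * Real.log X + K * 1) =o[atTop]
        (fun X : ℝ => X ^ α) := (e1.const_mul_left _).add (e2.const_mul_left _)
    filter_upwards [e3.bound one_pos, eventually_ge_atTop (0 : ℝ)] with X hX hX0
    have e4 : (Real.log X / Real.log ρ + 1) * K = (K / Real.log ρ) * Real.log X + K * 1 := by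
      ring
    rw [e4]
    rw [one_mul, Real.norm_of_nonneg (Real.rpow_nonneg hX0 α)] at hX
    exact (Real.le_norm_self _).trans hX
  obtain ⟨X₀, hX₀⟩ := Filter.eventually_atTop.mp (h1.and (h3.and h4))
  exact ⟨X₀, fun X hX => hX₀ X hX⟩

/-- the least power of `M` which is at least `X` -/
theorem m3_pow {a X M : ℝ} (ha : 0 < a) (hX : 1 ≤ X) (hlX : 0 < Real.log X)
    (hM : X ^ (a / 2) ≤ M) : ∃ l : ℕ, l ≤ ⌊2 / a⌋₊ + 1 ∧ X ≤ M ^ l ∧ M ^ l ≤ X * M := by
  have hX0 : 0 < X := by linarith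
  have hM1 : 1 < M := by
    refine lt_of_lt_of_le ?_ hM
    exact Real.one_lt_rpow ((Real.log_pos_iff hX0.le).1 hlX) (by positivity)
  have hM0 : 0 < M := by linarith
  have hex : ∃ l : ℕ, X ≤ M ^ l := by
    obtain ⟨n, hn⟩ := pow_unbounded_of_one_lt X hM1
    exact ⟨n, hn.le⟩
  classical
  refine ⟨Nat.find hex, ?_, Nat.find_spec hex, ?_⟩
  · apply Nat.find_min' hex
    have h1 : 2 / a < (⌊2 / a⌋₊ + 1 : ℕ) := by
      push_cast
      exact Nat.lt_floor_add_one _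
    have h2 : 1 ≤ (a / 2) * ((⌊2 / a⌋₊ + 1 : ℕ) : ℝ) := by
      rw [div_lt_iff₀ ha] at h1
      linarith
    calc X = X ^ (1 : ℝ) := (Real.rpow_one X).symm
      _ ≤ X ^ ((a / 2) * ((⌊2 / a⌋₊ + 1 : ℕ) : ℝ)) := Real.rpow_le_rpow_of_exponent_le hX h2
      _ = (X ^ (a / 2)) ^ (⌊2 / a⌋₊ + 1) := by
          rw [Real.rpow_mul hX0.le, Real.rpow_natCast]
      _ ≤ M ^ (⌊2 / a⌋₊ + 1) := pow_le_pow_left₀ (Real.rpow_nonneg hX0.le _) hM _
  · rcases Nat.eq_zero_or_pos (Nat.find hex) with h0 | h0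
    · rw [h0, pow_zero]
      nlinarith
    · obtain ⟨n, hn⟩ : ∃ n, Nat.find hex = n + 1 := ⟨Nat.find hex - 1, by omega⟩
      have h1 : ¬ X ≤ M ^ n := Nat.find_min hex (by omega)
      push Not at h1
      rw [hn, pow_succ]
      exact mul_le_mul_of_nonneg_right h1.le hM0.le

open Classical in
theorem few_bad_pr (a b ρ α : ℝ) (ha : 0 < a) (hab : a ≤ b) (hb : b ≤ 1) (hρ : 1 < ρ)
    (hρ2 : ρ ≤ 2) (hα : 0 < α) (hα1 : α ≤ 1 / 4) : ∃ X₀ : ℝ, ∀ X : ℝ, X₀ ≤ X →
      ∀ (m : G) (χ : MChar m),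
      (((Ks X).filter (fun k => ∃ v < ⌈b * Real.log X / Real.log ρ⌉₊, (ρ ^ v) ^ (1 - α) <
        ‖Qs χ k (blk ρ v (pr1 (X ^ a) (X ^ b)))‖)).card : ℝ) ≤ X ^ (5 * α) := by
  obtain ⟨C, hC, hfl⟩ := few_large
  set L : ℕ := ⌊2 / a⌋₊ + 1 with hL
  set K : ℝ := C * C ^ L * L.factorial with hKdef
  have hC0 : 0 < C := by linarith
  have hK0 : 0 < K := by positivity
  obtain ⟨X₀, hX₀⟩ := m3_large (a := a) (ρ := ρ) (α := α) (K := K) ha hα
  refine ⟨X₀, fun X hX m χ => ?_⟩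
  obtain ⟨hX1, haX, hK⟩ := hX₀ X hX
  have hX0 : 0 < X := by linarith
  have hlX : 0 < Real.log X := by
    by_contra h
    push Not at h
    nlinarith
  have hlρ : 0 < Real.log ρ := Real.log_pos hρ
  have hb0 : 0 < b := lt_of_lt_of_le ha hab
  have hρ0 : 0 < ρ := by linarith
  set V : ℕ := ⌈b * Real.log X / Real.log ρ⌉₊ with hV
  set B : Finset ℕ := pr1 (X ^ a) (X ^ b) with hB
  have hVle : (V : ℝ) ≤ Real.log X / Real.log ρ + 1 := by
    have h1 : (V : ℝ) < b * Real.log X / Real.log ρ + 1 :=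
      Nat.ceil_lt_add_one (by positivity)
    have h2 : b * Real.log X / Real.log ρ ≤ Real.log X / Real.log ρ := by
      apply div_le_div_of_nonneg_right _ hlρ.le
      nlinarith
    linarith
  have hv : ∀ v : ℕ, (((Ks X).filter (fun k => (ρ ^ v) ^ (1 - α) <
      ‖Qs χ k (blk ρ v B)‖)).card : ℝ) ≤ K * X ^ (4 * α) := by
    intro v
    by_cases hne : (blk ρ v B).Nonempty
    · obtain ⟨-, -, h3, h4⟩ := spa_facts (b := b) hX0 haX hρ hρ2 hne
      obtain ⟨l, hl, hXl, hlX'⟩ := m3_pow ha hX1 hlX h3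
      have hM1 : (1 : ℝ) ≤ ρ ^ v := one_le_pow₀ hρ.le
      have hM0 : (0 : ℝ) < ρ ^ v := by positivity
      have hMX : ρ ^ v ≤ X := by
        refine h4.trans ?_
        calc X ^ b ≤ X ^ (1 : ℝ) := Real.rpow_le_rpow_of_exponent_le hX1 hb
          _ = X := Real.rpow_one X
      have hP : Pset (blk ρ v B) := by
        intro p hp
        have h5 : p ∈ B := (Finset.mem_filter.mp hp).1
        exact ⟨(spa_pr1 h5).1, (spa_pr1 h5).2.1⟩
      have hp2 : ∀ p ∈ blk ρ v B, ρ ^ v < (p : ℝ) ∧ (p : ℝ) ≤ 2 * ρ ^ v := by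
        intro p hp
        have h5 := (Finset.mem_filter.mp hp).2
        refine ⟨h5.1, h5.2.trans ?_⟩
        rw [pow_succ, mul_comm]
        exact mul_le_mul_of_nonneg_right hρ2 hM0.le
      have h6 := hfl m χ X (ρ ^ v) α (blk ρ v B) l hX1 hM1 hα hα1 hP hp2 hXl hlX'
      refine h6.trans ?_
      have h7 : (X * ρ ^ v) ^ (2 * α) ≤ X ^ (4 * α) := by
        calc (X * ρ ^ v) ^ (2 * α) ≤ (X * X) ^ (2 * α) :=
              Real.rpow_le_rpow (by positivity) (mul_le_mul_of_nonneg_left hMX hX0.le)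
                (by positivity)
          _ = X ^ (4 * α) := by
              rw [Real.mul_rpow hX0.le hX0.le, ← Real.rpow_add hX0]
              ring_nf
      have h8 : C ^ l ≤ C ^ L := pow_le_pow_right₀ hC hl
      have h9 : (l.factorial : ℝ) ≤ L.factorial := by exact_mod_cast Nat.factorial_le hl
      calc C * (X * ρ ^ v) ^ (2 * α) * C ^ l * l.factorial
          ≤ C * X ^ (4 * α) * C ^ L * L.factorial := by gcongr
        _ = K * X ^ (4 * α) := by rw [hKdef]; ring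
    · rw [Finset.not_nonempty_iff_eq_empty] at hne
      have h5 : (Ks X).filter (fun k => (ρ ^ v) ^ (1 - α) < ‖Qs χ k (blk ρ v B)‖) = ∅ := by
        rw [Finset.filter_eq_empty_iff]
        intro k _
        rw [hne]
        unfold Qs
        rw [Finset.sum_empty, norm_zero, not_lt]
        positivity
      rw [h5, Finset.card_empty, Nat.cast_zero]
      positivity
  have hsub : (Ks X).filter (fun k => ∃ v < V, (ρ ^ v) ^ (1 - α) < ‖Qs χ k (blk ρ v B)‖) ⊆
      (Finset.range V).biUnion (fun v => (Ks X).filter (fun k => (ρ ^ v) ^ (1 - α) <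
        ‖Qs χ k (blk ρ v B)‖)) := by
    intro k hk
    rw [Finset.mem_filter] at hk
    obtain ⟨hk1, v, hv1, hv2⟩ := hk
    rw [Finset.mem_biUnion]
    exact ⟨v, Finset.mem_range.2 hv1, Finset.mem_filter.2 ⟨hk1, hv2⟩⟩
  have hcard : (((Ks X).filter (fun k => ∃ v < V, (ρ ^ v) ^ (1 - α) <
      ‖Qs χ k (blk ρ v B)‖)).card : ℝ) ≤ ∑ v ∈ Finset.range V,
        (((Ks X).filter (fun k => (ρ ^ v) ^ (1 - α) < ‖Qs χ k (blk ρ v B)‖)).card : ℝ) := by
    have h1 := (Finset.card_le_card hsub).trans Finset.card_biUnion_le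
    exact_mod_cast h1
  refine hcard.trans ?_
  have hX4 : (0 : ℝ) ≤ X ^ (4 * α) := by positivity
  calc ∑ v ∈ Finset.range V, (((Ks X).filter (fun k => (ρ ^ v) ^ (1 - α) <
        ‖Qs χ k (blk ρ v B)‖)).card : ℝ) ≤ ∑ v ∈ Finset.range V, K * X ^ (4 * α) :=
        Finset.sum_le_sum (fun v _ => hv v)
    _ = V * (K * X ^ (4 * α)) := by
        rw [Finset.sum_const, Finset.card_range, nsmul_eq_mul]
    _ ≤ (Real.log X / Real.log ρ + 1) * (K * X ^ (4 * α)) :=
        mul_le_mul_of_nonneg_right hVle (by positivity)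
    _ = ((Real.log X / Real.log ρ + 1) * K) * X ^ (4 * α) := by ring
    _ ≤ X ^ α * X ^ (4 * α) := mul_le_mul_of_nonneg_right hK hX4
    _ = X ^ (5 * α) := by
        rw [← Real.rpow_add hX0]
        ring_nf

end Pool.Agent.TR

namespace Pool.Agent.TR

theorem few_bad : type_of% @few_bad_pr := @few_bad_pr

end Pool.Agent.TR
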