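import Pool.Agent.Lib_helper97.TRL.M1
import Pool.Agent.Lib_helper97.TRL.M2
import Pool.Agent.Lib_helper97.TRL.M3
import Pool.Agent.Lib_helper10.T2F.HMO
import Pool.Agent.Lib_helper10.T2F.LSG
import Pool.Agent.Lib_helper10.T2F.MER
import Pool.Agent.Lib_helper10.T2F.MRT
import Pool.Agent.Lib_helper10.T2F.PEL
import Pool.Agent.Lib_helper10.T2F.PHM
import Pool.Agent.Lib_helper10.T2F.PTW
import Pool.Agent.Lib_helper10.T2F.SPA
import Pool.Agent.Lib_helper10.T2F.TJA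
import Pool.Agent.Lib_helper10.T2F.TKA
import Pool.Agent.Lib_helper10.T2F.TKR
import Pool.Agent.Lib_helper10.T2F.TKV
import Pool.Agent.Lib_helper10.T2F.UCD
import Pool.Agent.Lib_helper97.TRL.B19

set_option autoImplicit false

namespace Pool.Agent.TR

open Pool.Agent.T2 Pool.Agent.TF Filter Topology MeasureTheory

/-- the eventual condition for the first level -/
theorem m4_small {a α' r ε C : ℝ} (ha : 0 < a) (hα : 0 < α') (hε : 0 < ε) : ∃ X₀ : ℝ,
    ∀ X : ℝ, X₀ ≤ X → C * ((X ^ a) ^ (-α') / (α' * (r - 1))) ^ 2 ≤ ε := by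
  have h1 : Tendsto (fun X : ℝ => C * (X ^ (-(a * α')) / (α' * (r - 1))) ^ 2) atTop (𝓝 0) := by
    have h2 : Tendsto (fun X : ℝ => X ^ (-(a * α'))) atTop (𝓝 0) :=
      tendsto_rpow_neg_atTop (by positivity)
    have h3 := ((h2.div_const (α' * (r - 1))).pow 2).const_mul C
    simpa using h3
  have h4 : ∀ᶠ X : ℝ in atTop, C * (X ^ (-(a * α')) / (α' * (r - 1))) ^ 2 ≤ ε :=
    (h1.eventually (gt_mem_nhds hε)).mono (fun X h => le_of_lt h)
  obtain ⟨X₀, hX₀⟩ := Filter.eventually_atTop.mp (h4.and (eventually_ge_atTop (0 : ℝ)))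
  refine ⟨X₀, fun X hX => ?_⟩
  obtain ⟨h5, h6⟩ := hX₀ X hX
  rw [← Real.rpow_mul h6, mul_neg]
  exact h5

theorem mr_easyF_pr {m : G} (χ : MChar m) (τ ρ α ε : ℝ) (hτ : 0 < τ) (hτ1 : τ ≤ 1) (hρ : 0 < ρ)
    (hα : 0 < α) (hε : 0 < ε) : ∃ X₀ : ℝ, ∀ X : ℝ, X₀ ≤ X → ∃ U : Finset ℤ,
    U ⊆ Ks X ∧ (U.card : ℝ) ≤ X ^ α ∧ ∀ F : ℕ → ℝ, Flip (X ^ ρ) F → ∀ Y : ℝ, X ^ τ ≤ Y → Y ≤ X →
      ∑ k ∈ Ks (Y / X ^ τ) \ U, ‖SmF F χ k Y‖ ^ 2 ≤ ε * Y ^ 2 := by
  classical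
  obtain ⟨Ct, hCt, htk⟩ := tk_repF
  obtain ⟨Cm, hCm, hmer⟩ := mer_lower
  obtain ⟨Cl, hCl, hlev⟩ := level_oneF
  obtain ⟨Cs, hCs, hls⟩ := large_sieve
  have hCt0 : 0 < Ct := by linarith
  have hCl0 : 0 < Cl := by linarith
  have hCs0 : 0 < Cs := by linarith
  -- parameters
  set η := ε / (24 * (Cs * Ct)) with hη
  have hη0 : 0 < η := by positivity
  set r := 1 + min 1 η with hrd
  have hr : 1 < r := by
    have : 0 < min 1 η := lt_min one_pos hη0
    linarith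
  have hr2 : r ≤ 2 := by
    have : min 1 η ≤ 1 := min_le_left _ _
    linarith
  have hrη : r - 1 ≤ η := by
    have : min 1 η ≤ η := min_le_right _ _
    linarith
  set r₀ := max 1 (2 / η) with hr₀
  have hq1 : 1 ≤ r₀ := le_max_left _ _
  have hq2 : 2 / η ≤ r₀ := le_max_right _ _
  set b := min (τ / 4) ρ with hb
  have hb0 : 0 < b := lt_min (by positivity) hρ
  have hbτ : b ≤ τ / 4 := min_le_left _ _
  have hbρ : b ≤ ρ := min_le_right _ _
  set a := b * Real.exp (-(4 * (r₀ + Cm))) with had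
  have ha0 : 0 < a := by positivity
  have hab : a ≤ b := by
    rw [had]
    have : Real.exp (-(4 * (r₀ + Cm))) ≤ 1 := by
      rw [Real.exp_le_one_iff]
      have : 0 ≤ r₀ + Cm := by linarith
      linarith
    calc b * Real.exp (-(4 * (r₀ + Cm))) ≤ b * 1 := mul_le_mul_of_nonneg_left this hb0.le
      _ = b := mul_one b
  set α' := min (α / 5) (1 / 4) with hα'
  have hα'0 : 0 < α' := lt_min (by positivity) (by norm_num)
  have hα'1 : α' ≤ 1 / 4 := min_le_right _ _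
  have hα'2 : 5 * α' ≤ α := by
    have : α' ≤ α / 5 := min_le_left _ _
    linarith
  obtain ⟨X₁, hfew⟩ := few_bad a b r α' ha0 hab (by linarith) hr hr2 hα'0 hα'1
  obtain ⟨X₂, hsm⟩ := m4_small (a := a) (α' := α') (r := r) (ε := ε / 4) (C := Cl) ha0 hα'0
    (by positivity)
  have hlr : 0 < Real.log r := Real.log_pos hr
  obtain ⟨X₀, hX₀⟩ := spa_large (X₁ := max X₁ X₂) ha0 hτ hr
  refine ⟨X₀, fun X hX => ?_⟩
  obtain ⟨hX1, hXX, haX, hXr⟩ := hX₀ X hX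
  have hXX₁ : X₁ ≤ X := (le_max_left _ _).trans hXX
  have hXX₂ : X₂ ≤ X := (le_max_right _ _).trans hXX
  have hX0 : 0 < X := by linarith
  have hr0 : 0 < r := by linarith
  set B := pr1 (X ^ a) (X ^ b) with hB
  have hPset : Pset B := fun p hp => ⟨(spa_pr1 hp).1, (spa_pr1 hp).2.1⟩
  set V := ⌈b * Real.log X / Real.log r⌉₊ with hV
  have hrV : X ^ b ≤ r ^ V := by
    rw [← Real.log_le_log_iff (Real.rpow_pos_of_pos hX0 _) (pow_pos hr0 V), Real.log_rpow hX0,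
      Real.log_pow]
    have := Nat.le_ceil (b * Real.log X / Real.log r)
    rw [div_le_iff₀ hlr] at this
    exact this
  have hexp : Real.exp 1 ≤ X ^ (a / 2) := by
    rw [Real.rpow_def_of_pos hX0, Real.exp_le_exp]
    linarith
  have he2 : (2 : ℝ) ≤ Real.exp 1 := by
    have := Real.exp_one_gt_d9
    linarith
  have hXa2 : 2 ≤ X ^ (a / 2) := he2.trans hexp
  have hXa : X ^ (a / 2) ≤ X ^ a := Real.rpow_le_rpow_of_exponent_le hX1 (by linarith)
  have hP2 : 2 ≤ X ^ a := hXa2.trans hXa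
  have hlogP : Real.log (X ^ a) = a * Real.log X := Real.log_rpow hX0 a
  have hlogP1 : 1 ≤ Real.log (X ^ a) := by rw [hlogP]; linarith
  -- the mass
  have hrs : r₀ ≤ rs B := by
    have h1 := hmer (X ^ a) (X ^ b) hP2 (Real.rpow_le_rpow_of_exponent_le hX1 hab)
    have h2 : Real.log (X ^ b) / Real.log (X ^ a) = Real.exp (4 * (r₀ + Cm)) := by
      rw [Real.log_rpow hX0, Real.log_rpow hX0, had]
      have hl : Real.log X ≠ 0 := by
        intro h0
        rw [h0] at haX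
        linarith
      rw [Real.exp_neg]
      field_simp
    rw [h2, Real.log_exp] at h1
    linarith
  have hrs1 : 1 ≤ rs B := hq1.trans hrs
  have hrs0 : 0 < rs B := by linarith
  refine ⟨(Ks X).filter (fun k => ∃ v < V, (r ^ v) ^ (1 - α') < ‖Qs χ k (blk r v B)‖),
    Finset.filter_subset _ _, ?_, ?_⟩
  · refine le_trans ?_ (Real.rpow_le_rpow_of_exponent_le hX1 hα'2)
    have h1 := hfew X hXX₁ m χ
    convert h1 using 2
  · intro F hF Y hY1 hY2
    set U := (Ks X).filter (fun k => ∃ v < V, (r ^ v) ^ (1 - α') < ‖Qs χ k (blk r v B)‖) with hU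
    set T := Ks (Y / X ^ τ) \ U with hT
    have hXτ1 : 1 ≤ X ^ τ := Real.one_le_rpow hX1 hτ.le
    have hXτ0 : 0 < X ^ τ := by linarith
    have hY : 1 ≤ Y := hXτ1.trans hY1
    have hY0 : 0 < Y := by linarith
    have hYX : Y / X ^ τ ≤ Y := div_le_self hY0.le hXτ1
    have hTK : T ⊆ Ks (Y / X ^ τ) := Finset.sdiff_subset
    have hTQ : ∀ k ∈ T, ∀ v < V, ‖Qs χ k (blk r v B)‖ ≤ (r ^ v) ^ (1 - α') := by
      intro k hk v hv
      by_contra hc
      rw [not_le] at hc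
      rw [hT, Finset.mem_sdiff] at hk
      apply hk.2
      rw [hU, Finset.mem_filter]
      refine ⟨?_, v, hv, hc⟩
      have h1 := hk.1
      rw [mem_Ks] at h1 ⊢
      linarith
    -- conditions of `tk_repF`
    have hYr : Y ^ (-(1 / 16) : ℝ) ≤ r - 1 := by
      refine le_trans ?_ hXr
      calc Y ^ (-(1 / 16) : ℝ) ≤ (X ^ τ) ^ (-(1 / 16) : ℝ) :=
            Real.rpow_le_rpow_of_nonpos (by positivity) hY1 (by norm_num)
        _ = X ^ (-(τ / 16)) := by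
            rw [← Real.rpow_mul hX0.le]
            congr 1
            ring
    have hp : ∀ p ∈ B, X ^ a < (p : ℝ) ∧ (p : ℝ) ≤ X ^ ρ ∧ (p : ℝ) ≤ Y ^ (1 / 4 : ℝ) ∧
        (p : ℝ) ≤ r ^ V := by
      intro p hpB
      obtain ⟨-, -, h3, h4⟩ := spa_pr1 hpB
      refine ⟨h3, h4.trans (Real.rpow_le_rpow_of_exponent_le hX1 hbρ), h4.trans ?_,
        h4.trans hrV⟩
      calc X ^ b ≤ X ^ (τ / 4) := Real.rpow_le_rpow_of_exponent_le hX1 hbτ
        _ = (X ^ τ) ^ (1 / 4 : ℝ) := by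
            rw [← Real.rpow_mul hX0.le]
            congr 1
            ring
        _ ≤ Y ^ (1 / 4 : ℝ) := Real.rpow_le_rpow (by positivity) hY1 (by norm_num)
    obtain ⟨c, hc1, hc2⟩ := htk m χ F (X ^ ρ) Y r (X ^ a) B V hF hY hr hr2 hYr hP2 hPset hp hrs1
    -- the error
    have hErr : ∑ k ∈ T, ‖∑ z ∈ PB (2 * Y), c z * ang k z‖ ^ 2 ≤ ε / 4 * Y ^ 2 := by
      have h1 := hls (Y / X ^ τ) (2 * Y) (by positivity) (by linarith) c
      have h2 : 1 / rs B + (r - 1) + 1 / (rs B ^ 2 * Real.log (X ^ a)) ≤ 2 * η := by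
        have g1 : 1 / rs B ≤ η / 2 := by
          rw [div_le_iff₀ hrs0]
          have : 2 / η ≤ rs B := hq2.trans hrs
          rw [div_le_iff₀ hη0] at this
          linarith
        have g2 : 1 / (rs B ^ 2 * Real.log (X ^ a)) ≤ 1 / rs B := by
          apply one_div_le_one_div_of_le hrs0
          nlinarith
        linarith
      have hcn : 0 ≤ ∑ z ∈ PB (2 * Y), ‖c z‖ ^ 2 := Finset.sum_nonneg fun z _ => by positivity
      calc ∑ k ∈ T, ‖∑ z ∈ PB (2 * Y), c z * ang k z‖ ^ 2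
          ≤ ∑ k ∈ Ks (Y / X ^ τ), ‖∑ z ∈ PB (2 * Y), c z * ang k z‖ ^ 2 :=
            Finset.sum_le_sum_of_subset_of_nonneg hTK (fun k _ _ => by positivity)
        _ ≤ Cs * (Y / X ^ τ + 2 * Y) * ∑ z ∈ PB (2 * Y), ‖c z‖ ^ 2 := h1
        _ ≤ Cs * (3 * Y) * ∑ z ∈ PB (2 * Y), ‖c z‖ ^ 2 := by
            apply mul_le_mul_of_nonneg_right _ hcn
            exact mul_le_mul_of_nonneg_left (by linarith) hCs0.le
        _ ≤ Cs * (3 * Y) * (Ct * Y * (1 / rs B + (r - 1) +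
            1 / (rs B ^ 2 * Real.log (X ^ a)))) :=
            mul_le_mul_of_nonneg_left hc1 (by positivity)
        _ ≤ Cs * (3 * Y) * (Ct * Y * (2 * η)) := by
            apply mul_le_mul_of_nonneg_left _ (by positivity)
            exact mul_le_mul_of_nonneg_left h2 (by positivity)
        _ = ε / 4 * Y ^ 2 := by
            rw [hη]
            field_simp
            ring
    -- the main part
    have hMain : ∑ k ∈ T, ‖∑ v ∈ Finset.range V, Qs χ k (blk r v B) *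
        SmF F χ k (Y / r ^ v)‖ ^ 2 ≤ ε / 4 * Y ^ 2 := by
      have h1 := hlev m χ F Y (X ^ τ) r (X ^ a) (X ^ b) α' B V T hF.bd hY hr hr2 hα'0 hα'1 hP2
        (Real.rpow_le_rpow_of_exponent_le hX1 (by linarith)) hY1 hPset
        (fun p hpB => ⟨(spa_pr1 hpB).2.2.1, (spa_pr1 hpB).2.2.2, (hp p hpB).2.2.2⟩) hTK hTQ
      refine h1.trans ?_
      have h2 := hsm X hXX₂
      calc Cl * Y ^ 2 * ((X ^ a) ^ (-α') / (α' * (r - 1))) ^ 2
          = Cl * ((X ^ a) ^ (-α') / (α' * (r - 1))) ^ 2 * Y ^ 2 := by ring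
        _ ≤ ε / 4 * Y ^ 2 := mul_le_mul_of_nonneg_right h2 (by positivity)
    -- conclusion
    have hk : ∀ k ∈ T, ‖SmF F χ k Y‖ ^ 2 ≤
        2 * ‖∑ v ∈ Finset.range V, Qs χ k (blk r v B) * SmF F χ k (Y / r ^ v)‖ ^ 2
        + 2 * ‖∑ z ∈ PB (2 * Y), c z * ang k z‖ ^ 2 := by
      intro k _
      have h1 := hc2 k
      set A := ∑ v ∈ Finset.range V, Qs χ k (blk r v B) * SmF F χ k (Y / r ^ v) with hA
      set E := ∑ z ∈ PB (2 * Y), c z * ang k z with hE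
      have h2 : SmF F χ k Y = E - (1 / (rs B : ℂ)) * A := by
        rw [← h1]
        ring
      have h3 : ‖(1 / (rs B : ℂ)) * A‖ ≤ ‖A‖ := by
        rw [norm_mul, norm_div, norm_one, Complex.norm_real, Real.norm_of_nonneg hrs0.le]
        calc 1 / rs B * ‖A‖ ≤ 1 * ‖A‖ := by
              apply mul_le_mul_of_nonneg_right _ (norm_nonneg _)
              rw [div_le_one hrs0]
              exact hrs1
          _ = ‖A‖ := one_mul _
      have h4 : ‖SmF F χ k Y‖ ≤ ‖E‖ + ‖A‖ := by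
        rw [h2]
        exact (norm_sub_le _ _).trans (by linarith)
      have h5 : ‖SmF F χ k Y‖ ^ 2 ≤ (‖E‖ + ‖A‖) ^ 2 := pow_le_pow_left₀ (norm_nonneg _) h4 2
      have h6 : 0 ≤ (‖E‖ - ‖A‖) ^ 2 := sq_nonneg _
      linarith [h5, h6]
    calc ∑ k ∈ T, ‖SmF F χ k Y‖ ^ 2 ≤ ∑ k ∈ T,
          (2 * ‖∑ v ∈ Finset.range V, Qs χ k (blk r v B) * SmF F χ k (Y / r ^ v)‖ ^ 2
          + 2 * ‖∑ z ∈ PB (2 * Y), c z * ang k z‖ ^ 2) := Finset.sum_le_sum hk
      _ = 2 * ∑ k ∈ T, ‖∑ v ∈ Finset.range V, Qs χ k (blk r v B) *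
            SmF F χ k (Y / r ^ v)‖ ^ 2
          + 2 * ∑ k ∈ T, ‖∑ z ∈ PB (2 * Y), c z * ang k z‖ ^ 2 := by
          rw [Finset.sum_add_distrib, Finset.mul_sum, Finset.mul_sum]
      _ ≤ 2 * (ε / 4 * Y ^ 2) + 2 * (ε / 4 * Y ^ 2) := by linarith
      _ = ε * Y ^ 2 := by ring



end Pool.Agent.TR

namespace Pool.Agent.TR

theorem mr_easyF : type_of% @mr_easyF_pr := @mr_easyF_pr

end Pool.Agent.TR
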