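import Pool.Agent.Lib_helper97.TRL.M1
import Pool.Agent.Lib_helper10.T2F.HMO
import Pool.Agent.Lib_helper10.T2F.LSG
import Pool.Agent.Lib_helper10.T2F.MER
import Pool.Agent.Lib_helper10.T2F.MRT
import Pool.Agent.Lib_helper10.T2F.PEL
import Pool.Agent.Lib_helper10.T2F.PHM
import Pool.Agent.Lib_helper10.T2F.PTW
import Pool.Agent.Lib_helper10.T2F.SPA
import Pool.Agent.Lib_helper10.T2F.TJA
import Pool.Agent.Lib_helper10.T2F.TKA
import Pool.Agent.Lib_helper10.T2F.TKR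
import Pool.Agent.Lib_helper10.T2F.TKV
import Pool.Agent.Lib_helper10.T2F.UCD
import Pool.Agent.Lib_helper97.TRL.B19

set_option autoImplicit false

namespace Pool.Agent.TR

open Pool.Agent.T2 Pool.Agent.TF Filter Topology MeasureTheory

/-- the sum of `Sm` over a sparse set -/
theorem m5_hm {m : G} (χ : MChar m) {F : ℕ → ℝ} (hF : ∀ n, |F n| ≤ 1) {Ch Cb x : ℝ} {U : Finset ℤ} (hCh : 0 ≤ Ch) (hx : 0 ≤ x)
    (hb : ((Bl x).card : ℝ) ≤ Cb * x)
    (hh : ∀ c : G → ℂ, ∑ k ∈ U, ‖∑ z ∈ PB x, c z * ang k z‖ ^ 2 ≤ Ch * x * ∑ z ∈ PB x, ‖c z‖ ^ 2) :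
    ∑ k ∈ U, ‖SmF F χ k x‖ ^ 2 ≤ Ch * Cb * x ^ 2 := by
  have h1 := hh (fun z => (F (nn z) : ℂ) * χ.f z)
  have h2 : ∑ z ∈ PB x, ‖(F (nn z) : ℂ) * χ.f z‖ ^ 2 ≤ Cb * x := by
    calc ∑ z ∈ PB x, ‖(F (nn z) : ℂ) * χ.f z‖ ^ 2 ≤ ∑ z ∈ PB x, (1 : ℝ) := by
          apply Finset.sum_le_sum
          intro z _
          exact pow_le_one₀ (norm_nonneg _) (SmF_coef hF χ z)
      _ = ((PB x).card : ℝ) := by rw [Finset.sum_const, nsmul_eq_mul, mul_one]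
      _ ≤ ((Bl x).card : ℝ) := by
          have hsub : PB x ⊆ Bl x := by
            intro z hz
            rw [mem_PB] at hz
            exact mem_Bl.mpr ⟨prm_ne hz.1, hz.2⟩
          exact_mod_cast Finset.card_le_card hsub
      _ ≤ Cb * x := hb
  calc ∑ k ∈ U, ‖SmF F χ k x‖ ^ 2 = ∑ k ∈ U, ‖∑ z ∈ PB x, ((F (nn z) : ℂ) * χ.f z) * ang k z‖ ^ 2 := by
        simp_rw [SmF_eq]
    _ ≤ Ch * x * ∑ z ∈ PB x, ‖(F (nn z) : ℂ) * χ.f z‖ ^ 2 := h1
    _ ≤ Ch * x * (Cb * x) := mul_le_mul_of_nonneg_left h2 (by positivity)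
    _ = Ch * Cb * x ^ 2 := by ring

/-- the main part -/
theorem m5_main {m : G} (χ : MChar m) (F : ℕ → ℝ) {ρ ε₂ D κ Y : ℝ} {B : Finset ℕ} {V : ℕ} {U : Finset ℤ}
    (hρ : 0 < ρ) (hε₂ : 0 ≤ ε₂) (hD : 0 ≤ D)
    (hv : ∀ v ∈ spa_W ρ B V, (0 : ℝ) < v)
    (hS2 : ∀ k ∈ U, spa_S2 χ ρ B V k ≤ ε₂)
    (hhm : ∀ v ∈ spa_W ρ B V, ∑ k ∈ U, ‖SmF F χ k (Y / ρ ^ v)‖ ^ 2 ≤ D * (Y / ρ ^ v) ^ 2)
    (hsum : ∑ v ∈ spa_W ρ B V, 1 / (v : ℝ) ≤ κ) :
    ∑ k ∈ U, ‖∑ v ∈ Finset.range V, Qs χ k (blk ρ v B) * SmF F χ k (Y / ρ ^ v)‖ ^ 2 ≤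
      ε₂ * D * κ * Y ^ 2 := by
  have hk : ∀ k ∈ U, ‖∑ v ∈ Finset.range V, Qs χ k (blk ρ v B) * SmF F χ k (Y / ρ ^ v)‖ ^ 2 ≤
      ε₂ * ∑ v ∈ spa_W ρ B V, (ρ ^ v) ^ 2 / (v : ℝ) * ‖SmF F χ k (Y / ρ ^ v)‖ ^ 2 := by
    intro k hkU
    have h1 : ∑ v ∈ Finset.range V, Qs χ k (blk ρ v B) * SmF F χ k (Y / ρ ^ v)
        = ∑ v ∈ spa_W ρ B V, Qs χ k (blk ρ v B) * SmF F χ k (Y / ρ ^ v) := by
      symm
      apply Finset.sum_subset (Finset.filter_subset _ _)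
      intro v hvV hvW
      have hemp : blk ρ v B = ∅ := by
        by_contra hc
        exact hvW (Finset.mem_filter.mpr ⟨hvV, Finset.nonempty_iff_ne_empty.mpr hc⟩)
      rw [hemp]
      simp [Qs]
    rw [h1]
    have h2 : ‖∑ v ∈ spa_W ρ B V, Qs χ k (blk ρ v B) * SmF F χ k (Y / ρ ^ v)‖ ≤
        ∑ v ∈ spa_W ρ B V, ‖Qs χ k (blk ρ v B)‖ * ‖SmF F χ k (Y / ρ ^ v)‖ := by
      refine (norm_sum_le _ _).trans (le_of_eq ?_)
      apply Finset.sum_congr rfl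
      intro v _
      rw [norm_mul]
    have h3 : (∑ v ∈ spa_W ρ B V, ‖Qs χ k (blk ρ v B)‖ * ‖SmF F χ k (Y / ρ ^ v)‖) ^ 2 ≤
        (∑ v ∈ spa_W ρ B V, (v : ℝ) / (ρ ^ v) ^ 2 * ‖Qs χ k (blk ρ v B)‖ ^ 2) *
        ∑ v ∈ spa_W ρ B V, (ρ ^ v) ^ 2 / (v : ℝ) * ‖SmF F χ k (Y / ρ ^ v)‖ ^ 2 := by
      apply Finset.sum_sq_le_sum_mul_sum_of_sq_le_mul
      · intro v _
        positivity
      · intro v _
        positivity
      · intro v hvW
        have h4 := hv v hvW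
        have h5 : 0 < ρ ^ v := pow_pos hρ v
        apply le_of_eq
        field_simp
    calc ‖∑ v ∈ spa_W ρ B V, Qs χ k (blk ρ v B) * SmF F χ k (Y / ρ ^ v)‖ ^ 2
        ≤ (∑ v ∈ spa_W ρ B V, ‖Qs χ k (blk ρ v B)‖ * ‖SmF F χ k (Y / ρ ^ v)‖) ^ 2 :=
          pow_le_pow_left₀ (norm_nonneg _) h2 2
      _ ≤ _ := h3
      _ ≤ ε₂ * ∑ v ∈ spa_W ρ B V, (ρ ^ v) ^ 2 / (v : ℝ) * ‖SmF F χ k (Y / ρ ^ v)‖ ^ 2 := by
          apply mul_le_mul_of_nonneg_right (hS2 k hkU)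
          apply Finset.sum_nonneg
          intro v _
          positivity
  calc ∑ k ∈ U, ‖∑ v ∈ Finset.range V, Qs χ k (blk ρ v B) * SmF F χ k (Y / ρ ^ v)‖ ^ 2
      ≤ ∑ k ∈ U, ε₂ * ∑ v ∈ spa_W ρ B V, (ρ ^ v) ^ 2 / (v : ℝ) * ‖SmF F χ k (Y / ρ ^ v)‖ ^ 2 :=
        Finset.sum_le_sum hk
    _ = ε₂ * ∑ v ∈ spa_W ρ B V, (ρ ^ v) ^ 2 / (v : ℝ) * ∑ k ∈ U, ‖SmF F χ k (Y / ρ ^ v)‖ ^ 2 := by
        rw [← Finset.mul_sum, Finset.sum_comm]
        congr 1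
        apply Finset.sum_congr rfl
        intro v _
        rw [Finset.mul_sum]
    _ ≤ ε₂ * ∑ v ∈ spa_W ρ B V, (ρ ^ v) ^ 2 / (v : ℝ) * (D * (Y / ρ ^ v) ^ 2) := by
        apply mul_le_mul_of_nonneg_left _ hε₂
        apply Finset.sum_le_sum
        intro v hvW
        have h4 := hv v hvW
        exact mul_le_mul_of_nonneg_left (hhm v hvW) (by positivity)
    _ = ε₂ * ((D * Y ^ 2) * ∑ v ∈ spa_W ρ B V, 1 / (v : ℝ)) := by
        congr 1
        rw [Finset.mul_sum]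
        apply Finset.sum_congr rfl
        intro v hvW
        have h4 := hv v hvW
        have h5 : 0 < ρ ^ v := pow_pos hρ v
        field_simp
    _ ≤ ε₂ * ((D * Y ^ 2) * κ) := by
        apply mul_le_mul_of_nonneg_left _ hε₂
        exact mul_le_mul_of_nonneg_left hsum (by positivity)
    _ = ε₂ * D * κ * Y ^ 2 := by ring

theorem mr_sparseF_pr {m : G} (χ : MChar m) (δ ρ ε : ℝ) (hδ : 0 < δ) (hδ1 : δ ≤ 1) (hρ : 0 < ρ)
    (hε : 0 < ε) : ∃ (α X₀ : ℝ) (N : ℕ), 0 < α ∧ α ≤ 1 ∧ ∀ X : ℝ, X₀ ≤ X →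
    ∀ U : Finset ℤ, U ⊆ Ks X → (U.card : ℝ) ≤ X ^ α → ∃ U' : Finset ℤ, U' ⊆ U ∧ U'.card ≤ N ∧
      ∀ F : ℕ → ℝ, Flip (X ^ ρ) F → ∀ Y : ℝ, X ^ δ ≤ Y → Y ≤ X →
        ∑ k ∈ U \ U', ‖SmF F χ k Y‖ ^ 2 ≤ ε * Y ^ 2 := by
  classical
  obtain ⟨Ct, hCt, htk⟩ := tk_repF
  obtain ⟨Cm, hCm, hmer⟩ := mer_lower
  obtain ⟨Cb, hCb, hball⟩ := ball_le
  obtain ⟨Ck, hCk, hblk⟩ := block_le
  obtain ⟨α₁, Ch, hα₁, hCh, hhal⟩ := hal_mon (δ / 2) (by positivity) (by linarith)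
  have hCt0 : 0 < Ct := by linarith
  have hCh0 : 0 < Ch := by linarith
  have hCb0 : 0 < Cb := by linarith
  have hCk0 : 0 < Ck := by linarith
  -- parameters
  set η := ε / (16 * (Ch * Ct)) with hη
  have hη0 : 0 < η := by positivity
  set r := 1 + min 1 η with hrd
  have hr : 1 < r := by
    have : 0 < min 1 η := lt_min one_pos hη0
    linarith
  have hr2 : r ≤ 2 := by
    have : min 1 η ≤ 1 := min_le_left _ _
    linarith
  have hrη : r - 1 ≤ η := by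
    have : min 1 η ≤ η := min_le_right _ _
    linarith
  set r₀ := max 1 (2 / η) with hq₀
  have hq1 : 1 ≤ r₀ := le_max_left _ _
  have hq2 : 2 / η ≤ r₀ := le_max_right _ _
  set b := min (δ / 4) ρ with hb
  have hb0 : 0 < b := lt_min (by positivity) hρ
  have hbδ : b ≤ δ / 4 := min_le_left _ _
  have hbρ : b ≤ ρ := min_le_right _ _
  set a := b * Real.exp (-(4 * (r₀ + Cm))) with had
  have ha0 : 0 < a := by positivity
  have hab : a ≤ b := by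
    rw [had]
    have : Real.exp (-(4 * (r₀ + Cm))) ≤ 1 := by
      rw [Real.exp_le_one_iff]
      have : 0 ≤ r₀ + Cm := by linarith
      linarith
    calc b * Real.exp (-(4 * (r₀ + Cm))) ≤ b * 1 := mul_le_mul_of_nonneg_left this hb0.le
      _ = b := mul_one b
  have ha1 : a ≤ 1 := by linarith
  obtain ⟨α₂, Cp, X₁, hα₂, hCp, hphm⟩ := prime_hm (a / 2) (by positivity) (by linarith)
  have hCp0 : 0 < Cp := by linarith
  set κ := 4 * b / a with hκ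
  have hκ0 : 0 < κ := by positivity
  set ε₂ := ε / (4 * (Ch * Cb * κ)) with hε₂d
  have hε₂ : 0 < ε₂ := by positivity
  have hlr : 0 < Real.log r := Real.log_pos hr
  set T := (Cp * Ck) / (Real.log r) ^ 2 * κ with hT
  obtain ⟨X₀, hX₀⟩ := spa_large (X₁ := X₁) ha0 hδ hr
  refine ⟨min 1 (min α₁ α₂), X₀, ⌈T / ε₂⌉₊, lt_min one_pos (lt_min hα₁ hα₂), min_le_left _ _, ?_⟩
  intro X hX U hU hUc
  obtain ⟨hX1, hXX₁, haX, hXr⟩ := hX₀ X hX
  have hX0 : 0 < X := by linarith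
  have hUc1 : (U.card : ℝ) ≤ X ^ α₁ := hUc.trans (Real.rpow_le_rpow_of_exponent_le hX1
    ((min_le_right _ _).trans (min_le_left _ _)))
  have hUc2 : (U.card : ℝ) ≤ X ^ α₂ := hUc.trans (Real.rpow_le_rpow_of_exponent_le hX1
    ((min_le_right _ _).trans (min_le_right _ _)))
  set B := pr1 (X ^ a) (X ^ b) with hB
  have hPset : Pset B := fun p hp => ⟨(spa_pr1 hp).1, (spa_pr1 hp).2.1⟩
  set V := ⌈b * Real.log X / Real.log r⌉₊ with hV
  have hr0 : 0 < r := by linarith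
  have hrV : X ^ b ≤ r ^ V := by
    rw [← Real.log_le_log_iff (Real.rpow_pos_of_pos hX0 _) (pow_pos hr0 V), Real.log_rpow hX0,
      Real.log_pow]
    have := Nat.le_ceil (b * Real.log X / Real.log r)
    rw [div_le_iff₀ hlr] at this
    exact this
  have hlogX : 0 ≤ Real.log X := Real.log_nonneg hX1
  have hexp : Real.exp 1 ≤ X ^ (a / 2) := by
    rw [Real.rpow_def_of_pos hX0, Real.exp_le_exp]
    linarith
  have he2 : (2 : ℝ) ≤ Real.exp 1 := by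
    have := Real.exp_one_gt_d9
    linarith
  have hXa2 : 2 ≤ X ^ (a / 2) := he2.trans hexp
  have hXa : X ^ (a / 2) ≤ X ^ a := Real.rpow_le_rpow_of_exponent_le hX1 (by linarith)
  have hP2 : 2 ≤ X ^ a := hXa2.trans hXa
  have hlogP : Real.log (X ^ a) = a * Real.log X := Real.log_rpow hX0 a
  have hlogP1 : 1 ≤ Real.log (X ^ a) := by rw [hlogP]; linarith
  -- the mass
  have hrs : r₀ ≤ rs B := by
    have h1 := hmer (X ^ a) (X ^ b) hP2 (Real.rpow_le_rpow_of_exponent_le hX1 hab)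
    have h2 : Real.log (X ^ b) / Real.log (X ^ a) = Real.exp (4 * (r₀ + Cm)) := by
      rw [Real.log_rpow hX0, Real.log_rpow hX0, had]
      have hl : Real.log X ≠ 0 := by
        intro h0
        rw [h0] at haX
        linarith
      rw [Real.exp_neg]
      field_simp
    rw [h2, Real.log_exp] at h1
    linarith
  have hrs1 : 1 ≤ rs B := hq1.trans hrs
  have hrs0 : 0 < rs B := by linarith
  have hWv : ∀ v ∈ spa_W r B V, (0 : ℝ) < v := fun v hv => spa_v_pos hX0 haX hr hr2 hv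
  have hWs : ∑ v ∈ spa_W r B V, 1 / (v : ℝ) ≤ κ := spa_sum hX0 ha0 hab haX hr hr2 V
  -- the exceptional set
  refine ⟨U.filter (fun k => ε₂ < spa_S2 χ r B V k), Finset.filter_subset _ _, ?_, ?_⟩
  · have htot : ∑ k ∈ U, spa_S2 χ r B V k ≤ T := by
      apply spa_total χ hr (by positivity) hWv _ hWs
      intro v hv
      have hv' := hv
      rw [spa_W, Finset.mem_filter] at hv'
      obtain ⟨-, -, f3, -⟩ := spa_facts hX0 haX hr hr2 hv'.2
      have hM2 : 2 ≤ r ^ v := hXa2.trans f3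
      have hsub : ∀ p ∈ blk r v B, r ^ v < (p : ℝ) ∧ (p : ℝ) ≤ 2 * r ^ v := by
        intro p hp
        unfold blk at hp
        obtain ⟨-, h1, h2⟩ := Finset.mem_filter.mp hp
        refine ⟨h1, h2.trans ?_⟩
        rw [pow_succ]
        have := pow_pos hr0 v
        nlinarith
      have hPs : Pset (blk r v B) := by
        intro p hp
        unfold blk at hp
        exact hPset p (Finset.mem_filter.mp hp).1
      have h1 := hphm X hXX₁ U hU hUc2 (r ^ v) f3 (blk r v B) hPs hsub (fun p => χ.f (pel p))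
        (fun p => spa_chi_le χ _)
      have h2 := hblk (r ^ v) (blk r v B) hM2 hPs hsub
      have hlM : 0 < Real.log (r ^ v) := Real.log_pos (by linarith)
      calc ∑ k ∈ U, ‖Qs χ k (blk r v B)‖ ^ 2
          = ∑ k ∈ U, ‖∑ p ∈ blk r v B, χ.f (pel p) * ang k (pel p)‖ ^ 2 := by simp_rw [spa_Qs]
        _ ≤ Cp * (r ^ v / Real.log (r ^ v)) * (blk r v B).card := h1
        _ ≤ Cp * (r ^ v / Real.log (r ^ v)) * (Ck * r ^ v / Real.log (r ^ v)) :=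
            mul_le_mul_of_nonneg_left h2 (by positivity)
        _ = Cp * Ck * (r ^ v / Real.log (r ^ v)) ^ 2 := by ring
    have hc := spa_card (f := spa_S2 χ r B V) (U := U)
      (fun k _ => spa_S2_nonneg χ hr0 B V k) hε₂ htot
    have hc2 := hc.trans (Nat.le_ceil (T / ε₂))
    exact_mod_cast hc2
  · intro F hF Y hY1 hY2
    have hXδ1 : 1 ≤ X ^ δ := Real.one_le_rpow hX1 hδ.le
    have hY : 1 ≤ Y := hXδ1.trans hY1
    have hY0 : 0 < Y := by linarith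
    set U₂ := U \ U.filter (fun k => ε₂ < spa_S2 χ r B V k) with hU₂
    have hU₂U : U₂ ⊆ U := Finset.sdiff_subset
    have hS2 : ∀ k ∈ U₂, spa_S2 χ r B V k ≤ ε₂ := by
      intro k hk
      rw [hU₂, Finset.mem_sdiff, Finset.mem_filter] at hk
      by_contra hc
      rw [not_le] at hc
      exact hk.2 ⟨hk.1, hc⟩
    have hU₂K : U₂ ⊆ Ks X := hU₂U.trans hU
    have hU₂c : (U₂.card : ℝ) ≤ X ^ α₁ := by
      refine le_trans ?_ hUc1
      exact_mod_cast Finset.card_le_card hU₂U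
    -- conditions of `tk_rep`
    have hYr : Y ^ (-(1 / 16) : ℝ) ≤ r - 1 := by
      refine le_trans ?_ hXr
      calc Y ^ (-(1 / 16) : ℝ) ≤ (X ^ δ) ^ (-(1 / 16) : ℝ) :=
            Real.rpow_le_rpow_of_nonpos (by positivity) hY1 (by norm_num)
        _ = X ^ (-(δ / 16)) := by
            rw [← Real.rpow_mul hX0.le]
            congr 1
            ring
    have hp : ∀ p ∈ B, X ^ a < (p : ℝ) ∧ (p : ℝ) ≤ X ^ ρ ∧ (p : ℝ) ≤ Y ^ (1 / 4 : ℝ) ∧
        (p : ℝ) ≤ r ^ V := by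
      intro p hpB
      obtain ⟨-, -, h3, h4⟩ := spa_pr1 hpB
      refine ⟨h3, h4.trans (Real.rpow_le_rpow_of_exponent_le hX1 hbρ), h4.trans ?_, h4.trans hrV⟩
      calc X ^ b ≤ X ^ (δ / 4) := Real.rpow_le_rpow_of_exponent_le hX1 hbδ
        _ = (X ^ δ) ^ (1 / 4 : ℝ) := by
            rw [← Real.rpow_mul hX0.le]
            congr 1
            ring
        _ ≤ Y ^ (1 / 4 : ℝ) := Real.rpow_le_rpow (by positivity) hY1 (by norm_num)
    obtain ⟨c, hc1, hc2⟩ := htk m χ F (X ^ ρ) Y r (X ^ a) B V hF hY hr hr2 hYr hP2 hPset hp hrs1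
    -- the error
    have hXδ2 : X ^ (δ / 2) ≤ X ^ δ := Real.rpow_le_rpow_of_exponent_le hX1 (by linarith)
    have hErr : ∑ k ∈ U₂, ‖∑ z ∈ PB (2 * Y), c z * ang k z‖ ^ 2 ≤ ε / 4 * Y ^ 2 := by
      have h1 := hhal X hX1 U₂ hU₂K hU₂c (2 * Y) (by linarith) c
      have h2 : 1 / rs B + (r - 1) + 1 / (rs B ^ 2 * Real.log (X ^ a)) ≤ 2 * η := by
        have g1 : 1 / rs B ≤ η / 2 := by
          rw [div_le_iff₀ hrs0]
          have : 2 / η ≤ rs B := hq2.trans hrs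
          rw [div_le_iff₀ hη0] at this
          linarith
        have g2 : 1 / (rs B ^ 2 * Real.log (X ^ a)) ≤ 1 / rs B := by
          apply one_div_le_one_div_of_le hrs0
          nlinarith
        linarith
      calc _ ≤ Ch * (2 * Y) * ∑ z ∈ PB (2 * Y), ‖c z‖ ^ 2 := h1
        _ ≤ Ch * (2 * Y) * (Ct * Y * (1 / rs B + (r - 1) + 1 / (rs B ^ 2 * Real.log (X ^ a)))) :=
            mul_le_mul_of_nonneg_left hc1 (by positivity)
        _ ≤ Ch * (2 * Y) * (Ct * Y * (2 * η)) := by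
            apply mul_le_mul_of_nonneg_left _ (by positivity)
            exact mul_le_mul_of_nonneg_left h2 (by positivity)
        _ = ε / 4 * Y ^ 2 := by
            rw [hη]
            field_simp
            ring
    -- the main part
    have hMain : ∑ k ∈ U₂, ‖∑ v ∈ Finset.range V, Qs χ k (blk r v B) * SmF F χ k (Y / r ^ v)‖ ^ 2 ≤
        ε / 4 * Y ^ 2 := by
      have h1 := m5_main χ F (ρ := r) (ε₂ := ε₂) (D := Ch * Cb) (κ := κ) (Y := Y) (B := B) (V := V)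
        (U := U₂) hr0 hε₂.le (by positivity) hWv hS2 (fun v hv => by
          have hv' := hv
          rw [spa_W, Finset.mem_filter] at hv'
          obtain ⟨-, -, -, f4⟩ := spa_facts hX0 haX hr hr2 hv'.2
          have h5 : 0 < r ^ v := pow_pos hr0 v
          have hx : X ^ (δ / 2) ≤ Y / r ^ v := by
            rw [le_div_iff₀ h5]
            calc X ^ (δ / 2) * r ^ v ≤ X ^ (δ / 2) * X ^ b :=
                  mul_le_mul_of_nonneg_left f4 (by positivity)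
              _ = X ^ (δ / 2 + b) := by rw [← Real.rpow_add hX0]
              _ ≤ X ^ δ := Real.rpow_le_rpow_of_exponent_le hX1 (by linarith)
              _ ≤ Y := hY1
          exact m5_hm χ hF.bd hCh0.le (by positivity) (hball _ (by positivity))
            (fun c' => hhal X hX1 U₂ hU₂K hU₂c (Y / r ^ v) hx c')) hWs
      calc _ ≤ ε₂ * (Ch * Cb) * κ * Y ^ 2 := h1
        _ = ε / 4 * Y ^ 2 := by
            rw [hε₂d]
            field_simp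
    -- conclusion
    have hk : ∀ k ∈ U₂, ‖SmF F χ k Y‖ ^ 2 ≤
        2 * ‖∑ v ∈ Finset.range V, Qs χ k (blk r v B) * SmF F χ k (Y / r ^ v)‖ ^ 2
        + 2 * ‖∑ z ∈ PB (2 * Y), c z * ang k z‖ ^ 2 := by
      intro k _
      have h1 := hc2 k
      set A := ∑ v ∈ Finset.range V, Qs χ k (blk r v B) * SmF F χ k (Y / r ^ v) with hA
      set E := ∑ z ∈ PB (2 * Y), c z * ang k z with hE
      have h2 : SmF F χ k Y = E - (1 / (rs B : ℂ)) * A := by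
        rw [← h1]
        ring
      have h3 : ‖(1 / (rs B : ℂ)) * A‖ ≤ ‖A‖ := by
        rw [norm_mul, norm_div, norm_one, Complex.norm_real, Real.norm_of_nonneg hrs0.le]
        calc 1 / rs B * ‖A‖ ≤ 1 * ‖A‖ := by
              apply mul_le_mul_of_nonneg_right _ (norm_nonneg _)
              rw [div_le_one hrs0]
              exact hrs1
          _ = ‖A‖ := one_mul _
      have h4 : ‖SmF F χ k Y‖ ≤ ‖E‖ + ‖A‖ := by
        rw [h2]
        exact (norm_sub_le _ _).trans (by linarith)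
      have h5 : ‖SmF F χ k Y‖ ^ 2 ≤ (‖E‖ + ‖A‖) ^ 2 := pow_le_pow_left₀ (norm_nonneg _) h4 2
      have h6 : 0 ≤ (‖E‖ - ‖A‖) ^ 2 := sq_nonneg _
      linarith [h5, h6]
    calc ∑ k ∈ U₂, ‖SmF F χ k Y‖ ^ 2 ≤ ∑ k ∈ U₂,
          (2 * ‖∑ v ∈ Finset.range V, Qs χ k (blk r v B) * SmF F χ k (Y / r ^ v)‖ ^ 2
          + 2 * ‖∑ z ∈ PB (2 * Y), c z * ang k z‖ ^ 2) := Finset.sum_le_sum hk
      _ = 2 * ∑ k ∈ U₂, ‖∑ v ∈ Finset.range V, Qs χ k (blk r v B) * SmF F χ k (Y / r ^ v)‖ ^ 2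
          + 2 * ∑ k ∈ U₂, ‖∑ z ∈ PB (2 * Y), c z * ang k z‖ ^ 2 := by
          rw [Finset.sum_add_distrib, Finset.mul_sum, Finset.mul_sum]
      _ ≤ 2 * (ε / 4 * Y ^ 2) + 2 * (ε / 4 * Y ^ 2) := by linarith
      _ = ε * Y ^ 2 := by ring



end Pool.Agent.TR

namespace Pool.Agent.TR

theorem mr_sparseF : type_of% @mr_sparseF_pr := @mr_sparseF_pr

end Pool.Agent.TR
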