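import Pool.Agent.Lib_helper97.TRL.M10
import Pool.Agent.Lib_helper97.TRL.M11
import Pool.Agent.Lib_helper97.TRL.M4
import Pool.Agent.Lib_helper97.TRL.M5
import Pool.Agent.Lib_helper10.T2F.HMO
import Pool.Agent.Lib_helper10.T2F.LSG
import Pool.Agent.Lib_helper10.T2F.MER
import Pool.Agent.Lib_helper10.T2F.MRT
import Pool.Agent.Lib_helper10.T2F.PEL
import Pool.Agent.Lib_helper10.T2F.PHM
import Pool.Agent.Lib_helper10.T2F.PTW
import Pool.Agent.Lib_helper10.T2F.SPA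
import Pool.Agent.Lib_helper10.T2F.TJA
import Pool.Agent.Lib_helper10.T2F.TKA
import Pool.Agent.Lib_helper10.T2F.TKR
import Pool.Agent.Lib_helper10.T2F.TKV
import Pool.Agent.Lib_helper10.T2F.UCD
import Pool.Agent.Lib_helper97.TRL.B19

/-! TR, part M, block M12 -/

set_option autoImplicit false

namespace Pool.Agent.TR

open Pool.Agent.T2 Pool.Agent.TF Filter Topology

/-- the choice of the parameters -/
theorem m12_param (ζ τ ρ : ℝ) (hζ : 0 < ζ) (hτ : 0 < τ) (hρ : 0 < ρ) : ∃ X₀ : ℝ, ∀ X : ℝ, X₀ ≤ X →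
    1 + ζ ≤ X ∧ Real.exp 1 ≤ X ∧ ((1 + ζ) * X) ^ (ρ / 2) ≤ X ^ ρ ∧
      ((1 + ζ) * X) ^ (min (τ / 2) 1) ≤ ζ * X ^ τ := by
  have h1 : Tendsto (fun X : ℝ => X ^ (τ / 2)) atTop atTop := tendsto_rpow_atTop (by positivity)
  obtain ⟨X₁, hX₁⟩ := (h1.eventually_ge_atTop ((1 + ζ) ^ (τ / 2) / ζ)).exists_forall_of_atTop
  refine ⟨max X₁ (max (1 + ζ) (Real.exp 1)), ?_⟩
  intro X hX
  simp only [max_le_iff] at hX
  obtain ⟨hX1, hX2, hX3⟩ := hX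
  have hX0 : 0 < X := lt_of_lt_of_le (Real.exp_pos 1) hX3
  have hζ1 : 0 < 1 + ζ := by linarith
  refine ⟨hX2, hX3, ?_, ?_⟩
  · rw [Real.mul_rpow hζ1.le hX0.le]
    calc (1 + ζ) ^ (ρ / 2) * X ^ (ρ / 2) ≤ X ^ (ρ / 2) * X ^ (ρ / 2) := by
          gcongr
      _ = X ^ ρ := by
          rw [← Real.rpow_add hX0]
          congr 1
          ring
  · have h2 : 1 ≤ (1 + ζ) * X := by nlinarith
    calc ((1 + ζ) * X) ^ (min (τ / 2) 1) ≤ ((1 + ζ) * X) ^ (τ / 2) :=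
          Real.rpow_le_rpow_of_exponent_le h2 (min_le_left _ _)
      _ = (1 + ζ) ^ (τ / 2) * X ^ (τ / 2) := Real.mul_rpow hζ1.le hX0.le
      _ ≤ (ζ * X ^ (τ / 2)) * X ^ (τ / 2) := by
          have h3 := hX₁ X hX1
          rw [div_le_iff₀ hζ] at h3
          have h4 : (1 + ζ) ^ (τ / 2) ≤ ζ * X ^ (τ / 2) := by linarith
          gcongr
      _ = ζ * X ^ τ := by
          rw [mul_assoc, ← Real.rpow_add hX0]
          congr 2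
          ring

theorem mr_mainF_pr {m : G} (hm : m ≠ 0) (χ : MChar m) (ζ τ ρ ε : ℝ) (hζ : 0 < ζ) (hτ : 0 < τ)
    (hρ : 0 < ρ) (hε : 0 < ε) : ∃ X₀ : ℝ, ∀ X : ℝ, X₀ ≤ X → ∀ F : ℕ → ℝ, Flip (X ^ ρ) F →
      ∑ Y ∈ (Finset.Icc 1 ⌊X⌋₊).filter (fun Y : ℕ => X ^ τ ≤ (Y : ℝ)),
        (∑ k ∈ Ks (Y / X ^ τ), ‖SmF F χ k (ζ * Y)‖ ^ 2) / (Y : ℝ) ^ 3 ≤
          ε * Real.log X := by
  classical
  obtain ⟨X₄, hpar⟩ := m12_param ζ τ ρ hζ hτ hρ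
  set τ' : ℝ := min (τ / 2) 1 with hτ'
  have hτ'0 : 0 < τ' := lt_min (by positivity) one_pos
  have hτ'1 : τ' ≤ 1 := min_le_right _ _
  set Z : ℝ := ζ ^ 3 * (1 / ζ + 1) with hZ
  have hZ0 : 0 < Z := by positivity
  obtain ⟨α, X₁, N, hα, hα1, hsp⟩ := mr_sparseF χ τ' (ρ / 2) (ε / (8 * ζ ^ 2)) hτ'0 hτ'1
    (by positivity) (by positivity)
  obtain ⟨X₂, hty⟩ := mr_easyF χ τ' (ρ / 2) α (ε / (8 * ζ ^ 2)) hτ'0 hτ'1 (by positivity) hα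
    (by positivity)
  obtain ⟨X₃, hpt⟩ := mr_pointF hm χ (ρ / 2) (ε / (4 * (N + 1) * Z)) (by positivity)
    (by positivity)
  refine ⟨max X₁ (max X₂ (max X₃ X₄)), ?_⟩
  intro X hX F hF
  simp only [max_le_iff] at hX
  obtain ⟨hX1, hX2, hX3, hX4⟩ := hX
  obtain ⟨hp1, hp2, hp3, hp4⟩ := hpar X hX4
  have hX0 : 0 < X := lt_of_lt_of_le (Real.exp_pos 1) hp2
  have hXge1 : 1 ≤ X := (Real.one_le_exp (by norm_num)).trans hp2
  have hlog1 : 1 ≤ Real.log X := by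
    rw [Real.le_log_iff_exp_le hX0]; exact hp2
  set X' : ℝ := (1 + ζ) * X with hX'
  have hXX' : X ≤ X' := by rw [hX']; nlinarith
  have hF' : Flip (X' ^ (ρ / 2)) F := flip_mono hp3 hF
  obtain ⟨U, hU, hUc, hUty⟩ := hty X' (hX2.trans hXX')
  obtain ⟨U', hU', hU'c, hUsp⟩ := hsp X' (hX1.trans hXX') U hU hUc
  have hX'0 : 0 < X' := by linarith
  have hX'τ : 0 < X' ^ τ' := Real.rpow_pos_of_pos hX'0 _
  have hXτ : 0 < X ^ τ := Real.rpow_pos_of_pos hX0 _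
  -- pointwise bound
  have key : ∀ Y ∈ (Finset.Icc 1 ⌊X⌋₊).filter (fun Y : ℕ => X ^ τ ≤ (Y : ℝ)),
      (∑ k ∈ Ks ((Y : ℝ) / X ^ τ), ‖SmF F χ k (ζ * Y)‖ ^ 2) / (Y : ℝ) ^ 3 ≤
      ε / 4 * (1 / (Y : ℝ)) + ∑ k ∈ U', ‖SmF F χ k (⌊ζ * Y⌋₊ : ℝ)‖ ^ 2 / (Y : ℝ) ^ 3 := by
    intro Y hY
    rw [Finset.mem_filter, Finset.mem_Icc] at hY
    have hY1 : (1 : ℝ) ≤ Y := by exact_mod_cast hY.1.1
    have hYX : (Y : ℝ) ≤ X := (Nat.le_floor_iff hX0.le).1 hY.1.2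
    have hY0 : (0 : ℝ) < Y := by linarith
    have hyl : X' ^ τ' ≤ ζ * Y := by
      refine hp4.trans ?_
      have := hY.2
      gcongr
    have hyu : ζ * Y ≤ X' := by
      rw [hX']
      nlinarith
    have h1 := hUty F hF' (ζ * Y) hyl hyu
    have h2 := hUsp F hF' (ζ * Y) hyl hyu
    have hsub : Ks ((Y : ℝ) / X ^ τ) ⊆ Ks (ζ * Y / X' ^ τ') := by
      intro k hk
      rw [mem_Ks] at hk ⊢
      refine hk.trans ?_
      rw [div_le_div_iff₀ hXτ hX'τ]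
      calc (Y : ℝ) * X' ^ τ' ≤ Y * (ζ * X ^ τ) := by gcongr
        _ = ζ * Y * X ^ τ := by ring
    have h3 : ∑ k ∈ Ks ((Y : ℝ) / X ^ τ), ‖SmF F χ k (ζ * Y)‖ ^ 2 ≤
        ∑ k ∈ Ks (ζ * Y / X' ^ τ') \ U, ‖SmF F χ k (ζ * Y)‖ ^ 2 +
          (∑ k ∈ U \ U', ‖SmF F χ k (ζ * Y)‖ ^ 2 + ∑ k ∈ U', ‖SmF F χ k (ζ * Y)‖ ^ 2) := by
      rw [Finset.sum_sdiff hU']
      calc ∑ k ∈ Ks ((Y : ℝ) / X ^ τ), ‖SmF F χ k (ζ * Y)‖ ^ 2
          ≤ ∑ k ∈ (Ks (ζ * Y / X' ^ τ') \ U) ∪ U, ‖SmF F χ k (ζ * Y)‖ ^ 2 := by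
            apply Finset.sum_le_sum_of_subset_of_nonneg
            · intro k hk
              have := hsub hk
              rw [Finset.mem_union, Finset.mem_sdiff]
              tauto
            · intro _ _ _; positivity
        _ = _ := Finset.sum_union Finset.sdiff_disjoint
    have h4 : ∑ k ∈ Ks ((Y : ℝ) / X ^ τ), ‖SmF F χ k (ζ * Y)‖ ^ 2 ≤ ε / 4 * (Y : ℝ) ^ 2 +
        ∑ k ∈ U', ‖SmF F χ k (⌊ζ * Y⌋₊ : ℝ)‖ ^ 2 := by
      have h5 : ε / (8 * ζ ^ 2) * (ζ * Y) ^ 2 = ε / 8 * (Y : ℝ) ^ 2 := by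
        field_simp
      rw [h5] at h1 h2
      have h6 : ∑ k ∈ U', ‖SmF F χ k (⌊ζ * Y⌋₊ : ℝ)‖ ^ 2 = ∑ k ∈ U', ‖SmF F χ k (ζ * Y)‖ ^ 2 := by
        apply Finset.sum_congr rfl
        intro k _
        rw [← SmF_floor]
      rw [h6]
      linarith
    rw [← Finset.sum_div, div_le_iff₀ (by positivity)]
    refine h4.trans (le_of_eq ?_)
    field_simp
  have hscale : ∀ k ∈ U', ∑ Y ∈ Finset.Icc 1 ⌊X⌋₊, ‖SmF F χ k (⌊ζ * Y⌋₊ : ℝ)‖ ^ 2 / (Y : ℝ) ^ 3 ≤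
      Z * (ε / (4 * (N + 1) * Z) * Real.log X') := by
    intro k hk
    have h1 := mrf_scale (fun y : ℕ => ‖SmF F χ k (y : ℝ)‖ ^ 2) (fun y => by positivity)
      (by
        have h0 := SmF_zero F χ k (x := ((0 : ℕ) : ℝ)) (by norm_num)
        show ‖SmF F χ k ((0 : ℕ) : ℝ)‖ ^ 2 = 0
        rw [h0]; simp) ζ X hζ hX0.le
    refine h1.trans ?_
    rw [← hZ]
    apply mul_le_mul_of_nonneg_left _ hZ0.le
    have h2 := hpt X' (hX3.trans hXX') F hF' k (hU (hU' hk))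
    refine le_trans ?_ h2
    apply Finset.sum_le_sum_of_subset_of_nonneg
    · apply Finset.Icc_subset_Icc_right
      apply Nat.floor_le_floor
      rw [hX']
      nlinarith
    · intro _ _ _; positivity
  have hlogX' : Real.log X' ≤ 2 * Real.log X := by
    rw [hX', Real.log_mul (by linarith) hX0.ne']
    have : Real.log (1 + ζ) ≤ Real.log X := Real.log_le_log (by linarith) hp1
    linarith
  calc ∑ Y ∈ (Finset.Icc 1 ⌊X⌋₊).filter (fun Y : ℕ => X ^ τ ≤ (Y : ℝ)),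
        (∑ k ∈ Ks (Y / X ^ τ), ‖SmF F χ k (ζ * Y)‖ ^ 2) / (Y : ℝ) ^ 3
      ≤ ∑ Y ∈ (Finset.Icc 1 ⌊X⌋₊).filter (fun Y : ℕ => X ^ τ ≤ (Y : ℝ)),
        (ε / 4 * (1 / (Y : ℝ)) + ∑ k ∈ U', ‖SmF F χ k (⌊ζ * Y⌋₊ : ℝ)‖ ^ 2 / (Y : ℝ) ^ 3) :=
        Finset.sum_le_sum key
    _ ≤ ∑ Y ∈ Finset.Icc 1 ⌊X⌋₊,
        (ε / 4 * (1 / (Y : ℝ)) + ∑ k ∈ U', ‖SmF F χ k (⌊ζ * Y⌋₊ : ℝ)‖ ^ 2 / (Y : ℝ) ^ 3) := by
        apply Finset.sum_le_sum_of_subset_of_nonneg (Finset.filter_subset _ _)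
        intro Y _ _
        have : 0 ≤ ∑ k ∈ U', ‖SmF F χ k (⌊ζ * Y⌋₊ : ℝ)‖ ^ 2 / (Y : ℝ) ^ 3 :=
          Finset.sum_nonneg (fun _ _ => by positivity)
        positivity
    _ = ε / 4 * ∑ Y ∈ Finset.Icc 1 ⌊X⌋₊, 1 / (Y : ℝ) +
        ∑ k ∈ U', ∑ Y ∈ Finset.Icc 1 ⌊X⌋₊, ‖SmF F χ k (⌊ζ * Y⌋₊ : ℝ)‖ ^ 2 / (Y : ℝ) ^ 3 := by
        rw [Finset.sum_add_distrib, Finset.sum_comm (s := U'), Finset.mul_sum]
    _ ≤ ε / 4 * (1 + Real.log X) + ∑ k ∈ U', Z * (ε / (4 * (N + 1) * Z) * Real.log X') := by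
        have h1 := mrt_harm X hXge1
        have h2 := Finset.sum_le_sum hscale
        gcongr
    _ = ε / 4 * (1 + Real.log X) + U'.card * (Z * (ε / (4 * (N + 1) * Z) * Real.log X')) := by
        rw [Finset.sum_const, nsmul_eq_mul]
    _ ≤ ε / 4 * (1 + Real.log X) + N * (Z * (ε / (4 * (N + 1) * Z) * (2 * Real.log X))) := by
        have h0 : 0 ≤ Real.log X' := Real.log_nonneg (by linarith)
        have h3 : (U'.card : ℝ) ≤ N := by exact_mod_cast hU'c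
        gcongr
    _ ≤ ε * Real.log X := by
        have h4 : (N : ℝ) * (Z * (ε / (4 * (N + 1) * Z) * (2 * Real.log X))) ≤
            ε / 2 * Real.log X := by
          have h5 : (N : ℝ) * (Z * (ε / (4 * (N + 1) * Z) * (2 * Real.log X))) =
              ((N : ℝ) / (N + 1)) * (ε / 2 * Real.log X) := by
            field_simp
            ring
          rw [h5]
          have h6 : (N : ℝ) / (N + 1) ≤ 1 := by
            rw [div_le_one (by positivity)]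
            linarith
          have h7 : 0 ≤ ε / 2 * Real.log X := by positivity
          nlinarith
        nlinarith



end Pool.Agent.TR

namespace Pool.Agent.TR

theorem mr_mainF : type_of% @mr_mainF_pr := @mr_mainF_pr

end Pool.Agent.TR
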