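import Pool.Agent.Lib_helper10.T2F.HMO
import Pool.Agent.Lib_helper10.T2F.LSG
import Pool.Agent.Lib_helper10.T2F.MER
import Pool.Agent.Lib_helper10.T2F.MRT
import Pool.Agent.Lib_helper10.T2F.PEL
import Pool.Agent.Lib_helper10.T2F.PHM
import Pool.Agent.Lib_helper10.T2F.PTW
import Pool.Agent.Lib_helper10.T2F.SPA
import Pool.Agent.Lib_helper10.T2F.TJA
import Pool.Agent.Lib_helper10.T2F.TKA
import Pool.Agent.Lib_helper10.T2F.TKR
import Pool.Agent.Lib_helper10.T2F.TKV
import Pool.Agent.Lib_helper10.T2F.UCD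
import Pool.Agent.Lib_helper97.TRL.B19

set_option autoImplicit false

namespace Pool.Agent.TR

open Pool.Agent.T2 Pool.Agent.TF Filter Topology

open ArithmeticFunction in
theorem m6_zero {R : ℝ} {F : ℕ → ℝ} (hF : Flip R F) {p d : ℕ} (hp : p.Prime) (hpR : (p : ℝ) ≤ R)
    (hpd : p ∣ d) (hd : d ≠ 0) :
    ∑ x ∈ d.divisorsAntidiagonal, ((moebius x.1 : ℤ) : ℝ) * (lam x.2 * F x.2) = 0 := by
  classical
  have hg : ∀ b, b ≠ 0 → lam (p * b) * F (p * b) = lam b * F b := by
    intro b hb
    rw [hF.flip p b hp hpR hb, lam_mul, lam_prime hp]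
    ring
  have hmu : ∀ a, ¬ p ∣ a → moebius (p * a) = - moebius a := by
    intro a ha
    have hcop : Nat.Coprime p a := (Nat.Prime.coprime_iff_not_dvd hp).2 ha
    rw [isMultiplicative_moebius.map_mul_of_coprime hcop, moebius_apply_prime hp]
    ring
  have h1 : ∑ x ∈ d.divisorsAntidiagonal, ((moebius x.1 : ℤ) : ℝ) * (lam x.2 * F x.2) =
      ∑ x ∈ d.divisorsAntidiagonal.filter (fun x => Squarefree x.1),
        ((moebius x.1 : ℤ) : ℝ) * (lam x.2 * F x.2) := by
    symm
    apply Finset.sum_filter_of_ne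
    intro x _ hx
    by_contra hsq
    rw [moebius_eq_zero_of_not_squarefree hsq] at hx
    simp at hx
  rw [h1]
  apply Finset.sum_involution (fun x _ => if p ∣ x.1 then (x.1 / p, p * x.2) else
    (p * x.1, x.2 / p))
  · intro x hx
    rw [Finset.mem_filter, Nat.mem_divisorsAntidiagonal] at hx
    obtain ⟨⟨hx1, _⟩, hsq⟩ := hx
    have hb0 : x.2 ≠ 0 := by
      intro h
      rw [h, mul_zero] at hx1
      exact hd hx1.symm
    split_ifs with h
    · obtain ⟨a, ha⟩ := h
      have hna : ¬ p ∣ a := by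
        rintro ⟨c, hc⟩
        rw [ha, hc] at hsq
        have := hsq p ⟨c, by ring⟩
        exact hp.not_isUnit this
      have h2 : x.1 / p = a := by rw [ha, Nat.mul_div_cancel_left _ hp.pos]
      simp only [h2]
      rw [hg x.2 hb0, ha, hmu a hna]
      push_cast
      ring
    · have hpb : p ∣ x.2 := by
        rw [← hx1] at hpd
        exact ((Nat.Prime.dvd_mul hp).1 hpd).resolve_left h
      obtain ⟨b, hb⟩ := hpb
      have h2 : x.2 / p = b := by rw [hb, Nat.mul_div_cancel_left _ hp.pos]
      have hb1 : b ≠ 0 := by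
        rintro rfl
        exact hb0 (by rw [hb, mul_zero])
      simp only [h2]
      rw [hmu x.1 h, hb, hg b hb1]
      push_cast
      ring
  · intro x hx hne
    rw [Finset.mem_filter, Nat.mem_divisorsAntidiagonal] at hx
    obtain ⟨⟨hx1, _⟩, hsq⟩ := hx
    have ha0 : x.1 ≠ 0 := by
      intro h
      rw [h, zero_mul] at hx1
      exact hd hx1.symm
    have hb0 : x.2 ≠ 0 := by
      intro h
      rw [h, mul_zero] at hx1
      exact hd hx1.symm
    split_ifs with h
    · intro he
      have := congrArg Prod.snd he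
      simp only at this
      have h3 : p * x.2 = 1 * x.2 := by rw [this, one_mul]
      exact hp.one_lt.ne' (Nat.eq_of_mul_eq_mul_right (Nat.pos_of_ne_zero hb0) h3)
    · intro he
      have := congrArg Prod.fst he
      simp only at this
      have h3 : p * x.1 = 1 * x.1 := by rw [this, one_mul]
      exact hp.one_lt.ne' (Nat.eq_of_mul_eq_mul_right (Nat.pos_of_ne_zero ha0) h3)
  · intro x hx
    rw [Finset.mem_filter, Nat.mem_divisorsAntidiagonal] at hx
    obtain ⟨⟨hx1, _⟩, hsq⟩ := hx
    rw [Finset.mem_filter, Nat.mem_divisorsAntidiagonal]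
    split_ifs with h
    · obtain ⟨a, ha⟩ := h
      have h2 : x.1 / p = a := by rw [ha, Nat.mul_div_cancel_left _ hp.pos]
      simp only [h2]
      refine ⟨⟨?_, hd⟩, ?_⟩
      · rw [← hx1, ha]
        ring
      · rw [ha] at hsq
        exact hsq.squarefree_of_dvd (dvd_mul_left _ _)
    · have hpb : p ∣ x.2 := by
        rw [← hx1] at hpd
        exact ((Nat.Prime.dvd_mul hp).1 hpd).resolve_left h
      obtain ⟨b, hb⟩ := hpb
      have h2 : x.2 / p = b := by rw [hb, Nat.mul_div_cancel_left _ hp.pos]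
      simp only [h2]
      refine ⟨⟨?_, hd⟩, ?_⟩
      · rw [← hx1, hb]
        ring
      · rw [Nat.squarefree_mul ((Nat.Prime.coprime_iff_not_dvd hp).2 h)]
        exact ⟨hp.squarefree, hsq⟩
  · intro x hx
    rw [Finset.mem_filter, Nat.mem_divisorsAntidiagonal] at hx
    obtain ⟨⟨hx1, _⟩, hsq⟩ := hx
    by_cases h : p ∣ x.1
    · obtain ⟨a, ha⟩ := h
      have hna : ¬ p ∣ a := by
        rintro ⟨c, hc⟩
        rw [ha, hc] at hsq
        have := hsq p ⟨c, by ring⟩
        exact hp.not_isUnit this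
      have h2 : x.1 / p = a := by rw [ha, Nat.mul_div_cancel_left _ hp.pos]
      have h : p ∣ x.1 := ⟨a, ha⟩
      simp only [h, if_true, h2, hna, if_false]
      ext
      · simp only [ha]
      · simp only
        rw [Nat.mul_div_cancel_left _ hp.pos]
    · have hpb : p ∣ x.2 := by
        rw [← hx1] at hpd
        exact ((Nat.Prime.dvd_mul hp).1 hpd).resolve_left h
      obtain ⟨b, hb⟩ := hpb
      have h2 : x.2 / p = b := by rw [hb, Nat.mul_div_cancel_left _ hp.pos]
      simp only [h, if_false, h2, dvd_mul_right, if_true]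
      ext
      · simp only
        rw [Nat.mul_div_cancel_left _ hp.pos]
      · simp only [hb]

theorem m6_card (d : ℕ) (hd : d ≠ 0) :
    (d.divisors.card : ℝ) ≤ 2 ^ (ArithmeticFunction.cardFactors d) := by
  classical
  induction d using induction_on_primes with
  | zero => exact absurd rfl hd
  | one => simp
  | prime_mul p a hp ih =>
    have ha : a ≠ 0 := by
      rintro rfl
      exact hd (mul_zero _)
    have h1 := ih ha
    have h2 : (p * a).divisors ⊆ a.divisors ∪ a.divisors.image (fun e => p * e) := by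
      intro e he
      rw [Nat.mem_divisors] at he
      rw [Finset.mem_union, Finset.mem_image]
      by_cases h : p ∣ e
      · right
        obtain ⟨f, hf⟩ := h
        refine ⟨f, ?_, hf.symm⟩
        rw [Nat.mem_divisors]
        refine ⟨?_, ha⟩
        rw [hf] at he
        exact Nat.dvd_of_mul_dvd_mul_left hp.pos he.1
      · left
        rw [Nat.mem_divisors]
        exact ⟨(((Nat.Prime.coprime_iff_not_dvd hp).2 h).symm).dvd_of_dvd_mul_left he.1, ha⟩
    have h3 : ((p * a).divisors.card : ℝ) ≤ a.divisors.card + a.divisors.card := by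
      have h4 := (Finset.card_le_card h2).trans (Finset.card_union_le _ _)
      have h5 := h4.trans (Nat.add_le_add_left Finset.card_image_le _)
      exact_mod_cast h5
    rw [ArithmeticFunction.cardFactors_mul hp.ne_zero ha,
      ArithmeticFunction.cardFactors_apply_prime hp, pow_add, pow_one]
    linarith

open ArithmeticFunction in
theorem flip_conv_pr (ρ : ℝ) (hρ : 0 < ρ) : ∃ C : ℝ, 1 ≤ C ∧ ∀ X : ℝ, 2 ≤ X → ∀ F : ℕ → ℝ,
    Flip (X ^ ρ) F → ∃ H : ℕ → ℝ, (∀ n : ℕ, n ≠ 0 → F n = lam n * ∑ d ∈ n.divisors, H d) ∧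
      (∀ d, H d ≠ 0 → Rough (X ^ ρ) d) ∧ ∀ d : ℕ, (d : ℝ) ≤ X → |H d| ≤ C := by
  classical
  refine ⟨2 ^ (1 / ρ), ?_, ?_⟩
  · exact Real.one_le_rpow (by norm_num) (by positivity)
  intro X hX F hF
  have hl0 : lam 0 = 0 := by simp [lam]
  set gA : ArithmeticFunction ℝ := ⟨fun n => lam n * F n, by simp [hl0]⟩ with hgA
  set hA : ArithmeticFunction ℝ := ((moebius : ArithmeticFunction ℤ) : ArithmeticFunction ℝ) * gA
    with hhA
  have happ : ∀ d, hA d = ∑ x ∈ d.divisorsAntidiagonal,
      ((moebius x.1 : ℤ) : ℝ) * (lam x.2 * F x.2) := by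
    intro d
    rw [hhA, ArithmeticFunction.mul_apply]
    rfl
  have hH1 : ∀ d, hA d ≠ 0 → Rough (X ^ ρ) d := by
    intro d hd
    have hd0 : d ≠ 0 := by
      rintro rfl
      exact hd ArithmeticFunction.map_zero
    refine ⟨hd0, fun p hp hpd => ?_⟩
    by_contra hc
    rw [not_lt] at hc
    apply hd
    rw [happ]
    exact m6_zero hF hp hc hpd hd0
  refine ⟨fun d => hA d, ?_, hH1, ?_⟩
  · intro n hn
    have h1 : ∑ d ∈ n.divisors, hA d = lam n * F n := by
      rw [← ArithmeticFunction.coe_zeta_mul_apply, hhA, ← mul_assoc,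
        ArithmeticFunction.coe_zeta_mul_coe_moebius, one_mul]
      rfl
    simp only [h1]
    rw [← mul_assoc, ← pow_two, lam_sq hn, one_mul]
  · intro d hdX
    by_cases h0 : hA d = 0
    · simp only [h0, abs_zero]
      positivity
    have hr := hH1 d h0
    have hom := rough_omega hρ (by linarith) hr hdX
    calc |hA d| ≤ ∑ x ∈ d.divisorsAntidiagonal, (1 : ℝ) := by
          rw [happ]
          refine (Finset.abs_sum_le_sum_abs _ _).trans ?_
          apply Finset.sum_le_sum
          intro x _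
          rw [abs_mul, abs_mul]
          have h2 : |((moebius x.1 : ℤ) : ℝ)| ≤ 1 := by
            have := ArithmeticFunction.abs_moebius_le_one (n := x.1)
            have h3 : |((moebius x.1 : ℤ) : ℝ)| = ((|moebius x.1| : ℤ) : ℝ) := by push_cast; rfl
            rw [h3]
            exact_mod_cast this
          have h4 : |lam x.2| * |F x.2| ≤ 1 :=
            mul_le_one₀ (lam_abs _) (abs_nonneg _) (hF.bd _)
          exact mul_le_one₀ h2 (by positivity) h4
      _ = (d.divisors.card : ℝ) := by
          rw [Finset.sum_const, nsmul_eq_mul, mul_one]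
          congr 1
          rw [← Nat.map_div_right_divisors, Finset.card_map]
      _ ≤ 2 ^ (ArithmeticFunction.cardFactors d) := m6_card d hr.1
      _ = (2 : ℝ) ^ ((ArithmeticFunction.cardFactors d : ℕ) : ℝ) := (Real.rpow_natCast _ _).symm
      _ ≤ 2 ^ (1 / ρ) := Real.rpow_le_rpow_of_exponent_le (by norm_num) hom

end Pool.Agent.TR

namespace Pool.Agent.TR

theorem flip_conv : type_of% @flip_conv_pr := @flip_conv_pr

end Pool.Agent.TR
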